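import Pool.Agent.MP_ee8c61_ag.H59.Cx

/-!
Systems of charts inside one ambient ring, their lattices of logarithmic forms, polarizations,
Frobenius data and models.
-/

namespace Pool.Agent.MP_ee8c61_ag.H59

open Finset

/-- Charts `A a` with coordinates `z a` inside the ring `Ω`, which has a reference frame `r`.
`η a j` is the equation of the `j`-th divisor in the chart `a`. -/
structure Sys (k Ω ι J : Type) (n : ℕ) [CommRing k] [CommRing Ω] [Algebra k Ω] where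
  r : Fin n → Ω
  R : Fin n → Derivation k Ω Ω
  A : ι → Subalgebra k Ω
  z : ι → Fin n → Ω
  D : ι → Fin n → Derivation k Ω Ω
  lab : ι → J → Option (Fin n)
  η : ι → J → Ωˣ
  R_r : ∀ i j, R i (r j) = if i = j then 1 else 0
  R_comm : ∀ i j g, R i (R j g) = R j (R i g)
  D_z : ∀ a i j, D a i (z a j) = if i = j then 1 else 0
  D_R : ∀ a i g, D a i g = ∑ l, D a i (r l) * R l g
  z_mem : ∀ a i, z a i ∈ A a
  D_mem : ∀ a i, ∀ g ∈ A a, D a i g ∈ A a
  lab_inj : ∀ a j j' i, lab a j = some i → lab a j' = some i → j = j'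
  η_some : ∀ a j i, lab a j = some i → (η a j : Ω) = z a i
  η_none : ∀ a j, lab a j = none → η a j = 1
  η_mem : ∀ a b j, ((η a j / η b j : Ωˣ) : Ω) ∈ A a ⊔ A b
  loc : ∀ a b, ∀ g ∈ A b, ∃ u : Ωˣ, (u : Ω) ∈ A a ∧ ((u⁻¹ : Ωˣ) : Ω) ∈ A a ⊔ A b ∧ u * g ∈ A a

section Pol

variable {k Ω κ : Type} [CommRing k] [CommRing Ω] [Algebra k Ω]

open MvPolynomial

theorem coeff_sum_map (D : Derivation k Ω Ω) (P : MvPolynomial κ Ω) (e : κ →₀ ℕ) :
    coeff e (∑ e ∈ P.support, monomial e (D (coeff e P))) = D (coeff e P) := by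
  classical
  simp only [coeff_sum, coeff_monomial, sum_ite_eq', mem_support_iff]
  by_cases h1 : coeff e P = 0 <;> simp [h1]

/-- A derivation acting on the coefficients of polynomials. -/
noncomputable def dpol (κ : Type) (D : Derivation k Ω Ω) :
    Derivation k (MvPolynomial κ Ω) (MvPolynomial κ Ω) :=
  Derivation.mk'
    { toFun := fun P => ∑ e ∈ P.support, monomial e (D (coeff e P))
      map_add' := fun P Q => by
        ext e
        rw [coeff_add, coeff_sum_map, coeff_sum_map, coeff_sum_map, coeff_add, map_add]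
      map_smul' := fun c P => by
        ext e
        rw [coeff_smul, coeff_sum_map, coeff_sum_map, coeff_smul, Derivation.map_smul,
          RingHom.id_apply] }
    (fun P Q => by
      classical
      ext e
      change coeff e (∑ e ∈ _, _) = coeff e (P • (∑ e ∈ _, _) + Q • (∑ e ∈ _, _))
      rw [coeff_sum_map, smul_eq_mul, smul_eq_mul, mul_comm Q, coeff_add, coeff_mul, coeff_mul,
        coeff_mul, map_sum, ← sum_add_distrib]
      refine sum_congr rfl fun x _ => ?_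
      rw [coeff_sum_map, coeff_sum_map, Derivation.leibniz, smul_eq_mul, smul_eq_mul,
        mul_comm (coeff x.2 Q)])

theorem coeff_dpol (D : Derivation k Ω Ω) (P : MvPolynomial κ Ω) (e : κ →₀ ℕ) :
    coeff e (dpol κ D P) = D (coeff e P) := coeff_sum_map D P e

theorem dpol_C (D : Derivation k Ω Ω) (g : Ω) : dpol κ D (C g) = C (D g) := by
  classical
  ext e
  rw [coeff_dpol, coeff_C, coeff_C]
  split_ifs <;> simp

/-- Polynomials with coefficients in a subalgebra. -/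
noncomputable def spol (κ : Type) (A : Subalgebra k Ω) : Subalgebra k (MvPolynomial κ Ω) where
  carrier := {P | ∀ e, coeff e P ∈ A}
  mul_mem' := fun {P Q} hP hQ e => by
    classical
    rw [coeff_mul]
    exact sum_mem fun x _ => mul_mem (hP _) (hQ _)
  add_mem' := fun hP hQ e => by
    rw [coeff_add]
    exact add_mem (hP _) (hQ _)
  algebraMap_mem' := fun c e => by
    classical
    rw [MvPolynomial.algebraMap_apply, coeff_C]
    split_ifs
    · exact A.algebraMap_mem c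
    · exact zero_mem _

theorem C_mem_spol {A : Subalgebra k Ω} {g : Ω} (h : g ∈ A) : C g ∈ spol κ A := fun e => by
  classical
  rw [coeff_C]
  split_ifs
  · exact h
  · exact zero_mem _

theorem C_mem_sup {A B : Subalgebra k Ω} {g : Ω} (h : g ∈ A ⊔ B) :
    C g ∈ spol κ A ⊔ spol κ B := by
  have : A ⊔ B ≤ (spol κ A ⊔ spol κ B).comap (IsScalarTower.toAlgHom k Ω (MvPolynomial κ Ω)) :=
    sup_le (fun g hg => (le_sup_left : spol κ A ≤ _) (C_mem_spol hg))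
      fun g hg => (le_sup_right : spol κ B ≤ _) (C_mem_spol hg)
  exact this h

end Pol

namespace Sys

variable {k Ω ι J : Type} {n m : ℕ} [CommRing k] [CommRing Ω] [Algebra k Ω] (S : Sys k Ω ι J n)

open MvPolynomial in
/-- The same system after adjoining polynomial variables. -/
noncomputable def pol (κ : Type) : Sys k (MvPolynomial κ Ω) ι J n where
  r l := C (S.r l)
  R l := dpol κ (S.R l)
  A a := spol κ (S.A a)
  z a i := C (S.z a i)
  D a i := dpol κ (S.D a i)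
  lab := S.lab
  η a j := Units.map (C : Ω →+* MvPolynomial κ Ω).toMonoidHom (S.η a j)
  R_r i j := by
    rw [dpol_C, S.R_r]
    split_ifs <;> simp
  R_comm i j g := by
    ext e
    simp only [coeff_dpol, S.R_comm i j]
  D_z a i j := by
    rw [dpol_C, S.D_z]
    split_ifs <;> simp
  D_R a i g := by
    ext e
    simp only [coeff_dpol, dpol_C, coeff_sum, coeff_C_mul]
    exact S.D_R a i _
  z_mem a i := C_mem_spol (S.z_mem a i)
  D_mem a i g hg e := by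
    rw [coeff_dpol]
    exact S.D_mem a i _ (hg e)
  lab_inj := S.lab_inj
  η_some a j i h := congrArg C (S.η_some a j i h)
  η_none a j h := by rw [S.η_none a j h, map_one]
  η_mem a b j := by
    rw [← map_div]
    exact C_mem_sup (S.η_mem a b j)
  loc a b g hg := by
    classical
    choose u h1 h2 h3 using fun e => S.loc a b _ (hg e)
    refine ⟨Units.map (C : Ω →+* MvPolynomial κ Ω).toMonoidHom (∏ e ∈ g.support, u e), ?_, ?_,
      fun e => ?_⟩
    · refine C_mem_spol ?_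
      rw [Units.coe_prod]
      exact prod_mem fun e _ => h1 e
    · rw [← map_inv, ← prod_inv_distrib]
      refine C_mem_sup ?_
      rw [Units.coe_prod]
      exact prod_mem fun e _ => h2 e
    · change coeff e (C _ * g) ∈ _
      rw [coeff_C_mul]
      by_cases he : e ∈ g.support
      · rw [← mul_prod_erase _ _ he, Units.val_mul, mul_comm (u e : Ω), mul_assoc, Units.coe_prod]
        exact mul_mem (prod_mem fun e _ => h1 e) (h3 e)
      · rw [notMem_support_iff.1 he, mul_zero]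
        exact zero_mem _

/-- The one-form `d g` in the reference frame. -/
def gr (g : Ω) : Fin n → Ω := fun l => S.R l g

/-- The exterior derivative. -/
def dd : Op (Fm n Ω) := dR fun l => dop (S.R l)

/-- `u` is a unit of the chart `a`. -/
def IsU (a : ι) (u : Ωˣ) : Prop := (u : Ω) ∈ S.A a ∧ ((u⁻¹ : Ωˣ) : Ω) ∈ S.A a

/-- The ring of the intersection of the charts in `σ`. -/
def AA (σ : Finset ι) : Subalgebra k Ω := ⨆ a ∈ σ, S.A a

/-- The map that defines the coordinates of the chart `a`. -/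
noncomputable def zh (a : ι) : MvPolynomial (Fin n) k →ₐ[k] S.A a :=
  MvPolynomial.aeval fun i => ⟨S.z a i, S.z_mem a i⟩

structure Good : Prop where
  fg : ∀ a, (S.A a).FG
  et : ∀ a, (S.zh a).toRingHom.Etale
  gen : Algebra.adjoin k ({g | ∃ a, g ∈ S.A a} ∪ {g | ∃ a j, g = (((S.η a j)⁻¹ : Ωˣ) : Ω)}) = ⊤

/-- Monic polynomials in distinct coordinates form regular sequences. -/
def Reg : Prop :=
  ∀ (σ : Finset ι), ∀ a ∈ σ, ∀ (g : Fin n → Polynomial k), (∀ i, (g i).Monic) →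
    ∀ (s : Finset (Fin n)), ∀ i ∉ s, ∀ h ∈ S.AA σ,
    (∃ c : Fin n → Ω, (∀ l, c l ∈ S.AA σ) ∧ Polynomial.aeval (S.z a i) (g i) * h =
      ∑ l ∈ s, Polynomial.aeval (S.z a l) (g l) * c l) →
    ∃ c : Fin n → Ω, (∀ l, c l ∈ S.AA σ) ∧ h = ∑ l ∈ s, Polynomial.aeval (S.z a l) (g l) * c l

variable [Fintype J]

/-- The coordinate `z a i` if it defines a divisor, and `1` otherwise. -/
def un (a : ι) (i : Fin n) : Ωˣ := ∏ j, if S.lab a j = some i then S.η a j else 1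

/-- The logarithmic frame of one-forms. -/
def e (a : ι) (i : Fin n) : Fin n → Ω := fun l => (((S.un a i)⁻¹ : Ωˣ) : Ω) * S.R l (S.z a i)

/-- The dual frame of vector fields. -/
def v (a : ι) (i : Fin n) : Fin n → Ω := fun l => (S.un a i : Ω) * S.D a i (S.r l)

/-- The derivations of the dual frame. -/
def dv (a : ι) (i : Fin n) : Derivation k Ω Ω := (S.un a i : Ω) • S.D a i

/-- Coordinates of a form in the logarithmic frame. -/
def crd (a : ι) : Op (Fm n Ω) := lam fun l i => S.v a i l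

def frm (a : ι) : Op (Fm n Ω) := lam (S.e a)

def mon (a : ι) (c : J → ℤ) : Ωˣ := ∏ j, S.η a j ^ c j

/-- The fractional monomial ideal with exponents in `C`. -/
def NN (a : ι) (σ : Finset ι) (C : Finset (J → ℤ)) : AddSubgroup Ω :=
  ⨆ c ∈ C, (S.AA σ).toSubring.toAddSubgroup.map (AddMonoidHom.mulLeft (S.mon a c : Ω))

/-- Logarithmic forms on the intersection `σ` with coefficients in a monomial ideal. -/
def lm (C : Finset (J → ℤ)) (σ : Finset ι) : Lat (Fm n Ω) := fun p =>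
  (⨅ a ∈ σ, (fl n (S.NN a σ C) p).comap (S.crd a)) ⊓ ⨅ _ : ¬ σ.Nonempty, ⊥

/-- The Cech complex. -/
def T (C : Finset (J → ℤ)) : Lat (Ch ι (Fm n Ω)) := lat (S.lm C)

/-- Logarithmic one-forms and vector fields that are regular on `σ`. -/
def LogF (σ : Finset ι) (α : Fin n → Ω) : Prop := ∀ a ∈ σ, ∀ i, S.v a i ⬝ᵥ α ∈ S.AA σ

def LogV (σ : Finset ι) (β : Fin n → Ω) : Prop := ∀ a ∈ σ, ∀ i, β ⬝ᵥ S.e a i ∈ S.AA σ

/-- The Euler field of the divisor `j` in the chart `a`. -/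
def vv (a : ι) (j : J) : Fin n → Ω := (S.lab a j).elim 0 (S.v a)

structure Pol (x : Fin m → Ω) (w : J → ℤ) (ρ : ι → Ωˣ) : Prop where
  x_mem : ∀ a l, x l ∈ S.A a
  mem : ∀ a b, ((ρ a / ρ b : Ωˣ) : Ω) ∈ S.A b
  loc : ∀ a b, ∀ g ∈ S.A a, ∃ e : ℕ, (((ρ a / ρ b) ^ e : Ωˣ) : Ω) * g ∈ S.A b
  ord : ∀ a, S.IsU a (ρ a * S.mon a w)
  int : ∀ a, ∀ g ∈ S.A a, IsIntegral (Algebra.adjoin k
    (Set.range x ∪ Set.range fun b => ((ρ b / ρ a : Ωˣ) : Ω))) g

/-- The round-up of `w / μ`. -/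
def cl (w : J → ℤ) (μ : ℕ) : J → ℤ := fun j => ⌈(w j : ℚ) / μ⌉

def Adm (x : Fin m → Ω) (c : J → ℤ) : Prop :=
  ∃ (w : J → ℤ) (ρ : ι → Ωˣ) (μ : ℕ), 0 < μ ∧ S.Pol x w ρ ∧ c = cl w μ

variable [Fintype ι] [LinearOrder ι] [Inhabited ι]

def pick (σ : Finset ι) : ι := σ.min.untopD default

/-- The homotopy attached to the divisor `j`. -/
def hh (j : J) : Op (Ch ι (Fm n Ω)) := ods fun σ => co (S.vv (pick σ) j)

omit [Inhabited ι] in
/-- The Koszul complex of `t` on the Cech complex. -/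
def kc {κ : Type} [LinearOrder κ] (d : Op (Fm n Ω)) (t : κ → Ω) (s : Finset κ) :
    Op (Ch κ (Ch ι (Fm n Ω))) :=
  kos (cech d) (fun l => mu _ (t l)) s

omit [Inhabited ι] in
/-- Vanishing up to degree `q` for the pair of lattices `C`, `C'` at the point `x0`. -/
def NVp (x : Fin m → Ω) (x0 : Fin m → k) (C C' : Finset (J → ℤ)) (q : ℤ) : Prop :=
  ∀ j ≤ q, Van (kc 0 (fun l => x l - algebraMap k Ω (x0 l)) univ) (kl univ fun _ => S.T C)
    (kl univ fun _ => S.T C') j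

omit [Inhabited ι] in
def NV (x : Fin m → Ω) (x0 : Fin m → k) (c : J → ℤ) : Prop := S.NVp x x0 {c} ∅ n

end Sys

section Frob

variable {k Ω ι J : Type} {n : ℕ} [CommRing k] [CommRing Ω] [Algebra k Ω] (S : Sys k Ω ι J n)
  (ℓ : ℕ) (δ : ι → Fin n → Ω)

def Sys.hz (a : ι) (α : Fin n → Ω) : Ω := ∑ l, α l ^ ℓ * δ a l

def Sys.zr (α : Fin n → Ω) : Fin n → Ω := fun l => α l ^ ℓ * S.r l ^ (ℓ - 1)

def Sys.zt (a : ι) (α : Fin n → Ω) : Fin n → Ω :=
  fun l => S.zr ℓ α l + S.R l (Sys.hz ℓ δ a α)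

/-- The traces modulo `ℓ` of lifts of Frobenius adapted to the charts. -/
structure Sys.FD [Fintype J] : Prop where
  zt : ∀ a i, S.zt ℓ δ a (S.gr (S.z a i)) = fun l => S.z a i ^ (ℓ - 1) * S.R l (S.z a i)
  hz : ∀ a b i, Sys.hz ℓ δ a (S.e b i) - Sys.hz ℓ δ b (S.e b i) ∈ S.A a ⊔ S.A b

/-- Every function is a sum of `ℓ`-th powers times monomials in the coordinates. -/
def Sys.Span : Prop :=
  ∀ (σ : Finset ι), ∀ a ∈ σ, ∀ g ∈ S.AA σ, g ∈ AddSubgroup.closure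
    {h | ∃ u ∈ S.AA σ, ∃ e : Fin n → ℕ, (∀ i, e i < ℓ) ∧ h = u ^ ℓ * ∏ i, S.z a i ^ e i}

end Frob

section Hom

variable {k Ω k' Ω' ι J : Type} {n m : ℕ} [CommRing k] [CommRing Ω] [Algebra k Ω] [CommRing k']
  [CommRing Ω'] [Algebra k' Ω']

structure Sys.Hom (S : Sys k Ω ι J n) (S' : Sys k' Ω' ι J n) (φ : Ω →+* Ω') : Prop where
  r : ∀ l, φ (S.r l) = S'.r l
  R : ∀ l g, φ (S.R l g) = S'.R l (φ g)
  z : ∀ a i, φ (S.z a i) = S'.z a i
  D : ∀ a i g, φ (S.D a i g) = S'.D a i (φ g)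
  lab : S.lab = S'.lab
  η : ∀ a j, φ (S.η a j) = S'.η a j
  A : ∀ a, ∀ g ∈ S.A a, φ g ∈ S'.A a

end Hom

section Model

variable {Ω O F ι J : Type} {n m : ℕ} (ℓ : ℕ) [Fact ℓ.Prime] [CommRing Ω] [Algebra ℂ Ω]
  [CommRing O] [Algebra ℤ_[ℓ] O] [CommRing F] [Algebra (ZMod ℓ) F] [Fintype J]

/-- `SO` is an `ℓ`-adic model of `S`. -/
structure ExtOK (SO : Sys ℤ_[ℓ] O ι J n) (S : Sys ℂ Ω ι J n) (ψ : ℤ_[ℓ] →+* ℂ) (ex : O →+* Ω) :
    Prop where
  hom : SO.Hom S ex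
  inj : Function.Injective ψ
  alg : ∀ c, ex (algebraMap _ O c) = algebraMap ℂ Ω (ψ c)
  span : ∀ a, ∀ g ∈ S.A a, g ∈ Submodule.span ℂ (ex '' (SO.A a : Set O))
  ld : ∀ (q : ℕ) (c : Fin q → ℂ) (g : Fin q → O),
    (∀ o : Fin q → ℤ_[ℓ], ∑ i, ψ (o i) * c i = 0 → o = 0) → ∑ i, c i • ex (g i) = 0 → g = 0

/-- `SF` is the reduction of `SO`. -/
structure RedOK (SO : Sys ℤ_[ℓ] O ι J n) (SF : Sys (ZMod ℓ) F ι J n) (rd : O →+* F) : Prop where
  hom : SO.Hom SF rd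
  alg : ∀ c, rd (algebraMap _ O c) = algebraMap (ZMod ℓ) F (PadicInt.toZMod c)
  onto : ∀ a, ∀ g ∈ SF.A a, ∃ g' ∈ SO.A a, rd g' = g
  ker : ∀ g, rd g = 0 → ∃ g', g = ℓ * g'
  sat : ∀ a (g : O), ℓ * g ∈ SO.A a → g ∈ SO.A a
  tf : ∀ g : O, ℓ * g = 0 → g = 0

end Model

/-- Spreading out: models over `ℤ_[ℓ]` and `ZMod ℓ` for some large prime `ℓ`. -/
def SSpread : Prop :=
  ∀ (Ω ι J : Type) (n m : ℕ) [CommRing Ω] [IsDomain Ω] [Algebra ℂ Ω] [Fintype ι] [Nonempty ι]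
    [Fintype J] (S : Sys ℂ Ω ι J n) (x : Fin m → Ω) (w : J → ℤ) (ρ : ι → Ωˣ) (x0 : Fin m → ℂ)
    (B : ℕ), S.Good → S.Pol x w ρ →
    ∃ (ℓ : ℕ) (_ : Fact ℓ.Prime) (O F : Type) (_ : CommRing O) (_ : Algebra ℤ_[ℓ] O)
      (_ : CommRing F) (_ : Algebra (ZMod ℓ) F) (SO : Sys ℤ_[ℓ] O ι J n)
      (SF : Sys (ZMod ℓ) F ι J n) (ψ : ℤ_[ℓ] →+* ℂ) (ex : O →+* Ω) (rd : O →+* F)
      (xO : Fin m → O) (x0O : Fin m → ℤ_[ℓ]) (ρO : ι → Oˣ) (ρF : ι → Fˣ) (δ : ι → Fin n → F),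
      B < ℓ ∧ ExtOK ℓ SO S ψ ex ∧ RedOK ℓ SO SF rd ∧ (∀ l, ex (xO l) = x l) ∧
      (∀ l, ψ (x0O l) = x0 l) ∧ (∀ a, (SO.A a).FG) ∧ SO.Pol xO w ρO ∧ SF.Good ∧
      SF.Pol (fun l => rd (xO l)) w ρF ∧ SF.FD ℓ δ

section Main

variable {Ω ι J : Type} {n m : ℕ} [CommRing Ω] [Algebra ℂ Ω] (S : Sys ℂ Ω ι J n)

open MvPolynomial

abbrev PX (m : ℕ) (Ω : Type) [CommRing Ω] : Type := MvPolynomial (Option (Fin m)) Ω

/-- The one-form `∑ ξ i d (x i) + s d f / f`. -/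
noncomputable def Sys.th (x : Fin m → Ω) (f : Ωˣ) : Fin n → PX m Ω := fun l =>
  ∑ i, X (some i) * C (S.R l (x i)) + X none * C (((f⁻¹ : Ωˣ) : Ω) * S.R l f)

/-- The input of the main theorem. -/
structure Sys.MainIn [Fintype J] (x : Fin m → Ω) (f : Ωˣ) (a kk : J → ℕ) (b : Polynomial ℂ) :
    Prop where
  good : S.Good
  r_mem : ∀ c l, S.r l ∈ S.A c
  f_ord : ∀ c, S.IsU c (f * S.mon c fun j => -(a j : ℤ))
  det : ∀ c, ∃ U : Ωˣ, S.IsU c U ∧ (Matrix.of fun l i => S.D c i (S.r l)).det =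
    ((U * S.mon c fun j => (kk j : ℤ) : Ωˣ) : Ω)
  bs : ∃ (u : ℕ) (β : Fin n → PX m Ω) (Q : PX m Ω),
    (∀ c l e, (f : Ω) ^ u * coeff e (β l) ∈ S.A c) ∧ (∀ c e, coeff e Q ∈ S.A c) ∧
    Polynomial.aeval (X none : PX m Ω) b =
      C (f : Ω) * Q + ∑ l, (dpol _ (S.R l) (β l) + S.th x f l * β l)

end Main

/-- The main theorem for systems of charts. -/
def SMain : Prop :=
  ∀ (Ω ι J : Type) (n m : ℕ) [CommRing Ω] [IsDomain Ω] [Algebra ℂ Ω] [Fintype ι] [Nonempty ι]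
    [Fintype J] (S : Sys ℂ Ω ι J n) (x : Fin m → Ω) (f : Ωˣ) (a kk : J → ℕ) (b : Polynomial ℂ)
    (w : J → ℤ) (ρ : ι → Ωˣ) (μ : ℕ) (I : Finset J) (la : ℂ) (c0 : ι),
    S.MainIn x f a kk b → S.Pol x w ρ → 0 < μ → (∀ j, w j ≤ μ * (kk j + 1)) →
    (∀ j, a j = 0 → w j ≤ 0) →
    (∀ i ∈ I, w i = μ * (kk i + 1)) → (∀ i ∈ I, (kk i + 1 : ℂ) = la * a i) →
    (¬ ∃ h : J → Ω, (∀ i, h i ∈ S.A c0) ∧ 1 = ∑ i ∈ I, (S.η c0 i : Ω) * h i) →
    (Polynomial.X + Polynomial.C la) ^ I.card ∣ b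

end Pool.Agent.MP_ee8c61_ag.H59
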