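import Pool.Agent.MP_ee8c61_ag.H59.SpecB

/-! Twists of admissible exponents are admissible. -/

namespace Pool.Agent.MP_ee8c61_ag.H59

open Finset Sys

namespace AdmX

variable {Ω ι J : Type} {n m : ℕ} [CommRing Ω] [Algebra ℂ Ω] {S : Sys ℂ Ω ι J n}

theorem umul {a : ι} {u v : Ωˣ} (h : S.IsU a u) (h' : S.IsU a v) : S.IsU a (u * v) :=
  ⟨mul_mem h.1 h'.1, by rw [mul_inv, Units.val_mul]; exact mul_mem h.2 h'.2⟩

theorem upow {a : ι} {u : Ωˣ} (h : S.IsU a u) (k : ℕ) : S.IsU a (u ^ k) :=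
  ⟨by rw [Units.val_pow_eq_pow_val]; exact pow_mem h.1 k,
    by rw [← inv_pow, Units.val_pow_eq_pow_val]; exact pow_mem h.2 k⟩

theorem uzpow {a : ι} {u : Ωˣ} (h : S.IsU a u) (k : ℤ) : S.IsU a (u ^ k) := by
  obtain ⟨k, rfl | rfl⟩ := k.eq_nat_or_neg
  · simpa using upow h k
  · rw [zpow_neg, zpow_natCast]
    exact ⟨(upow h k).2, (upow h k).1⟩

variable [Fintype J] {x : Fin m → Ω} {w : J → ℤ} {ρ : ι → Ωˣ}

theorem clr (P : S.Pol x w ρ) [DecidableEq ι] (a b : ι) {g : Ω} (hg : g ∈ S.AA {a, b}) :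
    ∃ e : ℕ, ∀ k, e ≤ k → (((ρ a / ρ b) ^ k : Ωˣ) : Ω) * g ∈ S.A b := by
  simp only [Units.val_pow_eq_pow_val]
  let B : Subalgebra ℂ Ω :=
    { carrier := {g | ∃ e : ℕ, ∀ k, e ≤ k → ((ρ a / ρ b : Ωˣ) : Ω) ^ k * g ∈ S.A b}
      mul_mem' := fun ⟨e, h⟩ ⟨e', h'⟩ => ⟨e + e', fun k hk => by
        obtain ⟨k, rfl⟩ := Nat.exists_eq_add_of_le hk
        rw [add_assoc, pow_add, mul_mul_mul_comm]
        exact mul_mem (h e le_rfl) (h' _ le_self_add)⟩
      add_mem' := fun ⟨e, h⟩ ⟨e', h'⟩ => ⟨e + e', fun k hk => by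
        rw [mul_add]
        exact add_mem (h k (by omega)) (h' k (by omega))⟩
      algebraMap_mem' := fun c => ⟨0, fun k _ =>
        mul_mem (pow_mem (P.mem a b) k) (algebraMap_mem _ c)⟩ }
  refine (iSup₂_le fun c hc g hg => ?_ : S.AA {a, b} ≤ B) hg
  rcases mem_insert.1 hc with hc | hc
  · obtain ⟨e, h⟩ := P.loc a b g (hc ▸ hg)
    refine ⟨e, fun k hk => ?_⟩
    obtain ⟨k, rfl⟩ := Nat.exists_eq_add_of_le' hk
    rw [pow_add, mul_assoc]
    exact mul_mem (pow_mem (P.mem a b) k) h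
  · rw [mem_singleton.1 hc] at hg
    exact ⟨0, fun k _ => mul_mem (pow_mem (P.mem a b) k) hg⟩

theorem val [IsDomain Ω] [Fintype ι] [Nonempty ι] (P : S.Pol x w ρ)
    (V : ValuationSubring (FractionRing Ω))
    (hc : ∀ c : ℂ, algebraMap Ω (FractionRing Ω) (algebraMap ℂ Ω c) ∈ V)
    (hx : ∀ l, algebraMap Ω (FractionRing Ω) (x l) ∈ V) :
    ∃ b, ∀ g ∈ S.A b, algebraMap Ω (FractionRing Ω) g ∈ V := by
  obtain ⟨b, hb⟩ := Finite.exists_max fun c => V.valuation (algebraMap Ω (FractionRing Ω) (ρ c))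
  refine ⟨b, fun g hg => ?_⟩
  have h : ∀ y ∈ Algebra.adjoin ℂ (Set.range x ∪ Set.range fun c => ((ρ c / ρ b : Ωˣ) : Ω)),
      algebraMap Ω (FractionRing Ω) y ∈ V := fun y hy => by
    induction hy using Algebra.adjoin_induction with
    | mem y h =>
      rcases h with ⟨l, rfl⟩ | ⟨c, rfl⟩
      · exact hx l
      · beta_reduce
        rw [← V.valuation_le_one_iff, div_eq_mul_inv, Units.val_mul, map_mul, map_units_inv,
          ← div_eq_mul_inv, map_div₀]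
        exact div_le_one_of_le₀ (hb c) zero_le
    | algebraMap c => exact hc c
    | add _ _ _ _ h h' => rw [map_add]; exact add_mem h h'
    | mul _ _ _ _ h h' => rw [map_mul]; exact mul_mem h h'
  obtain ⟨y, hy⟩ := IsIntegrallyClosed.algebraMap_eq_of_integral ((P.int b g hg).map_of_comp_eq
    (T := V) (U := FractionRing Ω) (((algebraMap Ω _).comp (algebraMap _ Ω)).codRestrict V
      fun y => h y.1 y.2) (algebraMap Ω _) rfl)
  exact hy ▸ y.2

end AdmX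

open AdmX in
theorem rowAdm : OfAdm := by
  intro hF hL hV Ω ι J n m _ _ _ _ _ _ S x w ρ μ f a P μ0 hf
  classical
  have F := hF ℂ Ω ι J n S
  have m0 : (μ : ℚ) ≠ 0 := by positivity
  refine ⟨fun u => ⟨w + (u * μ) • a, fun c => ρ c * f ^ (-(u * μ)), μ, μ0,
    ⟨P.x_mem, ?_, ?_, fun c => ?_, ?_⟩, funext fun j => ?_⟩, fun W hW => ?_⟩
  · simpa only [mul_div_mul_right_eq_div] using P.mem
  · simpa only [mul_div_mul_right_eq_div] using P.loc
  · have := umul (P.ord c) (uzpow (hf c) (-(u * μ)))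
    rw [mul_zpow, ← F.mon_zsmul, mul_mul_mul_comm, ← F.mon_add] at this
    convert this using 3
    ext j
    simp
  · intro c g hg
    rw [funext fun b => congrArg Units.val (mul_div_mul_right_eq_div (ρ b) (ρ c) _)]
    exact P.int c g hg
  · simp only [cl, Pi.add_apply, Pi.smul_apply, smul_eq_mul]
    rw [← Int.ceil_add_intCast]
    congr 1
    push_cast
    field_simp
  choose e he using fun p : ι × ι => clr P p.1 p.2 ((hL ℂ Ω ι J n S).mon_div {p.1, p.2} p.2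
    (by simp) p.1 (by simp) (ind W))
  obtain ⟨K, hK⟩ : ∃ K : ℕ, ∀ p, e p ≤ K := ⟨_, fun p => le_sup (f := e) (mem_univ p)⟩
  have q : ∀ b c, ∃ h ∈ S.A c, ((ρ b ^ (K + 1) / S.mon b (ind W) /
      (ρ c ^ (K + 1) / S.mon c (ind W)) : Ωˣ) : Ω) = h * (ρ b / ρ c : Ωˣ) := fun b c =>
    ⟨_, he (b, c) K (hK _), by
      rw [← Units.val_mul, ← Units.val_mul, div_div_div_comm, ← div_pow, pow_succ, div_eq_mul_inv,
        inv_div, mul_right_comm]⟩
  have q1 : ∀ b c, ((ρ b ^ (K + 1) / S.mon b (ind W) /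
      (ρ c ^ (K + 1) / S.mon c (ind W)) : Ωˣ) : Ω) ∈ S.A c := fun b c => by
    obtain ⟨h, h1, h2⟩ := q b c
    exact h2 ▸ mul_mem h1 (P.mem b c)
  have q2 : ∀ b c, ∀ g ∈ S.A b, ∃ k : ℕ, (((ρ b ^ (K + 1) / S.mon b (ind W) /
      (ρ c ^ (K + 1) / S.mon c (ind W))) ^ k : Ωˣ) : Ω) * g ∈ S.A c := fun b c g hg => by
    obtain ⟨h, h1, h2⟩ := q b c
    obtain ⟨k, hk⟩ := P.loc b c g hg
    refine ⟨k, ?_⟩
    rw [Units.val_pow_eq_pow_val, h2, mul_pow, mul_assoc]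
    exact mul_mem (pow_mem h1 k) hk
  refine ⟨((K + 1 : ℕ) : ℤ) • w + ind W, fun c => ρ c ^ (K + 1) / S.mon c (ind W), (K + 1) * μ,
    by positivity, ⟨P.x_mem, q1, q2, fun c => ?_, hV Ω ι J n m S x _ q1 q2 (val P)⟩,
    funext fun j => ?_⟩
  · rw [F.mon_add, F.mon_zsmul, zpow_natCast, mul_comm (S.mon c w ^ _), ← mul_assoc,
      div_mul_cancel, ← mul_pow]
    exact upow (P.ord c) _
  · simp only [cl, Pi.add_apply, Pi.smul_apply, smul_eq_mul, ind_apply]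
    split_ifs with h
    · obtain ⟨t, ht⟩ := hW j h
      have k1 : (1 : ℚ) ≤ ((K + 1) * μ : ℕ) := Nat.one_le_cast.2 (Nat.mul_pos K.succ_pos μ0)
      have e1 : ((w j : ℤ) : ℚ) / μ = t := by rw [ht]; push_cast; field_simp
      have e2 : ((((K + 1 : ℕ) : ℤ) * w j + 1 : ℤ) : ℚ) / ((K + 1) * μ : ℕ)
          = 1 / ((K + 1) * μ : ℕ) + t := by rw [ht]; push_cast; field_simp; ring
      rw [e1, e2, Int.ceil_intCast, Int.ceil_add_intCast, add_comm, add_left_inj, eq_comm,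
        Int.ceil_eq_iff]
      exact ⟨by simpa using inv_pos.2 (zero_lt_one.trans_le k1),
        by simpa using inv_le_one_of_one_le₀ k1⟩
    · rw [add_zero, add_zero]
      congr 1
      push_cast
      field_simp

end Pool.Agent.MP_ee8c61_ag.H59
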