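import Pool.Agent.MP_ee8c61_ag.H59.SpecA

/-!
An operator with empty spectrum on a space of countable dimension.
-/

namespace Pool.Agent.MP_ee8c61_ag.H59

open Finset

namespace AmX

open Polynomial in
theorem zero {H : Type} [AddCommGroup H] [Module ℂ H] (V : Module.End ℂ H)
    (hr : Module.rank ℂ H ≤ Cardinal.aleph0) (h : ∀ c, IsUnit (V - algebraMap ℂ _ c)) (u : H) :
    u = 0 := by
  classical
  by_contra h0
  have h1 : ∀ g : ℂ[X], g ≠ 0 → IsUnit (aeval V g) := fun g hg => by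
    rw [(IsAlgClosed.splits g).eq_prod_roots, map_mul, aeval_C]
    refine ((leadingCoeff_ne_zero.2 hg).isUnit.map _).mul (Submonoid.multiset_prod_mem
      ((IsUnit.submonoid _).comap (aeval V : ℂ[X] →ₐ[ℂ] _)) _ fun f hf => ?_)
    obtain ⟨c, -, rfl⟩ := Multiset.mem_map.1 hf
    change IsUnit (aeval V (X - C c))
    rw [map_sub, aeval_X, aeval_C]
    exact h c
  choose w hw using fun c => ((Module.End.isUnit_iff _).1 (h c)).2 u
  refine (Cardinal.aleph0_lt_continuum.trans_le (Cardinal.mk_complex.ge.trans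
    ((linearIndependent_iff'.2 fun s a e c hc => ?_ : LinearIndependent ℂ w).cardinal_le_rank.trans
      hr))).false
  have e1 : aeval V (∑ i ∈ s, a i • ∏ j ∈ s.erase i, (X - C j)) u = 0 := by
    rw [← map_zero (aeval V (∏ j ∈ s, (X - C j))), ← e, map_sum, map_sum, LinearMap.sum_apply]
    refine sum_congr rfl fun i hi => ?_
    rw [← prod_erase_mul _ _ hi, map_mul, map_smul, map_smul, map_sub, aeval_X, aeval_C,
      Module.End.mul_apply, hw, LinearMap.smul_apply]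
  have e2 : ∑ i ∈ s, a i • ∏ j ∈ s.erase i, (X - C j : ℂ[X]) = 0 := by
    by_contra hg
    exact h0 (((Module.End.isUnit_iff _).1 (h1 _ hg)).1 (e1.trans (map_zero _).symm))
  have e3 := congrArg (eval c) e2
  rw [eval_finsetSum, sum_eq_single_of_mem c hc fun i _ hi => by
    rw [eval_smul, eval_prod, prod_eq_zero (mem_erase.2 ⟨hi.symm, hc⟩) (by simp), smul_zero],
    eval_smul, eval_prod, eval_zero, smul_eq_zero, prod_eq_zero_iff] at e3
  refine e3.resolve_right fun ⟨j, hj, e⟩ => (mem_erase.1 hj).1 ?_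
  rw [eval_sub, eval_X, eval_C, sub_eq_zero] at e
  exact e.symm

end AmX

theorem rowAm : SAm := by
  intro G _ _ D v L L' j hr hp hD hv cL cL' cm k k' h x h1 h2
  let Z : Submodule ℂ G :=
    { carrier := {x | x ∈ L j ∧ D x ∈ L' (j + 1)}
      add_mem' := fun a b => ⟨add_mem a.1 b.1, map_add D _ _ ▸ add_mem a.2 b.2⟩
      zero_mem' := ⟨zero_mem _, by simp⟩
      smul_mem' := fun c x a => ⟨cL _ c _ a.1, hD c x ▸ cL' _ c _ a.2⟩ }
  let B : Submodule ℂ G :=
    { carrier := {x | ∃ y ∈ L (j - 1), x - D y ∈ L' j}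
      add_mem' := fun ⟨a, a1, a2⟩ ⟨b, b1, b2⟩ => ⟨a + b, add_mem a1 b1, by
        rw [map_add, add_sub_add_comm]; exact add_mem a2 b2⟩
      zero_mem' := ⟨0, zero_mem _, by simp⟩
      smul_mem' := fun c x ⟨a, a1, a2⟩ => ⟨c • a, cL _ c _ a1, by
        rw [hD, ← smul_sub]; exact cL' _ c _ a2⟩ }
  have cm' : ∀ x, D (v x) = v (D x) := fun x => (DFunLike.congr_fun cm.eq x).symm
  let v' : Module.End ℂ G := ⟨⟨v, map_add v⟩, hv⟩
  let V := (B.comap Z.subtype).mapQ (B.comap Z.subtype)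
    (v'.restrict (p := Z) (q := Z) fun x a => ⟨k _ _ a.1, (cm' x).symm ▸ k' _ _ a.2⟩)
    fun x ⟨a, a1, a2⟩ => ⟨v a, k _ _ a1, by
      rw [cm']
      exact map_sub v _ _ ▸ k' _ _ a2⟩
  refine (Submodule.Quotient.mk_eq_zero _).1 (AmX.zero V ((rank_quotient_le _).trans
    (Z.rank_le.trans hr)) (fun c => (Module.End.isUnit_iff _).2 ⟨(injective_iff_map_eq_zero _).2
      fun y hy => ?_, fun y => ?_⟩) (Submodule.Quotient.mk ⟨x, h1, h2⟩)) <;>
    obtain ⟨⟨y, y1, y2⟩, rfl⟩ := Submodule.Quotient.mk_surjective _ y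
  · exact (Submodule.Quotient.mk_eq_zero _).2 ((h c).1 y y1 y2
      ((Submodule.Quotient.eq (B.comap Z.subtype)).1 (sub_eq_zero.1 hy) :))
  · obtain ⟨z, z1, z2, e⟩ := (h c).2 y y1 y2
    exact ⟨Submodule.Quotient.mk ⟨z, z1, z2⟩, ((Submodule.Quotient.eq (B.comap Z.subtype)).2 e).symm⟩

end Pool.Agent.MP_ee8c61_ag.H59
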