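import Pool.Agent.MP_ee8c61_ag.H59.SpecA

/-! Ordered products of operators. -/

namespace Pool.Agent.MP_ee8c61_ag.H59

open Finset

namespace ApX

variable {ι G : Type} [LinearOrder ι] [AddCommGroup G]

theorem ap_emp (E : ι → Op G) : ap E ∅ = 1 := by simp [ap]

theorem nm {a : ι} {s : Finset ι} (h : ∀ x ∈ s, a < x) : a ∉ s := fun k => lt_irrefl _ (h a k)

theorem ap_ins (E : ι → Op G) {a : ι} {s : Finset ι} (h : ∀ x ∈ s, a < x) :
    ap E (insert a s) = E a * ap E s := by
  rw [ap, sort_insert _ (fun b hb => (h b hb).le) (nm h), List.map_cons, List.prod_cons, ap]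

theorem sgn_min {a : ι} {s : Finset ι} (h : ∀ x ∈ s, a < x) : sgn a s = 1 := by
  rw [sgn, filter_eq_empty_iff.2 fun x hx => (h x hx).not_gt]
  simp

theorem sgn_ins {a j : ι} {s : Finset ι} (h : a < j) (ha : a ∉ s) :
    sgn j (insert a s) = -sgn j s := by
  rw [sgn, sgn, filter_insert, if_pos h, card_insert_of_notMem fun k => ha (mem_filter.1 k).1,
    pow_succ, mul_neg_one]

theorem ins (E : ι → Op G) (h : ∀ i j, E i * E j + E j * E i = 0) (h0 : ∀ i, E i * E i = 0)
    (i : ι) (σ : Finset ι) :
    E i * ap E σ = if i ∈ σ then 0 else sgn i σ • ap E (insert i σ) := by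
  induction σ using Finset.induction_on_min with
  | empty =>
    rw [if_neg (notMem_empty i), sgn_min (by simp), one_smul, ap_ins E (by simp)]
  | insert a s ha ih =>
    rcases lt_trichotomy i a with k | rfl | k
    · have hi : ∀ x ∈ insert a s, i < x := fun x hx => by
        rcases mem_insert.1 hx with rfl | hx
        exacts [k, k.trans (ha x hx)]
      rw [if_neg (nm hi), sgn_min hi, one_smul, ap_ins E hi]
    · rw [if_pos (mem_insert_self _ _), ap_ins E ha, ← mul_assoc, h0, zero_mul]
    · rw [ap_ins E ha, ← mul_assoc, eq_neg_of_add_eq_zero_left (h i a), neg_mul, mul_assoc, ih]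
      by_cases hi : i ∈ s
      · rw [if_pos hi, if_pos (mem_insert_of_mem hi), mul_zero, neg_zero]
      · have hb : ∀ x ∈ insert i s, a < x := fun x hx => by
          rcases mem_insert.1 hx with rfl | hx
          exacts [k, ha x hx]
        rw [if_neg hi, if_neg (by simp [hi, k.ne']), sgn_ins k (nm ha), insert_comm, ap_ins E hb,
          neg_smul, mul_smul_comm]

theorem map (G' : Type) [AddCommGroup G'] (φ : G →+ G') (E : ι → Op G) (E' : ι → Op G')
    (σ : Finset ι) (h : ∀ i ∈ σ, ∀ x, φ (E i x) = E' i (φ x)) (x : G) :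
    φ (ap E σ x) = ap E' σ (φ x) := by
  induction σ using Finset.induction_on_min with
  | empty => simp [ap_emp]
  | insert a s ha ih =>
    rw [ap_ins E ha, ap_ins E' ha, op_mul, op_mul, h a (mem_insert_self _ _),
      ih fun i hi => h i (mem_insert_of_mem hi)]

theorem maps (E : ι → Op G) (L : Lat G) (e : ℤ) (σ : Finset ι) (h : ∀ i ∈ σ, Maps (E i) L L e) :
    Maps (ap E σ) L L (σ.card * e) := by
  induction σ using Finset.induction_on_min with
  | empty => intro j x hx; simpa [ap_emp] using hx
  | insert a s ha ih =>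
    intro j x hx
    have := h a (mem_insert_self _ _) _ _ (ih (fun i hi => h i (mem_insert_of_mem hi)) j x hx)
    rw [ap_ins E ha, op_mul, card_insert_of_notMem (nm ha)]
    convert this using 2
    push_cast
    ring

theorem der (E : ι → Op G) (D t : Op G) (L K : Lat G) (σ : Finset ι) (q : ℤ) (x : G)
    (hc : ∀ i ∈ σ, Commute t (E i)) (hL : ∀ i ∈ σ, Maps (E i) L L (-1))
    (hK : ∀ i ∈ σ, Maps (E i) K K (-1))
    (h : ∀ i ∈ σ, ∀ j, ∀ y ∈ L j, D (E i y) + E i (D y) - t y ∈ K j) (hx : x ∈ L q)
    (hD : D x = 0) :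
    D (ap E σ x) - ∑ i ∈ σ, sgn i σ • t (ap E (σ.erase i) x) ∈ K (q - σ.card + 1) := by
  induction σ using Finset.induction_on_min with
  | empty => simp [ap_emp, hD]
  | insert a s ha ih =>
    have m := mem_insert_self a s
    have h1 := hK a m _ _ (ih (fun i hi => hc i (mem_insert_of_mem hi))
      (fun i hi => hL i (mem_insert_of_mem hi)) (fun i hi => hK i (mem_insert_of_mem hi))
      fun i hi => h i (mem_insert_of_mem hi))
    have h2 := h a m _ _ (maps E L (-1) s (fun i hi => hL i (mem_insert_of_mem hi)) q x hx)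
    have e : ∑ i ∈ s, sgn i (insert a s) • t (ap E ((insert a s).erase i) x)
        = -E a (∑ i ∈ s, sgn i s • t (ap E (s.erase i) x)) := by
      rw [map_sum, ← sum_neg_distrib]
      refine sum_congr rfl fun i hi => ?_
      have c : t (E a (ap E (s.erase i) x)) = E a (t (ap E (s.erase i) x)) :=
        DFunLike.congr_fun (hc a m).eq _
      rw [sgn_ins (ha i hi) (nm ha), erase_insert_of_ne (ha i hi).ne,
        ap_ins E fun y hy => ha y (mem_of_mem_erase hy), op_mul, c, map_zsmul, neg_smul]
    rw [sum_insert (nm ha), e, erase_insert (nm ha), sgn_insert, sgn_min ha, one_smul, ap_ins E ha,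
      op_mul, card_insert_of_notMem (nm ha)]
    rw [show q - (s.card : ℤ) + 1 + -1 = q - ((s.card + 1 : ℕ) : ℤ) + 1 by push_cast; ring,
      map_sub] at h1
    rw [show q + (s.card : ℤ) * -1 = q - ((s.card + 1 : ℕ) : ℤ) + 1 by push_cast; ring] at h2
    convert sub_mem h2 h1 using 1
    abel

theorem kill (H : ι → Op G) (E : Op G) (σ : Finset ι) (x : G)
    (h : ∀ j ∈ σ, E * H j + H j * E = 0) (hx : E x = 0) : E (ap H σ x) = 0 := by
  induction σ using Finset.induction_on_min with
  | empty => simpa [ap_emp] using hx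
  | insert a s ha ih =>
    have := DFunLike.congr_fun (h a (mem_insert_self _ _)) (ap H s x)
    rw [op_add, op_mul, op_mul, ih fun i hi => h i (mem_insert_of_mem hi), map_zero, add_zero] at this
    rw [ap_ins H ha, op_mul, this, op_zero]

theorem unw (H E : ι → Op G) (K : AddSubgroup G) (σ : Finset ι) (x : G)
    (h : ∀ i ∈ σ, ∀ j ∈ σ, E i * H j + H j * E i = if i = j then 1 else 0)
    (hx : ∀ i ∈ σ, E i x = 0) (hK : ∀ i ∈ σ, ∀ y ∈ K, E i y ∈ K) (hm : ap H σ x ∈ K) : x ∈ K := by
  induction σ using Finset.induction_on_min with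
  | empty => simpa [ap_emp] using hm
  | insert a s ha ih =>
    have m := mem_insert_self a s
    refine ih (fun i hi j hj => h i (mem_insert_of_mem hi) j (mem_insert_of_mem hj))
      (fun i hi => hx i (mem_insert_of_mem hi)) (fun i hi => hK i (mem_insert_of_mem hi)) ?_
    have k := kill H (E a) s x
      (fun j hj => by rw [h a m j (mem_insert_of_mem hj), if_neg (ha j hj).ne]) (hx a m)
    have := DFunLike.congr_fun (h a m a m) (ap H s x)
    rw [op_add, op_mul, op_mul, k, map_zero, add_zero, if_pos rfl, op_one] at this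
    rw [ap_ins H ha, op_mul] at hm
    exact this ▸ hK a m _ hm

end ApX

theorem rowAp : SAp := fun _ _ _ _ =>
  ⟨ApX.ap_emp, ApX.ins, ApX.map, ApX.maps, ApX.der, ApX.unw⟩

end Pool.Agent.MP_ee8c61_ag.H59
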