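import Pool.Agent.MP_ee8c61_ag.H59.SpecA

/-! The canonical anticommutation relations and the Koszul differential. -/

namespace Pool.Agent.MP_ee8c61_ag.H59

open Finset

namespace CarX

variable {ι M : Type} [LinearOrder ι] [AddCommGroup M]

/-- The sign of a transposition. -/
def tr (i j : ι) : ℤ := if i < j then -1 else 1

theorem tr_swap {i j : ι} (h : i ≠ j) : tr j i = -tr i j := by
  unfold tr
  rcases lt_or_gt_of_ne h with h | h <;> simp [h, h.not_gt]

theorem sgn_ins {i : ι} {σ : Finset ι} (hi : i ∉ σ) (j : ι) :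
    sgn j (insert i σ) = tr i j * sgn j σ := by
  unfold sgn tr
  rw [filter_insert]
  split_ifs with h
  · rw [card_insert_of_notMem (fun h' => hi (mem_filter.1 h').1), pow_succ, mul_comm]
  · rw [one_mul]

theorem sgn_era {i : ι} {σ : Finset ι} (hi : i ∈ σ) (j : ι) :
    sgn j (σ.erase i) = tr i j * sgn j σ := by
  have h := sgn_ins (notMem_erase i σ) j
  rw [insert_erase hi] at h
  rw [h, ← mul_assoc]
  unfold tr
  split_ifs <;> simp

omit [LinearOrder ι] in
theorem ch_ext {a b : Op (Ch ι M)} (h : ∀ γ σ, a γ σ = b γ σ) : a = b :=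
  op_ext fun γ => funext (h γ)

theorem ee0 (i : ι) : (ep i : Op (Ch ι M)) * ep i = 0 :=
  ch_ext fun γ σ => by simp [ep_apply]

theorem ii0 (i : ι) : (io i : Op (Ch ι M)) * io i = 0 :=
  ch_ext fun γ σ => by simp [io_apply]

theorem ee (i j : ι) : (ep i : Op (Ch ι M)) * ep j + ep j * ep i = 0 := by
  rcases eq_or_ne i j with rfl | h
  · rw [ee0, add_zero]
  refine ch_ext fun γ σ => ?_
  by_cases hi : i ∈ σ <;> by_cases hj : j ∈ σ <;> simp [ep_apply, hi, hj, h, h.symm]
  rw [sgn_era hi, sgn_era hj, tr_swap h, erase_right_comm, smul_smul, smul_smul, ← add_smul]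
  convert zero_smul ℤ _
  ring

theorem ii (i j : ι) : (io i : Op (Ch ι M)) * io j + io j * io i = 0 := by
  rcases eq_or_ne i j with rfl | h
  · rw [ii0, add_zero]
  refine ch_ext fun γ σ => ?_
  by_cases hi : i ∈ σ <;> by_cases hj : j ∈ σ <;> simp [io_apply, hi, hj, h, h.symm]
  rw [sgn_ins hi, sgn_ins hj, tr_swap h, insert_comm, smul_smul, smul_smul, ← add_smul]
  convert zero_smul ℤ _
  ring

theorem ei (i j : ι) : (ep i : Op (Ch ι M)) * io j + io j * ep i = if i = j then 1 else 0 := by
  rcases eq_or_ne i j with rfl | h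
  · rw [if_pos rfl]
    refine ch_ext fun γ σ => ?_
    by_cases hi : i ∈ σ
    · simp [ep_apply, io_apply, hi, sgn_erase, smul_smul, sgn_mul_self]
    · simp [ep_apply, io_apply, hi, sgn_insert, smul_smul, sgn_mul_self]
  rw [if_neg h]
  refine ch_ext fun γ σ => ?_
  by_cases hi : i ∈ σ <;> by_cases hj : j ∈ σ <;> simp [ep_apply, io_apply, hi, hj, h, h.symm]
  rw [sgn_era hi, sgn_ins hj, tr_swap h, erase_insert_of_ne h.symm, smul_smul, smul_smul,
    ← add_smul]
  convert zero_smul ℤ _
  ring

theorem ev_ep (T : Op M) (i : ι) : Commute (ev T) (ep i) :=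
  ch_ext fun γ σ => by
    by_cases hi : i ∈ σ <;> simp [ep_apply, hi]

theorem ev_io (T : Op M) (i : ι) : Commute (ev T) (io i) :=
  ch_ext fun γ σ => by
    by_cases hi : i ∈ σ <;> simp [io_apply, hi]

theorem od_ep (T : Op M) (i : ι) : od T * ep i + ep i * od T = 0 := by
  refine ch_ext fun γ σ => ?_
  by_cases hi : i ∈ σ
  · simp only [op_add, op_mul, Pi.add_apply, od_apply, ep_apply, if_pos hi, map_zsmul, op_zero,
      Pi.zero_apply]
    rw [← card_erase_add_one hi, smul_smul, smul_smul, ← add_smul]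
    convert zero_smul ℤ _
    ring
  · simp [ep_apply, hi]

theorem od_io (T : Op M) (i : ι) : od T * io i + io i * od T = 0 := by
  refine ch_ext fun γ σ => ?_
  by_cases hi : i ∈ σ
  · simp [io_apply, hi]
  · simp only [op_add, op_mul, Pi.add_apply, od_apply, io_apply, if_neg hi, map_zsmul, op_zero,
      Pi.zero_apply]
    rw [card_insert_of_notMem hi, smul_smul, smul_smul, ← add_smul]
    convert zero_smul ℤ _
    ring

omit [LinearOrder ι] in
theorem od_od (T T' : Op M) : (od T * od T' : Op (Ch ι M)) = ev (T * T') :=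
  op_ext fun γ => funext fun σ => by
    simp only [op_mul, od_apply, ev_apply, map_zsmul]
    rw [smul_smul, ← mul_pow]
    simp

omit [LinearOrder ι] in
theorem od_ev (T T' : Op M) : (od T * ev T' : Op (Ch ι M)) = od (T * T') := rfl

omit [LinearOrder ι] in
theorem ev_od (T T' : Op M) : (ev T * od T' : Op (Ch ι M)) = od (T * T') :=
  op_ext fun γ => funext fun σ => by simp only [op_mul, od_apply, ev_apply, map_zsmul]

omit [LinearOrder ι] in
theorem od_add (T T' : Op M) : (od (T + T') : Op (Ch ι M)) = od T + od T' :=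
  op_ext fun γ => funext fun σ => by simp only [op_add, od_apply, Pi.add_apply, smul_add]

omit [LinearOrder ι] in
theorem ev_mul (T T' : Op M) : (ev T * ev T' : Op (Ch ι M)) = ev (T * T') := rfl

theorem num (s : Finset ι) (γ : Ch ι M) (σ : Finset ι) :
    (∑ i ∈ s, ep i * io i : Op (Ch ι M)) γ σ = (σ ∩ s).card • γ σ := by
  rw [op_sum, Finset.sum_apply]
  have h : ∀ i ∈ s, (ep i * io i : Op (Ch ι M)) γ σ = if i ∈ σ then γ σ else 0 := fun i _ => by
    by_cases hi : i ∈ σ <;> simp [ep_apply, io_apply, hi, sgn_erase, smul_smul, sgn_mul_self]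
  rw [sum_congr rfl h, sum_ite_mem, sum_const, inter_comm]

theorem sum_sq {R : Type} [Ring R] (a : ι → R) (S : Finset ι) (h0 : ∀ i ∈ S, a i * a i = 0)
    (h : ∀ i ∈ S, ∀ j ∈ S, a i * a j + a j * a i = 0) : (∑ i ∈ S, a i) * ∑ i ∈ S, a i = 0 := by
  induction S using Finset.induction_on with
  | empty => simp
  | insert i S hi ih =>
    have h1 := ih (fun j hj => h0 j (mem_insert_of_mem hj))
      fun j hj l hl => h j (mem_insert_of_mem hj) l (mem_insert_of_mem hl)
    have h2 : a i * ∑ j ∈ S, a j + (∑ j ∈ S, a j) * a i = 0 := by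
      rw [mul_sum, sum_mul, ← sum_add_distrib]
      exact sum_eq_zero fun j hj => h i (mem_insert_self i S) j (mem_insert_of_mem hj)
    rw [sum_insert hi, add_mul, mul_add, mul_add, h1, h0 i (mem_insert_self i S), zero_add,
      add_zero, h2]

/-- The anticommutator with the Koszul differential. -/
theorem kos_anti (d : Op M) (t : ι → Op M) (S : Finset ι) (X : Op (Ch ι M)) :
    kos d t S * X + X * kos d t S = od d * X + X * od d +
      ∑ i ∈ S, (ep i * ev (t i) * X + X * (ep i * ev (t i))) := by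
  rw [kos, add_mul, mul_add, sum_mul, mul_sum, sum_add_distrib]
  abel

theorem term_od {g t : Op M} (h : Commute g t) (i : ι) :
    ep i * ev t * od g + od g * (ep i * ev t) = 0 := by
  rw [mul_assoc, ev_od, ← h.eq, ← od_ev, ← mul_assoc, ← mul_assoc, ← add_mul, add_comm, od_ep,
    zero_mul]

theorem kos_od (d g : Op M) (t : ι → Op M) (S : Finset ι) (h : ∀ i ∈ S, Commute g (t i)) :
    kos d t S * od g + od g * kos d t S = ev (d * g + g * d) := by
  rw [kos_anti, sum_eq_zero fun i hi => term_od (h i hi) i, add_zero, od_od, od_od]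
  rfl

theorem kos_sq (d : Op M) (t : ι → Op M) (S : Finset ι) (hd : d * d = 0)
    (h1 : ∀ i ∈ S, Commute (t i) d) (h2 : ∀ i ∈ S, ∀ i' ∈ S, Commute (t i) (t i')) :
    kos d t S * kos d t S = 0 := by
  have e : ∀ i j, (ep i * ev (t i) * (ep j * ev (t j)) : Op (Ch ι M)) =
      ep i * ep j * ev (t i * t j) := fun i j => by
    rw [mul_assoc, ← mul_assoc (ev (t i)), (ev_ep (t i) j).eq, mul_assoc, ev_mul, mul_assoc]
  have h3 := sum_sq (fun i => (ep i * ev (t i) : Op (Ch ι M))) S
    (fun i _ => by rw [e, ee0, zero_mul])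
    fun i hi j hj => by rw [e, e, (h2 i hi j hj).eq, ← add_mul, ee, zero_mul]
  have h4 : od d * ∑ i ∈ S, ep i * ev (t i) + (∑ i ∈ S, ep i * ev (t i)) * od d = 0 := by
    rw [mul_sum, sum_mul, ← sum_add_distrib]
    exact sum_eq_zero fun i hi => (add_comm _ _).trans (term_od (h1 i hi).symm i)
  rw [kos, add_mul, mul_add, mul_add, h3, od_od, hd, add_zero, add_assoc, h4, add_zero]
  rfl

theorem kos_io (d : Op M) (t : ι → Op M) (S : Finset ι) (i : ι) :
    kos d t S * io i + io i * kos d t S = if i ∈ S then ev (t i) else 0 := by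
  have h : ∀ j ∈ S, (ep j * ev (t j) * io i + io i * (ep j * ev (t j)) : Op (Ch ι M)) =
      if j = i then ev (t j) else 0 := fun j _ => by
    rw [mul_assoc, (ev_io (t j) i).eq, ← mul_assoc, ← mul_assoc, ← add_mul, ei, ite_mul, one_mul,
      zero_mul]
  rw [kos_anti, od_io, zero_add, sum_congr rfl h, sum_ite_eq']

theorem kos_ep (d : Op M) (t : ι → Op M) (S : Finset ι) (i : ι) :
    kos d t S * ep i + ep i * kos d t S = 0 := by
  rw [kos_anti, od_ep, zero_add]
  refine sum_eq_zero fun j _ => ?_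
  rw [mul_assoc, (ev_ep (t j) i).eq, ← mul_assoc, ← mul_assoc, ← add_mul, ee, zero_mul]

theorem kos_ev (d g : Op M) (t : ι → Op M) (S : Finset ι) (h1 : Commute g d)
    (h2 : ∀ i ∈ S, Commute g (t i)) : Commute (ev g) (kos d t S) := by
  refine Commute.add_right ?_ (Commute.sum_right _ _ _ fun i hi => (ev_ep g i).mul_right ?_)
  · rw [Commute, SemiconjBy, ev_od, od_ev, h1.eq]
  · exact (h2 i hi).map (evH ι M)

theorem kos_apply (d : Op M) (t : ι → Op M) (S : Finset ι) (γ : Ch ι M) (σ : Finset ι) :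
    kos d t S γ σ = (-1 : ℤ) ^ σ.card • d (γ σ) + ∑ i ∈ S ∩ σ, sgn i σ • t i (γ (σ.erase i)) := by
  rw [kos, op_add, Pi.add_apply, od_apply, op_sum, Finset.sum_apply, ← sum_ite_mem]
  rfl

theorem single (σ : Finset ι) (x : M) : ap ep σ (Pi.single ∅ x : Ch ι M) = Pi.single σ x := by
  induction σ using Finset.induction_on_min with
  | empty => simp [ap]
  | insert a s ha ih =>
    have hs : a ∉ s := fun h => lt_irrefl a (ha a h)
    unfold ap at ih ⊢
    rw [sort_insert _ (fun b hb => (ha b hb).le) hs, List.map_cons, List.prod_cons, op_mul, ih]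
    funext τ
    rw [ep_apply]
    by_cases h : τ = insert a s
    · have e : sgn a s = 1 := by
        rw [sgn, filter_false_of_mem fun b hb => (ha b hb).not_gt, card_empty, pow_zero]
      rw [h, if_pos (mem_insert_self a s), erase_insert hs, sgn_insert, e, one_smul,
        Pi.single_eq_same, Pi.single_eq_same]
    · rw [Pi.single_eq_of_ne h]
      split_ifs with h1
      · rw [Pi.single_eq_of_ne fun e => h (by rw [← e, insert_erase h1]), smul_zero]
      · rfl

end CarX

open CarX in
theorem rowCar : SCar := fun ι M _ _ =>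
  { ee := ee
    ee0 := ee0
    ii := ii
    ii0 := ii0
    ei := ei
    ev_ep := ev_ep
    ev_io := ev_io
    od_ep := od_ep
    od_io := od_io
    od_od := od_od
    od_ev := od_ev
    ev_od := ev_od
    od_add := od_add
    num := num
    kos_sq := kos_sq
    kos_io := kos_io
    kos_ep := kos_ep
    kos_ev := kos_ev
    kos_od := kos_od
    kos_add := fun d d' t S => by rw [kos, kos, od_add, add_right_comm]
    kos_apply := kos_apply
    single := single
    up_kos := fun M' _ φ d d' t t' S h1 h2 γ => by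
      funext σ
      rw [up_apply, kos_apply, kos_apply, map_add, map_zsmul, map_sum, h1, up_apply]
      refine congrArg _ (sum_congr rfl fun i hi => ?_)
      rw [map_zsmul, h2 i (mem_inter.1 hi).1, up_apply] }

end Pool.Agent.MP_ee8c61_ag.H59
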