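import Pool.Agent.MP_ee8c61_ag.H59.SpecC

/-! The isomorphism of Cartier on a chart. -/

namespace Pool.Agent.MP_ee8c61_ag.H59

open Finset Sys

namespace CartX

section Der

variable {k Ω : Type} [CommRing k] [CommRing Ω] [Algebra k Ω] (E : Derivation k Ω Ω)

theorem der_pow (ℓ : ℕ) [CharP Ω ℓ] (g h : Ω) : E (g ^ ℓ * h) = g ^ ℓ * E h := by
  rw [Derivation.leibniz, Derivation.leibniz_pow, nsmul_eq_mul, CharP.cast_eq_zero, zero_mul,
    smul_zero, add_zero, smul_eq_mul]

theorem der_prod {κ : Type} (y : κ → Ω) (c m : κ → ℕ) (h : ∀ j, E (y j) = c j * y j)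
    (τ : Finset κ) : E (∏ j ∈ τ, y j ^ m j) = (∑ j ∈ τ, m j * c j : ℕ) * ∏ j ∈ τ, y j ^ m j := by
  classical
  have h1 : ∀ j (r : ℕ), E (y j ^ r) = (r * c j : ℕ) * y j ^ r := by
    intro j r
    induction r with
    | zero => simp
    | succ r ih =>
      rw [pow_succ, Derivation.leibniz, ih, h]
      simp only [smul_eq_mul]
      push_cast
      ring
  induction τ using Finset.induction_on with
  | empty => simp
  | insert j τ hj ih =>
    rw [prod_insert hj, sum_insert hj, Derivation.leibniz, ih, h1]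
    simp only [smul_eq_mul]
    push_cast
    ring

end Der

theorem mem_fl' {Ω : Type} [CommRing Ω] {n : ℕ} (N : AddSubgroup Ω) (p : ℤ) (w : Fm n Ω) :
    w ∈ fl n N p ↔ ∀ τ, w τ ∈ N ∧ (p ≠ τ.card → w τ = 0) := by
  rw [fl, mem_lat]
  refine forall_congr' fun τ => ?_
  unfold deg0
  by_cases h : p = τ.card
  · simp [h]
  · rw [if_neg (sub_ne_zero.2 h), AddSubgroup.mem_bot]
    exact ⟨fun e => ⟨e ▸ N.zero_mem, fun _ => e⟩, fun e => e.2 h⟩

variable {k Ω ι J : Type} {n : ℕ} [CommRing k] [CommRing Ω] [Algebra k Ω] [Fintype J]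
  (S : Sys k Ω ι J n) (ℓ : ℕ) [Fact ℓ.Prime] [CharP Ω ℓ]

/-- The coordinate if it is not logarithmic, and one otherwise. -/
def uu (a : ι) (i : Fin n) : Ω := S.z a i * (((S.un a i)⁻¹ : Ωˣ) : Ω)

/-- Logarithmic coordinates. -/
def lg (a : ι) (i : Fin n) : Prop := ∃ j, S.lab a j = some i

/-- The Euler derivations. -/
def eu (a : ι) (i : Fin n) : Derivation k Ω Ω := S.z a i • S.D a i

/-- A representation as a monomial times a power. -/
def Rep (a : ι) (σ : Finset ι) (c : J → ℤ) (g : Ω) (e : Fin n → ℕ) : Prop :=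
  (∀ i, e i < ℓ) ∧ ∃ v ∈ S.AA σ, g = (S.mon a c * v) ^ ℓ * ∏ i, S.z a i ^ e i

variable {S}

theorem uu_lg (F : Fr S) {a : ι} {i : Fin n} (h : lg S a i) : uu S a i = 1 := by
  obtain ⟨j, hj⟩ := h
  rw [uu, F.un_some a j i hj, ← S.η_some a j i hj, Units.mul_inv]

theorem un_nlg (F : Fr S) {a : ι} {i : Fin n} (h : ¬lg S a i) : S.un a i = 1 :=
  F.un_none a i fun j hj => h ⟨j, hj⟩

theorem uu_nlg (F : Fr S) {a : ι} {i : Fin n} (h : ¬lg S a i) : uu S a i = S.z a i := by
  rw [uu, un_nlg F h, inv_one, Units.val_one, mul_one]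

theorem eu_eq (a : ι) (i : Fin n) (g : Ω) : eu S a i g = uu S a i * S.dv a i g := by
  simp only [eu, uu, Sys.dv, Derivation.smul_apply, smul_eq_mul]
  rw [mul_assoc, Units.inv_mul_cancel_left]

omit [Fintype J] in
theorem eu_z (a : ι) (i j : Fin n) :
    eu S a i (S.z a j) = ((if j = i then 1 else 0 : ℕ) : Ω) * S.z a j := by
  simp only [eu, Derivation.smul_apply, smul_eq_mul, S.D_z]
  by_cases h : j = i
  · simp [h]
  · simp [h, Ne.symm h]

open Classical in
theorem dv_uu (F : Fr S) (a : ι) (i j : Fin n) :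
    S.dv a i (uu S a j) = if i = j ∧ ¬lg S a j then 1 else 0 := by
  by_cases h : lg S a j
  · simp [uu_lg F h, h]
  · rw [uu_nlg F h]
    simp only [Sys.dv, Derivation.smul_apply, smul_eq_mul, S.D_z]
    by_cases e : i = j
    · subst e
      simp [h, un_nlg F h]
    · simp [e]

open Classical in
theorem eu_uu (F : Fr S) (a : ι) (i j : Fin n) :
    eu S a i (uu S a j) = ((if j = i ∧ ¬lg S a i then 1 else 0 : ℕ) : Ω) * uu S a j := by
  rw [eu_eq, dv_uu F]
  by_cases e : i = j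
  · subst e
    by_cases h : lg S a i <;> simp [h]
  · simp [e, Ne.symm e]

omit [Fact ℓ.Prime] in
theorem eu_rep {a : ι} {σ : Finset ι} {c : J → ℤ} {g : Ω} {e : Fin n → ℕ}
    (h : Rep S ℓ a σ c g e) (i : Fin n) : eu S a i g = (e i : ℤ) • g := by
  obtain ⟨-, v, -, rfl⟩ := h
  rw [der_pow, der_prod _ _ _ _ (eu_z a i)]
  simp only [mul_ite, mul_one, mul_zero, sum_ite_eq', mem_univ, if_true, zsmul_eq_mul,
    Int.cast_natCast]
  ring

open Classical in
theorem eu_frc (F : Fr S) (a : ι) (τ : Finset (Fin n)) (h : Ω) (i : Fin n) :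
    eu S a i (h ^ ℓ * ∏ j ∈ τ, S.xi ℓ a j) =
      if i ∈ τ ∧ ¬lg S a i then -(h ^ ℓ * ∏ j ∈ τ, S.xi ℓ a j) else 0 := by
  have e : ∏ j ∈ τ, S.xi ℓ a j = ∏ j ∈ τ, uu S a j ^ (ℓ - 1) := rfl
  rw [der_pow, e, der_prod _ _ _ (fun _ => ℓ - 1) (eu_uu F a i)]
  have e1 : ((ℓ - 1 : ℕ) : Ω) = -1 := by
    rw [Nat.cast_sub (Fact.out : ℓ.Prime).one_le, CharP.cast_eq_zero]
    simp
  by_cases h1 : lg S a i
  · simp [h1]
  · by_cases h2 : i ∈ τ
    · simp [h1, h2, e1]
    · simp [h1, h2]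

theorem frc_single (a : ι) (τ : Finset (Fin n)) (h : Ω) :
    S.frc ℓ a (Pi.single τ h) = Pi.single τ (h ^ ℓ * ∏ j ∈ τ, S.xi ℓ a j) := by
  funext τ'
  change (Pi.single τ h : Fm n Ω) τ' ^ ℓ * ∏ j ∈ τ', S.xi ℓ a j = _
  by_cases e : τ' = τ
  · subst e
    simp
  · simp [e, (Fact.out : ℓ.Prime).ne_zero]

omit [Fact ℓ.Prime] [CharP Ω ℓ] in
theorem closure_rep (F : Fr S) (L : Lo S) (hs : S.Span ℓ) {σ : Finset ι} {a : ι} (ha : a ∈ σ)
    (c : J → ℤ) : S.NN a σ {ℓ • c} = AddSubgroup.closure {g | ∃ e, Rep S ℓ a σ c g e} := by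
  have hm : S.mon a (ℓ • c) = S.mon a c ^ ℓ := by
    rw [← natCast_zsmul, F.mon_zsmul, zpow_natCast]
  refine le_antisymm (fun g hg => ?_) ((AddSubgroup.closure_le _).2 ?_)
  · rw [L.mem_one] at hg
    have h1 : ∀ h ∈ AddSubgroup.closure
        {h | ∃ u ∈ S.AA σ, ∃ e : Fin n → ℕ, (∀ i, e i < ℓ) ∧ h = u ^ ℓ * ∏ i, S.z a i ^ e i},
        h * (S.mon a (ℓ • c) : Ω) ∈ AddSubgroup.closure {g | ∃ e, Rep S ℓ a σ c g e} := by
      intro h hh
      induction hh using AddSubgroup.closure_induction with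
      | mem x hx =>
        obtain ⟨u, hu, e, he, rfl⟩ := hx
        refine AddSubgroup.subset_closure ⟨e, he, u, hu, ?_⟩
        rw [hm, Units.val_pow_eq_pow_val]
        ring
      | zero => rw [zero_mul]; exact zero_mem _
      | add x y _ _ hx hy => rw [add_mul]; exact add_mem hx hy
      | neg x _ hx => rw [neg_mul]; exact neg_mem hx
    have h2 := h1 _ (hs σ a ha _ hg)
    rwa [Units.inv_mul_cancel_right] at h2
  · rintro _ ⟨e, -, v, hv, rfl⟩
    rw [SetLike.mem_coe, L.mem_one, hm, mul_pow, ← Units.val_pow_eq_pow_val, mul_comm,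
      mul_assoc, Units.inv_mul_cancel_left]
    exact mul_mem (pow_mem hv _) (prod_mem fun i _ => pow_mem (L.le σ a ha (S.z_mem a i)) _)

theorem proj (h0 : SCart0) (F : Fr S) (L : Lo S) (hL : Loc S ℓ) {σ : Finset ι} {a : ι}
    (ha : a ∈ σ) (c : J → ℤ) : ∃ π : Op (Fm n Ω),
    (∀ p, ∀ w ∈ fl n (S.NN a σ {ℓ • c}) p, dR (fun i => dop (S.dv a i)) w = 0 →
      ∃ y ∈ fl n (S.NN a σ {ℓ • c}) (p - 1), w = π w + dR (fun i => dop (S.dv a i)) y) ∧
    (∀ p, ∀ y ∈ fl n (S.NN a σ {ℓ • c}) p, π (dR (fun i => dop (S.dv a i)) y) = 0) ∧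
    (∀ x, π (S.frc ℓ a x) = S.frc ℓ a x) ∧
    ∀ p, ∀ w ∈ fl n (S.NN a σ {ℓ • c}) p, ∃ x ∈ fl n (S.NN a σ {c}) p, S.frc ℓ a x = π w := by
  classical
  have hex : ∀ g, ∃ e : Fin n → ℕ, (∃ e, Rep S ℓ a σ c g e) → Rep S ℓ a σ c g e := fun g => by
    by_cases h : ∃ e, Rep S ℓ a σ c g e
    · exact ⟨h.choose, fun _ => h.choose_spec⟩
    · exact ⟨0, fun h' => absurd h' h⟩
  choose ex hex using hex
  have hN := closure_rep ℓ F L hL.span ha c
  obtain ⟨π, p1, p2, p3, p4⟩ := h0 Ω n ℓ (fun i => dop (S.dv a i)) (fun i => dop (eu S a i))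
    (uu S a) (S.NN a σ {ℓ • c}) {g | ∃ e, Rep S ℓ a σ c g e} (fun g i => ex g i) (lg S a)
    (fun i j => op_ext fun g => F.dv_comm a i j g) (fun i g => eu_eq a i g)
    (fun i j g => by
      simp only [dop_apply, Derivation.leibniz, smul_eq_mul, dv_uu F]
      split_ifs <;> simp)
    (fun i => uu_lg F)
    (fun i g h => by
      rw [uu, mul_assoc] at h
      exact (Units.mul_right_eq_zero _).1 (hL.nzd a i _ h))
    hN (fun g hg i => eu_rep ℓ (hex g hg) i)
    (fun i g hg => ⟨L.mul a σ _ _ (by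
      by_cases h : lg S a i
      · rw [uu_lg F h]
        exact one_mem _
      · rw [uu_nlg F h]
        exact L.le σ a ha (S.z_mem a i)) g hg, L.dv σ a ha _ i g hg⟩)
  refine ⟨π, p1, p2, fun x => ?_, fun p w hw => ?_⟩
  · rw [← univ_sum_single x, map_sum, map_sum]
    refine sum_congr rfl fun τ _ => ?_
    rw [frc_single]
    exact p3 τ _ fun i => eu_frc ℓ F a τ _ i
  · change π w ∈ (fl n (S.NN a σ {c}) p).map (S.frc ℓ a)
    rw [mem_fl'] at hw
    rw [← univ_sum_single w, map_sum]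
    refine sum_mem fun τ _ => ?_
    by_cases hp : p = τ.card
    swap
    · rw [(hw τ).2 hp, Pi.single_zero, map_zero]
      exact zero_mem _
    have h1 := (hw τ).1
    rw [hN] at h1
    generalize w τ = g at h1
    induction h1 using AddSubgroup.closure_induction with
    | zero => rw [Pi.single_zero, map_zero]; exact zero_mem _
    | add x y _ _ hx hy => rw [Pi.single_add, map_add]; exact add_mem hx hy
    | neg x _ hx => rw [Pi.single_neg, map_neg]; exact neg_mem hx
    | mem g hg =>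
      rcases p4 τ g hg with e | e | ⟨e, hd⟩
      · rw [e]
        exact zero_mem _
      · rw [e, Pi.single_zero, map_zero]
        exact zero_mem _
      obtain ⟨hlt, v, hv, hg'⟩ := hex g hg
      refine ⟨Pi.single τ (S.mon a c * v), ?_, ?_⟩
      · rw [SetLike.mem_coe, mem_fl']
        intro τ'
        by_cases e' : τ' = τ
        · subst e'
          refine ⟨?_, fun h => absurd hp h⟩
          rw [Pi.single_eq_same, L.mem_one, mul_comm, Units.inv_mul_cancel_left]
          exact hv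
        · rw [Pi.single_eq_of_ne e']
          exact ⟨zero_mem _, fun _ => rfl⟩
      · have e2 : ∏ j ∈ τ, S.xi ℓ a j = ∏ i, S.z a i ^ ex g i := by
          rw [← Fintype.prod_ite_mem]
          refine prod_congr rfl fun i _ => ?_
          have d1 := hd i
          have d2 := hlt i
          by_cases h : i ∈ τ ∧ ¬lg S a i
          · rw [if_pos h] at d1
            have d3 : ℓ ≤ ex g i + 1 := Nat.le_of_dvd (Nat.succ_pos _) (by exact_mod_cast d1)
            rw [if_pos h.1, show ex g i = ℓ - 1 by omega, ← uu_nlg F h.2]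
            rfl
          · rw [if_neg h, add_zero] at d1
            rw [Nat.eq_zero_of_dvd_of_lt (by exact_mod_cast d1) d2, pow_zero]
            split_ifs with h2
            · have h3 : lg S a i := by_contra fun h3 => h ⟨h2, h3⟩
              change uu S a i ^ (ℓ - 1) = 1
              rw [uu_lg F h3, one_pow]
            · rfl
        rw [e]
        refine (frc_single ℓ a τ _).trans ?_
        rw [e2, ← hg']

end CartX

open CartX in
theorem rowCart : OfCart := by
  intro _ _ hFr hLo hLm h0 k Ω ι J n _ _ _ _ _ _ _ S ℓ _ _ hL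
  have F : Fr S := hFr k Ω ι J n S
  have L : Lo S := hLo k Ω ι J n S
  have M : Lm S := hLm k Ω ι J n S
  have cf : ∀ a x, S.crd a (S.frm a x) = x := fun a x => DFunLike.congr_fun (F.crd_frm a) x
  have fc : ∀ a x, S.frm a (S.crd a x) = x := fun a x => DFunLike.congr_fun (F.frm_crd a) x
  have cd : ∀ a x, S.crd a (S.dd x) = dR (fun i => dop (S.dv a i)) (S.crd a x) :=
    fun a x => DFunLike.congr_fun (F.crd_d a) x
  have fr : ∀ a x, S.fr ℓ a x = S.frm a (S.frc ℓ a (S.crd a x)) := fun a x => rfl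
  refine ⟨fun c σ a ha p w hw hd => ?_, fun c σ a ha p x y hy e => ?_⟩
  · obtain ⟨π, p1, -, -, p4⟩ := proj ℓ h0 F L hL ha c
    rw [M.mem _ σ a ha] at hw
    obtain ⟨y, hy, e⟩ := p1 p _ hw (by rw [← cd, hd, map_zero])
    obtain ⟨x, hx, e'⟩ := p4 p _ hw
    refine ⟨S.frm a x, by rwa [M.mem _ σ a ha, cf], S.frm a y, by rwa [M.mem _ σ a ha, cf], ?_⟩
    rw [fr, cf, e', ← fc a (S.dd _), cd, cf, ← map_add, ← e, fc]
  · obtain ⟨π, -, p2, p3, -⟩ := proj ℓ h0 F L hL ha c
    rw [M.mem _ σ a ha] at hy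
    have h1 := p2 p _ hy
    rw [← cd, ← e, fr, cf, p3] at h1
    have h2 : S.crd a x = 0 := by
      funext τ
      have h3 : S.crd a x τ ^ ℓ * ∏ i ∈ τ, S.xi ℓ a i = 0 := congrFun h1 τ
      have := hL.red
      refine IsNilpotent.eq_zero ⟨ℓ, ?_⟩
      generalize S.crd a x τ ^ ℓ = g at h3
      have h4 : ∀ i (m : ℕ) (g : Ω), g * uu S a i ^ m = 0 → g = 0 := by
        intro i m
        induction m with
        | zero => intro g h; simpa using h
        | succ m ih =>
          intro g h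
          refine ih g ((Units.mul_right_eq_zero (S.un a i)⁻¹).1 (hL.nzd a i _ ?_))
          rw [← h, pow_succ, uu]
          ring
      induction τ using Finset.induction_on generalizing g with
      | empty => simpa using h3
      | insert i τ hi ih =>
        rw [prod_insert hi, ← mul_assoc] at h3
        exact h4 i _ g (ih _ h3)
    rw [← fc a x, h2, map_zero]

end Pool.Agent.MP_ee8c61_ag.H59
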