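import Pool.Agent.MP_ee8c61_ag.H59.SpecC

/-! The Cartier isomorphism in coordinates. -/

namespace Pool.Agent.MP_ee8c61_ag.H59

open Finset

namespace Cart0X

section Abs

variable {G κ : Type} [AddCommGroup G]

/-- The product of the operators `1 - L i ^ (k + 1)`. -/
def pr (L : κ → Op G) (k : ℕ) (l : List κ) : Op G := (l.map fun i => 1 - L i ^ (k + 1)).prod

theorem pr_cons (L : κ → Op G) (k : ℕ) (i : κ) (l : List κ) :
    pr L k (i :: l) = (1 - L i ^ (k + 1)) * pr L k l := List.prod_cons

theorem pr_comm {D : Op G} {L : κ → Op G} (h : ∀ i, Commute D (L i)) (k : ℕ) (l : List κ) :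
    Commute D (pr L k l) := by
  induction l with
  | nil => exact Commute.one_right D
  | cons i l ih =>
    rw [pr_cons]
    exact ((Commute.one_right D).sub_right ((h i).pow_right _)).mul_right ih

theorem pow_keep {T : Op G} {N : AddSubgroup G} (h : ∀ x ∈ N, T x ∈ N) (k : ℕ) :
    ∀ x ∈ N, (T ^ k) x ∈ N := by
  induction k with
  | zero => exact fun x hx => hx
  | succ k ih => exact fun x hx => by rw [pow_succ', op_mul]; exact h _ (ih x hx)

theorem pow_eig {T : Op G} {a : ℤ} {x : G} (h : T x = a • x) (k : ℕ) : (T ^ k) x = a ^ k • x := by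
  induction k with
  | zero => simp
  | succ k ih => rw [pow_succ', op_mul, ih, map_zsmul, h, smul_smul, pow_succ]

theorem pr_eig {L : κ → Op G} {a : κ → ℤ} {x : G} (h : ∀ i, L i x = a i • x) (k : ℕ)
    (l : List κ) : pr L k l x = (l.map fun i => 1 - a i ^ (k + 1)).prod • x := by
  induction l with
  | nil => simp [pr]
  | cons i l ih =>
    rw [pr_cons, op_mul, ih, map_zsmul, op_sub, op_one, pow_eig (h i), List.map_cons,
      List.prod_cons, mul_comm, mul_smul, sub_smul, one_smul]

theorem pr_fix {L : κ → Op G} {x : G} (h : ∀ i, L i x = 0) (k : ℕ) (l : List κ) :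
    pr L k l x = x := by
  rw [pr_eig (a := fun _ => 0) (fun i => by rw [h, zero_smul])]
  simp

theorem pr_hom {D : Op G} {h L : κ → Op G} {Λ : Lat G} (hL : ∀ i, L i = D * h i + h i * D)
    (hc : ∀ i, Commute D (L i)) (hk : ∀ i, Keeps (L i) Λ Λ) (hh : ∀ i, Maps (h i) Λ Λ (-1))
    (k : ℕ) (l : List κ) (p : ℤ) (w : G) (hw : w ∈ Λ p) (h0 : D w = 0) :
    pr L k l w ∈ Λ p ∧ ∃ y ∈ Λ (p - 1), w = pr L k l w + D y := by
  induction l with
  | nil => exact ⟨hw, 0, zero_mem _, by simp [pr]⟩
  | cons i l ih =>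
    obtain ⟨h1, y, h2, h3⟩ := ih
    have h4 : D ((L i ^ k) (pr L k l w)) = 0 := by
      rw [← op_mul, ← op_mul, mul_assoc, (((hc i).pow_right k).mul_right (pr_comm hc k l)).eq,
        op_mul, h0, map_zero]
    rw [pr_cons, op_mul, op_sub, op_one]
    refine ⟨sub_mem h1 (pow_keep (hk i p) _ _ h1), y + h i ((L i ^ k) (pr L k l w)),
      add_mem h2 (hh i p _ (pow_keep (hk i p) _ _ h1)), ?_⟩
    have h5 : (L i ^ (k + 1)) (pr L k l w) = D (h i ((L i ^ k) (pr L k l w))) := by
      rw [pow_succ', op_mul]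
      generalize (L i ^ k) (pr L k l w) = z at h4
      rw [hL, op_add, op_mul, op_mul, h4, map_zero, add_zero]
    rw [h5, map_add]
    conv_lhs => rw [h3]
    abel

end Abs

end Cart0X

open Cart0X in
theorem rowCart0 : OfCart0 := by
  intro hC hF Ω n ℓ _ hp _ d E u N B ex lg _ hd hE hu _ hz hN hB hm
  have C := hC (Fin n) Ω
  have F := hF Ω n
  obtain ⟨k, hk⟩ : ∃ k, ℓ - 1 = k + 1 := ⟨ℓ - 2, by have := hp.out.two_le; omega⟩
  have DD : dR d * dR d = 0 :=
    C.kos_sq 0 d univ (mul_zero _) (fun i _ => Commute.zero_right _) fun i _ j _ => hd i j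
  let h : Fin n → Op (Fm n Ω) := fun i => mu _ (u i) * io i
  let L : Fin n → Op (Fm n Ω) := fun i => dR d * h i + h i * dR d
  have hc : ∀ i, Commute (dR d) (L i) := fun i => by
    change dR d * (dR d * h i + h i * dR d) = (dR d * h i + h i * dR d) * dR d
    rw [mul_add, add_mul, ← mul_assoc, DD, mul_assoc (h i), DD, zero_mul, mul_zero, zero_add,
      add_zero, mul_assoc (dR d)]
  have hh : ∀ i, Maps (h i) (fl n N) (fl n N) (-1) := fun i p w hw => by
    refine F.fl_mu N N _ (fun g hg => (hm i g hg).1) _ _ ?_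
    rw [← F.co_single]
    refine F.fl_co N N _ (fun l g hg => ?_) p w hw
    by_cases e : l = i <;> simp [e, hg]
  have hD : Maps (dR d) (fl n N) (fl n N) 1 := F.fl_dR N N d fun l g hg => (hm l g hg).2
  have hK : ∀ i, Keeps (L i) (fl n N) (fl n N) := fun i p w hw => by
    change dR d (h i w) + h i (dR d w) ∈ _
    exact add_mem (by simpa using hD _ _ (hh i p w hw)) (by simpa using hh i _ _ (hD p w hw))
  have e1 : ∀ i, dR d * mu _ (u i) = mu _ (u i) * dR d + if lg i then 0 else ep i := fun i => by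
    refine op_ext fun γ => funext fun σ => ?_
    simp only [op_mul, op_add, mu_apply, Pi.add_apply, Pi.smul_apply, dR, C.kos_apply, op_zero,
      smul_zero, zero_add, univ_inter, smul_eq_mul, hu, smul_add, sum_add_distrib, mul_sum,
      mul_smul_comm]
    congr 1
    by_cases h1 : lg i
    · simp [h1]
    · simp [h1, ep_apply]
  have e2 : ∀ i (γ : Fm n Ω) σ, L i γ σ = E i (γ σ) + if i ∈ σ ∧ ¬lg i then γ σ else 0 := by
    intro i γ σ
    have a : L i = mu _ (u i) * ev (d i) + (if lg i then 0 else ep i) * io i := by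
      change dR d * (mu _ (u i) * io i) + mu _ (u i) * io i * dR d = _
      rw [← mul_assoc, e1, ← F.dR_io]
      noncomm_ring
    have b := C.num {i} γ σ
    rw [sum_singleton] at b
    rw [a, hE]
    by_cases h1 : lg i
    · simp [h1]
    · by_cases h2 : i ∈ σ
      · rw [if_neg h1, op_add, Pi.add_apply, b]; simp [h1, h2]
      · rw [if_neg h1, op_add, Pi.add_apply, b]; simp [h2]
  have e3 : ∀ σ, ∀ g ∈ B, ∀ i, L i (Pi.single σ g) =
      (ex g i + if i ∈ σ ∧ ¬lg i then 1 else 0) • (Pi.single σ g : Fm n Ω) := by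
    intro σ g hg i
    funext τ
    rw [e2]
    by_cases e : τ = σ
    · subst e
      rw [Pi.smul_apply, Pi.single_eq_same, hB g hg, add_smul]
      split_ifs <;> simp
    · simp [e]
  have e4 : ∀ (a : ℤ) (x : Fm n Ω), (ℓ : ℤ) ∣ a → a • x = 0 := fun a x ha => by
    funext σ
    rw [Pi.smul_apply, zsmul_eq_mul, (CharP.intCast_eq_zero_iff Ω ℓ a).2 ha, zero_mul]
    rfl
  have e5 : ∀ σ, ∀ g ∈ B, pr L k (List.finRange n) (Pi.single σ g) = 0 ∨
      ∀ i, (ℓ : ℤ) ∣ ex g i + if i ∈ σ ∧ ¬lg i then 1 else 0 := by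
    intro σ g hg
    refine or_iff_not_imp_right.2 fun hn => ?_
    obtain ⟨i, hi⟩ := not_forall.1 hn
    rw [pr_eig (e3 σ g hg)]
    refine e4 _ _ (Dvd.dvd.trans ?_
      (List.dvd_prod (List.mem_map_of_mem (List.mem_finRange i))))
    rw [← ZMod.intCast_zmod_eq_zero_iff_dvd] at hi ⊢
    rw [← hk, Int.cast_sub, Int.cast_pow, ZMod.pow_card_sub_one_eq_one hi, Int.cast_one, sub_self]
  refine ⟨pr L k (List.finRange n), fun p w hw h0 =>
    (pr_hom (fun _ => rfl) hc hK hh k _ p w hw h0).2, fun p y hy => ?_, fun σ g hg => ?_,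
    fun σ g hg => (e5 σ g hg).imp_right fun a => Or.inr
      ⟨pr_fix (fun i => (e3 σ g hg i).trans (e4 _ _ (a i))) _ _, a⟩⟩
  · rw [← univ_sum_single y, map_sum, map_sum]
    refine sum_eq_zero fun σ _ => ?_
    have h1 := ((F.mem_fl N p y).1 hy).1 σ
    rw [hN] at h1
    generalize y σ = g at h1
    induction h1 using AddSubgroup.closure_induction with
    | mem g hg =>
      rcases e5 σ g hg with a | a
      · rw [← op_mul, ← (pr_comm hc k _).eq, op_mul, a, map_zero]
      · have b : dR d (Pi.single σ g) = 0 := by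
          funext τ
          rw [dR, C.kos_apply, op_zero, smul_zero, zero_add]
          refine sum_eq_zero fun i _ => ?_
          by_cases e : τ.erase i = σ
          · have a1 := a i
            rw [if_neg fun c => by simpa [← e] using c.1, add_zero] at a1
            have a2 := hB g hg i
            rw [hE, zsmul_eq_mul, (CharP.intCast_eq_zero_iff Ω ℓ _).2 a1, zero_mul] at a2
            rw [e, Pi.single_eq_same, hz i _ a2, smul_zero]
          · rw [Pi.single_eq_of_ne e, map_zero, smul_zero]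
        rw [b, map_zero]
    | zero => simp
    | add g g' _ _ a b => rw [Pi.single_add, map_add, map_add, a, b, add_zero]
    | neg g _ a => rw [Pi.single_neg, map_neg, map_neg, a, neg_zero]
  · refine pr_fix (fun i => funext fun τ => ?_) _ _
    rw [e2]
    by_cases e : τ = σ
    · subst e
      rw [Pi.single_eq_same, hg]
      split_ifs <;> simp
    · simp [e]

end Pool.Agent.MP_ee8c61_ag.H59
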