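import Pool.Agent.MP_ee8c61_ag.H59.SpecA

/-!
The Koszul complex on `insert i S` as a cone.
-/

namespace Pool.Agent.MP_ee8c61_ag.H59

open Finset

namespace ConeX

variable {ι M : Type} [LinearOrder ι] [AddCommGroup M]

theorem st {d : Op M} {t : ι → Op M} {S : Finset ι} {F : Finset ι → Lat M} (hC : Car ι M)
    (h1 : ∀ σ j, ∀ x ∈ F σ j, d x ∈ F σ (j + 1))
    (h2 : ∀ i ∈ S, ∀ σ, i ∉ σ → Keeps (t i) (F σ) (F (insert i σ))) (j : ℤ) (γ : Ch ι M)
    (h : γ ∈ kl S F j) : kos d t S γ ∈ kl S F (j + 1) := by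
  rw [mem_kl] at h ⊢
  intro σ
  rw [hC.kos_apply]
  refine ⟨fun hσ => add_mem (zsmul_mem ?_ _) (sum_mem fun i hi => zsmul_mem ?_ _), fun hσ => ?_⟩
  · have := h1 σ _ _ ((h σ).1 hσ)
    rwa [show j - σ.card + 1 = j + 1 - σ.card by ring] at this
  · obtain ⟨a, b⟩ := mem_inter.1 hi
    have := h2 i a _ (notMem_erase i σ) _ _ ((h _).1 ((erase_subset i σ).trans hσ))
    rw [insert_erase b] at this
    have e : ((σ.erase i).card : ℤ) + 1 = σ.card := by exact_mod_cast card_erase_add_one b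
    rwa [show j - (σ.erase i).card = j + 1 - σ.card by rw [← e]; ring] at this
  · rw [(h σ).2 hσ, map_zero, smul_zero, zero_add]
    refine sum_eq_zero fun i hi => ?_
    obtain ⟨a, b⟩ := mem_inter.1 hi
    rw [(h _).2 fun hh => hσ (by
      rw [← insert_erase b]
      exact insert_subset a hh), map_zero, smul_zero]

theorem keeps (g : Op M) (S : Finset ι) (F F' : Finset ι → Lat M)
    (h : ∀ σ ⊆ S, Keeps g (F σ) (F' σ)) : Keeps (ev g) (kl S F) (kl S F') := by
  intro j γ hγ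
  rw [mem_kl] at hγ ⊢
  intro σ
  rw [ev_apply]
  exact ⟨fun hσ => h σ hσ _ _ ((hγ σ).1 hσ), fun hσ => by rw [(hγ σ).2 hσ, map_zero]⟩

theorem io_mem {S : Finset ι} {i : ι} {F G : Finset ι → Lat M} {S' : Finset ι} (c : Op M)
    (hS : ∀ σ, i ∉ σ → (insert i σ ⊆ S' ↔ σ ⊆ S))
    (h : ∀ σ, i ∉ σ → Keeps c (F (insert i σ)) (G σ)) {j : ℤ} {γ : Ch ι M}
    (hγ : γ ∈ kl S' F j) : ev c (io i γ) ∈ kl S G (j - 1) := by
  rw [mem_kl] at hγ ⊢
  intro σ
  rw [ev_apply, io_apply]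
  by_cases hi : i ∈ σ
  · simp [hi]
  rw [if_neg hi, map_zsmul]
  refine ⟨fun hσ => zsmul_mem ?_ _, fun hσ => ?_⟩
  · have := h σ hi _ _ ((hγ _).1 ((hS σ hi).2 hσ))
    rw [card_insert_of_notMem hi] at this
    rwa [show j - ((σ.card + 1 : ℕ) : ℤ) = j - 1 - σ.card by push_cast; ring] at this
  · rw [(hγ _).2 fun hh => hσ ((hS σ hi).1 hh), map_zero, smul_zero]

theorem io_zero {S : Finset ι} {i : ι} (hi : i ∉ S) {F : Finset ι → Lat M} {j : ℤ} {γ : Ch ι M}
    (h : γ ∈ kl S F j) : io i γ = 0 := by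
  rw [mem_kl] at h
  funext σ
  rw [io_apply]
  split_ifs
  · rfl
  · rw [(h _).2 fun hh => hi (hh (mem_insert_self i σ)), smul_zero]
    rfl

theorem join {S : Finset ι} {i : ι} {F : Finset ι → Lat M} {j : ℤ} {a b : Ch ι M}
    (ha : a ∈ kl S F j) (hb : b ∈ kl S (fun σ => F (insert i σ)) (j - 1)) :
    a + ep i b ∈ kl (insert i S) F j := by
  refine add_mem ?_ ?_
  · rw [mem_kl] at ha ⊢
    intro σ
    refine ⟨fun _ => ?_, fun hσ => (ha σ).2 fun hh => hσ (hh.trans (subset_insert i S))⟩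
    by_cases hh : σ ⊆ S
    · exact (ha σ).1 hh
    · rw [(ha σ).2 hh]
      exact zero_mem _
  · rw [mem_kl] at hb ⊢
    intro σ
    rw [ep_apply]
    by_cases hi : i ∈ σ
    swap
    · simp [hi]
    rw [if_pos hi]
    refine ⟨fun hσ => zsmul_mem ?_ _, fun hσ => ?_⟩
    · have := (hb _).1 (subset_insert_iff.1 hσ)
      rw [insert_erase hi] at this
      have e : ((σ.erase i).card : ℤ) + 1 = σ.card := by exact_mod_cast card_erase_add_one hi
      rwa [show j - 1 - (σ.erase i).card = j - σ.card by rw [← e]; ring] at this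
    · rw [(hb _).2 fun hh => hσ (subset_insert_iff.2 hh), smul_zero]

theorem part {S : Finset ι} {i : ι} (_ : i ∉ S) {F : Finset ι → Lat M} {j : ℤ} {γ : Ch ι M}
    (h : γ ∈ kl (insert i S) F j) :
    io i (ep i γ) ∈ kl S F j ∧ io i γ ∈ kl S (fun σ => F (insert i σ)) (j - 1) := by
  refine ⟨?_, io_mem (F := F) 1 (fun σ hσ => ?_) (fun σ _ _ _ hx => hx) h⟩
  · rw [mem_kl] at h ⊢
    intro σ
    rw [io_apply]
    by_cases hσ : i ∈ σ
    · simp [hσ]
    rw [if_neg hσ, ep_apply, if_pos (mem_insert_self i σ), erase_insert hσ, sgn_insert, smul_smul,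
      sgn_mul_self, one_smul]
    exact ⟨fun hh => (h σ).1 (hh.trans (subset_insert i S)),
      fun hh => (h σ).2 fun h2 => hh ((subset_insert_iff_of_notMem hσ).1 h2)⟩
  · rw [insert_subset_iff, subset_insert_iff_of_notMem hσ]
    simp

theorem dec (hC : Car ι M) (i : ι) (γ : Ch ι M) : γ = io i (ep i γ) + ep i (io i γ) := by
  have := DFunLike.congr_fun (hC.ei i i) γ
  rw [if_pos rfl] at this
  rw [add_comm]
  exact this.symm

theorem split (hC : Car ι M) {S : Finset ι} {i : ι} (hi : i ∉ S) {F : Finset ι → Lat M} {j : ℤ}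
    {a b : Ch ι M} (ha : io i a = 0) (hb : io i b = 0) (h : a + ep i b ∈ kl (insert i S) F j) :
    a ∈ kl S F j ∧ b ∈ kl S (fun σ => F (insert i σ)) (j - 1) := by
  have h0 : ep i (ep i b) = 0 := DFunLike.congr_fun (hC.ee0 i) b
  have e1 := dec hC i a
  have e2 := dec hC i b
  rw [ha, map_zero, add_zero] at e1
  rw [hb, map_zero, add_zero] at e2
  have := part hi h
  rwa [map_add, h0, add_zero, ← e1, map_add, ha, zero_add, ← e2] at this

theorem kos_ins (hC : Car ι M) (d : Op M) (t : ι → Op M) {S : Finset ι} {i : ι} (hi : i ∉ S)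
    (a b : Ch ι M) : kos d t (insert i S) (a + ep i b) =
      kos d t S a + ep i (ev (t i) a - kos d t S b) := by
  have e : kos d t (insert i S) = kos d t S + ep i * ev (t i) := by
    unfold kos
    rw [sum_insert hi]
    abel
  have h0 : ep i (ep i (ev (t i) b)) = 0 := DFunLike.congr_fun (hC.ee0 i) _
  have h1 : ev (t i) (ep i b) = ep i (ev (t i) b) := DFunLike.congr_fun (hC.ev_ep (t i) i).eq b
  have h2 : kos d t S (ep i b) + ep i (kos d t S b) = 0 := DFunLike.congr_fun (hC.kos_ep d t S i) b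
  rw [e, op_add, op_mul, map_add, map_add, map_add, h1, h0, map_sub, eq_neg_of_add_eq_zero_left h2]
  abel

theorem io_kos (hC : Car ι M) (d : Op M) (t : ι → Op M) {S : Finset ι} {i : ι} (hi : i ∉ S)
    {a : Ch ι M} (ha : io i a = 0) : io i (kos d t S a) = 0 := by
  have h := DFunLike.congr_fun (hC.kos_io d t S i) a
  rw [if_neg hi, op_add, op_mul, op_mul, ha, map_zero, zero_add] at h
  exact h

theorem io_ev (hC : Car ι M) (g : Op M) {i : ι} {a : Ch ι M} (ha : io i a = 0) :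
    io i (ev g a) = 0 := by
  have h : ev g (io i a) = io i (ev g a) := DFunLike.congr_fun (hC.ev_io g i).eq a
  rw [← h, ha, map_zero]

/-- the difference of a cochain and a coboundary, in components -/
theorem diff (hC : Car ι M) (d : Op M) (t : ι → Op M) {S : Finset ι} {i : ι} (hi : i ∉ S)
    (a b a' b' : Ch ι M) : a + ep i b - kos d t (insert i S) (a' + ep i b') =
      (a - kos d t S a') + ep i (b - ev (t i) a' - kos d t S (-b')) := by
  rw [kos_ins hC d t hi]
  simp only [map_sub, map_neg]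
  abel

theorem comp (hC : Car ι M) {d : Op M} {t : ι → Op M} {S : Finset ι} {i : ι} (hi : i ∉ S)
    {F F' : Finset ι → Lat M} {j : ℤ} {a b η : Ch ι M} (ha : io i a = 0) (hb : io i b = 0)
    (h1 : η ∈ kl (insert i S) F (j - 1))
    (h2 : a + ep i b - kos d t (insert i S) η ∈ kl (insert i S) F' j) :
    ∃ a' ∈ kl S F (j - 1), ∃ b' ∈ kl S (fun σ => F (insert i σ)) (j - 1 - 1),
      a - kos d t S a' ∈ kl S F' j ∧
      b - ev (t i) a' - kos d t S b' ∈ kl S (fun σ => F' (insert i σ)) (j - 1) := by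
  obtain ⟨p, q⟩ := part hi h1
  rw [dec hC i η, diff hC d t hi] at h2
  have p0 := io_zero hi p
  have q0 := io_zero hi (neg_mem q)
  exact ⟨_, p, _, neg_mem q, split hC hi (by rw [map_sub, ha, io_kos hC d t hi p0, sub_zero])
    (by rw [map_sub, map_sub, hb, io_kos hC d t hi q0, io_ev hC _ p0, sub_zero, sub_zero]) h2⟩

theorem mem_emp {F : Finset ι → Lat M} {j : ℤ} {γ : Ch ι M} :
    γ ∈ kl ∅ F j ↔ γ ∅ ∈ F ∅ j ∧ ∀ σ, σ ≠ ∅ → γ σ = 0 := by
  rw [mem_kl]
  refine ⟨fun h => ⟨by simpa using (h ∅).1 Subset.rfl, fun σ hσ => (h σ).2 (by simpa using hσ)⟩,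
    fun h σ => ⟨fun hσ => ?_, fun hσ => h.2 σ (by simpa using hσ)⟩⟩
  obtain rfl := subset_empty.1 hσ
  simpa using h.1

theorem kos_emp (d : Op M) (t : ι → Op M) (γ : Ch ι M) (σ : Finset ι) :
    kos d t ∅ γ σ = (-1 : ℤ) ^ σ.card • d (γ σ) := by
  simp [kos]

theorem emp_null (d g : Op M) (t : ι → Op M) (F F' : Finset ι → Lat M) (j : ℤ) :
    Null (kos d t ∅) (kl ∅ F) (kl ∅ F') (kl ∅ F) (kl ∅ F') (ev g) j ↔
      Null d (F ∅) (F' ∅) (F ∅) (F' ∅) g j := by
  constructor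
  · intro h x hx hd
    obtain ⟨y, hy, e⟩ := h (Pi.single ∅ x)
      (mem_emp.2 ⟨by simpa using hx, fun σ hσ => by simp [hσ]⟩)
      (mem_emp.2 ⟨by simpa [kos_emp] using hd, fun σ hσ => by simp [kos_emp, hσ]⟩)
    exact ⟨y ∅, (mem_emp.1 hy).1, by simpa [kos_emp] using (mem_emp.1 e).1⟩
  · intro h γ hγ hd
    obtain ⟨a, b⟩ := mem_emp.1 hγ
    obtain ⟨y, hy, e⟩ := h (γ ∅) a (by simpa [kos_emp] using (mem_emp.1 hd).1)
    exact ⟨Pi.single ∅ y, mem_emp.2 ⟨by simpa using hy, fun σ hσ => by simp [hσ]⟩,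
      mem_emp.2 ⟨by simpa [kos_emp] using e, fun σ hσ => by simp [kos_emp, hσ, b σ hσ]⟩⟩

end ConeX

open ConeX

theorem rowCone : OfCone := by
  intro hC' hX ι M _ _
  have hC := hC' ι M
  refine ⟨fun d t S F F' h => ⟨hC.kos_sq d t S (h.pair ∅).dd h.cd h.ct, fun j γ hγ => ?_,
    st hC (fun σ => (h.pair σ).st) h.kp, st hC (fun σ => (h.pair σ).st') h.kp'⟩,
    fun d t S i F F' hi h => ?_, keeps, fun g S F F' e h j γ hγ => ?_,
    fun d t S i F F' j hi h hv x hx hd ⟨y, hy, e⟩ => ?_,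
    fun d t S i F F' j hi h hv x hx hd => ?_, fun d t S i F F' j hi h hI hS γ hγ hd => ?_,
    fun d t c S F F' G G' j h1 h2 h3 h4 => ?_, fun d t F F' j => emp_null d 1 t F F' j, emp_null⟩
  · exact keeps 1 S F' F (fun σ _ j x hx => (h.pair σ).le j hx) j γ hγ
  · have m : ∀ l ∈ S, l ∈ insert i S := fun l hl => mem_insert_of_mem hl
    have k : ∀ l ∈ S, ∀ σ, l ∉ σ → l ∉ insert i σ := fun l hl σ hσ hh =>
      (mem_insert.1 hh).elim (fun e => hi (e ▸ hl)) hσ
    refine ⟨⟨h.pair, fun l hl => h.cd l (m l hl), fun l hl l' hl' => h.ct l (m l hl) l' (m l' hl'),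
      fun l hl => h.kp l (m l hl), fun l hl => h.kp' l (m l hl)⟩, fun σ => h.pair _,
      fun l hl => h.cd l (m l hl), fun l hl l' hl' => h.ct l (m l hl) l' (m l' hl'),
      fun l hl σ hσ => ?_, fun l hl σ hσ => ?_⟩
    · rw [insert_comm]
      exact h.kp l (m l hl) _ (k l hl σ hσ)
    · rw [insert_comm]
      exact h.kp' l (m l hl) _ (k l hl σ hσ)
  · rw [mem_kl] at hγ ⊢
    intro σ
    rw [od_apply]
    refine ⟨fun hσ => zsmul_mem ?_ _, fun hσ => by rw [(hγ σ).2 hσ, map_zero, smul_zero]⟩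
    have := h σ hσ _ _ ((hγ σ).1 hσ)
    rwa [show j - σ.card + e = j + e - σ.card by ring] at this
  · obtain ⟨η, h1, h2⟩ := hv _ (join hx hy) (by
      rw [kos_ins hC d t hi]
      exact join hd (by rwa [add_sub_cancel_right]))
    obtain ⟨a, ha, -, -, h3, -⟩ := comp hC hi (io_zero hi hx) (io_zero hi hy) h1 h2
    exact ⟨a, ha, h3⟩
  · obtain ⟨η, h1, h2⟩ := hv (0 + ep i x) (join (zero_mem _) (by rwa [add_sub_cancel_right])) (by
      rw [kos_ins hC d t hi, map_zero, map_zero, zero_sub]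
      exact join (zero_mem _) (by
        rw [add_sub_cancel_right]
        exact neg_mem hd))
    obtain ⟨a, ha, b, hb, h3, h4⟩ := comp hC hi (map_zero _) (io_zero hi hx) h1 h2
    rw [add_sub_cancel_right] at ha hb h4
    rw [zero_sub] at h3
    exact ⟨a, ha, neg_mem_iff.1 h3, b, hb, h4⟩
  · obtain ⟨p, q⟩ := part hi hγ
    have p0 := io_zero hi p
    have q0 := io_zero hi q
    have e := dec hC i γ
    generalize io i (ep i γ) = a at p p0 e
    generalize io i γ = b at q q0 e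
    subst e
    rw [kos_ins hC d t hi] at hd
    obtain ⟨u, v⟩ := split hC hi (io_kos hC d t hi p0)
      (by rw [map_sub, io_kos hC d t hi q0, io_ev hC _ p0, sub_zero]) hd
    rw [add_sub_cancel_right] at v
    obtain ⟨y, hy, r⟩ := hI a p u ⟨b, q, v⟩
    have nm : ∀ σ ⊆ S, i ∉ σ := fun σ hσ hh => hi (hσ hh)
    have k1 := keeps (t i) S _ _ fun σ hσ => h.kp i (mem_insert_self i S) σ (nm σ hσ)
    have k2 := keeps (t i) S _ _ fun σ hσ => h.kp' i (mem_insert_self i S) σ (nm σ hσ)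
    have cm : ev (t i) (kos d t S y) = kos d t S (ev (t i) y) :=
      DFunLike.congr_fun (hC.kos_ev d (t i) t S (h.cd i (mem_insert_self i S))
        fun l hl => h.ct i (mem_insert_self i S) l (mem_insert_of_mem hl)).eq y
    obtain ⟨x, hx, dx, z, hz, s⟩ := hS (b - ev (t i) y) (sub_mem q (k1 _ _ hy)) (by
      rw [sub_add_cancel, map_sub, ← cm]
      have := sub_mem (k2 _ _ r) v
      rw [map_sub] at this
      convert this using 1
      abel)
    rw [sub_add_cancel] at dx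
    refine ⟨y + x + ep i (-z), join (add_mem hy hx) (neg_mem hz), ?_⟩
    rw [diff hC d t hi]
    refine join ?_ ?_
    · rw [map_add, ← sub_sub]
      exact sub_mem r dx
    · rwa [neg_neg, map_add, ← sub_sub]
  · have mem : ∀ (A B : Finset ι → Lat M),
        (∀ i ∈ S, ∀ σ, i ∉ σ → Keeps (c i) (A (insert i σ)) (B σ)) → ∀ j, ∀ γ ∈ kl S A j,
        (∑ i ∈ S, ev (c i) * io i : Op (Ch ι M)) γ ∈ kl S B (j - 1) := fun A B h j γ hγ => by
      rw [op_sum]
      exact sum_mem fun i hi => io_mem (c i) (fun σ _ => by simp [insert_subset_iff, hi]) (h i hi) hγ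
    refine (hX _).hom _ _ (∑ i ∈ S, ev (c i) * io i) _ _ _ _ j (mem F G h3 j)
      (fun x hx => by simpa using mem F' G' h4 _ x hx) fun x _ => ?_
    have e : kos d t S * (∑ i ∈ S, ev (c i) * io i) + (∑ i ∈ S, ev (c i) * io i) * kos d t S =
        ev (∑ i ∈ S, c i * t i) := by
      rw [mul_sum, sum_mul, ← sum_add_distrib]
      refine Eq.trans (sum_congr rfl fun i hi => ?_) (map_sum (evH ι M) _ S).symm
      have := hC.kos_io d t S i
      rw [if_pos hi] at this
      rw [← mul_assoc, ← (hC.kos_ev d (c i) t S (h1 i hi) (h2 i hi)).eq, mul_assoc, mul_assoc,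
        ← mul_add, this]
      rfl
    rw [← e]
    simp

end Pool.Agent.MP_ee8c61_ag.H59
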