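import Pool.Agent.MP_ee8c61_ag.H59.SpecA

/-! Element chases in complexes given by lattices. -/

namespace Pool.Agent.MP_ee8c61_ag.H59

namespace CxX

variable {G : Type} [AddCommGroup G]

theorem cast {L : Lat G} {i j : ℤ} {x : G} (h : x ∈ L i) (e : i = j) : x ∈ L j := e ▸ h

theorem cm {g D : Op G} (h : Commute g D) (x : G) : D (g x) = g (D x) :=
  (DFunLike.congr_fun h.eq x).symm

theorem of_eq {N : AddSubgroup G} {x y : G} (h : x ∈ N) (e : y = x) : y ∈ N := e ▸ h

theorem mid {D : Op G} {L L' L'' : Lat G} {j : ℤ} (hd : D * D = 0) (h1 : L' (j - 1) ≤ L (j - 1))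
    (h2 : L'' (j + 1) ≤ L' (j + 1)) (a : Van D L' L'' j) (b : Van D L L' j) : Van D L L'' j := by
  intro x hx hD
  obtain ⟨y, hy, e⟩ := b x hx (h2 hD)
  have dd : D (D y) = 0 := DFunLike.congr_fun hd y
  obtain ⟨y', hy', e'⟩ := a _ e (by rwa [map_sub, dd, sub_zero])
  exact ⟨y + y', add_mem hy (h1 hy'), by rwa [map_add, ← sub_sub]⟩

theorem chain (D : Op G) (F : ℕ → Lat G) (j : ℤ) (hd : D * D = 0) (r : ℕ) :
    (∀ i < r, Pair D (F i) (F (i + 1)) ∧ Van D (F i) (F (i + 1)) j) →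
      Van D (F 0) (F r) j ∧ ∀ i, F r i ≤ F 0 i := by
  induction r with
  | zero => exact fun _ => ⟨fun x hx _ => ⟨0, zero_mem _, by simpa using hx⟩, fun _ => le_rfl⟩
  | succ r ih =>
    intro h
    obtain ⟨a, b⟩ := ih fun i hi => h i (hi.trans r.lt_succ_self)
    obtain ⟨c, d⟩ := h r r.lt_succ_self
    exact ⟨mid hd (b _) (c.le _) d a, fun i => (c.le i).trans (b i)⟩

theorem ee (ε : ℤˣ) (x : G) : (ε : ℤ) • (ε : ℤ) • x = x := by
  rw [smul_smul, Int.units_coe_mul_self, one_smul]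

end CxX

open CxX

theorem rowCx : SCx := fun G _ =>
  { mid := fun D L L' L'' j h h' a b => CxX.mid h.dd (h.le _) (h'.le _) a b
    right := fun D L L' L'' j h h' a b x hx hD => by
      obtain ⟨y, hy, e⟩ := b _ hD (by rw [h.dd']; exact zero_mem _)
      have hy' : y ∈ L' j := CxX.cast hy (by ring)
      obtain ⟨z, hz, e'⟩ := a (x - y) (sub_mem hx (h.le _ hy')) (by rwa [map_sub])
      exact ⟨z, hz, of_eq (add_mem (h'.le _ e') hy') (by abel)⟩
    left := fun D L L' L'' j h h' a b x hx hD => by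
      obtain ⟨y, hy, e⟩ := a x (h.le _ hx) hD
      obtain ⟨z, -, e'⟩ := b y hy
        (CxX.cast (of_eq (sub_mem hx (h'.le _ e)) (by abel)) (by ring))
      exact ⟨_, e', by rwa [map_sub, h.dd', sub_zero]⟩
    sup := fun D L M j h h' a x hx hD => by
      obtain ⟨u, hu, v, hv, rfl⟩ := AddSubgroup.mem_sup.1 hx
      obtain ⟨y, hy, e⟩ := a u hu ⟨h j u hu, of_eq (sub_mem hD (h' j v hv)) (by simp)⟩
      exact ⟨y, AddSubgroup.mem_sup_left hy, of_eq (add_mem e.2 hv) (by abel)⟩
    chain := fun D F r j hd h => (CxX.chain D F j hd r h).1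
    hom := fun D g h L L' M M' j a b c x hx hD =>
      ⟨h x, a x hx, of_eq (add_mem (c x hx) (b _ hD)) (by abel)⟩
    ext := fun D g g' L L' L'' j h h' c c' k k' a b x hx hD => by
      obtain ⟨y, hy, e⟩ := a x hx (h'.le _ hD)
      obtain ⟨y', hy', e'⟩ := b _ e (by rw [map_sub, h.dd', sub_zero, cm c]; exact k _ _ hD)
      exact ⟨g' y + y', add_mem (k' _ _ hy) (h.le _ hy'),
        of_eq e' (by rw [map_add, cm c', map_sub, op_mul, sub_sub])⟩
    van := fun D g L L' M M' j a b x hx hD => b x hx hD (a x hx hD)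
    inj_mul := fun D g g' L L' M M' N N' j c k k' a b x hx hD h =>
      a x hx hD (b _ (k _ _ hx) (by rw [cm c]; exact k' _ _ hD) h)
    null_left := fun D g g' L L' M M' N N' j c k k' a x hx hD => by
      obtain ⟨y, hy, e⟩ := a x hx hD
      exact ⟨g' y, k _ _ hy, of_eq (k' _ _ e) (by rw [cm c, map_sub, op_mul])⟩
    null_right := fun D g g' L L' M M' N N' j c k k' a x hx hD =>
      a (g x) (k _ _ hx) (of_eq (k' _ _ hD) (cm c x))
    null_add := fun D g g' L L' M M' j a b x hx hD => by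
      obtain ⟨y, hy, e⟩ := a x hx hD
      obtain ⟨y', hy', e'⟩ := b x hx hD
      exact ⟨y + y', add_mem hy hy', of_eq (add_mem e e') (by rw [map_add, op_add]; abel)⟩
    tr := fun G' _ φ D D' L L' M M' e ε h h' a b c d j => by
      refine ⟨fun v y hy hD => ?_, fun v x hx hD => ?_⟩
      · obtain ⟨x, hx, e1⟩ := b j y hy
        have h1 : D' (φ x) ∈ M' (j + e + 1) :=
          of_eq (sub_mem hD (h'.st' _ _ e1)) (by rw [map_sub]; abel)
        obtain ⟨z, hz, e2⟩ := v x hx ((c _ _ (h.st j x hx)).1 (by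
          rw [d j x hx]; exact CxX.cast (zsmul_mem h1 _) (by ring)))
        refine ⟨(ε : ℤ) • φ z, CxX.cast (zsmul_mem (a _ z hz) _) (by ring),
          of_eq (add_mem e1 ((c j _ (h.le j e2)).2 e2)) ?_⟩
        rw [map_zsmul, map_sub, d _ z hz]
        abel
      · have h1 : D' (φ x) = (ε : ℤ) • φ (D x) := by rw [d j x hx, ee]
        obtain ⟨w, hw, e1⟩ := v _ (a j x hx) (by
          rw [h1]; exact CxX.cast (zsmul_mem ((c _ _ (h.st j x hx)).2 hD) _) (by ring))
        obtain ⟨z, hz, e2⟩ := b (j - 1) w (CxX.cast hw (by ring))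
        refine ⟨(ε : ℤ) • z, zsmul_mem hz _,
          (c j _ (sub_mem hx (h.stp j (zsmul_mem hz _)))).1
            (of_eq (add_mem e1 (CxX.cast (h'.st' _ _ e2) (by ring))) ?_)⟩
        rw [map_sub, map_zsmul, map_zsmul, d _ z hz, ee, map_sub]
        abel
    ds := fun E G' _ cf mo D D' L L' M M' sh j hs c m a a' b b' v x hx hD => by
      choose y hy e using fun e => v e (cf e x) (a e j x hx)
        (by rw [← c]; exact CxX.cast (a' e _ _ hD) (by ring))
      obtain ⟨s, hs⟩ := hs x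
      refine ⟨∑ e ∈ s, mo e (y e), sum_mem fun e _ => b e _ _ (CxX.cast (hy e) (by ring)),
        of_eq (sum_mem fun i (_ : i ∈ s) => b' i j _ (e i)) ?_⟩
      simp only [map_sub, map_sum, m, Finset.sum_sub_distrib]
      rw [← hs] }

end Pool.Agent.MP_ee8c61_ag.H59
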