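import Pool.Agent.MP_ee8c61_ag.H59.SpecB

/-!
The depth of the monomial lattices along an ideal that contains monic polynomials in the
coordinates.
-/

namespace Pool.Agent.MP_ee8c61_ag.H59

open Finset Sys

namespace DepthX

theorem aeval_mem {k Ω : Type} [CommRing k] [CommRing Ω] [Algebra k Ω] (B : Subalgebra k Ω)
    {z : Ω} (hz : z ∈ B) (g : Polynomial k) : Polynomial.aeval z g ∈ B :=
  Algebra.adjoin_le (S := B) (Set.singleton_subset_iff.2 hz)
    (Polynomial.aeval_mem_adjoin_singleton k z)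

end DepthX

theorem rowDepth : OfDepth := by
  intro hK hR hLo k Ω ι J n _ _ _ _ S hreg σ a ha κ _ t s ht hg c j hj
  have hLo := hLo k Ω ι J n S
  choose g cc h1 h2 h3 using hg
  have hu : ∀ i, Polynomial.aeval (S.z a i) (g i) ∈ S.AA σ := fun i =>
    DepthX.aeval_mem _ (hLo.le σ a ha (S.z_mem a i)) _
  have key := hK Ω Ω κ (Fin n) (S.AA σ).toSubring 0 (deg0 (S.NN a σ {c})) ⊥ t
    (fun i => Polynomial.aeval (S.z a i) (g i)) s univ n
    ⟨mul_zero _, fun _ => bot_le, fun _ _ _ => zero_mem _, fun _ _ _ => zero_mem _⟩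
    (fun _ _ => (smul_zero _).symm)
    (fun b hb j x hx => by
      rw [mem_deg0] at hx ⊢
      exact ⟨hLo.mul a σ _ b hb x hx.1, fun h => by rw [hx.2 h, map_zero]⟩)
    (fun b _ j x hx => by
      rw [mem_lat_bot] at hx ⊢
      rw [hx, map_zero])
    ht (fun i _ => hu i) (fun i _ => ⟨1, cc i, h2 i, by rw [pow_one, h3]⟩)
    (fun j hj => by
      rw [kl_bot]
      refine hR Ω (Fin n) _ _ univ (fun i _ x hx => hLo.mul a σ _ _ (hu i) x hx)
        (fun s' _ i _ hi h hh ⟨e, he, he'⟩ => ?_) j (by simpa using hj)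
      obtain ⟨e', h4, h5⟩ := hreg σ a ha g h1 s' i hi _ ((hLo.mem_one _ _ _ _).1 hh)
        ⟨fun l => e l * (((S.mon a c)⁻¹ : Ωˣ) : Ω), fun l => (hLo.mem_one _ _ _ _).1 (he l), by
          rw [← mul_assoc, he', sum_mul]
          exact sum_congr rfl fun l _ => mul_assoc _ _ _⟩
      refine ⟨fun l => e' l * (S.mon a c : Ω), fun l => ?_, ?_⟩
      · rw [hLo.mem_one, Units.mul_inv_cancel_right]
        exact h4 l
      · rw [← Units.inv_mul_cancel_right h (S.mon a c), h5, sum_mul]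
        exact sum_congr rfl fun l _ => mul_assoc _ _ _) j hj
  rwa [kl_bot] at key

end Pool.Agent.MP_ee8c61_ag.H59
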