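import Pool.Agent.MP_ee8c61_ag.H59.SpecB

/-!
The top exterior power is the determinant.
-/

set_option autoImplicit false

namespace Pool.Agent.MP_ee8c61_ag.H59

open Finset

namespace DetX

variable {Ω : Type} {n : ℕ} [CommRing Ω] (F : Fo Ω n)

/-- The wedge product as a bilinear map. -/
def W : (Fin n → Ω) →ₗ[Ω] Module.End Ω (Fm n Ω) where
  toFun α := { toFun := we α, map_add' := map_add _, map_smul' := F.lin_we α }
  map_add' α β := LinearMap.ext fun x => DFunLike.congr_fun (F.we_add α β) x
  map_smul' g α := LinearMap.ext fun x => DFunLike.congr_fun (F.we_smul g α) x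

theorem W_sq (α : Fin n → Ω) : W F α * W F α = 0 :=
  LinearMap.ext fun x => DFunLike.congr_fun (F.we_sq α) x

/-- The top coefficient of a product of one-forms. -/
noncomputable def A : (Fin n → Ω) [⋀^Fin n]→ₗ[Ω] Ω :=
  ((LinearMap.proj univ ∘ₗ LinearMap.applyₗ (vac n (1 : Ω))) ∘ₗ
    (ExteriorAlgebra.lift Ω ⟨W F, W_sq F⟩).toLinearMap).compAlternatingMap
    (ExteriorAlgebra.ιMulti Ω n)

theorem prod_eq (M : Fin n → Fin n → Ω) (l : List (Fin n)) (x : Fm n Ω) :
    (l.map fun k => W F (M k)).prod x = (l.map fun k => we (M k)).prod x := by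
  induction l with
  | nil => rfl
  | cons k l ih => exact congrArg (we (M k)) ih

theorem A_eq (M : Fin n → Fin n → Ω) (g : Ω) : lam M (top n g) univ = A F M * g := by
  have h1 : A F M = ap (fun k => we (M k)) univ (vac n 1) univ := by
    change ExteriorAlgebra.lift Ω ⟨W F, W_sq F⟩ (ExteriorAlgebra.ιMulti Ω n M) (vac n 1) univ = _
    rw [ExteriorAlgebra.ιMulti_apply, map_list_prod, List.map_ofFn, List.ofFn_eq_map, ap,
      Fin.sort_univ, ← prod_eq F]
    simp only [Function.comp_def, ExteriorAlgebra.lift_ι_apply]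
  change (∑ σ, top n g σ • ap (fun k => we (M k)) σ (vac n 1)) univ = _
  rw [sum_eq_single univ (fun σ _ h => by rw [top, Pi.single_eq_of_ne h, zero_smul])
    (fun h => absurd (mem_univ _) h), h1, top, Pi.single_eq_same, mul_comm]
  rfl

end DetX

open DetX in
theorem rowDet : OfDet := by
  intro _ _ hF hL Ω n _ M g
  have F := hF Ω n
  have L := hL Ω n
  have h1 : A F (Pi.basisFun Ω (Fin n)) = 1 := by
    have h := A_eq F (fun l => Pi.single l 1) 1
    rw [L.one, mul_one] at h
    exact (congrArg (A F) (funext (Pi.basisFun_apply Ω (Fin n)))).trans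
      (h.symm.trans (Pi.single_eq_same _ _))
  have h2 : A F M = (Matrix.of M).det := by
    rw [(A F).eq_smul_basis_det (Pi.basisFun Ω (Fin n)), h1, one_smul, Pi.basisFun_det]
    rfl
  have h3 : pd n n (top n g) = top n g := by
    rw [F.pd_top]
    exact congrArg _ (Pi.single_eq_same _ _)
  rw [← h2, ← A_eq, ← F.pd_top, ← op_mul, ← (L.pd M n).eq, op_mul, h3]

end Pool.Agent.MP_ee8c61_ag.H59
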