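import Pool.Agent.MP_ee8c61_ag.H59.SpecC

/-!
Descent of vanishing along Frobenius.
-/

namespace Pool.Agent.MP_ee8c61_ag.H59

open Finset Sys

namespace DiX

theorem gr_ev {ι M : Type} [Fintype ι] [AddCommGroup M] {π : ℤ → Op M} (h : Grading π) :
    Grading fun p => (ev (π p) : Op (Ch ι M)) := by
  classical
  refine ⟨fun w w' => ?_, fun x => ?_⟩
  · change ev (π w * π w') = _
    rw [h.orth]
    split_ifs <;> rfl
  · choose s h1 h2 using fun σ => h.fin (x σ)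
    refine ⟨univ.biUnion s, fun w hw => funext fun σ => h1 σ w fun e =>
      hw (mem_biUnion.2 ⟨σ, mem_univ _, e⟩), funext fun σ => (h2 σ).trans ?_⟩
    rw [Finset.sum_apply]
    exact sum_subset (subset_biUnion_of_mem s (mem_univ σ)) fun w _ hw => h1 σ w hw

theorem sg {M : Type} [AddCommGroup M] (a b : ℕ) (v : M) :
    (-1 : ℤ) ^ a • (-1 : ℤ) ^ b • (-1 : ℤ) ^ a • (-1 : ℤ) ^ b • v = v := by
  rw [smul_smul, smul_smul, smul_smul, ← pow_add, ← pow_add, ← pow_add,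
    Even.neg_one_pow ⟨a + b, by ring⟩, one_smul]

theorem inv {Ω : Type} [CommRing Ω] (ℓ : ℕ) [Fact ℓ.Prime] [CharP Ω ℓ] {p : ℕ} (n : ℕ)
    (h : p < ℓ) : ∃ N : ℕ, ∀ v : Fm n Ω, N • p.factorial • v = v := by
  have hp : ℓ.Prime := Fact.out
  obtain ⟨N, -, e⟩ := Nat.exists_mul_mod_eq_one_of_coprime (hp.coprime_factorial_of_lt h).symm
    hp.one_lt
  refine ⟨N, fun v => ?_⟩
  rw [smul_smul, ← Nat.cast_smul_eq_nsmul Ω, CharP.cast_eq_mod Ω ℓ, mul_comm, e, Nat.cast_one,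
    one_smul]

variable {k Ω ι J : Type} {n : ℕ} [CommRing k] [CommRing Ω] [Algebra k Ω] [Fintype J]
  {S : Sys k Ω ι J n} {ℓ : ℕ} [Fact ℓ.Prime] [CharP Ω ℓ] [LinearOrder ι] [Inhabited ι]

theorem surj (F : Fo Ω n) (L : Lm S) (C : Cart S ℓ) {p : ℕ} (hp : p < ℓ) (c : J → ℤ)
    (σ : Finset ι) (e : ℤ) (u : Fm n Ω) (h1 : u ∈ S.lm {ℓ • c} σ e) (h2 : pd n p u = u)
    (h3 : S.dd u = 0) : ∃ x ∈ S.lm {c} σ e, pd n p x = x ∧ ∃ w ∈ S.lm {ℓ • c} σ (e - 1),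
      pd n (p - 1) w = w ∧ u = p.factorial • S.fr ℓ (pick σ) x + S.dd w := by
  by_cases h0 : u = 0
  · exact ⟨0, zero_mem _, map_zero _, 0, zero_mem _, map_zero _, by simp [h0]⟩
  have hσ : σ.Nonempty := nonempty_iff_ne_empty.2 fun h => h0 (by simpa [h, L.emp] using h1)
  obtain rfl : e = p := by
    by_contra h
    have := DFunLike.congr_fun (F.pd_gr.orth e p) u
    rw [if_neg h, op_mul, h2, L.pure _ _ _ _ h1] at this
    exact h0 this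
  obtain ⟨N, hN⟩ := inv (Ω := Ω) ℓ n hp
  obtain ⟨x, hx, w, hw, e⟩ := C.surj c σ _ (pick_mem hσ) _ u h1 h3
  refine ⟨N • x, nsmul_mem hx N, L.pure _ _ _ _ (nsmul_mem hx N), w, hw, L.pure _ _ _ _ hw, ?_⟩
  rw [map_nsmul, smul_comm, hN, ← e]

theorem inj (L : Lm S) (C : Cart S ℓ) {p : ℕ} (hp : p < ℓ) (c : J → ℤ) (σ : Finset ι) (e e' : ℤ)
    (x w : Fm n Ω) (h1 : x ∈ S.lm {c} σ e) (h2 : w ∈ S.lm {ℓ • c} σ e')
    (h3 : p.factorial • S.fr ℓ (pick σ) x = S.dd w) : x = 0 := by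
  rcases σ.eq_empty_or_nonempty with rfl | hσ
  · simpa [L.emp] using h1
  obtain ⟨N, hN⟩ := inv (Ω := Ω) ℓ n hp
  exact C.inj c σ _ (pick_mem hσ) _ x _ (nsmul_mem h2 N) (by rw [map_nsmul, ← h3, hN])

end DiX

open DiX in
theorem rowDi : OfDi := by
  intro hC hN hT hF hL hK h1 h2 hH hD k Ω ι J n _ _ _ _ _ _ _ S ℓ _ _ m x x0 δ hn fd lo hx c c' hc
    nv j hj
  have F := hF Ω n
  have L := hL k Ω ι J n S
  have K := hK k Ω ι J n S ℓ lo
  have P1 := h1 k Ω ι J n S ℓ δ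
  have P2 := h2 k Ω ι J n S ℓ δ fd
  have C1 := hC ι (Fm n Ω)
  have C2 := hC (Fin m) (Ch ι (Fm n Ω))
  have N2 := hN (Fin m) (Ch ι (Fm n Ω))
  have hV := hD k Ω ι J n S ℓ m x x0 hx c c' hc nv
  have ht : ∀ l ∈ (univ : Finset (Fin m)), ∀ a, x l - algebraMap k Ω (x0 l) ∈ S.A a :=
    fun l _ a => sub_mem (hx a l) (Subalgebra.algebraMap_mem _ _)
  have e : (kc 0 (fun l => (x l - algebraMap k Ω (x0 l)) ^ ℓ) univ + od (od S.dd) :
      Op (Ch (Fin m) (Ch ι (Fm n Ω)))) =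
      kc S.dd (fun l => (x l - algebraMap k Ω (x0 l)) ^ ℓ) univ := by
    rw [kc, ← C2.kos_add, cech, ← C1.kos_add, zero_add]
    rfl
  have cm : ∀ (p : ℤ) (t : Fin m → Ω), (kc 0 t univ : Op (Ch (Fin m) (Ch ι (Fm n Ω)))) *
      ev (ev (pd n p)) = ev (ev (pd n p)) * kc 0 t univ := fun p t =>
    (C2.kos_ev _ _ _ _ (C1.kos_ev _ _ _ _ (Commute.zero_right _) fun _ _ => Commute.one_right _)
      fun l _ => op_ext fun γ => funext fun σ => F.lin_pd p (t l) (γ σ)).symm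
  have kp : ∀ (C : Finset (J → ℤ)) (p : ℤ), Keeps (ev (ev (pd n p)))
      (kl (univ : Finset (Fin m)) fun _ => S.T C) (kl univ fun _ => S.T C) := fun C p =>
    N2.keeps _ _ _ _ fun _ _ j γ hγ => (S.mem_T _ _ _).2 fun σ =>
      L.pd C σ p _ _ ((S.mem_T _ _ _).1 hγ σ)
  have out : ∀ p : ℤ, p < 0 ∨ n < p →
      (ev (ev (pd n p)) : Op (Ch (Fin m) (Ch ι (Fm n Ω)))) = 0 := fun p h => by
    rw [F.pd_out p h]
    rfl
  have mem : ∀ (C : Finset (J → ℤ)) (j : ℤ) (γ : Ch (Fin m) (Ch ι (Fm n Ω))),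
      γ ∈ kl univ (fun _ => S.T C) j ↔ ∀ τ σ, γ τ σ ∈ S.lm C σ (j - τ.card - σ.card) := by
    simp only [kl_univ, mem_lat, mem_T, implies_true]
  have p1 := N2.pair _ _ _ _ _ (hH k Ω ι J n S ℓ _ _ univ ht c c' hc 0).2.1
  have p2 := N2.pair _ _ _ _ _ (L.kok0 _ _ univ {c} ∅ (fun _ h => by simp at h) ht)
  rw [L.T_none, kl_bot] at p2 ⊢
  rw [kl_bot] at p1
  refine hT _ _ _ (od (od S.dd)) _ (kl univ fun _ => S.T {ℓ • c}) _ (fun p => ev (ev (pd n p)))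
    (fun p => ev (ev (pd n p))) (fun p => up (S.Ph ℓ δ p)) n n (gr_ev (gr_ev F.pd_gr))
    (gr_ev (gr_ev F.pd_gr)) (e ▸ p1) p2 (fun p => cm p _) (fun p => ?_) (fun p => cm p _) (kp _)
    (kp _) (fun p h => out p (Or.inr h)) out (fun p _ j y hy h => ?_) (fun p _ y => ?_)
    (fun p _ y r h => funext fun τ => DFunLike.congr_fun (P1.deg p r h) (y τ))
    (fun p hp j y hy h h' => ?_) (fun p hp j y hy h w hw _ h' => ?_) (e ▸ hV) j hj
  · rw [C2.od_ev, C1.od_ev, C2.ev_od, C1.ev_od]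
    exact congrArg (fun T => od (od T)) (F.pd_dR _ p)
  · rw [kl_univ, mem_lat] at hy ⊢
    exact fun τ => P2.mem p c _ _ (hy τ) (congrFun h τ)
  · rw [e]
    exact (C2.up_kos _ _ _ _ _ _ _ (fun y => (DFunLike.congr_fun (P1.chain p) y).symm)
      (fun l _ y => DFunLike.congr_fun (P1.semi p _) y) y).symm
  · choose u h1 h2 w h3 h4 h5 using fun τ σ => surj F L K (hp.trans_lt hn) c σ _ (y τ σ)
      ((mem _ _ _).1 hy τ σ) (congrFun (congrFun h τ) σ) (by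
        have : (-1 : ℤ) ^ τ.card • (-1 : ℤ) ^ σ.card • S.dd (y τ σ) = 0 :=
          congrFun (congrFun h' τ) σ
        rw [← sg τ.card σ.card (S.dd _), this, smul_zero, smul_zero])
    have hu : ∀ τ, ev (pd n p) (u τ) = u τ := fun τ => funext (h2 τ)
    refine ⟨u, (mem _ _ _).2 h1, funext hu,
      fun τ σ => (-1 : ℤ) ^ τ.card • (-1 : ℤ) ^ σ.card • w τ σ, (mem _ _ _).2 fun τ σ =>
        zsmul_mem (zsmul_mem ?_ _) _, funext fun τ => funext fun σ => ?_,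
      funext fun τ => funext fun σ => ?_⟩
    · rw [show j - 1 - τ.card - σ.card = j - τ.card - σ.card - 1 by ring]
      exact h3 τ σ
    · rw [ev_apply, ev_apply, map_zsmul, map_zsmul, h4]
    · change _ = pd n p (S.Ph ℓ δ p (u τ) σ) + (-1 : ℤ) ^ τ.card • (-1 : ℤ) ^ σ.card • S.dd _
      rw [map_zsmul, map_zsmul, sg, P2.lead p _ (hu τ), ← h5]
  · funext τ σ
    refine inj L K (hp.trans_lt hn) c σ _ _ _ _ ((mem _ _ _).1 hy τ σ) (zsmul_mem (zsmul_mem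
      ((mem _ _ _).1 hw τ σ) ((-1) ^ σ.card)) ((-1) ^ τ.card)) ?_
    rw [map_zsmul, map_zsmul, ← P2.lead p _ (congrFun h τ)]
    exact congrFun (congrFun h' τ) σ

end Pool.Agent.MP_ee8c61_ag.H59
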