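import Pool.Agent.MP_ee8c61_ag.H59.SpecC

/-! From the Hodge pieces to the de Rham complex. -/

namespace Pool.Agent.MP_ee8c61_ag.H59

open Finset Sys

namespace Di1X

variable {Ω ι κ : Type} {n : ℕ} [CommRing Ω]

theorem pd_sum (y : Fm n Ω) : y = ∑ w ∈ Icc (-(n : ℤ)) 0, pd n (-w) y := by
  funext σ
  have h1 : σ.card ≤ n := by simpa using σ.card_le_univ
  rw [Finset.sum_apply, sum_eq_single (-(σ.card : ℤ))]
  · simp [pd]
  · intro w _ hw
    have : ¬ (σ.card : ℤ) = -w := fun h => hw (by omega)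
    simp [pd, this]
  · intro h
    exact absurd (mem_Icc.2 ⟨by omega, by omega⟩) h

theorem gr (hF : Fo Ω n) :
    Grading fun w : ℤ => (ev (ev (pd n (-w))) : Op (Ch κ (Ch ι (Fm n Ω)))) := by
  refine ⟨fun w w' => ?_, fun x => ⟨Icc (-(n : ℤ)) 0, fun w hw => ?_, ?_⟩⟩
  · show ev (ev (pd n (-w) * pd n (-w'))) = _
    rw [hF.pd_gr.orth]
    by_cases h : w = w'
    · rw [if_pos h, if_pos (congrArg Neg.neg h)]
    · rw [if_neg h, if_neg fun h' => h (neg_injective h')]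
      rfl
  · rw [hF.pd_out (-w) (by rw [mem_Icc] at hw; omega)]
    rfl
  · funext τ σ
    rw [Finset.sum_apply, Finset.sum_apply]
    exact pd_sum _

end Di1X

open Di1X in
theorem rowDi1 : OfDi1 := by
  intro hC hX hW hCo hK hF hL hH k Ω ι J n _ _ _ _ _ _ _ S ℓ _ _ m x x0 hx c c' hc hN j hj
  have L := hL k Ω ι J n S
  have F := hF Ω n
  have Co := hCo (Fin m) (Ch ι (Fm n Ω))
  obtain ⟨t, ht⟩ : ∃ t : Fin m → Ω, t = fun l => x l - algebraMap k Ω (x0 l) := ⟨_, rfl⟩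
  have htA : ∀ l a, t l ∈ S.A a := fun l a => by
    rw [ht]
    exact sub_mem (hx a l) ((S.A a).algebraMap_mem _)
  have hN' : ∀ j < (n : ℤ) + 1, Van (kos (cech 0) (fun l => mu (Ch ι (Fm n Ω)) (t l)) univ)
      (kl univ fun _ => S.T {c'}) (kl univ fun _ => ⊥) j := fun j hj => by
    have := hN j (by omega)
    rw [L.T_none] at this
    rw [ht]
    exact this
  have hB : ∀ g, g ∈ (⨅ a, (S.A a).toSubring) ↔ ∀ a, g ∈ S.A a := fun g => Subring.mem_iInf
  have h1 := hK Ω (Ch ι (Fm n Ω)) (Fin m) (Fin m) (⨅ a, (S.A a).toSubring) (cech 0) (S.T {c'}) ⊥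
    (fun l => t l ^ ℓ) t univ univ (n + 1)
    (L.T_none ▸ L.pair 0 {c'} ∅ (mul_zero _) (fun _ h => absurd h (notMem_empty _))
      fun _ _ _ _ _ => zero_mem _) L.lin0
    (fun b hb => L.mu_T _ b ((hB b).1 hb))
    (fun b _ j y hy => by rw [mem_lat_bot] at hy ⊢; rw [hy, map_zero])
    (fun l _ => (hB _).2 fun a => pow_mem (htA l a) _) (fun l _ => (hB _).2 (htA l))
    (fun i _ => ⟨ℓ, Pi.single i 1, fun l => by
      rw [Pi.single_apply]
      split_ifs
      exacts [one_mem _, zero_mem _], by simp [Pi.single_apply]⟩) hN' j (by omega)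
  obtain ⟨k1, k2, -⟩ := hH k Ω ι J n S ℓ (Fin m) t univ (fun l _ => htA l) c c' hc j
  have h3 := (hH k Ω ι J n S ℓ (Fin m) t univ (fun l _ => htA l) c c' hc (j - 1)).2.2
  have p1 := Co.pair _ _ _ _ _ k1
  have p2 := Co.pair _ _ _ _ _ k2
  have e1 : kos (cech 0) (fun l => mu (Ch ι (Fm n Ω)) (t l ^ ℓ)) univ + od (od S.dd)
      = kos (cech S.dd) (fun l => mu (Ch ι (Fm n Ω)) (t l ^ ℓ)) univ := by
    rw [← (hC _ _).kos_add, cech, ← (hC _ _).kos_add, zero_add, cech]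
  have h2 := (hW _).van (fun w => ev (ev (pd n (-w)))) _ (od (od S.dd)) _ _ j (-(n : ℤ))
    ⟨gr F, e1 ▸ ⟨p1.dd, fun j => (p2.le j).trans (p1.le j), p1.st, p2.st'⟩, fun w => ?_,
      fun w => ?_, fun w => ?_, fun w => ?_⟩ (fun y _ w hw => by
        rw [F.pd_out (-w) (by omega)]
        exact zero_mem _) h1
  · rw [e1] at h2
    have h4 := (hX _).left _ _ _ _ j p1 p2 h2 h3
    rw [kl_bot, ht] at h4
    exact h4
  · refine ((hC _ _).kos_ev _ _ _ _ ((hC _ _).kos_ev _ _ _ _ (Commute.zero_right _)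
      fun _ _ => Commute.one_right _) fun l _ => ?_).eq.symm
    refine op_ext fun γ => funext fun σ => ?_
    exact F.lin_pd _ _ _
  · rw [(hC _ _).od_ev, (hC _ _).od_ev, (hC _ _).ev_od, (hC _ _).ev_od, Sys.dd, F.pd_dR,
      show -(w + 1) + 1 = -w by ring]
  · exact Co.keeps _ _ _ _ fun _ _ j γ h =>
      (S.mem_T _ _ _).2 fun σ => L.pd _ σ _ _ _ ((S.mem_T _ _ _).1 h σ)
  · exact Co.keeps _ _ _ _ fun _ _ j γ h => by
      rw [mem_lat_bot] at h ⊢
      rw [h, map_zero]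

end Pool.Agent.MP_ee8c61_ag.H59
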