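import Pool.Agent.MP_ee8c61_ag.H59.SpecA

/-!
Division by `X o - c`.
-/

namespace Pool.Agent.MP_ee8c61_ag.H59

open Finset MvPolynomial

namespace DivX

variable {Ω κ : Type} [CommRing Ω] (o : κ) (a : Ω)

/-- The quotient of the division by `X o - a`. -/
noncomputable def dl : MvPolynomial κ Ω →ₗ[Ω] MvPolynomial κ Ω :=
  (basisMonomials κ Ω).constr Ω fun e =>
    ∑ i ∈ range (e o), monomial (e - Finsupp.single o (i + 1)) (a ^ i)

theorem dl_mon (e : κ →₀ ℕ) (g : Ω) : dl o a (monomial e g)
    = ∑ i ∈ range (e o), monomial (e - Finsupp.single o (i + 1)) (g * a ^ i) := by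
  have h : monomial e g = g • basisMonomials κ Ω e := by simp [smul_monomial]
  rw [h, map_smul, dl, Module.Basis.constr_basis, smul_sum]
  simp only [smul_monomial, smul_eq_mul]

theorem X_mon (o : κ) (e : κ →₀ ℕ) (g : Ω) :
    X o * monomial e g = monomial (Finsupp.single o 1 + e) g := by
  rw [X, monomial_mul, one_mul]

theorem dl_div (P : MvPolynomial κ Ω) : dl o a ((X o - C a) * P) = P := by
  induction P using MvPolynomial.induction_on' with
  | add p q hp hq => rw [mul_add, map_add, hp, hq]
  | monomial e g =>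
    rw [sub_mul, X_mon, C_mul_monomial, map_sub, dl_mon, dl_mon, Finsupp.add_apply,
      Finsupp.single_eq_same, add_comm 1, sum_range_succ', sub_eq_iff_eq_add, add_comm]
    congr 1
    · simp
    · refine sum_congr rfl fun i _ => ?_
      rw [add_comm (i + 1) 1, Finsupp.single_add, add_tsub_add_eq_tsub_left]
      congr 1
      ring

theorem dl_X {o' : κ} (h : o' ≠ o) (P : MvPolynomial κ Ω) : dl o a (X o' * P) = X o' * dl o a P := by
  induction P using MvPolynomial.induction_on' with
  | add p q hp hq => rw [mul_add, map_add, hp, hq, map_add, mul_add]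
  | monomial e g =>
    rw [X_mon, dl_mon, dl_mon, Finsupp.add_apply, Finsupp.single_eq_of_ne h.symm, zero_add, mul_sum]
    refine sum_congr rfl fun i hi => ?_
    rw [X_mon, add_tsub_assoc_of_le]
    exact Finsupp.single_le_iff.2 (mem_range.1 hi)

end DivX

open DivX in
theorem rowDiv : SDiv := by
  classical
  intro Ω κ _ _ o c
  refine ⟨(dl o (algebraMap ℂ Ω c)).toAddMonoidHom, dl_div o _, fun o' h => dl_X o _ h,
    fun g P => ?_, fun N hN P hP e => ?_⟩
  · rw [← smul_eq_C_mul, ← smul_eq_C_mul]
    exact map_smul (dl o _) g P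
  · change coeff e (dl o _ P) ∈ N
    rw [P.as_sum, map_sum, coeff_sum]
    refine sum_mem fun e' _ => ?_
    rw [dl_mon, coeff_sum]
    refine sum_mem fun i _ => ?_
    rw [coeff_monomial, mul_comm, ← map_pow, ← Algebra.smul_def]
    split_ifs
    · exact hN _ _ (hP _)
    · exact zero_mem _

end Pool.Agent.MP_ee8c61_ag.H59
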