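import Pool.Agent.MP_ee8c61_ag.H59.SpecC

/-! Derivations on an unramified algebra are determined by their values on the coordinates. -/

namespace Pool.Agent.MP_ee8c61_ag.H59

open Finset TrivSqZeroExt

namespace DuX

variable {k A K : Type} [CommRing k] [CommRing A] [CommRing K] [Algebra k A] [Algebra k K]

/-- the lift to the dual numbers attached to a derivation -/
def lf (φ : A →ₐ[k] K) (E : A →ₗ[k] K) (h : ∀ g g', E (g * g') = φ g * E g' + φ g' * E g) :
    A →ₐ[k] TrivSqZeroExt K K :=
  have h1 : E 1 = 0 := by simpa using h 1 1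
  { toFun := fun g => inl (φ g) + inr (E g)
    map_one' := by ext <;> simp [h1]
    map_mul' := fun g g' => by ext <;> simp [h, mul_comm]
    map_zero' := by simp
    map_add' := fun g g' => by ext <;> simp
    commutes' := fun c => by
      rw [Algebra.algebraMap_eq_smul_one c, map_smul E, h1, map_smul φ,
        Algebra.algebraMap_eq_smul_one c]
      ext <;> simp }

theorem van {σ : Type} (z : σ → A)
    (hz : (MvPolynomial.aeval z : MvPolynomial σ k →ₐ[k] A).toRingHom.FormallyUnramified)
    (φ : A →ₐ[k] K) (E : A →ₗ[k] K) (h : ∀ g g', E (g * g') = φ g * E g' + φ g' * E g)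
    (h0 : ∀ i, E (z i) = 0) (g : A) : E g = 0 := by
  have h' : ∀ g g', (0 : A →ₗ[k] K) (g * g') = φ g * (0 : A →ₗ[k] K) g' +
      φ g' * (0 : A →ₗ[k] K) g := by simp
  have e : (lf φ E h).comp (MvPolynomial.aeval z) = (lf φ 0 h').comp (MvPolynomial.aeval z) :=
    MvPolynomial.algHom_ext fun i => by simp [lf, h0]
  let _ := (MvPolynomial.aeval z : MvPolynomial σ k →ₐ[k] A).toRingHom.toAlgebra
  let _ := ((lf φ 0 h').comp (MvPolynomial.aeval z)).toRingHom.toAlgebra
  have : Algebra.FormallyUnramified (MvPolynomial σ k) A := hz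
  have key := Algebra.FormallyUnramified.ext (R := MvPolynomial σ k) (A := A) (kerIdeal K K)
    ⟨2, kerIdeal_sq K K⟩ (g₁ := ⟨(lf φ E h).toRingHom, AlgHom.congr_fun e⟩)
    (g₂ := ⟨(lf φ 0 h').toRingHom, fun _ => rfl⟩)
    fun x => Ideal.Quotient.eq.2 (by simp [kerIdeal, RingHom.mem_ker, lf])
  simpa [lf] using congrArg snd (AlgHom.congr_fun key g)

end DuX

theorem rowDu : SDu := by
  intro k Ω ι J n _ _ _ _ S c hc K _ _ φ D hD g
  let d : Fin n → S.A c →ₗ[k] S.A c := fun i =>
    (S.D c i : Ω →ₗ[k] Ω).restrict (p := (S.A c).toSubmodule) (q := (S.A c).toSubmodule)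
      (S.D_mem c i)
  have hd : ∀ i g g', d i (g * g') = g * d i g' + g' * d i g := fun i g g' =>
    Subtype.ext ((S.D c i).leibniz g g')
  have hz : ∀ i j, d i ⟨S.z c j, S.z_mem c j⟩ = if i = j then 1 else 0 := fun i j =>
    Subtype.ext ((S.D_z c i j).trans (by split_ifs <;> rfl))
  have := DuX.van _ hc.formallyUnramified φ
    (D - ∑ i, D ⟨S.z c i, S.z_mem c i⟩ • φ.toLinearMap ∘ₗ d i) (fun g g' => by
      simp only [LinearMap.sub_apply, LinearMap.sum_apply, LinearMap.smul_apply,
        LinearMap.comp_apply, AlgHom.toLinearMap_apply, hd, hD, map_add, map_mul, smul_eq_mul,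
        mul_sub, mul_add, mul_sum, sum_add_distrib, mul_left_comm]
      ring) (fun j => by simp [hz, apply_ite φ]) g
  rw [LinearMap.sub_apply, LinearMap.sum_apply, sub_eq_zero] at this
  exact this

end Pool.Agent.MP_ee8c61_ag.H59
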