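import Pool.Agent.MP_ee8c61_ag.H59.SpecB

/-! The last step of the induction over linear sections: the section is finite. -/

namespace Pool.Agent.MP_ee8c61_ag.H59

open Finset Sys Polynomial

namespace EFinX

variable {k Ω K : Type} [Field k] [CommRing Ω] [Algebra k Ω] [Field K] [Algebra k K]
  {A : Subalgebra k Ω} (ψ : A →ₐ[k] K)

theorem quo {u v : A} {y : Ω} (e : (u : Ω) * y = v) (hu : ψ u ≠ 0) {g : k[X]} (hg : g.Monic)
    {h : (u : Ω) ^ g.natDegree * aeval y g ∈ A} (h0 : ψ ⟨_, h⟩ = 0) : IsIntegral k (ψ v / ψ u) := by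
  have : Nontrivial A := (ψ : A →+* K).domain_nontrivial
  have hd := hg.natDegree_map (algebraMap k A)
  have e1 := scaleRoots_eval₂_mul (p := g.map (algebraMap k A)) A.val.toRingHom y u
  have e2 := scaleRoots_eval₂_mul (p := g.map (algebraMap k A)) ψ.toRingHom (ψ v / ψ u) u
  simp only [AlgHom.toRingHom_eq_coe, RingHom.coe_coe, Subalgebra.coe_val, hd, eval₂_map,
    AlgHom.comp_algebraMap, e, mul_div_cancel₀ _ hu] at e1 e2
  have e3 : (⟨_, h⟩ : A) = ((g.map (algebraMap k A)).scaleRoots u).eval v :=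
    Subtype.ext (e1.symm.trans (eval₂_at_apply (A.val : A →+* Ω) v))
  refine ⟨g, hg, (mul_eq_zero.1 (e2.symm.trans ?_)).resolve_left (pow_ne_zero _ hu)⟩
  exact (eval₂_at_apply (ψ : A →+* K) v).trans (e3 ▸ h0)

theorem tr {s : Set Ω} (hs : ∀ y ∈ s, ∃ h : y ∈ A, IsIntegral k (ψ ⟨y, h⟩)) {z : A}
    (hz : IsIntegral (Algebra.adjoin k s) (z : Ω)) : IsIntegral k (ψ z) := by
  have h1 : Algebra.adjoin k s ≤ ((integralClosure k K).comap ψ).map A.val :=
    Algebra.adjoin_le fun y hy => ⟨⟨y, (hs y hy).1⟩, (hs y hy).2, rfl⟩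
  have h2 : Algebra.adjoin k s ≤ A := Algebra.adjoin_le fun y hy => (hs y hy).1
  let θ : Algebra.adjoin k s →ₐ[k] integralClosure k K :=
    (ψ.comp (Subalgebra.inclusion h2)).codRestrict _ fun y => by
      obtain ⟨y', h3, h4⟩ := h1 y.2
      obtain rfl : y' = Subalgebra.inclusion h2 y := Subtype.ext h4
      exact h3
  obtain ⟨p, hp, e⟩ := hz
  have h3 : eval₂ (Subalgebra.inclusion h2 : _ →+* A) z p = 0 :=
    Subtype.ext ((hom_eval₂ p _ (A.val : A →+* Ω) z).trans e)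
  refine isIntegral_trans (A := integralClosure k K) _ ⟨p.map θ, hp.map _, ?_⟩
  rw [eval₂_map]
  exact (hom_eval₂ p _ (ψ : A →+* K) z).symm.trans (h3 ▸ map_zero _)

end EFinX

open EFinX in
theorem rowEFin : OfEFin := by
  intro hM k Ω ι J κ n m _ _ _ _ _ S x x0 w ρ t dg s b hF hP hH hX hS a i
  classical
  have := isNoetherianRing_of_fg (hF a)
  let z : S.A a := ⟨S.z a i, S.z_mem a i⟩
  let t' : s → S.A a := fun l => ⟨_, hH l l.2 a⟩
  obtain ⟨_, ⟨g, hg, rfl⟩, hu⟩ := hM (S.A a) (Ideal.span (Set.range t'))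
    { carrier := {u | ∃ g : k[X], g.Monic ∧ aeval z g = u}
      mul_mem' := fun ⟨g, hg, e⟩ ⟨g', hg', e'⟩ => ⟨g * g', hg.mul hg', by rw [map_mul, e, e']⟩
      one_mem' := ⟨1, monic_one, map_one _⟩ } fun q hq hI => by
    let ψ := IsScalarTower.toAlgHom k (S.A a) q.ResidueField
    have hψ : ∀ y, ψ y = 0 ↔ y ∈ q := fun y => Ideal.algebraMap_residueField_eq_zero
    have h1 : ∀ l ∈ s, S.InQ q (t l * (((ρ a)⁻¹ ^ dg l : Ωˣ) : Ω)) := fun l hl =>
      ⟨hH l hl a, hI (Ideal.subset_span ⟨⟨l, hl⟩, rfl⟩)⟩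
    let r : ι → S.A a := fun c => ⟨_, hP.mem c a⟩
    have h2 : ∀ c, ∃ y, IsIntegral k y ∧ ψ (r c) = y * ψ (r b) := fun c => by
      by_cases e : c = b
      · exact ⟨1, isIntegral_one, by rw [e, one_mul]⟩
      rcases hS a q hq h1 c (notMem_singleton.2 e) with h | ⟨h, g, hg, h3, h4⟩
      · exact ⟨0, isIntegral_zero, by rw [zero_mul]; exact (hψ _).2 h.2⟩
      · have h5 : ψ (r b) ≠ 0 := fun h5 => h ⟨_, (hψ _).1 h5⟩
        refine ⟨_, quo ψ (u := r b) (v := r c) (y := ((ρ c / ρ b : Ωˣ) : Ω)) ?_ h5 hg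
          (h := h3) ((hψ _).2 h4), (div_mul_cancel₀ _ h5).symm⟩
        exact (Units.val_mul _ _).symm.trans
          (congrArg Units.val (div_mul_div_cancel' (ρ b) (ρ a) (ρ c)))
    have h3 : IsIntegral k (ψ (r b)) := by
      obtain ⟨y, h4, h5⟩ := h2 a
      rw [show r a = 1 from Subtype.ext (by simp [r]), map_one] at h5
      exact eq_inv_of_mul_eq_one_right h5.symm ▸ h4.inv
    obtain ⟨g, hg, e⟩ := tr ψ (z := z) (by
      rintro _ (⟨l, rfl⟩ | ⟨c, rfl⟩)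
      · obtain ⟨j, hj, e1, e2⟩ := hX l
        obtain ⟨h4, h5⟩ := h1 j hj
        refine ⟨hP.x_mem a l, ?_⟩
        rw [show (⟨x l, hP.x_mem a l⟩ : S.A a) = ⟨_, h4⟩ + algebraMap k _ (x0 l) from
          Subtype.ext (by simp [e1, e2]), map_add, (hψ _).2 h5, zero_add, ψ.commutes]
        exact isIntegral_algebraMap
      · obtain ⟨y, h4, h5⟩ := h2 c
        exact ⟨hP.mem c a, h5 ▸ h4.mul h3⟩) (hP.int a _ z.2)
    exact ⟨_, ⟨g, hg, rfl⟩, (hψ _).1 ((aeval_algHom_apply ψ z g).symm.trans e)⟩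
  obtain ⟨c, hc⟩ := Ideal.mem_span_range_iff_exists_fun.1 hu
  refine ⟨g, fun l => if h : l ∈ s then c ⟨l, h⟩ else 0, hg, fun l => ?_, ?_⟩
  · dsimp only
    split_ifs
    · exact (c _).2
    · exact zero_mem _
  · rw [← sum_coe_sort s]
    refine (aeval_algHom_apply (S.A a).val z g).trans ?_
    simp [← hc, t']

end Pool.Agent.MP_ee8c61_ag.H59
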