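import Pool.Agent.MP_ee8c61_ag.H59.SpecB

/-! Vanishing for a Koszul complex whose zero set is finite on every chart. -/

namespace Pool.Agent.MP_ee8c61_ag.H59

open Finset Sys

namespace ELocX

variable {G κ : Type} [AddCommGroup G] [LinearOrder κ]

theorem van_equiv {φ ψ D D' : Op G} {L M : Lat G} {j : ℤ} (h1 : ψ * φ = 1) (h2 : φ * ψ = 1)
    (h3 : ∀ x, φ (D x) = D' (φ x)) (h4 : ∀ i x, x ∈ L i ↔ φ x ∈ M i) (h : Van D' M ⊥ j) :
    Van D L ⊥ j := fun x hx hd => by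
  have e1 : ∀ y, ψ (φ y) = y := fun y => DFunLike.congr_fun h1 y
  have e2 : ∀ y, φ (ψ y) = y := fun y => DFunLike.congr_fun h2 y
  rw [mem_lat_bot] at hd
  obtain ⟨y, hy, e⟩ := h (φ x) ((h4 _ _).1 hx) (by rw [mem_lat_bot, ← h3, hd, map_zero])
  refine ⟨ψ y, (h4 _ _).2 (by rwa [e2]), ?_⟩
  rw [mem_lat_bot] at e ⊢
  rw [← e1 (x - _), map_sub, h3, e2, e, map_zero]

theorem kok0 {t : κ → Op G} {s : Finset κ} {F : Finset κ → Lat G}
    (h1 : ∀ i ∈ s, ∀ i' ∈ s, Commute (t i) (t i'))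
    (h2 : ∀ i ∈ s, ∀ σ, i ∉ σ → Keeps (t i) (F σ) (F (insert i σ))) :
    KOK 0 t s F fun _ => ⊥ :=
  ⟨fun _ => ⟨mul_zero _, fun _ => bot_le, fun _ _ _ => zero_mem _, fun _ _ _ => zero_mem _⟩,
    fun _ _ => Commute.zero_right _, h1, h2, fun i _ _ _ j x hx => by
      rw [(mem_lat_bot j x).1 hx, map_zero]; exact zero_mem _⟩

theorem kos_zero (s : Finset κ) : kos (0 : Op G) (fun _ => 0) s = 0 := by
  have h : (od 0 : Op (Ch κ G)) = 0 := op_ext fun γ => funext fun σ => by simp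
  have h' : (ev 0 : Op (Ch κ G)) = 0 := rfl
  simp only [kos, h, h', mul_zero, sum_const_zero, add_zero]

end ELocX

open ELocX

theorem rowELoc : OfELoc := by
  intro hC _ _ hS _ hLa hFr hLo hLm hD k Ω ι J n _ _ _ _ S _ _ m x w ρ κ _ t dg s hR hP hH hg c j hj
  have Fr := hFr k Ω ι J n S
  have Lo := hLo k Ω ι J n S
  have Lm := hLm k Ω ι J n S
  have := hS κ ι (Fm n Ω) 0 (fun l => mu _ (t l)) (fun _ => 1) s univ
    (fun τ => S.lm {c - (∑ i ∈ τ, (dg i : ℤ)) • w}) (fun _ _ => ⊥) j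
    (fun τ => kok0 (fun _ _ _ _ => Commute.refl _) fun i _ σ _ j y hy =>
      Lm.mono _ _ _ (subset_insert i σ) j hy)
    (fun σ => kok0 (fun _ _ _ _ => mu_comm _ _) fun i hi τ hτ => ?_)
    (fun _ _ _ _ => Commute.one_right _) fun σ _ => ?_
  · simp only [kl_bot, kl_univ] at this
    exact this
  · rcases σ.eq_empty_or_nonempty with rfl | ⟨a, ha⟩
    · intro j y hy
      rw [Lm.emp, mem_lat_bot] at hy
      rw [hy, map_zero]
      exact zero_mem _
    rw [sum_insert hτ, show c - ((dg i : ℤ) + ∑ i ∈ τ, (dg i : ℤ)) • w =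
      c - (∑ i ∈ τ, (dg i : ℤ)) • w + (-(dg i : ℤ)) • w by rw [add_smul, neg_smul]; abel]
    refine Lm.shift σ a ha _ _ _ (Lo.le σ a ha ?_)
    rw [Fr.mon_zsmul, zpow_neg, inv_inv, ← Fr.mon_zsmul, ← Lo.pol m x w ρ hP, zpow_natCast]
    exact hH i hi a
  rw [kl_bot]
  rcases σ.eq_empty_or_nonempty with rfl | ⟨a, ha⟩
  · intro y hy _
    simp only [Lm.emp, kl_bot] at hy
    exact ⟨0, zero_mem _, by rwa [map_zero, sub_zero]⟩
  have lin : Lin Ω (S.crd a) := (hLa Ω n).lin _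
  have lin' : Lin Ω (S.frm a) := (hLa Ω n).lin _
  have N : ∀ (d : ℕ) g, g ∈ S.NN a σ {c - (d : ℤ) • w} ↔
      (((ρ a)⁻¹ ^ d : Ωˣ) : Ω) * g ∈ S.NN a σ {c} := fun d g => by
    have e : S.mon a (c - (d : ℤ) • w) = S.mon a c * (S.mon a w)⁻¹ ^ d := by
      rw [sub_eq_add_neg, ← neg_smul, Fr.mon_add, Fr.mon_zsmul, zpow_neg, zpow_natCast, inv_pow]
    rw [Lo.mem_one, Lo.mem_one, e]
    refine ⟨fun h => ?_, fun h => ?_⟩
    · convert mul_mem h (pow_mem (Lo.le σ a ha (hP.ord a).2) d) using 1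
      rw [mul_right_comm, mul_comm _ g, mul_assoc, ← Units.val_pow_eq_pow_val, ← Units.val_mul,
        ← Units.val_mul]
      congr 2
      simp only [mul_inv, mul_pow, inv_pow, inv_inv]
      rw [mul_comm (ρ a ^ d)⁻¹, mul_comm (ρ a ^ d)⁻¹, mul_assoc, mul_inv_cancel_left]
    · convert mul_mem h (pow_mem (Lo.le σ a ha (hP.ord a).1) d) using 1
      rw [mul_right_comm _ g, mul_comm _ g, mul_assoc, ← Units.val_pow_eq_pow_val, ← Units.val_mul,
        ← Units.val_mul]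
      congr 2
      simp only [mul_inv, mul_pow, inv_pow, inv_inv]
      rw [mul_comm (ρ a ^ d)⁻¹, mul_assoc, inv_mul_cancel_left]
  refine van_equiv (φ := evs fun τ => mu _ (((ρ a)⁻¹ ^ (∑ i ∈ τ, dg i) : Ωˣ) : Ω) * S.crd a)
    (ψ := evs fun τ => S.frm a * mu _ ((ρ a ^ (∑ i ∈ τ, dg i) : Ωˣ) : Ω))
    (D' := kos 0 (fun l => mu _ (t l * (((ρ a)⁻¹ ^ dg l : Ωˣ) : Ω))) s)
    (M := kl s fun _ => fl n (S.NN a σ {c})) (op_ext fun γ => funext fun τ => ?_)
    (op_ext fun γ => funext fun τ => ?_) (fun γ => funext fun τ => ?_) (fun i γ => ?_) ?_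
  · simp only [op_mul, evs_apply, mu_apply, smul_smul, ← Units.val_mul, ← mul_pow, mul_inv_cancel,
      one_pow, Units.val_one, one_smul, op_one]
    exact DFunLike.congr_fun (Fr.frm_crd a) _
  · have e : ∀ y, S.crd a (S.frm a y) = y := fun y => DFunLike.congr_fun (Fr.crd_frm a) y
    simp only [op_mul, evs_apply, mu_apply, e, smul_smul, ← Units.val_mul, ← mul_pow, inv_mul_cancel,
      one_pow, Units.val_one, one_smul, op_one]
  · simp only [(hC κ (Fm n Ω)).kos_apply, op_mul, evs_apply, mu_apply, op_zero, smul_zero, zero_add,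
      map_sum, map_zsmul, lin _, smul_smul]
    refine sum_congr rfl fun i hi => ?_
    rw [← add_sum_erase _ _ (mem_inter.1 hi).2, pow_add, Units.val_mul, mul_comm _ (t i), mul_assoc]
  · simp only [mem_kl, op_mul, evs_apply, mu_apply]
    refine forall_congr' fun τ => and_congr (imp_congr_right fun _ => ?_) (imp_congr_right fun _ => ?_)
    · rw [Lm.mem _ σ a ha, fl, fl, mem_lat, mem_lat]
      refine forall_congr' fun τ' => ?_
      rw [mem_deg0, mem_deg0, ← Nat.cast_sum, N, Pi.smul_apply, smul_eq_mul, Units.mul_right_eq_zero]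
    · refine ⟨fun h => by rw [h, map_zero, smul_zero], fun h => ?_⟩
      rw [← op_one (γ τ), ← Fr.frm_crd a, op_mul, (Units.isUnit _).smul_eq_zero.1 h, map_zero]
  have hm : ∀ l ∈ s, t l * (((ρ a)⁻¹ ^ dg l : Ωˣ) : Ω) ∈ S.AA σ := fun l hl =>
    Lo.le σ a ha (hH l hl a)
  have := hS κ (Fin n) Ω 0 (fun l => mu _ (t l * (((ρ a)⁻¹ ^ dg l : Ωˣ) : Ω))) (fun _ => 0) s univ
    (fun _ _ => deg0 (S.NN a σ {c})) (fun _ _ => ⊥) (j - σ.card)
    (fun _ => kok0 (fun _ _ _ _ => Commute.refl _) fun _ _ _ _ _ _ _ => zero_mem _)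
    (fun _ => kok0 (fun _ _ _ _ => mu_comm _ _) fun i hi _ _ j y hy => ?_)
    (fun _ _ _ _ => Commute.zero_right _) fun τ _ => ?_
  · simp only [kl_bot, kl_univ, kos_zero] at this
    exact this
  · rw [mem_deg0] at hy ⊢
    exact ⟨Lo.mul a σ _ _ (hm i hi) y hy.1, fun h => by rw [hy.2 h, map_zero]⟩
  · rw [kl_bot]
    refine hD k Ω ι J n S hR σ a ha κ _ s hm (fun i => ?_) c _ ?_
    · obtain ⟨g, b, h1, h2, h3⟩ := hg a i
      exact ⟨g, b, h1, fun l => Lo.le σ a ha (h2 l), h3⟩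
    · have := card_pos.2 ⟨a, ha⟩
      omega

end Pool.Agent.MP_ee8c61_ag.H59
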