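import Pool.Agent.MP_ee8c61_ag.H59.SpecB

/-! Vanishing for very negative twists. -/

set_option autoImplicit false

namespace Pool.Agent.MP_ee8c61_ag.H59

open Finset Sys Function

namespace EszX

theorem kl_congr {κ M : Type} [LinearOrder κ] [AddCommGroup M] {s : Finset κ}
    {F G : Finset κ → Lat M} (h : ∀ σ ⊆ s, F σ = G σ) : kl s F = kl s G := by
  unfold kl
  congr 1
  funext σ
  split_ifs with h1
  · exact h σ h1
  · rfl

theorem homog {k Ω : Type} [CommRing k] [CommRing Ω] [Algebra k Ω] (A : Subalgebra k Ω)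
    {U V Z : Ωˣ} (e : U = V * Z) (hU : (U : Ω) ∈ A) (hV : (V : Ω) ∈ A) {g : Polynomial k}
    (hg : g.Monic) : ∃ h ∈ A, ((V ^ g.natDegree : Ωˣ) : Ω) * Polynomial.aeval (Z : Ω) g =
      (U : Ω) ^ g.natDegree + V * h := by
  refine ⟨∑ i ∈ range g.natDegree, algebraMap k Ω (g.coeff i) * U ^ i * V ^ (g.natDegree - 1 - i),
    sum_mem fun i _ => mul_mem (mul_mem (A.algebraMap_mem _) (pow_mem hU _)) (pow_mem hV _), ?_⟩
  rw [congrArg (Polynomial.aeval (Z : Ω)) hg.as_sum]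
  simp only [map_add, map_sum, map_mul, map_pow, Polynomial.aeval_X, Polynomial.aeval_C, mul_add,
    mul_sum, e, Units.val_mul, Units.val_pow_eq_pow_val, mul_pow]
  congr 1
  refine sum_congr rfl fun i hi => ?_
  obtain ⟨p, hp⟩ := Nat.exists_eq_add_of_lt (mem_range.1 hi)
  rw [hp, show i + p + 1 - 1 - i = p by omega]
  ring

variable {k Ω ι J : Type} {n m : ℕ} [Field k] [CommRing Ω] [Algebra k Ω] [Fintype J] [Fintype ι]
  [LinearOrder ι] {S : Sys k Ω ι J n} {x : Fin m → Ω} {x0 : Fin m → k} {w : J → ℤ} {ρ : ι → Ωˣ}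
  {t : ℕ → Ω} {dg : ℕ → ℕ} {s : Finset ℕ} {i : ℕ}

omit [Fintype J] [Fintype ι] [LinearOrder ι] in
theorem hg_ins (h : S.Hg ρ t dg s) (hi : i ∉ s) {g : Ω} {e : ℕ}
    (hg : ∀ a, g * (((ρ a)⁻¹ ^ e : Ωˣ) : Ω) ∈ S.A a) :
    S.Hg ρ (update t i g) (update dg i e) (insert i s) := fun l hl a => by
  rcases mem_insert.1 hl with rfl | hl
  · simpa only [update_self] using hg a
  · rw [update_of_ne (ne_of_mem_of_not_mem hl hi), update_of_ne (ne_of_mem_of_not_mem hl hi)]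
    exact h l hl a

theorem hx_ins (h : HasX x x0 t dg s) (hi : i ∉ s) (g : Ω) (e : ℕ) :
    HasX x x0 (update t i g) (update dg i e) (insert i s) := fun l => by
  obtain ⟨l', h1, h2⟩ := h l
  refine ⟨l', mem_insert_of_mem h1, ?_⟩
  rwa [update_of_ne (ne_of_mem_of_not_mem h1 hi), update_of_ne (ne_of_mem_of_not_mem h1 hi)]

omit [Fintype J] [Fintype ι] [LinearOrder ι] in
theorem inq_ins (hi : i ∉ s) {g : Ω} {e : ℕ} {a : ι} {q : Ideal (S.A a)}
    (h : ∀ l ∈ insert i s, S.InQ q (update t i g l * (((ρ a)⁻¹ ^ update dg i e l : Ωˣ) : Ω))) :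
    S.InQ q (g * (((ρ a)⁻¹ ^ e : Ωˣ) : Ω)) ∧
      ∀ l ∈ s, S.InQ q (t l * (((ρ a)⁻¹ ^ dg l : Ωˣ) : Ω)) := by
  refine ⟨by simpa only [update_self] using h i (mem_insert_self _ _), fun l hl => ?_⟩
  have := h l (mem_insert_of_mem hl)
  rwa [update_of_ne (ne_of_mem_of_not_mem hl hi), update_of_ne (ne_of_mem_of_not_mem hl hi)] at this

omit [Fintype J] [Fintype ι] in
theorem st_one {W : Finset ι} {b : ι} (h : S.St ρ t dg s W b) (hi : i ∉ s) (r : ι) :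
    S.St ρ (update t i (ρ b)) (update dg i 1) (insert i s) (W.erase b) r := fun a q hq h1 c hc => by
  obtain ⟨h2, h3⟩ := inq_ins hi h1
  rw [pow_one, ← Units.val_mul, ← div_eq_mul_inv] at h2
  by_cases h4 : c = b
  · exact Or.inl (h4 ▸ h2)
  · exact Or.inl ((h a q hq h3 c (by simpa [h4] using hc)).resolve_right fun h5 => h5.1 h2)

omit [Fintype ι] [LinearOrder ι] in
theorem hom_eq (a b r : ι) (g : Polynomial k) :
    (ρ b : Ω) ^ g.natDegree * Polynomial.aeval ((ρ r / ρ b : Ωˣ) : Ω) g *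
      (((ρ a)⁻¹ ^ g.natDegree : Ωˣ) : Ω) =
    (((ρ b / ρ a) ^ g.natDegree : Ωˣ) : Ω) * Polynomial.aeval ((ρ r / ρ b : Ωˣ) : Ω) g := by
  rw [div_eq_mul_inv (ρ b), mul_pow, Units.val_mul, Units.val_pow_eq_pow_val (ρ b)]
  ring

omit [Fintype ι] in
theorem st_two {W : Finset ι} {b : ι} (hP : S.Pol x w ρ) (h : S.St ρ t dg s W b) (hi : i ∉ s)
    (r : ι) {g : Polynomial k} (hg : g.Monic) :
    S.St ρ (update t i ((ρ b : Ω) ^ g.natDegree * Polynomial.aeval ((ρ r / ρ b : Ωˣ) : Ω) g))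
      (update dg i g.natDegree) (insert i s) (W.erase r) b := fun a q hq h1 c hc => by
  obtain ⟨h2, h3⟩ := inq_ins hi h1
  rw [hom_eq] at h2
  by_cases h4 : c = r
  · subst h4
    refine or_iff_not_imp_right.2 fun h5 => ⟨hP.mem c a, hq.mem_of_pow_mem g.natDegree ?_⟩
    obtain ⟨h6, h7⟩ : S.InQ q ((ρ b / ρ a : Ωˣ) : Ω) := by
      by_contra h6
      exact h5 ⟨h6, g, hg, h2⟩
    obtain ⟨y, hy, e⟩ := homog (S.A a) (U := ρ c / ρ a) (V := ρ b / ρ a) (Z := ρ c / ρ b)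
      (by simp) (hP.mem c a) h6 hg
    obtain ⟨h8, h9⟩ := h2
    convert sub_mem h9 (q.mul_mem_right ⟨y, hy⟩ h7) using 1
    exact Subtype.ext (eq_sub_of_add_eq e.symm)
  · exact h a q hq h3 c (by simpa [h4] using hc)

theorem cone (hC : SCone) (hG : Gk S) (hP : S.Pol x w ρ) (h : S.Hg ρ t dg s) (hi : i ∉ s) {g : Ω}
    {e : ℕ} (hg : ∀ a, g * (((ρ a)⁻¹ ^ e : Ωˣ) : Ω) ∈ S.A a) (c : J → ℤ) (d : ℤ) :
    Keeps (mu _ g) (kl s (S.gk w (c - d • w) dg)) (kl s (S.gk w (c - (d + e) • w) dg)) ∧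
    ∀ j, Van (kc 0 (update t i g) (insert i s))
      (kl (insert i s) (S.gk w (c - d • w) (update dg i e))) ⊥ j →
      Inj (kc 0 t s) (kl s (S.gk w (c - d • w) dg)) ⊥ (kl s (S.gk w (c - (d + e) • w) dg)) ⊥
        (mu _ g) j := by
  have h1 := hG.kok m x w ρ ℕ _ _ _ (c - d • w) hP (hg_ins h hi hg)
  have h0 : ∀ σ ⊆ s, ∑ l ∈ σ, (update dg i e l : ℤ) = ∑ l ∈ σ, (dg l : ℤ) := fun σ hσ =>
    sum_congr rfl fun l hl => by rw [update_of_ne (ne_of_mem_of_not_mem (hσ hl) hi)]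
  have h2 : kl s (S.gk w (c - d • w) dg) = kl s (S.gk w (c - d • w) (update dg i e)) :=
    kl_congr fun σ hσ => by rw [gk, gk, h0 σ hσ]
  have h3 : kl s (S.gk w (c - (d + e) • w) dg) =
      kl s fun σ => S.gk w (c - d • w) (update dg i e) (insert i σ) :=
    kl_congr fun σ hσ => by
      rw [gk, gk, sum_insert fun h => hi (hσ h), h0 σ hσ, update_self, add_smul, add_smul]
      congr 2
      abel
  rw [h2, h3]
  constructor
  · refine (hC _ _).keeps (mu _ g) s _ _ fun σ hσ => ?_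
    simpa only [update_self] using h1.kp i (mem_insert_self _ _) σ fun h => hi (hσ h)
  · intro j hj
    have h4 := (hC _ _).inj _ _ s i _ _ j hi h1 (by rwa [kl_bot])
    rw [kl_bot, update_self, kos_congr _ (t' := fun l => mu _ (t l)) fun l hl => by
      rw [update_of_ne (ne_of_mem_of_not_mem hl hi)]] at h4
    exact h4

theorem main (hA : SCar) (hC : SCone) (hS : SStab) (hL : Lm S) (hG : Gk S) (hE : SELoc)
    (hF : SEFin) (h1 : ∀ a, (S.A a).FG) (h2 : S.Reg) (hP : S.Pol x w ρ) (c : J → ℤ) {j : ℤ}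
    (hj : j ≤ n) (W : Finset ι) : ∀ b ∈ W, ∀ (t : ℕ → Ω) dg s, S.Hg ρ t dg s →
    HasX x x0 t dg s → S.St ρ t dg s W b →
    ∃ d0 : ℤ, ∀ d ≤ d0, Van (kc 0 t s) (kl s (S.gk w (c - d • w) dg)) ⊥ j := by
  induction W using Finset.strongInduction with
  | H W ih =>
  intro b hb t dg s h3 h4 h5
  by_cases h6 : W = {b}
  · exact ⟨0, fun d _ => hE k Ω ι J n S m x w ρ ℕ t dg s h2 hP h3
      (hF k Ω ι J ℕ n m S x x0 w ρ t dg s b h1 hP h3 h4 (h6 ▸ h5)) _ j hj⟩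
  obtain ⟨r, hr, hrb⟩ : ∃ r ∈ W, r ≠ b := by
    by_contra h7
    exact h6 (eq_singleton_iff_unique_mem.2 ⟨hb, by simpa using h7⟩)
  obtain ⟨i, hi⟩ := Infinite.exists_notMem_finset s
  have h7 : ∀ b a, (ρ b : Ω) * (((ρ a)⁻¹ ^ 1 : Ωˣ) : Ω) ∈ S.A a := fun b a => by
    rw [pow_one, ← Units.val_mul, ← div_eq_mul_inv]
    exact hP.mem b a
  refine hS k Ω _ (kc 0 t s) (fun d => kl s (S.gk w (c - d • w) dg)) (ρ b) (ρ r) j
    (fun d => ?_) (fun g y => ?_) (fun d j g y hy => ?_)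
    (fun d => hG.fg m x x0 w ρ ℕ t dg s _ j h1 hP h3 h4)
    (fun d => (cone hC hG hP h3 hi (h7 b) c d).1) (fun d => (cone hC hG hP h3 hi (h7 r) c d).1)
    ?_ fun g hg => ?_
  · have := (hC _ _).pair _ _ _ _ _ (hG.kok m x w ρ ℕ t dg s (c - d • w) hP h3)
    rwa [kl_bot] at this
  · exact (DFunLike.congr_fun ((hA _ _).kos_ev _ (mu _ g) (fun l => mu _ (t l)) s (hL.lin0.comm g)
      fun l _ => mu_comm _ _).eq y).symm
  · rw [← algebraMap_smul Ω g y]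
    exact (hC ℕ (Ch ι (Fm n Ω))).keeps (mu _ (algebraMap k Ω g)) s (S.gk w (c - d • w) dg)
      (S.gk w (c - d • w) dg) (fun σ _ => hL.mu_T _ _ fun a => (S.A a).algebraMap_mem g) j y hy
  · exact (ih _ (erase_ssubset hb) r (mem_erase.2 ⟨hrb, hr⟩) _ _ _ (hg_ins h3 hi (h7 b))
      (hx_ins h4 hi _ _) (st_one h5 hi r)).imp fun d0 h d hd =>
      (cone hC hG hP h3 hi (h7 b) c d).2 j (h d hd)
  · have h8 : ∀ a, (ρ b : Ω) ^ g.natDegree * Polynomial.aeval ((ρ r / ρ b : Ωˣ) : Ω) g *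
        (((ρ a)⁻¹ ^ g.natDegree : Ωˣ) : Ω) ∈ S.A a := fun a => by
      obtain ⟨y, hy, e⟩ := homog (S.A a) (U := ρ r / ρ a) (V := ρ b / ρ a) (Z := ρ r / ρ b)
        (by simp) (hP.mem r a) (hP.mem b a) hg
      rw [hom_eq, e]
      exact add_mem (pow_mem (hP.mem r a) _) (mul_mem (hP.mem b a) hy)
    exact (ih _ (erase_ssubset hr) b (mem_erase.2 ⟨hrb.symm, hb⟩) _ _ _ (hg_ins h3 hi h8)
      (hx_ins h4 hi _ _) (st_two hP h5 hi r hg)).imp fun d0 h d hd =>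
      (cone hC hG hP h3 hi h8 c d).2 j (h d hd)

end EszX

open EszX in
theorem rowEsz : OfEsz := by
  intro hA hC hR hS hO _ _ hL hG hE hF k Ω ι J n m _ _ _ _ _ _ _ S x x0 w ρ h1 h2 hP c
  have hL := hL k Ω ι J n S
  let t : ℕ → Ω := fun i => if h : i < m then x ⟨i, h⟩ - algebraMap k Ω (x0 ⟨i, h⟩) else 0
  have ht : ∀ l : Fin m, t l = x l - algebraMap k Ω (x0 l) := fun l => dif_pos l.2
  have h3 := fun (j : ℤ) (hj : j ∈ Icc (0 : ℤ) n) => Filter.eventually_atBot.2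
    (main (x0 := x0) hA hC hS hL (hG k Ω ι J n S) hE hF h1 h2 hP c (mem_Icc.1 hj).2 univ default
      (mem_univ _) t (fun _ => 0) (univ.map (Fin.valOrderEmb m).toEmbedding)
      (fun l hl a => by
        obtain ⟨l, -, rfl⟩ := mem_map.1 hl
        rw [pow_zero, Units.val_one, mul_one]
        exact (ht l).symm ▸ sub_mem (hP.x_mem a l) ((S.A a).algebraMap_mem _))
      (fun l => ⟨l, mem_map_of_mem _ (mem_univ l), ht l, rfl⟩)
      fun _ _ _ _ c hc => absurd (mem_univ c) hc)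
  obtain ⟨d0, h4⟩ := Filter.eventually_atBot.1 ((Filter.eventually_all_finset _).2 h3)
  refine ⟨(-d0).toNat, fun d hd j hj => ?_⟩
  by_cases h5 : 0 ≤ j
  · refine (hR (Fin m) ℕ _ (Fin.valOrderEmb m) (cech 0) _ (fun i => mu _ (t i)) univ _ _
      (S.gk w (c - (-d : ℤ) • w) fun _ => 0) (fun _ => ⊥) j (fun l _ => congrArg _ (ht l))
      (fun σ _ => by simp [gk]) fun σ _ => hL.T_none.symm).2 ?_
    rw [kl_bot]
    exact h4 (-d) (by omega) j (mem_Icc.2 ⟨h5, hj⟩)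
  · intro y hy _
    refine ⟨0, zero_mem _, ?_⟩
    have : y = 0 := by
      funext σ τ
      have := hL.pure _ _ _ _ ((S.mem_T _ _ _).1 (((mem_kl _ _ _ _).1 hy σ).1 (subset_univ _)) τ)
      rw [(hO Ω n).pd_out _ (Or.inl (by omega))] at this
      exact this.symm
    rw [this, map_zero, sub_zero]
    exact zero_mem _

end Pool.Agent.MP_ee8c61_ag.H59
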