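import Pool.Agent.MP_ee8c61_ag.H59.SpecC

/-!
The class of the top form and the functional equation.
-/

namespace Pool.Agent.MP_ee8c61_ag.H59

open Finset Sys

namespace EtaX

section sg

variable {ι M : Type} [LinearOrder ι] [Fintype ι] [AddCommGroup M]

/-- The cochain with the same value on every chart. -/
def sg (ι : Type) (w : M) : Ch ι M := fun σ => if σ.card = 1 then w else 0

theorem sg_eq (hC : Car ι M) (w : M) : sg ι w = cech 0 (Pi.single ∅ w) := by
  funext σ
  rw [cech, hC.kos_apply, univ_inter, op_zero, smul_zero, zero_add, sg]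
  split_ifs with h
  · obtain ⟨a, rfl⟩ := card_eq_one.1 h
    simp [sgn, filter_singleton]
  · refine (sum_eq_zero fun i hi => ?_).symm
    rw [op_one, Pi.single_eq_of_ne, smul_zero]
    intro e
    rw [← card_erase_add_one hi, e] at h
    exact h rfl

theorem cech_sg (hC : Car ι M) (d : Op M) (w : M) : cech d (sg ι w) = sg ι (-d w) := by
  have h0 : cech 0 (sg ι w) = 0 := by
    rw [sg_eq hC]
    exact DFunLike.congr_fun (hC.kos_sq 0 _ univ (mul_zero _) (fun _ _ => Commute.one_left _)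
      fun _ _ _ _ => Commute.refl _) _
  have h1 : cech d = cech 0 + (od d : Op (Ch ι M)) := by
    rw [cech, cech, ← hC.kos_add, zero_add]
  rw [h1, op_add, h0, zero_add]
  funext σ
  rw [od_apply, sg, sg]
  split_ifs with h
  · simp [h]
  · simp

end sg

variable {k Ω ι J : Type} {n : ℕ} [CommRing k] [CommRing Ω] [Algebra k Ω] [Fintype J]
  {S : Sys k Ω ι J n}

theorem sg_mem {C : Finset (J → ℤ)} {p : ℤ} {w : Fm n Ω} (h : ∀ a, w ∈ S.lm C {a} (p - 1)) :
    sg ι w ∈ S.T C p := by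
  refine (S.mem_T _ _ _).2 fun σ => ?_
  rw [sg]
  split_ifs with e
  · obtain ⟨a, rfl⟩ := card_eq_one.1 e
    exact h a
  · exact zero_mem _

theorem smul_top (c g : Ω) : c • top n g = top n (c * g) := by
  rw [top, top, ← Pi.single_smul, smul_eq_mul]

theorem top_mem (hF : Fo Ω n) {N : AddSubgroup Ω} {g : Ω} (h : g ∈ N) : top n g ∈ fl n N n := by
  refine (hF.mem_fl _ _ _).2 ⟨fun σ => ?_, by rw [hF.pd_top, top, top, Pi.single_eq_same]⟩
  rw [top, Pi.single_apply]
  split_ifs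
  · exact h
  · exact zero_mem _

theorem mem_NN (hR : Fr S) (hL : Lo S) {a : ι} {c e : J → ℤ} (h : c ≤ e) {g : Ω}
    (hg : g ∈ S.A a) : g * S.mon a e ∈ S.NN a {a} {c} := by
  rw [hL.mem_one, hL.single, ← sub_add_cancel e c, hR.mon_add, Units.val_mul, mul_assoc,
    Units.mul_inv_cancel_right]
  exact mul_mem hg (hR.mon_mem _ _ (sub_nonneg.2 h))

theorem crd_top (hD : SDet) (hR : Fr S) {a : ι} {kk : J → ℤ} {U : Ω}
    (h : (Matrix.of fun l i => S.D a i (S.r l)).det = U * S.mon a kk) (g : Ω) :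
    S.crd a (top n g) = top n (U * g * S.mon a (kk + 1)) := by
  have e := Matrix.det_mul_row (fun i => (S.un a i : Ω)) (Matrix.of fun l i => S.D a i (S.r l))
  have e1 : S.mon a 1 = ∏ j, S.η a j := by simp [mon]
  rw [crd, hD, hR.mon_add, e1, ← hR.prod_un, Units.val_mul, Units.coe_prod]
  congr 1
  refine (congrArg (· * g) e).trans ?_
  rw [h]
  ring

theorem gen [Fintype ι] [LinearOrder ι] (hC : Car ι (Fm n Ω)) (hF : Fo Ω n) (hd : Fd S.R)
    (hA : La Ω n) (hD : SDet) (hR : Fr S) (hL : Lo S) (hM : Lm S) (θ β : Fin n → Ω) (F : Ωˣ)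
    (av kk c0 : J → ℤ) (u u' : ℕ) (B Q : Ω) (hr : ∀ c l, S.r l ∈ S.A c)
    (hf : ∀ c, S.IsU c (F * S.mon c (-av)))
    (hdet : ∀ c, ∃ U ∈ S.A c, (Matrix.of fun l i => S.D c i (S.r l)).det = U * S.mon c kk)
    (hβ : ∀ c l, (F : Ω) ^ u * β l ∈ S.A c) (hQ : ∀ c, Q ∈ S.A c)
    (hB : B = F * Q + ∑ l, (S.R l (β l) + θ l * β l)) (h1 : c0 ≤ kk + 1)
    (h2 : c0 - u' • av ≤ (u : ℤ) • -av) :
    om ι n Ω ∈ S.T {c0} (n + 1) ∧ cech (S.dd + we θ) (om ι n Ω) = 0 ∧
      ∃ η ∈ S.T {c0 - u' • av} n,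
        B • om ι n Ω - cech (S.dd + we θ) η ∈ S.T {c0 + av} (n + 1) := by
  have eo : om ι n Ω = sg ι (top n 1) := rfl
  have ms : ∀ c : ι, c ∈ ({c} : Finset ι) := mem_singleton_self
  refine ⟨sg_mem fun c => ?_, ?_, sg ι (-co β (top n 1)), sg_mem fun c => neg_mem ?_, ?_⟩
  · obtain ⟨U, hU, e⟩ := hdet c
    rw [hM.mem _ _ c (ms c), crd_top hD hR e, add_sub_cancel_right]
    exact top_mem hF (mem_NN hR hL h1 (mul_mem hU (one_mem _)))
  · rw [eo, cech_sg hC, op_add, hF.we_top, dd, hd.d_top]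
    funext σ
    simp [sg]
  · set N := (S.A c).toSubring.toAddSubgroup
    have e : β = (((F⁻¹ : Ωˣ) : Ω) ^ u) • fun l => (F : Ω) ^ u * β l := by
      funext l
      rw [Pi.smul_apply, smul_eq_mul, ← mul_assoc, ← mul_pow, Units.inv_mul, one_pow, one_mul]
    rw [hM.mem _ _ c (ms c), e, hF.co_smul, op_mul, mu_apply, crd, hA.lin]
    have m1 := hF.fl_co N N _ (fun l h hh => (S.A c).mul_mem (hβ c l) hh) _ _
      (top_mem hF (one_mem (S.A c)))
    have m2 := hA.fl (fun l i => S.v c i l) N (fun l i h hh => (S.A c).mul_mem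
      ((S.A c).mul_mem (hR.un_mem c i) (S.D_mem c i _ (hr c l))) hh) _ _ m1
    rw [← sub_eq_add_neg] at m2
    refine hF.fl_mu N _ _ (fun h hh => ?_) _ _ m2
    have := mem_NN hR hL h2 (mul_mem (pow_mem (hf c).2 u) hh)
    rwa [hR.mon_zsmul, zpow_natCast, mul_right_comm, Units.val_pow_eq_pow_val, ← mul_pow,
      mul_inv, Units.val_mul, Units.inv_mul_cancel_right] at this
  · have e1 : we θ (co β (top n 1)) = top n (β ⬝ᵥ θ) := by
      have := DFunLike.congr_fun (hF.we_co θ β) (top n 1)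
      rwa [op_add, op_mul, op_mul, hF.we_top, map_zero, add_zero, mu_apply, smul_top,
        mul_one] at this
    have e2 : B • om ι n Ω - cech (S.dd + we θ) (sg ι (-co β (top n 1)))
        = sg ι (top n (F * Q)) := by
      rw [eo, cech_sg hC, map_neg, neg_neg, op_add, dd, hd.d_co_top, e1]
      funext σ
      rw [Pi.sub_apply, Pi.smul_apply, sg, sg, sg]
      split_ifs
      · rw [smul_top, top, top, top, top, ← Pi.single_add, ← Pi.single_sub, hB, sum_add_distrib,
          dotProduct_comm, mul_one]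
        congr 1
        exact add_sub_cancel_right _ _
      · simp
    rw [e2]
    refine sg_mem fun c => ?_
    obtain ⟨U, hU, e⟩ := hdet c
    have z : (S.mon c (-av) : Ω) * S.mon c av = 1 := by
      rw [← Units.val_mul, ← hR.mon_add, neg_add_cancel]
      simp [mon]
    have := mem_NN hR hL (add_le_add_left h1 av) (mul_mem (mul_mem hU (hf c).1) (hQ c))
    rw [hM.mem _ _ c (ms c), crd_top hD hR e, add_sub_cancel_right]
    refine top_mem hF ?_
    convert this using 1
    rw [hR.mon_add c (kk + 1), Units.val_mul, Units.val_mul]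
    linear_combination (-U * F * Q * S.mon c (kk + 1)) * z

end EtaX

open MvPolynomial in
theorem rowEta : OfEta := by
  intro hC hF hd hA hD hR hL hM hP Ω ι J n m _ _ _ _ _ _ S x f a _ _ kk b c0 I h1 h2
  obtain ⟨u, β, Q, b1, b2, b3⟩ := I.bs
  have P := hP _ _ _ _ _ S (Option (Fin m))
  refine (EtaX.gen (S := S.px m) (hC _ _) (hF _ _) (hd _ _ _ _ (S.px m).R_comm)
    (hA _ _) hD (hR _ _ _ _ _ _) (hL _ _ _ _ _ _) (hM _ _ _ _ _ _) (S.th x f) β
    (Units.map (C : Ω →+* PX m Ω).toMonoidHom f) (fun j => a j) (fun j => kk j) c0 u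
    (u + ∑ j, (kk j + 1)) _ Q (fun c l => C_mem_spol (I.r_mem c l)) (fun c => ?_) (fun c => ?_)
    (fun c l e => ?_) b2 b3 h1 fun j => ?_).imp_right (And.imp_right fun r => ⟨_, r⟩)
  · constructor
    · rw [Units.val_mul, P.mon]
      have := C_mem_spol (κ := Option (Fin m)) (I.f_ord c).1
      rwa [Units.val_mul, map_mul] at this
    · rw [mul_inv, Units.val_mul, P.mon_inv, ← map_inv]
      have := C_mem_spol (κ := Option (Fin m)) (I.f_ord c).2
      rwa [mul_inv, Units.val_mul, map_mul] at this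
  · obtain ⟨U, hU, e⟩ := I.det c
    refine ⟨C U, C_mem_spol hU.1, ?_⟩
    rw [P.mon, ← map_mul, ← Units.val_mul, ← e, RingHom.map_det]
    congr 1
    exact Matrix.ext fun l i => dpol_C _ _
  · change coeff e (C (f : Ω) ^ u * β l) ∈ _
    rw [← map_pow, coeff_C_mul]
    exact b1 c l e
  · have s : kk j + 1 ≤ ∑ j, (kk j + 1) :=
      single_le_sum (f := fun j => kk j + 1) (fun _ _ => Nat.zero_le _) (mem_univ j)
    generalize ∑ j, (kk j + 1) = t at s
    rw [Pi.sub_apply, Pi.smul_apply, Pi.smul_apply, Pi.neg_apply, smul_eq_mul, nsmul_eq_mul]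
    push_cast
    rcases Nat.eq_zero_or_pos (a j) with z | z
    · simpa [z] using h2 j z
    · have := h1 j
      have : (t : ℤ) ≤ t * a j := le_mul_of_one_le_right (by positivity) (by exact_mod_cast z)
      have : (kk j : ℤ) + 1 ≤ t := by exact_mod_cast s
      linarith

end Pool.Agent.MP_ee8c61_ag.H59
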