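import Pool.Agent.MP_ee8c61_ag.H59.SpecA

/-!
Vanishing of cohomology passes to an extension of scalars.
-/

namespace Pool.Agent.MP_ee8c61_ag.H59

open Finset

namespace ExtX

/-- Finitely many elements are combinations of finitely many independent ones. -/
theorem regroup {R K : Type} [CommRing R] [IsDomain R] [IsPrincipalIdealRing R] [Field K]
    (ψ : R →+* K) (hψ : Function.Injective ψ) {n : ℕ} (c : Fin n → K) :
    ∃ (q : ℕ) (b : Fin q → K) (r : Fin n → Fin q → R),
      (∀ o : Fin q → R, ∑ i, ψ (o i) * b i = 0 → o = 0) ∧ ∀ i, c i = ∑ l, ψ (r i l) * b l := by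
  let _ : Algebra R K := ψ.toAlgebra
  have : FaithfulSMul R K := (faithfulSMul_iff_algebraMap_injective R K).2 hψ
  let N := Submodule.span R (Set.range c)
  have : Module.Finite R N := Module.Finite.span_of_finite R (Set.finite_range c)
  let B := Module.finBasis R N
  refine ⟨_, fun l => B l, fun i l => B.repr ⟨c i, Submodule.subset_span ⟨i, rfl⟩⟩ l,
    fun o h => funext (Fintype.linearIndependent_iff.1 B.linearIndependent o (Subtype.ext ?_)),
    fun i => ?_⟩
  · rw [Submodule.coe_sum]
    exact h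
  · have := congrArg Subtype.val (B.sum_repr ⟨c i, Submodule.subset_span ⟨i, rfl⟩⟩)
    rw [Submodule.coe_sum] at this
    exact this.symm

end ExtX

theorem rowExt : SExt := by
  intro ℓ _ G G' _ _ _ _ ψ φ D D' L M j hψ hφ cL lD cM hD hm hs ld hV y hy h0
  obtain ⟨n, c, g, e⟩ := Submodule.mem_span_set'.1 (hs y hy)
  choose x hx hg using fun i => (g i).2
  obtain ⟨q, b, r, hb, hc⟩ := ExtX.regroup ψ hψ c
  have e' : y = ∑ l, b l • φ (∑ i, r i l • x i) := by
    simp only [← e, ← hg, hc, map_sum, hφ, sum_smul, smul_sum, smul_smul, mul_comm]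
    exact sum_comm
  have z := ld q b (fun l => D (∑ i, r i l • x i)) hb (by
    rw [← (mem_lat_bot _ _).1 h0, e', map_sum]
    exact sum_congr rfl fun l _ => by rw [lD, hD])
  choose w hw hw' using fun l => hV (∑ i, r i l • x i) (sum_mem fun i _ => cL _ _ _ (hx i))
    ((mem_lat_bot _ _).2 (congrFun z l))
  refine ⟨∑ l, b l • φ (w l), sum_mem fun l _ => cM _ _ _ (hm _ (hw l)),
    (mem_lat_bot _ _).2 (sub_eq_zero.2 ?_)⟩
  rw [e', map_sum]
  exact sum_congr rfl fun l _ => by
    rw [lD, ← hD, sub_eq_zero.1 ((mem_lat_bot _ _).1 (hw' l))]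

end Pool.Agent.MP_ee8c61_ag.H59
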