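import Pool.Agent.MP_ee8c61_ag.H59.SpecC

/-!
Logarithmic forms are spanned by those of the model.
-/

namespace Pool.Agent.MP_ee8c61_ag.H59

open Finset

namespace ExtLX

theorem up_single {O Ω : Type} [CommRing O] [CommRing Ω] {n : ℕ} (φ : O →+ Ω)
    (τ : Finset (Fin n)) (g : O) : up φ (Pi.single τ g : Fm n O) = Pi.single τ (φ g) := by
  funext σ
  by_cases h : σ = τ
  · subst h
    simp
  · simp [h]

theorem single_mem {O : Type} [CommRing O] {n : ℕ} {N : AddSubgroup O} {τ : Finset (Fin n)}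
    {g : O} (hg : g ∈ N) : (Pi.single τ g : Fm n O) ∈ fl n N τ.card := by
  rw [fl, mem_lat]
  intro σ
  by_cases h : σ = τ
  · subst h
    simpa [deg0] using hg
  · simp [h]

theorem span_AA {O Ω ι J : Type} {n ℓ : ℕ} [Fact ℓ.Prime] [CommRing O] [Algebra ℤ_[ℓ] O]
    [CommRing Ω] [Algebra ℂ Ω] {SO : Sys ℤ_[ℓ] O ι J n} {S : Sys ℂ Ω ι J n} {ψ : ℤ_[ℓ] →+* ℂ}
    {ex : O →+* Ω} (h : ExtOK ℓ SO S ψ ex) (σ : Finset ι) {g : Ω} (hg : g ∈ S.AA σ) :
    g ∈ Submodule.span ℂ (ex '' (SO.AA σ : Set O)) := by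
  have e : (Submonoid.closure (ex '' (SO.AA σ : Set O)) : Set Ω) = ex '' (SO.AA σ : Set O) :=
    congrArg SetLike.coe (Submonoid.closure_eq ((SO.AA σ).toSubmonoid.map ex))
  have le : S.AA σ ≤ Algebra.adjoin ℂ (ex '' (SO.AA σ : Set O)) :=
    iSup₂_le fun b hb x hx => by
      have a : SO.A b ≤ SO.AA σ := le_iSup₂_of_le (f := fun b (_ : b ∈ σ) => SO.A b) b hb le_rfl
      exact Algebra.span_le_adjoin ℂ _ (Submodule.span_mono (Set.image_mono a) (h.span b x hx))
  rw [← e, ← Algebra.adjoin_eq_span]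
  exact le hg

end ExtLX

open ExtLX

theorem rowExtL : OfExtL := by
  intro _ hLa hFr hLo hLm hHm O Ω ι J n ℓ _ _ _ _ _ _ SO S ψ ex h c σ p w hw
  rcases σ.eq_empty_or_nonempty with rfl | ⟨a, ha⟩
  · rw [(hLm _ _ _ _ _ S).emp, mem_lat_bot] at hw
    exact hw ▸ zero_mem _
  have H := hHm _ _ _ _ _ _ _ SO S ex h.hom
  rw [(hLm _ _ _ _ _ S).mem _ _ a ha, fl, mem_lat] at hw
  have e : w = ∑ τ, S.frm a (Pi.single τ (S.crd a w τ)) := by
    rw [← map_sum, univ_sum_single]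
    exact (DFunLike.congr_fun ((hFr _ _ _ _ _ S).frm_crd a) w).symm
  rw [e]
  refine sum_mem fun τ _ => ?_
  obtain ⟨h1, h2⟩ := (mem_deg0 _ _ _).1 (hw τ)
  by_cases hp : p - τ.card = 0
  swap
  · rw [h2 hp, Pi.single_zero, map_zero]
    exact zero_mem _
  obtain rfl : p = τ.card := by omega
  have key : ∀ g ∈ Submodule.span ℂ (ex '' (SO.AA σ : Set O)),
      S.frm a (Pi.single τ (g * S.mon a c)) ∈ Submodule.span ℂ
        (up (ex : O →+ Ω) '' (SO.lm {c} σ τ.card : Set (Fm n O))) := by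
    intro g hg
    induction hg using Submodule.span_induction with
    | mem x hx =>
      obtain ⟨y, hy, rfl⟩ := hx
      refine Submodule.subset_span ⟨SO.frm a (Pi.single τ (y * SO.mon a c)), ?_, ?_⟩
      · have e1 : ∀ v, SO.crd a (SO.frm a v) = v :=
          DFunLike.congr_fun ((hFr _ _ _ _ _ SO).crd_frm a)
        rw [SetLike.mem_coe, (hLm _ _ _ _ _ SO).mem _ _ a ha, e1]
        refine single_mem (((hLo _ _ _ _ _ SO).mem_one _ _ _ _).2 ?_)
        rwa [Units.mul_inv_cancel_right]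
      · rw [H.frm, up_single, ← H.mon, ← map_mul]
        rfl
    | zero =>
      rw [zero_mul, Pi.single_zero, map_zero]
      exact zero_mem _
    | add x y _ _ hx hy =>
      rw [add_mul, Pi.single_add, map_add]
      exact add_mem hx hy
    | smul r x _ hx =>
      have l : Lin Ω (S.frm a) := (hLa Ω n).lin _
      rw [smul_mul_assoc, Pi.single_smul, ← algebraMap_smul Ω r, l, algebraMap_smul]
      exact Submodule.smul_mem _ r hx
  have := key _ (span_AA h σ (((hLo _ _ _ _ _ S).mem_one _ _ _ _).1 h1))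
  rwa [Units.inv_mul_cancel_right] at this

end Pool.Agent.MP_ee8c61_ag.H59
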