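import Pool.Agent.MP_ee8c61_ag.H59.SpecB

/-!
The exterior derivative of commuting derivations.
-/

namespace Pool.Agent.MP_ee8c61_ag.H59

open Finset

namespace FdX

variable {k Ω : Type} {n : ℕ} [CommRing k] [CommRing Ω] [Algebra k Ω]

theorem dR_eq (R : Fin n → Op Ω) : dR R = ∑ l, ep l * ev (R l) := by
  have h : (od 0 : Op (Fm n Ω)) = 0 := op_ext fun w => funext fun σ => by simp
  rw [dR, kos, h, zero_add]

theorem ev_mu' (D : Derivation k Ω Ω) (g : Ω) :
    (ev (dop D) : Op (Fm n Ω)) * mu _ g = mu _ g * ev (dop D) + mu _ (D g) :=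
  op_ext fun w => funext fun σ => by
    show D (g * w σ) = g * D (w σ) + D g * w σ
    rw [Derivation.leibniz, smul_eq_mul, smul_eq_mul, mul_comm (w σ)]

theorem ev_single (D : Derivation k Ω Ω) (τ : Finset (Fin n)) (g : Ω) :
    (ev (dop D) : Op (Fm n Ω)) (Pi.single τ g) = Pi.single τ (D g) :=
  funext fun σ => by
    show D ((Pi.single τ g : Fm n Ω) σ) = _
    by_cases h : σ = τ
    · rw [h, Pi.single_eq_same, Pi.single_eq_same]
    · rw [Pi.single_eq_of_ne h, Pi.single_eq_of_ne h, map_zero]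

theorem mu_single (τ : Finset (Fin n)) (g : Ω) :
    mu (Fm n Ω) g (Pi.single τ 1) = Pi.single τ g := by
  rw [mu_apply, ← Pi.single_smul, smul_eq_mul, mul_one]

theorem d_mu (F : Fo Ω n) (R : Fin n → Derivation k Ω Ω) (g : Ω) :
    (dR fun l => dop (R l)) * mu _ g =
      mu _ g * (dR fun l => dop (R l)) + we fun l => R l g := by
  rw [dR_eq, we, sum_mul, mul_sum, ← sum_add_distrib]
  refine sum_congr rfl fun l _ => ?_
  rw [mul_assoc, ev_mu', mul_add, ← mul_assoc, ← mul_assoc, ((F.lin_ep l).comm g).eq,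
    ((F.lin_ep l).comm (R l g)).eq]

theorem d_top (F : Fo Ω n) (R : Fin n → Derivation k Ω Ω) (g : Ω) :
    (dR fun l => dop (R l)) (top n g) = 0 := by
  rw [dR_eq, op_sum]
  refine sum_eq_zero fun l _ => ?_
  rw [op_mul, top, ev_single, ← F.we_single]
  exact F.we_top _ _

theorem sym (C : Car (Fin n) Ω) (c : Fin n → Fin n → Ω) (h : ∀ i j, c i j = c j i) :
    ∑ j, we (fun i => c i j) * ep j = 0 := by
  simp only [we, sum_mul]
  rw [← sum_product']
  refine sum_ninvolution Prod.swap (fun a => ?_) (fun a ha e => ha ?_) (fun a => by simp)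
    Prod.swap_swap
  · rw [Prod.fst_swap, Prod.snd_swap, h a.1 a.2, mul_assoc, mul_assoc, ← mul_add, C.ee, mul_zero]
  · have e1 : a.2 = a.1 := congrArg Prod.fst e
    rw [e1, mul_assoc, C.ee0, mul_zero]

end FdX

open FdX in
theorem rowFd : OfFd := by
  intro hC hF k Ω n _ _ _ R hR
  have C := hC (Fin n) Ω
  have F := hF Ω n
  have hep : ∀ i, (dR fun l => dop (R l)) * ep i + ep i * (dR fun l => dop (R l)) = 0 :=
    fun i => C.kos_ep _ _ _ i
  refine ⟨C.kos_sq 0 _ _ (mul_zero 0) (fun _ _ => Commute.zero_right _)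
    fun i _ j _ => op_ext fun g => hR i j g, d_mu F R, fun g => ?_, hep, fun α h => ?_,
    fun β => ?_, d_top F R⟩
  · have h1 : (dR fun l => dop (R l)) (vac n 1) = 0 := by
      rw [dR_eq, op_sum]
      refine sum_eq_zero fun l _ => ?_
      rw [op_mul, vac, ev_single, Derivation.map_one_eq_zero, Pi.single_zero, map_zero]
    have h2 := DFunLike.congr_fun (d_mu F R g) (vac n 1)
    rw [op_add, op_mul, op_mul, h1, map_zero, zero_add] at h2
    rw [← h2, vac, vac, mu_single]
  · rw [← sym C (fun i j => R i (α j)) h, we, mul_sum, sum_mul, ← sum_add_distrib]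
    refine sum_congr rfl fun j _ => ?_
    rw [← mul_assoc, d_mu F R, add_mul, add_right_comm, mul_assoc, mul_assoc, ← mul_add, hep,
      mul_zero, zero_add]
  · have h1 : ∀ l, (dR fun l => dop (R l)) (io l (top n 1)) = 0 := fun l => by
      have h2 := DFunLike.congr_fun (F.dR_io (fun l => dop (R l)) l) (top n 1)
      rw [op_add, op_mul, op_mul, d_top F R, map_zero, add_zero] at h2
      rw [h2, top, ev_single, Derivation.map_one_eq_zero, Pi.single_zero]
    have h3 : ∀ (α : Fin n → Ω) l, we α (io l (top n 1)) = top n (α l) := fun α l => by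
      have h2 := DFunLike.congr_fun (F.we_co α (Pi.single l 1)) (top n 1)
      rw [op_add, op_mul, op_mul, F.we_top, map_zero, add_zero, F.co_single, single_dotProduct,
        one_mul] at h2
      rw [h2, top, top, mu_single]
    have h4 : top n (∑ l, R l (β l)) = ∑ l, top n (R l (β l)) :=
      map_sum (AddMonoidHom.single (fun _ : Finset (Fin n) => Ω) univ) _ _
    rw [h4, co, op_sum, map_sum]
    refine sum_congr rfl fun l _ => ?_
    have h2 := DFunLike.congr_fun (d_mu F R (β l)) (io l (top n 1))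
    rw [op_add, op_mul, op_mul, h1, map_zero, zero_add, h3] at h2
    exact h2

end Pool.Agent.MP_ee8c61_ag.H59
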