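import Pool.Agent.MP_ee8c61_ag.H59.SpecA

/-!
Finite generation of cohomology over a Noetherian ring.
-/

namespace Pool.Agent.MP_ee8c61_ag.H59

open Finset

namespace FgX

variable {R G G' : Type} [CommRing R] [AddCommGroup G] [Module R G] [AddCommGroup G']
  [Module R G']

/-- A closed lattice as a family of submodules. -/
def sub (L : Lat G) (h : Cl R L) (j : ℤ) : Submodule R G where
  carrier := L j
  add_mem' := fun ha hb => add_mem ha hb
  zero_mem' := zero_mem _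
  smul_mem' := fun c x hx => h j c x hx

theorem mem_sub {L : Lat G} {h : Cl R L} {j : ℤ} {x : G} : x ∈ sub L h j ↔ x ∈ L j := Iff.rfl

/-- An additive map that commutes with scalars as a linear map. -/
def lin (φ : G →+ G') (h : ∀ (c : R) x, φ (c • x) = c • φ x) : G →ₗ[R] G' where
  toFun := φ
  map_add' := φ.map_add
  map_smul' := h

theorem map_span [DecidableEq G'] (φ : G →+ G') (h : ∀ (c : R) x, φ (c • x) = c • φ x)
    (s : Finset G) {w : G} (hw : w ∈ Submodule.span R (s : Set G)) :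
    φ w ∈ Submodule.span R ((s.image φ : Finset G') : Set G') := by
  have := Submodule.mem_map_of_mem (f := lin φ h) hw
  rw [Submodule.map_span] at this
  rw [coe_image]
  exact this

theorem key [IsNoetherianRing R] (f : G →ₗ[R] G') (Z : Submodule R G) (B : Submodule R G')
    (t : Finset G') (h : ∀ z ∈ Z, ∃ w ∈ Submodule.span R (t : Set G'), f z - w ∈ B) :
    ∃ s : Finset G, (∀ x ∈ s, x ∈ Z) ∧
      ∀ z ∈ Z, ∃ w ∈ Submodule.span R (s : Set G), w ∈ Z ∧ f z - f w ∈ B := by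
  classical
  have hle : Z.map (B.mkQ ∘ₗ f) ≤ (Submodule.span R (t : Set G')).map B.mkQ := by
    rintro _ ⟨z, hz, rfl⟩
    obtain ⟨w, hw, hb⟩ := h z hz
    exact ⟨w, hw, ((Submodule.Quotient.eq B).2 hb).symm⟩
  have hfg : (Z.map (B.mkQ ∘ₗ f)).FG :=
    Submodule.FG.of_le (Submodule.FG.map _ ⟨t, rfl⟩) hle
  obtain ⟨u, hu⟩ := hfg
  have hex : ∀ a ∈ u, ∃ z ∈ Z, (B.mkQ ∘ₗ f) z = a := fun a ha => by
    have : a ∈ Z.map (B.mkQ ∘ₗ f) := hu ▸ Submodule.subset_span ha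
    exact this
  choose! g hg1 hg2 using hex
  have hs : ∀ x ∈ u.image g, x ∈ Z := by
    intro x hx
    obtain ⟨a, ha, rfl⟩ := mem_image.1 hx
    exact hg1 a ha
  refine ⟨u.image g, hs, fun z hz => ?_⟩
  have h1 : Submodule.span R (u : Set _) ≤
      (Submodule.span R ((u.image g : Finset G) : Set G)).map (B.mkQ ∘ₗ f) := by
    refine Submodule.span_le.2 fun a ha => ⟨g a, Submodule.subset_span ?_, hg2 a ha⟩
    exact mem_coe.2 (mem_image_of_mem g ha)
  obtain ⟨w, hw, hwz⟩ := h1 (hu ▸ Submodule.mem_map_of_mem hz)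
  exact ⟨w, hw, Submodule.span_le.2 hs hw, (Submodule.Quotient.eq B).1 hwz.symm⟩

/-- Cocycles. -/
def cyc (D : Op G) (hD : Lin R D) (L L' : Lat G) (hL : Cl R L) (hL' : Cl R L') (j : ℤ) :
    Submodule R G :=
  sub L hL j ⊓ (sub L' hL' (j + 1)).comap (lin D hD)

theorem mem_cyc {D : Op G} {hD : Lin R D} {L L' : Lat G} {hL : Cl R L} {hL' : Cl R L'} {j : ℤ}
    {x : G} : x ∈ cyc D hD L L' hL hL' j ↔ x ∈ L j ∧ D x ∈ L' (j + 1) := Iff.rfl

/-- Coboundaries. -/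
def bdy (D : Op G) (hD : Lin R D) (L L' : Lat G) (hL : Cl R L) (hL' : Cl R L') (j : ℤ) :
    Submodule R G :=
  (sub L hL (j - 1)).map (lin D hD) ⊔ sub L' hL' j

theorem mem_bdy {D : Op G} {hD : Lin R D} {L L' : Lat G} {hL : Cl R L} {hL' : Cl R L'} {j : ℤ}
    {x : G} : x ∈ bdy D hD L L' hL hL' j ↔ ∃ y ∈ L (j - 1), x - D y ∈ L' j := by
  rw [bdy, Submodule.mem_sup]
  constructor
  · rintro ⟨_, ⟨y, hy, rfl⟩, z, hz, rfl⟩
    refine ⟨y, hy, ?_⟩
    have : lin D hD y + z - D y = z := add_sub_cancel_left _ _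
    rw [this]
    exact hz
  · rintro ⟨y, hy, hz⟩
    exact ⟨D y, ⟨y, hy, rfl⟩, x - D y, hz, add_sub_cancel _ _⟩

theorem span_union [DecidableEq G] {s t : Finset G} {a b : G}
    (ha : a ∈ Submodule.span R (s : Set G)) (hb : b ∈ Submodule.span R (t : Set G)) :
    a + b ∈ Submodule.span R ((s ∪ t : Finset G) : Set G) :=
  add_mem (Submodule.span_mono (coe_subset.2 subset_union_left) ha)
    (Submodule.span_mono (coe_subset.2 subset_union_right) hb)

theorem mid [IsNoetherianRing R] (D : Op G) (L L' L'' : Lat G) (j : ℤ) (p : Pair D L L')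
    (p' : Pair D L' L'') (hD : Lin R D) (c : Cl R L) (c' : Cl R L') (c'' : Cl R L'')
    (h1 : FG R D L' L'' j) (h2 : FG R D L L' j) : FG R D L L'' j := by
  classical
  obtain ⟨s1, a1, b1⟩ := h1
  obtain ⟨s2, -, b2⟩ := h2
  obtain ⟨s, a, b⟩ := key LinearMap.id (cyc D hD L L'' c c'' j) (bdy D hD L L' c c' j) s2 (by
    rintro z ⟨hz, hdz⟩
    obtain ⟨y, hy, w, hw, hh⟩ := b2 z hz (p'.le _ hdz)
    exact ⟨w, hw, mem_bdy.2 ⟨y, hy, hh⟩⟩)
  refine ⟨s ∪ s1, fun x hx => ?_, fun z hz hdz => ?_⟩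
  · rcases mem_union.1 hx with hx | hx
    · exact mem_cyc.1 (a x hx)
    · exact ⟨p.le _ (a1 x hx).1, (a1 x hx).2⟩
  · obtain ⟨w, hw, hwz, hb⟩ := b z (mem_cyc.2 ⟨hz, hdz⟩)
    obtain ⟨y, hy, hh⟩ := mem_bdy.1 hb
    simp only [LinearMap.id_coe, id_eq] at hh
    obtain ⟨y', hy', w', hw', hh'⟩ := b1 _ hh (by
      rw [map_sub, map_sub, p.dd', sub_zero]
      exact sub_mem hdz (mem_cyc.1 hwz).2)
    refine ⟨y + y', add_mem hy (p.le _ hy'), w + w', span_union hw hw', ?_⟩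
    rw [map_add]
    convert hh' using 1
    abel

theorem right [IsNoetherianRing R] (D : Op G) (L L' L'' : Lat G) (j : ℤ) (p : Pair D L L')
    (p' : Pair D L' L'') (hD : Lin R D) (c : Cl R L) (c' : Cl R L') (c'' : Cl R L'')
    (h1 : FG R D L L'' j) (h2 : FG R D L' L'' (j + 1)) : FG R D L L' j := by
  classical
  obtain ⟨s1, a1, b1⟩ := h1
  obtain ⟨s2, -, b2⟩ := h2
  obtain ⟨s, a, b⟩ := key (lin D hD) (cyc D hD L L' c c' j) (bdy D hD L' L'' c' c'' (j + 1)) s2 (by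
    rintro z ⟨-, hdz⟩
    obtain ⟨y, hy, w, hw, hh⟩ := b2 (D z) hdz (by rw [p.dd']; exact zero_mem _)
    exact ⟨w, hw, mem_bdy.2 ⟨y, hy, hh⟩⟩)
  refine ⟨s ∪ s1, fun x hx => ?_, fun z hz hdz => ?_⟩
  · rcases mem_union.1 hx with hx | hx
    · exact mem_cyc.1 (a x hx)
    · exact ⟨(a1 x hx).1, p'.le _ (a1 x hx).2⟩
  · obtain ⟨w, hw, hwz, hb⟩ := b z (mem_cyc.2 ⟨hz, hdz⟩)
    obtain ⟨y, hy, hh⟩ := mem_bdy.1 hb
    rw [add_sub_cancel_right] at hy
    obtain ⟨y', hy', w', hw', hh'⟩ := b1 (z - w - y)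
      (sub_mem (sub_mem hz (mem_cyc.1 hwz).1) (p.le _ hy)) (by
        rw [map_sub, map_sub]
        exact hh)
    refine ⟨y', hy', w + w', span_union hw hw', ?_⟩
    convert add_mem (p'.le _ hh') hy using 1
    abel

theorem left [IsNoetherianRing R] (D : Op G) (L L' L'' : Lat G) (j : ℤ) (p : Pair D L L')
    (p' : Pair D L' L'') (hD : Lin R D) (c : Cl R L) (c' : Cl R L') (c'' : Cl R L'')
    (h1 : FG R D L L'' j) (h2 : FG R D L L' (j - 1)) : FG R D L' L'' j := by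
  classical
  obtain ⟨s1, -, b1⟩ := h1
  obtain ⟨s2, a2, b2⟩ := h2
  obtain ⟨s, a, b⟩ := key LinearMap.id (cyc D hD L' L'' c' c'' j) (bdy D hD L L'' c c'' j) s1 (by
    rintro z ⟨hz, hdz⟩
    obtain ⟨y, hy, w, hw, hh⟩ := b1 z (p.le _ hz) hdz
    exact ⟨w, hw, mem_bdy.2 ⟨y, hy, hh⟩⟩)
  refine ⟨s ∪ s2.image D, fun x hx => ?_, fun z hz hdz => ?_⟩
  · rcases mem_union.1 hx with hx | hx
    · exact mem_cyc.1 (a x hx)
    · obtain ⟨x', hx', rfl⟩ := mem_image.1 hx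
      refine ⟨by simpa using (a2 x' hx').2, ?_⟩
      rw [p.dd']
      exact zero_mem _
  · obtain ⟨w, hw, hwz, hb⟩ := b z (mem_cyc.2 ⟨hz, hdz⟩)
    obtain ⟨y, hy, hh⟩ := mem_bdy.1 hb
    simp only [LinearMap.id_coe, id_eq] at hh
    obtain ⟨y', -, w', hw', hh'⟩ := b2 y hy (by
      rw [sub_add_cancel]
      convert sub_mem (sub_mem hz (mem_cyc.1 hwz).1) (p'.le _ hh) using 1
      abel)
    refine ⟨_, hh', w + D w', span_union hw (map_span D hD s2 hw'), ?_⟩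
    rw [map_sub, map_sub, p.dd']
    convert hh using 1
    abel

theorem fin [IsNoetherianRing R] (D : Op G) (L L' : Lat G) (j : ℤ) (s : Finset G) (hD : Lin R D)
    (c : Cl R L) (c' : Cl R L')
    (h : ∀ x ∈ L j, ∃ w ∈ Submodule.span R (s : Set G), x - w ∈ L' j) : FG R D L L' j := by
  obtain ⟨u, a, b⟩ := key LinearMap.id (cyc D hD L L' c c' j) (sub L' c' j) s
    fun z hz => h z (mem_cyc.1 hz).1
  refine ⟨u, fun x hx => mem_cyc.1 (a x hx), fun z hz hdz => ?_⟩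
  obtain ⟨w, hw, -, hb⟩ := b z (mem_cyc.2 ⟨hz, hdz⟩)
  refine ⟨0, zero_mem _, w, hw, ?_⟩
  rw [map_zero, sub_zero]
  exact hb

theorem tr (φ : G →+ G') (D : Op G) (D' : Op G') (L L' : Lat G) (M M' : Lat G') (e : ℤ)
    (ε : ℤˣ) (p : Pair D L L') (p' : Pair D' M M') (c : Cl R L) (c' : Cl R M')
    (hφ : ∀ (c : R) x, φ (c • x) = c • φ x) (h1 : ∀ j, ∀ x ∈ L j, φ x ∈ M (j + e))
    (h2 : ∀ j, ∀ y ∈ M (j + e), ∃ x ∈ L j, y - φ x ∈ M' (j + e))
    (h3 : ∀ j, ∀ x ∈ L j, φ x ∈ M' (j + e) ↔ x ∈ L' j)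
    (h4 : ∀ j, ∀ x ∈ L j, φ (D x) = (ε : ℤ) • D' (φ x)) (j : ℤ) :
    FG R D L L' j ↔ FG R D' M M' (j + e) := by
  classical
  have hε : (ε : ℤ) * ε = 1 := by
    rw [← Units.val_mul, Int.units_mul_self, Units.val_one]
  have h5 : ∀ j, ∀ x ∈ L j, D' (φ x) = (ε : ℤ) • φ (D x) := fun j x hx => by
    rw [h4 j x hx, smul_smul, hε, one_smul]
  have e1 : j + 1 + e = j + e + 1 := by ring
  have e2 : j - 1 + e = j + e - 1 := by ring
  have h6 : ∀ x ∈ L j, D x ∈ L' (j + 1) → D' (φ x) ∈ M' (j + e + 1) := fun x hx hd => by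
    rw [h5 j x hx, ← e1]
    exact zsmul_mem ((h3 _ _ (p.le _ hd)).2 hd) _
  have h7 : ∀ x ∈ L j, ∀ y, D' y ∈ M' (j + e + 1) → y - φ x ∈ M' (j + e) →
      D x ∈ L' (j + 1) := fun x hx y hy hxy => by
    refine (h3 _ _ (p.st _ _ hx)).1 ?_
    rw [h4 j x hx, e1]
    refine zsmul_mem ?_ _
    have := sub_mem hy (p'.st' _ _ hxy)
    rwa [map_sub, sub_sub_cancel] at this
  constructor
  · rintro ⟨s, a, b⟩
    refine ⟨s.image φ, fun y hy => ?_, fun y hy hdy => ?_⟩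
    · obtain ⟨x, hx, rfl⟩ := mem_image.1 hy
      exact ⟨h1 _ _ (a x hx).1, h6 x (a x hx).1 (a x hx).2⟩
    · obtain ⟨x, hx, hxy⟩ := h2 j y hy
      obtain ⟨y1, hy1, w, hw, hh⟩ := b x hx (h7 x hx y hdy hxy)
      refine ⟨(ε : ℤ) • φ y1, zsmul_mem (e2 ▸ h1 _ _ hy1) _, φ w, map_span φ hφ s hw, ?_⟩
      have := add_mem hxy ((h3 _ _ (p.le _ hh)).2 hh)
      rw [map_sub, map_sub, h4 _ _ hy1] at this
      rw [map_zsmul]
      convert this using 1
      abel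
  · rintro ⟨s, a, b⟩
    choose! g hg1 hg2 using h2 j
    refine ⟨s.image g, fun x hx => ?_, fun x hx hdx => ?_⟩
    · obtain ⟨y, hy, rfl⟩ := mem_image.1 hx
      exact ⟨hg1 y (a y hy).1, h7 _ (hg1 y (a y hy).1) y (a y hy).2 (hg2 y (a y hy).1)⟩
    · obtain ⟨y1, hy1, w', hw', hh⟩ := b (φ x) (h1 _ _ hx) (h6 x hx hdx)
      have hsp : ∀ w' ∈ Submodule.span R (s : Set G'),
          ∃ w ∈ Submodule.span R ((s.image g : Finset G) : Set G),
            w ∈ L j ∧ w' - φ w ∈ M' (j + e) := by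
        intro w' hw'
        induction hw' using Submodule.span_induction with
        | mem y hy =>
          exact ⟨g y, Submodule.subset_span (mem_coe.2 (mem_image_of_mem g hy)),
            hg1 y (a y hy).1, hg2 y (a y hy).1⟩
        | zero => exact ⟨0, zero_mem _, zero_mem _, by rw [map_zero, sub_zero]; exact zero_mem _⟩
        | add u v _ _ hu hv =>
          obtain ⟨u', a1, a2, a3⟩ := hu
          obtain ⟨v', b1, b2, b3⟩ := hv
          refine ⟨u' + v', add_mem a1 b1, add_mem a2 b2, ?_⟩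
          rw [map_add, add_sub_add_comm]
          exact add_mem a3 b3
        | smul r u _ hu =>
          obtain ⟨u', a1, a2, a3⟩ := hu
          refine ⟨r • u', Submodule.smul_mem _ _ a1, c _ _ _ a2, ?_⟩
          rw [hφ, ← smul_sub]
          exact c' _ _ _ a3
      obtain ⟨w, hw, hwL, hww⟩ := hsp w' hw'
      obtain ⟨x1, hx1, hxy⟩ := h2 (j - 1) y1 (e2 ▸ hy1)
      rw [e2] at hxy
      refine ⟨(ε : ℤ) • x1, zsmul_mem hx1 _, w, hw, (h3 _ _ ?_).1 ?_⟩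
      · exact sub_mem (sub_mem hx hwL) (p.stp _ (zsmul_mem hx1 _))
      · have := add_mem (add_mem hh hww) (p'.stp' _ hxy)
        rw [map_sub, h5 _ _ hx1] at this
        rw [map_sub, map_sub, map_zsmul, map_zsmul]
        convert this using 1
        abel

theorem ds (E : Type) [Fintype E] (cf : E → G' →+ G) (mo : E → G →+ G') (D : E → Op G)
    (D' : Op G') (L L' : E → Lat G) (M M' : Lat G') (sh : E → ℤ) (j : ℤ)
    (h1 : ∀ e (c : R) y, mo e (c • y) = c • mo e y) (h2 : ∀ x, x = ∑ e, mo e (cf e x))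
    (h3 : ∀ e x, cf e (D' x) = D e (cf e x)) (h4 : ∀ e y, D' (mo e y) = mo e (D e y))
    (h5 : ∀ e i, ∀ x ∈ M i, cf e x ∈ L e (i - sh e))
    (h6 : ∀ e i, ∀ x ∈ M' i, cf e x ∈ L' e (i - sh e))
    (h7 : ∀ e i, ∀ y ∈ L e (i - sh e), mo e y ∈ M i)
    (h8 : ∀ e i, ∀ y ∈ L' e (i - sh e), mo e y ∈ M' i)
    (h9 : ∀ e, FG R (D e) (L e) (L' e) (j - sh e)) : FG R D' M M' j := by
  classical
  choose s a b using h9
  have e1 : ∀ e, j + 1 - sh e = j - sh e + 1 := fun e => by ring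
  have e2 : ∀ e, j - 1 - sh e = j - sh e - 1 := fun e => by ring
  refine ⟨univ.biUnion fun e => (s e).image (mo e), fun x hx => ?_, fun x hx hdx => ?_⟩
  · obtain ⟨e, -, hx⟩ := mem_biUnion.1 hx
    obtain ⟨y, hy, rfl⟩ := mem_image.1 hx
    refine ⟨h7 e j y (a e y hy).1, ?_⟩
    rw [h4]
    exact h8 e _ _ (e1 e ▸ (a e y hy).2)
  · choose y hy w hw hh using fun e => b e (cf e x) (h5 e j x hx) (by
      rw [← h3, ← e1]
      exact h6 e _ _ hdx)
    refine ⟨∑ e, mo e (y e), sum_mem fun e _ => h7 e _ _ (e2 e ▸ hy e), ∑ e, mo e (w e),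
      sum_mem fun e _ => ?_, ?_⟩
    · refine Submodule.span_mono (coe_subset.2 ?_) (map_span (mo e) (h1 e) (s e) (hw e))
      exact subset_biUnion_of_mem (fun e => (s e).image (mo e)) (mem_univ e)
    · have : x - ∑ e, mo e (w e) - D' (∑ e, mo e (y e)) =
          ∑ e, mo e (cf e x - w e - D e (y e)) := by
        simp only [map_sub, sum_sub_distrib, map_sum, h4]
        rw [← h2]
      rw [this]
      exact sum_mem fun e _ => h8 e j _ (hh e)

end FgX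

theorem rowFg : SFg := fun _ _ _ _ _ _ =>
  { mid := FgX.mid
    right := FgX.right
    left := FgX.left
    fin := fun D L L' j s hD c c' h _ _ => FgX.fin D L L' j s hD c c' h
    tr := fun _ _ _ => FgX.tr
    ds := fun E _ _ _ _ => FgX.ds E }

end Pool.Agent.MP_ee8c61_ag.H59
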