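import Pool.Agent.MP_ee8c61_ag.H59.SpecA

/-! Finite generation over the base when the generators act as constants. -/

namespace Pool.Agent.MP_ee8c61_ag.H59

open Finset

theorem rowFgk : SFgk := by
  intro k Ω G m _ _ _ _ _ _ _ x x0 D L L' j _ hl hL hL' ⟨s, h1, h2⟩ hN
  have c1 : ∀ i, ∀ r ∈ Algebra.adjoin k (Set.range x), ∀ y ∈ L i, r • y ∈ L i :=
    fun i r hr => hL i ⟨r, hr⟩
  have c2 : ∀ i, ∀ r ∈ Algebra.adjoin k (Set.range x), ∀ y ∈ L' i, r • y ∈ L' i :=
    fun i r hr => hL' i ⟨r, hr⟩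
  have key : ∀ r ∈ Algebra.adjoin k (Set.range x), ∃ c : k, ∀ u ∈ L j, D u ∈ L' (j + 1) →
      ∃ y ∈ L (j - 1), r • u - algebraMap k Ω c • u - D y ∈ L' j := fun r hr => by
    induction hr using Algebra.adjoin_induction with
    | mem _ h =>
      obtain ⟨l, rfl⟩ := h
      exact ⟨x0 l, fun u hu hd => by simpa only [mu_apply, sub_smul] using hN l u hu hd⟩
    | algebraMap c => exact ⟨c, fun u _ _ => ⟨0, zero_mem _, by simp⟩⟩
    | add a b _ _ ha hb =>
      obtain ⟨c, hc⟩ := ha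
      obtain ⟨d, hd⟩ := hb
      refine ⟨c + d, fun u hu h => ?_⟩
      obtain ⟨y, a1, a2⟩ := hc u hu h
      obtain ⟨z, b1, b2⟩ := hd u hu h
      refine ⟨y + z, add_mem a1 b1, ?_⟩
      convert add_mem a2 b2 using 1
      simp only [map_add, add_smul]
      abel
    | mul a b a0 _ ha hb =>
      obtain ⟨c, hc⟩ := ha
      obtain ⟨d, hd⟩ := hb
      refine ⟨c * d, fun u hu h => ?_⟩
      obtain ⟨y, a1, a2⟩ := hc u hu h
      obtain ⟨z, b1, b2⟩ := hd u hu h
      refine ⟨algebraMap k Ω d • y + a • z, add_mem (c1 _ _ (Subalgebra.algebraMap_mem _ d) _ a1)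
        (c1 _ _ a0 _ b1), ?_⟩
      convert add_mem (c2 _ _ (Subalgebra.algebraMap_mem _ d) _ a2) (c2 _ _ a0 _ b2) using 1
      rw [map_add, hl, hl, map_mul]
      module
  refine ⟨s, h1, fun u hu hd => ?_⟩
  obtain ⟨y, a1, w, a2, a3⟩ := h2 u hu hd
  obtain ⟨f, -, rfl⟩ := Submodule.mem_span_finset.1 a2
  choose c hc using fun i => key _ (f i).2
  choose! z b1 b2 using fun i hi => hc i i (h1 i hi).1 (h1 i hi).2
  refine ⟨y + ∑ i ∈ s, z i, add_mem a1 (sum_mem b1), ∑ i ∈ s, c i • i,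
    sum_mem fun i hi => Submodule.smul_mem _ _ (Submodule.subset_span hi), ?_⟩
  convert add_mem a3 (sum_mem b2) using 1
  simp only [map_add, map_sum, sum_sub_distrib, algebraMap_smul, Subalgebra.smul_def]
  abel

end Pool.Agent.MP_ee8c61_ag.H59
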