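import Pool.Agent.MP_ee8c61_ag.H59.SpecA

/-!
The filtration of a Koszul complex by its terms.
-/

namespace Pool.Agent.MP_ee8c61_ag.H59

open Finset

namespace FiltX

/-- `L / L'` is the complex `N / N'` shifted by `c`. -/
structure Pc {G M : Type} [AddCommGroup G] [AddCommGroup M] (D : Op G) (L L' : Lat G) (d : Op M)
    (N N' : Lat M) (φ : G → M) (ψ : M → G) (c ε : ℤ) : Prop where
  pair : Pair D L L'
  ee : ε * ε = 1
  sub : ∀ x y, φ (x - y) = φ x - φ y
  mem : ∀ j, ∀ x ∈ L j, φ x ∈ N (j - c)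
  iff : ∀ j, ∀ x ∈ L j, x ∈ L' j ↔ φ x ∈ N' (j - c)
  sec : ∀ j, ∀ y ∈ N (j - c), ψ y ∈ L j
  inv : ∀ y, φ (ψ y) = y
  cm : ∀ j, ∀ x ∈ L j, φ (D x) - ε • d (φ x) ∈ N' (j + 1 - c)

section Pc

variable {G M : Type} [AddCommGroup G] [AddCommGroup M] {D : Op G} {L L' : Lat G} {d : Op M}
  {N N' : Lat M} {φ : G → M} {ψ : M → G} {c ε : ℤ} (h : Pc D L L' d N N' φ ψ c ε)
include h

theorem Pc.cyc {j : ℤ} {x : G} (hx : x ∈ L j) : D x ∈ L' (j + 1) ↔ d (φ x) ∈ N' (j - c + 1) := by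
  rw [h.iff _ _ (h.pair.st _ _ hx), ← sub_add_cancel (φ (D x)) (ε • d (φ x)),
    AddSubgroup.add_mem_cancel_left _ (h.cm j x hx), show j - c + 1 = j + 1 - c by ring]
  refine ⟨fun a => ?_, fun a => zsmul_mem a _⟩
  simpa [smul_smul, h.ee] using zsmul_mem a ε

theorem Pc.bd {j : ℤ} {x : G} (hx : x ∈ L j) {y : M} (hy : y ∈ N (j - c - 1))
    (e : φ x - d y ∈ N' (j - c)) : ∃ z ∈ L (j - 1), x - D z ∈ L' j := by
  have h1 : ψ (ε • y) ∈ L (j - 1) :=
    h.sec _ _ (zsmul_mem (by rwa [show j - 1 - c = j - c - 1 by ring]) _)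
  refine ⟨_, h1, (h.iff _ _ (sub_mem hx (h.pair.stp _ h1))).2 ?_⟩
  have h2 := h.cm _ _ h1
  rw [h.inv, map_zsmul, smul_smul, h.ee, one_smul, sub_add_cancel] at h2
  rw [h.sub]
  simpa using sub_mem e h2

theorem Pc.null {g : Op M} {g' : Op G} (hg : ∀ x, φ (g' x) = g (φ x)) (k : Keeps g' L L) {j : ℤ}
    (a : Null d N N' N N' g (j - c)) : Null D L L' L L' g' j := fun x hx e => by
  obtain ⟨y, hy, e'⟩ := a _ (h.mem _ _ hx) ((h.cyc hx).1 e)
  exact h.bd (k _ _ hx) hy (by rwa [hg])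

theorem Pc.van {j : ℤ} (a : Van d N N' (j - c)) : Van D L L' j := fun x hx e => by
  obtain ⟨y, hy, e'⟩ := a _ (h.mem _ _ hx) ((h.cyc hx).1 e)
  exact h.bd hx hy e'

theorem Pc.fg {R : Type} [CommRing R] [Module R G] [Module R M] (p : M →ₗ[R] G)
    (hp : ∀ y, ψ y = p y) (cl : Cl R N) {j : ℤ} (a : FG R d N N' (j - c)) : FG R D L L' j := by
  classical
  obtain ⟨s, h1, h2⟩ := a
  refine ⟨s.image p, fun x hx => ?_, fun x hx e => ?_⟩
  · obtain ⟨y, hy, rfl⟩ := mem_image.1 hx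
    have := h.sec _ _ (h1 y hy).1
    rw [← hp]
    exact ⟨this, (h.cyc this).2 (by rw [h.inv]; exact (h1 y hy).2)⟩
  · obtain ⟨y, hy, w, hw, e'⟩ := h2 _ (h.mem _ _ hx) ((h.cyc hx).1 e)
    have h3 : w ∈ N (j - c) := by
      clear e'
      induction hw using Submodule.span_induction with
      | mem z hz => exact (h1 z hz).1
      | zero => exact zero_mem _
      | add _ _ _ _ a b => exact add_mem a b
      | smul r _ _ a => exact cl _ r _ a
    obtain ⟨z, hz, e2⟩ := h.bd (sub_mem hx (h.sec _ _ h3)) hy (by rwa [h.sub, h.inv])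
    refine ⟨z, hz, ψ w, ?_, e2⟩
    rw [hp, coe_image, ← Submodule.map_span]
    exact Submodule.mem_map_of_mem hw

end Pc

variable {ι M : Type} [LinearOrder ι] [AddCommGroup M]

/-- The family that is `F` on `U` and `F'` elsewhere. -/
def fu (F F' : Finset ι → Lat M) (U : Finset (Finset ι)) : Finset ι → Lat M :=
  fun σ => if σ ∈ U then F σ else F' σ

/-- Families of subsets of `S` that are closed under adding elements. -/
def Up (S : Finset ι) (U : Finset (Finset ι)) : Prop :=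
  ∀ σ ∈ U, σ ⊆ S ∧ ∀ i ∈ S, i ∉ σ → insert i σ ∈ U

theorem ind {S : Finset ι} {P : Finset (Finset ι) → Prop} (h0 : P ∅)
    (h1 : ∀ U τ, Up S U → Up S (U.erase τ) → τ ∈ U → (∀ σ ∈ U, τ.card ≤ σ.card) →
      P (U.erase τ) → P U) : P S.powerset := by
  suffices h : ∀ U, Up S U → P U from
    h _ fun σ hσ => ⟨mem_powerset.1 hσ, fun i hi _ =>
      mem_powerset.2 (insert_subset hi (mem_powerset.1 hσ))⟩
  intro U
  induction U using Finset.strongInduction with
  | H U ih =>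
    intro hU
    rcases U.eq_empty_or_nonempty with rfl | hne
    · exact h0
    obtain ⟨τ, hτ, hm⟩ := exists_min_image U card hne
    have h2 : Up S (U.erase τ) := fun σ hσ => by
      have := mem_of_mem_erase hσ
      refine ⟨(hU σ this).1, fun i hi hi' => mem_erase.2 ⟨fun e => ?_, (hU σ this).2 i hi hi'⟩⟩
      have h3 := hm σ this
      rw [← e, card_insert_of_notMem hi'] at h3
      omega
    exact h1 U τ hU h2 hτ hm (ih _ (erase_ssubset hτ) h2)

variable {d : Op M} {t : ι → Op M} {S : Finset ι} {F F' : Finset ι → Lat M}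

theorem fu_empty : fu F F' ∅ = F' := by
  funext σ
  simp [fu]

theorem kl_top : kl S (fu F F' S.powerset) = kl S F := by
  unfold kl
  congr 1
  funext σ
  by_cases h : σ ⊆ S <;> simp [fu, h]

theorem keeps (h : KOK d t S F F') {U : Finset (Finset ι)} (hU : Up S U) :
    ∀ i ∈ S, ∀ σ, i ∉ σ → Keeps (t i) (fu F F' U σ) (fu F F' U (insert i σ)) := by
  intro i hi σ hσ j x hx
  unfold fu at hx ⊢
  by_cases h1 : σ ∈ U
  · rw [if_pos h1] at hx
    rw [if_pos ((hU σ h1).2 i hi hσ)]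
    exact h.kp i hi σ hσ j x hx
  · rw [if_neg h1] at hx
    split_ifs
    · exact (h.pair _).le _ (h.kp' i hi σ hσ j x hx)
    · exact h.kp' i hi σ hσ j x hx

theorem kok (h : KOK d t S F F') {U U' : Finset (Finset ι)} (hU : Up S U) (hU' : Up S U')
    (le : U' ⊆ U) : KOK d t S (fu F F' U) (fu F F' U') := by
  refine ⟨fun σ => ?_, h.cd, h.ct, keeps h hU, keeps h hU'⟩
  have p := h.pair σ
  unfold fu
  split_ifs with h1 h2 h2
  · exact ⟨p.dd, fun _ => le_rfl, p.st, p.st⟩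
  · exact p
  · exact absurd (le h2) h1
  · exact ⟨p.dd, fun _ => le_rfl, p.st', p.st'⟩

theorem kok' (h : KOK d t S F F') {U : Finset (Finset ι)} (hU : Up S U) :
    KOK d t S (fu F F' U) F' := by
  simpa only [fu_empty] using kok h hU (U' := ∅) (fun _ h => absurd h (notMem_empty _))
    (empty_subset _)

theorem pc (hC : SCar) (hK : SCone) (h : KOK d t S F F') {U : Finset (Finset ι)} {τ : Finset ι}
    (hU : Up S U) (hU' : Up S (U.erase τ)) (hτ : τ ∈ U) (hm : ∀ σ ∈ U, τ.card ≤ σ.card) :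
    Pc (kos d t S) (kl S (fu F F' U)) (kl S (fu F F' (U.erase τ))) d (F τ) (F' τ)
      (fun γ => γ τ) (fun y => Pi.single τ y) τ.card ((-1) ^ τ.card) := by
  have hS := (hU τ hτ).1
  refine ⟨(hK ι M).pair _ _ _ _ _ (kok h hU hU' (erase_subset _ _)), by simp [← mul_pow],
    fun _ _ => rfl, fun j x hx => ?_, fun j x hx => ?_, fun j y hy => ?_, fun y => by simp,
    fun j x hx => ?_⟩
  · simpa [fu, hτ] using (((mem_kl _ _ _ _).1 hx) τ).1 hS
  · rw [mem_kl] at hx ⊢
    refine ⟨fun a => by simpa [fu] using (a τ).1 hS, fun a σ => ⟨fun hσ => ?_, (hx σ).2⟩⟩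
    by_cases e : σ = τ
    · subst e
      simpa [fu] using a
    · simpa [fu, e] using (hx σ).1 hσ
  · rw [mem_kl]
    intro σ
    by_cases e : σ = τ
    · subst e
      simpa [fu, hτ, hS] using hy
    · simp [Pi.single_eq_of_ne e]
  · rw [(hC ι M).kos_apply, add_sub_cancel_left]
    refine sum_mem fun i hi => zsmul_mem ?_ _
    obtain ⟨h1, h2⟩ := mem_inter.1 hi
    have h3 := (((mem_kl _ _ _ _).1 hx) (τ.erase i)).1 ((erase_subset _ _).trans hS)
    have h4 := card_erase_add_one h2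
    rw [fu, if_neg fun a => by have := hm _ a; omega] at h3
    have h5 := h.kp' i h1 _ (notMem_erase i τ) _ _ h3
    rw [insert_erase h2] at h5
    rwa [show j + 1 - (τ.card : ℤ) = j - (τ.erase i).card by omega]

theorem fu_all {P : Finset ι → Lat M → Prop} (h : ∀ σ, P σ (F σ)) (h' : ∀ σ, P σ (F' σ))
    (U : Finset (Finset ι)) (σ : Finset ι) : P σ (fu F F' U σ) := by
  unfold fu
  split_ifs
  exacts [h σ, h' σ]

theorem cl_kl {R : Type} [CommRing R] [Module R M] (h : ∀ σ, Cl R (F σ)) : Cl R (kl S F) := by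
  intro j c x hx
  rw [mem_kl] at hx ⊢
  exact fun σ => ⟨fun a => h σ _ c _ ((hx σ).1 a), fun a => by simp [(hx σ).2 a]⟩

end FiltX

open FiltX in
theorem rowFilt : OfFilt := by
  intro hC hX hF hK ι M _ _
  refine ⟨fun d t S F F' j h a => ?_, fun d g t S F F' h c1 c2 k k' a j => ?_,
    fun R _ _ _ d t S F F' j h l1 l2 c c' a => ?_⟩
  · rw [← kl_top (F' := F')]
    refine ind (P := fun U => Van (kos d t S) (kl S (fu F F' U)) (kl S F') j) ?_
      fun U τ hU hU' hτ hm ih => ?_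
    · rw [fu_empty]
      exact fun x hx _ => ⟨0, zero_mem _, by simpa using hx⟩
    · have p := pc hC hK h hU hU' hτ hm
      exact (hX _).mid _ _ _ _ _ p.pair ((hK ι M).pair _ _ _ _ _ (kok' h hU')) ih
        (p.van (a τ (hU τ hτ).1))
  · rw [← kl_top (F' := F'), ← card_powerset]
    have cm := (hC ι M).kos_ev d g t S c1 c2
    refine ind (P := fun U => Null (kos d t S) (kl S (fu F F' U)) (kl S F') (kl S (fu F F' U))
      (kl S F') (ev g ^ U.card) j) ?_ fun U τ hU hU' hτ hm ih => ?_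
    · rw [fu_empty]
      exact fun x hx _ => ⟨0, zero_mem _, by simpa using hx⟩
    · have p := pc hC hK h hU hU' hτ hm
      have k1 : Keeps (ev g) (kl S (fu F F' U)) (kl S (fu F F' U)) :=
        (hK ι M).keeps _ _ _ _ fun σ _ => fu_all (P := fun _ L => Keeps g L L) k k' U σ
      have k2 : ∀ n : ℕ, Keeps (ev g ^ n) (kl S (fu F F' U)) (kl S (fu F F' U)) := fun n => by
        induction n with
        | zero => exact fun _ _ hx => hx
        | succ n ih => exact fun j x hx => by rw [pow_succ]; exact ih _ _ (k1 _ _ hx)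
      rw [← card_erase_add_one hτ, pow_succ]
      exact (hX _).ext _ _ _ _ _ _ _ p.pair ((hK ι M).pair _ _ _ _ _ (kok' h hU')) cm
        (cm.pow_left _) ((hK ι M).keeps _ _ _ _ fun σ _ => k' σ) (k2 _)
        (p.null (fun _ => rfl) k1 (a τ (hU τ hτ).1 _)) ih
  · rw [← kl_top (F' := F')]
    have l3 : Lin R (kos d t S) := fun r x => by
      funext σ
      simp only [(hC ι M).kos_apply, Pi.smul_apply, smul_add, smul_sum, l1 r]
      rw [smul_comm]
      congr 1
      exact sum_congr rfl fun i hi => by rw [l2 i (mem_inter.1 hi).1, smul_comm]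
    have c2 : ∀ U, Cl R (kl S (fu F F' U)) := fun U =>
      cl_kl (fu_all (P := fun _ L => Cl R L) c c' U)
    refine ind (P := fun U => FG R (kos d t S) (kl S (fu F F' U)) (kl S F') j) ?_
      fun U τ hU hU' hτ hm ih => ?_
    · rw [fu_empty]
      exact ⟨∅, by simp, fun x hx _ => ⟨0, zero_mem _, 0, zero_mem _, by simpa using hx⟩⟩
    · have p := pc hC hK h hU hU' hτ hm
      exact (hF R _).mid _ _ _ _ _ p.pair ((hK ι M).pair _ _ _ _ _ (kok' h hU')) l3 (c2 _) (c2 _)
        (cl_kl c') ih (p.fg (LinearMap.single R (fun _ => M) τ) (fun _ => rfl) (c τ)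
          (a τ (hU τ hτ).1))

end Pool.Agent.MP_ee8c61_ag.H59
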