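import Pool.Agent.MP_ee8c61_ag.H59.SpecB

/-!
Basic identities for differential forms in a frame.
-/

namespace Pool.Agent.MP_ee8c61_ag.H59

open Finset

namespace FoX

variable {Ω : Type} [CommRing Ω] {n : ℕ}

theorem lin_ep (l : Fin n) : Lin Ω (ep l : Op (Fm n Ω)) := fun c x => by
  funext σ
  simp only [ep_apply, Pi.smul_apply]
  split_ifs
  · rw [smul_comm]
  · rw [smul_zero]

theorem lin_io (l : Fin n) : Lin Ω (io l : Op (Fm n Ω)) := fun c x => by
  funext σ
  simp only [io_apply, Pi.smul_apply]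
  split_ifs
  · rw [smul_zero]
  · rw [smul_comm]

theorem we_app (α : Fin n → Ω) (w : Fm n Ω) : we α w = ∑ k, α k • ep k w := by
  rw [we, op_sum]
  rfl

theorem co_app (α : Fin n → Ω) (w : Fm n Ω) : co α w = ∑ k, α k • io k w := by
  rw [co, op_sum]
  rfl

theorem dR_app (R : Fin n → Op Ω) (w : Fm n Ω) : dR R w = ∑ k, ep k (ev (R k) w) := by
  rw [dR, kos, op_add, op_sum]
  have : (od 0 : Op (Fm n Ω)) w = 0 := by
    funext σ
    simp
  rw [this, zero_add]
  rfl

/-- A linear combination of operators with scalar coefficients. -/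
def cb (E : Fin n → Op (Fm n Ω)) (α : Fin n → Ω) : Op (Fm n Ω) := ∑ k, mu (Fm n Ω) (α k) * E k

theorem cb_app (E : Fin n → Op (Fm n Ω)) (α : Fin n → Ω) (w : Fm n Ω) :
    cb E α w = ∑ k, α k • E k w := by
  rw [cb, op_sum]
  rfl

theorem cb_lin {E : Fin n → Op (Fm n Ω)} (hE : ∀ l, Lin Ω (E l)) (α : Fin n → Ω) :
    Lin Ω (cb E α) := fun c x => by
  simp only [cb_app, smul_sum, hE _ c x, smul_comm c]

theorem lin_sum {g : Op (Fm n Ω)} (hg : Lin Ω g) (α : Fin n → Ω) (y : Fin n → Fm n Ω) :
    g (∑ k, α k • y k) = ∑ k, α k • g (y k) := by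
  rw [map_sum]
  exact sum_congr rfl fun k _ => hg _ _

theorem cb_anti {E F : Fin n → Op (Fm n Ω)} (hE : ∀ l, Lin Ω (E l)) (hF : ∀ l, Lin Ω (F l))
    (α β : Fin n → Ω) (w : Fm n Ω) :
    (cb E α * cb F β + cb F β * cb E α) w =
      ∑ k, ∑ l, (α k * β l) • (E k * F l + F l * E k) w := by
  simp only [op_add, op_mul, cb_app, lin_sum (hE _), lin_sum (hF _), smul_sum, smul_add,
    sum_add_distrib, smul_smul]
  congr 1
  rw [sum_comm]
  simp only [mul_comm]

theorem cb_sq {E : Fin n → Op (Fm n Ω)} (hE : ∀ l, Lin Ω (E l))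
    (h : ∀ i j, E i * E j + E j * E i = 0) (h0 : ∀ i, E i * E i = 0) (α : Fin n → Ω) :
    cb E α * cb E α = 0 := by
  refine op_ext fun w => ?_
  simp only [op_mul, cb_app, lin_sum (hE _), smul_sum, smul_smul, op_zero]
  rw [← sum_product']
  refine sum_involution (fun p _ => p.swap) (fun p _ => ?_) (fun p _ hp hh => hp ?_)
    (fun p _ => by simp) fun p _ => rfl
  · have := DFunLike.congr_fun (h p.1 p.2) w
    simp only [op_add, op_mul, op_zero] at this
    rw [Prod.fst_swap, Prod.snd_swap, mul_comm (α p.2), ← smul_add, this, smul_zero]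
  · have h1 : p.2 = p.1 := congrArg Prod.fst hh
    have := DFunLike.congr_fun (h0 p.1) w
    simp only [op_mul, op_zero] at this
    rw [h1, this, smul_zero]

theorem cb_add (E : Fin n → Op (Fm n Ω)) (α β : Fin n → Ω) : cb E (α + β) = cb E α + cb E β :=
  op_ext fun w => by simp only [cb_app, op_add, Pi.add_apply, add_smul, sum_add_distrib]

theorem cb_smul (E : Fin n → Op (Fm n Ω)) (g : Ω) (α : Fin n → Ω) :
    cb E (g • α) = mu _ g * cb E α :=
  op_ext fun w => by
    simp only [cb_app, op_mul, mu_apply, Pi.smul_apply, smul_eq_mul, mul_smul, smul_sum]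

theorem cb_sum (E : Fin n → Op (Fm n Ω)) {κ : Type} (s : Finset κ) (α : κ → Fin n → Ω) :
    cb E (∑ i ∈ s, α i) = ∑ i ∈ s, cb E (α i) :=
  op_ext fun w => by
    simp only [cb_app, op_sum, Finset.sum_apply, sum_smul]
    exact sum_comm

theorem cb_single (E : Fin n → Op (Fm n Ω)) (l : Fin n) :
    cb E (Pi.single l (1 : Ω) : Fin n → Ω) = E l :=
  op_ext fun w => by
    rw [cb_app, sum_eq_single l]
    · simp
    · intro b _ hb
      simp [hb]
    · simp

theorem pd_app (p : ℤ) (w : Fm n Ω) (σ : Finset (Fin n)) :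
    pd n p w σ = if (σ.card : ℤ) = p then w σ else 0 := by
  rw [pd, evs_apply]
  split_ifs <;> rfl

theorem lin_pd (p : ℤ) : Lin Ω (pd n p : Op (Fm n Ω)) := fun c x => by
  funext σ
  simp only [pd_app, Pi.smul_apply]
  split_ifs <;> simp

theorem pd_ep (l : Fin n) (p : ℤ) (w : Fm n Ω) : ep l (pd n p w) = pd n (p + 1) (ep l w) := by
  funext σ
  simp only [pd_app, ep_apply]
  by_cases h : l ∈ σ
  · have := card_erase_add_one h
    have h2 : ((σ.erase l).card : ℤ) = p ↔ (σ.card : ℤ) = p + 1 := by omega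
    simp only [h, if_true, h2]
    split_ifs <;> simp
  · simp [h]

theorem pd_io (l : Fin n) (p : ℤ) (w : Fm n Ω) : io l (pd n (p + 1) w) = pd n p (io l w) := by
  funext σ
  simp only [pd_app, io_apply]
  by_cases h : l ∈ σ
  · simp [h]
  · have := card_insert_of_notMem h
    have h2 : ((insert l σ).card : ℤ) = p + 1 ↔ (σ.card : ℤ) = p := by omega
    simp only [h, if_false, h2]
    split_ifs <;> simp

theorem pd_ev (T : Op Ω) (p : ℤ) (w : Fm n Ω) : ev T (pd n p w) = pd n p (ev T w) := by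
  funext σ
  simp only [pd_app, ev_apply]
  split_ifs <;> simp

theorem card_le (σ : Finset (Fin n)) : σ.card ≤ n := by
  simpa using card_le_univ σ

theorem pd_gr : Grading (pd n : ℤ → Op (Fm n Ω)) where
  orth p q := op_ext fun w => by
    funext σ
    simp only [op_mul, pd_app]
    by_cases h : p = q
    · subst h
      rw [if_pos rfl, pd_app]
      split_ifs <;> rfl
    · rw [if_neg h]
      split_ifs with h1 h2
      · exact absurd (h1.symm.trans h2) h
      · rfl
      · rfl
  fin w := by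
    refine ⟨Icc 0 n, fun p hp => ?_, ?_⟩
    · funext σ
      have := card_le σ
      rw [pd_app, if_neg, Pi.zero_apply]
      rintro rfl
      exact hp (mem_Icc.2 ⟨by omega, by omega⟩)
    · funext σ
      have := card_le σ
      simp only [Finset.sum_apply, pd_app]
      rw [sum_ite_eq, if_pos (mem_Icc.2 ⟨by omega, by omega⟩)]

theorem mem_fl' (N : AddSubgroup Ω) (p : ℤ) (w : Fm n Ω) :
    w ∈ fl n N p ↔ ∀ σ, w σ ∈ N ∧ ((σ.card : ℤ) ≠ p → w σ = 0) := by
  rw [fl, mem_lat]
  refine forall_congr' fun σ => ?_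
  rw [mem_deg0, sub_ne_zero, ne_comm]

theorem pd_fix (p : ℤ) (w : Fm n Ω) :
    pd n p w = w ↔ ∀ σ : Finset (Fin n), (σ.card : ℤ) ≠ p → w σ = 0 := by
  rw [funext_iff]
  refine forall_congr' fun σ => ?_
  rw [pd_app]
  by_cases h : (σ.card : ℤ) = p
  · simp [h]
  · simp [h, eq_comm]

theorem mem_fl (N : AddSubgroup Ω) (p : ℤ) (w : Fm n Ω) :
    w ∈ fl n N p ↔ (∀ σ, w σ ∈ N) ∧ pd n p w = w := by
  rw [mem_fl', pd_fix, forall_and]

theorem ep_mem {N : AddSubgroup Ω} {w : Fm n Ω} (h : ∀ σ, w σ ∈ N) (l : Fin n)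
    (σ : Finset (Fin n)) : ep l w σ ∈ N := by
  rw [ep_apply]
  split_ifs
  · exact zsmul_mem (h _) _
  · exact zero_mem _

theorem io_mem {N : AddSubgroup Ω} {w : Fm n Ω} (h : ∀ σ, w σ ∈ N) (l : Fin n)
    (σ : Finset (Fin n)) : io l w σ ∈ N := by
  rw [io_apply]
  split_ifs
  · exact zero_mem _
  · exact zsmul_mem (h _) _

theorem list_mem (K : Lat (Fm n Ω)) (hK : ∀ l, Maps (ep l) K K 1) (x : Fm n Ω) (hx : x ∈ K 0)
    (L : List (Fin n)) : ((L.map ep).prod : Op (Fm n Ω)) x ∈ K L.length := by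
  induction L with
  | nil => simpa using hx
  | cons a L ih =>
    rw [List.map_cons, List.prod_cons, op_mul, List.length_cons, Nat.cast_succ]
    exact hK a _ _ ih

theorem fl_le (hC : Car (Fin n) Ω) (N : AddSubgroup Ω) (K : Lat (Fm n Ω))
    (h0 : ∀ g ∈ N, vac n g ∈ K 0) (hK : ∀ l, Maps (ep l) K K 1) (p : ℤ) : fl n N p ≤ K p := by
  intro w hw
  rw [mem_fl'] at hw
  rw [← univ_sum_single w]
  refine sum_mem fun σ _ => ?_
  by_cases h : (σ.card : ℤ) = p
  · rw [← hC.single, ← h, ← length_sort (s := σ) (· ≤ ·)]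
    exact list_mem K hK _ (h0 _ (hw σ).1) _
  · rw [(hw σ).2 h, Pi.single_zero]
    exact zero_mem _

theorem up_ep {Ω' : Type} [CommRing Ω'] (φ : Ω →+ Ω') (a : Ω) (a' : Ω')
    (h : ∀ g, φ (a * g) = a' * φ g) (l : Fin n) (w : Fm n Ω) :
    up φ (a • ep l w) = a' • ep l (up φ w) := by
  funext σ
  simp only [up_apply, Pi.smul_apply, smul_eq_mul, h, ep_apply]
  split_ifs
  · rw [map_zsmul]
  · rw [map_zero]

theorem up_io {Ω' : Type} [CommRing Ω'] (φ : Ω →+ Ω') (a : Ω) (a' : Ω')
    (h : ∀ g, φ (a * g) = a' * φ g) (l : Fin n) (w : Fm n Ω) :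
    up φ (a • io l w) = a' • io l (up φ w) := by
  funext σ
  simp only [up_apply, Pi.smul_apply, smul_eq_mul, h, io_apply]
  split_ifs
  · rw [map_zero]
  · rw [map_zsmul]

theorem pd_we (α : Fin n → Ω) (p : ℤ) (w : Fm n Ω) :
    we α (pd n p w) = pd n (p + 1) (we α w) := by
  simp only [we_app, lin_sum (lin_pd _), pd_ep]

theorem pd_co (α : Fin n → Ω) (p : ℤ) (w : Fm n Ω) :
    co α (pd n (p + 1) w) = pd n p (co α w) := by
  simp only [co_app, lin_sum (lin_pd _), pd_io]

theorem pd_dR (R : Fin n → Op Ω) (p : ℤ) (w : Fm n Ω) :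
    dR R (pd n p w) = pd n (p + 1) (dR R w) := by
  simp only [dR_app, map_sum, pd_ev, pd_ep]

theorem fl_sup (N N' : AddSubgroup Ω) : fl n (N ⊔ N') = fl n N ⊔ fl n N' := by
  funext p
  refine le_antisymm (fun w hw => ?_) (sup_le (fun w hw => ?_) fun w hw => ?_)
  · rw [mem_fl] at hw
    choose a ha b hb hab using fun σ => AddSubgroup.mem_sup.1 (hw.1 σ)
    have h1 : w = pd n p a + pd n p b := by
      rw [← map_add, ← hw.2]
      congr 1
      funext σ
      exact (hab σ).symm
    have h2 : ∀ (M : AddSubgroup Ω) (c : Fm n Ω), (∀ σ, c σ ∈ M) → pd n p c ∈ fl n M p := by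
      intro M c hc
      rw [mem_fl']
      intro σ
      rw [pd_app]
      split_ifs with h
      · exact ⟨hc σ, fun h' => absurd h h'⟩
      · exact ⟨zero_mem _, fun _ => rfl⟩
    rw [h1]
    exact AddSubgroup.add_mem_sup (h2 _ _ ha) (h2 _ _ hb)
  · rw [mem_fl] at hw ⊢
    exact ⟨fun σ => AddSubgroup.mem_sup_left (hw.1 σ), hw.2⟩
  · rw [mem_fl] at hw ⊢
    exact ⟨fun σ => AddSubgroup.mem_sup_right (hw.1 σ), hw.2⟩

end FoX

open FoX in
theorem rowFo : OfFo := fun hC Ω n _ =>
  have h := hC (Fin n) Ω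
  { we_we := fun α β => op_ext fun w =>
      (cb_anti lin_ep lin_ep α β w).trans (by simp only [h.ee, op_zero, smul_zero, sum_const_zero])
    we_sq := cb_sq lin_ep h.ee h.ee0
    co_co := fun α β => op_ext fun w =>
      (cb_anti lin_io lin_io α β w).trans (by simp only [h.ii, op_zero, smul_zero, sum_const_zero])
    co_sq := cb_sq lin_io h.ii h.ii0
    we_co := fun α v => op_ext fun w => (cb_anti lin_ep lin_io α v w).trans (by
      rw [mu_apply, dotProduct, sum_smul]
      refine sum_congr rfl fun k _ => ?_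
      rw [sum_eq_single k, h.ei, if_pos rfl, op_one, mul_comm]
      · intro b _ hb
        rw [h.ei, if_neg hb.symm, op_zero, smul_zero]
      · simp)
    lin_ep := lin_ep
    lin_io := lin_io
    lin_we := cb_lin lin_ep
    lin_co := cb_lin lin_io
    lin_pd := lin_pd
    we_add := cb_add ep
    we_smul := cb_smul ep
    we_sum := fun _ => cb_sum ep
    we_single := cb_single ep
    co_add := cb_add io
    co_smul := cb_smul io
    co_sum := fun _ => cb_sum io
    co_single := cb_single io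
    co_vac := fun v g => by
      rw [co_app]
      refine sum_eq_zero fun k _ => ?_
      funext σ
      simp [io_apply, vac]
    we_top := fun α g => by
      rw [we_app]
      refine sum_eq_zero fun k _ => ?_
      funext σ
      have : σ.erase k ≠ univ := fun h => notMem_erase k σ (h ▸ mem_univ k)
      simp [ep_apply, top, this]
    pd_gr := pd_gr
    pd_out := fun p hp => op_ext fun w => by
      funext σ
      have := card_le σ
      rw [pd_app, if_neg (by omega)]
      rfl
    pd_we := fun α p => op_ext (pd_we α p)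
    pd_co := fun α p => op_ext (pd_co α p)
    pd_dR := fun R p => op_ext (pd_dR R p)
    pd_num := fun p w hw => by
      funext σ
      have := h.num univ w σ
      rw [op_sum, inter_univ] at this
      refine this.trans ?_
      by_cases h1 : σ.card = p
      · rw [h1, Pi.smul_apply]
      · rw [Pi.smul_apply, (pd_fix p w).1 hw σ (by omega), smul_zero, smul_zero]
    pd_zero := fun w => by
      funext σ
      by_cases h1 : σ = ∅
      · simp [pd_app, vac, h1]
      · simp [pd_app, vac, h1]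
    pd_top := fun w => by
      funext σ
      have h2 : (σ.card : ℤ) = n ↔ σ = univ := by
        rw [Nat.cast_inj, ← card_eq_iff_eq_univ, Fintype.card_fin]
      by_cases h1 : σ = univ
      · simp [pd_app, top, h1]
      · simp [pd_app, top, h1, h2]
    mem_fl := mem_fl
    fl_le := fl_le h
    ind := fun K h0 hK w => by
      rw [← univ_sum_single w]
      refine sum_mem fun σ _ => ?_
      rw [← h.single]
      exact list_mem (fun _ => K) (fun l _ => hK l) _ (h0 _) _
    fl_mu := fun N N' g hg p w hw => by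
      rw [mem_fl] at hw ⊢
      exact ⟨fun σ => hg _ (hw.1 σ), by rw [mu_apply, lin_pd, hw.2]⟩
    fl_we := fun N N' α hα p w hw => by
      rw [mem_fl] at hw ⊢
      refine ⟨fun σ => ?_, by rw [← pd_we, hw.2]⟩
      rw [we_app, Finset.sum_apply]
      exact sum_mem fun k _ => hα k _ (ep_mem hw.1 k σ)
    fl_co := fun N N' α hα p w hw => by
      rw [mem_fl] at hw ⊢
      refine ⟨fun σ => ?_, by rw [← pd_co, neg_add_cancel_right, hw.2]⟩
      rw [co_app, Finset.sum_apply]
      exact sum_mem fun k _ => hα k _ (io_mem hw.1 k σ)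
    fl_dR := fun N N' R hR p w hw => by
      rw [mem_fl] at hw ⊢
      refine ⟨fun σ => ?_, by rw [← pd_dR, hw.2]⟩
      rw [dR_app, Finset.sum_apply]
      exact sum_mem fun k _ => ep_mem (fun τ => hR k _ (hw.1 τ)) k σ
    fl_sup := fl_sup
    fl_inf := fun N N' => by
      funext p
      ext w
      simp only [Pi.inf_apply, AddSubgroup.mem_inf, mem_fl, forall_and]
      tauto
    dR_io := fun R l => (h.kos_io 0 R univ l).trans (if_pos (mem_univ l))
    up_we := fun _ _ φ α α' hh w => by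
      simp only [we_app, map_sum, up_ep φ _ _ (hh _)]
    up_co := fun _ _ φ α α' hh w => by
      simp only [co_app, map_sum, up_io φ _ _ (hh _)] }

end Pool.Agent.MP_ee8c61_ag.H59
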