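import Pool.Agent.MP_ee8c61_ag.H59.SpecB

/-! The logarithmic frames of a chart. -/

namespace Pool.Agent.MP_ee8c61_ag.H59

open Finset Sys

namespace FrX

variable {k Ω ι J : Type} {n : ℕ} [CommRing k] [CommRing Ω] [Algebra k Ω]

/-- The logarithmic derivative on units. -/
def ld (δ : Derivation k Ω Ω) : Ωˣ →* Multiplicative Ω where
  toFun u := Multiplicative.ofAdd (δ u * ((u⁻¹ : Ωˣ) : Ω))
  map_one' := by simp
  map_mul' u w := by
    rw [← ofAdd_add, Units.val_mul, Derivation.leibniz, mul_inv, Units.val_mul, smul_eq_mul,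
      smul_eq_mul]
    congr 1
    linear_combination δ w * ((w⁻¹ : Ωˣ) : Ω) * u.mul_inv + δ u * ((u⁻¹ : Ωˣ) : Ω) * w.mul_inv

theorem der_ite (δ : Derivation k Ω Ω) (p : Prop) [Decidable p] :
    δ (if p then 1 else 0) = 0 := by split_ifs <;> simp

variable (S : Sys k Ω ι J n)

theorem eta_mem (a : ι) (j : J) : (S.η a j : Ω) ∈ S.A a := by
  cases h : S.lab a j with
  | none => rw [S.η_none a j h]; exact one_mem _
  | some i => rw [S.η_some a j i h]; exact S.z_mem a i

variable [Fintype J]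

theorem un_some (a : ι) (j : J) (i : Fin n) (h : S.lab a j = some i) : S.un a i = S.η a j := by
  unfold un
  rw [prod_eq_single j (fun j' _ hj => if_neg fun h' => hj (S.lab_inj a j' j i h' h))
    (fun hj => absurd (mem_univ j) hj), if_pos h]

theorem un_none (a : ι) (i : Fin n) (h : ∀ j, S.lab a j ≠ some i) : S.un a i = 1 :=
  prod_eq_one fun j _ => if_neg (h j)

theorem un_or (a : ι) (i : Fin n) : (S.un a i : Ω) = S.z a i ∨ (S.un a i : Ω) = 1 := by
  by_cases h : ∃ j, S.lab a j = some i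
  · obtain ⟨j, h⟩ := h
    exact Or.inl (by rw [un_some S a j i h, S.η_some a j i h])
  · exact Or.inr (by rw [un_none S a i fun j hj => h ⟨j, hj⟩, Units.val_one])

theorem dv_apply (a : ι) (i : Fin n) (g : Ω) : S.dv a i g = S.un a i * S.D a i g := rfl

theorem dv_gr (a : ι) (i : Fin n) (g : Ω) : S.v a i ⬝ᵥ S.gr g = S.dv a i g := by
  rw [dv_apply, S.D_R a i g, mul_sum]
  exact sum_congr rfl fun l _ => mul_assoc _ _ _

theorem ve (a : ι) (i j : Fin n) : S.v a i ⬝ᵥ S.e a j = if i = j then 1 else 0 := by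
  have h : S.e a j = (((S.un a j)⁻¹ : Ωˣ) : Ω) • S.gr (S.z a j) := rfl
  rw [h, dotProduct_smul, dv_gr, dv_apply, S.D_z]
  split_ifs with h
  · subst h; simp
  · simp

theorem evt (a : ι) (l l' : Fin n) : ∑ i, S.e a i l * S.v a i l' = if l = l' then 1 else 0 := by
  have h : Matrix.of (S.v a) * (Matrix.of (S.e a)).transpose = 1 := by
    ext i j
    rw [Matrix.one_apply, ← ve S a]
    rfl
  rw [← Matrix.one_apply, ← mul_eq_one_comm.1 h]
  rfl

theorem exp_e (a : ι) (α : Fin n → Ω) : α = ∑ i, (S.v a i ⬝ᵥ α) • S.e a i := by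
  funext l
  have h : ∑ i, (∑ l', S.v a i l' * α l') * S.e a i l =
      ∑ l', (∑ i, S.e a i l * S.v a i l') * α l' := by
    simp only [sum_mul]
    rw [sum_comm]
    exact sum_congr rfl fun _ _ => sum_congr rfl fun _ _ => by ring
  simp only [Finset.sum_apply, Pi.smul_apply, smul_eq_mul, dotProduct, h, evt]
  simp

theorem exp_v (a : ι) (β : Fin n → Ω) : β = ∑ i, (β ⬝ᵥ S.e a i) • S.v a i := by
  funext l
  have h : ∑ i, (∑ l', β l' * S.e a i l') * S.v a i l =
      ∑ l', β l' * ∑ i, S.e a i l' * S.v a i l := by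
    simp only [sum_mul, mul_sum]
    rw [sum_comm]
    exact sum_congr rfl fun _ _ => sum_congr rfl fun _ _ => by ring
  simp only [Finset.sum_apply, Pi.smul_apply, smul_eq_mul, dotProduct, h, evt]
  simp

theorem R_D (a : ι) (l : Fin n) (g : Ω) : S.R l g = ∑ i, S.R l (S.z a i) * S.D a i g := by
  refine (congrFun (exp_e S a (S.gr g)) l).trans ?_
  rw [Finset.sum_apply]
  refine sum_congr rfl fun i _ => ?_
  rw [dv_gr, dv_apply, Pi.smul_apply, smul_eq_mul, Sys.e]
  linear_combination S.D a i g * S.R l (S.z a i) * (S.un a i).mul_inv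

omit [Fintype J] in
theorem DD (a : ι) (i j : Fin n) (g : Ω) : S.D a i (S.D a j g) =
    ∑ l, S.D a i (S.D a j (S.r l)) * S.R l g +
      ∑ l, ∑ l', S.D a j (S.r l) * S.D a i (S.r l') * S.R l' (S.R l g) := by
  rw [S.D_R a j g, map_sum, ← sum_add_distrib]
  refine sum_congr rfl fun l _ => ?_
  rw [Derivation.leibniz, smul_eq_mul, smul_eq_mul, S.D_R a i (S.R l g), mul_sum]
  simp only [mul_assoc]
  ring

omit [Fintype J] in
theorem comm_R (a : ι) (i j : Fin n) (g : Ω) : S.D a i (S.D a j g) - S.D a j (S.D a i g) =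
    ∑ l, (S.D a i (S.D a j (S.r l)) - S.D a j (S.D a i (S.r l))) * S.R l g := by
  have h : ∑ l, ∑ l', S.D a j (S.r l) * S.D a i (S.r l') * S.R l' (S.R l g) =
      ∑ l, ∑ l', S.D a i (S.r l) * S.D a j (S.r l') * S.R l' (S.R l g) := by
    rw [sum_comm]
    exact sum_congr rfl fun l _ => sum_congr rfl fun l' _ => by rw [S.R_comm l l']; ring
  rw [DD S a i j g, DD S a j i g, h]
  simp only [sub_mul, sum_sub_distrib]
  ring

theorem D_comm (a : ι) (i j : Fin n) (g : Ω) : S.D a i (S.D a j g) = S.D a j (S.D a i g) := by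
  rw [← sub_eq_zero, comm_R]
  simp only [R_D S a _ g, mul_sum, ← mul_assoc]
  rw [sum_comm]
  refine sum_eq_zero fun m _ => ?_
  rw [← sum_mul, ← comm_R, S.D_z, S.D_z, der_ite, der_ite, sub_self, zero_mul]

theorem dv_comm (a : ι) (i j : Fin n) (g : Ω) :
    S.dv a i (S.dv a j g) = S.dv a j (S.dv a i g) := by
  have h : ∀ i j, i ≠ j → S.D a i (S.un a j) = 0 := fun i j hij => by
    rcases un_or S a j with h | h <;> rw [h]
    · rw [S.D_z, if_neg hij]
    · simp
  by_cases hij : i = j
  · rw [hij]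
  · simp only [dv_apply, Derivation.leibniz, smul_eq_mul, h i j hij, h j i (Ne.symm hij),
      D_comm S a i j]
    ring

theorem e_closed (a : ι) (i l l' : Fin n) : S.R l (S.e a i l') = S.R l' (S.e a i l) := by
  have h : ∀ l, S.R l (((S.un a i)⁻¹ : Ωˣ) : Ω) =
      -(((S.un a i)⁻¹ : Ωˣ) : Ω) ^ 2 • S.R l (S.un a i) :=
    fun l => (S.R l).leibniz_of_mul_eq_one (S.un a i).inv_mul
  simp only [Sys.e, Derivation.leibniz, smul_eq_mul, h, S.R_comm l l']
  rcases un_or S a i with h | h <;> rw [h]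
  · ring
  · simp

theorem prod_un (a : ι) : ∏ i, S.un a i = ∏ j, S.η a j := by
  unfold un
  rw [prod_comm]
  refine prod_congr rfl fun j _ => ?_
  cases h : S.lab a j with
  | none => simp [S.η_none a j h]
  | some i => simp

theorem dv_eta (a : ι) (i : Fin n) (j : J) :
    S.dv a i (S.η a j) * (((S.η a j)⁻¹ : Ωˣ) : Ω) = if S.lab a j = some i then 1 else 0 := by
  rw [dv_apply]
  cases h : S.lab a j with
  | none => simp [S.η_none a j h]
  | some i' =>
    rw [show S.D a i (S.η a j) = S.D a i (S.z a i') by rw [S.η_some a j i' h], S.D_z]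
    by_cases hi : i = i'
    · subst hi
      simp [un_some S a j i h]
    · simp [hi, Ne.symm hi]

theorem dv_mon (a : ι) (i : Fin n) (c : J → ℤ) : S.dv a i (S.mon a c) =
    ((∑ j, if S.lab a j = some i then c j else 0 : ℤ) : Ω) * S.mon a c := by
  have h : S.dv a i (S.mon a c) * (((S.mon a c)⁻¹ : Ωˣ) : Ω) =
      ∑ j, c j • (S.dv a i (S.η a j) * (((S.η a j)⁻¹ : Ωˣ) : Ω)) := by
    change (ld (S.dv a i) (∏ j, S.η a j ^ c j)).toAdd = _
    rw [map_prod, toAdd_prod]
    exact sum_congr rfl fun j _ => by rw [map_zpow, toAdd_zpow]; rfl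
  rw [← Units.mul_inv_eq_iff_eq_mul, h]
  push_cast
  exact sum_congr rfl fun j _ => by rw [dv_eta]; split_ifs <;> simp

theorem mon_mem (a : ι) (c : J → ℤ) (h : 0 ≤ c) : (S.mon a c : Ω) ∈ S.A a := by
  unfold mon
  rw [Units.coe_prod]
  refine prod_mem fun j _ => ?_
  obtain ⟨m, hm⟩ := Int.eq_ofNat_of_zero_le (h j)
  rw [hm, zpow_natCast, Units.val_pow_eq_pow_val]
  exact pow_mem (eta_mem S a j) m

theorem mon_ind (a : ι) (j : J) : S.mon a (ind {j}) = S.η a j := by
  classical
  unfold mon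
  rw [prod_eq_single j (fun j' _ hj => by simp [ind_apply, hj]) fun hj => absurd (mem_univ j) hj]
  simp [ind_apply]

theorem crd_frm (hL : La Ω n) (a : ι) : S.crd a * S.frm a = 1 := by
  rw [crd, frm, hL.mul, ← hL.one]
  congr 1
  funext j i
  rw [Pi.single_apply, ← ve S a, Finset.sum_apply]
  exact sum_congr rfl fun l _ => mul_comm _ _

theorem frm_crd (hL : La Ω n) (a : ι) : S.frm a * S.crd a = 1 := by
  rw [crd, frm, hL.mul, ← hL.one]
  congr 1
  funext l l'
  rw [Pi.single_apply, ← evt S a, Finset.sum_apply]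
  exact sum_congr rfl fun i _ => mul_comm _ _

theorem crd_we (hL : La Ω n) (a : ι) (α : Fin n → Ω) :
    S.crd a * we α = we (fun i => S.v a i ⬝ᵥ α) * S.crd a := by
  rw [crd, hL.we]
  congr 2
  funext i
  rw [Finset.sum_apply]
  exact sum_congr rfl fun l _ => mul_comm _ _

theorem crd_co (hL : La Ω n) (a : ι) (β : Fin n → Ω) :
    S.crd a * co β = co (fun i => β ⬝ᵥ S.e a i) * S.crd a := by
  rw [crd, hL.co]
  congr 2
  funext l
  exact (congrFun (exp_v S a β) l).trans (Finset.sum_apply _ _ _)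

theorem frm_d (hF : Fo Ω n) (hL : La Ω n) (hR : Fd S.R) (a : ι) (hV : Fd (S.dv a)) :
    S.frm a * (dR fun i => dop (S.dv a i)) = S.dd * S.frm a := by
  refine op_ext fun w => hF.ind
    (AddMonoidHom.eqLocus (S.frm a * (dR fun i => dop (S.dv a i))) (S.dd * S.frm a))
    (fun g => ?_) (fun l w hw => ?_) w
  · change S.frm a ((dR fun i => dop (S.dv a i)) (vac n g)) = S.dd (S.frm a (vac n g))
    rw [hV.d_vac, frm, hL.vac, dd, hR.d_vac, ← op_mul, hL.we, op_mul, hL.vac]
    simp only [← dv_gr]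
    rw [← exp_e]
    rfl
  · change S.frm a ((dR fun i => dop (S.dv a i)) (ep l w)) = S.dd (S.frm a (ep l w))
    change S.frm a ((dR fun i => dop (S.dv a i)) w) = S.dd (S.frm a w) at hw
    have h1 := DFunLike.congr_fun (hV.d_ep l) w
    have h2 := DFunLike.congr_fun (hR.d_we _ (e_closed S a l)) (S.frm a w)
    have h3 : ∀ w, S.frm a (ep l w) = we (S.e a l) (S.frm a w) := DFunLike.congr_fun (hL.ep _ l)
    simp only [op_add, op_mul, op_zero] at h1 h2
    rw [eq_neg_of_add_eq_zero_left h1, map_neg, h3, h3, hw]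
    exact (eq_neg_of_add_eq_zero_left h2).symm

end FrX

open FrX in
theorem rowFr : OfFr := by
  intro _ hFo hFd hLa k Ω ι J n _ _ _ _ S
  have hF := hFo Ω n
  have hL := hLa Ω n
  exact
    { ve := ve S
      exp_e := exp_e S
      exp_v := exp_v S
      crd_frm := crd_frm S hL
      frm_crd := frm_crd S hL
      crd_we := crd_we S hL
      crd_co := crd_co S hL
      crd_e := fun a i => by
        rw [crd_we S hL, ← hF.we_single]
        congr 2
        funext j
        rw [ve, Pi.single_apply]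
      crd_v := fun a i => by
        rw [crd_co S hL, ← hF.co_single]
        congr 2
        funext j
        rw [ve, Pi.single_apply]
        simp only [eq_comm]
      crd_d := fun a => by
        have h := frm_d S hF hL (hFd k Ω n S.R S.R_comm) a (hFd k Ω n _ (dv_comm S a))
        rw [← mul_one (S.crd a * S.dd), ← frm_crd S hL a, mul_assoc, ← mul_assoc S.dd, ← h,
          ← mul_assoc, ← mul_assoc, crd_frm S hL, one_mul]
      dv_gr := dv_gr S
      R_D := R_D S
      D_comm := D_comm S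
      dv_comm := dv_comm S
      e_closed := e_closed S
      un_some := un_some S
      un_none := un_none S
      un_mem := fun a i => by
        rcases un_or S a i with h | h <;> rw [h]
        exacts [S.z_mem a i, one_mem _]
      eta_mem := eta_mem S
      prod_un := prod_un S
      dv_mon := dv_mon S
      mon_add := fun a c c' => by simp only [mon, Pi.add_apply, zpow_add, prod_mul_distrib]
      mon_zsmul := fun a u c => by
        simp only [mon, Pi.smul_apply, smul_eq_mul, ← prod_zpow, ← zpow_mul, mul_comm]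
      mon_ind := mon_ind S
      mon_mem := mon_mem S }

end Pool.Agent.MP_ee8c61_ag.H59
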