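import Pool.Agent.MP_ee8c61_ag.H59.SpecB

/-! The graded Koszul family and its finiteness. -/

namespace Pool.Agent.MP_ee8c61_ag.H59

open Finset Sys

namespace GkX

variable {k Ω ι J : Type} {n : ℕ} [CommRing k] [CommRing Ω] [Algebra k Ω] [Fintype J]
  {S : Sys k Ω ι J n} [Fintype ι] [LinearOrder ι]

theorem keeps_bot {G : Type} [AddCommGroup G] (g : Op G) : Keeps g (⊥ : Lat G) ⊥ := by
  intro j x hx
  rw [mem_lat_bot] at hx ⊢
  rw [hx, map_zero]

theorem kok (hFr : Fr S) (hLo : Lo S) (hLm : Lm S) {m : ℕ} {x : Fin m → Ω} {w : J → ℤ}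
    {ρ : ι → Ωˣ} {κ : Type} [LinearOrder κ] {t : κ → Ω} {dg : κ → ℕ} {s : Finset κ} (c : J → ℤ)
    (hP : S.Pol x w ρ) (hH : S.Hg ρ t dg s) :
    KOK (cech 0) (fun l => mu _ (t l)) s (S.gk w c dg) fun _ => ⊥ := by
  refine ⟨fun σ => ?_, fun i _ => hLm.lin0.comm _, fun i _ i' _ => mu_comm _ _,
    fun i hi σ hσ => ?_, fun i _ σ _ => keeps_bot _⟩
  · rw [← hLm.T_none]
    exact hLm.pair 0 _ _ (mul_zero _) (fun _ h => absurd h (notMem_empty _))
      fun C σ j y _ => zero_mem _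
  · have := hLm.shift_T (c - (∑ l ∈ σ, (dg l : ℤ)) • w) ((-(dg i : ℤ)) • w) (t i) fun a => by
      rw [hFr.mon_zsmul, zpow_neg, inv_inv, ← hFr.mon_zsmul, ← hLo.pol m x w ρ hP, zpow_natCast]
      exact hH i hi a
    unfold gk
    rw [sum_insert hσ, add_smul, add_comm ((dg i : ℤ) • w), ← sub_sub, sub_eq_add_neg _
      ((dg i : ℤ) • w), ← neg_smul]
    exact this

end GkX

theorem rowGk : OfGk := by
  intro hC hF hCo hFi hFr hLo hLm hT k Ω ι J n _ _ _ _ S _ _
  have hFr := hFr k Ω ι J n S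
  have hLo := hLo k Ω ι J n S
  have hLm := hLm k Ω ι J n S
  refine ⟨fun m x w ρ κ _ t dg s c hP hH => GkX.kok hFr hLo hLm c hP hH, ?_⟩
  intro _ m x x0 w ρ κ _ t dg s c j hA hP hH hX
  have K := GkX.kok hFr hLo hLm c hP hH
  have hCo := hCo κ (Ch ι (Fm n Ω))
  have le : ∀ g : Algebra.adjoin k (Set.range x), ∀ a, (g : Ω) ∈ S.A a := fun g a =>
    Algebra.adjoin_le (S := S.A a) (by rintro _ ⟨l, rfl⟩; exact hP.x_mem a l) g.2
  have : IsNoetherianRing (Algebra.adjoin k (Set.range x)) :=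
    isNoetherianRing_of_fg (Subalgebra.fg_def.2 ⟨_, Set.finite_range x, rfl⟩)
  have cl : ∀ σ, Cl (Algebra.adjoin k (Set.range x)) (S.gk w c dg σ) := fun σ j g y hy =>
    hLm.mu_T _ g (le g) j y hy
  have cl0 : ∀ {G : Type} [AddCommGroup G] [Module (Algebra.adjoin k (Set.range x)) G],
      Cl (Algebra.adjoin k (Set.range x)) (⊥ : Lat G) := fun j g y hy => by
    rw [mem_lat_bot] at hy ⊢
    rw [hy, smul_zero]
  refine hF k Ω _ m x x0 _ _ _ j ?_ (fun g y => ?_) (fun j g y hy => ?_) cl0 ?_ fun l => ?_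
  · rw [← kl_bot s]
    exact hCo.pair _ _ _ _ _ K
  · exact (DFunLike.congr_fun ((hC κ _).kos_ev (cech 0) (mu _ g) (fun l => mu _ (t l)) s
      (hLm.lin0.comm g) fun i _ => mu_comm _ _).eq y).symm
  · exact hCo.keeps (mu _ (g : Ω)) s _ _ (fun σ _ j => cl σ j g) j y hy
  · rw [← kl_bot s]
    exact (hFi κ _).fg _ _ _ _ _ _ j K (fun g y => hLm.lin0 g y)
      (fun i _ g y => smul_comm (t i) (g : Ω) y) cl (fun _ => cl0)
      fun σ _ => hT k Ω ι J n S m x w ρ hA hP _ _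
  · obtain ⟨i, hi, h1, h2⟩ := hX l
    have := hCo.hom (cech 0) (fun l => mu _ (t l)) (fun l => if l = i then 1 else 0) s
      (S.gk w c dg) (fun _ => ⊥) (S.gk w c dg) (fun _ => ⊥) j
      (fun l _ => by split_ifs <;> simp) (fun l _ l' _ => by split_ifs <;> simp)
      (fun l _ σ hσ => by
        split_ifs with h
        · unfold gk
          rw [sum_insert hσ, h, h2, Nat.cast_zero, zero_add]
          exact fun j y hy => hy
        · exact fun j y _ => zero_mem _)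
      fun l _ σ _ => GkX.keeps_bot _
    simp only [ite_mul, one_mul, zero_mul, sum_ite_eq', hi, if_true] at this
    rw [kl_bot, h1] at this
    exact this

end Pool.Agent.MP_ee8c61_ag.H59
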