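import Pool.Agent.MP_ee8c61_ag.H59.SpecC

/-! The weight grading of the twisted complex. -/

namespace Pool.Agent.MP_ee8c61_ag.H59

open Finset Sys MvPolynomial

namespace GrX

variable {Ω ι : Type} {n m : ℕ} [CommRing Ω]

theorem coeff_hc (d : ℤ) (P : PX m Ω) (e : Option (Fin m) →₀ ℕ) :
    coeff e (hc m Ω d P) = if (e.degree : ℤ) = d then coeff e P else 0 := by
  by_cases h : 0 ≤ d
  · rw [show hc m Ω d = _ from if_pos h]
    exact (coeff_homogeneousComponent d.toNat P e).trans (if_congr (by omega) rfl rfl)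
  · rw [show hc m Ω d = _ from if_neg h, if_neg (by omega)]
    rfl

theorem hc_C (d : ℤ) (g : Ω) (P : PX m Ω) : hc m Ω d (C g * P) = C g * hc m Ω d P := by
  ext e
  simp only [coeff_hc, coeff_C_mul, mul_ite, mul_zero]

theorem hc_X (d : ℤ) (o : Option (Fin m)) (P : PX m Ω) :
    hc m Ω (d + 1) (X o * P) = X o * hc m Ω d P := by
  ext e
  by_cases h : o ∈ e.support
  · obtain ⟨e, rfl⟩ : ∃ e', e = Finsupp.single o 1 + e' :=
      exists_add_of_le (Finsupp.single_le_iff.2 (Nat.pos_of_ne_zero (Finsupp.mem_support_iff.1 h)))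
    simp only [coeff_hc, coeff_X_mul, map_add, Finsupp.degree_single]
    exact if_congr (by omega) rfl rfl
  · simp only [coeff_hc, coeff_X_mul', h, if_false, ite_self]

/-- The projection on forms. -/
noncomputable def W (n m : ℕ) (Ω : Type) [CommRing Ω] (w : ℤ) : Op (Fm n (PX m Ω)) :=
  evs fun σ => hc m Ω (w + σ.card)

theorem W_apply (w : ℤ) (x : Fm n (PX m Ω)) (σ : Finset (Fin n)) :
    W n m Ω w x σ = hc m Ω (w + σ.card) (x σ) := rfl

theorem wt_eq (w : ℤ) : wt ι n m Ω w = ev (W n m Ω w) := rfl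

theorem grading [Fintype ι] : Grading (wt ι n m Ω) := by
  classical
  refine ⟨fun w w' => op_ext fun γ => ?_, fun γ => ⟨univ.biUnion fun p : Finset ι × Finset (Fin n) =>
    (γ p.1 p.2).support.image fun e => (e.degree : ℤ) - p.2.card, fun w hw => ?_, ?_⟩⟩
  · funext τ σ
    ext e
    split_ifs with h
    · simp only [h, wt_eq, op_mul, ev_apply, W_apply, coeff_hc]
      split_ifs <;> rfl
    · simp only [wt_eq, op_mul, ev_apply, W_apply, coeff_hc]
      split_ifs
      · omega
      all_goals rfl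
  · funext τ σ
    ext e
    simp only [wt_eq, ev_apply, W_apply, coeff_hc]
    split_ifs with h
    · by_contra h0
      exact hw (mem_biUnion.2 ⟨(τ, σ), mem_univ _, mem_image.2
        ⟨e, mem_support_iff.2 h0, sub_eq_of_eq_add h⟩⟩)
    · rfl
  · funext τ σ
    ext e
    simp only [Finset.sum_apply, coeff_sum, wt_eq, ev_apply, W_apply, coeff_hc, ← sub_eq_iff_eq_add,
      sum_ite_eq]
    split_ifs with h
    · rfl
    · by_contra h0
      exact h (mem_biUnion.2 ⟨(τ, σ), mem_univ _, mem_image.2 ⟨e, mem_support_iff.2 h0, rfl⟩⟩)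

theorem ep_W (T : Op (PX m Ω)) (w w' : ℤ) (k : Fin n)
    (h : ∀ (c : ℤ) P, T (hc m Ω (w' + c) P) = hc m Ω (w + (c + 1)) (T P)) :
    ep k * ev T * W n m Ω w' = W n m Ω w * (ep k * ev T) := op_ext fun x => by
  funext σ
  simp only [op_mul, ep_apply, ev_apply, W_apply]
  split_ifs with hk
  · rw [h, map_zsmul, ← card_erase_add_one hk, Nat.cast_add_one]
  · rw [map_zero]

theorem io_W (g : Ω) (w : ℤ) (k : Fin n) :
    mu _ (C g : PX m Ω) * io k * W n m Ω w = W n m Ω (w + 1) * (mu _ (C g : PX m Ω) * io k) :=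
  op_ext fun x => by
    funext σ
    simp only [op_mul, mu_apply, Pi.smul_apply, io_apply, W_apply, smul_eq_mul, hc_C]
    split_ifs with hk
    · rw [map_zero]
    · rw [map_zsmul, card_insert_of_notMem hk, Nat.cast_add_one, add_right_comm, add_assoc]

end GrX

open GrX in
theorem rowGr : OfGr := by
  intro hC _ hL hP hT Ω ι J n m _ _ _ _ _ _ S x f a hx hf
  have T := hT Ω ι J n m S x f a hx hf
  have L := hL _ _ _ _ _ (S.px m)
  have P := hP _ _ _ _ _ S (Option (Fin m))
  have A := hC ι (Fm n (PX m Ω))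
  have sm : (cech (we (S.th x f)) + od (S.px m).dd : Op (Ch ι (Fm n (PX m Ω)))) =
      cech ((S.px m).dd + we (S.th x f)) := by
    rw [add_comm (S.px m).dd, cech, cech, A.kos_add]
  have pu : ∀ C j, ∀ γ ∈ (S.px m).T C j, ∀ (τ : Finset ι) (σ : Finset (Fin n)),
      (σ.card : ℤ) ≠ j - τ.card → γ τ σ = 0 := fun C j γ hγ τ σ h => by
    rw [← L.pure C τ _ _ (((S.px m).mem_T C j γ).1 hγ τ), pd, evs_apply, if_neg h, op_zero]
  have kp : ∀ C w, Keeps (wt ι n m Ω w) ((S.px m).T C) ((S.px m).T C) := fun C w j γ hγ =>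
    ((S.px m).mem_T C j _).2 fun τ => by
      convert ((S.px m).mem_T C j _).1 (P.keeps (hc m Ω (w + (j - τ.card))) (hc_C _)
        (fun N _ Q hQ e => by
          rw [coeff_hc]
          split_ifs
          exacts [hQ e, zero_mem _]) C j γ hγ) τ using 1
      funext σ
      simp only [wt_eq, ev_apply, W_apply]
      by_cases h : (σ.card : ℤ) = j - τ.card
      · rw [h]
      · rw [pu C j γ hγ τ σ h, map_zero, map_zero]
  refine ⟨fun C C' h => ⟨grading, sm ▸ L.pair _ C C' T.sq h T.maps, fun w => ?_, fun w => ?_,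
    kp C, kp C'⟩, sm, fun C j γ hγ w hw => ?_, fun j w => op_ext fun γ => ?_,
    fun g w => op_ext fun γ => ?_, ?_⟩
  · refine (A.kos_ev _ _ _ _ (Commute.sum_right _ _ _ fun k _ => ?_)
      fun _ _ => Commute.one_right _).eq.symm
    rw [← ev_mu, ((hC _ _).ev_ep _ k).eq]
    refine (ep_W _ w w k fun c Q => ?_).symm
    rw [mu_apply, mu_apply]
    simp only [smul_eq_mul, Sys.th, add_mul, sum_mul, map_add, map_sum, mul_assoc, ← add_assoc,
      hc_X, hc_C]
  · rw [wt_eq, wt_eq, A.od_ev, A.ev_od, Sys.dd, dR, kos, add_mul, mul_add, sum_mul, mul_sum]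
    congr 2
    · exact op_ext fun y => funext fun σ => by simp [W_apply]
    · refine sum_congr rfl fun k _ => ep_W _ w (w + 1) k fun c Q => ?_
      ext e
      rw [add_right_comm, add_assoc]
      change coeff e (dpol _ _ _) = coeff e (hc _ _ _ (dpol _ _ _))
      simp only [coeff_hc, coeff_dpol]
      split_ifs
      exacts [rfl, map_zero _]
  · funext τ σ
    change hc m Ω (w + σ.card) (γ τ σ) = 0
    by_cases h : (σ.card : ℤ) = j - τ.card
    · rcases τ.eq_empty_or_nonempty with rfl | h1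
      · have := ((S.px m).mem_T C j γ).1 hγ ∅
        rw [L.emp, mem_lat_bot] at this
        rw [this, Pi.zero_apply, map_zero]
      · have := h1.card_pos
        rw [show hc m Ω _ = _ from if_neg (by omega), op_zero]
    · rw [pu C j γ hγ τ σ h, map_zero]
  · funext τ
    simp only [Sys.hh, op_mul, wt_eq, ods_apply, ev_apply, map_zsmul]
    congr 1
    rw [← op_mul, ← op_mul (W n m Ω (w + 1)), co, sum_mul, mul_sum]
    simp only [P.vv, io_W]
  · funext τ σ
    exact (hc_C _ g _).symm
  · funext τ σ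
    simp only [wt_eq, ev_apply, W_apply, om]
    split_ifs
    · by_cases h : σ = univ
      · ext e
        simp only [h, top, Pi.single_eq_same, coeff_hc, coeff_one, ite_eq_left_iff]
        exact fun h1 => (if_neg fun h2 => h1 (by simp [← h2])).symm
      · rw [top, Pi.single_eq_of_ne h, map_zero]
    · exact map_zero _

end Pool.Agent.MP_ee8c61_ag.H59
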