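import Pool.Agent.MP_ee8c61_ag.H59.SpecC

/-!
Twists with exponents that are prime to the characteristic are acyclic.
-/

namespace Pool.Agent.MP_ee8c61_ag.H59

open Finset Sys

namespace HaraX

theorem le1 {J : Type} {c c' : J → ℤ} (h : c ≤ c') : Le {c'} {c} := fun x hx =>
  ⟨c, mem_singleton_self c, by rwa [mem_singleton.1 hx]⟩

theorem cop {ℓ : ℕ} (hp : ℓ.Prime) {a b : ℤ} (h1 : ℓ * (a - 1) < b) (h2 : b < ℓ * a) :
    IsCoprime b (ℓ : ℤ) := by
  refine ((Nat.prime_iff_prime_int.1 hp).irreducible.coprime_iff_not_dvd.2 ?_).symm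
  rintro ⟨u, rfl⟩
  have p : (0 : ℤ) < ℓ := by exact_mod_cast hp.pos
  have := lt_of_mul_lt_mul_left h1 p.le
  have := lt_of_mul_lt_mul_left h2 p.le
  omega

end HaraX

open HaraX

theorem rowHara : OfHara := by
  intro hC hX hK hF hD hL hH hM k Ω ι J n _ _ _ _ _ _ _ S ℓ hp _ κ _ t s ht c
  classical
  have L := hL k Ω ι J n S
  have H : Ho S := hH k Ω ι J n S
  have sq : S.dd * S.dd = 0 := (hD k Ω n S.R S.R_comm).sq
  have kok : ∀ C C', Le C' C →
      KOK (cech S.dd) (fun l => mu _ (t l ^ ℓ)) s (fun _ => S.T C) (fun _ => S.T C') :=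
    fun C C' h => ⟨fun _ => L.pair _ C C' sq h L.dd,
      fun l _ => (hC ι _).kos_ev S.dd _ _ _ ((hM k Ω ι J n S ℓ fun _ _ => 0).comm_dd (t l))
        fun _ _ => Commute.one_right _,
      fun _ _ _ _ => mu_comm _ _,
      fun l hl _ _ => L.mu_T C _ fun a => pow_mem (ht l hl a) _,
      fun l hl _ _ => L.mu_T C' _ fun a => pow_mem (ht l hl a) _⟩
  have up : ∀ c' : J → ℤ, (∀ j, ℓ * (c j - 1) < c' j ∧ c' j ≤ ℓ * c j) → c' ≤ ℓ • c :=
    fun c' h j => by simpa using (h j).2
  have step : ∀ (c' : J → ℤ) (i : J), IsCoprime (c' i) (ℓ : ℤ) → ∀ j,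
      Van (cech S.dd) (S.T {c'}) (S.T {c' + ind {i}}) j := by
    intro c' i ⟨u, v, e⟩ j x hx hd
    have z : (ℓ : ℤ) • x = 0 := by
      funext σ τ
      simp
    have h1 := H.d0 c' i j x hx
    have h2 := H.maps _ i _ _ hd
    rw [add_neg_cancel_right] at h2
    refine ⟨u • S.hh i x, zsmul_mem (H.maps _ i _ _ hx) u, ?_⟩
    have e' : x = u • c' i • x := by
      rw [smul_smul, eq_sub_of_add_eq e, sub_smul, one_smul, mul_smul, z, smul_zero, sub_zero]
    have := zsmul_mem (sub_mem h2 h1) u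
    rw [map_zsmul]
    convert this using 1
    rw [smul_sub, smul_sub, smul_add, ← e']
    abel
  have main : ∀ (N : ℕ) (c' : J → ℤ), (∀ j, ℓ * (c j - 1) < c' j ∧ c' j ≤ ℓ * c j) →
      ∑ j, (ℓ * c j - c' j) ≤ N → ∀ j,
      Van (kc S.dd (fun l => t l ^ ℓ) s) (kl s fun _ => S.T {c'}) (kl s fun _ => S.T {ℓ • c}) j := by
    have base : ∀ c' : J → ℤ, (∀ j, c' j = ℓ * c j) → ∀ j, Van (kc S.dd (fun l => t l ^ ℓ) s)
        (kl s fun _ => S.T {c'}) (kl s fun _ => S.T {ℓ • c}) j := fun c' h j x hx _ => by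
      obtain rfl : c' = ℓ • c := funext fun j => by simpa using h j
      exact ⟨0, zero_mem _, by simpa using hx⟩
    intro N
    induction N with
    | zero =>
      intro c' h hs
      refine base c' fun j => ?_
      have := single_le_sum (f := fun j => ℓ * c j - c' j) (fun j _ => sub_nonneg.2 (h j).2)
        (mem_univ j)
      have := (h j).2
      omega
    | succ N ih =>
      intro c' h hs j
      by_cases hb : ∀ j, c' j = ℓ * c j
      · exact base c' hb j
      obtain ⟨i, hi⟩ := not_forall.1 hb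
      have hi' : c' i < ℓ * c i := lt_of_le_of_ne (h i).2 hi
      have h' : ∀ j, ℓ * (c j - 1) < (c' + ind {i} : J → ℤ) j ∧
          (c' + ind {i} : J → ℤ) j ≤ ℓ * c j := fun j => by
        have := h j
        rw [Pi.add_apply, ind_apply]
        split_ifs with e
        · rw [mem_singleton.1 e] at this ⊢
          omega
        · omega
      have l1 : c' ≤ c' + ind {i} := fun j => by
        rw [Pi.add_apply, ind_apply]
        split_ifs <;> simp
      have k1 := kok _ _ (le1 l1)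
      refine (hX _).mid _ _ _ _ j ((hK κ _).pair _ _ _ _ _ k1)
        ((hK κ _).pair _ _ _ _ _ (kok _ _ (le1 (up _ h')))) (ih _ h' ?_ j)
        ((hF κ _).van _ _ _ _ _ j k1 fun σ _ => step c' i (cop hp.1 (h i).1 hi') _)
      have : ∑ j, (ℓ * c j - (c' + ind {i} : J → ℤ) j) = ∑ j, (ℓ * c j - c' j) - 1 := by
        simp only [Pi.add_apply, ind_apply, ← sub_sub, sum_sub_distrib]
        simp
      rw [this]
      push_cast at hs
      omega
  intro c' h j
  refine ⟨kok _ _ (le1 (up c' h)), ?_, main _ c' h (Int.self_le_toNat _) j⟩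
  have := kok {ℓ • c} ∅ fun _ hx => absurd hx (notMem_empty _)
  rwa [L.T_none] at this

end Pool.Agent.MP_ee8c61_ag.H59
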