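import Pool.Agent.MP_ee8c61_ag.H59.SpecC

/-!
Homomorphisms of systems of charts.
-/

namespace Pool.Agent.MP_ee8c61_ag.H59

open Finset Sys

namespace HmX

variable {k Ω k' Ω' ι J : Type} {n : ℕ} [CommRing k] [CommRing Ω] [Algebra k Ω] [CommRing k']
  [CommRing Ω'] [Algebra k' Ω'] {S : Sys k Ω ι J n} {S' : Sys k' Ω' ι J n} {φ : Ω →+* Ω'}

theorem eta (h : S.Hom S' φ) (a : ι) (j : J) : Units.map φ.toMonoidHom (S.η a j) = S'.η a j :=
  Units.ext (h.η a j)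

theorem AA (h : S.Hom S' φ) (σ : Finset ι) (hσ : σ.Nonempty) :
    ∀ g ∈ S.AA σ, φ g ∈ S'.AA σ := by
  obtain ⟨a, ha⟩ := hσ
  have le : ∀ b ∈ σ, S'.A b ≤ S'.AA σ := fun b hb => le_iSup₂_of_le b hb le_rfl
  let B : Subalgebra k Ω :=
    { (S'.AA σ).toSubring.comap φ with
      algebraMap_mem' := fun c => le a ha (h.A a _ ((S.A a).algebraMap_mem c)) }
  have : S.AA σ ≤ B := iSup₂_le fun b hb g hg => le b hb (h.A b g hg)
  exact this

variable [Fintype J]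

theorem mon (h : S.Hom S' φ) (a : ι) (c : J → ℤ) :
    Units.map φ.toMonoidHom (S.mon a c) = S'.mon a c := by
  simp only [Sys.mon, map_prod, map_zpow, eta h]

theorem un (h : S.Hom S' φ) (a : ι) (i : Fin n) :
    Units.map φ.toMonoidHom (S.un a i) = S'.un a i := by
  simp only [Sys.un, map_prod, h.lab]
  refine prod_congr rfl fun j _ => ?_
  split_ifs
  · exact eta h a j
  · exact map_one _

theorem inv {u : Ωˣ} {u' : Ω'ˣ} (h : Units.map φ.toMonoidHom u = u') :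
    φ ((u⁻¹ : Ωˣ) : Ω) = ((u'⁻¹ : Ω'ˣ) : Ω') := by
  rw [← h, ← map_inv]
  rfl

theorem v (h : S.Hom S' φ) (a : ι) (i l : Fin n) : φ (S.v a i l) = S'.v a i l := by
  rw [Sys.v, Sys.v, map_mul, h.D, h.r, ← un h]
  rfl

theorem e (h : S.Hom S' φ) (a : ι) (i l : Fin n) : φ (S.e a i l) = S'.e a i l := by
  rw [Sys.e, Sys.e, map_mul, h.R, h.z, inv (un h a i)]

theorem up_pd (p : ℤ) (w : Fm n Ω) :
    pd n p (up (φ : Ω →+ Ω') w) = up (φ : Ω →+ Ω') (pd n p w) := by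
  funext σ
  simp only [pd, evs_apply, up_apply]
  split_ifs <;> simp

end HmX

theorem rowHm : OfHm := by
  intro hO hL hLo hLm k Ω k' Ω' ι J n _ _ _ _ _ _ _ S S' φ h
  have crd : ∀ a w, up (φ : Ω →+ Ω') (S.crd a w) = S'.crd a (up (φ : Ω →+ Ω') w) := fun a =>
    (hL Ω n).up Ω' _ _ _ fun l i g => (map_mul φ _ _).trans (by rw [HmX.v h]; rfl)
  refine ⟨fun a c => congrArg Units.val (HmX.mon h a c), fun a c => HmX.inv (HmX.mon h a c), crd,
    fun a => (hL Ω n).up Ω' _ _ _ fun l i g => (map_mul φ _ _).trans (by rw [HmX.e h]; rfl),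
    HmX.AA h, fun c σ p w hw => ?_⟩
  rcases σ.eq_empty_or_nonempty with rfl | ⟨a, ha⟩
  · rw [(hLm k Ω ι J n S).emp, mem_lat_bot] at hw
    rw [hw, map_zero]
    exact zero_mem _
  rw [(hLm k Ω ι J n S).mem _ _ a ha, (hO Ω n).mem_fl] at hw
  rw [(hLm k' Ω' ι J n S').mem _ _ a ha, (hO Ω' n).mem_fl, ← crd, HmX.up_pd, hw.2]
  refine ⟨fun τ => ?_, rfl⟩
  have h1 := HmX.AA h σ ⟨a, ha⟩ _ (((hLo k Ω ι J n S).mem_one _ _ _ _).1 (hw.1 τ))
  rw [map_mul, HmX.inv (HmX.mon h a c)] at h1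
  exact ((hLo k' Ω' ι J n S').mem_one _ _ _ _).2 h1

end Pool.Agent.MP_ee8c61_ag.H59
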