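import Pool.Agent.MP_ee8c61_ag.H59.SpecB

/-!
The homotopies attached to the divisors.
-/

namespace Pool.Agent.MP_ee8c61_ag.H59

open Finset Sys

namespace HoX

variable {k Ω ι J : Type} {n : ℕ} [CommRing k] [CommRing Ω] [Algebra k Ω] [Fintype J]
  {S : Sys k Ω ι J n}

theorem sq_sign {M : Type} [AddCommGroup M] (m : ℕ) (x : M) :
    (-1 : ℤ) ^ m • (-1 : ℤ) ^ m • x = x := by
  rw [smul_smul, ← mul_pow]
  simp

theorem co_zero : (co (0 : Fin n → Ω)) = 0 := by
  simp [co]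

theorem logV_vv (lm : Lm S) {σ : Finset ι} {a : ι} (ha : a ∈ σ) (j : J) :
    S.LogV σ (S.vv a j) := by
  unfold Sys.vv
  cases S.lab a j with
  | none => exact fun b _ i => by simp
  | some i => exact lm.logV_v σ a ha i

theorem div_mem (lo : Lo S) {σ : Finset ι} {a b : ι} (ha : a ∈ σ) (hb : b ∈ σ) (j : J) :
    ((S.η a j / S.η b j : Ωˣ) : Ω) ∈ S.AA σ := lo.sup σ a ha b hb (S.η_mem a b j)

theorem dlog (lo : Lo S) {σ : Finset ι} {a b : ι} (ha : a ∈ σ) (hb : b ∈ σ) (j : J) (i : Fin n) :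
    ∃ h ∈ S.AA σ, S.D b i (S.η a j) =
      S.η a j * h + ((S.η a j / S.η b j : Ωˣ) : Ω) * S.D b i (S.η b j) := by
  refine ⟨((S.η b j / S.η a j : Ωˣ) : Ω) * S.D b i ((S.η a j / S.η b j : Ωˣ) : Ω),
    mul_mem (div_mem lo hb ha j) (lo.D_mem σ b hb i _ (div_mem lo ha hb j)), ?_⟩
  have e1 : (S.η a j : Ω) = ((S.η a j / S.η b j : Ωˣ) : Ω) * S.η b j := by
    rw [← Units.val_mul, div_mul_cancel]
  have e2 : (S.η a j : Ω) * ((S.η b j / S.η a j : Ωˣ) : Ω) = S.η b j := by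
    rw [← Units.val_mul, mul_div_cancel]
  rw [← mul_assoc, e2]
  conv_lhs => rw [e1, Derivation.leibniz, smul_eq_mul, smul_eq_mul]
  ring

/-- The Euler field of the chart `b` in the frame of the chart `a`. -/
theorem euler (fr : Fr S) (lo : Lo S) {σ : Finset ι} {a b : ι} (ha : a ∈ σ) (hb : b ∈ σ) {j : J}
    {i₀ i₁ : Fin n} (h0 : S.lab a j = some i₀) (h1 : S.lab b j = some i₁) (i : Fin n) :
    ∃ h ∈ S.AA σ, S.v b i₁ ⬝ᵥ S.e a i = S.η b j * h + if i₀ = i then 1 else 0 := by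
  have e : S.v b i₁ ⬝ᵥ S.e a i =
      (((S.un a i)⁻¹ : Ωˣ) : Ω) * (S.η b j * S.D b i₁ (S.z a i)) := by
    have e1 : S.e a i = (((S.un a i)⁻¹ : Ωˣ) : Ω) • S.gr (S.z a i) := rfl
    rw [e1, dotProduct_smul, fr.dv_gr, Sys.dv, fr.un_some b j i₁ h1]
    rfl
  rw [e]
  by_cases hl : ∃ j', S.lab a j' = some i
  · obtain ⟨j', hj'⟩ := hl
    obtain ⟨h, hh, e2⟩ := dlog lo ha hb j' i₁
    refine ⟨h, hh, ?_⟩
    rw [fr.un_some a j' i hj', ← S.η_some a j' i hj', e2]
    have e3 : (((S.η a j')⁻¹ : Ωˣ) : Ω) * S.η a j' = 1 := Units.inv_mul _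
    by_cases hi : i₀ = i
    · obtain rfl : j = j' := S.lab_inj a j j' i (hi ▸ h0) hj'
      have e4 : ((S.η a j / S.η b j : Ωˣ) : Ω) * S.η b j = S.η a j := by
        rw [← Units.val_mul, div_mul_cancel]
      have e5 : S.D b i₁ (S.η b j) = 1 := by rw [S.η_some b j i₁ h1, S.D_z, if_pos rfl]
      rw [if_pos hi, e5]
      linear_combination (S.η b j * h + 1) * e3 + (((S.η a j)⁻¹ : Ωˣ) : Ω) * e4
    · have e5 : S.D b i₁ (S.η b j') = 0 := by
        cases h2 : S.lab b j' with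
        | none => rw [S.η_none b j' h2, Units.val_one, Derivation.map_one_eq_zero]
        | some i₂ =>
          rw [S.η_some b j' i₂ h2, S.D_z, if_neg]
          rintro rfl
          obtain rfl : j = j' := S.lab_inj b j j' i₁ h1 h2
          exact hi (Option.some.inj (h0.symm.trans hj'))
      rw [if_neg hi, e5]
      linear_combination (S.η b j * h) * e3
  · refine ⟨S.D b i₁ (S.z a i), lo.D_mem σ b hb i₁ _ (lo.le σ a ha (S.z_mem a i)), ?_⟩
    rw [fr.un_none a i fun j' hj' => hl ⟨j', hj'⟩, if_neg fun hi : i₀ = i => hl ⟨j, hi ▸ h0⟩]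
    simp

theorem logV_diff (fr : Fr S) (lo : Lo S) (lm : Lm S) {σ : Finset ι} {a b : ι} (ha : a ∈ σ)
    (hb : b ∈ σ) (j : J) :
    S.LogV σ ((((S.η a j)⁻¹ : Ωˣ) : Ω) • (S.vv a j - S.vv b j)) := by
  refine (lm.logV σ a ha _).2 fun i => ?_
  rw [smul_dotProduct, sub_dotProduct, smul_eq_mul]
  have m := sub_mem (logV_vv lm ha j a ha i) (logV_vv lm hb j a ha i)
  cases h0 : S.lab a j with
  | none =>
    rw [S.η_none a j h0, inv_one, Units.val_one, one_mul]
    exact m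
  | some i₀ =>
    cases h1 : S.lab b j with
    | none =>
      refine mul_mem ?_ m
      have := div_mem lo hb ha j
      rwa [S.η_none b j h1, one_div] at this
    | some i₁ =>
      obtain ⟨h, hh, e⟩ := euler fr lo ha hb h0 h1 i
      have e0 : S.vv a j = S.v a i₀ := by rw [Sys.vv, h0]; rfl
      have e1 : S.vv b j = S.v b i₁ := by rw [Sys.vv, h1]; rfl
      rw [e0, e1, e, fr.ve]
      convert neg_mem (mul_mem (div_mem lo hb ha j) hh) using 1
      rw [div_eq_mul_inv, Units.val_mul]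
      ring

theorem second (fo : Fo Ω n) (fr : Fr S) (lo : Lo S) (lm : Lm S) {σ : Finset ι} {a b : ι}
    (ha : a ∈ σ) (hb : b ∈ σ) (j : J) (c : J → ℤ) (p : ℤ) {w : Fm n Ω} (hw : w ∈ S.lm {c} σ p) :
    co (S.vv a j) w - co (S.vv b j) w ∈ S.lm {c + ind {j}} σ (p + -1) := by
  have h1 := lm.shift σ a ha c (ind {j}) (S.η a j) (by
    rw [fr.mon_ind, Units.mul_inv]; exact one_mem _) _ _
    (lm.co {c} σ _ (logV_diff fr lo lm ha hb j) p w hw)
  convert h1 using 1
  have e : S.vv a j = (S.η a j : Ω) • ((((S.η a j)⁻¹ : Ωˣ) : Ω) • (S.vv a j - S.vv b j)) +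
      S.vv b j := by
    rw [smul_smul, Units.mul_inv, one_smul, sub_add_cancel]
  conv_lhs => rw [e, fo.co_add, fo.co_smul]
  simp

theorem first (fo : Fo Ω n) (fr : Fr S) (lo : Lo S) (lm : Lm S) {σ : Finset ι} {a : ι}
    (ha : a ∈ σ) (j : J) (c : J → ℤ) (p : ℤ) {w : Fm n Ω} (hw : w ∈ S.lm {c} σ p) :
    S.dd (co (S.vv a j) w) + co (S.vv a j) (S.dd w) - c j • w ∈ S.lm {c + ind {j}} σ p := by
  cases h0 : S.lab a j with
  | none =>
    have e0 : S.vv a j = 0 := by rw [Sys.vv, h0]; rfl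
    have h1 := lm.shift σ a ha c (ind {j}) 1 (by
      rw [fr.mon_ind, S.η_none a j h0]; simp) _ _ hw
    rw [e0, co_zero]
    simpa using zsmul_mem h1 (c j)
  | some i =>
    have e0 : S.vv a j = S.v a i := by rw [Sys.vv, h0]; rfl
    have d1 : ∀ x, S.crd a (S.dd x) = dR (fun i => dop (S.dv a i)) (S.crd a x) :=
      fun x => DFunLike.congr_fun (fr.crd_d a) x
    have d2 : ∀ x, S.crd a (co (S.v a i) x) = io i (S.crd a x) :=
      fun x => DFunLike.congr_fun (fr.crd_v a i) x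
    have d3 : ∀ x, dR (fun i => dop (S.dv a i)) (io i x) + io i (dR (fun i => dop (S.dv a i)) x) =
        ev (dop (S.dv a i)) x := fun x => DFunLike.congr_fun (fo.dR_io _ i) x
    rw [lm.mem _ σ a ha] at hw ⊢
    rw [e0, map_sub, map_add, d1, d2, d2, d1, d3, map_zsmul]
    generalize S.crd a w = u at hw
    rw [fl, mem_lat] at hw ⊢
    intro τ
    obtain ⟨h1, h2⟩ := (mem_deg0 _ _ _).1 (hw τ)
    refine (mem_deg0 _ _ _).2 ⟨?_, fun h => by simp [h2 h]⟩
    rw [lo.mem_one] at h1 ⊢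
    have e1 : (∑ j', if S.lab a j' = some i then c j' else 0) = c j := by
      rw [sum_eq_single j (fun j' _ hj => if_neg fun h => hj (S.lab_inj a j' j i h h0))
        (fun h => absurd (mem_univ j) h), if_pos h0]
    have e2 := fr.dv_mon a i c
    rw [e1] at e2
    have e3 : u τ = S.mon a c * (u τ * (((S.mon a c)⁻¹ : Ωˣ) : Ω)) := by
      rw [mul_left_comm, Units.mul_inv, mul_one]
    have e4 : ∀ g, S.dv a i g = S.η a j * S.D a i g := fun g => by
      rw [Sys.dv, fr.un_some a j i h0]; rfl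
    convert lo.D_mem σ a ha i _ h1 using 1
    generalize u τ * (((S.mon a c)⁻¹ : Ωˣ) : Ω) = h at e3
    rw [Pi.sub_apply, Pi.smul_apply, ev_apply, dop_apply, e3, Derivation.leibniz, e2, e4,
      fr.mon_add, fr.mon_ind, mul_inv, Units.val_mul]
    have e5 : (S.mon a c : Ω) * (((S.mon a c)⁻¹ : Ωˣ) : Ω) = 1 := Units.mul_inv _
    have e6 : (S.η a j : Ω) * (((S.η a j)⁻¹ : Ωˣ) : Ω) = 1 := Units.mul_inv _
    simp only [smul_eq_mul, zsmul_eq_mul]
    linear_combination (S.D a i h * (S.η a j * (((S.η a j)⁻¹ : Ωˣ) : Ω))) * e5 + S.D a i h * e6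

variable [LinearOrder ι] [Inhabited ι]

theorem hh_apply (j : J) (γ : Ch ι (Fm n Ω)) (σ : Finset ι) :
    S.hh j γ σ = (-1 : ℤ) ^ σ.card • co (S.vv (pick σ) j) (γ σ) := rfl

theorem emp_zero (lm : Lm S) {C : Finset (J → ℤ)} {q : ℤ} {γ : Ch ι (Fm n Ω)}
    (h : γ ∈ S.T C q) : γ ∅ = 0 := by
  have := (S.mem_T C q γ).1 h ∅
  rwa [lm.emp, mem_lat_bot] at this

end HoX

open HoX in
theorem rowHo : OfHo := by
  intro hC hFo _ _ hFr hLo hLm k Ω ι J n _ _ _ _ S _ _ _
  have fo := hFo Ω n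
  have fr := hFr k Ω ι J n S
  have lo := hLo k Ω ι J n S
  have lm := hLm k Ω ι J n S
  refine ⟨fun C j q γ h => ?_, fun i j => ?_, fun i => ?_, fun i c γ => ?_,
    fun c j q γ h => ?_, fun θ g j hg c q γ h => ?_⟩
  · refine (S.mem_T _ _ _).2 fun σ => ?_
    have h1 : S.LogV σ (S.vv (pick σ) j) := fun a ha => logV_vv lm (pick_mem ⟨a, ha⟩) j a ha
    rw [hh_apply, show q + -1 - σ.card = q - σ.card + -1 by ring]
    exact zsmul_mem (lm.co C σ _ h1 _ _ ((S.mem_T _ _ _).1 h σ)) _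
  · refine op_ext fun γ => funext fun σ => ?_
    rw [op_add, op_mul, op_mul, Pi.add_apply, hh_apply, hh_apply, hh_apply, hh_apply, map_zsmul,
      map_zsmul, sq_sign, sq_sign]
    exact DFunLike.congr_fun (fo.co_co (S.vv (pick σ) i) (S.vv (pick σ) j)) (γ σ)
  · refine op_ext fun γ => funext fun σ => ?_
    rw [op_mul, hh_apply, hh_apply, map_zsmul, sq_sign]
    exact DFunLike.congr_fun (fo.co_sq (S.vv (pick σ) i)) (γ σ)
  · funext σ
    rw [Pi.smul_apply, hh_apply, hh_apply, Pi.smul_apply, fo.lin_co, smul_comm]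
  · refine (S.mem_T _ _ _).2 fun σ => ?_
    have hk := (hC ι (Fm n Ω)).kos_apply S.dd (fun _ => 1) univ
    rw [Pi.sub_apply, Pi.add_apply, Pi.smul_apply, hh_apply, cech, hk, hk, hh_apply, univ_inter,
      map_zsmul, sq_sign, map_add, map_zsmul, smul_add, sq_sign, map_sum, smul_sum,
      add_add_add_comm, ← sum_add_distrib, add_sub_right_comm]
    rcases σ.eq_empty_or_nonempty with rfl | hσ
    · simp [emp_zero lm h]
    refine add_mem (first fo fr lo lm (pick_mem hσ) j c _ ((S.mem_T _ _ _).1 h σ))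
      (sum_mem fun b hb => ?_)
    have hc : σ.card = (σ.erase b).card + 1 := (card_erase_add_one hb).symm
    rcases (σ.erase b).eq_empty_or_nonempty with he | he
    · simp [he, hh_apply, emp_zero lm h]
    have h1 := second fo fr lo lm (pick_mem hσ) (mem_of_mem_erase (pick_mem he)) j c _
      (lm.mono _ _ _ (erase_subset b σ) _ ((S.mem_T _ _ _).1 h (σ.erase b)))
    have h2 := zsmul_mem h1 (sgn b σ * (-1) ^ σ.card)
    convert h2 using 1
    · rw [hc]; push_cast; ring_nf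
    · rw [op_one, op_one, hh_apply, map_zsmul, hc, pow_succ]
      module
  · refine (S.mem_T _ _ _).2 fun σ => ?_
    rw [Pi.sub_apply, Pi.add_apply, Pi.smul_apply, hh_apply, od_apply, od_apply, hh_apply,
      map_zsmul, map_zsmul, sq_sign, sq_sign]
    rcases σ.eq_empty_or_nonempty with rfl | hσ
    · simp [emp_zero lm h]
    have h1 := lm.shift σ _ (pick_mem hσ) c (ind {j}) _ (by
      rw [fr.mon_ind]; exact lo.le σ _ (pick_mem hσ) (hg _)) _ _ ((S.mem_T _ _ _).1 h σ)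
    have h2 := DFunLike.congr_fun (fo.we_co θ (S.vv (pick σ) j)) (γ σ)
    rw [op_add, op_mul, op_mul] at h2
    rw [h2]
    simpa [sub_smul] using h1

end Pool.Agent.MP_ee8c61_ag.H59
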