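import Pool.Agent.MP_ee8c61_ag.H59.SpecB

/-!
Intersection of a principal monomial lattice with the lattice of a stratum.
-/

namespace Pool.Agent.MP_ee8c61_ag.H59

open Finset Sys

namespace InterX

variable {k Ω ι J : Type} {n : ℕ} [CommRing k] [CommRing Ω] [Algebra k Ω] (S : Sys k Ω ι J n)

theorem reg (hR : S.Reg) {σ : Finset ι} {a : ι} (ha : a ∈ σ) {I : Finset J} {i : J} (hi : i ∉ I)
    {u : Ω} (hu : u ∈ S.AA σ) {h : J → Ω} (hh : ∀ j, h j ∈ S.AA σ)
    (he : (S.η a i : Ω) * u = ∑ j ∈ I, (S.η a j : Ω) * h j) :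
    ∃ h' : J → Ω, (∀ j, h' j ∈ S.AA σ) ∧ u = ∑ j ∈ I, (S.η a j : Ω) * h' j := by
  classical
  cases h0 : S.lab a i with
  | none => exact ⟨h, hh, by rw [← he, S.η_none a i h0, Units.val_one, one_mul]⟩
  | some i0 =>
    by_cases h1 : ∃ j ∈ I, S.lab a j = none
    · obtain ⟨j, hj, h1⟩ := h1
      refine ⟨fun l => if l = j then u else 0, fun l => ?_, ?_⟩
      · dsimp only
        split_ifs
        · exact hu
        · exact zero_mem _
      · simp [hj, S.η_none a j h1]
    · let lb : J → Fin n := fun j => (S.lab a j).getD i0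
      have h2 : ∀ j ∈ I, S.lab a j = some (lb j) := fun j hj => by
        cases h3 : S.lab a j with
        | none => exact (h1 ⟨j, hj, h3⟩).elim
        | some l => simp [lb, h3]
      have h3 : ∀ j ∈ I, (S.η a j : Ω) = S.z a (lb j) := fun j hj => S.η_some a j _ (h2 j hj)
      have h4 : i0 ∉ I.image lb := fun h4 => by
        obtain ⟨j, hj, h5⟩ := mem_image.1 h4
        exact hi (S.lab_inj a j i i0 (h5 ▸ h2 j hj) h0 ▸ hj)
      obtain ⟨c, hc, h5⟩ := hR σ a ha (fun _ => Polynomial.X) (fun _ => Polynomial.monic_X)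
        (I.image lb) i0 h4 u hu ⟨fun l => ∑ j ∈ I with lb j = l, h j,
          fun l => sum_mem fun j _ => hh j, by
            simp only [Polynomial.aeval_X]
            rw [← S.η_some a i i0 h0, he,
              ← sum_fiberwise_of_maps_to (g := lb) fun j hj => mem_image_of_mem lb hj]
            refine sum_congr rfl fun l _ => ?_
            rw [mul_sum]
            refine sum_congr rfl fun j hj => ?_
            rw [h3 j (mem_filter.1 hj).1, (mem_filter.1 hj).2]⟩
      refine ⟨fun j => c (lb j), fun j => hc _, ?_⟩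
      rw [h5, sum_image (g := lb) fun j hj j' hj' h6 =>
        S.lab_inj a j j' (lb j) (h2 j hj) (by rw [h6]; exact h2 j' hj')]
      exact sum_congr rfl fun j hj => by rw [Polynomial.aeval_X, h3 j hj]

variable [Fintype J]

theorem nn (F : Fr S) (L : Lo S) (hR : S.Reg) (c : J → ℤ) {I : Finset J} {i : J} (hi : i ∉ I)
    {σ : Finset ι} {a : ι} (ha : a ∈ σ) :
    S.NN a σ {c + ind {i}} ⊓ S.NN a σ (KJ c I) = S.NN a σ (KJ (c + ind {i}) I) := by
  ext g
  have hη : ∀ j, (S.η a j : Ω) ∈ S.AA σ := fun j => L.le σ a ha (F.eta_mem a j)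
  rw [AddSubgroup.mem_inf, L.mem_one, L.mem_KJ, L.mem_KJ, F.mon_add, F.mon_ind]
  constructor
  · rintro ⟨hu, h, hh, he⟩
    obtain ⟨h', h1, h2⟩ := reg S hR ha hi hu hh (by
      rw [he, mul_inv, Units.val_mul, mul_comm (S.mon a c : Ω), mul_assoc, ← mul_assoc
        (S.mon a c : Ω), Units.mul_inv, one_mul, mul_left_comm, Units.mul_inv, mul_one])
    exact ⟨h', h1, by rw [← h2, mul_left_comm, Units.mul_inv, mul_one]⟩
  · rintro ⟨h, hh, rfl⟩
    refine ⟨?_, fun j => S.η a i * h j, fun j => mul_mem (hη i) (hh j), ?_⟩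
    · rw [mul_right_comm, Units.mul_inv, one_mul]
      exact sum_mem fun j _ => mul_mem (hη j) (hh j)
    · rw [Units.val_mul, mul_assoc, mul_sum]
      exact congrArg _ (sum_congr rfl fun j _ => mul_left_comm _ _ _)

end InterX

theorem rowInter : OfInter := by
  intro hFo hFr hLo hLm k Ω ι J n _ _ _ _ S hR c I i hi σ
  have M := hLm k Ω ι J n S
  rcases σ.eq_empty_or_nonempty with rfl | ⟨a, ha⟩
  · rw [M.emp, M.emp, M.emp, inf_idem]
  funext p
  ext w
  rw [Pi.inf_apply, AddSubgroup.mem_inf, M.mem _ σ a ha, M.mem _ σ a ha, M.mem _ σ a ha,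
    ← InterX.nn S (hFr k Ω ι J n S) (hLo k Ω ι J n S) hR c hi ha, (hFo Ω n).fl_inf, Pi.inf_apply,
    AddSubgroup.mem_inf]

end Pool.Agent.MP_ee8c61_ag.H59
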