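import Pool.Agent.MP_ee8c61_ag.H59.SpecC

/-!
A power of a function in the radical of the critical ideal acts by zero on the twisted complex.
-/

namespace Pool.Agent.MP_ee8c61_ag.H59

open Finset

namespace KillX

variable {k Ω ι J : Type} {n : ℕ} [CommRing k] [CommRing Ω] [Algebra k Ω] [Fintype J]
  (S : Sys k Ω ι J n)

theorem crd_smul (a : ι) (u : Ω) (w : Fm n Ω) : S.crd a (u • w) = u • S.crd a w := by
  change (∑ σ, (u • w) σ • _) = u • ∑ σ, w σ • _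
  rw [smul_sum]
  exact sum_congr rfl fun σ _ => by rw [Pi.smul_apply, smul_eq_mul, mul_smul]

theorem mem_NN_of {a : ι} {σ : Finset ι} {C : Finset (J → ℤ)} {c : J → ℤ} (hc : c ∈ C) {h : Ω}
    (hh : h ∈ S.AA σ) : (S.mon a c : Ω) * h ∈ S.NN a σ C :=
  AddSubgroup.mem_iSup_of_mem c (AddSubgroup.mem_iSup_of_mem hc ⟨h, hh, rfl⟩)

/-- Multiplication by a high monomial sends the larger lattice into the smaller one. -/
theorem into (hFo : Fo Ω n) (hFr : Fr S) (hLo : Lo S) (hLm : Lm S) {C C' : Finset (J → ℤ)}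
    {b : J → ℤ} (hb : ∀ c ∈ C, ∃ c' ∈ C', c' ≤ c + b) {σ : Finset ι} {a : ι} (ha : a ∈ σ) {t : Ω}
    (ht : t ∈ S.A a) {j : ℤ} {x : Fm n Ω} (hx : x ∈ S.lm C σ j) :
    (t * S.mon a b) • x ∈ S.lm C' σ j := by
  rw [hLm.mem _ _ a ha] at hx ⊢
  rw [crd_smul]
  refine hFo.fl_mu (S.NN a σ C) (S.NN a σ C') _ (fun h hh => ?_) j _ hx
  obtain ⟨f, hf, rfl⟩ := (hLo.mem_NN a σ C h).1 hh
  rw [mul_sum]
  refine sum_mem fun c hc => ?_
  obtain ⟨c', hc', hle⟩ := hb c hc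
  have e1 : S.mon a c * S.mon a b = S.mon a c' * S.mon a (c + b - c') := by
    rw [← hFr.mon_add, ← hFr.mon_add, add_sub_cancel]
  have e2 : (S.mon a c : Ω) * S.mon a b = S.mon a c' * S.mon a (c + b - c') := by
    rw [← Units.val_mul, e1, Units.val_mul]
  have e3 : t * (S.mon a b : Ω) * (S.mon a c * f c) =
      S.mon a c' * (S.mon a (c + b - c') * (t * f c)) := by
    linear_combination (t * f c) * e2
  rw [e3]
  exact mem_NN_of S hc' (mul_mem (hLo.le σ a ha (hFr.mon_mem a _ (sub_nonneg.2 hle)))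
    (mul_mem (hLo.le σ a ha ht) (hf c)))

/-- The decomposition of a uniform power on one chart. -/
theorem split (hFr : Fr S) {θ : Fin n → Ω} {av : J → ℤ} (e : ℕ) {g : Ω} {a : ι}
    (hθ : ∀ i, S.v a i ⬝ᵥ θ ∈ S.A a) (hav : 0 ≤ av) (hg : g ∈ S.A a)
    (h : S.InRad a θ (S.mon a av) g) :
    ∃ N : ℕ, ∀ M, N ≤ M → ∃ (c : Fin n → Ω) (t : Ω), (∀ i, c i ∈ S.A a) ∧ t ∈ S.A a ∧
      g ^ M = ∑ i, c i * (S.v a i ⬝ᵥ θ) + t * S.mon a (e • av) := by
  obtain ⟨N, c, c0, hc, hc0, hN⟩ := h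
  refine ⟨N * e, fun M hM => ?_⟩
  obtain ⟨r, rfl⟩ := Nat.exists_eq_add_of_le hM
  have hP : ∑ i, c i * (S.v a i ⬝ᵥ θ) ∈ S.A a := sum_mem fun i _ => mul_mem (hc i) (hθ i)
  have hQ : c0 * (S.mon a av : Ω) ∈ S.A a := mul_mem hc0 (hFr.mon_mem a av hav)
  obtain ⟨s, hs⟩ := sub_dvd_pow_sub_pow
    ((⟨_, hP⟩ : S.A a) + ⟨_, hQ⟩) (⟨_, hQ⟩ : S.A a) e
  have hs' : (∑ i, c i * (S.v a i ⬝ᵥ θ) + c0 * (S.mon a av : Ω)) ^ e -
      (c0 * (S.mon a av : Ω)) ^ e = (∑ i, c i * (S.v a i ⬝ᵥ θ)) * (s : Ω) := by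
    have := congrArg Subtype.val hs
    simpa using this
  have hm : (S.mon a (e • av) : Ω) = (S.mon a av : Ω) ^ e := by
    rw [← natCast_zsmul, hFr.mon_zsmul, zpow_natCast, Units.val_pow_eq_pow_val]
  refine ⟨fun i => g ^ r * s * c i, g ^ r * c0 ^ e,
    fun i => mul_mem (mul_mem (pow_mem hg r) s.2) (hc i),
    mul_mem (pow_mem hg r) (pow_mem hc0 e), ?_⟩
  have hsum : ∑ i, g ^ r * (s : Ω) * c i * (S.v a i ⬝ᵥ θ) =
      g ^ r * s * ∑ i, c i * (S.v a i ⬝ᵥ θ) := by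
    rw [mul_sum]
    exact sum_congr rfl fun i _ => mul_assoc _ _ _
  rw [hsum, hm, pow_add, pow_mul, hN]
  rw [mul_pow] at hs'
  linear_combination g ^ r * hs'

theorem loc (hX : Cx (Fm n Ω)) (hFo : Fo Ω n) (hFr : Fr S) (hLo : Lo S) (hLm : Lm S)
    {C C' : Finset (J → ℤ)} {b : J → ℤ} (hb : ∀ c ∈ C, ∃ c' ∈ C', c' ≤ c + b) {σ : Finset ι}
    {a : ι} (ha : a ∈ σ) (θ c : Fin n → Ω) (t u : Ω) (hc : ∀ i, c i ∈ S.A a) (ht : t ∈ S.A a)
    (hu : u = ∑ i, c i * (S.v a i ⬝ᵥ θ) + t * S.mon a b) (j : ℤ) :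
    Null (we θ) (S.lm C σ) (S.lm C' σ) (S.lm C σ) (S.lm C' σ) (mu _ u) j := by
  have hV : S.LogV σ (∑ i, c i • S.v a i) := by
    refine (hLm.logV σ a ha _).2 fun i => ?_
    rw [sum_dotProduct]
    refine sum_mem fun l _ => ?_
    rw [smul_dotProduct, hFr.ve, smul_eq_mul]
    split_ifs
    · rw [mul_one]
      exact hLo.le σ a ha (hc l)
    · rw [mul_zero]
      exact zero_mem _
  have hdot : (∑ i, c i • S.v a i) ⬝ᵥ θ = ∑ i, c i * (S.v a i ⬝ᵥ θ) := by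
    rw [sum_dotProduct]
    exact sum_congr rfl fun i _ => by rw [smul_dotProduct, smul_eq_mul]
  refine hX.hom (we θ) (mu _ u) (co (∑ i, c i • S.v a i)) _ _ _ _ j (fun x hx => ?_)
    (fun x hx => ?_) fun x hx => ?_
  · have := hLm.co C σ _ hV j x hx
    rwa [← sub_eq_add_neg] at this
  · have := hLm.co C' σ _ hV (j + 1) x hx
    rwa [add_neg_cancel_right] at this
  · have e1 := DFunLike.congr_fun (hFo.we_co θ (∑ i, c i • S.v a i)) x
    rw [op_add, op_mul, op_mul, mu_apply, hdot] at e1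
    rw [e1, mu_apply, hu, ← sub_smul, add_sub_cancel_left]
    exact into S hFo hFr hLo hLm hb ha ht hx

end KillX

theorem rowKill : OfKill := by
  intro _ hX _ hF hFo hFr hLo hLm k Ω ι J n _ _ _ _ S _ _ θ C C' av e g hθ hle hav hb hg hR
  have hFo := hFo Ω n
  have hFr := hFr k Ω ι J n S
  have hLo := hLo k Ω ι J n S
  have hLm := hLm k Ω ι J n S
  choose N hN using fun a => KillX.split S hFr e (hθ a) hav (hg a) (hR a)
  have hK : KOK (we θ) (fun _ : ι => 1) univ (S.lm C) (S.lm C') :=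
    hLm.kok (we θ) C C' (hFo.we_sq θ) hle fun C σ => hLm.we C σ θ (hLm.logF_all θ hθ σ)
  have hp : ∀ a, g ^ (∑ a, N a) ∈ S.A a := fun a => pow_mem (hg a) _
  refine ⟨(∑ a, N a) * 2 ^ (univ : Finset ι).card, fun j => ?_⟩
  have h := (hF ι (Fm n Ω)).null (we θ) (mu _ (g ^ (∑ a, N a))) (fun _ => 1) univ (S.lm C)
    (S.lm C') hK ((hFo.lin_we θ).comm _) (fun _ _ => Commute.one_right _)
    (hLm.mu_all C _ hp) (hLm.mu_all C' _ hp) (fun σ _ j => ?_) j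
  · rw [kl_univ, kl_univ, ev_mu, ← map_pow, ← pow_mul] at h
    exact h
  · rcases σ.eq_empty_or_nonempty with rfl | ⟨a, ha⟩
    · intro x hx _
      rw [hLm.emp, mem_lat_bot] at hx
      refine ⟨0, zero_mem _, ?_⟩
      rw [hx, map_zero, map_zero, sub_zero]
      exact zero_mem _
    · obtain ⟨c, t, hc, ht, hu⟩ := hN a (∑ a, N a)
        (single_le_sum (fun _ _ => Nat.zero_le _) (mem_univ a))
      exact KillX.loc S (hX _) hFo hFr hLo hLm hb ha θ c t _ hc ht hu j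

end Pool.Agent.MP_ee8c61_ag.H59
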