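import Pool.Agent.MP_ee8c61_ag.H59.SpecA

/-!
Vanishing for a Koszul complex depends only on the radical.
-/

namespace Pool.Agent.MP_ee8c61_ag.H59

open Finset

namespace KxX

variable {Ω M κ : Type} [CommRing Ω] [AddCommGroup M] [Module Ω M] [LinearOrder κ]

/-- A linear complex whose lattices are stable under `B`. -/
structure Ok (B : Subring Ω) (d : Op M) (L L' : Lat M) : Prop where
  pair : Pair d L L'
  lin : Lin Ω d
  kp : ∀ b ∈ B, Keeps (mu M b) L L
  kp' : ∀ b ∈ B, Keeps (mu M b) L' L'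

variable {B : Subring Ω} {d : Op M} {L L' : Lat M}

theorem Ok.kok (h : Ok B d L L') (t : κ → Ω) (S : Finset κ) (ht : ∀ l ∈ S, t l ∈ B) :
    KOK d (fun l => mu M (t l)) S (fun _ => L) fun _ => L' :=
  ⟨fun _ => h.pair, fun _ _ => h.lin.comm _, fun _ _ _ _ => mu_comm _ _,
    fun i hi _ _ => h.kp _ (ht i hi), fun i hi _ _ => h.kp' _ (ht i hi)⟩

theorem Ok.kos (hC : SCar) (hO : SCone) (h : Ok B d L L') (t : κ → Ω) (S : Finset κ)
    (ht : ∀ l ∈ S, t l ∈ B) :
    Ok B (kos d (fun l => mu M (t l)) S) (kl S fun _ => L) (kl S fun _ => L') where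
  pair := (hO κ M).pair _ _ _ _ _ (h.kok t S ht)
  lin := fun c x => (DFunLike.congr_fun ((hC κ M).kos_ev d (mu M c) (fun l => mu M (t l)) S
    (h.lin.comm c) fun _ _ => mu_comm _ _).eq x).symm
  kp := fun b hb => (hO κ M).keeps (mu M b) S _ _ fun _ _ => h.kp b hb
  kp' := fun b hb => (hO κ M).keeps (mu M b) S _ _ fun _ _ => h.kp' b hb

theorem Ok.inj_pow (hX : SCx) (h : Ok B d L L') {b : Ω} (hb : b ∈ B) {j : ℤ}
    (hi : Inj d L L' L L' (mu M b) j) (n : ℕ) : Inj d L L' L L' (mu M (b ^ n)) j := by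
  induction n with
  | zero =>
    intro x _ _ a
    simpa using a
  | succ n ih =>
    rw [pow_succ, map_mul]
    exact (hX M).inj_mul d _ _ L L' L L' L L' j (h.lin.comm b) (h.kp b hb) (h.kp' b hb) hi ih

/-- Operators of which a power is null can be removed from the Koszul complex. -/
theorem Ok.drop (hC : SCar) (hX : SCx) (hO : SCone) (hF : SFilt) (h : Ok B d L L') (u : κ → Ω)
    (Q : ℤ) (s : Finset κ) : (∀ i ∈ s, u i ∈ B) →
    (∀ i ∈ s, ∃ N : ℕ, ∀ j, Null d L L' L L' (mu M (u i ^ N)) j) →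
    (∀ j < Q, Van (H59.kos d (fun i => mu M (u i)) s) (kl s fun _ => L) (kl s fun _ => L') j) →
    ∀ j < Q, Van d L L' j := by
  induction s using Finset.induction_on with
  | empty => exact fun _ _ hv j hj => ((hO κ M).emp d _ _ _ j).1 (hv j hj)
  | insert i s hi ih =>
    intro hu hn hv
    have hu' : ∀ l ∈ s, u l ∈ B := fun l hl => hu l (mem_insert_of_mem hl)
    have hb : u i ∈ B := hu i (mem_insert_self i s)
    refine ih hu' (fun l hl => hn l (mem_insert_of_mem hl)) fun j hj => ?_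
    obtain ⟨N, hN⟩ := hn i (mem_insert_self i s)
    have h1 := (hO κ M).inj d _ s i _ _ j hi (h.kok u _ hu) (hv j hj)
    have h2 := (h.kos hC hO u s hu').inj_pow hX hb h1 (N * 2 ^ s.card)
    have h3 := (hF κ M).null d (mu M (u i ^ N)) _ s _ _ (h.kok u s hu') (h.lin.comm _)
      (fun _ _ => mu_comm _ _) (fun _ => h.kp _ (B.pow_mem hb N))
      (fun _ => h.kp' _ (B.pow_mem hb N)) (fun _ _ => hN) j
    rw [ev_mu, ← map_pow, ← pow_mul] at h3
    exact (hX _).van _ _ _ _ _ _ j h3 h2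

end KxX

open KxX in
theorem rowKx : OfKx := by
  intro hC hX hO hF hS Ω M κ κ' _ _ _ _ _ B d L L' t u S S' Q hp hl hk hk' ht hu hr hv
  have h : Ok B d L L' := ⟨hp, hl, hk, hk'⟩
  refine (h.kos hC hO t S ht).drop hC hX hO hF u Q S' hu (fun i hi => ?_) fun j hj => ?_
  · obtain ⟨N, c, hc, e⟩ := hr i hi
    refine ⟨N, fun j => ?_⟩
    have h1 := (hO κ M).hom d (fun l => mu M (t l)) (fun l => mu M (c l)) S (fun _ => L)
      (fun _ => L') (fun _ => L) (fun _ => L') j (fun _ _ => hl.comm _)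
      (fun _ _ _ _ => mu_comm _ _) (fun l _ _ _ => hk _ (hc l)) fun l _ _ _ => hk' _ (hc l)
    have e' : ∑ l ∈ S, mu M (c l) * mu M (t l) = mu M (u i ^ N) := by
      rw [e, map_sum]
      exact sum_congr rfl fun l _ => (map_mul _ _ _).symm
    rw [e'] at h1
    exact h1
  · exact hS κ' κ M d (fun i => mu M (u i)) (fun l => mu M (t l)) S' S (fun _ _ => L)
      (fun _ _ => L') j (fun _ => h.kok t S ht) (fun _ => h.kok u S' hu)
      (fun _ _ _ _ => mu_comm _ _) fun σ _ => hv _ (by omega)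

end Pool.Agent.MP_ee8c61_ag.H59
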