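import Pool.Agent.MP_ee8c61_ag.H59.SpecA

/-!
Koszul complexes of operators with left inverses.
-/

namespace Pool.Agent.MP_ee8c61_ag.H59

open Finset

theorem rowLeft : OfLeft := by
  intro hC hK κ M _ _ d t Δ L L' S S' Q hd hk hΔ h0
  have sub : ∀ s ⊆ S ∪ S', KOK d t s (fun _ => L) (fun _ => L') := fun s hs =>
    ⟨hk.pair, fun i hi => hk.cd i (hs hi), fun i hi i' hi' => hk.ct i (hs hi) i' (hs hi'),
      fun i hi => hk.kp i (hs hi), fun i hi => hk.kp' i (hs hi)⟩
  suffices h : ∀ s ⊆ S', ∀ j < Q + s.card,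
      Van (kos d t (S ∪ s)) (kl (S ∪ s) fun _ => L) (kl (S ∪ s) fun _ => L') j from h S' le_rfl
  intro s
  induction s using Finset.induction_on with
  | empty => simpa using h0
  | insert i s hi ih =>
    intro hs j hj
    have hi' : i ∈ S' := hs (mem_insert_self _ _)
    have hs' : s ⊆ S' := (subset_insert _ _).trans hs
    have hn : i ∉ S ∪ s := by
      rw [mem_union, not_or]
      exact ⟨disjoint_right.1 hd hi', hi⟩
    obtain ⟨e1, e2, e3, e4, e5⟩ := hΔ i hi'
    rw [union_insert]
    refine (hK κ M).van d t _ i _ _ j hn (sub _ ?_) ?_ ?_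
    · rw [← union_insert]
      exact union_subset_union_right hs
    · rintro x - - ⟨y, hy, h⟩
      have hc := (hC κ M).kos_ev d (Δ i) t (S ∪ s) e2 fun l hl =>
        e5 l (union_subset_union_right hs' hl) fun e => hn (e ▸ hl)
      refine ⟨ev (Δ i) y, (hK κ M).keeps _ _ _ _ (fun _ _ => e3) _ _ hy, ?_⟩
      have := (hK κ M).keeps (Δ i) (S ∪ s) _ _ (fun _ _ => e4) _ _ h
      rw [map_sub] at this
      convert this using 2
      · exact (DFunLike.congr_fun (congrArg (evH κ M) e1) x).symm
      · exact (DFunLike.congr_fun hc y).symm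
    · intro x hx hx'
      rw [card_insert_of_notMem hi] at hj
      obtain ⟨y, hy, h⟩ := ih hs' (j - 1) (by push_cast at hj; omega) x hx hx'
      exact ⟨0, zero_mem _, by simp, y, hy, by simpa using h⟩

end Pool.Agent.MP_ee8c61_ag.H59
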