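import Pool.Agent.MP_ee8c61_ag.H59.SpecB

/-!
Lattices of logarithmic forms: transport through the coordinates of one chart.
-/

namespace Pool.Agent.MP_ee8c61_ag.H59

open Finset Sys

namespace LmX

variable {k Ω ι J : Type} {n : ℕ} [CommRing k] [CommRing Ω] [Algebra k Ω] [Fintype J]
  {S : Sys k Ω ι J n}

theorem mem_lm (C : Finset (J → ℤ)) (σ : Finset ι) (p : ℤ) (w : Fm n Ω) :
    w ∈ S.lm C σ p ↔
      (∀ a ∈ σ, S.crd a w ∈ fl n (S.NN a σ C) p) ∧ (¬ σ.Nonempty → w = 0) := by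
  simp only [lm, AddSubgroup.mem_inf, AddSubgroup.mem_iInf, AddSubgroup.mem_comap,
    AddSubgroup.mem_bot]
  exact Iff.rfl

theorem emp (C : Finset (J → ℤ)) : S.lm C ∅ = ⊥ := by
  funext p
  ext w
  rw [mem_lm, mem_lat_bot]
  simp

theorem tr (hr : Fr S) (ho : Lo S) {σ : Finset ι} {a b : ι} (ha : a ∈ σ) (hb : b ∈ σ)
    (i j : Fin n) : S.v b i ⬝ᵥ S.e a j ∈ S.AA σ := by
  have h1 : S.v b i ⬝ᵥ S.e a j = S.dv b i (S.z a j) * (((S.un a j)⁻¹ : Ωˣ) : Ω) := by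
    rw [← hr.dv_gr, dotProduct, dotProduct, sum_mul]
    refine sum_congr rfl fun l _ => ?_
    simp only [Sys.e, Sys.gr]
    ring
  rw [h1]
  by_cases h : ∃ j', S.lab a j' = some j
  · obtain ⟨j', hj⟩ := h
    rw [hr.un_some a j' j hj, ← S.η_some a j' j hj, ← hr.mon_ind, ← ho.mem_one,
      ho.indep σ a ha b hb]
    refine ho.dv σ b hb _ i _ ?_
    rw [← ho.indep σ a ha b hb, ho.mem_one, Units.mul_inv]
    exact one_mem _
  · rw [hr.un_none a j fun j' hj => h ⟨j', hj⟩, inv_one, Units.val_one, mul_one]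
    exact ho.dv_mem σ b hb i _ (ho.le σ a ha (S.z_mem a j))

theorem logF (hr : Fr S) (ho : Lo S) (σ : Finset ι) (a : ι) (ha : a ∈ σ) (α : Fin n → Ω) :
    S.LogF σ α ↔ ∀ i, S.v a i ⬝ᵥ α ∈ S.AA σ := by
  refine ⟨fun h => h a ha, fun h b hb i => ?_⟩
  rw [hr.exp_e a α, dotProduct_sum]
  refine sum_mem fun j _ => ?_
  rw [dotProduct_smul, smul_eq_mul]
  exact mul_mem (h j) (tr hr ho ha hb i j)

theorem logV (hr : Fr S) (ho : Lo S) (σ : Finset ι) (a : ι) (ha : a ∈ σ) (β : Fin n → Ω) :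
    S.LogV σ β ↔ ∀ i, β ⬝ᵥ S.e a i ∈ S.AA σ := by
  refine ⟨fun h => h a ha, fun h b hb i => ?_⟩
  rw [hr.exp_v a β, sum_dotProduct]
  refine sum_mem fun j _ => ?_
  rw [smul_dotProduct, smul_eq_mul]
  exact mul_mem (h j) (tr hr ho hb ha j i)

theorem frm_crd (hr : Fr S) (a : ι) (w : Fm n Ω) : S.frm a (S.crd a w) = w :=
  DFunLike.congr_fun (hr.frm_crd a) w

theorem crd_frm (hr : Fr S) (a : ι) (w : Fm n Ω) : S.crd a (S.frm a w) = w :=
  DFunLike.congr_fun (hr.crd_frm a) w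

theorem mem (hl : La Ω n) (hr : Fr S) (ho : Lo S) (C : Finset (J → ℤ)) (σ : Finset ι) (a : ι)
    (ha : a ∈ σ) (p : ℤ) (w : Fm n Ω) : w ∈ S.lm C σ p ↔ S.crd a w ∈ fl n (S.NN a σ C) p := by
  rw [mem_lm]
  refine ⟨fun h => h.1 a ha, fun h => ⟨fun b hb => ?_, fun h' => absurd ⟨a, ha⟩ h'⟩⟩
  have h1 : S.crd b w = (S.crd b * S.frm a) (S.crd a w) := by rw [op_mul, frm_crd hr]
  rw [h1, crd, frm, hl.mul, ← ho.indep σ a ha b hb]
  refine hl.fl _ _ (fun l i g hg => ho.mul a σ C _ ?_ g hg) p _ h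
  have h2 : (∑ i', S.e a l i' • fun i => S.v b i i') i = S.v b i ⬝ᵥ S.e a l := by
    rw [Finset.sum_apply, dotProduct]
    exact sum_congr rfl fun i' _ => mul_comm _ _
  rw [h2]
  exact tr hr ho ha hb i l

/-- Transport of an operator through the coordinates. -/
theorem key (g : Op (Fm n Ω)) {C C' : Finset (J → ℤ)} {σ : Finset ι} {p p' : ℤ}
    (h : ∀ a ∈ σ, ∀ w, S.crd a w ∈ fl n (S.NN a σ C) p → S.crd a (g w) ∈ fl n (S.NN a σ C') p')
    (w : Fm n Ω) (hw : w ∈ S.lm C σ p) : g w ∈ S.lm C' σ p' := by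
  rw [mem_lm] at hw ⊢
  exact ⟨fun a ha => h a ha w (hw.1 a ha), fun h' => by rw [hw.2 h', map_zero]⟩

theorem fl_mono (hf : Fo Ω n) {N N' : AddSubgroup Ω} (h : N ≤ N') (p : ℤ) :
    fl n N p ≤ fl n N' p := fun w hw => by
  rw [hf.mem_fl] at hw ⊢
  exact ⟨fun σ => h (hw.1 σ), hw.2⟩

theorem none (hf : Fo Ω n) (hr : Fr S) (ho : Lo S) (σ : Finset ι) : S.lm ∅ σ = ⊥ := by
  funext p
  ext w
  rw [mem_lat_bot]
  refine ⟨fun h => ?_, fun h => h ▸ zero_mem _⟩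
  rw [mem_lm] at h
  by_cases hσ : σ.Nonempty
  · obtain ⟨a, ha⟩ := hσ
    have h1 := h.1 a ha
    rw [ho.NN_empty, hf.mem_fl] at h1
    have h2 : S.crd a w = 0 := funext fun τ => AddSubgroup.mem_bot.1 (h1.1 τ)
    rw [← frm_crd hr a w, h2, map_zero]
  · exact h.2 hσ

theorem pure (hf : Fo Ω n) (hl : La Ω n) (hr : Fr S) (C : Finset (J → ℤ)) (σ : Finset ι) (p : ℤ)
    (w : Fm n Ω) (h : w ∈ S.lm C σ p) : pd n p w = w := by
  rw [mem_lm] at h
  by_cases hσ : σ.Nonempty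
  · obtain ⟨a, ha⟩ := hσ
    have h1 := ((hf.mem_fl _ _ _).1 (h.1 a ha)).2
    have h2 : S.crd a (pd n p w) = pd n p (S.crd a w) :=
      DFunLike.congr_fun (hl.pd (fun l i => S.v a i l) p).eq w
    rw [← frm_crd hr a (pd n p w), h2, h1, frm_crd hr]
  · rw [h.2 hσ, map_zero]

theorem pd (hf : Fo Ω n) (hl : La Ω n) (hr : Fr S) (C : Finset (J → ℤ)) (σ : Finset ι) (p : ℤ) :
    Keeps (pd n p) (S.lm C σ) (S.lm C σ) := fun q w h => by
  have h1 := pure hf hl hr C σ q w h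
  by_cases hp : p = q
  · rw [hp, h1]
    exact h
  · have h2 : H59.pd n p (H59.pd n q w) = 0 := by
      rw [← op_mul, hf.pd_gr.orth, if_neg hp, op_zero]
    rw [← h1, h2]
    exact zero_mem _

theorem crd_mu (hl : La Ω n) (a : ι) (g : Ω) (w : Fm n Ω) :
    S.crd a (mu (Fm n Ω) g w) = mu (Fm n Ω) g (S.crd a w) := hl.lin _ g w

theorem mu (hf : Fo Ω n) (hl : La Ω n) (ho : Lo S) (C : Finset (J → ℤ)) (σ : Finset ι) (g : Ω)
    (hg : σ.Nonempty → g ∈ S.AA σ) : Keeps (mu _ g) (S.lm C σ) (S.lm C σ) := fun p =>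
  key _ fun a ha w hw => by
    rw [crd_mu hl]
    exact hf.fl_mu _ _ g (ho.mul a σ C g (hg ⟨a, ha⟩)) p _ hw

theorem mu_all (hf : Fo Ω n) (hl : La Ω n) (ho : Lo S) (C : Finset (J → ℤ)) (g : Ω)
    (hg : ∀ a, g ∈ S.A a) (σ : Finset ι) : Keeps (H59.mu _ g) (S.lm C σ) (S.lm C σ) :=
  mu hf hl ho C σ g fun ⟨a, ha⟩ => ho.le σ a ha (hg a)

theorem lift {g : Op (Fm n Ω)} {C C' : Finset (J → ℤ)}
    (h : ∀ σ, Keeps g (S.lm C σ) (S.lm C' σ)) : Keeps (ev g) (S.T C) (S.T C') := fun p γ hγ => by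
  rw [mem_T] at hγ ⊢
  exact fun σ => h σ _ _ (hγ σ)

theorem mu_T (hf : Fo Ω n) (hl : La Ω n) (ho : Lo S) (C : Finset (J → ℤ)) (g : Ω)
    (hg : ∀ a, g ∈ S.A a) : Keeps (H59.mu _ g) (S.T C) (S.T C) :=
  lift (mu_all hf hl ho C g hg)

theorem nn_shift (hr : Fr S) (ho : Lo S) (σ : Finset ι) (a : ι) (c e : J → ℤ) (g : Ω)
    (hg : g * (((S.mon a e)⁻¹ : Ωˣ) : Ω) ∈ S.AA σ) (h : Ω) (hh : h ∈ S.NN a σ {c}) :
    g * h ∈ S.NN a σ {c + e} := by
  rw [ho.mem_one] at hh ⊢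
  rw [hr.mon_add, mul_inv, Units.val_mul, mul_comm g, mul_mul_mul_comm]
  exact mul_mem hh hg

theorem shift (hf : Fo Ω n) (hl : La Ω n) (hr : Fr S) (ho : Lo S) (σ : Finset ι) (a : ι)
    (ha : a ∈ σ) (c e : J → ℤ) (g : Ω) (hg : g * (((S.mon a e)⁻¹ : Ωˣ) : Ω) ∈ S.AA σ) :
    Keeps (H59.mu _ g) (S.lm {c} σ) (S.lm {c + e} σ) := fun p w hw => by
  rw [mem hl hr ho _ σ a ha] at hw ⊢
  rw [crd_mu hl]
  exact hf.fl_mu _ _ g (nn_shift hr ho σ a c e g hg) p _ hw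

theorem shift_T (hf : Fo Ω n) (hl : La Ω n) (hr : Fr S) (ho : Lo S) (c e : J → ℤ) (g : Ω)
    (hg : ∀ a, g * (((S.mon a e)⁻¹ : Ωˣ) : Ω) ∈ S.A a) :
    Keeps (H59.mu _ g) (S.T {c}) (S.T {c + e}) :=
  lift (g := H59.mu _ g) fun σ p => key _ fun a ha w hw => by
    rw [crd_mu hl]
    exact hf.fl_mu _ _ g (nn_shift hr ho σ a c e g (ho.le σ a ha (hg a))) p _ hw

theorem we (hf : Fo Ω n) (hr : Fr S) (ho : Lo S) (C : Finset (J → ℤ)) (σ : Finset ι)
    (α : Fin n → Ω) (h : S.LogF σ α) : Maps (we α) (S.lm C σ) (S.lm C σ) 1 := fun p =>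
  key _ fun a ha w hw => by
    rw [← op_mul, hr.crd_we, op_mul]
    exact hf.fl_we _ _ _ (fun l => ho.mul a σ C _ (h a ha l)) p _ hw

theorem co (hf : Fo Ω n) (hr : Fr S) (ho : Lo S) (C : Finset (J → ℤ)) (σ : Finset ι)
    (β : Fin n → Ω) (h : S.LogV σ β) : Maps (co β) (S.lm C σ) (S.lm C σ) (-1) := fun p =>
  key _ fun a ha w hw => by
    rw [← op_mul, hr.crd_co, op_mul]
    exact hf.fl_co _ _ _ (fun l => ho.mul a σ C _ (h a ha l)) p _ hw

theorem dd (hf : Fo Ω n) (hr : Fr S) (ho : Lo S) (C : Finset (J → ℤ)) (σ : Finset ι) :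
    Maps S.dd (S.lm C σ) (S.lm C σ) 1 := fun p =>
  key _ fun a ha w hw => by
    rw [← op_mul, hr.crd_d, op_mul]
    exact hf.fl_dR _ _ _ (fun l => ho.dv σ a ha C l) p _ hw

theorem mono (hf : Fo Ω n) (hl : La Ω n) (hr : Fr S) (ho : Lo S) (C : Finset (J → ℤ))
    (σ σ' : Finset ι) (h : σ ⊆ σ') : S.lm C σ ≤ S.lm C σ' := fun p w hw => by
  by_cases hσ : σ.Nonempty
  · obtain ⟨a, ha⟩ := hσ
    rw [mem hl hr ho C σ a ha] at hw
    rw [mem hl hr ho C σ' a (h ha)]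
    exact fl_mono hf (ho.NN_mono a σ σ' C h) p hw
  · rw [((mem_lm _ _ _ _).1 hw).2 hσ]
    exact zero_mem _

theorem le (hf : Fo Ω n) (ho : Lo S) (C C' : Finset (J → ℤ)) (σ : Finset ι) (h : Le C' C) :
    S.lm C' σ ≤ S.lm C σ := fun p w hw =>
  key 1 (fun a ha _ hw => fl_mono hf (ho.NN_le σ a ha C C' h) p hw) w hw

theorem T_le (hf : Fo Ω n) (ho : Lo S) (C C' : Finset (J → ℤ)) (h : Le C' C) :
    S.T C' ≤ S.T C := fun p γ hγ => by
  rw [mem_T] at hγ ⊢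
  exact fun σ => le hf ho C C' σ h _ (hγ σ)

theorem union [DecidableEq (J → ℤ)] (hf : Fo Ω n) (hl : La Ω n) (hr : Fr S) (ho : Lo S)
    (C C' : Finset (J → ℤ)) (σ : Finset ι) : S.lm (C ∪ C') σ = S.lm C σ ⊔ S.lm C' σ := by
  refine le_antisymm (fun p w hw => ?_) (sup_le ?_ ?_)
  · by_cases hσ : σ.Nonempty
    · obtain ⟨a, ha⟩ := hσ
      rw [mem hl hr ho _ σ a ha, ho.NN_union, hf.fl_sup, Pi.sup_apply, AddSubgroup.mem_sup] at hw
      obtain ⟨x, hx, y, hy, h⟩ := hw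
      rw [Pi.sup_apply, AddSubgroup.mem_sup]
      refine ⟨S.frm a x, ?_, S.frm a y, ?_, ?_⟩
      · rwa [mem hl hr ho _ σ a ha, crd_frm hr]
      · rwa [mem hl hr ho _ σ a ha, crd_frm hr]
      · rw [← map_add, h, frm_crd hr]
    · rw [((mem_lm _ _ _ _).1 hw).2 hσ]
      exact zero_mem _
  · exact le hf ho _ _ σ fun c hc => ⟨c, mem_union_left _ hc, le_rfl⟩
  · exact le hf ho _ _ σ fun c hc => ⟨c, mem_union_right _ hc, le_rfl⟩

variable [Fintype ι] [LinearOrder ι]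

theorem kok (hf : Fo Ω n) (hl : La Ω n) (hr : Fr S) (ho : Lo S) (d : Op (Fm n Ω))
    (C C' : Finset (J → ℤ)) (hd : d * d = 0) (h : Le C' C)
    (hm : ∀ C σ, Maps d (S.lm C σ) (S.lm C σ) 1) :
    KOK d (fun _ => 1) univ (S.lm C) (S.lm C') where
  pair σ := ⟨hd, le hf ho C C' σ h, hm C σ, hm C' σ⟩
  cd _ _ := Commute.one_left _
  ct _ _ _ _ := Commute.one_left _
  kp i _ σ _ p _ hw := mono hf hl hr ho C σ _ (subset_insert i σ) p hw
  kp' i _ σ _ p _ hw := mono hf hl hr ho C' σ _ (subset_insert i σ) p hw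

theorem pair (hc : Cone ι (Fm n Ω)) (hf : Fo Ω n) (hl : La Ω n) (hr : Fr S) (ho : Lo S)
    (d : Op (Fm n Ω)) (C C' : Finset (J → ℤ)) (hd : d * d = 0) (h : Le C' C)
    (hm : ∀ C σ, Maps d (S.lm C σ) (S.lm C σ) 1) : Pair (cech d) (S.T C) (S.T C') := by
  have h1 := hc.pair d _ _ _ _ (kok hf hl hr ho d C C' hd h hm)
  rwa [kl_univ, kl_univ] at h1

theorem lin0 (hc : Car ι (Fm n Ω)) : Lin Ω (cech 0 : Op (Ch ι (Fm n Ω))) := fun c γ =>
  (DFunLike.congr_fun (hc.kos_ev 0 (H59.mu _ c) (fun _ => 1) univ (Commute.zero_right _)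
    fun _ _ => Commute.one_right _).eq γ).symm

end LmX

theorem rowLm : OfLm := by
  intro hcar hcone hfo hla hfr hlo k Ω ι J n _ _ _ _ S
  have hf := hfo Ω n
  have hl := hla Ω n
  have hr : Fr S := hfr k Ω ι J n S
  have ho : Lo S := hlo k Ω ι J n S
  exact
    { logF := LmX.logF hr ho
      logV := LmX.logV hr ho
      logF_e := fun σ a ha i b hb j => LmX.tr hr ho ha hb j i
      logV_v := fun σ a ha i b hb j => LmX.tr hr ho hb ha i j
      logF_all := fun α h σ a ha i => ho.le σ a ha (h a i)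
      mem := LmX.mem hl hr ho
      emp := LmX.emp
      none := LmX.none hf hr ho
      T_none := by rw [T, funext (LmX.none hf hr ho), lat_bot]
      pure := LmX.pure hf hl hr
      pd := LmX.pd hf hl hr
      mu := fun C σ g hg => LmX.mu hf hl ho C σ g fun _ => hg
      mu_all := LmX.mu_all hf hl ho
      mu_T := LmX.mu_T hf hl ho
      shift := LmX.shift hf hl hr ho
      shift_T := LmX.shift_T hf hl hr ho
      we := LmX.we hf hr ho
      co := LmX.co hf hr ho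
      dd := LmX.dd hf hr ho
      mono := LmX.mono hf hl hr ho
      le := LmX.le hf ho
      T_le := LmX.T_le hf ho
      union := LmX.union hf hl hr ho
      kok := LmX.kok hf hl hr ho
      pair := LmX.pair (hcone _ _) hf hl hr ho
      kok0 := fun κ _ t s C C' h ht =>
        { pair := fun _ => LmX.pair (hcone _ _) hf hl hr ho 0 C C' (mul_zero _) h
            fun _ _ _ _ _ => zero_mem _
          cd := fun i _ => (LmX.lin0 (hcar _ _)).comm (t i)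
          ct := fun i _ i' _ => mu_comm _ _
          kp := fun i hi _ _ => LmX.mu_T hf hl ho C _ (ht i hi)
          kp' := fun i hi _ _ => LmX.mu_T hf hl ho C' _ (ht i hi) }
      lin0 := LmX.lin0 (hcar _ _) }

end Pool.Agent.MP_ee8c61_ag.H59
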