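import Pool.Agent.MP_ee8c61_ag.H59.SpecB

/-! The rings of the intersections of charts and their monomial ideals. -/

namespace Pool.Agent.MP_ee8c61_ag.H59

open Finset Sys

namespace LoX

variable {k Ω ι J : Type} {n : ℕ} [CommRing k] [CommRing Ω] [Algebra k Ω] (S : Sys k Ω ι J n)

theorem le (σ : Finset ι) (a : ι) (ha : a ∈ σ) : S.A a ≤ S.AA σ :=
  le_iSup₂ (f := fun a (_ : a ∈ σ) => S.A a) a ha

theorem mono : Monotone S.AA := fun _ σ' h => iSup₂_le fun a ha => le S σ' a (h ha)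

theorem sup (σ : Finset ι) (a : ι) (ha : a ∈ σ) (b : ι) (hb : b ∈ σ) : S.A a ⊔ S.A b ≤ S.AA σ :=
  sup_le (le S σ a ha) (le S σ b hb)

theorem loc (σ : Finset ι) (a : ι) (ha : a ∈ σ) (g : Ω) (hg : g ∈ S.AA σ) :
    ∃ u : Ωˣ, (u : Ω) ∈ S.A a ∧ ((u⁻¹ : Ωˣ) : Ω) ∈ S.AA σ ∧ u * g ∈ S.A a := by
  have inv : ∀ u v : Ωˣ, ((u⁻¹ : Ωˣ) : Ω) ∈ S.AA σ → ((v⁻¹ : Ωˣ) : Ω) ∈ S.AA σ →
      (((u * v)⁻¹ : Ωˣ) : Ω) ∈ S.AA σ := fun u v hu hv => by
    rw [mul_inv, Units.val_mul]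
    exact mul_mem hu hv
  let K : Subalgebra k Ω :=
    { carrier := {g | ∃ u : Ωˣ, (u : Ω) ∈ S.A a ∧ ((u⁻¹ : Ωˣ) : Ω) ∈ S.AA σ ∧ u * g ∈ S.A a}
      mul_mem' := fun {x y} ⟨u, u1, u2, u3⟩ ⟨v, v1, v2, v3⟩ => ⟨u * v, mul_mem u1 v1, inv u v u2 v2,
        by rw [Units.val_mul, mul_mul_mul_comm]; exact mul_mem u3 v3⟩
      add_mem' := fun {x y} ⟨u, u1, u2, u3⟩ ⟨v, v1, v2, v3⟩ => ⟨u * v, mul_mem u1 v1, inv u v u2 v2,
        by
          rw [Units.val_mul, show (u : Ω) * v * (x + y) = v * (u * x) + u * (v * y) by ring]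
          exact add_mem (mul_mem v1 u3) (mul_mem u1 v3)⟩
      algebraMap_mem' := fun c => ⟨1, one_mem _, one_mem _, by
        rw [Units.val_one, one_mul]; exact algebraMap_mem _ c⟩ }
  have : S.AA σ ≤ K := iSup₂_le fun b hb g hg => by
    obtain ⟨u, h1, h2, h3⟩ := S.loc a b g hg
    exact ⟨u, h1, sup S σ a ha b hb h2, h3⟩
  exact this hg

theorem D_mem (σ : Finset ι) (a : ι) (ha : a ∈ σ) (i : Fin n) (g : Ω) (hg : g ∈ S.AA σ) :
    S.D a i g ∈ S.AA σ := by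
  obtain ⟨u, h1, h2, h3⟩ := loc S σ a ha g hg
  have e : S.D a i g = (u⁻¹ : Ωˣ) * (S.D a i (u * g) - g * S.D a i u) := by
    rw [Derivation.leibniz, smul_eq_mul, smul_eq_mul, add_sub_cancel_right,
      Units.inv_mul_cancel_left]
  rw [e]
  exact mul_mem h2 (sub_mem (le S σ a ha (S.D_mem a i _ h3))
    (mul_mem hg (le S σ a ha (S.D_mem a i _ h1))))

theorem unit_iff {B : Subalgebra k Ω} {U : Ωˣ} (h : U ∈ B.toSubmonoid.units) (x : Ω) :
    x * U ∈ B ↔ x ∈ B :=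
  ⟨fun e => U.mul_inv_cancel_right x ▸ mul_mem e h.2, fun e => mul_mem e h.1⟩

variable [Fintype J]

theorem mon_div (σ : Finset ι) (a : ι) (ha : a ∈ σ) (b : ι) (hb : b ∈ σ) (c : J → ℤ) :
    ((S.mon a c / S.mon b c : Ωˣ) : Ω) ∈ S.AA σ := by
  have : S.mon a c / S.mon b c ∈ (S.AA σ).toSubmonoid.units := by
    rw [mon, mon, ← prod_div_distrib]
    refine prod_mem fun j _ => ?_
    rw [← div_zpow]
    refine zpow_mem ((Submonoid.mem_units_iff _ _).2 ⟨sup S σ a ha b hb (S.η_mem a b j), ?_⟩) _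
    change (((S.η a j / S.η b j)⁻¹ : Ωˣ) : Ω) ∈ S.AA σ
    rw [inv_div]
    exact sup S σ b hb a ha (S.η_mem b a j)
  exact this.1

variable {S}

theorem gen {a : ι} {σ : Finset ι} {C : Finset (J → ℤ)} {c : J → ℤ} (hc : c ∈ C) {h : Ω}
    (hh : h ∈ S.AA σ) : S.mon a c * h ∈ S.NN a σ C :=
  le_iSup₂ (f := fun c (_ : c ∈ C) => (S.AA σ).toSubring.toAddSubgroup.map
    (AddMonoidHom.mulLeft (S.mon a c : Ω))) c hc ⟨h, hh, rfl⟩

theorem NN_ind {a : ι} {σ : Finset ι} {C : Finset (J → ℤ)} {K : AddSubgroup Ω}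
    (h : ∀ c ∈ C, ∀ h ∈ S.AA σ, S.mon a c * h ∈ K) : S.NN a σ C ≤ K :=
  iSup₂_le fun c hc _ ⟨x, hx, e⟩ => e ▸ h c hc x hx

/-- linear combinations with coefficients in a subalgebra -/
def cmb {κ : Type} (B : Subalgebra k Ω) (s : Finset κ) (m : κ → Ω) : AddSubgroup Ω where
  carrier := {g | ∃ h : κ → Ω, (∀ c, h c ∈ B) ∧ g = ∑ c ∈ s, m c * h c}
  add_mem' := fun ⟨h, h1, h2⟩ ⟨h', h1', h2'⟩ => ⟨h + h', fun c => add_mem (h1 c) (h1' c), by
    simp only [h2, h2', Pi.add_apply, mul_add, sum_add_distrib]⟩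
  zero_mem' := ⟨0, fun _ => zero_mem _, by simp⟩
  neg_mem' := fun ⟨h, h1, h2⟩ => ⟨-h, fun c => neg_mem (h1 c), by simp [h2]⟩

omit [Fintype J] in
theorem cmb_gen {κ : Type} {B : Subalgebra k Ω} {s : Finset κ} (m : κ → Ω) {c : κ} (hc : c ∈ s)
    {h : Ω} (hh : h ∈ B) : m c * h ∈ cmb B s m := by
  classical
  refine ⟨fun c' => if c' = c then h else 0, fun c' => ?_, by simp [hc]⟩
  beta_reduce
  split_ifs
  · exact hh
  · exact zero_mem _

theorem mem_NN (a : ι) (σ : Finset ι) (C : Finset (J → ℤ)) (g : Ω) : g ∈ S.NN a σ C ↔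
    ∃ h : (J → ℤ) → Ω, (∀ c, h c ∈ S.AA σ) ∧ g = ∑ c ∈ C, S.mon a c * h c :=
  ⟨fun hg => NN_ind (K := cmb (S.AA σ) C fun c => S.mon a c)
    (fun _ hc _ hh => cmb_gen (fun c => (S.mon a c : Ω)) hc hh) hg,
    fun ⟨_, h1, h2⟩ => h2 ▸ sum_mem fun c hc => gen hc (h1 c)⟩

end LoX

open LoX in
theorem rowLo : OfLo := by
  intro hF k Ω ι J n _ _ _ _ S
  have F := hF k Ω ι J n S
  have dvm : ∀ σ, ∀ a ∈ σ, ∀ i, ∀ g ∈ S.AA σ, S.dv a i g ∈ S.AA σ := fun σ a ha i g hg =>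
    mul_mem (le S σ a ha (F.un_mem a i)) (D_mem S σ a ha i g hg)
  have ind1 : ∀ σ, ∀ a ∈ σ, ∀ b ∈ σ, ∀ C, S.NN a σ C ≤ S.NN b σ C := fun σ a ha b hb C =>
    NN_ind fun c hc h hh => by
      have := gen (a := b) hc (mul_mem (mon_div S σ a ha b hb c) hh)
      rwa [← mul_assoc, ← Units.val_mul, mul_div_cancel] at this
  have kj : ∀ a c i, (S.mon a (c + ind {i}) : Ω) = S.mon a c * S.η a i := fun a c i => by
    rw [F.mon_add, F.mon_ind, Units.val_mul]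
  refine ⟨le S, mono S, fun a => ?_, sup S, loc S, D_mem S, dvm, mon_div S, mem_NN,
    fun a σ c g => ?_, fun a σ c I g => ⟨fun hg => ?_, ?_⟩,
    fun σ a ha b hb C => le_antisymm (ind1 σ a ha b hb C) (ind1 σ b hb a ha C),
    fun a σ C h hh g hg => ?_, fun σ a ha C i g hg => ?_,
    fun σ a ha C C' hC => NN_ind fun c' hc' h hh => ?_,
    fun a σ σ' C hσ => NN_ind fun c hc h hh => gen hc (mono S hσ hh), fun a σ C C' => ?_,
    fun a σ => le_bot_iff.1 (NN_ind fun c hc => absurd hc (notMem_empty c)),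
    fun m x w ρ hP a u g => ?_⟩
  · exact le_antisymm (iSup₂_le fun b hb => (mem_singleton.1 hb) ▸ le_rfl)
      (le S _ a (mem_singleton_self a))
  · rw [mem_NN]
    refine ⟨fun ⟨h, h1, h2⟩ => ?_, fun h => ⟨fun _ => _, fun _ => h, ?_⟩⟩
    · rw [h2, sum_singleton, mul_comm (S.mon a c : Ω), Units.mul_inv_cancel_right]
      exact h1 c
    · rw [sum_singleton, mul_comm g, Units.mul_inv_cancel_left]
  · obtain ⟨h, h1, h2⟩ := NN_ind (K := cmb (S.AA σ) I fun i => S.mon a c * S.η a i)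
      (fun c' hc' h hh => by
        obtain ⟨i, hi, rfl⟩ := (mem_KJ c c' I).1 hc'
        rw [kj]
        exact cmb_gen (fun i => (S.mon a c * S.η a i : Ω)) hi hh) hg
    exact ⟨h, h1, by simp only [h2, mul_sum, mul_assoc]⟩
  · rintro ⟨h, h1, rfl⟩
    rw [mul_sum]
    refine sum_mem fun i hi => ?_
    rw [← mul_assoc, ← kj]
    exact gen ((mem_KJ c _ I).2 ⟨i, hi, rfl⟩) (h1 i)
  · refine NN_ind (K := (S.NN a σ C).comap (AddMonoidHom.mulLeft h)) (fun c hc x hx => ?_) hg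
    change h * (S.mon a c * x) ∈ S.NN a σ C
    rw [mul_left_comm]
    exact gen hc (mul_mem hh hx)
  · refine NN_ind (K := (S.NN a σ C).comap (dop (S.dv a i))) (fun c hc x hx => ?_) hg
    change S.dv a i (S.mon a c * x) ∈ S.NN a σ C
    rw [Derivation.leibniz, F.dv_mon, smul_eq_mul, smul_eq_mul, ← mul_assoc, mul_comm (x * _),
      ← mul_add]
    exact gen hc (add_mem (dvm σ a ha i x hx) (mul_mem hx (intCast_mem _ _)))
  · obtain ⟨c, hc, e⟩ := hC c' hc'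
    rw [← add_sub_cancel c c', F.mon_add, Units.val_mul, mul_assoc]
    exact gen hc (mul_mem (le S σ a ha (F.mon_mem a _ (sub_nonneg.2 e))) hh)
  · refine le_antisymm (NN_ind fun c hc h hh => ?_) (sup_le
      (NN_ind fun c hc h hh => gen (mem_union_left _ hc) hh)
      (NN_ind fun c hc h hh => gen (mem_union_right _ hc) hh))
    rcases mem_union.1 hc with e | e
    · exact AddSubgroup.mem_sup_left (gen e hh)
    · exact AddSubgroup.mem_sup_right (gen e hh)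
  · have hU : (ρ a * S.mon a w) ^ u ∈ (S.A a).toSubmonoid.units := zpow_mem (hP.ord a) u
    rw [← unit_iff hU, mul_assoc, ← Units.val_mul, ← mul_zpow, inv_mul_cancel_left, F.mon_zsmul]

end Pool.Agent.MP_ee8c61_ag.H59
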