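import Pool.Agent.MP_ee8c61_ag.H59.SpecC

/-!
Row `Main`: the main theorem for systems of charts from the vanishing statements.
-/

namespace Pool.Agent.MP_ee8c61_ag.H59

open Finset Sys

namespace MainX

variable {J : Type}

theorem ind_nonneg (W : Finset J) : 0 ≤ ind W := by
  classical
  intro j
  rw [ind_apply]
  split_ifs <;> simp

theorem ind_le (a : J → ℕ) (i : J) (h : a i ≠ 0) : ind {i} ≤ fun j => (a j : ℤ) := by
  classical
  intro j
  rw [ind_apply]
  split_ifs with h1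
  · rw [mem_singleton.1 h1]
    change (1 : ℤ) ≤ (a i : ℤ)
    exact_mod_cast Nat.one_le_iff_ne_zero.2 h
  · exact Int.natCast_nonneg _

theorem cl_le (w : J → ℤ) (μ : ℕ) (hμ : 0 < μ) (j : J) (r : ℤ) (h : w j ≤ μ * r) :
    cl w μ j ≤ r := by
  have h0 : (0 : ℚ) < μ := by exact_mod_cast hμ
  rw [cl, Int.ceil_le, div_le_iff₀ h0, mul_comm]
  exact_mod_cast h

theorem cl_eq (w : J → ℤ) (μ : ℕ) (hμ : 0 < μ) (j : J) (r : ℤ) (h : w j = μ * r) :
    cl w μ j = r := by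
  have h0 : (μ : ℚ) ≠ 0 := by exact_mod_cast hμ.ne'
  have h1 : (w j : ℚ) / μ = r := by
    rw [h, div_eq_iff h0, mul_comm]
    push_cast
    rfl
  rw [cl, h1, Int.ceil_intCast]

theorem le_empty (C : Finset (J → ℤ)) : Le ∅ C := fun _ h => absurd h (notMem_empty _)

theorem nvp (hX : SCx) (hCo : SCone) (hLm : SLm) {k Ω ι : Type} {n m : ℕ} [CommRing k]
    [CommRing Ω] [Algebra k Ω] [Fintype J] [Fintype ι] [LinearOrder ι] (S : Sys k Ω ι J n)
    (x : Fin m → Ω) (x0 : Fin m → k) (hx : ∀ a l, x l ∈ S.A a) (c c' : J → ℤ) (hc : c ≤ c')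
    (h : S.NV x x0 c) (h' : S.NV x x0 c') : S.NVp x x0 {c} {c'} (n - 1) := by
  intro j hj
  have ht : ∀ l ∈ (univ : Finset (Fin m)), ∀ a, x l - algebraMap k Ω (x0 l) ∈ S.A a :=
    fun l _ a => sub_mem (hx a l) (Subalgebra.algebraMap_mem _ _)
  have hle : Le {c'} {c} := fun d hd => ⟨c, mem_singleton_self _, by rwa [mem_singleton.1 hd]⟩
  refine (hX _).right _ _ _ (kl univ fun _ => S.T ∅) j
    ((hCo (Fin m) _).pair _ _ _ _ _ ((hLm k Ω ι J n S).kok0 (Fin m) _ univ _ _ hle ht))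
    ((hCo (Fin m) _).pair _ _ _ _ _ ((hLm k Ω ι J n S).kok0 (Fin m) _ univ _ _ (le_empty _) ht))
    (h j (by omega)) (h' (j + 1) (by omega))

end MainX

open MainX in
theorem rowMain : OfMain := by
  intro hX hCo hLm hReg hNvK hAdm hNV hVY hM0 Ω ι J n m _ _ _ _ _ _ S x f a kk b w ρ μ I la c1 hin
    hpol hμ hw hw0 hwI hla hne
  let _ : LinearOrder ι := IsWellOrder.linearOrder WellOrderingRel
  let _ : Inhabited ι := Classical.inhabited_of_nonempty inferInstance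
  have hreg : S.Reg := hReg ℂ Ω ι J n S hin.good
  obtain ⟨hA1, hA2⟩ := hAdm Ω ι J n m S x w ρ μ f (fun j => (a j : ℤ)) hpol hμ hin.f_ord
  have hnv : ∀ x0 c, S.Adm x c → S.NV x x0 c := fun x0 c => hNV Ω ι J n m S x x0 c hin.good
  have ha0 : (0 : J → ℤ) ≤ fun j => (a j : ℤ) := fun j => Int.natCast_nonneg _
  refine hM0 Ω ι J n m S x f a hpol.x_mem hin.f_ord kk b (cl w μ) I la c1 hin hreg
    (fun j => cl_le w μ hμ j _ (hw j)) (fun j hj => cl_le w μ hμ j 0 (by simpa using hw0 j hj))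
    (fun i hi => cl_eq w μ hμ i _ (hwI i hi)) hla hne (fun u => ?_) fun s hs hs0 => ?_
  · have hle : cl w μ - u • (fun j => (a j : ℤ)) ≤ cl w μ := sub_le_self _ (nsmul_nonneg ha0 u)
    refine hVY Ω ι J n m S x f a hpol.x_mem hin.f_ord hin.good _ _ (n - 1) u
      (fun d hd => ⟨_, mem_singleton_self _, by rwa [mem_singleton.1 hd]⟩)
      (fun d hd => ⟨_, mem_singleton_self _, by rw [mem_singleton.1 hd, sub_add_cancel]⟩)
      (fun x0 => nvp hX hCo hLm S x x0 hpol.x_mem _ _ hle (hnv x0 _ ?_) (hnv x0 _ ?_)) n (by omega)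
    · have := hA1 (-(u : ℤ))
      rwa [neg_smul, natCast_zsmul, ← sub_eq_add_neg] at this
    · have := hA1 0
      rwa [zero_smul, add_zero] at this
  · obtain ⟨i, hi⟩ := hs0
    have hai : a i ≠ 0 := by
      intro h0
      have h1 := hla i (hs hi)
      rw [h0, Nat.cast_zero, mul_zero] at h1
      exact Nat.cast_add_one_ne_zero (kk i) h1
    refine hVY Ω ι J n m S x f a hpol.x_mem hin.f_ord hin.good _ _ (n - s.card) 1
      (fun d hd => ⟨_, mem_singleton_self _, ?_⟩)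
      (fun d hd => ⟨_, (mem_KJ _ _ _).2 ⟨i, hi, rfl⟩, ?_⟩)
      (fun x0 => hNvK ℂ Ω ι J n S m x x0 hreg hpol.x_mem s _ fun W hW =>
        hnv x0 _ (hA2 W fun j hj => ⟨_, hwI j (hs (hW hj))⟩)) _ (by omega)
    · obtain ⟨l, _, rfl⟩ := (mem_KJ _ _ _).1 hd
      exact le_add_of_nonneg_right (ind_nonneg _)
    · rw [mem_singleton.1 hd, one_smul]
      exact add_le_add_right (ind_le a i hai) _

end Pool.Agent.MP_ee8c61_ag.H59
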