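import Pool.Agent.MP_ee8c61_ag.H59.SpecC

/-!
Multiplication by the cocycle attached to a one-form in characteristic `ℓ`.
-/

namespace Pool.Agent.MP_ee8c61_ag.H59

open Finset Sys

namespace MoX

variable {k Ω ι J : Type} {n : ℕ} [CommRing k] [CommRing Ω] [Algebra k Ω]
  (S : Sys k Ω ι J n) (ℓ : ℕ) [Fact ℓ.Prime] [CharP Ω ℓ] (δ : ι → Fin n → Ω)

omit [Fact ℓ.Prime] in
theorem der_pow (D : Derivation k Ω Ω) (g : Ω) : D (g ^ ℓ) = 0 := by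
  rw [Derivation.leibniz_pow, nsmul_eq_mul, CharP.cast_eq_zero, zero_mul]

omit [Fact ℓ.Prime] in
theorem der_mul (D : Derivation k Ω Ω) (g h : Ω) : D (g ^ ℓ * h) = g ^ ℓ * D h := by
  rw [Derivation.leibniz, der_pow, smul_zero, add_zero, smul_eq_mul]

theorem hz_add (a : ι) (α β : Fin n → Ω) : hz ℓ δ a (α + β) = hz ℓ δ a α + hz ℓ δ a β := by
  simp only [hz, Pi.add_apply, add_pow_char, add_mul, sum_add_distrib]

omit [Fact ℓ.Prime] [CharP Ω ℓ] in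
theorem hz_smul (a : ι) (g : Ω) (α : Fin n → Ω) : hz ℓ δ a (g • α) = g ^ ℓ * hz ℓ δ a α := by
  simp only [hz, Pi.smul_apply, smul_eq_mul, mul_pow, mul_sum, mul_assoc]

omit [CharP Ω ℓ] in
theorem hz_zero (a : ι) : hz ℓ δ a 0 = 0 := by
  simp [hz, (Fact.out : ℓ.Prime).ne_zero]

theorem hz_sum (a : ι) {κ : Type} (s : Finset κ) (c : κ → Ω) (α : κ → Fin n → Ω) :
    hz ℓ δ a (∑ i ∈ s, c i • α i) = ∑ i ∈ s, c i ^ ℓ * hz ℓ δ a (α i) := by
  classical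
  induction s using Finset.induction_on with
  | empty => simp [hz_zero]
  | insert i s hi ih => rw [sum_insert hi, sum_insert hi, hz_add, hz_smul, ih]

theorem zr_add (α β : Fin n → Ω) : S.zr ℓ (α + β) = S.zr ℓ α + S.zr ℓ β := by
  funext l
  simp only [zr, Pi.add_apply, add_pow_char, add_mul]

omit [Fact ℓ.Prime] [CharP Ω ℓ] in
theorem zr_smul (g : Ω) (α : Fin n → Ω) : S.zr ℓ (g • α) = g ^ ℓ • S.zr ℓ α := by
  funext l
  simp only [zr, Pi.smul_apply, smul_eq_mul, mul_pow, mul_assoc]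

omit [Fact ℓ.Prime] in
theorem zr_closed (α : Fin n → Ω) (i j : Fin n) :
    S.R i (S.zr ℓ α j) = S.R j (S.zr ℓ α i) := by
  by_cases h : i = j
  · rw [h]
  · have h' : ¬ j = i := fun e => h e.symm
    simp only [zr, der_mul, Derivation.leibniz_pow, S.R_r, if_neg h, if_neg h', smul_zero,
      mul_zero]

theorem zt_add (a : ι) (α β : Fin n → Ω) :
    S.zt ℓ δ a (α + β) = S.zt ℓ δ a α + S.zt ℓ δ a β := by
  funext l
  simp only [zt, Pi.add_apply, zr_add, hz_add, map_add]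
  ring

omit [Fact ℓ.Prime] in
theorem zt_smul (a : ι) (g : Ω) (α : Fin n → Ω) :
    S.zt ℓ δ a (g • α) = g ^ ℓ • S.zt ℓ δ a α := by
  funext l
  simp only [zt, zr_smul, hz_smul, der_mul, Pi.smul_apply, smul_eq_mul, mul_add]

theorem zt_zero (a : ι) : S.zt ℓ δ a 0 = 0 := by
  have h := zt_smul S ℓ δ a 0 0
  rwa [zero_smul, zero_pow (Fact.out : ℓ.Prime).ne_zero, zero_smul] at h

theorem zt_sum (a : ι) {κ : Type} (s : Finset κ) (c : κ → Ω) (α : κ → Fin n → Ω) :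
    S.zt ℓ δ a (∑ i ∈ s, c i • α i) = ∑ i ∈ s, c i ^ ℓ • S.zt ℓ δ a (α i) := by
  classical
  induction s using Finset.induction_on with
  | empty => simp [zt_zero]
  | insert i s hi ih => rw [sum_insert hi, sum_insert hi, zt_add, zt_smul, ih]

theorem we_zero : we (0 : Fin n → Ω) = 0 := by simp [we]

theorem dd_mu (hd : Fd S.R) (g : Ω) : S.dd * mu _ g = mu _ g * S.dd + we fun l => S.R l g :=
  hd.d_mu g

omit [Fact ℓ.Prime] in
theorem comm_dd (hd : Fd S.R) (g : Ω) : Commute (mu _ (g ^ ℓ)) S.dd := by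
  have h := dd_mu S hd (g ^ ℓ)
  have h0 : (fun l => S.R l (g ^ ℓ)) = 0 := funext fun l => der_pow ℓ _ g
  rw [h0, we_zero, add_zero] at h
  exact h.symm

variable [Fintype ι] [LinearOrder ι] [Inhabited ι]

omit [Fact ℓ.Prime] [CharP Ω ℓ] [Fintype ι] in
theorem mm_apply (α : Fin n → Ω) (γ : Ch ι (Fm n Ω)) (σ : Finset ι) :
    mm ℓ δ α γ σ = hz ℓ δ (pick σ) α • γ σ := rfl

omit [Fintype ι] in
theorem mm_add (α β : Fin n → Ω) : mm ℓ δ (α + β) = mm ℓ δ α + mm ℓ δ β := by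
  refine op_ext fun γ => funext fun σ => ?_
  rw [op_add, Pi.add_apply, mm_apply, mm_apply, mm_apply, hz_add, add_smul]

omit [Fact ℓ.Prime] [CharP Ω ℓ] [Fintype ι] in
theorem mm_smul (g : Ω) (α : Fin n → Ω) : mm ℓ δ (g • α) = mu _ (g ^ ℓ) * mm ℓ δ α := by
  refine op_ext fun γ => funext fun σ => ?_
  rw [op_mul, mu_apply, Pi.smul_apply, mm_apply, mm_apply, hz_smul, mul_smul]

omit [Fact ℓ.Prime] [CharP Ω ℓ] [Fintype ι] in
theorem mm_comm (g : Ω) (α : Fin n → Ω) : Commute (mu _ g) (mm ℓ δ α) := by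
  refine op_ext fun γ => funext fun σ => ?_
  rw [op_mul, op_mul, mu_apply, Pi.smul_apply, mm_apply, mm_apply, mu_apply, Pi.smul_apply,
    smul_comm]

omit [Inhabited ι] in
theorem cech_comm (hC : Car ι (Fm n Ω)) (hd : Fd S.R) (g : Ω) :
    Commute (mu _ (g ^ ℓ)) (cech S.dd : Op (Ch ι (Fm n Ω))) :=
  hC.kos_ev S.dd (mu _ (g ^ ℓ)) (fun _ => 1) univ (comm_dd S ℓ hd g) fun _ _ => Commute.one_right _

omit [Inhabited ι] in
theorem cech_apply (hC : Car ι (Fm n Ω)) (d : Op (Fm n Ω)) (γ : Ch ι (Fm n Ω)) (σ : Finset ι) :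
    cech d γ σ = (-1 : ℤ) ^ σ.card • d (γ σ) + ∑ i ∈ σ, sgn i σ • γ (σ.erase i) := by
  have h := hC.kos_apply d (fun _ => 1) univ γ σ
  rwa [univ_inter] at h

theorem anti (hC : Car ι (Fm n Ω)) (hd : Fd S.R) (α : Fin n → Ω) :
    cech S.dd * S.mo ℓ δ α + S.mo ℓ δ α * cech S.dd = 0 := by
  have h1 : (cech S.dd : Op (Ch ι (Fm n Ω))) * od (we (S.zr ℓ α)) +
      od (we (S.zr ℓ α)) * cech S.dd = 0 := by
    have h := hC.kos_od S.dd (we (S.zr ℓ α)) (fun _ => 1) univ fun _ _ => Commute.one_right _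
    have h0 : S.dd * we (S.zr ℓ α) + we (S.zr ℓ α) * S.dd = 0 := hd.d_we _ (zr_closed S ℓ α)
    rw [h0] at h
    exact h
  have h2 : (cech S.dd : Op (Ch ι (Fm n Ω))) * cech S.dd = 0 :=
    hC.kos_sq S.dd (fun _ => 1) univ hd.sq (fun _ _ => Commute.one_left _)
      fun _ _ _ _ => Commute.one_left _
  have h3 : cech S.dd * S.mo ℓ δ α + S.mo ℓ δ α * cech S.dd =
      (cech S.dd * od (we (S.zr ℓ α)) + od (we (S.zr ℓ α)) * cech S.dd) +
      (cech S.dd * cech S.dd * mm ℓ δ α - mm ℓ δ α * (cech S.dd * cech S.dd)) := by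
    unfold mo
    noncomm_ring
  rw [h3, h1, h2, zero_mul, mul_zero, sub_zero, add_zero]

theorem mo_add (hC : Car ι (Fm n Ω)) (hF : Fo Ω n) (α β : Fin n → Ω) :
    S.mo ℓ δ (α + β) = S.mo ℓ δ α + S.mo ℓ δ β := by
  unfold mo
  rw [zr_add, hF.we_add, hC.od_add, mm_add]
  noncomm_ring

theorem mo_smul (hC : Car ι (Fm n Ω)) (hF : Fo Ω n) (hd : Fd S.R) (g : Ω) (α : Fin n → Ω) :
    S.mo ℓ δ (g • α) = mu _ (g ^ ℓ) * S.mo ℓ δ α := by
  unfold mo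
  rw [zr_smul, hF.we_smul, ← hC.ev_od, ev_mu, mm_smul, ← mul_assoc, ← (cech_comm S ℓ hC hd g).eq]
  noncomm_ring

theorem mo_comm (hC : Car ι (Fm n Ω)) (hF : Fo Ω n) (hd : Fd S.R) (g : Ω) (α : Fin n → Ω) :
    Commute (mu _ (g ^ ℓ)) (S.mo ℓ δ α) := by
  have h1 : Commute (mu _ (g ^ ℓ)) (od (we (S.zr ℓ α)) : Op (Ch ι (Fm n Ω))) := by
    rw [← ev_mu]
    unfold Commute SemiconjBy
    rw [hC.ev_od, hC.od_ev, ((hF.lin_we _).comm _).eq]
  exact h1.add_right (((cech_comm S ℓ hC hd g).mul_right (mm_comm ℓ δ _ α)).sub_right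
    ((mm_comm ℓ δ _ α).mul_right (cech_comm S ℓ hC hd g)))

omit [Fact ℓ.Prime] [CharP Ω ℓ] in
theorem mo_apply (hC : Car ι (Fm n Ω)) (hF : Fo Ω n) (hd : Fd S.R) (α : Fin n → Ω)
    (γ : Ch ι (Fm n Ω)) (σ : Finset ι) :
    S.mo ℓ δ α γ σ = (-1 : ℤ) ^ σ.card • we (S.zt ℓ δ (pick σ) α) (γ σ) +
      ∑ b ∈ σ, sgn b σ • (hz ℓ δ (pick (σ.erase b)) α - hz ℓ δ (pick σ) α) • γ (σ.erase b) := by
  have h1 : S.dd (hz ℓ δ (pick σ) α • γ σ) = hz ℓ δ (pick σ) α • S.dd (γ σ) +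
      we (fun l => S.R l (hz ℓ δ (pick σ) α)) (γ σ) :=
    DFunLike.congr_fun (dd_mu S hd (hz ℓ δ (pick σ) α)) (γ σ)
  have h2 : S.zt ℓ δ (pick σ) α = S.zr ℓ α + fun l => S.R l (hz ℓ δ (pick σ) α) := rfl
  have h3 : ∑ b ∈ σ, sgn b σ • (hz ℓ δ (pick (σ.erase b)) α - hz ℓ δ (pick σ) α) • γ (σ.erase b) =
      ∑ b ∈ σ, sgn b σ • hz ℓ δ (pick (σ.erase b)) α • γ (σ.erase b) -
        hz ℓ δ (pick σ) α • ∑ b ∈ σ, sgn b σ • γ (σ.erase b) := by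
    rw [smul_sum, ← sum_sub_distrib]
    refine sum_congr rfl fun b _ => ?_
    rw [sub_smul, smul_sub, smul_comm (hz ℓ δ (pick σ) α)]
  rw [h3, h2, hF.we_add, mo, op_add, op_sub, op_mul, op_mul, Pi.add_apply, Pi.sub_apply, od_apply,
    mm_apply, cech_apply hC, cech_apply hC, mm_apply, h1, op_add, smul_add, smul_add, smul_add,
    smul_comm (hz ℓ δ (pick σ) α) ((-1 : ℤ) ^ σ.card)]
  simp only [mm_apply]
  abel

end MoX

namespace MoX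

variable {k Ω ι J : Type} {n : ℕ} [CommRing k] [CommRing Ω] [Algebra k Ω] [Fintype J]
  (S : Sys k Ω ι J n) (ℓ : ℕ) [Fact ℓ.Prime] [CharP Ω ℓ] (δ : ι → Fin n → Ω)

theorem zt_exp (hr : Fr S) (a b : ι) (α : Fin n → Ω) :
    S.zt ℓ δ a α = ∑ i, (S.v b i ⬝ᵥ α) ^ ℓ • S.zt ℓ δ a (S.e b i) := by
  rw [← zt_sum, ← hr.exp_e]

theorem hz_exp (hr : Fr S) (a b : ι) (α : Fin n → Ω) :
    hz ℓ δ a α = ∑ i, (S.v b i ⬝ᵥ α) ^ ℓ * hz ℓ δ a (S.e b i) := by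
  rw [← hz_sum, ← hr.exp_e]

theorem zt_e (h : S.FD ℓ δ) (a : ι) (i : Fin n) :
    S.zt ℓ δ a (S.e a i) = S.xi ℓ a i • S.e a i := by
  have h1 : S.e a i = (((S.un a i)⁻¹ : Ωˣ) : Ω) • S.gr (S.z a i) := rfl
  rw [h1, zt_smul, h.zt]
  funext l
  obtain ⟨m, hm⟩ : ∃ m, ℓ = m + 1 := Nat.exists_eq_succ_of_ne_zero (Fact.out : ℓ.Prime).ne_zero
  simp only [xi, gr, Pi.smul_apply, smul_eq_mul, hm, Nat.add_sub_cancel]
  ring

omit [Fact ℓ.Prime] [CharP Ω ℓ] in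
theorem xi_mem (hr : Fr S) (a : ι) (i : Fin n) : S.xi ℓ a i ∈ S.A a := by
  refine pow_mem ?_ _
  by_cases h : ∃ j, S.lab a j = some i
  · obtain ⟨j, hj⟩ := h
    rw [hr.un_some a j i hj, ← S.η_some a j i hj, Units.mul_inv]
    exact one_mem _
  · rw [hr.un_none a i fun j hj => h ⟨j, hj⟩, inv_one, Units.val_one, mul_one]
    exact S.z_mem a i

theorem logF_zt (hr : Fr S) (ho : Lo S) (hm : Lm S) (h : S.FD ℓ δ) (σ : Finset ι) (a : ι)
    (ha : a ∈ σ) (α : Fin n → Ω) (hα : S.LogF σ α) : S.LogF σ (S.zt ℓ δ a α) := by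
  intro b hb i
  rw [zt_exp S ℓ δ hr a a, dotProduct_sum]
  refine sum_mem fun l _ => ?_
  rw [zt_e S ℓ δ h, dotProduct_smul, dotProduct_smul, smul_eq_mul, smul_eq_mul]
  exact mul_mem (pow_mem (hα a ha l) _)
    (mul_mem (ho.le σ a ha (xi_mem S ℓ hr a l)) (hm.logF_e σ a ha l b hb i))

theorem hz_sub (hr : Fr S) (ho : Lo S) (h : S.FD ℓ δ) (σ : Finset ι) (a b : ι)
    (ha : a ∈ σ) (hb : b ∈ σ) (α : Fin n → Ω) (hα : S.LogF σ α) :
    hz ℓ δ a α - hz ℓ δ b α ∈ S.AA σ := by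
  rw [hz_exp S ℓ δ hr a b, hz_exp S ℓ δ hr b b, ← sum_sub_distrib]
  refine sum_mem fun l _ => ?_
  rw [← mul_sub]
  exact mul_mem (pow_mem (hα b hb l) _) (ho.sup σ a ha b hb (h.hz a b l))

variable [Fintype ι] [LinearOrder ι] [Inhabited ι]

theorem maps (hC : Car ι (Fm n Ω)) (hF : Fo Ω n) (hd : Fd S.R) (hr : Fr S) (ho : Lo S)
    (hm : Lm S) (h : S.FD ℓ δ) (C : Finset (J → ℤ)) (σ : Finset ι) (α : Fin n → Ω)
    (hα : S.LogF σ α) : Maps (S.mo ℓ δ α) (S.Tl C σ) (S.Tl C σ) 1 := by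
  intro j γ hγ
  rw [mem_Tl] at hγ ⊢
  refine ⟨?_, fun τ hτ hne => ?_⟩
  · rw [mo_apply S ℓ δ hC hF hd, hγ.1, map_zero, smul_zero, sum_empty, add_zero]
  rw [mo_apply S ℓ δ hC hF hd]
  refine add_mem (zsmul_mem ?_ _) (sum_mem fun b hb => zsmul_mem ?_ _)
  · have h1 := hm.we C σ _ (logF_zt S ℓ δ hr ho hm h σ _ (hτ (pick_mem hne)) α hα) _ _
      (hγ.2 τ hτ hne)
    rwa [sub_add_eq_add_sub] at h1
  · rcases (τ.erase b).eq_empty_or_nonempty with he | he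
    · rw [he, hγ.1, smul_zero]
      exact zero_mem _
    · have hs : τ.erase b ⊆ σ := (erase_subset b τ).trans hτ
      have h1 := hm.mu C σ _ (hz_sub S ℓ δ hr ho h σ _ _ (hs (pick_mem he)) (hτ (pick_mem hne))
        α hα) _ _ (hγ.2 _ hs he)
      have h2 : j - ((τ.erase b).card : ℤ) = j + 1 - τ.card := by
        rw [← card_erase_add_one hb]
        push_cast
        ring
      rwa [h2] at h1

end MoX

theorem rowMo : OfMo := by
  intro hC hFo hFd hFr hLo hLm k Ω ι J n _ _ _ _ _ _ _ S ℓ _ _ δ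
  have hd := hFd k Ω n S.R S.R_comm
  have hc := hC ι (Fm n Ω)
  have hF := hFo Ω n
  have hr := hFr k Ω ι J n S
  have ho := hLo k Ω ι J n S
  have hm := hLm k Ω ι J n S
  exact
    { anti := MoX.anti S ℓ δ hc hd
      add := MoX.mo_add S ℓ δ hc hF
      smul := MoX.mo_smul S ℓ δ hc hF hd
      comm := MoX.mo_comm S ℓ δ hc hF hd
      comm_dd := MoX.comm_dd S ℓ hd
      apply := MoX.mo_apply S ℓ δ hc hF hd
      zt_sum := MoX.zt_exp S ℓ δ hr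
      zt_e := MoX.zt_e S ℓ δ
      xi_mem := MoX.xi_mem S ℓ hr
      maps := MoX.maps S ℓ δ hc hF hd hr ho hm }

end Pool.Agent.MP_ee8c61_ag.H59
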