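import Pool.Agent.MP_ee8c61_ag.H59.SpecA

/-!
From prime ideals to an ideal.
-/

namespace Pool.Agent.MP_ee8c61_ag.H59

theorem rowMp : SMp := by
  intro A _ _ I U h
  classical
  have hf := I.finite_minimalPrimes_of_isNoetherianRing A
  have h1 : ∀ q ∈ I.minimalPrimes, ∃ u ∈ U, u ∈ q := fun q hq => h q hq.1.1 hq.1.2
  choose! u hu using h1
  have h2 : ∏ q ∈ hf.toFinset, u q ∈ I.radical := by
    rw [← Ideal.sInf_minimalPrimes, Submodule.mem_sInf]
    intro q hq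
    rw [← Finset.mul_prod_erase _ _ (hf.mem_toFinset.2 hq)]
    exact Ideal.mul_mem_right _ _ (hu q hq).2
  obtain ⟨N, hN⟩ := h2
  exact ⟨_, pow_mem (prod_mem fun q hq => (hu q (hf.mem_toFinset.1 hq)).1) N, hN⟩

end Pool.Agent.MP_ee8c61_ag.H59
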