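import Pool.Agent.MP_ee8c61_ag.H59.SpecA

/-!
The simplex argument.
-/

namespace Pool.Agent.MP_ee8c61_ag.H59

open Finset

namespace MultX

/-- The signs. -/
def cs : ℕ → ℤ
  | 0 => 1
  | r + 1 => (-1) ^ r * cs r

theorem cs_sq (r : ℕ) : cs r * cs r = 1 := by
  induction r with
  | zero => rfl
  | succ r ih => rw [cs, mul_mul_mul_comm, ih, ← mul_pow]; simp

variable {G J : Type} [AddCommGroup G] [LinearOrder J]

theorem van_self (D : Op G) (L : Lat G) (j : ℤ) : Van D L L j :=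
  fun x hx _ => ⟨0, zero_mem _, by simpa using hx⟩

theorem kok {D : Op G} {I : Finset J} {F F' : Finset J → Lat G} (h : ∀ σ, Pair D (F σ) (F' σ))
    (h1 : ∀ i ∈ I, ∀ σ, i ∉ σ → F σ ≤ F (insert i σ))
    (h2 : ∀ i ∈ I, ∀ σ, i ∉ σ → F' σ ≤ F' (insert i σ)) : KOK D (fun _ => 1) I F F' :=
  ⟨h, fun _ _ => Commute.one_left _, fun _ _ _ _ => Commute.one_left _,
    fun i hi σ hσ j _ hx => h1 i hi σ hσ j hx, fun i hi σ hσ j _ hx => h2 i hi σ hσ j hx⟩

theorem core (hC : Car J G) (hO : Cone J G) (hF : Filt J G) {D : Op G} {L : Lat G}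
    {K : Finset J → Lat G} {I : Finset J} {q : ℤ} {η : G} {W : Ch J G} (hI : I.Nonempty)
    (hP : ∀ s, Pair D L (K s)) (hK : Monotone K) (hη : η ∈ L (q - 1))
    (hW : W ∈ kl I (fun _ => L) q) (h0 : ∀ i ∈ I, W ∅ - D η ∈ K {i} q) (h1 : D (W ∅) = 0)
    (h2 : ∀ σ ⊆ I, σ.Nonempty → σ ≠ I → kos D (fun _ => 1) I W σ ∈ K σ (q + 1 - σ.card))
    (hV : ∀ s ⊆ I, s.Nonempty → s ≠ I → Van D L (K s) (q - s.card)) :
    ∃ η' ∈ L (q - I.card), kos D (fun _ => 1) I W I - D η' ∈ K I (q - I.card + 1) := by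
  obtain ⟨i0, hi0⟩ := hI
  have ne : I ≠ ∅ := ne_empty_of_mem hi0
  have pL : Pair D L L := ⟨(hP ∅).dd, fun _ => le_rfl, (hP ∅).st, (hP ∅).st⟩
  set K0 : Lat G := fun j => ⨅ i ∈ I, K {i} j with hK0
  have m0 : ∀ j x, x ∈ K0 j ↔ ∀ i ∈ I, x ∈ K {i} j := fun j x => by
    simp [hK0, AddSubgroup.mem_iInf]
  have l0 : ∀ i ∈ I, K0 ≤ K {i} := fun i hi j x hx => (m0 j x).1 hx i hi
  have p0 : Pair D K0 K0 := by
    have : ∀ j, ∀ x ∈ K0 j, D x ∈ K0 (j + 1) := fun j x hx =>
      (m0 _ _).2 fun i hi => (hP _).st' _ _ (l0 i hi j hx)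
    exact ⟨pL.dd, fun _ => le_rfl, this, this⟩
  set F : Finset J → Lat G := fun σ => if σ = ∅ then K0 else L with hF1
  set F' : Finset J → Lat G := fun σ => if σ = ∅ then K0 else if σ = I then L else K σ with hF2
  have lK : ∀ σ, σ ≠ I → ∀ τ, τ.Nonempty → σ ⊆ τ → τ ⊆ I → F' σ ≤ K τ := by
    rintro σ h τ ⟨i, hi⟩ a b
    simp only [hF2, if_neg h]
    split_ifs
    · exact (l0 i (b hi)).trans (hK (singleton_subset_iff.2 hi))
    · exact hK a
  have k1 : KOK D (fun _ => 1) I F F' := by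
    refine kok (fun σ => ?_) (fun i hi σ hσ => ?_) fun i hi σ hσ => ?_
    · simp only [hF1, hF2]
      split_ifs
      exacts [p0, pL, hP _]
    · simp only [hF1, if_neg (insert_ne_empty i σ)]
      split_ifs
      exacts [(l0 i hi).trans (hP _).le, le_rfl]
    · have : σ ≠ I := fun e => hσ (e ▸ hi)
      simp only [hF2, if_neg (insert_ne_empty i σ), if_neg this]
      split_ifs with a b b
      · exact (l0 i hi).trans (hP _).le
      · rw [a]
        exact l0 i hi
      · exact (hP _).le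
      · exact hK (subset_insert _ _)
  have q1 := hO.pair _ _ _ _ _ (kok (I := I) (fun _ => pL) (fun _ _ _ _ => le_rfl)
    fun _ _ _ _ => le_rfl)
  have e1 : (Pi.single ∅ η : Ch J G) ∈ kl I (fun _ => L) (q - 1) := (mem_kl _ _ _ _).2 fun σ => by
    by_cases c : σ = ∅
    · simpa [c] using hη
    · simp [c]
  have e2 := (mem_kl _ _ _ _).1 (sub_mem hW (q1.stp q e1))
  have e3 := (mem_kl _ _ _ _).1 (q1.st q W hW)
  obtain ⟨Y, -, hY⟩ := hF.van _ _ _ _ _ q k1 (fun σ hσ => by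
      simp only [hF1, hF2]
      split_ifs with a b
      exacts [van_self _ _ _, van_self _ _ _, hV σ hσ (nonempty_iff_ne_empty.2 a) b])
    (W - kos D (fun _ => 1) I (Pi.single ∅ η)) ((mem_kl _ _ _ _).2 fun σ => ⟨fun hσ => by
      simp only [hF1]
      split_ifs with a
      · subst a
        simpa [hC.kos_apply, m0] using h0
      · exact (e2 σ).1 hσ, (e2 σ).2⟩) (by
      rw [map_sub, q1.dd', sub_zero]
      refine (mem_kl _ _ _ _).2 fun σ => ⟨fun hσ => ?_, (e3 σ).2⟩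
      simp only [hF2]
      split_ifs with a b
      · subst a
        simp [hC.kos_apply, h1]
      · exact (e3 σ).1 hσ
      · exact h2 σ hσ (nonempty_iff_ne_empty.2 a) b)
  have e4 : kos D (fun _ => 1) I W = kos D (fun _ => 1) I
      (W - kos D (fun _ => 1) I (Pi.single ∅ η) - kos D (fun _ => 1) I Y) := by
    rw [map_sub, map_sub, q1.dd', q1.dd', sub_zero, sub_zero]
  rw [mem_kl] at hY
  generalize W - kos D (fun _ => 1) I (Pi.single ∅ η) - kos D (fun _ => 1) I Y = Z at hY e4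
  refine ⟨(-1 : ℤ) ^ I.card • Z I, zsmul_mem ?_ _, ?_⟩
  · simpa [hF2, ne] using (hY I).1 subset_rfl
  · rw [e4, hC.kos_apply, map_zsmul, add_sub_cancel_left, inter_self]
    refine sum_mem fun i hi => zsmul_mem ?_ _
    have := lK _ (erase_ne_self.2 hi) I ⟨i, hi⟩ (erase_subset _ _) subset_rfl _
      ((hY _).1 (erase_subset i I))
    rwa [cast_card_erase_of_mem hi, show q - (I.card - 1) = q - I.card + 1 by ring] at this

end MultX

open MultX in
theorem rowMult : OfMult := by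
  intro hC hA _ hO hF Ω G J _ _ _ _ _ D t H L K I q ω η u hI hP hK hg _ _ mL mK hH hω dω hη u0
    h0 hV
  have tA : t ∈ Algebra.adjoin ℂ {t} := Algebra.self_mem_adjoin_singleton ℂ t
  have cD : ∀ g ∈ Algebra.adjoin ℂ {t}, ∀ x, D (g • x) = g • D x := fun g h x =>
    (DFunLike.congr_fun (hg g h).1.eq x).symm
  have a1 : ∀ s : Finset J, ap H s ω ∈ L (q - s.card) := fun s => by
    simpa [sub_eq_add_neg] using (hA J G).maps H L (-1) s (fun i _ => mL i) q ω hω
  have a2 : ∀ s ⊆ I, D (ap H s ω) - t • ∑ i ∈ s, sgn i s • ap H (s.erase i) ω ∈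
      K s (q - s.card + 1) := fun s hs => by
    have := (hA J G).der H D (mu G t) L (K s) s q ω (fun i _ => (hg t tA).2.1 i) (fun i _ => mL i)
      (fun i _ => mK i s) (fun i hi j y hy =>
        hK (singleton_subset_iff.2 hi) j (hH i (hs hi) j y hy)) hω dω
    simpa only [smul_sum, smul_comm t, mu_apply] using this
  obtain ⟨k, hk⟩ : ∃ k, I.card = k + 1 := ⟨I.card - 1, by have := hI.card_pos; omega⟩
  set g : ℕ → Ω := fun r => cs r * (t ^ (k - r) * Polynomial.aeval t u) with hg'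
  have gA : ∀ r, g r ∈ Algebra.adjoin ℂ {t} := fun r => mul_mem (intCast_mem _ _)
    (mul_mem (pow_mem tA _) (Polynomial.aeval_mem_adjoin_singleton ℂ t))
  set W : Ch J G := fun s => if s ⊂ I then g s.card • ap H s ω else 0 with hW
  have w0 : W ∅ = (t ^ (I.card - 1) * Polynomial.aeval t u) • ω := by
    simp [hW, hg', empty_ssubset.2 hI, (hA J G).emp, cs, hk]
  have w1 : ∀ σ ⊆ I, ∀ r, σ.card = r + 1 → kos D (fun _ => 1) I W σ = (-1 : ℤ) ^ σ.card • D (W σ) +
      g r • ∑ i ∈ σ, sgn i σ • ap H (σ.erase i) ω := fun σ hσ r hr => by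
    rw [(hC J G).kos_apply, inter_eq_right.2 hσ, smul_sum]
    refine congrArg _ (sum_congr rfl fun i hi => ?_)
    simp only [hW, if_pos ((erase_ssubset hi).trans_subset hσ), card_erase_of_mem hi, hr, op_one,
      Nat.add_sub_cancel, smul_comm (g r)]
  obtain ⟨η1, b1, b2⟩ := core (hC J G) (hO J G) (hF J G) (W := W) hI hP hK hη
    ((mem_kl _ _ _ _).2 fun σ => ⟨fun _ => by
      simp only [hW]
      split_ifs
      · exact (hg _ (gA _)).2.2.1 _ _ (a1 σ)
      · exact zero_mem _, fun c => if_neg fun c' => c c'.subset⟩)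
    (w0 ▸ h0) (by
      rw [w0, cD _ (mul_mem (pow_mem tA _) (Polynomial.aeval_mem_adjoin_singleton ℂ t)), dω,
        smul_zero])
    (fun σ hσ n1 n2 => by
      obtain ⟨r, hr⟩ : ∃ r, σ.card = r + 1 := ⟨σ.card - 1, by have := n1.card_pos; omega⟩
      have ss : σ ⊂ I := hσ.ssubset_of_ne n2
      have lt := card_lt_card ss
      have e : g r = -(((-1 : ℤ) ^ (r + 1) • g (r + 1)) * t) := by
        simp only [hg', cs]
        rw [show k - r = k - (r + 1) + 1 by omega]
        rcases neg_one_pow_eq_or ℤ r with c | c <;> simp [pow_succ, c] <;> ring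
      have := zsmul_mem ((hg _ (gA (r + 1))).2.2.2 σ _ _ (a2 σ hσ)) ((-1 : ℤ) ^ (r + 1))
      rw [w1 σ hσ r hr, show q + 1 - σ.card = q - σ.card + 1 by ring]
      simp only [hW, if_pos ss]
      convert this using 1
      rw [cD _ (gA _), e, hr, mu_apply, neg_smul, smul_mul_assoc, smul_assoc, mul_smul _ t,
        smul_sub, smul_sub, sub_eq_add_neg]) hV
  rw [w1 I subset_rfl k hk] at b2
  simp only [hW, if_neg (ssubset_irrefl I), map_zero, smul_zero, zero_add] at b2
  have b3 := a2 I subset_rfl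
  generalize ∑ i ∈ I, sgn i I • ap H (I.erase i) ω = y at b2 b3
  set v := algebraMap ℂ Ω (u.coeff 0)⁻¹ with hv
  have vA : v ∈ Algebra.adjoin ℂ {t} := Subalgebra.algebraMap_mem _ _
  have α := mul_mem (intCast_mem _ (cs k)) vA
  have β := mul_mem vA (Polynomial.aeval_mem_adjoin_singleton ℂ t (p := u.divX))
  have e : cs k * v * g k - v * Polynomial.aeval t u.divX * t = 1 := by
    have e1 : (cs k : Ω) * cs k = 1 := by exact_mod_cast congrArg (Int.cast : ℤ → Ω) (cs_sq k)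
    have e2 := congrArg (Polynomial.aeval t) u.X_mul_divX_add
    have e3 : v * algebraMap ℂ Ω (u.coeff 0) = 1 := by
      rw [hv, ← map_mul, inv_mul_cancel₀ (by rwa [Polynomial.coeff_zero_eq_eval_zero]), map_one]
    rw [map_add, map_mul, Polynomial.aeval_X, Polynomial.aeval_C] at e2
    simp only [hg', Nat.sub_self, pow_zero, one_mul]
    linear_combination v * Polynomial.aeval t u * e1 - v * e2 + e3
  refine ⟨_, sub_mem ((hg _ α).2.2.1 _ _ b1) ((hg _ β).2.2.1 _ _ (a1 I)), ?_⟩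
  convert add_mem ((hg _ α).2.2.2 _ _ _ b2) ((hg _ β).2.2.2 _ _ _ b3) using 1
  rw [mu_apply, mu_apply, mu_apply, mu_apply, map_sub, cD _ α, cD _ β, smul_sub, smul_sub,
    smul_smul, smul_smul, eq_add_of_sub_eq e, add_smul, one_smul]
  abel

end Pool.Agent.MP_ee8c61_ag.H59

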