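import Pool.Agent.MP_ee8c61_ag.H59.SpecC

/-!
Row `NV`: the vanishing in characteristic zero from spreading out, the vanishing in
characteristic `ℓ` and the two transfers.
-/

namespace Pool.Agent.MP_ee8c61_ag.H59

open Finset Sys

theorem rowNV : OfNV := by
  intro hSp hNVl hO hC Ω ι J n m _ _ _ _ _ _ _ S x x0 c hG hA
  obtain ⟨w, ρ, μ, hμ, hP, rfl⟩ := hA
  obtain ⟨ℓ, _, O, F, _, _, _, _, SO, SF, ψ, ex, rd, xO, x0O, ρO, ρF, δ, hB, hE, hR, hx, hx0, hFG,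
    hPO, hGF, hPF, hFD⟩ := hSp Ω ι J n m S x w ρ x0 n hG hP
  have h1 := hNVl F ι J n m ℓ SF (fun l => rd (xO l)) (fun l => PadicInt.toZMod (x0O l)) w ρF μ δ
    hB hμ hGF hPF hFD
  have h2 := hO O F ι J n m ℓ SO SF rd xO x0O w ρO (cl w μ) hR hFG hPO h1
  have h3 := hC O Ω ι J n m ℓ SO S ψ ex xO x0O (cl w μ) hE h2
  have e1 : (fun l => ex (xO l)) = x := funext hx
  have e2 : (fun l => ψ (x0O l)) = x0 := funext hx0
  rw [← e1, ← e2]
  exact h3

end Pool.Agent.MP_ee8c61_ag.H59
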