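import Pool.Agent.MP_ee8c61_ag.H59.SpecC

/-! Vanishing in characteristic `ℓ`: descent along the powers of `ℓ`. -/

namespace Pool.Agent.MP_ee8c61_ag.H59

open Finset Sys

namespace NVlX

variable {J : Type}

theorem cl_add (w : J → ℤ) (μ : ℕ) (hμ : 0 < μ) (r d : ℕ) :
    cl ((μ * d + r) • w) μ = cl (r • w) μ + d • w := by
  funext j
  have h0 : (μ : ℚ) ≠ 0 := Nat.cast_ne_zero.2 hμ.ne'
  have h1 : ((((μ * d + r) • w) j : ℤ) : ℚ) / μ =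
      (((r • w) j : ℤ) : ℚ) / μ + (((d • w) j : ℤ) : ℚ) := by
    simp only [Pi.smul_apply, nsmul_eq_mul]
    push_cast
    field_simp
    ring
  simp only [cl, Pi.add_apply]
  rw [h1, Int.ceil_add_intCast]

theorem ceil_mul (ℓ : ℕ) (hℓ : 0 < ℓ) (t : ℚ) :
    (ℓ : ℤ) * (⌈t⌉ - 1) < ⌈(ℓ : ℚ) * t⌉ ∧ ⌈(ℓ : ℚ) * t⌉ ≤ (ℓ : ℤ) * ⌈t⌉ := by
  have h0 : (0 : ℚ) < ℓ := Nat.cast_pos.2 hℓ
  constructor
  · rw [Int.lt_ceil]
    push_cast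
    exact mul_lt_mul_of_pos_left (by linarith [Int.ceil_lt_add_one t]) h0
  · rw [Int.ceil_le]
    push_cast
    exact mul_le_mul_of_nonneg_left (Int.le_ceil t) h0.le

theorem cl_step (w : J → ℤ) (μ ℓ e : ℕ) (hℓ : 0 < ℓ) (j : J) :
    (ℓ : ℤ) * (cl (ℓ ^ e • w) μ j - 1) < cl (ℓ ^ (e + 1) • w) μ j ∧
      cl (ℓ ^ (e + 1) • w) μ j ≤ (ℓ : ℤ) * cl (ℓ ^ e • w) μ j := by
  have h1 : (((ℓ ^ (e + 1) • w) j : ℤ) : ℚ) / μ = (ℓ : ℚ) * ((((ℓ ^ e • w) j : ℤ) : ℚ) / μ) := by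
    simp only [Pi.smul_apply, nsmul_eq_mul]
    push_cast
    ring
  simp only [cl]
  rw [h1]
  exact ceil_mul ℓ hℓ _

theorem exists_pow (ℓ μ : ℕ) (hℓ : 1 < ℓ) (hμ : 0 < μ) (d0 : ℕ → ℕ) :
    ∃ e r d : ℕ, ℓ ^ e = μ * d + r ∧ d0 r ≤ d := by
  let M : ℕ := (range μ).sup d0
  refine ⟨μ * M, ℓ ^ (μ * M) % μ, ℓ ^ (μ * M) / μ, (Nat.div_add_mod _ _).symm, ?_⟩
  have h1 : d0 (ℓ ^ (μ * M) % μ) ≤ M := le_sup (f := d0) (mem_range.2 (Nat.mod_lt _ hμ))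
  refine h1.trans ((Nat.le_div_iff_mul_le hμ).2 ?_)
  rw [mul_comm]
  exact (Nat.lt_pow_self hℓ).le

end NVlX

theorem rowNVl : OfNVl := by
  intro hReg hSpan hEsz hDi F ι J n m ℓ _ hp _ _ _ _ _ S x x0 w ρ μ δ hn hμ good pol fd
  rcases subsingleton_or_nontrivial F with hF | hF
  · intro j _ y _ _
    refine ⟨0, zero_mem _, ?_⟩
    rw [Subsingleton.elim (y - _) 0]
    exact zero_mem _
  have : CharP F ℓ := charP_of_injective_algebraMap (algebraMap (ZMod ℓ) F).injective ℓ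
  obtain ⟨h1, h2, h3⟩ := hSpan F ι J n ℓ S good
  have loc : Loc S ℓ := ⟨h1, h2, h3⟩
  have reg : S.Reg := hReg (ZMod ℓ) F ι J n S good
  choose d0 hd0 using fun r : ℕ =>
    hEsz (ZMod ℓ) F ι J n m S x x0 w ρ good.fg reg pol (cl (r • w) μ)
  obtain ⟨e, r, d, he, hd⟩ := NVlX.exists_pow ℓ μ hp.out.one_lt hμ d0
  have top : S.NV x x0 (cl (ℓ ^ e • w) μ) := by
    rw [he, NVlX.cl_add w μ hμ]
    exact hd0 r d hd
  have down : ∀ e : ℕ, S.NV x x0 (cl (ℓ ^ e • w) μ) → S.NV x x0 (cl w μ) := by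
    intro e
    induction e with
    | zero => intro h; rwa [pow_zero, one_smul] at h
    | succ e ih =>
      intro h
      exact ih (hDi (ZMod ℓ) F ι J n S ℓ m x x0 δ hn fd loc pol.x_mem _ _
        (NVlX.cl_step w μ ℓ e hp.out.pos) h)
  exact down e top

end Pool.Agent.MP_ee8c61_ag.H59
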