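import Pool.Agent.MP_ee8c61_ag.H59.SpecA

/-!
Nakayama's lemma for the cohomology of a model.
-/

namespace Pool.Agent.MP_ee8c61_ag.H59

theorem rowNak : SNak := by
  intro ℓ _ G G' _ _ _ φ D D' L M j hP hD hL hφ h1 h2 h3 h4 ⟨s, hs, hF⟩ hV
  let Z : Submodule ℤ_[ℓ] G :=
    { carrier := {x | x ∈ L j ∧ D x = 0}
      add_mem' := fun ha hb => ⟨add_mem ha.1 hb.1, by rw [map_add, ha.2, hb.2, add_zero]⟩
      zero_mem' := ⟨zero_mem _, map_zero _⟩
      smul_mem' := fun c x hx => ⟨hL _ c x hx.1, by rw [hD, hx.2, smul_zero]⟩ }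
  let B : Submodule ℤ_[ℓ] G :=
    { carrier := {x | ∃ y ∈ L (j - 1), x = D y}
      add_mem' := by
        rintro _ _ ⟨a, ha, rfl⟩ ⟨b, hb, rfl⟩
        exact ⟨a + b, add_mem ha hb, (map_add _ _ _).symm⟩
      zero_mem' := ⟨0, zero_mem _, (map_zero _).symm⟩
      smul_mem' := by
        rintro c _ ⟨a, ha, rfl⟩
        exact ⟨c • a, hL _ c a ha, (hD c a).symm⟩ }
  let W := Submodule.span ℤ_[ℓ] (s : Set G)
  have hW : W ≤ Z := Submodule.span_le.2 fun x hx => ⟨(hs x hx).1, (hs x hx).2⟩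
  have hZ : Z ≤ B ⊔ W := fun x hx => by
    obtain ⟨y, hy, w, hw, h⟩ := hF x hx.1 hx.2
    have : x = D y + w := by
      rw [mem_lat_bot] at h
      rw [← sub_eq_zero, ← h]
      abel
    rw [this]
    exact Submodule.add_mem_sup ⟨y, hy, rfl⟩ hw
  have key : W ≤ B ⊔ Ideal.span {(ℓ : ℤ_[ℓ])} • W := fun x hx => by
    obtain ⟨y', hy', h⟩ := hV (φ x) (h1 x (hW hx).1) (by rw [← hφ, (hW hx).2, map_zero]; simp)
    obtain ⟨y, hy, rfl⟩ := h2 y' hy'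
    rw [mem_lat_bot, ← hφ, ← map_sub] at h
    obtain ⟨x', hx', e⟩ := h3 _ (sub_mem (hW hx).1 (hP.stp j hy)) h
    have hz : x' ∈ Z := ⟨hx', h4 _ (by rw [← map_nsmul, ← e, map_sub, (hW hx).2, hP.dd', sub_zero])⟩
    obtain ⟨b, hb, w, hw, rfl⟩ := Submodule.mem_sup.1 (hZ hz)
    have : x = (D y + ℓ • b) + (ℓ : ℤ_[ℓ]) • w := by
      rw [Nat.cast_smul_eq_nsmul, add_assoc, ← smul_add, ← e]
      abel
    rw [this]
    exact Submodule.add_mem_sup (add_mem ⟨y, hy, rfl⟩ (nsmul_mem hb _))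
      (Submodule.smul_mem_smul (Ideal.mem_span_singleton_self _) hw)
  have hWB : W ≤ B := Submodule.le_of_le_smul_of_le_jacobson_bot (Submodule.fg_span s.finite_toSet)
    (by rw [IsLocalRing.jacobson_eq_maximalIdeal _ bot_ne_top, PadicInt.maximalIdeal_eq_span_p]) key
  intro x hx hd
  obtain ⟨y, hy, e⟩ := (sup_le le_rfl hWB) (hZ ⟨hx, hd⟩)
  exact ⟨y, hy, by rw [e, sub_self]; exact zero_mem _⟩

end Pool.Agent.MP_ee8c61_ag.H59
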