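import Pool.Agent.MP_ee8c61_ag.H59.SpecC

/-!
The contraction of the top form along a nonempty stratum does not vanish on the stratum.
-/

namespace Pool.Agent.MP_ee8c61_ag.H59

open Finset Sys

namespace NonX

section Strip

variable {k Ω ι J : Type} {n : ℕ} [CommRing k] [CommRing Ω] [Algebra k Ω] [Fintype J]
  (S : Sys k Ω ι J n)

/-- Membership in the ideal of the stratum. -/
def InI (c1 : ι) (I : Finset J) (g : Ω) : Prop :=
  ∃ h : J → Ω, (∀ i, h i ∈ S.A c1) ∧ g = ∑ i ∈ I, (S.η c1 i : Ω) * h i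

omit [Fintype J] in
theorem sum_lab (c1 : ι) (I : Finset J) (hI : ∀ i ∈ I, ∃ l, S.lab c1 i = some l)
    (s : Finset (Fin n)) (hs : ∀ l, l ∈ s ↔ ∃ i ∈ I, S.lab c1 i = some l) (F : J → Ω)
    (G : Fin n → Ω) (h : ∀ i ∈ I, ∀ l, S.lab c1 i = some l → F i = G l) :
    ∑ i ∈ I, F i = ∑ l ∈ s, G l := by
  choose l hl using hI
  refine sum_bij l (fun i hi => (hs _).2 ⟨i, hi, hl i hi⟩) (fun i hi j hj e => ?_)
    (fun b hb => ?_) fun i hi => h i hi _ (hl i hi)
  · exact S.lab_inj c1 i j _ (hl i hi) (e ▸ hl j hj)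
  · obtain ⟨i, hi, e⟩ := (hs b).1 hb
    exact ⟨i, hi, Option.some_injective _ ((hl i hi).symm.trans e)⟩

theorem strip1 (hL : Lo S) (hR : S.Reg) (c1 : ι) (I : Finset J)
    (hI : ∀ i ∈ I, ∃ l, S.lab c1 i = some l) (j : J) (hj : j ∉ I) (g : Ω) (hg : g ∈ S.A c1)
    (h : InI S c1 I ((S.η c1 j : Ω) * g)) : InI S c1 I g := by
  classical
  rcases e : S.lab c1 j with _ | l0
  · rwa [S.η_none c1 j e, Units.val_one, one_mul] at h
  obtain ⟨h, h1, h2⟩ := h
  set s : Finset (Fin n) := univ.filter fun l => ∃ i ∈ I, S.lab c1 i = some l with hs0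
  have hs : ∀ l, l ∈ s ↔ ∃ i ∈ I, S.lab c1 i = some l := fun l => by simp [hs0]
  have hl0 : l0 ∉ s := fun h => by
    obtain ⟨i, hi, e'⟩ := (hs l0).1 h
    exact hj (S.lab_inj c1 i j l0 e' e ▸ hi)
  have key := hR {c1} c1 (mem_singleton_self _) (fun _ => Polynomial.X)
    (fun _ => Polynomial.monic_X) s l0 hl0 g (by rw [hL.single]; exact hg)
  simp only [Polynomial.aeval_X, hL.single] at key
  obtain ⟨c, hc1, hc2⟩ := key ⟨fun l => ∑ i ∈ I, if S.lab c1 i = some l then h i else 0,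
    fun l => sum_mem fun i _ => by split_ifs; exacts [h1 i, zero_mem _], by
      rw [← S.η_some c1 j l0 e, h2]
      refine sum_lab S c1 I hI s hs _ _ fun i hi l hl => ?_
      beta_reduce
      rw [S.η_some c1 i l hl, sum_eq_single i (fun i' _ hne => if_neg fun h' =>
        hne (S.lab_inj c1 i' i l h' hl)) (fun h' => absurd hi h'), if_pos hl]⟩
  refine ⟨fun i => (S.lab c1 i).elim 0 c, fun i => ?_, ?_⟩
  · beta_reduce
    rcases S.lab c1 i with _ | l
    exacts [zero_mem _, hc1 l]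
  · rw [hc2]
    refine (sum_lab S c1 I hI s hs _ _ fun i hi l hl => ?_).symm
    beta_reduce
    rw [S.η_some c1 i l hl, hl]
    rfl

theorem strip (hF : Fr S) (hL : Lo S) (hR : S.Reg) (c1 : ι) (I : Finset J)
    (hI : ∀ i ∈ I, ∃ l, S.lab c1 i = some l) (e : J → ℕ) (he : ∀ i ∈ I, e i = 0) (W : Finset J) :
    InI S c1 I (∏ j ∈ W, (S.η c1 j : Ω) ^ e j) → InI S c1 I 1 := by
  classical
  induction W using Finset.induction_on with
  | empty => simp
  | insert j W hj ih =>
    rw [prod_insert hj]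
    intro h
    apply ih
    by_cases hjI : j ∈ I
    · rwa [he j hjI, pow_zero, one_mul] at h
    have hm : ∏ j ∈ W, (S.η c1 j : Ω) ^ e j ∈ S.A c1 :=
      prod_mem fun j _ => pow_mem (hF.eta_mem c1 j) _
    generalize e j = r at h
    induction r with
    | zero => rwa [pow_zero, one_mul] at h
    | succ r ihr =>
      rw [pow_succ', mul_assoc] at h
      exact ihr (strip1 S hL hR c1 I hI j hjI _
        (mul_mem (pow_mem (hF.eta_mem c1 j) _) hm) h)

theorem det_v (hF : Fr S) (c : ι) :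
    (Matrix.of fun l i => S.v c i l).det =
      ((∏ j, S.η c j : Ωˣ) : Ω) * (Matrix.of fun l i => S.D c i (S.r l)).det := by
  rw [← hF.prod_un, Units.coe_prod, ← Matrix.det_mul_row]
  rfl

/-- The determinant of the logarithmic frame lies in the lattice of the stratum. -/
theorem unwind [LinearOrder J] [Fintype ι] [LinearOrder ι] [Inhabited ι] (hC : SCar) (hA : SAp)
    (hO : Fo Ω n) (hLa : La Ω n) (hD : SDet) (hF : Fr S) (hL : Lo S) (hM : Lm S) (c1 : ι)
    (I : Finset J) (hI : ∀ i ∈ I, ∃ l, S.lab c1 i = some l) (u u' : J → Ω)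
    (hu : ∀ i ∈ I, u' i * u i = 1) (hu' : ∀ i ∈ I, u' i ∈ S.A c1) (C : Finset (J → ℤ)) (q : ℤ)
    (h : ap (fun i => mu _ (u i) * S.hh i) I (om ι n Ω) ∈ S.T C q) :
    (Matrix.of fun l i => S.v c1 i l).det ∈ S.NN c1 {c1} C := by
  let φ : Ch ι (Fm n Ω) →+ Fm n Ω :=
    AddMonoidHom.comp (S.crd c1) (Pi.evalAddMonoidHom (fun _ : Finset ι => Fm n Ω) {c1})
  have hφ : ∀ γ, φ γ = S.crd c1 (γ {c1}) := fun _ => rfl
  let H : J → Op (Fm n Ω) := fun i => (S.lab c1 i).elim 0 fun l => -(mu _ (u i) * io l)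
  let E : J → Op (Fm n Ω) := fun i => (S.lab c1 i).elim 0 fun l => -(mu _ (u' i) * ep l)
  let K : AddSubgroup (Fm n Ω) := AddSubgroup.pi Set.univ fun _ => S.NN c1 {c1} C
  have hK : ∀ w, w ∈ K ↔ ∀ σ, w σ ∈ S.NN c1 {c1} C := fun w => by
    simp [K, AddSubgroup.mem_pi]
  have h1 := (hA J _).map _ φ (fun i => mu _ (u i) * S.hh i) H I (fun i hi γ => by
    obtain ⟨l, hl⟩ := hI i hi
    have e1 : ((mu _ (u i) * S.hh i : Op (Ch ι (Fm n Ω))) γ) {c1} =
        -(u i • co (S.v c1 l) (γ {c1})) := by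
      change u i • (S.hh i γ {c1}) = _
      rw [hh, ods_apply, pick_single, vv, hl]
      simp
    have e2 := DFunLike.congr_fun (hF.crd_v c1 l) (γ {c1})
    simp only [op_mul] at e2
    rw [hφ, hφ, e1, map_neg, crd, hLa.lin, ← crd, e2]
    simp [H, hl]) (om ι n Ω)
  have h2 : φ (om ι n Ω) = top n ((Matrix.of fun l i => S.v c1 i l).det) := by
    rw [hφ, om, if_pos (card_singleton _), crd, hD, mul_one]
  have h3 : ap H I (φ (om ι n Ω)) ∈ K := by
    rw [← h1, hφ, hK]
    exact ((hO.mem_fl _ _ _).1 ((hM.mem C {c1} c1 (mem_singleton_self _) _ _).1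
      ((S.mem_T _ _ _).1 h {c1}))).1
  have h4 := (hA J _).unw H E K I _ (fun i hi j hj => by
      obtain ⟨l, hl⟩ := hI i hi
      obtain ⟨l', hl'⟩ := hI j hj
      refine op_ext fun w => ?_
      have e1 := DFunLike.congr_fun ((hC (Fin n) Ω).ei l l') w
      simp only [op_add, op_mul] at e1
      simp only [H, E, hl, hl', Option.elim_some, op_add, op_mul, op_neg, mu_apply, map_neg,
        neg_neg]
      rw [hO.lin_ep, hO.lin_io, smul_smul, smul_smul, mul_comm (u j), ← smul_add, e1]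
      by_cases e : i = j
      · subst e
        rw [hl] at hl'
        rw [if_pos (Option.some_injective _ hl'), if_pos rfl, hu i hi, one_smul]
      · rw [if_neg e, if_neg fun e' : l = l' => e (S.lab_inj c1 i j l hl (e' ▸ hl'))]
        simp)
    (fun i hi => by
      obtain ⟨l, hl⟩ := hI i hi
      simp only [E, hl, Option.elim_some, op_neg, op_mul, mu_apply]
      rw [h2, ← hO.we_single, hO.we_top]
      simp)
    (fun i hi y hy => by
      obtain ⟨l, hl⟩ := hI i hi
      simp only [E, hl, Option.elim_some, op_neg, op_mul, mu_apply]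
      refine neg_mem ((hK _).2 fun σ => ?_)
      refine hL.mul c1 {c1} C _ (by rw [hL.single]; exact hu' i hi) _ ?_
      rw [ep_apply]
      split_ifs
      · exact zsmul_mem ((hK _).1 hy _) _
      · exact zero_mem _) h3
  have h5 := (hK _).1 h4 univ
  rwa [h2, top, Pi.single_eq_same] at h5

end Strip

end NonX

open NonX in
theorem rowNon : OfNon := by
  intro hC hA hO hLa hD hF hL hM hP Ω ι J n m _ _ _ _ _ _ S x f a _ _ _ kk b c0 I c1 u q hin hR
    hc hcI hu hn h
  classical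
  have hI : ∀ i ∈ I, ∃ l, S.lab c1 i = some l := fun i hi => by
    rcases e : S.lab c1 i with _ | l
    · refine absurd ⟨fun j => if j = i then 1 else 0, fun j => ?_, ?_⟩ hn
      · beta_reduce
        split_ifs
        exacts [one_mem _, zero_mem _]
      · rw [sum_eq_single i (fun j _ hj => by simp [hj]) (fun h' => absurd hi h'),
          S.η_none c1 i e]
        simp
    · exact ⟨l, rfl⟩
  have h1 := unwind (S.px m) hC hA (hO _ _) (hLa _ _) hD (hF _ _ _ _ _ _) (hL _ _ _ _ _ _)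
    (hM _ _ _ _ _ _) c1 I hI (fun i => algebraMap ℂ (PX m Ω) (u i))
    (fun i => algebraMap ℂ (PX m Ω) (u i)⁻¹)
    (fun i hi => by rw [← map_mul, inv_mul_cancel₀ (hu i hi), map_one])
    (fun i _ => Subalgebra.algebraMap_mem _ _) _ q h
  have hS := hF _ _ _ _ _ S
  have hT := hL _ _ _ _ _ S
  have hQ := hP _ _ _ _ _ S (Option (Fin m))
  have h2 : (Matrix.of fun l i => (S.px m).v c1 i l).det =
      MvPolynomial.C (Matrix.of fun l i => S.v c1 i l).det := by
    rw [RingHom.map_det]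
    exact congrArg Matrix.det (Matrix.ext fun l i => hQ.v c1 i l)
  have h3 := (hQ.NN {c1} c1 (mem_singleton_self _) _ _).1 h1 0
  rw [h2, MvPolynomial.coeff_zero_C, hT.mem_KJ, det_v S hS] at h3
  obtain ⟨g, hg1, hg2⟩ := h3
  obtain ⟨U, hU, hU2⟩ := hin.det c1
  rw [hU2] at hg2
  refine hn (strip S hS hT hR c1 I hI (fun j => (kk j + 1 - c0 j : ℤ).toNat)
    (fun i hi => by simp [hcI i hi]) univ
    ⟨fun i => ((U⁻¹ : Ωˣ) : Ω) * g i, fun i => mul_mem hU.2 (hT.single c1 ▸ hg1 i), ?_⟩)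
  have h4 : (∏ j, S.η c1 j ^ (kk j + 1 - c0 j : ℤ).toNat) =
      U⁻¹ * (S.mon c1 c0)⁻¹ * ((∏ j, S.η c1 j) * (U * S.mon c1 fun j => (kk j : ℤ))) := by
    have e : ∀ j, S.η c1 j ^ (kk j + 1 - c0 j : ℤ).toNat =
        (S.η c1 j ^ c0 j)⁻¹ * (S.η c1 j * S.η c1 j ^ (kk j : ℤ)) := fun j => by
      rw [← zpow_natCast, Int.toNat_of_nonneg (by have := hc j; omega), zpow_sub, zpow_add_one,
        mul_comm, mul_comm (S.η c1 j)]
    simp only [e, mon, prod_mul_distrib, prod_inv_distrib]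
    rw [mul_left_comm _ U, mul_mul_mul_comm, inv_mul_cancel, one_mul]
  have h5 := congrArg (fun y : Ωˣ => (y : Ω)) h4
  simp only [Units.coe_prod, Units.val_pow_eq_pow_val] at h5
  rw [h5, Units.val_mul, Units.val_mul, Units.val_mul _ (U * _), hg2, mul_assoc,
    Units.inv_mul_cancel_left, mul_sum]
  exact sum_congr rfl fun i _ => mul_left_comm _ _ _

end Pool.Agent.MP_ee8c61_ag.H59
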