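import Pool.Agent.MP_ee8c61_ag.H59.SpecB

/-!
Vanishing for the strata.
-/

namespace Pool.Agent.MP_ee8c61_ag.H59

open Finset Sys

namespace NvKX

section Lat

variable {ι M : Type} [AddCommGroup M]

theorem lat_sup (F G : Finset ι → Lat M) : lat (fun σ => F σ ⊔ G σ) = lat F ⊔ lat G := by
  funext j
  ext γ
  rw [Pi.sup_apply, AddSubgroup.mem_sup, mem_lat]
  simp only [mem_lat, Pi.sup_apply, AddSubgroup.mem_sup]
  refine ⟨fun h => ?_, ?_⟩
  · choose y hy z hz e using h
    exact ⟨y, hy, z, hz, funext e⟩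
  · rintro ⟨y, hy, z, hz, rfl⟩ σ
    exact ⟨y σ, hy σ, z σ, hz σ, rfl⟩

theorem lat_inf (F G : Finset ι → Lat M) : lat (fun σ => F σ ⊓ G σ) = lat F ⊓ lat G := by
  funext j
  ext γ
  rw [Pi.inf_apply, AddSubgroup.mem_inf, mem_lat]
  simp only [mem_lat, Pi.inf_apply, AddSubgroup.mem_inf]
  exact forall_and

end Lat

variable {J : Type}

theorem ind_nonneg (W : Finset J) : 0 ≤ ind W := fun j => by
  classical
  rw [ind_apply]
  split_ifs <;> simp

theorem ind_empty : ind (∅ : Finset J) = 0 := by
  classical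
  funext j
  simp [ind_apply]

theorem ind_insert [DecidableEq J] {i : J} {W : Finset J} (h : i ∉ W) :
    ind (insert i W) = ind {i} + ind W := by
  funext j
  simp only [Pi.add_apply, ind_apply, mem_insert, mem_singleton]
  by_cases e : j = i
  · simp [e, h]
  · simp [e]

theorem KJ_empty (c : J → ℤ) : KJ c ∅ = ∅ :=
  eq_empty_of_forall_notMem fun c' h => by simpa using (mem_KJ c c' ∅).1 h

theorem KJ_insert [DecidableEq J] [DecidableEq (J → ℤ)] (c : J → ℤ) (i : J) (I : Finset J) :
    KJ c (insert i I) = {c + ind {i}} ∪ KJ c I := by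
  ext c'
  simp only [mem_union, mem_KJ, mem_insert, mem_singleton, exists_eq_or_imp]
  rw [eq_comm]

theorem le_KJ (c : J → ℤ) (I : Finset J) : Le (KJ c I) {c} := fun c' h => by
  obtain ⟨i, -, rfl⟩ := (mem_KJ c c' I).1 h
  exact ⟨c, mem_singleton_self c, le_add_of_nonneg_right (ind_nonneg _)⟩

theorem le_sub {C C' : Finset (J → ℤ)} (h : C' ⊆ C) : Le C' C := fun c hc => ⟨c, h hc, le_rfl⟩

end NvKX

open NvKX in
theorem rowNvK : OfNvK := by
  intro hCx hCo hL hI k Ω ι J n _ _ _ _ S _ _ m x x0 hR hx I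
  classical
  have hL := hL k Ω ι J n S
  have hp : ∀ C C', Le C' C → Pair (kc 0 (fun l => x l - algebraMap k Ω (x0 l)) univ)
      (kl univ fun _ : Finset (Fin m) => S.T C) (kl univ fun _ => S.T C') := fun C C' h =>
    (hCo _ _).pair _ _ _ _ _ (hL.kok0 (Fin m) _ univ C C' h fun l _ a =>
      sub_mem (hx a l) ((S.A a).algebraMap_mem _))
  induction I using Finset.induction_on with
  | empty =>
    intro c h
    have := h ∅ Subset.rfl
    rw [ind_empty, add_zero] at this
    rw [KJ_empty, card_empty, Nat.cast_zero, sub_zero]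
    exact this
  | insert i I hi ih =>
    intro c h j hj
    rw [card_insert_of_notMem hi] at hj
    push_cast at hj
    have e1 : (kl univ fun _ : Finset (Fin m) => S.T (KJ c (insert i I))) =
        (kl univ fun _ => S.T {c + ind {i}}) ⊔ kl univ fun _ => S.T (KJ c I) := by
      simp only [kl_univ, ← lat_sup, Sys.T, KJ_insert]
      congr 1
      funext _
      congr 1
      funext σ
      exact hL.union _ _ σ
    have e2 : ((kl univ fun _ : Finset (Fin m) => S.T {c + ind {i}}) ⊓
        kl univ fun _ => S.T (KJ c I)) = kl univ fun _ => S.T (KJ (c + ind {i}) I) := by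
      simp only [kl_univ, ← lat_inf, Sys.T]
      congr 1
      funext _
      congr 1
      funext σ
      exact hI k Ω ι J n S hR c I i hi σ
    refine (hCx _).right _ _ _ (kl univ fun _ => S.T (KJ c I)) j (hp _ _ (le_KJ c _))
      (hp _ _ (le_sub (by rw [KJ_insert]; exact subset_union_right)))
      (ih c (fun W hW => h W (hW.trans (subset_insert i I))) j (by omega)) ?_
    rw [e1]
    refine (hCx _).sup _ _ _ _ (hp _ _ (le_sub Subset.rfl)).st (hp _ _ (le_sub Subset.rfl)).st ?_
    rw [e2]
    refine ih _ (fun W hW => ?_) (j + 1) (by omega)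
    rw [add_assoc, ← ind_insert fun a => hi (hW a)]
    exact h _ (insert_subset_insert i hW)

end Pool.Agent.MP_ee8c61_ag.H59
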