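import Pool.Agent.MP_ee8c61_ag.H59.SpecC

/-!
Formal properties of the map of Deligne and Illusie.
-/

namespace Pool.Agent.MP_ee8c61_ag.H59

open Finset Sys

namespace Ph1X

variable {k Ω ι J : Type} {n : ℕ} [CommRing k] [CommRing Ω] [Algebra k Ω]
  (S : Sys k Ω ι J n) (ℓ : ℕ) [Fact ℓ.Prime] [CharP Ω ℓ]

theorem fr0_apply (w : Fm n Ω) : fr0 ℓ w = vac n (w ∅ ^ ℓ) := rfl

theorem dd_fr0 (hO : Fo Ω n) (hD : Fd S.R) : S.dd * fr0 ℓ = 0 := by
  refine op_ext fun w => ?_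
  have h : (fun l => S.R l (w ∅ ^ ℓ)) = (0 : Ω) • (0 : Fin n → Ω) := by
    funext l
    rw [Derivation.leibniz_pow, nsmul_eq_mul, CharP.cast_eq_zero, zero_mul]
    simp
  rw [op_mul, fr0_apply, Sys.dd, hD.d_vac, h, hO.we_smul, map_zero, zero_mul]
  rfl

theorem fr0_mu (g : Ω) : (fr0 ℓ : Op (Fm n Ω)) * mu _ g = mu _ (g ^ ℓ) * fr0 ℓ := by
  refine op_ext fun w => ?_
  simp only [op_mul, mu_apply, fr0_apply, vac, Pi.smul_apply, smul_eq_mul, mul_pow]
  rw [← Pi.single_smul', smul_eq_mul]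

theorem pd_fr0 {r : ℤ} (hr : 0 < r) : (pd n r : Op (Fm n Ω)) * fr0 ℓ = 0 := by
  refine op_ext fun w => funext fun σ => ?_
  rw [op_mul, fr0_apply, pd, evs_apply]
  split_ifs with h
  · have h1 : σ ≠ ∅ := by
      rintro rfl
      simp at h
      omega
    exact Pi.single_eq_of_ne h1 _
  · rfl

theorem od_sum {M κ : Type} [AddCommGroup M] (s : Finset κ) (T : κ → Op M) :
    (od (∑ i ∈ s, T i) : Op (Ch ι M)) = ∑ i ∈ s, od (T i) := by
  refine op_ext fun γ => funext fun σ => ?_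
  rw [od_apply, op_sum, op_sum, Finset.sum_apply, smul_sum]
  rfl

variable [Fintype J] [Fintype ι] [LinearOrder ι] [Inhabited ι] (δ : ι → Fin n → Ω)

theorem chain (hC : Car ι (Fm n Ω)) (hO : Fo Ω n) (hD : Fd S.R) (hM : Mo S ℓ δ) (p : ℕ) :
    cech S.dd * S.Ph ℓ δ p = S.Ph ℓ δ p * cech 0 := by
  induction p with
  | zero =>
    have h1 : (cech S.dd : Op (Ch ι (Fm n Ω))) = cech 0 + od S.dd := by
      rw [cech, cech, ← hC.kos_add, zero_add]
    have h2 : (od (0 : Op (Fm n Ω)) : Op (Ch ι (Fm n Ω))) = 0 :=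
      op_ext fun γ => funext fun σ => by simp
    rw [Ph, h1, add_mul, hC.od_ev, dd_fr0 S ℓ hO hD, h2, add_zero]
    exact (hC.kos_ev 0 _ _ _ (Commute.zero_right _) fun _ _ => Commute.one_right _).symm
  | succ p ih =>
    rw [Ph, mul_sum, sum_mul]
    refine sum_congr rfl fun l _ => ?_
    have h1 := eq_neg_of_add_eq_zero_left (hM.anti (Pi.single l 1))
    have h2 : (cech 0 : Op (Ch ι (Fm n Ω))) * od (io l) + od (io l) * cech 0 = 0 := by
      rw [cech, hC.kos_od 0 (io l) _ _ fun _ _ => Commute.one_right _, zero_mul, mul_zero, add_zero]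
      rfl
    rw [← mul_assoc, ← mul_assoc, h1, neg_mul, mul_assoc _ (cech S.dd), ih, neg_mul,
      mul_assoc, mul_assoc, eq_neg_of_add_eq_zero_left h2]
    simp only [mul_neg, neg_neg, mul_assoc]

theorem semi (hC : Car ι (Fm n Ω)) (hO : Fo Ω n) (hM : Mo S ℓ δ) (p : ℕ) (g : Ω) :
    S.Ph ℓ δ p * mu _ g = mu _ (g ^ ℓ) * S.Ph ℓ δ p := by
  induction p with
  | zero => exact congrArg ev (fr0_mu ℓ g)
  | succ p ih =>
    rw [Ph, mul_sum, sum_mul]
    refine sum_congr rfl fun l _ => ?_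
    have h1 : (od (io l) : Op (Ch ι (Fm n Ω))) * mu _ g = mu _ g * od (io l) := by
      rw [← ev_mu, hC.od_ev, hC.ev_od, ((hO.lin_io l).comm g).eq]
    rw [mul_assoc, h1, ← mul_assoc, mul_assoc _ _ (mu _ g), ih, ← mul_assoc,
      ← (hM.comm g _).eq]
    simp only [mul_assoc]

theorem frame (hC : Car ι (Fm n Ω)) (hO : Fo Ω n) (hF : Fr S) (hM : Mo S ℓ δ) (p : ℕ) (a : ι) :
    S.Ph ℓ δ (p + 1) = ∑ i, S.mo ℓ δ (S.e a i) * S.Ph ℓ δ p * od (co (S.v a i)) := by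
  have h1 : ∀ l, (od (io l) : Op (Ch ι (Fm n Ω))) =
      ∑ i, mu _ (S.e a i l) * od (co (S.v a i)) := fun l => by
    rw [← hO.co_single, hF.exp_v a (Pi.single l 1), hO.co_sum, od_sum]
    refine sum_congr rfl fun i _ => ?_
    rw [hO.co_smul, ← hC.ev_od, ev_mu, single_one_dotProduct]
  have h2 : ∀ α, S.mo ℓ δ α = ∑ l, mu _ (α l ^ ℓ) * S.mo ℓ δ (Pi.single l 1) := fun α => by
    have h3 := map_sum (AddMonoidHom.mk' (S.mo ℓ δ) hM.add)
      (fun l => α l • (Pi.single l 1 : Fin n → Ω)) univ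
    rw [← pi_eq_sum_univ'] at h3
    exact h3.trans (sum_congr rfl fun l _ => hM.smul _ _)
  rw [Ph]
  simp only [h1, mul_sum]
  rw [sum_comm]
  refine sum_congr rfl fun i _ => ?_
  rw [h2 (S.e a i), sum_mul, sum_mul]
  refine sum_congr rfl fun l _ => ?_
  rw [← mul_assoc, mul_assoc _ _ (mu _ _), semi S ℓ δ hC hO hM, ← mul_assoc, ← (hM.comm _ _).eq]

theorem deg (hO : Fo Ω n) (hM : Mo S ℓ δ) (p : ℕ) :
    ∀ r : ℤ, p < r → ev (pd n r) * S.Ph ℓ δ p = 0 := by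
  induction p with
  | zero => exact fun r hr => congrArg ev (pd_fr0 ℓ (by simpa using hr))
  | succ p ih =>
    intro r hr
    have h1 : ∀ r : ℤ, p < r → ∀ γ σ, pd n r (S.Ph ℓ δ p γ σ) = 0 := fun r hr γ σ =>
      congrFun (DFunLike.congr_fun (ih r hr) γ) σ
    rw [Ph, mul_sum]
    refine sum_eq_zero fun l _ => op_ext fun γ => funext fun σ => ?_
    have h2 : ∀ α w, pd n r (we α w) = we α (pd n (r - 1) w) := fun α w => by
      have := DFunLike.congr_fun (hO.pd_we α (r - 1)) w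
      rw [sub_add_cancel] at this
      exact this.symm
    push_cast at hr
    rw [op_mul, op_mul, op_mul, ev_apply, hM.apply, map_add, map_zsmul, h2, h1 _ (by omega),
      map_zero, smul_zero, zero_add, map_sum]
    refine sum_eq_zero fun b _ => ?_
    rw [map_zsmul, hO.lin_pd, h1 _ (by omega), smul_zero, smul_zero]

end Ph1X

theorem rowPh1 : OfPh1 := by
  intro hC hO hD hF hM k Ω ι J n _ _ _ _ _ _ _ S ℓ _ _ δ
  have m := hM k Ω ι J n S ℓ δ
  exact ⟨Ph1X.chain S ℓ δ (hC _ _) (hO _ _) (hD k Ω n S.R S.R_comm) m,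
    Ph1X.semi S ℓ δ (hC _ _) (hO _ _) m, Ph1X.frame S ℓ δ (hC _ _) (hO _ _) (hF k Ω ι J n S) m,
    Ph1X.deg S ℓ δ (hO _ _) m⟩

end Pool.Agent.MP_ee8c61_ag.H59
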