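import Pool.Agent.MP_ee8c61_ag.H59.SpecB

/-!
Row `Pt`: adjoining polynomial variables to a system of charts.
-/

namespace Pool.Agent.MP_ee8c61_ag.H59

open Finset Sys

namespace PtX

open MvPolynomial

variable {k Ω ι J : Type} {n : ℕ} [CommRing k] [CommRing Ω] [Algebra k Ω]

theorem AA_iff (S : Sys k Ω ι J n) (κ : Type) (σ : Finset ι) (hσ : σ.Nonempty)
    (P : MvPolynomial κ Ω) : P ∈ (S.pol κ).AA σ ↔ ∀ e, coeff e P ∈ S.AA σ := by
  classical
  constructor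
  · intro h
    have : (S.pol κ).AA σ ≤ spol κ (S.AA σ) := by
      refine iSup₂_le fun a ha P hP e => ?_
      exact (le_iSup₂ (f := fun a (_ : a ∈ σ) => S.A a) a ha) (hP e)
    exact this h
  · intro h
    have hC : S.AA σ ≤ ((S.pol κ).AA σ).comap (IsScalarTower.toAlgHom k Ω (MvPolynomial κ Ω)) := by
      refine iSup₂_le fun a ha g hg => ?_
      exact (le_iSup₂ (f := fun a (_ : a ∈ σ) => (S.pol κ).A a) a ha) (C_mem_spol hg)
    obtain ⟨a, ha⟩ := hσ
    rw [P.as_sum]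
    refine sum_mem fun e _ => ?_
    have h1 : monomial e (coeff e P) = C (coeff e P) * monomial e (1 : Ω) := by
      rw [C_mul_monomial, mul_one]
    rw [h1]
    refine mul_mem (hC (h e)) ?_
    refine (le_iSup₂ (f := fun a (_ : a ∈ σ) => (S.pol κ).A a) a ha) fun e' => ?_
    rw [coeff_monomial]
    split_ifs
    · exact one_mem _
    · exact zero_mem _

theorem mem_fl' (N : AddSubgroup Ω) (p : ℤ) (w : Fm n Ω) :
    w ∈ fl n N p ↔ ∀ σ, w σ ∈ N ∧ (p - σ.card ≠ 0 → w σ = 0) := by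
  rw [fl, mem_lat]
  exact forall_congr' fun σ => mem_deg0 _ _ _

/-- The monomial with a given exponent. -/
noncomputable def mn (κ Ω : Type) [CommRing Ω] (e : κ →₀ ℕ) : Ω →+ MvPolynomial κ Ω :=
  (monomial e : Ω →ₗ[Ω] MvPolynomial κ Ω).toAddMonoidHom

theorem cf_apply (κ : Type) (e : κ →₀ ℕ) (P : MvPolynomial κ Ω) : cf κ Ω e P = coeff e P := rfl

theorem mn_apply (κ : Type) (e : κ →₀ ℕ) (g : Ω) : mn κ Ω e g = monomial e g := rfl

variable [Fintype J] (S : Sys k Ω ι J n) (κ : Type)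

theorem un_eq (a : ι) (i : Fin n) : (S.pol κ).un a i =
    Units.map (C : Ω →+* MvPolynomial κ Ω).toMonoidHom (S.un a i) := by
  unfold Sys.un
  rw [map_prod]
  refine prod_congr rfl fun j _ => ?_
  change (if S.lab a j = some i then _ else _) = _
  split_ifs
  · rfl
  · rw [map_one]

theorem mon_eq (a : ι) (c : J → ℤ) : (S.pol κ).mon a c =
    Units.map (C : Ω →+* MvPolynomial κ Ω).toMonoidHom (S.mon a c) := by
  unfold Sys.mon
  rw [map_prod]
  refine prod_congr rfl fun j _ => ?_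
  rw [map_zpow]
  rfl

theorem v_eq (a : ι) (i l : Fin n) : (S.pol κ).v a i l = C (S.v a i l) := by
  change ((S.pol κ).un a i : MvPolynomial κ Ω) * dpol κ (S.D a i) (C (S.r l)) =
    C ((S.un a i : Ω) * S.D a i (S.r l))
  rw [un_eq, dpol_C, map_mul]
  rfl

theorem e_eq (a : ι) (i l : Fin n) : (S.pol κ).e a i l = C (S.e a i l) := by
  change ((((S.pol κ).un a i)⁻¹ : (MvPolynomial κ Ω)ˣ) : MvPolynomial κ Ω) *
    dpol κ (S.R l) (C (S.z a i)) = C ((((S.un a i)⁻¹ : Ωˣ) : Ω) * S.R l (S.z a i))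
  rw [un_eq, dpol_C, map_mul, ← map_inv]
  rfl

theorem vv_eq (a : ι) (j : J) (l : Fin n) : (S.pol κ).vv a j l = C (S.vv a j l) := by
  change (S.lab a j).elim 0 ((S.pol κ).v a) l = C ((S.lab a j).elim 0 (S.v a) l)
  cases S.lab a j with
  | none => simp
  | some i => exact v_eq S κ a i l

theorem mon_coe (a : ι) (c : J → ℤ) :
    ((S.pol κ).mon a c : MvPolynomial κ Ω) = C (S.mon a c : Ω) := by
  rw [mon_eq]
  rfl

theorem mon_inv (a : ι) (c : J → ℤ) :
    ((((S.pol κ).mon a c)⁻¹ : (MvPolynomial κ Ω)ˣ) : MvPolynomial κ Ω) =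
      C (((S.mon a c)⁻¹ : Ωˣ) : Ω) := by
  rw [mon_eq, ← map_inv]
  rfl

theorem NN_iff (hLo : SLo) (σ : Finset ι) (a : ι) (ha : a ∈ σ) (Cs : Finset (J → ℤ))
    (P : MvPolynomial κ Ω) :
    P ∈ (S.pol κ).NN a σ Cs ↔ ∀ e, coeff e P ∈ S.NN a σ Cs := by
  classical
  rw [(hLo k _ ι J n (S.pol κ)).mem_NN]
  constructor
  · rintro ⟨h, h1, rfl⟩ e
    rw [(hLo k Ω ι J n S).mem_NN]
    refine ⟨fun c => coeff e (h c), fun c => (AA_iff S κ σ ⟨a, ha⟩ _).1 (h1 c) e, ?_⟩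
    rw [coeff_sum]
    refine sum_congr rfl fun c _ => ?_
    rw [mon_coe, coeff_C_mul]
  · intro h
    choose g hg1 hg2 using fun e => ((hLo k Ω ι J n S).mem_NN a σ Cs _).1 (h e)
    refine ⟨fun c => ∑ e ∈ P.support, monomial e (g e c), fun c => ?_, ?_⟩
    · rw [AA_iff S κ σ ⟨a, ha⟩]
      intro e'
      rw [coeff_sum]
      refine sum_mem fun e _ => ?_
      rw [coeff_monomial]
      split_ifs
      · exact hg1 e c
      · exact zero_mem _
    · conv_lhs => rw [P.as_sum]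
      simp only [mon_coe, mul_sum, C_mul_monomial]
      rw [sum_comm]
      refine sum_congr rfl fun e _ => ?_
      rw [hg2 e, map_sum]

theorem lm_iff (hLa : SLa) (hLo : SLo) (hLm : SLm) (Cs : Finset (J → ℤ)) (σ : Finset ι) (p : ℤ)
    (w : Fm n (MvPolynomial κ Ω)) :
    w ∈ (S.pol κ).lm Cs σ p ↔ ∀ e, up (cf κ Ω e) w ∈ S.lm Cs σ p := by
  rcases σ.eq_empty_or_nonempty with rfl | ⟨a, ha⟩
  · rw [(hLm k _ ι J n (S.pol κ)).emp, (hLm k Ω ι J n S).emp, mem_lat_bot]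
    simp only [mem_lat_bot]
    constructor
    · rintro rfl e
      exact map_zero _
    · intro h
      funext τ
      ext e
      exact congrFun (h e) τ
  · have hc : ∀ e, S.crd a (up (cf κ Ω e) w) = up (cf κ Ω e) ((S.pol κ).crd a w) := fun e => by
      refine ((hLa _ n).up Ω (cf κ Ω e) _ _ (fun l i g => ?_) w).symm
      rw [v_eq, cf_apply, cf_apply, coeff_C_mul]
    rw [(hLm k _ ι J n (S.pol κ)).mem Cs σ a ha, mem_fl']
    simp only [(hLm k Ω ι J n S).mem Cs σ a ha, mem_fl', hc, up_apply, cf_apply,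
      NN_iff S κ hLo σ a ha]
    constructor
    · intro h e τ
      exact ⟨(h τ).1 e, fun h0 => by rw [(h τ).2 h0, coeff_zero]⟩
    · intro h τ
      exact ⟨fun e => (h e τ).1, fun h0 => MvPolynomial.ext _ _ fun e => by
        rw [(h e τ).2 h0, coeff_zero]⟩

theorem T_iff (hLa : SLa) (hLo : SLo) (hLm : SLm) (Cs : Finset (J → ℤ)) (j : ℤ)
    (γ : Ch ι (Fm n (MvPolynomial κ Ω))) :
    γ ∈ (S.pol κ).T Cs j ↔ ∀ e, up (up (cf κ Ω e)) γ ∈ S.T Cs j := by
  simp only [mem_T, up_apply, lm_iff S κ hLa hLo hLm]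
  exact forall_comm

theorem keeps (hLa : SLa) (hLo : SLo) (hLm : SLm) (Δ : Op (MvPolynomial κ Ω))
    (h1 : ∀ g P, Δ (C g * P) = C g * Δ P)
    (h2 : ∀ N : AddSubgroup Ω, (∀ (c : k), ∀ g ∈ N, c • g ∈ N) → ∀ P,
      (∀ e, coeff e P ∈ N) → ∀ e, coeff e (Δ P) ∈ N) (Cs : Finset (J → ℤ)) :
    Keeps (ev (ev Δ)) ((S.pol κ).T Cs) ((S.pol κ).T Cs) := by
  intro j γ hγ
  rw [mem_T] at hγ ⊢
  intro σ
  have hγσ := hγ σ
  rw [ev_apply]
  rcases σ.eq_empty_or_nonempty with rfl | ⟨a, ha⟩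
  · rw [(hLm k _ ι J n (S.pol κ)).emp, mem_lat_bot] at hγσ ⊢
    rw [hγσ, map_zero]
  · have hc : (S.pol κ).crd a (ev Δ (γ σ)) = ev Δ ((S.pol κ).crd a (γ σ)) := by
      refine ((hLa _ n).up _ Δ _ _ (fun l i g => ?_) (γ σ)).symm
      rw [v_eq]
      exact h1 _ _
    rw [(hLm k _ ι J n (S.pol κ)).mem Cs σ a ha, mem_fl'] at hγσ ⊢
    rw [hc]
    intro τ
    rw [ev_apply]
    refine ⟨?_, fun h0 => by rw [(hγσ τ).2 h0, map_zero]⟩
    have h3 := (hγσ τ).1
    rw [NN_iff S κ hLo σ a ha] at h3 ⊢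
    refine h2 _ (fun c g hg => ?_) _ h3
    rw [Algebra.smul_def]
    exact (hLo k Ω ι J n S).mul a σ Cs _ (Subalgebra.algebraMap_mem _ c) g hg

theorem mn_mem (hLa : SLa) (hLo : SLo) (hLm : SLm) (Cs : Finset (J → ℤ)) (j : ℤ) (e : κ →₀ ℕ)
    (y : Ch ι (Fm n Ω)) (hy : y ∈ S.T Cs j) : up (up (mn κ Ω e)) y ∈ (S.pol κ).T Cs j := by
  classical
  rw [T_iff S κ hLa hLo hLm]
  intro e'
  by_cases h : e = e'
  · have : up (up (cf κ Ω e')) (up (up (mn κ Ω e)) y) = y := by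
      funext σ τ
      simp only [up_apply, cf_apply, mn_apply, coeff_monomial, if_pos h]
    rw [this]
    exact hy
  · have : up (up (cf κ Ω e')) (up (up (mn κ Ω e)) y) = 0 := by
      funext σ τ
      simp only [up_apply, cf_apply, mn_apply, coeff_monomial, if_neg h, Pi.zero_apply]
    rw [this]
    exact zero_mem _

theorem van (hC : SCar) (hX : SCx) (hLa : SLa) (hLo : SLo) (hLm : SLm) [Fintype ι] [LinearOrder ι]
    (κ' : Type) [Fintype κ'] [LinearOrder κ'] (t : κ' → Ω) (s : Finset κ')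
    (Cs Cs' : Finset (J → ℤ)) (j : ℤ)
    (h : Van (kc 0 t s) (kl s fun _ => S.T Cs) (kl s fun _ => S.T Cs') j) :
    Van (kc 0 (fun l => (C (t l) : MvPolynomial κ Ω)) s) (kl s fun _ => (S.pol κ).T Cs)
      (kl s fun _ => (S.pol κ).T Cs') j := by
  classical
  have hcf : ∀ (Cs : Finset (J → ℤ)) e i, ∀ x ∈ kl s (fun _ => (S.pol κ).T Cs) i,
      up (up (up (cf κ Ω e))) x ∈ kl s (fun _ => S.T Cs) (i - 0) := by
    intro Cs e i x hx
    rw [sub_zero, mem_kl]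
    rw [mem_kl] at hx
    intro σ
    rw [up_apply]
    exact ⟨fun h1 => (T_iff S κ hLa hLo hLm _ _ _).1 ((hx σ).1 h1) e,
      fun h1 => by rw [(hx σ).2 h1, map_zero]⟩
  have hmn : ∀ (Cs : Finset (J → ℤ)) e i, ∀ y ∈ kl s (fun _ => S.T Cs) (i - 0),
      up (up (up (mn κ Ω e))) y ∈ kl s (fun _ => (S.pol κ).T Cs) i := by
    intro Cs e i y hy
    rw [sub_zero, mem_kl] at hy
    rw [mem_kl]
    intro σ
    rw [up_apply]
    exact ⟨fun h1 => mn_mem S κ hLa hLo hLm _ _ e _ ((hy σ).1 h1),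
      fun h1 => by rw [(hy σ).2 h1, map_zero]⟩
  refine (hX (Ch κ' (Ch ι (Fm n Ω)))).ds (κ →₀ ℕ) _ (fun e => up (up (up (cf κ Ω e))))
    (fun e => up (up (up (mn κ Ω e)))) (fun _ => kc 0 t s) _
    (fun _ => kl s fun _ => S.T Cs) (fun _ => kl s fun _ => S.T Cs') _ _ (fun _ => 0) j
    (fun x => ?_) (fun e x => ?_) (fun e y => ?_) (hcf Cs) (hcf Cs') (hmn Cs) (hmn Cs')
    fun _ => by rwa [sub_zero]
  · refine ⟨univ.biUnion fun p : Finset κ' × Finset ι × Finset (Fin n) =>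
      (x p.1 p.2.1 p.2.2).support, ?_⟩
    funext σ τ ρ
    simp only [Finset.sum_apply, up_apply, cf_apply, mn_apply]
    conv_lhs => rw [(x σ τ ρ).as_sum]
    refine sum_subset (fun e he => mem_biUnion.2 ⟨(σ, τ, ρ), mem_univ _, he⟩) fun e _ he => ?_
    rw [notMem_support_iff.1 he, map_zero]
  · refine (hC κ' _).up_kos _ _ _ _ _ _ s (fun γ => ?_) (fun l _ γ => ?_) x
    · exact (hC ι _).up_kos _ (up (cf κ Ω e)) 0 0 (fun _ => 1) (fun _ => 1) univ
        (fun _ => map_zero _) (fun _ _ _ => rfl) γ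
    · funext τ ρ
      simp only [up_apply, mu_apply, Pi.smul_apply, smul_eq_mul, cf_apply, coeff_C_mul]
  · refine ((hC κ' _).up_kos _ _ _ _ _ _ s (fun γ => ?_) (fun l _ γ => ?_) y).symm
    · exact (hC ι _).up_kos _ (up (mn κ Ω e)) 0 0 (fun _ => 1) (fun _ => 1) univ
        (fun _ => map_zero _) (fun _ _ _ => rfl) γ
    · funext τ ρ
      simp only [up_apply, mu_apply, Pi.smul_apply, smul_eq_mul, mn_apply, C_mul_monomial]

end PtX

theorem rowPt : OfPt := by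
  intro hC hX _ hLa _ hLo hLm k Ω ι J n _ _ _ _ S κ
  exact
    { v := PtX.v_eq S κ
      e := PtX.e_eq S κ
      vv := PtX.vv_eq S κ
      mon := PtX.mon_coe S κ
      mon_inv := PtX.mon_inv S κ
      AA := PtX.AA_iff S κ
      NN := PtX.NN_iff S κ hLo
      mem := PtX.T_iff S κ hLa hLo hLm
      keeps := PtX.keeps S κ hLa hLo hLm
      van := fun κ' _ _ t s Cs Cs' j h => PtX.van S κ hC hX hLa hLo hLm κ' t s Cs Cs' j h }

end Pool.Agent.MP_ee8c61_ag.H59
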