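import Pool.Agent.MP_ee8c61_ag.H59.SpecC

/-!
The ambient group has countable dimension.
-/

namespace Pool.Agent.MP_ee8c61_ag.H59

open Cardinal

namespace RankX

theorem pi_le {κ V : Type} [Fintype κ] [AddCommGroup V] [Module ℂ V]
    (h : Module.rank ℂ V ≤ ℵ₀) : Module.rank ℂ (κ → V) ≤ ℵ₀ := by
  rw [rank_pi, sum_const', mk_fintype]
  exact (mul_le_mul' natCast_lt_aleph0.le h).trans (by simp)

theorem ft (A : Type) [CommRing A] [Algebra ℂ A] [h : Algebra.FiniteType ℂ A] :
    Module.rank ℂ A ≤ ℵ₀ := by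
  obtain ⟨r, φ, hφ⟩ := Algebra.FiniteType.iff_quotient_mvPolynomial''.1 h
  refine (φ.toLinearMap.rank_le_of_surjective hφ).trans ?_
  rw [MvPolynomial.rank_eq_lift, lift_id]
  exact mk_le_aleph0

end RankX

theorem rowRank : SRank := by
  intro Ω ι J n m _ _ _ _ S hG
  classical
  have : Algebra.FiniteType ℂ Ω := by
    choose s hs using hG.fg
    refine ⟨⟨Finset.univ.biUnion s ∪ Finset.univ.image fun p : ι × J =>
      (((S.η p.1 p.2)⁻¹ : Ωˣ) : Ω), top_le_iff.1 (hG.gen.ge.trans (Algebra.adjoin_le ?_))⟩⟩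
    rintro g (⟨a, ha⟩ | ⟨a, j, rfl⟩)
    · rw [← hs a] at ha
      refine Algebra.adjoin_mono (fun y hy => ?_) ha
      simp only [Finset.coe_union, Set.mem_union, Finset.mem_coe, Finset.mem_biUnion]
      exact Or.inl ⟨a, Finset.mem_univ _, hy⟩
    · refine Algebra.subset_adjoin ?_
      simp only [Finset.coe_union, Set.mem_union, Finset.mem_coe, Finset.mem_image]
      exact Or.inr ⟨(a, j), Finset.mem_univ _, rfl⟩
  have : Algebra.FiniteType ℂ (PX m Ω) := .trans this inferInstance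
  exact RankX.pi_le (RankX.pi_le (RankX.ft _))

end Pool.Agent.MP_ee8c61_ag.H59
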