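import Pool.Agent.MP_ee8c61_ag.H59.SpecC

/-!
The lattices of logarithmic forms are compatible with reduction modulo a prime.
-/

namespace Pool.Agent.MP_ee8c61_ag.H59

open Finset Sys

namespace RedLX

variable {O F ι J : Type} {n ℓ : ℕ} [Fact ℓ.Prime] [CommRing O] [Algebra ℤ_[ℓ] O] [CommRing F]
  [Algebra (ZMod ℓ) F] [Fintype J] {SO : Sys ℤ_[ℓ] O ι J n} {SF : Sys (ZMod ℓ) F ι J n}
  {rd : O →+* F}

theorem onto (h : RedOK ℓ SO SF rd) (hL : Lo SO) (σ : Finset ι) :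
    ∀ g ∈ SF.AA σ, ∃ g' ∈ SO.AA σ, rd g' = g := by
  let B : Subalgebra (ZMod ℓ) F :=
    { ((SO.AA σ).toSubsemiring.map rd) with
      algebraMap_mem' := fun c => ⟨(c.val : O), natCast_mem (SO.AA σ) _, by
        rw [map_natCast, ← map_natCast (algebraMap (ZMod ℓ) F), ZMod.natCast_zmod_val]⟩ }
  have : SF.AA σ ≤ B := iSup₂_le fun b hb g hg => by
    obtain ⟨g', h1, h2⟩ := h.onto b g hg
    exact ⟨g', hL.le σ b hb h1, h2⟩
  exact fun g hg => this hg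

theorem sat (h : RedOK ℓ SO SF rd) (hL : Lo SO) {σ : Finset ι} {a : ι} (ha : a ∈ σ) (g : O)
    (hg : ℓ * g ∈ SO.AA σ) : g ∈ SO.AA σ := by
  obtain ⟨u, -, h2, h3⟩ := hL.loc σ a ha _ hg
  rw [mul_left_comm] at h3
  have := mul_mem h2 (hL.le σ a ha (h.sat a _ h3))
  rwa [Units.inv_mul_cancel_left] at this

theorem mem_fl {Ω : Type} [CommRing Ω] (N : AddSubgroup Ω) (p : ℤ) (y : Fm n Ω) :
    y ∈ fl n N p ↔ ∀ τ, y τ ∈ N ∧ (p - τ.card ≠ 0 → y τ = 0) := by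
  simp only [fl, mem_lat, mem_deg0]

end RedLX

theorem rowRedL : OfRedL := by
  intro _ hFr hLo hLm hHm O F ι J n ℓ _ _ _ _ _ _ SO SF rd h c σ p
  have hO := hLm _ _ _ _ _ SO
  have hF := hLm _ _ _ _ _ SF
  have lO := hLo _ _ _ _ _ SO
  have lF := hLo _ _ _ _ _ SF
  have fO := hFr _ _ _ _ _ SO
  have fF := hFr _ _ _ _ _ SF
  have hm := hHm _ _ _ _ _ _ _ SO SF rd h.hom
  rcases σ.eq_empty_or_nonempty with rfl | ⟨a, ha⟩
  · rw [hO.emp, hF.emp]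
    refine ⟨fun w' hw => ⟨0, zero_mem _, ?_⟩, fun w hw _ => ⟨0, zero_mem _, ?_⟩⟩
    · rw [map_zero, (mem_lat_bot _ _).1 hw]
    · rw [smul_zero, (mem_lat_bot _ _).1 hw]
  have hcf : ∀ y, SO.crd a (SO.frm a y) = y := DFunLike.congr_fun (fO.crd_frm a)
  refine ⟨fun w' hw => ?_, fun w hw h0 => ?_⟩
  · rw [hF.mem _ _ a ha, RedLX.mem_fl] at hw
    have key : ∀ τ : Finset (Fin n), ∃ g : O, (g ∈ SO.NN a σ {c} ∧ (p - τ.card ≠ 0 → g = 0)) ∧
        rd g = SF.crd a w' τ := by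
      intro τ
      by_cases hp : p - τ.card = 0
      · obtain ⟨g, h1, h2⟩ := RedLX.onto h lO σ _ ((lF.mem_one _ _ _ _).1 (hw τ).1)
        refine ⟨g * SO.mon a c, ⟨(lO.mem_one _ _ _ _).2 ?_, fun h' => absurd hp h'⟩, ?_⟩
        · rwa [Units.mul_inv_cancel_right]
        · rw [map_mul, h2, hm.mon, Units.inv_mul_cancel_right]
      · exact ⟨0, ⟨zero_mem _, fun _ => rfl⟩, by rw [map_zero, (hw τ).2 hp]⟩
    choose g h1 h2 using key
    refine ⟨SO.frm a g, ?_, ?_⟩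
    · rw [hO.mem _ _ a ha, hcf, RedLX.mem_fl]
      exact h1
    · rw [hm.frm, show up (rd : O →+ F) g = SF.crd a w' from funext h2]
      exact DFunLike.congr_fun (fF.frm_crd a) w'
  · rw [hO.mem _ _ a ha, RedLX.mem_fl] at hw
    have hy : up (rd : O →+ F) (SO.crd a w) = 0 := by rw [hm.crd, h0, map_zero]
    choose g hg using fun τ => h.ker (SO.crd a w τ) (congrFun hy τ)
    refine ⟨SO.frm a g, ?_, ?_⟩
    · rw [hO.mem _ _ a ha, hcf, RedLX.mem_fl]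
      refine fun τ => ⟨(lO.mem_one _ _ _ _).2 (RedLX.sat h lO ha _ ?_), fun hp => h.tf _ ?_⟩
      · rw [← mul_assoc, ← hg]
        exact (lO.mem_one _ _ _ _).1 (hw τ).1
      · rw [← hg, (hw τ).2 hp]
    · rw [← map_nsmul, show ℓ • g = SO.crd a w from funext fun τ => by
        rw [hg, Pi.smul_apply, nsmul_eq_mul]]
      exact (DFunLike.congr_fun (fO.frm_crd a) w).symm

end Pool.Agent.MP_ee8c61_ag.H59
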