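import Pool.Agent.MP_ee8c61_ag.H59.SpecA

/-! Koszul complexes of regular sequences. -/

namespace Pool.Agent.MP_ee8c61_ag.H59

open Finset

namespace ReqX

variable {Ω κ : Type} [CommRing Ω] [LinearOrder κ] {N : AddSubgroup Ω} {γ : κ → Ω}

theorem mem_L (s : Finset κ) (j : ℤ) (x : Ch κ Ω) : x ∈ kl s (fun _ => deg0 N) j ↔
    ∀ σ, x σ ∈ N ∧ (¬(σ ⊆ s ∧ (σ.card : ℤ) = j) → x σ = 0) := by
  rw [mem_kl]
  refine forall_congr' fun σ => ?_
  rw [mem_deg0, sub_ne_zero]
  by_cases h : σ ⊆ s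
  · simp only [h, true_and, not_true_eq_false, forall_const, false_imp_iff, and_true, ne_eq, eq_comm]
  · simp only [h, false_and, not_false_eq_true, forall_const, false_imp_iff, true_and]
    exact ⟨fun h => ⟨h ▸ zero_mem _, h⟩, fun h => h.2⟩

theorem kok {s : Finset κ} (h : ∀ i ∈ s, ∀ g ∈ N, γ i * g ∈ N) :
    KOK 0 (fun i => mu Ω (γ i)) s (fun _ => deg0 N) fun _ => ⊥ where
  pair _ := ⟨mul_zero _, fun _ => bot_le, fun _ _ _ => zero_mem _, fun _ _ _ => zero_mem _⟩
  cd _ _ := Commute.zero_right _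
  ct _ _ _ _ := mu_comm _ _
  kp i hi _ _ j x hx := by
    rw [mem_deg0] at hx ⊢
    exact ⟨h i hi x hx.1, fun hj => by simp [hx.2 hj]⟩
  kp' _ _ _ _ j x hx := by
    rw [mem_lat_bot] at hx ⊢
    simp [hx]

/-- The top degree. -/
theorem top_exact (hC : Car κ Ω) {s : Finset κ} (x : Ch κ Ω)
    (hx : x ∈ kl s (fun _ => deg0 N) s.card) (c : κ → Ω) (hc : ∀ l, c l ∈ N)
    (e : x s = ∑ l ∈ s, γ l * c l) :
    ∃ y ∈ kl s (fun _ => deg0 N) (s.card - 1), x = kos 0 (fun i => mu Ω (γ i)) s y := by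
  refine ⟨∑ l ∈ s, io l (Pi.single s (c l)), sum_mem fun l hl => (mem_L _ _ _).2 fun σ => ?_, ?_⟩
  · rw [io_apply]
    split_ifs with h1
    · exact ⟨zero_mem _, fun _ => rfl⟩
    · by_cases h2 : insert l σ = s
      · subst h2
        rw [Pi.single_eq_same]
        refine ⟨zsmul_mem (hc l) _, fun h => absurd ⟨subset_insert _ _, ?_⟩ h⟩
        rw [card_insert_of_notMem h1]
        push_cast
        ring
      · simp [Pi.single_eq_of_ne h2]
  · have h0 : ∀ g : Ω, kos 0 (fun i => mu Ω (γ i)) s (Pi.single s g) = 0 := fun g => by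
      funext σ
      rw [hC.kos_apply, op_zero, smul_zero, zero_add]
      refine sum_eq_zero fun i hi => ?_
      rw [Pi.single_eq_of_ne, map_zero, smul_zero]
      intro h
      exact notMem_erase i σ (h ▸ (mem_inter.1 hi).1)
    have h1 : ∀ l ∈ s, kos 0 (fun i => mu Ω (γ i)) s (io l (Pi.single s (c l))) =
        Pi.single s (γ l * c l) := fun l hl => by
      have h2 := DFunLike.congr_fun (hC.kos_io 0 (fun i => mu Ω (γ i)) s l) (Pi.single s (c l))
      rw [if_pos hl, op_add, op_mul, op_mul, h0, map_zero, add_zero] at h2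
      rw [h2]
      funext σ
      by_cases h : σ = s <;> simp [h]
    rw [map_sum, sum_congr rfl h1]
    funext σ
    by_cases h : σ = s
    · simp [h, e]
    · rw [((mem_L _ _ _).1 hx σ).2 fun h3 =>
        h (eq_of_subset_of_card_le h3.1 (by exact_mod_cast h3.2.ge))]
      simp [h]

end ReqX

open ReqX in
theorem rowReq : OfReq := by
  intro hCar hCone Ω κ _ _ N γ S h1 h2
  have hC := hCar κ Ω
  suffices h : ∀ s ⊆ S, ∀ j < (s.card : ℤ), Van (kos 0 (fun i => mu Ω (γ i)) s)
      (kl s fun _ => deg0 N) (kl s fun _ => ⊥) j by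
    simpa only [kl_bot] using h S Subset.rfl
  intro s
  induction s using Finset.induction_on with
  | empty =>
    intro _ j hj
    refine ((hCone κ Ω).emp _ _ _ _ _).2 fun x hx _ => ⟨0, zero_mem _, ?_⟩
    rw [((mem_deg0 _ _ _).1 hx).2 (by simpa using hj.ne)]
    simp
  | insert i s hi ih =>
    intro hs j hj
    have hs' : s ⊆ S := (subset_insert i s).trans hs
    rw [card_insert_of_notMem hi] at hj
    push_cast at hj
    refine (hCone κ Ω).van _ _ s i _ _ j hi (kok fun l hl => h1 l (hs hl)) ?_ fun x hx hd => ?_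
    · rintro x hx hd ⟨y, hy, e⟩
      rcases lt_or_eq_of_le (Int.lt_add_one_iff.1 hj) with h | rfl
      · exact ih hs' j h x hx hd
      · rw [kl_bot, mem_lat_bot, sub_eq_zero] at e
        have e1 := congrFun e s
        rw [hC.kos_apply, op_zero, smul_zero, zero_add, inter_self] at e1
        obtain ⟨c, hc, e2⟩ := h2 s hs' i (hs (mem_insert_self i s)) hi (x s)
          ((mem_L _ _ _).1 hx s).1 ⟨fun l => sgn l s • y (s.erase l),
            fun l => zsmul_mem ((mem_L _ _ _).1 hy _).1 _,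
            e1.trans (sum_congr rfl fun l _ => (mul_smul_comm _ _ _).symm)⟩
        obtain ⟨y', hy', e3⟩ := top_exact hC x hx c hc e2
        exact ⟨y', hy', by rw [← e3, sub_self]; exact zero_mem _⟩
    · obtain ⟨y, hy, e⟩ := ih hs' (j - 1) (by omega) x hx hd
      exact ⟨0, zero_mem _, by rw [map_zero]; exact zero_mem _, y, hy, by rwa [map_zero, sub_zero]⟩

end Pool.Agent.MP_ee8c61_ag.H59
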