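import Pool.Agent.MP_ee8c61_ag.H59.SpecA

/-! Stabilisation of a chain of finite dimensional cohomology groups. -/

namespace Pool.Agent.MP_ee8c61_ag.H59

open Polynomial

namespace StabX

variable {k G : Type} [Field k] [AddCommGroup G] [Module k G]

theorem pow_mem {t : Module.End k G} {Z : ℤ → Submodule k G} (ht : ∀ d, ∀ x ∈ Z d, t x ∈ Z (d + 1))
    (i : ℕ) (d : ℤ) (x : G) (hx : x ∈ Z d) : (t ^ i) x ∈ Z (d + i) := by
  induction i with
  | zero => simpa using hx
  | succ i ih =>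
    rw [pow_succ', Nat.cast_succ, ← add_assoc]
    exact ht _ _ ih

theorem core (t : Module.End k G) (Z B : ℤ → Submodule k G) (d0 : ℤ) (mZ : Monotone Z)
    (mB : Monotone B) (tZ : ∀ d, ∀ x ∈ Z d, t x ∈ Z (d + 1)) (tB : ∀ d, ∀ x ∈ B d, t x ∈ B (d + 1))
    (inj : ∀ d ≤ d0, ∀ x ∈ Z d, x ∈ B (d + 1) → x ∈ B d) (s : Finset G)
    (fin : Z d0 ≤ Submodule.span k (s : Set G) ⊔ B d0) :
    ∃ g : k[X], g.Monic ∧ ∃ d1, ∀ d ≤ d1, ∀ x ∈ Z d, aeval t g x ∈ B (d + g.natDegree) := by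
  have inj' : ∀ d ≤ d0, ∀ x ∈ Z d, x ∈ B d0 → x ∈ B d := by
    intro d hd
    induction d, hd using Int.leInductionDown with
    | base => exact fun _ _ h => h
    | pred d hd ih =>
      intro x hx h
      refine inj _ (by omega) x hx ?_
      rw [sub_add_cancel]
      exact ih x (mZ (by omega) hx) h
  let π := (B d0).mkQ
  have ker : ∀ x, π x = 0 ↔ x ∈ B d0 := fun x => Submodule.Quotient.mk_eq_zero _
  have f0 : FiniteDimensional k ((Z d0).map π) := by
    have : FiniteDimensional k ((Submodule.span k (s : Set G)).map π) := inferInstance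
    refine Submodule.finiteDimensional_of_le (S₂ := (Submodule.span k (s : Set G)).map π) ?_
    refine (Submodule.map_mono fin).trans ?_
    rw [Submodule.map_sup, Submodule.mkQ_map_self, sup_bot_eq]
  obtain ⟨d1, h1, hm⟩ := (InvImage.wf (fun d => Module.finrank k ((Z d).map π))
    wellFounded_lt).has_min {d | d ≤ d0} ⟨d0, le_refl d0⟩
  have h1' : d1 ≤ d0 := h1
  have f1 : FiniteDimensional k ((Z d1).map π) :=
    Submodule.finiteDimensional_of_le (Submodule.map_mono (mZ h1'))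
  have e : (Z (d1 - 1)).map π = (Z d1).map π := Submodule.eq_of_le_of_finrank_le
    (Submodule.map_mono (mZ (by omega))) (not_lt.1 (hm (d1 - 1) (show d1 - 1 ≤ d0 by omega)))
  have tZ' : ∀ x ∈ Z (d1 - 1), t x ∈ Z d1 := fun x hx => by simpa using tZ _ x hx
  let p : Z (d1 - 1) →ₗ[k] (Z d1).map π := (π.domRestrict _).codRestrict _ fun x =>
    ⟨x, mZ (by omega) x.2, rfl⟩
  let q : Z (d1 - 1) →ₗ[k] (Z d1).map π := ((π ∘ₗ t).domRestrict _).codRestrict _ fun x =>
    ⟨t x, tZ' _ x.2, rfl⟩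
  obtain ⟨σ, hσ⟩ := p.exists_rightInverse_of_surjective (LinearMap.range_eq_top.2 fun w => by
    obtain ⟨x, hx, h⟩ := e.ge w.2
    exact ⟨⟨x, hx⟩, Subtype.ext h⟩)
  have one : ∀ x, q x = (q ∘ₗ σ) (p x) := fun x => by
    have a : π (x - σ (p x)) = 0 := by
      rw [map_sub, sub_eq_zero]
      exact (congrArg Subtype.val (LinearMap.congr_fun hσ (p x))).symm
    have b := tB _ _ (inj' (d1 - 1) (by omega) _ (sub_mem x.2 (σ (p x)).2) ((ker _).1 a))
    have c := (ker _).2 (mB (show d1 - 1 + 1 ≤ d0 by omega) b)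
    rw [map_sub, map_sub, sub_eq_zero] at c
    exact Subtype.ext c
  have all : ∀ (i : ℕ) (x : G) (w : (Z d1).map π), x ∈ Z (d1 - i) → π x = w →
      π ((t ^ i) x) = ((q ∘ₗ σ) ^ i) w := by
    intro i
    induction i with
    | zero => exact fun x w _ h => h
    | succ i ih =>
      intro x w hx h
      have a : x ∈ Z (d1 - 1) := mZ (by omega) hx
      obtain rfl : p ⟨x, a⟩ = w := Subtype.ext h
      rw [pow_succ, pow_succ, Module.End.mul_apply, Module.End.mul_apply, ← one]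
      exact ih _ _ (mZ (by omega) (tZ _ _ hx)) rfl
  obtain ⟨g, g1, g2⟩ := LinearMap.exists_monic_and_aeval_eq_zero k (q ∘ₗ σ)
  refine ⟨g, g1, d1 - g.natDegree, fun d hd x hx => inj' _ (by omega) _ ?_ ((ker _).1 ?_)⟩
  · rw [aeval_eq_sum_range, LinearMap.sum_apply]
    refine sum_mem fun i hi => Submodule.smul_mem _ _ (mZ ?_ (pow_mem tZ i d x hx))
    have := Finset.mem_range.1 hi
    omega
  · have a := congrArg Subtype.val (LinearMap.congr_fun g2 ⟨π x, x, mZ (by omega) hx, rfl⟩)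
    rw [aeval_eq_sum_range, LinearMap.sum_apply, Submodule.coe_sum] at a
    rw [aeval_eq_sum_range, LinearMap.sum_apply, map_sum]
    refine (Finset.sum_congr rfl fun i hi => ?_).trans a
    have := Finset.mem_range.1 hi
    rw [LinearMap.smul_apply, LinearMap.smul_apply, map_smul, Submodule.coe_smul,
      all i x ⟨π x, x, mZ (by omega) hx, rfl⟩ (mZ (by omega) hx) rfl]

end StabX

theorem rowStab : SStab := by
  classical
  intro k Ω G _ _ _ _ _ _ _ D L y0 y1 j _ hD hc fg k0 k1 ⟨d0, i0⟩ ig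
  let Dk : G →ₗ[k] G := ⟨⟨D, map_add D⟩, fun c x => by
    change D _ = c • D x
    rw [← algebraMap_smul Ω c x, hD, algebraMap_smul]⟩
  let u : ℤ → Ω := fun d => ((y0 ^ d : Ωˣ) : Ω)
  have ua : ∀ (a b : ℤ) (x : G), u a • u b • x = u (a + b) • x := fun a b x => by
    simp only [u, zpow_add, Units.val_mul, mul_smul]
  have u0 : ∀ x : G, u 0 • x = x := fun x => by simp [u]
  have u1 : ∀ (a : ℤ) (x : G), (y0 : Ω) • u a • x = u (a + 1) • x := fun a x => by
    rw [add_comm, ← ua]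
    simp [u]
  let P : ℤ → ℤ → Submodule k G := fun d i =>
    { carrier := {x | u d • x ∈ L d i}
      add_mem' := fun ha hb => by
        rw [Set.mem_ofPred_eq, smul_add]
        exact add_mem ha hb
      zero_mem' := by
        rw [Set.mem_ofPred_eq, smul_zero]
        exact zero_mem _
      smul_mem' := fun c x hx => by
        rw [Set.mem_ofPred_eq, smul_comm]
        exact hc d i c _ hx }
  have mP : ∀ i, Monotone fun d => P d i := fun i => monotone_int_of_le_succ fun d x hx => by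
    change u (d + 1) • x ∈ L (d + 1) i
    rw [← u1]
    exact k0 d i _ hx
  let t : Module.End k G := Algebra.lsmul k k G ((y1 / y0 : Ωˣ) : Ω)
  have tP : ∀ d i, ∀ x ∈ P d i, t x ∈ P (d + 1) i := fun d i x hx => by
    change u (d + 1) • ((y1 / y0 : Ωˣ) : Ω) • x ∈ L (d + 1) i
    rw [← u1, smul_comm (u d), smul_smul, ← Units.val_mul, mul_div_cancel]
    exact k1 d i _ hx
  have tD : ∀ x, Dk (t x) = t (Dk x) := fun x => hD _ x
  have z0 : ∀ (a : ℤ) {x : G}, D x = 0 → D (u a • x) ∈ (⊥ : Lat G) (j + 1) := fun a x h => by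
    rw [mem_lat_bot, hD, h, smul_zero]
  have bk : ∀ (d : ℤ) (x y : G), y ∈ L d (j - 1) → u d • x - D y ∈ (⊥ : Lat G) j →
      x ∈ (P d (j - 1)).map Dk := fun d x y hy e => by
    refine ⟨u (-d) • y, ?_, ?_⟩
    · change u d • _ ∈ L d (j - 1)
      rwa [ua, add_neg_cancel, u0]
    · change D _ = x
      rw [hD, ← sub_eq_zero.1 ((mem_lat_bot _ _).1 e), ua, neg_add_cancel, u0]
  obtain ⟨s, -, hs⟩ := fg d0
  obtain ⟨g, g1, d1, g2⟩ := StabX.core t (fun d => P d j ⊓ LinearMap.ker Dk)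
    (fun d => (P d (j - 1)).map Dk) d0 (fun _ _ h => inf_le_inf_right _ (mP j h))
    (fun _ _ h => Submodule.map_mono (mP _ h))
    (fun d x hx => ⟨tP d j x hx.1, (tD x).trans (by rw [show Dk x = 0 from hx.2, map_zero])⟩)
    (fun d _ ⟨y, hy, e⟩ => ⟨t y, tP d _ y hy, by rw [tD, e]⟩)
    (fun d hd x hx ⟨y, hy, e⟩ => by
      obtain ⟨y', a, b⟩ := i0 d hd _ hx.1 (z0 d hx.2) ⟨_, hy, by
        rw [mem_lat_bot, mu_apply, u1, hD, show D y = x from e, sub_self]⟩
      exact bk d x y' a b)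
    (s.image (u (-d0) • ·)) (fun x hx => by
      obtain ⟨y, a, w, b, c⟩ := hs _ hx.1 (z0 d0 hx.2)
      refine Submodule.mem_sup.2 ⟨u (-d0) • w, ?_, x - u (-d0) • w, bk d0 _ y a ?_,
        add_sub_cancel _ _⟩
      · rw [Finset.coe_image]
        exact Submodule.apply_mem_span_image_of_mem_span (Algebra.lsmul k k G (u (-d0))) b
      · rwa [smul_sub, ua, add_neg_cancel, u0])
  obtain ⟨d2, h2⟩ := ig g g1
  refine ⟨min d1 d2, fun d hd x hx hx' => h2 d (hd.trans (min_le_right _ _)) x hx hx' ?_⟩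
  obtain ⟨y, hy, e⟩ := g2 d (hd.trans (min_le_left _ _)) (u (-d) • x) ⟨by
    change u d • _ ∈ L d j
    rwa [ua, add_neg_cancel, u0], (mem_lat_bot _ _).1 (z0 _ ((mem_lat_bot _ _).1 hx'))⟩
  refine ⟨_, hy, ?_⟩
  rw [aeval_algHom_apply] at e
  rw [mem_lat_bot, mu_apply, hD, show D y = _ from e, Algebra.lsmul_coe, smul_comm (u _), ua,
    add_neg_cancel_comm, mul_comm, mul_smul, sub_eq_zero]
  simp [u]

end Pool.Agent.MP_ee8c61_ag.H59
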