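import Pool.Agent.MP_ee8c61_ag.H59.SpecC

/-!
A nonzero polynomial that vanishes on the support.
-/

namespace Pool.Agent.MP_ee8c61_ag.H59

open MvPolynomial

namespace SuppX

variable {k Ω κ : Type} [CommRing k] [CommRing Ω] [Algebra k Ω]

theorem X_mem (A : Subalgebra k Ω) (o : κ) : (X o : MvPolynomial κ Ω) ∈ spol κ A := fun e => by
  classical
  rw [coeff_X]
  split_ifs
  · exact one_mem _
  · exact zero_mem _

theorem fg [Finite κ] {A : Subalgebra k Ω} (h : A.FG) : (spol κ A).FG := by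
  have := (Subalgebra.fg_iff_finiteType A).1 h
  have e : spol κ A = (⊤ : Subalgebra k (MvPolynomial κ A)).map (mapAlgHom A.val) := by
    refine le_antisymm (fun P hP => ?_) ?_
    · rw [P.as_sum]
      exact sum_mem fun e _ => ⟨monomial e ⟨_, hP e⟩, trivial, map_monomial _ _ _⟩
    · rintro _ ⟨Q, -, rfl⟩ e
      exact (coeff_map (A.val : A →+* Ω) Q e).symm ▸ (coeff e Q).2
  rw [e]
  exact Algebra.FiniteType.out.map _

/-- A polynomial that lies in every prime containing the `t i`, up to the choice of the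
polynomial, has a multiple in the ideal. -/
theorem loc (hM : SMp) {R T P : Type} [CommRing R] [Algebra k R] [IsNoetherianRing k] [Fintype T]
    [CommRing P] [IsDomain P] [Algebra k P] {A : Subalgebra k R} (hA : A.FG) (ψ : P →ₐ[k] R)
    (hψ : ∀ Φ, ψ Φ ∈ A) (t : T → R) (ht : ∀ i, t i ∈ A)
    (h : ∀ q : Ideal A, q.IsPrime → (∀ i, (⟨t i, ht i⟩ : A) ∈ q) →
      ∃ Φ, Φ ≠ 0 ∧ (⟨ψ Φ, hψ Φ⟩ : A) ∈ q) :
    ∃ Φ, Φ ≠ 0 ∧ ∀ Φ', Φ ∣ Φ' → ∃ c : T → R, (∀ i, c i ∈ A) ∧ ψ Φ' = ∑ i, c i * t i := by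
  have := (Subalgebra.fg_iff_finiteType A).1 hA
  have := Algebra.FiniteType.isNoetherianRing k A
  obtain ⟨_, ⟨Φ, h1, rfl⟩, h2⟩ := hM A (Ideal.span (Set.range fun i => (⟨t i, ht i⟩ : A)))
    ((nonZeroDivisors P).map (ψ.codRestrict A hψ)) fun q hq hI => by
      obtain ⟨Φ, a, b⟩ := h q hq fun i => hI (Ideal.subset_span ⟨i, rfl⟩)
      exact ⟨_, ⟨Φ, mem_nonZeroDivisors_of_ne_zero a, rfl⟩, b⟩
  refine ⟨Φ, nonZeroDivisors.ne_zero h1, fun Φ' h3 => ?_⟩
  obtain ⟨c, hc⟩ := Ideal.mem_span_range_iff_exists_fun.1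
    (Ideal.mem_of_dvd _ (map_dvd (ψ.codRestrict A hψ) h3) h2)
  exact ⟨fun i => c i, fun i => (c i).2, by simpa using (congrArg A.val hc).symm⟩

end SuppX

open SuppX in
theorem rowSupp : OfSupp := by
  intro hM hF _ hT h1 Ω ι J n m _ _ _ _ _ _ S x f a hx hf hfg het u
  have hψ : ∀ c Φ, ((aeval (yy x)).comp (aeval u) : MvPolynomial (Fin (m + 1)) ℂ →ₐ[ℂ] PX m Ω) Φ ∈
      (S.px m).A c := by
    intro c Φ
    have : Algebra.adjoin ℂ (Set.range (yy x)) ≤ (S.px m).A c := by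
      refine Algebra.adjoin_le ?_
      rintro _ ⟨l, rfl⟩
      refine Fin.addCases (fun l => ?_) (fun l => ?_) l
      · simp only [yy, Fin.addCases_left]; exact C_mem_spol (hx c l)
      · simp only [yy, Fin.addCases_right]; exact X_mem _ _
    exact this (Algebra.adjoin_range_eq_range_aeval ℂ (yy x) ▸ ⟨_, rfl⟩)
  have ht : ∀ c (i : Option (Fin n)), i.elim (((S.px m).mon c fun j => a j : (PX m Ω)ˣ) : PX m Ω)
      (fun i => (S.px m).v c i ⬝ᵥ S.th x f) ∈ (S.px m).A c := by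
    rintro c (_ | i)
    · exact (hF _ _ _ _ _ (S.px m)).mon_mem c _ fun j => Int.natCast_nonneg _
    · exact (hT _ _ _ _ _ S x f a hx hf).mem c i
  choose Φ h2 h3 using fun c => loc hM (A := (S.px m).A c) (fg (hfg c)) _ (hψ c) _ (ht c)
    fun q hq hI => by
      obtain ⟨Φ, a1, _, a2⟩ := h1 _ _ _ _ _ S x f a hx hf c (hfg c) (het c) q hq
        (fun i => ⟨_, hI (some i)⟩) ⟨_, hI none⟩ u
      exact ⟨Φ, a1, a2⟩
  refine ⟨∏ c, Φ c, Finset.prod_ne_zero_iff.2 fun c _ => h2 c, fun c => ?_⟩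
  obtain ⟨b, b1, b2⟩ := h3 c _ (Finset.dvd_prod_of_mem Φ (Finset.mem_univ c))
  refine ⟨1, fun i => b (some i), b none, fun i => b1 _, b1 _, ?_⟩
  rw [pow_one]
  exact b2.trans ((Fintype.sum_option _).trans (add_comm _ _))

end Pool.Agent.MP_ee8c61_ag.H59
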