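import Pool.Agent.MP_ee8c61_ag.H59.SpecC

/-!
The support estimate at one prime ideal of a chart.
-/

namespace Pool.Agent.MP_ee8c61_ag.H59

open Finset Sys MvPolynomial

namespace Supp1X

variable {Ω κ ι J : Type} {n : ℕ} [CommRing Ω] [Algebra ℂ Ω]

theorem X_mem (A : Subalgebra ℂ Ω) (o : κ) : (X o : MvPolynomial κ Ω) ∈ spol κ A := fun e => by
  classical
  rw [coeff_X]
  split_ifs
  · exact one_mem _
  · exact zero_mem _

/-- Constants as elements of the polynomial chart. -/
noncomputable def cB (κ : Type) (S : Sys ℂ Ω ι J n) (c : ι) : S.A c →ₐ[ℂ] (S.pol κ).A c :=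
  AlgHom.codRestrict ((IsScalarTower.toAlgHom ℂ Ω (MvPolynomial κ Ω)).comp (S.A c).val)
    ((S.pol κ).A c) fun g => C_mem_spol g.2

theorem cB_val (S : Sys ℂ Ω ι J n) (c : ι) (g : S.A c) :
    (cB κ S c g : MvPolynomial κ Ω) = C (g : Ω) := rfl

/-- Variables as elements of the polynomial chart. -/
noncomputable def xB (S : Sys ℂ Ω ι J n) (c : ι) (o : κ) : (S.pol κ).A c := ⟨X o, X_mem (S.A c) o⟩

theorem xB_val (S : Sys ℂ Ω ι J n) (c : ι) (o : κ) : (xB S c o : MvPolynomial κ Ω) = X o := rfl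

theorem exists_pi {B : Type} [CommRing B] [Algebra ℂ B] (q : Ideal B) (hq : q.IsPrime) :
    ∃ (K : Type) (_ : Field K) (_ : Algebra ℂ K) (π : B →ₐ[ℂ] K), ∀ b, π b = 0 ↔ b ∈ q := by
  refine ⟨FractionRing (B ⧸ q), inferInstance, inferInstance,
    (IsScalarTower.toAlgHom ℂ (B ⧸ q) (FractionRing (B ⧸ q))).comp (Ideal.Quotient.mkₐ ℂ q),
    fun b => ?_⟩
  rw [AlgHom.comp_apply, IsScalarTower.coe_toAlgHom', Ideal.Quotient.mkₐ_eq_mk,
    map_eq_zero_iff _ (IsFractionRing.injective (B ⧸ q) (FractionRing (B ⧸ q))),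
    Ideal.Quotient.eq_zero_iff_mem]

theorem exists_rel {K : Type} [Field K] [Algebra ℂ K] {r s : Type} (y : r → K)
    (u : s → MvPolynomial r ℂ) (h : ¬ AlgebraicIndependent ℂ fun i => aeval y (u i)) :
    ∃ Φ : MvPolynomial s ℂ, Φ ≠ 0 ∧ aeval y (aeval u Φ) = 0 := by
  rw [algebraicIndependent_iff] at h
  push Not at h
  obtain ⟨Φ, h1, h2⟩ := h
  refine ⟨Φ, h2, ?_⟩
  rw [← AlgHom.comp_apply, comp_aeval]
  exact h1

end Supp1X

open Supp1X in
theorem rowSupp1 : OfSupp1 := by
  intro hTd hDu hF hP hT Ω ι J n m _ _ _ _ _ _ S x f a hx hf c hfg het q hq hv hm u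
  classical
  have F := hF ℂ Ω ι J n S
  have T := hT Ω ι J n m S x f a hx hf
  have : Algebra.FiniteType ℂ (S.A c) := (Subalgebra.fg_iff_finiteType _).1 hfg
  obtain ⟨K, _, _, π, hπ⟩ := exists_pi q hq
  have : CharZero K := charZero_of_injective_algebraMap (algebraMap ℂ K).injective
  let φ : S.A c →ₐ[ℂ] K := π.comp (cB (Option (Fin m)) S c)
  let ξ : Option (Fin m) → K := fun o => π (xB S c o)
  let un : Fin n → S.A c := fun i => ⟨S.un c i, F.un_mem c i⟩
  let dx : Fin n → Fin m → S.A c := fun i l => ⟨S.D c i (x l), S.D_mem c i _ (hx c l)⟩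
  let N : Fin n → ℕ := fun i => ∑ j, if S.lab c j = some i then a j else 0
  have h1 : ∀ i, ∃ h : S.A c,
      φ (un i) * ∑ l, ξ (some l) * φ (dx i l) + ξ none * (N i + φ (un i) * φ h) = 0 := by
    intro i
    obtain ⟨h, hh, e⟩ := T.dlog c i
    obtain ⟨hv1, hv2⟩ := hv i
    refine ⟨⟨h, hh⟩, ?_⟩
    have e2 : (⟨_, hv1⟩ : (S.px m).A c) =
        cB _ S c (un i) * ∑ l, xB S c (some l) * cB _ S c (dx i l) +
          xB S c none * ((N i : (S.px m).A c) + cB _ S c (un i) * cB _ S c ⟨h, hh⟩) := by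
      apply Subtype.ext
      change (S.px m).v c i ⬝ᵥ S.th x f = _
      rw [T.val, e]
      simp only [MulMemClass.coe_mul, AddMemClass.coe_add, AddSubmonoidClass.coe_finsetSum,
        SubringClass.coe_natCast, cB_val, xB_val, Finset.mul_sum, Sys.dv, Derivation.smul_apply,
        smul_eq_mul, map_mul, map_add, map_natCast, un, dx, N]
      refine congrArg₂ (· + ·) (sum_congr rfl fun l _ => ?_) rfl
      ring
    have e3 := (hπ _).2 hv2
    rw [e2] at e3
    simp only [map_add, map_mul, map_sum, map_natCast] at e3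
    exact e3
  have h2 : ∃ i, φ (un i) = 0 ∧ N i ≠ 0 := by
    obtain ⟨hm1, hm2⟩ := hm
    have e2 : (⟨_, hm1⟩ : (S.px m).A c) =
        ∏ j, cB _ S c ⟨S.η c j, F.eta_mem c j⟩ ^ a j := by
      apply Subtype.ext
      change (((S.px m).mon c fun j => (a j : ℤ) : (PX m Ω)ˣ) : PX m Ω) = _
      rw [(hP ℂ Ω ι J n S _).mon]
      simp only [Sys.mon, zpow_natCast, Units.coe_prod, Units.val_pow_eq_pow_val, map_prod,
        map_pow, SubmonoidClass.coe_finsetProd, SubmonoidClass.coe_pow, cB_val]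
    have e3 := (hπ _).2 hm2
    rw [e2, map_prod, prod_eq_zero_iff] at e3
    obtain ⟨j, -, hj⟩ := e3
    rw [map_pow, pow_eq_zero_iff'] at hj
    obtain ⟨hj1, hj2⟩ := hj
    rcases hl : S.lab c j with _ | i
    · exfalso
      have : (⟨S.η c j, F.eta_mem c j⟩ : S.A c) = 1 := Subtype.ext (by simp [S.η_none c j hl])
      rw [this, map_one, map_one] at hj1
      exact one_ne_zero hj1
    · refine ⟨i, ?_, ?_⟩
      · have : un i = ⟨S.η c j, F.eta_mem c j⟩ := Subtype.ext (by simp [un, F.un_some c j i hl])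
        rw [this]
        exact hj1
      · intro h0
        have := (sum_eq_zero_iff.1 h0) j (mem_univ _)
        rw [if_pos hl] at this
        exact hj2 this
  have h3 : ξ none = 0 := by
    obtain ⟨i, hi1, hi2⟩ := h2
    obtain ⟨h, e⟩ := h1 i
    rw [hi1, zero_mul, zero_mul, zero_add, add_zero, mul_eq_zero] at e
    exact e.resolve_right (Nat.cast_ne_zero.2 hi2)
  have h4 : ∀ D : S.A c →ₗ[ℂ] K, (∀ g h, D (g * h) = φ g * D h + φ h * D g) →
      (∀ g, φ g = 0 → D g = 0) → ∑ l, ξ (some l) * D ⟨x l, hx c l⟩ = 0 := by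
    intro D hD1 hD2
    have e := hDu ℂ Ω ι J n S c het K φ D hD1
    have e2 : ∑ l, ξ (some l) * D ⟨x l, hx c l⟩ =
        ∑ i, D ⟨S.z c i, S.z_mem c i⟩ * ∑ l, ξ (some l) * φ (dx i l) := by
      simp only [e ⟨x _, hx c _⟩, Finset.mul_sum]
      rw [sum_comm]
      refine sum_congr rfl fun i _ => sum_congr rfl fun l _ => ?_
      ring
    rw [e2]
    refine sum_eq_zero fun i _ => ?_
    by_cases hz : φ ⟨S.z c i, S.z_mem c i⟩ = 0
    · rw [hD2 _ hz, zero_mul]
    · have hu : φ (un i) ≠ 0 := by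
        by_cases hl : ∃ j, S.lab c j = some i
        · obtain ⟨j, hl⟩ := hl
          have : un i = ⟨S.z c i, S.z_mem c i⟩ :=
            Subtype.ext (by simp [un, F.un_some c j i hl, S.η_some c j i hl])
          rwa [this]
        · have : un i = 1 := Subtype.ext (by simp [un, F.un_none c i (not_exists.1 hl)])
          rw [this, map_one]
          exact one_ne_zero
      obtain ⟨h, e1⟩ := h1 i
      rw [h3, zero_mul, add_zero, mul_eq_zero] at e1
      rw [e1.resolve_left hu, mul_zero]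
  let yB : Fin (m + (m + 1)) → (S.px m).A c :=
    Fin.addCases (fun l => cB _ S c ⟨x l, hx c l⟩) fun o => xB S c (finSuccEquiv m o)
  have hyB : ∀ r, (yB r : PX m Ω) = yy x r := fun r => by
    refine Fin.addCases (fun l => ?_) (fun o => ?_) r
    · simp only [yB, yy, Fin.addCases_left]
      rfl
    · simp only [yB, yy, Fin.addCases_right]
      rfl
  have h5 := hTd (S.A c) K m φ (fun l => ⟨x l, hx c l⟩) (fun l => ξ (some l)) h4
    (fun i => aeval (fun r => π (yB r)) (u i)) (fun i => by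
      refine (Algebra.adjoin_le ?_ : Algebra.adjoin ℂ (Set.range fun r => π (yB r)) ≤ _) ?_
      · rintro _ ⟨r, rfl⟩
        refine Fin.addCases (fun l => ?_) (fun o => ?_) r
        · simp only [yB, Fin.addCases_left]
          exact Algebra.subset_adjoin (Or.inl ⟨l, rfl⟩)
        · simp only [yB, Fin.addCases_right]
          rcases finSuccEquiv m o with _ | l
          · change ξ none ∈ _
            rw [h3]
            exact zero_mem _
          · exact Algebra.subset_adjoin (Or.inr ⟨l, rfl⟩)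
      · rw [Algebra.adjoin_range_eq_range_aeval]
        exact ⟨u i, rfl⟩)
  obtain ⟨Φ, hΦ, e⟩ := exists_rel _ u h5
  refine ⟨Φ, hΦ, ?_⟩
  have e1 : ∀ P : MvPolynomial (Fin (m + (m + 1))) ℂ,
      ((aeval yB P : (S.px m).A c) : PX m Ω) = aeval (yy x) P := fun P => by
    have := DFunLike.congr_fun (comp_aeval yB ((S.px m).A c).val) P
    rw [AlgHom.comp_apply] at this
    refine this.trans ?_
    congr 2
    exact funext hyB
  have e2 : π (aeval yB (aeval u Φ)) = 0 := by
    rw [← AlgHom.comp_apply, comp_aeval]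
    exact e
  refine ⟨e1 _ ▸ (aeval yB (aeval u Φ)).2, ?_⟩
  have e3 := (hπ _).1 e2
  have e4 : aeval yB (aeval u Φ) =
      ⟨aeval (yy x) (aeval u Φ), e1 _ ▸ (aeval yB (aeval u Φ)).2⟩ := Subtype.ext (e1 _)
  rwa [e4] at e3

end Pool.Agent.MP_ee8c61_ag.H59
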