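import Pool.Agent.MP_ee8c61_ag.H59.SpecA

/-!
Exchange of the two indices of a double Koszul complex.
-/

namespace Pool.Agent.MP_ee8c61_ag.H59

open Finset

namespace SwapX

variable {κ κ' M : Type} [AddCommGroup M]

/-- The signed transposition. -/
def th (κ κ' M : Type) [AddCommGroup M] : Ch κ (Ch κ' M) →+ Ch κ' (Ch κ M) :=
  AddMonoidHom.mk' (fun γ σ τ => (-1 : ℤ) ^ (σ.card * τ.card) • γ τ σ) fun γ γ' => by
    funext σ τ
    simp

theorem th_apply (γ : Ch κ (Ch κ' M)) (σ : Finset κ') (τ : Finset κ) :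
    th κ κ' M γ σ τ = (-1 : ℤ) ^ (σ.card * τ.card) • γ τ σ := rfl

theorem th_th (γ : Ch κ (Ch κ' M)) : th κ' κ M (th κ κ' M γ) = γ := by
  funext τ σ
  rw [th_apply, th_apply, smul_smul, mul_comm τ.card, ← mul_pow]
  simp

variable [LinearOrder κ] [LinearOrder κ']

theorem th_mem (S : Finset κ) (S' : Finset κ') (Λ : Finset κ → Finset κ' → Lat M) (j : ℤ)
    (γ : Ch κ (Ch κ' M)) (h : γ ∈ kl S (fun τ => kl S' (Λ τ)) j) :
    th κ κ' M γ ∈ kl S' (fun σ => kl S fun τ => Λ τ σ) j := by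
  simp only [mem_kl] at h ⊢
  intro σ
  refine ⟨fun hσ τ => ⟨fun hτ => ?_, fun hτ => ?_⟩, fun hσ => funext fun τ => ?_⟩
  · rw [th_apply, sub_right_comm]
    exact zsmul_mem ((((h τ).1 hτ) σ).1 hσ) _
  · rw [th_apply, (h τ).2 hτ]
    simp
  · rw [th_apply]
    by_cases hτ : τ ⊆ S
    · rw [(((h τ).1 hτ) σ).2 hσ]
      simp
    · rw [(h τ).2 hτ]
      simp

theorem th_kos (hC : SCar) (d : Op M) (t : κ → Op M) (u : κ' → Op M) (S : Finset κ)
    (S' : Finset κ') (γ : Ch κ (Ch κ' M)) :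
    th κ κ' M (kos (kos d u S') (fun i => ev (t i)) S γ) =
      kos (kos d t S) (fun l => ev (u l)) S' (th κ κ' M γ) := by
  funext σ τ
  rw [th_apply, (hC _ _).kos_apply, (hC _ _).kos_apply]
  simp only [Pi.add_apply, Pi.smul_apply, Finset.sum_apply, (hC _ _).kos_apply, ev_apply, th_apply,
    map_zsmul, smul_add, smul_sum, smul_smul]
  rw [add_right_comm]
  congr 1
  · congr 1
    · congr 1
      ring
    · refine sum_congr rfl fun i hi => ?_
      obtain ⟨m, hm⟩ : ∃ m, τ.card = m + 1 :=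
        ⟨_, (card_erase_add_one (mem_inter.1 hi).2).symm⟩
      rw [card_erase_of_mem (mem_inter.1 hi).2, hm, Nat.add_sub_cancel]
      congr 1
      ring
  · refine sum_congr rfl fun l hl => ?_
    obtain ⟨m, hm⟩ : ∃ m, σ.card = m + 1 :=
      ⟨_, (card_erase_add_one (mem_inter.1 hl).2).symm⟩
    rw [card_erase_of_mem (mem_inter.1 hl).2, hm, Nat.add_sub_cancel]
    congr 1
    have : ((-1 : ℤ) ^ τ.card) * (-1) ^ τ.card = 1 := by
      rw [← mul_pow]
      simp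
    rw [add_mul, one_mul, pow_add]
    linear_combination (-1 : ℤ) ^ (m * τ.card) * sgn l σ * this

end SwapX

theorem rowSwap : OfSwap := by
  intro hC _ hK hF κ κ' M _ _ _ d t u S S' Λ Λ' j h1 h2 h3 h4 x hx hDx
  have hk : KOK (kos d t S) (fun l => ev (u l)) S' (fun σ => kl S fun τ => Λ τ σ)
      fun σ => kl S fun τ => Λ' τ σ :=
    ⟨fun σ => (hK κ M).pair _ _ _ _ _ (h2 σ),
      fun l hl => (hC κ M).kos_ev _ _ _ _ ((h1 ∅).cd l hl) fun i hi => (h3 i hi l hl).symm,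
      fun l hl l' hl' => ((h1 ∅).ct l hl l' hl').map (evH κ M),
      fun l hl σ hσ => (hK κ M).keeps _ _ _ _ fun τ _ => (h1 τ).kp l hl σ hσ,
      fun l hl σ hσ => (hK κ M).keeps _ _ _ _ fun τ _ => (h1 τ).kp' l hl σ hσ⟩
  obtain ⟨y, hy, hxy⟩ := (hF κ' (Ch κ M)).van _ _ _ _ _ j hk h4 _ (SwapX.th_mem S S' Λ j x hx)
    (by rw [← SwapX.th_kos hC]; exact SwapX.th_mem S S' Λ' _ _ hDx)
  refine ⟨SwapX.th κ' κ M y, SwapX.th_mem S' S (fun σ τ => Λ τ σ) _ y hy, ?_⟩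
  have := SwapX.th_mem S' S (fun σ τ => Λ' τ σ) _ _ hxy
  rwa [map_sub, SwapX.th_th, SwapX.th_kos hC] at this

end Pool.Agent.MP_ee8c61_ag.H59
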