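import Pool.Agent.MP_ee8c61_ag.H59.SpecA

/-!
Finiteness of the Cech cohomology of finitely generated graded modules.
-/

namespace Pool.Agent.MP_ee8c61_ag.H59

open Finset

namespace T1X

section gen

variable {ι M : Type} [LinearOrder ι] [Fintype ι] [AddCommGroup M]

theorem pair (hK : SCone) {F F' : Finset ι → Lat M} (le : ∀ σ j, F' σ j ≤ F σ j)
    (mo : ∀ i σ j, F σ j ≤ F (insert i σ) j) (mo' : ∀ i σ j, F' σ j ≤ F' (insert i σ) j) :
    Pair (cech 0) (lat F) (lat F') := by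
  rw [← kl_univ, ← kl_univ]
  exact (hK ι M).pair 0 _ univ F F' ⟨fun σ => ⟨mul_zero _, le σ, fun _ _ _ => zero_mem _,
    fun _ _ _ => zero_mem _⟩, fun _ _ => Commute.zero_right _, fun _ _ _ _ => Commute.refl _,
    fun i _ σ _ j _ hx => mo i σ j hx, fun i _ σ _ j _ hx => mo' i σ j hx⟩

theorem pair_bot (hK : SCone) {F : Finset ι → Lat M} (mo : ∀ i σ j, F σ j ≤ F (insert i σ) j) :
    Pair (cech 0) (lat F) ⊥ :=
  lat_bot (ι := ι) (M := M) ▸ pair hK (fun _ _ => bot_le) mo fun _ _ _ => le_rfl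

theorem deg0_mono {N N' : AddSubgroup M} (h : N ≤ N') (j : ℤ) : deg0 N j ≤ deg0 N' j :=
  fun x hx => (mem_deg0 _ _ _).2 ⟨h ((mem_deg0 _ _ x).1 hx).1, ((mem_deg0 _ _ x).1 hx).2⟩

variable (R : Type) [CommRing R] [Module R M]

theorem lin (hC : SCar) : Lin R (cech (0 : Op M) : Op (Ch ι M)) := fun c x =>
  (DFunLike.congr_fun ((hC ι M).kos_ev 0 (mu M c) (fun _ => 1) univ (Commute.zero_right _)
    fun _ _ => Commute.one_right _).eq x).symm

omit [LinearOrder ι] [Fintype ι] in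
theorem cl_lat {F : Finset ι → Lat M} (h : ∀ σ, Cl R (F σ)) : Cl R (lat F) := fun _ c _ hx =>
  (mem_lat _ _ _).2 fun σ => h σ _ c _ ((mem_lat _ _ _).1 hx σ)

theorem cl_bot : Cl R (⊥ : Lat M) := fun j c x hx => by
  rw [(mem_lat_bot j x).1 hx, smul_zero]
  exact zero_mem _

theorem cl_deg0 (N : Submodule R M) : Cl R (deg0 N.toAddSubgroup) := fun j c x hx => by
  rw [mem_deg0] at hx ⊢
  exact ⟨N.smul_mem c hx.1, fun h => by rw [hx.2 h, smul_zero]⟩

end gen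

variable {R ι κ V : Type} [CommRing R] [Fintype ι] [AddCommGroup V] [Module R V]
  (Y : Multiplicative (ι → ℤ) →* Module.End R V) (g : κ → V) (e : κ → ℤ) (d : ℤ)

/-- The augmented lattice. -/
abbrev AL : Lat (Ch ι V) := lat fun σ : Finset ι => deg0 (gsp R Y g e d σ)

theorem mem_AL (j : ℤ) (γ : Ch ι V) :
    γ ∈ AL Y g e d j ↔ ∀ σ, γ σ ∈ gsp R Y g e d σ ∧ (j - σ.card ≠ 0 → γ σ = 0) := by
  simp only [mem_lat, mem_deg0]

theorem cl_AL : Cl R (AL Y g e d) := cl_lat R fun _ => cl_deg0 R _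

theorem gsp_mono [DecidableEq ι] (i : ι) (σ : Finset ι) (j : ℤ) :
    deg0 (gsp R Y g e d σ) j ≤ deg0 (gsp R Y g e d (insert i σ)) j := by
  refine deg0_mono (Submodule.span_mono (R := R) ?_) j
  rintro _ ⟨l, β, h1, h2, rfl⟩
  exact ⟨l, β, fun a ha => h1 a fun h => ha (mem_insert_of_mem h), h2, rfl⟩

/-- The presentation by the free module. -/
noncomputable def ph : (κ × (ι → ℤ) →₀ R) →ₗ[R] V :=
  Finsupp.linearCombination R fun p => Y (Multiplicative.ofAdd p.2) (g p.1)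

omit [Fintype ι] in
theorem ph_fY (β : Multiplicative (ι → ℤ)) (x : κ × (ι → ℤ) →₀ R) :
    ph Y g (fY R κ ι β x) = Y β (ph Y g x) := by
  refine DFunLike.congr_fun (?_ : ph Y g ∘ₗ fY R κ ι β = Y β ∘ₗ ph Y g) x
  ext p
  simp [ph, fY, mul_comm _ β]

omit [Fintype ι] in
theorem ph_fB (i : κ) : ph Y g (fB R κ ι i) = g i := by simp [ph, fB]

theorem mem_gsp (σ : Finset ι) (y : V) : y ∈ gsp R Y g e d σ ↔
    ∃ x ∈ gsp R (fY R κ ι) (fB R κ ι) e d σ, ph Y g x = y := by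
  change y ∈ Submodule.span R _ ↔ y ∈ (Submodule.span R _).map (ph Y g)
  rw [Submodule.map_span]
  congr! 2
  ext v
  constructor
  · rintro ⟨i, β, h1, h2, rfl⟩
    exact ⟨_, ⟨i, β, h1, h2, rfl⟩, by rw [ph_fY, ph_fB]⟩
  · rintro ⟨_, ⟨i, β, h1, h2, rfl⟩, rfl⟩
    exact ⟨i, β, h1, h2, by rw [ph_fY, ph_fB]⟩

theorem gen_finite [Fintype κ] : {v | ∃ (i : κ) (β : ι → ℤ), (∀ a ∉ (∅ : Finset ι), 0 ≤ β a) ∧
    ∑ a, β a + e i = d ∧ v = Y (Multiplicative.ofAdd β) (g i)}.Finite := by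
  refine (Set.finite_iUnion fun i => (Set.Finite.pi' fun _ : ι => Set.finite_Icc 0 (d - e i)).image
    fun β => Y (Multiplicative.ofAdd β) (g i)).subset ?_
  rintro _ ⟨i, β, h1, h2, rfl⟩
  have h0 : ∀ a, 0 ≤ β a := fun a => h1 a (notMem_empty a)
  exact Set.mem_iUnion.2 ⟨i, β, fun a => ⟨h0 a, by
    have := single_le_sum (fun a _ => h0 a) (mem_univ a)
    omega⟩, rfl⟩

variable [IsNoetherianRing R] [LinearOrder ι]

theorem aug (hC : SCar) (hK : SCone) (hF : SFg) (hf : ST1f) (hk : ST1k) (d : ℤ) (N : ℕ) :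
    ∀ (j : ℤ) (κ V : Type) [Fintype κ] [AddCommGroup V] [Module R V]
      (Y : Multiplicative (ι → ℤ) →* Module.End R V) (g : κ → V) (e : κ → ℤ),
      (Fintype.card ι : ℤ) < j + N → FG R (cech 0) (AL Y g e d) ⊥ j := by
  induction N with
  | zero =>
    intro j κ V _ _ _ Y g e h
    refine ⟨∅, by simp, fun x hx _ => ⟨0, zero_mem _, 0, zero_mem _, ?_⟩⟩
    have : x = 0 := funext fun σ => (((mem_AL Y g e d j x).1 hx) σ).2 (by
      have := σ.card_le_univ
      omega)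
    simp [this]
  | succ N ih =>
    intro j κ V _ _ _ Y g e h
    obtain ⟨r, z, e', hz⟩ := hk R ι κ V Y (ph Y g) e (ph_fY Y g)
    have p1 : Pair (cech 0) (AL (fY R κ ι) (fB R κ ι) e d) (AL (fY R κ ι) z e' d) :=
      pair hK (fun σ => deg0_mono (hz d σ ▸ inf_le_left)) (gsp_mono _ _ _ _) (gsp_mono _ _ _ _)
    have f1 := (hF R _).right _ _ _ _ j p1 (pair_bot hK (gsp_mono _ _ _ _)) (lin R hC)
      (cl_AL _ _ _ _) (cl_AL _ _ _ _) (cl_bot R) (hf R ι κ e d j)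
      (ih (j + 1) _ _ (fY R κ ι) z e' (by omega))
    have := ((hF R _).tr (Ch ι V) (up (ph Y g).toAddMonoidHom) _ (cech 0) _ _ (AL Y g e d) ⊥ 0 1 p1
      (pair_bot hK (gsp_mono _ _ _ _)) (cl_AL _ _ _ _) (cl_bot R)
      (fun c x => funext fun σ => map_smul (ph Y g) c (x σ)) (fun j x hx => ?_) (fun j y hy => ?_)
      (fun j x hx => ?_) (fun j x _ => ?_) j).1 f1
    · rwa [add_zero] at this
    · rw [add_zero, mem_AL]
      exact fun σ => ⟨(mem_gsp Y g e d σ _).2 ⟨_, ((mem_AL _ _ _ _ _ _).1 hx σ).1, rfl⟩,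
        fun h0 => by rw [up_apply, ((mem_AL _ _ _ _ _ _).1 hx σ).2 h0, map_zero]⟩
    · rw [add_zero, mem_AL] at hy
      choose x h1 h2 using fun σ => (mem_gsp Y g e d σ _).1 (hy σ).1
      refine ⟨fun σ => if j - σ.card = 0 then x σ else 0, (mem_AL _ _ _ _ _ _).2 fun σ =>
        ⟨?_, fun h0 => if_neg h0⟩, (mem_lat_bot _ _).2 (funext fun σ => ?_)⟩
      · split_ifs
        exacts [h1 σ, zero_mem _]
      · rw [Pi.sub_apply, up_apply]
        split_ifs with h0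
        · exact sub_eq_zero.2 (h2 σ).symm
        · rw [map_zero, (hy σ).2 h0, sub_zero, Pi.zero_apply]
    · rw [mem_lat_bot, mem_AL, funext_iff]
      refine forall_congr' fun σ => ?_
      rw [hz, AddSubgroup.mem_inf]
      have := (mem_AL _ _ _ _ _ _).1 hx σ
      exact ⟨fun h0 => ⟨⟨this.1, h0⟩, this.2⟩, fun h0 => h0.1.2⟩
    · rw [Units.val_one, one_smul]
      exact (hC ι (κ × (ι → ℤ) →₀ R)).up_kos V (ph Y g).toAddMonoidHom 0 0 (fun _ => 1) (fun _ => 1) univ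
        (fun _ => map_zero _) (fun _ _ _ => rfl) x

end T1X

open T1X in
theorem rowT1 : OfT1 := by
  intro hC hK hF hf hk R ι κ V _ _ _ _ _ _ _ Y g e d j
  have mo : ∀ (i : ι) (σ : Finset ι) (j : ℤ),
      (if σ = ∅ then ⊥ else deg0 (gsp R Y g e d σ) : Lat V) j
        ≤ (if insert i σ = ∅ then ⊥ else deg0 (gsp R Y g e d (insert i σ)) : Lat V) j :=
    fun i σ j => by
      rw [if_neg (insert_ne_empty i σ)]
      split_ifs
      exacts [bot_le, gsp_mono Y g e d i σ j]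
  have p1 : Pair (cech 0) (AL Y g e d)
      (lat fun σ : Finset ι => if σ = ∅ then ⊥ else deg0 (gsp R Y g e d σ)) :=
    pair hK (fun σ j => by
      split_ifs
      exacts [bot_le, le_rfl]) (gsp_mono Y g e d) mo
  have c1 : Cl R (lat fun σ : Finset ι => if σ = ∅ then ⊥ else deg0 (gsp R Y g e d σ)) :=
    cl_lat R fun σ => by
      split_ifs
      exacts [cl_bot R, cl_deg0 R _]
  have key : ∀ x ∈ AL Y g e d (j - 1), x - Pi.single ∅ (x ∅) ∈
      lat (fun σ : Finset ι => if σ = ∅ then ⊥ else deg0 (gsp R Y g e d σ)) (j - 1) := fun x hx =>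
    (mem_lat _ _ _).2 fun σ => by
      split_ifs with h
      · simp [h]
      · rw [Pi.sub_apply, Pi.single_eq_of_ne h, sub_zero]
        exact (mem_lat _ _ _).1 hx σ
  refine (hF R _).left _ _ _ _ j p1 (pair_bot hK mo) (lin R hC) (cl_AL _ _ _ _) c1 (cl_bot R)
    (aug hC hK hF hf hk d (Fintype.card ι - j + 1).toNat j κ V Y g e (by omega)) ?_
  by_cases hj : j - 1 = 0
  · refine (hF R _).fin _ _ _ _ ((gen_finite Y g e d).image
      (LinearMap.single R (fun _ : Finset ι => V) ∅)).toFinset (lin R hC) (cl_AL _ _ _ _) c1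
      (fun x hx => ⟨_, ?_, key x hx⟩) (fun x hx => ?_) p1
    · rw [Set.Finite.coe_toFinset, ← Submodule.map_span]
      exact ⟨x ∅, ((mem_AL _ _ _ _ _ _).1 hx ∅).1, rfl⟩
    · obtain ⟨v, hv, rfl⟩ := (Set.Finite.mem_toFinset _).1 hx
      refine (mem_AL _ _ _ _ _ _).2 fun σ => ?_
      by_cases h : σ = ∅
      · subst h
        exact ⟨by simpa [gsp] using Submodule.subset_span (R := R) hv, fun h0 => (h0 (by simpa using hj)).elim⟩
      · simp [Pi.single_eq_of_ne h]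
  · refine (hF R _).fin _ _ _ _ ∅ (lin R hC) (cl_AL _ _ _ _) c1
      (fun x hx => ⟨_, ?_, key x hx⟩) (by simp) p1
    rw [((mem_AL _ _ _ _ _ _).1 hx ∅).2 (by simpa using hj), Pi.single_zero]
    exact zero_mem _

end Pool.Agent.MP_ee8c61_ag.H59
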