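import Pool.Agent.MP_ee8c61_ag.H59.SpecA

/-!
Finiteness of the Cech cohomology of the free graded module.
-/

namespace Pool.Agent.MP_ee8c61_ag.H59

open Finset

namespace T1fX

variable {R ι κ : Type} [CommRing R] [Fintype ι]

theorem mem_gsp (e : κ → ℤ) (d : ℤ) (σ : Finset ι) (v : κ × (ι → ℤ) →₀ R) :
    v ∈ gsp R (fY R κ ι) (fB R κ ι) e d σ ↔
      ∀ p, v p ≠ 0 → (∀ a ∉ σ, 0 ≤ p.2 a) ∧ ∑ a, p.2 a + e p.1 = d := by
  have h : {v | ∃ (i : κ) (β : ι → ℤ), (∀ a ∉ σ, 0 ≤ β a) ∧ ∑ a, β a + e i = d ∧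
      v = fY R κ ι (Multiplicative.ofAdd β) (fB R κ ι i)} =
      (fun p => Finsupp.single p (1 : R)) ''
        {p : κ × (ι → ℤ) | (∀ a ∉ σ, 0 ≤ p.2 a) ∧ ∑ a, p.2 a + e p.1 = d} := by
    have h0 : ∀ (i : κ) (β : ι → ℤ), fY R κ ι (Multiplicative.ofAdd β) (fB R κ ι i) =
        Finsupp.single (i, β) 1 := fun i β => by
      simp [fY, fB, Finsupp.mapDomain_single]
    ext v
    simp only [h0, Set.mem_ofPred_eq, Set.mem_image]
    constructor
    · rintro ⟨i, β, h1, h2, rfl⟩
      exact ⟨(i, β), ⟨h1, h2⟩, rfl⟩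
    · rintro ⟨⟨i, β⟩, ⟨h1, h2⟩, rfl⟩
      exact ⟨i, β, h1, h2, rfl⟩
  rw [gsp, h, ← Finsupp.supported_eq_span_single, Submodule.mem_toAddSubgroup,
    Finsupp.mem_supported']
  refine forall_congr' fun p => ?_
  rw [not_imp_comm]
  rfl

open Classical in
/-- Restriction to the exponents that satisfy `c`. -/
noncomputable def pr (c : κ × (ι → ℤ) → Prop) : Op (κ × (ι → ℤ) →₀ R) :=
  AddMonoidHom.mk' (fun v => v.filter c) fun _ _ => Finsupp.filter_add

omit [Fintype ι] in
open Classical in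
theorem pr_apply (c : κ × (ι → ℤ) → Prop) (v : κ × (ι → ℤ) →₀ R) (p : κ × (ι → ℤ)) :
    pr c v p = if c p then v p else 0 := Finsupp.filter_apply _ _ _

omit [Fintype ι] in
theorem pr_ne {c : κ × (ι → ℤ) → Prop} {v : κ × (ι → ℤ) →₀ R} {p : κ × (ι → ℤ)}
    (h : pr c v p ≠ 0) : c p ∧ v p ≠ 0 := by
  rw [pr_apply] at h
  split_ifs at h with h1
  · exact ⟨h1, h⟩
  · exact (h rfl).elim

variable [LinearOrder ι]

theorem pr_sum (v : κ × (ι → ℤ) →₀ R) :
    ∑ a, pr (fun p => 0 ≤ p.2 a ∧ ∀ b < a, p.2 b < 0) v + pr (fun p => ∀ a, p.2 a < 0) v = v := by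
  classical
  ext p
  simp only [Finsupp.add_apply, Finsupp.finsetSum_apply, pr_apply]
  by_cases h : ∀ a, p.2 a < 0
  · rw [if_pos h, sum_eq_zero, zero_add]
    exact fun a _ => if_neg fun h1 => (h a).not_ge h1.1
  · rw [if_neg h, add_zero]
    have hn : (univ.filter fun a => 0 ≤ p.2 a).Nonempty := by
      push Not at h
      obtain ⟨a, ha⟩ := h
      exact ⟨a, by simpa using ha⟩
    have h1 := (mem_filter.1 (min'_mem _ hn)).2
    rw [sum_eq_single (min' _ hn), if_pos]
    · refine ⟨h1, fun b hb => not_le.1 fun h2 => hb.not_ge (min'_le _ _ (by simpa using h2))⟩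
    · intro b _ hb
      refine if_neg fun h2 => ?_
      have h3 : min' _ hn ≤ b := min'_le _ _ (by simpa using h2.1)
      exact (h2.2 _ (lt_of_le_of_ne h3 hb.symm)).not_ge h1
    · simp

omit [LinearOrder ι] in
theorem fin_neg [Fintype κ] (e : κ → ℤ) (d : ℤ) (c : Prop) :
    {p : κ × (ι → ℤ) | c ∧ (∀ a, p.2 a < 0) ∧ ∑ a, p.2 a + e p.1 = d}.Finite := by
  classical
  refine (Set.finite_iUnion fun i : κ => (Set.finite_singleton i).prod
    (Set.Finite.pi' fun _ : ι => Set.finite_Icc (d - e i) 0)).subset ?_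
  rintro ⟨i, β⟩ ⟨-, h1, h2⟩
  refine Set.mem_iUnion.2 ⟨i, rfl, fun a => ⟨?_, (h1 a).le⟩⟩
  have h3 : ∑ b ∈ univ.erase a, β b ≤ 0 := sum_nonpos fun b _ => (h1 b).le
  have h4 := add_sum_erase univ β (mem_univ a)
  dsimp only at h2 ⊢
  omega

end T1fX

open T1fX in
theorem rowT1f : OfT1f := by
  classical
  intro hC _ _ R ι κ _ _ _ _ _ e d j
  have C := hC ι (κ × (ι → ℤ) →₀ R)
  have hN := fin_neg (ι := ι) e d (j = Fintype.card ι)
  refine ⟨hN.toFinset.image fun p => Pi.single univ (Finsupp.single p 1), fun x hx => ?_,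
    fun x hx hD => ?_⟩
  · obtain ⟨p, hp, rfl⟩ := mem_image.1 hx
    obtain ⟨h0, -, h2⟩ := hN.mem_toFinset.1 hp
    refine ⟨(mem_lat _ _ _).2 fun σ => ?_, (mem_lat_bot _ _).2 ?_⟩
    · by_cases hσ : σ = univ
      · subst hσ
        rw [Pi.single_eq_same, mem_deg0, mem_gsp]
        refine ⟨fun q hq => ?_, fun h => (h (by rw [h0, card_univ, sub_self])).elim⟩
        obtain rfl : q = p := by
          by_contra h
          exact hq (Finsupp.single_eq_of_ne h)
        exact ⟨fun a ha => (ha (mem_univ a)).elim, h2⟩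
      · rw [Pi.single_eq_of_ne hσ]
        exact zero_mem _
    · funext σ
      rw [cech, C.kos_apply, op_zero, smul_zero, zero_add, Pi.zero_apply]
      refine sum_eq_zero fun i _ => ?_
      rw [Pi.single_eq_of_ne, map_zero, smul_zero]
      exact fun h => notMem_erase i σ (h.symm ▸ mem_univ i)
  · rw [mem_lat_bot] at hD
    rw [mem_lat] at hx
    simp only [mem_deg0, mem_gsp] at hx
    let P : ι → Op (κ × (ι → ℤ) →₀ R) := fun a => pr fun p => 0 ≤ p.2 a ∧ ∀ b < a, p.2 b < 0
    refine ⟨∑ a, io a (ev (P a) x), sum_mem fun a _ => (mem_lat _ _ _).2 fun σ => ?_,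
      ev (pr fun p => ∀ a, p.2 a < 0) x, ?_, (mem_lat_bot _ _).2 ?_⟩
    · rw [io_apply]
      split_ifs with ha
      · exact zero_mem _
      refine zsmul_mem ?_ _
      rw [ev_apply, mem_deg0, mem_gsp]
      refine ⟨fun p hp => ?_, fun h => ?_⟩
      · obtain ⟨h1, h2⟩ := pr_ne hp
        obtain ⟨h3, h4⟩ := (hx _).1 p h2
        refine ⟨fun b hb => ?_, h4⟩
        by_cases h5 : b = a
        · exact h5 ▸ h1.1
        · exact h3 b fun h6 => (mem_insert.1 h6).elim h5 hb
      · rw [(hx _).2 fun h1 => h (by rw [card_insert_of_notMem ha] at h1; push_cast at h1; omega),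
          map_zero]
    · have h1 : ev (pr fun p => ∀ a, p.2 a < 0) x = LinearMap.single R
          (fun _ : Finset ι => κ × (ι → ℤ) →₀ R) univ (pr (fun p => ∀ a, p.2 a < 0) (x univ)) := by
        funext σ
        rw [LinearMap.single_apply, ev_apply]
        by_cases hσ : σ = univ
        · rw [hσ, Pi.single_eq_same]
        · rw [Pi.single_eq_of_ne hσ]
          ext p
          by_contra hp
          obtain ⟨h1, h2⟩ := pr_ne hp
          exact hσ (eq_univ_of_forall fun a => by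
            by_contra ha
            exact (h1 a).not_ge (((hx σ).1 p h2).1 a ha))
      have h2 : pr (fun p => ∀ a, p.2 a < 0) (x univ) ∈ Finsupp.supported R R
          {p : κ × (ι → ℤ) | j = Fintype.card ι ∧ (∀ a, p.2 a < 0) ∧ ∑ a, p.2 a + e p.1 = d} := by
        rw [Finsupp.mem_supported']
        intro p hp
        by_contra h
        obtain ⟨h3, h4⟩ := pr_ne h
        refine hp ⟨?_, h3, ((hx _).1 p h4).2⟩
        by_contra h5
        rw [(hx univ).2 fun h6 => h5 (by rw [card_univ] at h6; omega)] at h4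
        exact h4 rfl
      rw [Finsupp.supported_eq_span_single] at h2
      rw [h1]
      have h3 := Submodule.mem_map_of_mem (f := LinearMap.single R
        (fun _ : Finset ι => κ × (ι → ℤ) →₀ R) univ) h2
      rw [Submodule.map_span, ← Set.image_comp] at h3
      rw [coe_image, hN.coe_toFinset]
      exact h3
    · have h1 : ∀ a, (cech 0 : Op (Ch ι (κ × (ι → ℤ) →₀ R))) (io a (ev (P a) x)) = ev (P a) x := by
        intro a
        have h2 := DFunLike.congr_fun (C.kos_io 0 (fun _ => 1) univ a) (ev (P a) x)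
        have h3 := DFunLike.congr_fun (C.kos_ev 0 (P a) (fun _ => 1) univ (Commute.zero_right _)
          fun _ _ => Commute.one_right _).eq x
        rw [op_mul, op_mul] at h3
        rw [if_pos (mem_univ a), op_add, op_mul, op_mul, ← h3] at h2
        rw [cech] at hD
        rw [hD, map_zero, map_zero, add_zero] at h2
        exact h2
      rw [map_sum, sum_congr rfl fun a _ => h1 a]
      funext σ
      have h2 := pr_sum (x σ)
      simp only [Pi.sub_apply, Finset.sum_apply, ev_apply, Pi.zero_apply]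
      rw [sub_sub, add_comm, h2, sub_self]

end Pool.Agent.MP_ee8c61_ag.H59
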