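import Pool.Agent.MP_ee8c61_ag.H59.SpecA

/-!
Row T1k: the kernel of an equivariant map out of the free graded module is generated by finitely
many homogeneous elements, in every localization.
-/

namespace Pool.Agent.MP_ee8c61_ag.H59

open Finset

namespace T1kX

section Gen

variable {ι V : Type} (R : Type) [CommRing R] [AddCommGroup V] [Module R V]

/-- The span of all translates of `T` by monomials with nonnegative exponents. -/
def pos (Y : Multiplicative (ι → ℤ) →* Module.End R V) (T : Set V) : Submodule R V :=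
  Submodule.span R {v | ∃ t ∈ T, ∃ β : ι → ℤ, (∀ a, 0 ≤ β a) ∧ v = Y (Multiplicative.ofAdd β) t}

variable {R}

theorem Y_add (Y : Multiplicative (ι → ℤ) →* Module.End R V) (β γ : ι → ℤ) (x : V) :
    Y (Multiplicative.ofAdd β) (Y (Multiplicative.ofAdd γ) x) =
      Y (Multiplicative.ofAdd (β + γ)) x := by
  rw [ofAdd_add, map_mul, Module.End.mul_apply]

theorem Y_zero (Y : Multiplicative (ι → ℤ) →* Module.End R V) (x : V) :
    Y (Multiplicative.ofAdd 0) x = x := by
  rw [ofAdd_zero, map_one, Module.End.one_apply]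

theorem pos_shift (Y : Multiplicative (ι → ℤ) →* Module.End R V) (T : Set V) (γ : ι → ℤ)
    (hγ : ∀ a, 0 ≤ γ a) {x : V} (hx : x ∈ pos R Y T) :
    Y (Multiplicative.ofAdd γ) x ∈ pos R Y T := by
  induction hx using Submodule.span_induction with
  | mem v hv =>
    obtain ⟨t, ht, β, hβ, rfl⟩ := hv
    refine Submodule.subset_span ⟨t, ht, γ + β, fun a => add_nonneg (hγ a) (hβ a), ?_⟩
    rw [Y_add]
  | zero => rw [map_zero]; exact Submodule.zero_mem _
  | add u v _ _ hu hv => rw [map_add]; exact Submodule.add_mem _ hu hv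
  | smul c u _ hu => rw [map_smul]; exact Submodule.smul_mem _ c hu

/-- Natural exponent vectors as integer ones. -/
def castHom (ι : Type) : Multiplicative (ι → ℕ) →* Multiplicative (ι → ℤ) where
  toFun β := Multiplicative.ofAdd fun a => ((β.toAdd a : ℕ) : ℤ)
  map_one' := by
    rw [← ofAdd_zero]
    congr 1
  map_mul' β β' := by
    rw [← ofAdd_add]
    congr 1

theorem extract [IsNoetherianRing R] [Fintype ι]
    (Y : Multiplicative (ι → ℤ) →* Module.End R V) (T : Set V) (hT : T.Finite) (S : Set V)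
    (hS : S ⊆ pos R Y T) : ∃ s : Finset V, (s : Set V) ⊆ S ∧ S ⊆ pos R Y s := by
  let P := AddMonoidAlgebra R (ι → ℕ)
  let ρ : P →ₐ[R] Module.End R V :=
    AddMonoidAlgebra.lift R (Module.End R V) (ι → ℕ) (Y.comp (castHom ι))
  haveI : AddMonoid.FG (ι → ℕ) := Module.Finite.iff_addMonoid_fg.mp inferInstance
  haveI : IsNoetherianRing P := Algebra.FiniteType.isNoetherianRing R P
  letI : Module P V := Module.compHom V (ρ : P →+* Module.End R V)
  have hsm : ∀ (p : P) (x : V), p • x = ρ p x := fun _ _ => rfl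
  have hsingle : ∀ (m : ι → ℕ) (c : R) (x : V), ρ (AddMonoidAlgebra.single m c) x =
      c • Y (Multiplicative.ofAdd fun a => ((m a : ℕ) : ℤ)) x := by
    intro m c x
    simp only [ρ, P, AddMonoidAlgebra.lift_single]
    rfl
  have h1 : ∀ (T : Set V) (x : V), x ∈ pos R Y T → x ∈ Submodule.span P T := by
    intro T x hx
    induction hx using Submodule.span_induction with
    | mem v hv =>
      obtain ⟨t, ht, β, hβ, rfl⟩ := hv
      have h := (Submodule.span P T).smul_mem
        (AddMonoidAlgebra.single (fun a => (β a).toNat) (1 : R) : P) (Submodule.subset_span ht)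
      rw [hsm, hsingle, one_smul] at h
      have hb : (fun a => (((β a).toNat : ℕ) : ℤ)) = β := funext fun a => Int.toNat_of_nonneg (hβ a)
      rwa [hb] at h
    | zero => exact Submodule.zero_mem _
    | add u v _ _ hu hv => exact Submodule.add_mem _ hu hv
    | smul c u _ hu =>
      have h := (Submodule.span P T).smul_mem (AddMonoidAlgebra.single 0 c : P) hu
      rw [hsm, hsingle] at h
      have hb : (fun a => (((0 : ι → ℕ) a : ℕ) : ℤ)) = (0 : ι → ℤ) := funext fun a => by simp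
      rwa [hb, Y_zero] at h
  have h2 : ∀ (T : Set V) (x : V), x ∈ Submodule.span P T → x ∈ pos R Y T := by
    intro T x hx
    induction hx using Submodule.span_induction with
    | mem v hv =>
      exact Submodule.subset_span ⟨v, hv, 0, fun _ => le_rfl, (Y_zero Y v).symm⟩
    | zero => exact Submodule.zero_mem _
    | add u v _ _ hu hv => exact Submodule.add_mem _ hu hv
    | smul p u _ hu =>
      rw [hsm]
      induction p using AddMonoidAlgebra.induction_linear with
      | zero => rw [map_zero, LinearMap.zero_apply]; exact Submodule.zero_mem _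
      | add p q hp hq => rw [map_add, LinearMap.add_apply]; exact Submodule.add_mem _ hp hq
      | single m c =>
        rw [hsingle]
        exact Submodule.smul_mem _ c (pos_shift Y T _ (fun a => Int.natCast_nonneg _) hu)
  have hfg : (Submodule.span P S).FG :=
    Submodule.FG.of_le (Submodule.fg_span hT) (Submodule.span_le.mpr fun x hx => h1 T x (hS hx))
  obtain ⟨s, hs, hs'⟩ := (Submodule.fg_span_iff_fg_span_finset_subset S).mp hfg
  refine ⟨s, hs, fun x hx => h2 _ x ?_⟩
  rw [← hs']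
  exact Submodule.subset_span hx

variable [Fintype ι] {κ : Type}

theorem gsp_ind (Y : Multiplicative (ι → ℤ) →* Module.End R V) (g : κ → V) (e : κ → ℤ) (d : ℤ)
    (σ : Finset ι) (W : Submodule R V)
    (h : ∀ (i : κ) (β : ι → ℤ), (∀ a ∉ σ, 0 ≤ β a) → ∑ a, β a + e i = d →
      Y (Multiplicative.ofAdd β) (g i) ∈ W) {x : V} (hx : x ∈ gsp R Y g e d σ) : x ∈ W := by
  have h' : Submodule.span R {v | ∃ (i : κ) (β : ι → ℤ), (∀ a ∉ σ, 0 ≤ β a) ∧
      ∑ a, β a + e i = d ∧ v = Y (Multiplicative.ofAdd β) (g i)} ≤ W := by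
    refine Submodule.span_le.mpr ?_
    rintro v ⟨i, β, h1, h2, rfl⟩
    exact h i β h1 h2
  exact h' hx

/-- The submodule underlying `gsp`. -/
def gsm (Y : Multiplicative (ι → ℤ) →* Module.End R V) (g : κ → V) (e : κ → ℤ) (d : ℤ)
    (σ : Finset ι) : Submodule R V :=
  Submodule.span R {v | ∃ (i : κ) (β : ι → ℤ), (∀ a ∉ σ, 0 ≤ β a) ∧ ∑ a, β a + e i = d ∧
    v = Y (Multiplicative.ofAdd β) (g i)}

theorem mem_gsm {Y : Multiplicative (ι → ℤ) →* Module.End R V} {g : κ → V} {e : κ → ℤ} {d : ℤ}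
    {σ : Finset ι} {x : V} : x ∈ gsm Y g e d σ ↔ x ∈ gsp R Y g e d σ := Iff.rfl

theorem gen_mem (Y : Multiplicative (ι → ℤ) →* Module.End R V) (g : κ → V) (e : κ → ℤ) (d : ℤ)
    (σ : Finset ι) (i : κ) (β : ι → ℤ) (h1 : ∀ a ∉ σ, 0 ≤ β a) (h2 : ∑ a, β a + e i = d) :
    Y (Multiplicative.ofAdd β) (g i) ∈ gsp R Y g e d σ :=
  mem_gsm.mp (Submodule.subset_span ⟨i, β, h1, h2, rfl⟩)

/-- Shifting by a monomial, and enlarging the localization. -/
theorem gsp_shift (Y : Multiplicative (ι → ℤ) →* Module.End R V) (g : κ → V) (e : κ → ℤ)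
    {d d' : ℤ} {σ τ : Finset ι} (hστ : σ ⊆ τ) (γ : ι → ℤ) (hγ : ∀ a ∉ τ, 0 ≤ γ a)
    (hd : ∑ a, γ a + d = d') {x : V} (hx : x ∈ gsp R Y g e d σ) :
    Y (Multiplicative.ofAdd γ) x ∈ gsp R Y g e d' τ := by
  refine gsp_ind Y g e d σ ((gsm Y g e d' τ).comap (Y (Multiplicative.ofAdd γ))) ?_ hx
  intro i β h1 h2
  rw [Submodule.mem_comap, Y_add, mem_gsm]
  refine gen_mem Y g e d' τ i (γ + β)
    (fun a ha => add_nonneg (hγ a ha) (h1 a fun h => ha (hστ h))) ?_
  simp only [Pi.add_apply, sum_add_distrib]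
  omega

/-- Clearing denominators. -/
theorem gsp_clear (Y : Multiplicative (ι → ℤ) →* Module.End R V) (g : κ → V) (e : κ → ℤ)
    {d : ℤ} {σ : Finset ι} {x : V} (hx : x ∈ gsp R Y g e d σ) :
    ∃ γ : ι → ℤ, (∀ a, 0 ≤ γ a) ∧ (∀ a ∉ σ, γ a = 0) ∧
      Y (Multiplicative.ofAdd γ) x ∈ gsp R Y g e (∑ a, γ a + d) ∅ := by
  classical
  rw [← mem_gsm] at hx
  induction hx using Submodule.span_induction with
  | mem v hv =>
    obtain ⟨i, β, h1, h2, rfl⟩ := hv
    refine ⟨fun a => if a ∈ σ then |β a| else 0, fun a => ?_, fun a ha => if_neg ha, ?_⟩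
    · dsimp only
      split_ifs
      · exact abs_nonneg _
      · exact le_rfl
    · rw [Y_add]
      refine gen_mem Y g e _ ∅ i _ (fun a _ => ?_) ?_
      · simp only [Pi.add_apply]
        split_ifs with ha
        · have := neg_abs_le (β a)
          omega
        · have := h1 a ha
          omega
      · simp only [Pi.add_apply, sum_add_distrib]
        omega
  | zero =>
    exact ⟨0, fun _ => le_rfl, fun _ _ => rfl, by rw [map_zero]; exact AddSubgroup.zero_mem _⟩
  | add u v _ _ hu hv =>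
    obtain ⟨γ, a1, a2, a3⟩ := hu
    obtain ⟨δ, b1, b2, b3⟩ := hv
    refine ⟨γ + δ, fun a => add_nonneg (a1 a) (b1 a), fun a ha => ?_, ?_⟩
    · rw [Pi.add_apply, a2 a ha, b2 a ha, add_zero]
    · rw [map_add]
      refine AddSubgroup.add_mem _ ?_ ?_
      · rw [add_comm γ δ, ← Y_add]
        refine gsp_shift Y g e Subset.rfl δ (fun a _ => b1 a) ?_ a3
        simp only [Pi.add_apply, sum_add_distrib]
        omega
      · rw [← Y_add]
        refine gsp_shift Y g e Subset.rfl γ (fun a _ => a1 a) ?_ b3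
        simp only [Pi.add_apply, sum_add_distrib]
        omega
  | smul c u _ hu =>
    obtain ⟨γ, a1, a2, a3⟩ := hu
    refine ⟨γ, a1, a2, ?_⟩
    rw [map_smul]
    exact mem_gsm.mp (Submodule.smul_mem _ c (mem_gsm.mpr a3))

end Gen

section Free

variable {ι κ R : Type} [CommRing R] [Fintype ι]

theorem gsp_supp (e : κ → ℤ) {d : ℤ} {σ : Finset ι} {x : κ × (ι → ℤ) →₀ R}
    (hx : x ∈ gsp R (fY R κ ι) (fB R κ ι) e d σ) :
    x ∈ Finsupp.supported R R {p : κ × (ι → ℤ) | ∑ a, p.2 a + e p.1 = d} := by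
  refine gsp_ind _ _ e d σ _ ?_ hx
  intro i β _ h2
  have h : fY R κ ι (Multiplicative.ofAdd β) (fB R κ ι i) = Finsupp.single (i, β) 1 := by
    simp [fY, fB]
  rw [h]
  exact Finsupp.single_mem_supported R _ h2

open Classical in
/-- The degree `d` component. -/
noncomputable def prj (e : κ → ℤ) (d : ℤ) : (κ × (ι → ℤ) →₀ R) →ₗ[R] (κ × (ι → ℤ) →₀ R) where
  toFun x := x.filter fun p => ∑ a, p.2 a + e p.1 = d
  map_add' x y := Finsupp.filter_add
  map_smul' c x := Finsupp.filter_smul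

theorem prj_same (e : κ → ℤ) {d : ℤ} {σ : Finset ι} {x : κ × (ι → ℤ) →₀ R}
    (hx : x ∈ gsp R (fY R κ ι) (fB R κ ι) e d σ) : prj e d x = x := by
  classical
  have h := (Finsupp.mem_supported' R x).mp (gsp_supp e hx)
  ext p
  simp only [prj, LinearMap.coe_mk, AddHom.coe_mk, Finsupp.filter_apply]
  split_ifs with hp
  · rfl
  · exact (h p hp).symm

theorem prj_ne (e : κ → ℤ) {d d' : ℤ} (hd : d' ≠ d) {σ : Finset ι} {x : κ × (ι → ℤ) →₀ R}
    (hx : x ∈ gsp R (fY R κ ι) (fB R κ ι) e d' σ) : prj e d x = 0 := by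
  classical
  have h := (Finsupp.mem_supported' R x).mp (gsp_supp e hx)
  ext p
  simp only [prj, LinearMap.coe_mk, AddHom.coe_mk, Finsupp.filter_apply]
  split_ifs with hp
  · exact h p fun h' => hd (h'.symm.trans hp)
  · rfl

end Free

end T1kX

open T1kX in
theorem rowT1k : ST1k := by
  intro R ι κ V _ _ _ _ _ _ Y φ e hφ
  obtain ⟨s, hs1, hs2⟩ := extract (fY R κ ι) (Set.range (fB R κ ι)) (Set.finite_range _)
    {x | φ x = 0 ∧ ∃ d, x ∈ gsp R (fY R κ ι) (fB R κ ι) e d ∅} (by
      rintro x ⟨-, d, hx⟩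
      refine gsp_ind _ _ e d ∅ _ ?_ hx
      intro i β h1 _
      exact Submodule.subset_span ⟨_, ⟨i, rfl⟩, β, fun a => h1 a (notMem_empty a), rfl⟩)
  let z : Fin s.card → (κ × (ι → ℤ) →₀ R) := fun i => (s.equivFin.symm i : _)
  have hz : ∀ i, φ (z i) = 0 ∧ ∃ d, z i ∈ gsp R (fY R κ ι) (fB R κ ι) e d ∅ :=
    fun i => hs1 (s.equivFin.symm i).2
  choose hz0 e' he' using hz
  have key : ∀ (d : ℤ) (x : κ × (ι → ℤ) →₀ R), x ∈ gsp R (fY R κ ι) (fB R κ ι) e d ∅ →
      φ x = 0 → x ∈ gsp R (fY R κ ι) z e' d ∅ := by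
    intro d x hx h0
    have h1 : pos R (fY R κ ι) s ≤ (gsm (fY R κ ι) z e' d ∅).comap (prj e d) := by
      refine Submodule.span_le.mpr ?_
      rintro v ⟨t, ht, β, hβ, rfl⟩
      obtain ⟨i, rfl⟩ : ∃ i, z i = t := ⟨s.equivFin ⟨t, ht⟩, by simp [z]⟩
      have h2 := gsp_shift (fY R κ ι) (fB R κ ι) e Subset.rfl β (fun a _ => hβ a) rfl (he' i)
      rw [SetLike.mem_coe, Submodule.mem_comap]
      by_cases hd : ∑ a, β a + e' i = d
      · rw [hd] at h2
        rw [prj_same e h2, mem_gsm]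
        exact gen_mem _ z e' d ∅ i β (fun a _ => hβ a) hd
      · rw [prj_ne e hd h2]
        exact Submodule.zero_mem _
    have h3 := h1 (hs2 ⟨h0, d, hx⟩)
    rwa [Submodule.mem_comap, prj_same e hx, mem_gsm] at h3
  refine ⟨s.card, z, e', fun d σ => le_antisymm ?_ ?_⟩
  · intro x hx
    refine ⟨?_, ?_⟩
    · refine mem_gsm.mp (gsp_ind _ z e' d σ (gsm (fY R κ ι) (fB R κ ι) e d σ) ?_ hx)
      intro i β h1 h2
      exact mem_gsm.mpr (gsp_shift _ _ e (empty_subset σ) β h1 h2 (he' i))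
    · refine gsp_ind _ z e' d σ (LinearMap.ker φ) ?_ hx
      intro i β _ _
      rw [LinearMap.mem_ker, hφ, hz0, map_zero]
  · rintro x ⟨hx, h0⟩
    have h0' : φ x = 0 := h0
    obtain ⟨γ, -, a2, a3⟩ := gsp_clear _ _ e hx
    have h1 := key _ _ a3 (by rw [hφ, h0', map_zero])
    have h2 := gsp_shift (fY R κ ι) z e' (d' := d) (empty_subset σ) (-γ)
      (fun a ha => by rw [Pi.neg_apply, a2 a ha, neg_zero]) (by
        simp only [Pi.neg_apply, sum_neg_distrib]
        omega) h1
    rwa [Y_add, neg_add_cancel, Y_zero] at h2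

end Pool.Agent.MP_ee8c61_ag.H59
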