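import Pool.Agent.MP_ee8c61_ag.H59.SpecB

/-!
Finiteness of the Cech cohomology of the sheaves of logarithmic forms.
-/

namespace Pool.Agent.MP_ee8c61_ag.H59

open Finset Sys

namespace T1sX

variable {Ω ι : Type} [CommRing Ω] [Fintype ι]

/-- The Laurent monomials in the units `ρ a`. -/
noncomputable def mn (ρ : ι → Ωˣ) : Multiplicative (ι → ℤ) →* Ωˣ where
  toFun β := ∏ a, ρ a ^ β.toAdd a
  map_one' := by simp
  map_mul' β β' := by simp [zpow_add, prod_mul_distrib]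

theorem sum_pd {n : ℕ} (w : Fm n Ω) :
    w = ∑ p : Fin (n + 1), pd n ((p : ℕ) : ℤ) (pd n ((p : ℕ) : ℤ) w) := by
  funext τ
  have h : τ.card < n + 1 := Nat.lt_succ_of_le (by simpa using τ.card_le_univ)
  rw [Finset.sum_apply, sum_eq_single (⟨τ.card, h⟩ : Fin (n + 1))]
  · simp [pd]
  · intro p _ hp
    have : ¬ τ.card = (p : ℕ) := fun e => hp (Fin.ext e.symm)
    simp [pd, this]
  · simp

end T1sX

open T1sX in
theorem rowT1s : OfT1s := by
  intro hC hF h1 hFo hL hg k Ω ι J n _ _ _ _ S _ _ _ m x w ρ hfg hP c j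
  have : IsNoetherianRing (Algebra.adjoin k (Set.range x)) :=
    isNoetherianRing_of_fg (Subalgebra.fg_def.2 ⟨_, Set.finite_range x, rfl⟩)
  choose r g e H using hg k Ω ι J n S m x w ρ hfg hP c
  have lm := hL k Ω ι J n S
  have fo := hFo Ω n
  let Y : Multiplicative (ι → ℤ) →* Module.End (Algebra.adjoin k (Set.range x)) (Fm n Ω) :=
    (DistribMulAction.toModuleEnd _ (Fm n Ω) (S := Ω)).comp ((Units.coeHom Ω).comp (mn ρ))
  have key : ∀ (p : ℤ) (σ : Finset ι) (i : ℤ) (y : Fm n Ω),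
      y ∈ (if σ = ∅ then (⊥ : Lat (Fm n Ω)) else deg0 (gsp _ Y (g p) (e p) 0 σ)) i ↔
        y ∈ S.lm {c} σ p ∧ (i ≠ 0 → y = 0) := by
    intro p σ i y
    split_ifs with h
    · rw [h, lm.emp, mem_lat_bot, mem_lat_bot]
      exact ⟨fun h => ⟨h, fun _ => h⟩, fun h => h.1⟩
    · rw [mem_deg0, H p σ (nonempty_iff_ne_empty.2 h)]
      rfl
  have cm : ∀ (p : ℤ) (y : Ch ι (Fm n Ω)), ev (pd n p) (cech 0 y) = cech 0 (ev (pd n p) y) :=
    fun p y => DFunLike.congr_fun ((hC ι (Fm n Ω)).kos_ev 0 (pd n p) (fun _ => 1) univ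
      (Commute.zero_right _) fun _ _ => Commute.one_right _).eq y
  refine (hF (Algebra.adjoin k (Set.range x)) (Ch ι (Fm n Ω))).ds (Fin (n + 1)) (Ch ι (Fm n Ω))
    (fun p => ev (pd n ((p : ℕ) : ℤ))) (fun p => ev (pd n ((p : ℕ) : ℤ))) (fun _ => cech 0) (cech 0)
    (fun p => lat fun σ : Finset ι => if σ = ∅ then ⊥ else
      deg0 (gsp _ Y (g ((p : ℕ) : ℤ)) (e ((p : ℕ) : ℤ)) 0 σ)) (fun _ => ⊥) _ _
    (fun p => ((p : ℕ) : ℤ)) j (fun p a y => ?_) (fun y => ?_) (fun p y => cm _ y)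
    (fun p y => (cm _ y).symm) (fun p i y hy => ?_) (fun p i y hy => ?_) (fun p i y hy => ?_)
    (fun p i y hy => ?_) fun p => h1 _ ι _ _ Y _ _ 0 _
  · funext σ
    exact fo.lin_pd _ (a : Ω) (y σ)
  · funext σ
    rw [Finset.sum_apply]
    exact sum_pd (y σ)
  · rw [mem_lat]
    intro σ
    have h := (S.mem_T _ _ _).1 hy σ
    have h' := lm.pure _ _ _ _ h
    rw [key]
    change pd n _ (y σ) ∈ _ ∧ (_ → pd n _ (y σ) = 0)
    by_cases hp : ((p : ℕ) : ℤ) = i - σ.card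
    · rw [hp, h']
      exact ⟨h, fun h => (h (by ring)).elim⟩
    · have : pd n ((p : ℕ) : ℤ) (y σ) = 0 := by
        rw [← h', ← op_mul, fo.pd_gr.orth, if_neg hp, op_zero]
      rw [this]
      exact ⟨zero_mem _, fun _ => rfl⟩
  · rw [mem_lat_bot] at hy ⊢
    rw [hy, map_zero]
  · rw [S.mem_T]
    intro σ
    obtain ⟨h, h'⟩ := (key _ _ _ _).1 ((mem_lat _ _ _).1 hy σ)
    change pd n _ (y σ) ∈ _
    by_cases hp : i - σ.card = ((p : ℕ) : ℤ)
    · rw [hp, lm.pure _ _ _ _ h]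
      exact h
    · rw [h' fun h => hp (by linarith), map_zero]
      exact zero_mem _
  · rw [mem_lat_bot] at hy ⊢
    rw [hy, map_zero]

end Pool.Agent.MP_ee8c61_ag.H59
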