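import Pool.Agent.MP_ee8c61_ag.H59.SpecA

/-!
Row `Td`: isotropic subvarieties of the cotangent bundle have at most half the dimension.
-/

namespace Pool.Agent.MP_ee8c61_ag.H59

namespace TdX

open MvPolynomial

/-- Field extensions in characteristic zero are formally smooth. -/
theorem smooth_field (F K : Type) [Field F] [Field K] [Algebra F K] [CharZero F] :
    Algebra.FormallySmooth F K := by
  obtain ⟨s, hs⟩ := exists_isTranscendenceBasis F K
  have h1 := hs.isAlgebraic_field
  have : CharZero (IntermediateField.adjoin F (Set.range ((↑) : s → K))) :=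
    algebraRat.charZero _
  exact Algebra.FormallySmooth.of_algebraicIndependent_of_isSeparable hs.1

/-- Dual numbers, as a new type. -/
def T (K : Type) [Field K] : Type := TrivSqZeroExt K K

noncomputable instance (K : Type) [Field K] : CommRing (T K) :=
  inferInstanceAs (CommRing (TrivSqZeroExt K K))

theorem exists_der (K : Type) [Field K] [Algebra ℂ K] {ι : Type} (u : ι → K)
    (hu : AlgebraicIndependent ℂ u) (w : ι → K) :
    ∃ δ : Derivation ℂ K K, ∀ j, δ (u j) = w j := by
  let P := MvPolynomial ι ℂ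
  let : Algebra P K := (aeval u : P →ₐ[ℂ] K).toRingHom.toAlgebra
  have hP : ∀ p : P, algebraMap P K p = aeval u p := fun _ => rfl
  have hinj : Function.Injective (algebraMap P K) := hu
  have : FaithfulSMul P K := (faithfulSMul_iff_algebraMap_injective P K).2 hinj
  let : Algebra (FractionRing P) K := FractionRing.liftAlgebra P K
  have : IsScalarTower P (FractionRing P) K := FractionRing.isScalarTower_liftAlgebra P K
  have : Algebra.FormallySmooth (FractionRing P) K := smooth_field _ _
  have : Algebra.FormallySmooth P (FractionRing P) :=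
    Algebra.FormallySmooth.of_isLocalization (nonZeroDivisors P)
  have : Algebra.FormallySmooth P K := Algebra.FormallySmooth.comp P (FractionRing P) K
  let ψ : P →ₐ[ℂ] TrivSqZeroExt K K :=
    aeval (fun j => TrivSqZeroExt.inl (u j) + TrivSqZeroExt.inr (w j))
  let ψ' : P →+* T K := ψ.toRingHom
  let : Algebra P (T K) := ψ'.toAlgebra
  have hfst : ∀ p : P, (ψ p).fst = aeval u p := by
    intro p
    have : (TrivSqZeroExt.fstHom ℂ K K).comp ψ = aeval u := by
      apply MvPolynomial.algHom_ext
      intro j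
      simp [ψ]
    exact DFunLike.congr_fun this p
  let g0 : T K →+* K := (TrivSqZeroExt.fstHom ℂ K K).toRingHom
  let g : T K →ₐ[P] K := { g0 with commutes' := fun p => hfst p }
  have hg : Function.Surjective g := fun k => ⟨(TrivSqZeroExt.inl k : TrivSqZeroExt K K), rfl⟩
  have hnil : IsNilpotent (RingHom.ker (g : T K →+* K)) := by
    refine ⟨2, ?_⟩
    rw [pow_two, Ideal.zero_eq_bot, eq_bot_iff, Ideal.mul_le]
    intro a ha b hb
    have key : ∀ a b : TrivSqZeroExt K K, a.fst = 0 → b.fst = 0 → a * b = 0 := by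
      intro a b ha' hb'
      apply TrivSqZeroExt.ext
      · rw [TrivSqZeroExt.fst_mul, ha', zero_mul]; rfl
      · rw [TrivSqZeroExt.snd_mul, ha', hb']; simp
    exact key a b ha hb
  let s : K →ₐ[P] T K := Algebra.FormallySmooth.liftOfSurjective (AlgHom.id P K) g hg hnil
  have hs : ∀ k, g (s k) = k := fun k =>
    Algebra.FormallySmooth.liftOfSurjective_apply (AlgHom.id P K) g hg hnil k
  let s' : K →+* TrivSqZeroExt K K := s.toRingHom
  have hs1 : ∀ k, (s' k).fst = k := hs
  have hs2 : ∀ p : P, s' (aeval u p) = ψ p := fun p => s.commutes p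
  have hmul : ∀ a b, (s' (a * b)).snd = a * (s' b).snd + b * (s' a).snd := by
    intro a b
    rw [map_mul, TrivSqZeroExt.snd_mul, hs1, hs1]
    simp [mul_comm]
  have hc : ∀ c : ℂ, (s' (algebraMap ℂ K c)).snd = 0 := by
    intro c
    have h1 := hs2 (C c)
    rw [aeval_C] at h1
    have h2 : ψ (C c) = algebraMap ℂ (TrivSqZeroExt K K) c := aeval_C _ c
    rw [h1, h2, TrivSqZeroExt.algebraMap_eq_inl', TrivSqZeroExt.snd_inl]
  let d : K →ₗ[ℂ] K :=
    { toFun := fun k => (s' k).snd
      map_add' := fun a b => by rw [map_add, TrivSqZeroExt.snd_add]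
      map_smul' := fun c a => by
        rw [Algebra.smul_def, hmul, hc, RingHom.id_apply, Algebra.smul_def]; ring }
  refine ⟨Derivation.mk' d (fun a b => hmul a b), fun j => ?_⟩
  have h1 := hs2 (X j)
  rw [aeval_X] at h1
  show (s' (u j)).snd = w j
  have h2 : ψ (X j) = TrivSqZeroExt.inl (u j) + TrivSqZeroExt.inr (w j) := aeval_X _ j
  rw [h1, h2, TrivSqZeroExt.snd_add, TrivSqZeroExt.snd_inl, TrivSqZeroExt.snd_inr, zero_add]

/-- An isotropic independent family in `K ^ m × K ^ m` has at most `m` members. -/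
theorem isotropic (K : Type) [Field K] (m : ℕ) (a b : Fin (m + 1) → Fin m → K)
    (hiso : ∀ i j, ∑ l, a i l * b j l = ∑ l, a j l * b i l)
    (hind : ∀ c : Fin (m + 1) → K, (∀ l, ∑ i, c i * a i l = 0) → (∀ l, ∑ i, c i * b i l = 0) →
      ∀ i, c i = 0) : False := by
  let M : Matrix (Fin (m + 1)) (Fin m ⊕ Fin m) K := Matrix.of fun i => Sum.elim (a i) (b i)
  let N : Matrix (Fin (m + 1)) (Fin m ⊕ Fin m) K := Matrix.of fun i => Sum.elim (b i) (-a i)
  have hMN : M * N.transpose = 0 := by
    ext i j
    simp [M, N, Matrix.mul_apply, Fintype.sum_sum_type, hiso i j, mul_comm]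
  have hM : LinearIndependent K M.row := by
    rw [Fintype.linearIndependent_iff]
    intro c hc
    refine hind c (fun l => ?_) (fun l => ?_)
    · simpa [M, Finset.sum_apply] using congrFun hc (Sum.inl l)
    · simpa [M, Finset.sum_apply] using congrFun hc (Sum.inr l)
  have hN : LinearIndependent K N.row := by
    rw [Fintype.linearIndependent_iff]
    intro c hc
    refine hind c (fun l => ?_) (fun l => ?_)
    · simpa [N, Finset.sum_apply] using congrFun hc (Sum.inr l)
    · simpa [N, Finset.sum_apply] using congrFun hc (Sum.inl l)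
  have h := Matrix.rank_add_rank_le_card_of_mul_eq_zero hMN
  rw [Matrix.rank_transpose, hM.rank_matrix, hN.rank_matrix] at h
  simp at h
  omega

end TdX

theorem rowTd : STd := by
  intro A K m _ _ _ _ _ φ x ξ H u hu hind
  have H1 : ∀ δ : Derivation ℂ K K, ∑ l, ξ l * δ (φ (x l)) = 0 := by
    intro δ
    refine H ((δ : K →ₗ[ℂ] K).comp φ.toLinearMap) (fun g h => ?_) (fun g hg => ?_)
    · simp [Derivation.leibniz]
    · simp [hg]
  have H2 : ∀ δ1 δ2 : Derivation ℂ K K,
      ∑ l, δ1 (φ (x l)) * δ2 (ξ l) = ∑ l, δ2 (φ (x l)) * δ1 (ξ l) := by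
    intro δ1 δ2
    have e1 := congrArg δ1 (H1 δ2)
    have e2 := congrArg δ2 (H1 δ1)
    have e3 := H1 ⁅δ1, δ2⁆
    simp only [map_sum, map_zero, Derivation.leibniz, smul_eq_mul, Derivation.commutator_apply,
      Finset.sum_add_distrib, mul_sub, Finset.sum_sub_distrib] at e1 e2 e3
    linear_combination e2 - e1 + e3
  choose δ hδ using fun i : Fin (m + 1) => TdX.exists_der K u hind (Pi.single i 1)
  refine TdX.isotropic K m (fun i l => δ i (φ (x l))) (fun i l => δ i (ξ l))
    (fun i j => H2 _ _) (fun c h1 h2 j => ?_)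
  have h0 : ∀ (s : Finset (Fin (m + 1))) (y : K),
      (∑ i ∈ s, c i • δ i : Derivation ℂ K K) y = ∑ i ∈ s, c i * δ i y := by
    intro s y
    induction s using Finset.induction_on with
    | empty => simp
    | insert i s hi ih => simp [Finset.sum_insert hi, ih]
  have h3 : Set.EqOn (∑ i, c i • δ i : Derivation ℂ K K) (0 : Derivation ℂ K K)
      (Set.range (fun l => φ (x l)) ∪ Set.range ξ) := by
    rintro y (⟨l, rfl⟩ | ⟨l, rfl⟩)
    · simpa [h0] using h1 l
    · simpa [h0] using h2 l
  have h4 := Derivation.eqOn_adjoin h3 (hu j)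
  simpa [h0, hδ, Pi.single_apply] using h4

end Pool.Agent.MP_ee8c61_ag.H59
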