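import Pool.Agent.MP_ee8c61_ag.H59.SpecC

/-! Row TrC: from the model to the complex numbers. -/

namespace Pool.Agent.MP_ee8c61_ag.H59

open Finset Sys

namespace TrCX

theorem span_lat {ι M M' : Type} [Fintype ι] [LinearOrder ι] [AddCommGroup M] [AddCommGroup M']
    [Module ℂ M'] (φ : M →+ M') (Λ : Finset ι → Lat M) (Λ' : Finset ι → Lat M')
    (h : ∀ σ j, ∀ y ∈ Λ' σ j, y ∈ Submodule.span ℂ (φ '' (Λ σ j : Set M))) (j : ℤ) :
    ∀ y ∈ lat Λ' j, y ∈ Submodule.span ℂ (up φ '' (lat Λ j : Set (Ch ι M))) := fun y hy => by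
  rw [← univ_sum_single y]
  refine Submodule.sum_mem _ fun σ _ => ?_
  have k : Submodule.span ℂ (φ '' (Λ σ (j - σ.card) : Set M)) ≤
      (Submodule.span ℂ (up φ '' (lat Λ j : Set (Ch ι M)))).comap
        (LinearMap.single ℂ (fun _ => M') σ) := by
    rw [Submodule.span_le]
    rintro _ ⟨x, hx, rfl⟩
    refine Submodule.subset_span ⟨Pi.single σ x, (mem_lat _ _ _).2 fun τ => ?_, funext fun τ => ?_⟩
    · by_cases e : τ = σ
      · subst e; simpa using hx
      · simp [e]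
    · by_cases e : τ = σ
      · subst e; simp
      · simp [e]
  exact k (h σ _ _ ((mem_lat _ _ _).1 hy σ))

theorem cl {k Ω ι J κ : Type} {n : ℕ} [CommRing k] [CommRing Ω] [Algebra k Ω] [Fintype J]
    {S : Sys k Ω ι J n} (h : Lm S) (C : Finset (J → ℤ)) :
    Cl k (lat fun _ : Finset κ => S.T C) := fun j c x hx => (mem_lat _ _ _).2 fun τ => by
  have := h.mu_T C (algebraMap k Ω c) (fun a => Subalgebra.algebraMap_mem _ _) _ _
    ((mem_lat _ _ _).1 hx τ)
  rwa [mu_apply, algebraMap_smul] at this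

end TrCX

open TrCX in
theorem rowTrC : OfTrC := by
  intro hC hE hL hH hX O Ω ι J n m ℓ _ _ _ _ _ _ _ _ SO S ψ ex x x0 c h hV j hj
  have LO := hL _ O ι J n SO
  have LS := hL _ Ω ι J n S
  have H := hH _ O _ Ω ι J n SO S ex h.hom
  have h1 := hV j hj
  rw [LO.T_none, kl_bot, kl_univ] at h1
  rw [LS.T_none, kl_bot, kl_univ]
  refine hE ℓ _ _ ψ (up (up (up (ex : O →+ Ω)))) _ _ _ _ j h.inj (fun a y => ?_) (cl LO _)
    (fun a y => ?_) (cl LS _) (fun y => ?_) (fun y hy => ?_) ?_ (fun q a g h2 h3 => ?_) h1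
  · funext τ σ s
    change ex (a • y τ σ s) = ψ a • ex (y τ σ s)
    rw [Algebra.smul_def, Algebra.smul_def, map_mul, h.alg]
  · have := DFunLike.congr_fun ((hC (Fin m) _).kos_ev (cech 0) (mu _ (algebraMap ℂ Ω a))
      (fun l => mu (Ch ι (Fm n Ω)) (ex (x l) - algebraMap ℂ Ω (ψ (x0 l)))) univ (LS.lin0.comm _)
      fun _ _ => mu_comm _ _).eq y
    rw [op_mul, op_mul, ev_mu, mu_apply, mu_apply, algebraMap_smul, algebraMap_smul] at this
    exact this.symm
  · refine (hC (Fin m) _).up_kos _ _ _ _ _ _ _ (fun z => (hC ι (Fm n O)).up_kos (Fm n Ω)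
      (up (ex : O →+ Ω)) 0 0 (fun _ => 1) (fun _ => 1) univ (fun _ => map_zero _)
      (fun _ _ _ => rfl) z) (fun l _ z => ?_) y
    funext σ s
    change ex ((x l - algebraMap _ O (x0 l)) * z σ s) = (_ - _) * ex (z σ s)
    rw [map_mul, map_sub, h.alg]
  · exact (mem_lat _ _ _).2 fun τ => (S.mem_T _ _ _).2 fun σ =>
      H.lm c σ _ _ ((SO.mem_T _ _ _).1 ((mem_lat _ _ _).1 hy τ) σ)
  · exact span_lat _ _ _ (fun _ => span_lat _ _ _ (hX O Ω ι J n ℓ SO S ψ ex h c)) j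
  · funext i τ σ s
    refine congrFun (h.ld q a (fun i => g i τ σ s) h2 ?_) i
    simpa [Finset.sum_apply] using congrFun (congrFun (congrFun h3 τ) σ) s

end Pool.Agent.MP_ee8c61_ag.H59
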