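import Pool.Agent.MP_ee8c61_ag.H59.SpecC

/-! Transfer of the vanishing from the reduction to the integral model. -/

namespace Pool.Agent.MP_ee8c61_ag.H59

open Finset Sys

namespace TrOX

variable {ι M M' : Type} [AddCommGroup M] [AddCommGroup M'] (φ : M →+ M')
  {Λ : Finset ι → Lat M} {Λ' : Finset ι → Lat M'}

theorem lat_map (h : ∀ σ j, ∀ x ∈ Λ σ j, φ x ∈ Λ' σ j) (j : ℤ) :
    ∀ x ∈ lat Λ j, up φ x ∈ lat Λ' j :=
  fun _ hx => (mem_lat _ _ _).2 fun σ => h σ _ _ ((mem_lat _ _ _).1 hx σ)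

theorem lat_onto (h : ∀ σ j, ∀ y ∈ Λ' σ j, ∃ x ∈ Λ σ j, φ x = y) (j : ℤ) :
    ∀ y ∈ lat Λ' j, ∃ x ∈ lat Λ j, up φ x = y := fun y hy => by
  choose x h1 h2 using fun σ => h σ _ _ ((mem_lat _ _ _).1 hy σ)
  exact ⟨x, (mem_lat _ _ _).2 h1, funext h2⟩

theorem lat_ker (ℓ : ℕ) (h : ∀ σ j, ∀ x ∈ Λ σ j, φ x = 0 → ∃ x' ∈ Λ σ j, x = ℓ • x') (j : ℤ) :
    ∀ x ∈ lat Λ j, up φ x = 0 → ∃ x' ∈ lat Λ j, x = ℓ • x' := fun x hx e => by
  choose x' h1 h2 using fun σ => h σ _ _ ((mem_lat _ _ _).1 hx σ) (congrFun e σ)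
  exact ⟨x', (mem_lat _ _ _).2 h1, funext h2⟩

end TrOX

open TrOX in
theorem rowTrO : OfTrO := by
  intro hC hK hN hL hG hH hR O F ι J n m ℓ _ _ _ _ _ _ _ _ SO SF rd x x0 w ρ c hr hfg hp hv j hj
  have LO := hL _ _ _ _ _ SO
  have hv' := hv j hj
  rw [(hL _ _ _ _ _ SF).T_none, kl_bot, kl_univ] at hv'
  obtain ⟨t, ht⟩ : ∃ t : Fin m → O, t = fun l => x l - algebraMap ℤ_[ℓ] O (x0 l) := ⟨_, rfl⟩
  have tA : ∀ l a, t l ∈ SO.A a := fun l a =>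
    ht ▸ sub_mem (hp.x_mem a l) ((SO.A a).algebraMap_mem _)
  have pr := (hK _ _).pair _ _ _ _ _
    (LO.kok0 (Fin m) t univ {c} ∅ (fun _ h => absurd h (notMem_empty _)) fun l _ => tA l)
  have fg := (hG _ _ _ _ _ SO).fg m x x0 w ρ (Fin m) t (fun _ => 0) univ c j hfg hp
    (fun l _ a => by simpa using tA l a) fun l => ⟨l, mem_univ _, by rw [ht], rfl⟩
  rw [show SO.gk w c (fun _ : Fin m => 0) = fun _ => SO.T {c} from
    funext fun τ => by simp [Sys.gk]] at fg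
  rw [← ht]
  rw [LO.T_none, kl_bot, kl_univ] at pr ⊢
  rw [kl_univ] at fg
  refine hN ℓ _ _ (up (up (up (rd : O →+ F)))) _ _ _ _ j pr (fun a γ => ?_) (fun i a γ hγ => ?_)
    ((hC _ _).up_kos _ _ _ _ _ _ _ ((hC _ _).up_kos _ _ _ _ _ _ _ (fun _ => map_zero _)
      fun _ _ _ => rfl) fun l _ γ => ?_)
    (lat_map _ (fun _ => lat_map _ ((hH _ _ _ _ _ _ _ SO SF rd hr.hom).lm c)) j)
    (lat_onto _ (fun _ => lat_onto _ fun σ p => (hR _ _ _ _ _ _ SO SF rd hr c σ p).1) _)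
    (lat_ker _ ℓ (fun _ => lat_ker _ ℓ fun σ p => (hR _ _ _ _ _ _ SO SF rd hr c σ p).2) j)
    (fun γ e => ?_) fg hv'
  · have := (hC (Fin m) _).kos_ev _ _ (fun l => mu _ (t l)) univ
      (LO.lin0.comm (algebraMap ℤ_[ℓ] O a)) fun l _ => mu_comm _ _
    rw [← algebraMap_smul O, ← algebraMap_smul O a]
    exact (DFunLike.congr_fun this γ).symm
  · rw [← algebraMap_smul O]
    exact (mem_lat _ _ _).2 fun σ => LO.mu_T _ _ (fun b => (SO.A b).algebraMap_mem a) _ _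
      ((mem_lat _ _ _).1 hγ σ)
  · funext σ τ
    change rd (t l * γ σ τ) = (_ - _) * rd (γ σ τ)
    rw [map_mul, ht, map_sub, hr.alg]
  · funext σ τ υ
    exact hr.tf _ ((nsmul_eq_mul ℓ _).symm.trans (congrFun (congrFun (congrFun e σ) τ) υ))

end Pool.Agent.MP_ee8c61_ag.H59
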