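import Pool.Agent.MP_ee8c61_ag.H59.SpecA

/-!
The truncation argument.
-/

namespace Pool.Agent.MP_ee8c61_ag.H59

namespace TruncX

variable {G : Type} [AddCommGroup G] {D0 d : Op G} {π : ℤ → Op G}

theorem idem (h : Grading π) (p : ℤ) (x : G) : π p (π p x) = π p x := by
  simpa using DFunLike.congr_fun (h.orth p p) x

theorem pure (h : Grading π) {p r : ℤ} {x : G} (hx : π p x = x) (hr : r ≠ p) : π r x = 0 := by
  have := DFunLike.congr_fun (h.orth r p) x
  rwa [if_neg hr, op_mul, hx] at this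

theorem comp (h0 : ∀ p, D0 * π p = π p * D0) (h1 : ∀ p, d * π p = π (p + 1) * d) (r : ℤ) (y : G) :
    π r ((D0 + d) y) = D0 (π r y) + d (π (r - 1) y) := by
  have e0 := DFunLike.congr_fun (h0 r) y
  have e1 := DFunLike.congr_fun (h1 (r - 1)) y
  rw [sub_add_cancel] at e1
  simp only [op_mul] at e0 e1
  rw [op_add, map_add, e0, e1]

/-- Cocycles of degree at most `p` are boundaries of elements of degree at most `p`. -/
def Claim (D : Op G) (L : Lat G) (π : ℤ → Op G) (q p : ℤ) : Prop :=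
  ∀ j ≤ q, ∀ y ∈ L j, (∀ r, p < r → π r y = 0) → D y = 0 →
    ∃ z ∈ L (j - 1), (∀ r, p < r → π r z = 0) ∧ y = D z

end TruncX

open TruncX in
theorem rowTrunc : STrunc := by
  intro G G' _ _ D0 d D' L L' π π' Φ n q g g' P P' h0 h1 h' k k' hn hn' hm hc hz hs hi hv
  have cp := comp h0 h1
  have c' : ∀ p x, D' (π' p x) = π' p (D' x) := fun p x => DFunLike.congr_fun (h' p) x
  have key : ∀ p ≤ n, ∀ j, ∀ z ∈ L (j - 1), ∀ x ∈ L' j, π' (p : ℕ) x = x →
      π ((p : ℕ) + 1) z = 0 → π ((p : ℕ) + 1) ((D0 + d) z) = 0 →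
      π (p : ℕ) ((D0 + d) z) = π (p : ℕ) (Φ p x) →
      ∃ x' ∈ L' (j - 1), π' (p : ℕ) x' = x' ∧ x = D' x' ∧ ∃ w ∈ L (j - 1 - 1),
        π ((p : ℕ) - 1) w = w ∧ π (p : ℕ) z = π (p : ℕ) (Φ p x') + d w := by
    intro p hp j z hz1 x hx hx' e1 e2 e3
    rw [cp, e1, map_zero, zero_add, add_sub_cancel_right] at e2
    obtain ⟨x', a1, a2, w, a3, a4, a5⟩ := hs p hp (j - 1) _ (k _ _ _ hz1) (idem g _ _) e2
    refine ⟨x', a1, a2, sub_eq_zero.1 (hi p hp j _ (sub_mem hx (P'.stp j a1)) ?_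
      (π (p - 1) (z - Φ p x' - (D0 + d) w)) (k _ _ _ (sub_mem (sub_mem hz1 (hm p hp _ _ a1 a2))
        (P.stp _ a3))) (idem g _ _) ?_), w, a3, a4, a5⟩
    · rw [map_sub, ← c', hx', a2]
    · have b1 : π p (z - Φ p x' - (D0 + d) w) = 0 := by
        rw [map_sub, map_sub, cp, a4, pure g a4 (by omega), a5, map_zero]; abel
      have b2 := cp p (z - Φ p x' - (D0 + d) w)
      rw [b1, map_zero, zero_add, map_sub (D0 + d), map_sub (D0 + d), P.dd', sub_zero,
        hc p hp] at b2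
      rw [← b2, map_sub, map_sub, map_sub, e3]
  have down : ∀ p ≤ n, Claim (D0 + d) L π q (p : ℕ) → Claim (D0 + d) L π q ((p : ℕ) - 1) := by
    intro p hp H j hj y hy h2 h3
    obtain ⟨z, z1, z2, rfl⟩ := H j hj y hy (fun r hr => h2 r (by omega)) h3
    obtain ⟨x', a1, a2, a0, w, a3, a4, a5⟩ := key p hp j z z1 0 (zero_mem _) (map_zero _)
      (z2 _ (by omega)) (h2 _ (by omega)) (by rw [h2 _ (by omega), map_zero, map_zero])
    refine ⟨z - Φ p x' - (D0 + d) w, sub_mem (sub_mem z1 (hm p hp _ _ a1 a2)) (P.stp _ a3),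
      fun r hr => ?_, ?_⟩
    · rw [map_sub, map_sub, cp, pure g a4 (r := r) (by omega), map_zero]
      rcases eq_or_lt_of_le (show (p : ℤ) ≤ r by omega) with rfl | h4
      · rw [a4, a5]; abel
      · rw [z2 r h4, hz p hp x' r h4, pure g a4 (by omega), map_zero]; abel
    · rw [map_sub, map_sub, P.dd', hc p hp, ← a0, map_zero, sub_zero, sub_zero]
  have all : ∀ i p : ℕ, p + i = n → Claim (D0 + d) L π q p := by
    intro i
    induction i with
    | zero =>
      rintro p rfl j hj y hy - h3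
      obtain ⟨z, z1, z2⟩ := hv j hj y hy h3
      exact ⟨z, z1, fun r hr => by rw [hn r hr, op_zero], sub_eq_zero.1 z2⟩
    | succ i ih =>
      intro p hp
      simpa using down (p + 1) (by omega) (ih _ (by omega))
  intro j hj x hx hd
  have one : ∀ r, π' r x ∈ (L' (j - 1)).map D' := by
    intro r
    by_cases hr : r < 0 ∨ n < r
    · rw [hn' r hr]; exact zero_mem _
    · obtain ⟨p, rfl⟩ := Int.eq_ofNat_of_zero_le (show 0 ≤ r by omega)
      have hp : p ≤ n := by omega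
      obtain ⟨z, z1, z2, z3⟩ := all (n - p) p (by omega) j hj _
        (hm p hp j _ (k' _ _ _ hx) (idem g' _ _)) (hz p hp _)
        (by rw [hc p hp, c', (mem_lat_bot _ _).1 hd, map_zero, map_zero])
      obtain ⟨x', a1, -, a0, -⟩ := key p hp j z z1 _ (k' _ _ _ hx) (idem g' _ _)
        (z2 _ (by omega)) (by rw [← z3]; exact hz p hp _ _ (by omega)) (by rw [← z3])
      exact ⟨x', a1, a0.symm⟩
  obtain ⟨s, -, hs'⟩ := g'.fin x
  obtain ⟨y, y1, y2⟩ : x ∈ (L' (j - 1)).map D' := hs' ▸ sum_mem fun r _ => one r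
  exact ⟨y, y1, sub_eq_zero.2 y2.symm⟩

end Pool.Agent.MP_ee8c61_ag.H59
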