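import Pool.Agent.MP_ee8c61_ag.H59.SpecA

/-!
The depth argument when every coordinate is integral on cohomology.
-/

namespace Pool.Agent.MP_ee8c61_ag.H59

open Finset

namespace V1X

variable {Ω M κ : Type} [CommRing Ω] [AddCommGroup M] [Module Ω M] [LinearOrder κ]

/-- A linear complex whose lattices are stable under `B`. -/
structure Ok (B : Subring Ω) (d : Op M) (L L' : Lat M) : Prop where
  pair : Pair d L L'
  lin : Lin Ω d
  kp : ∀ b ∈ B, Keeps (mu M b) L L
  kp' : ∀ b ∈ B, Keeps (mu M b) L' L'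

variable {B : Subring Ω} {d : Op M} {L L' : Lat M}

theorem Ok.kok (h : Ok B d L L') (t : κ → Ω) (S : Finset κ) (ht : ∀ l ∈ S, t l ∈ B) :
    KOK d (fun l => mu M (t l)) S (fun _ => L) fun _ => L' :=
  ⟨fun _ => h.pair, fun _ _ => h.lin.comm _, fun _ _ _ _ => mu_comm _ _,
    fun i hi _ _ => h.kp _ (ht i hi), fun i hi _ _ => h.kp' _ (ht i hi)⟩

theorem Ok.kos (hC : SCar) (hO : SCone) (h : Ok B d L L') (t : κ → Ω) (S : Finset κ)
    (ht : ∀ l ∈ S, t l ∈ B) :
    Ok B (kos d (fun l => mu M (t l)) S) (kl S fun _ => L) (kl S fun _ => L') where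
  pair := (hO κ M).pair _ _ _ _ _ (h.kok t S ht)
  lin := fun c x => (DFunLike.congr_fun ((hC κ M).kos_ev d (mu M c) (fun l => mu M (t l)) S
    (h.lin.comm c) fun _ _ => mu_comm _ _).eq x).symm
  kp := fun b hb => (hO κ M).keeps (mu M b) S _ _ fun _ _ => h.kp b hb
  kp' := fun b hb => (hO κ M).keeps (mu M b) S _ _ fun _ _ => h.kp' b hb

theorem Ok.inj_pow (hX : SCx) (h : Ok B d L L') {b : Ω} (hb : b ∈ B) {j : ℤ}
    (hi : Inj d L L' L L' (mu M b) j) (n : ℕ) : Inj d L L' L L' (mu M (b ^ n)) j := by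
  induction n with
  | zero =>
    intro x _ _ a
    simpa using a
  | succ n ih =>
    rw [pow_succ, map_mul]
    exact (hX M).inj_mul d _ _ L L' L L' L L' j (h.lin.comm b) (h.kp b hb) (h.kp' b hb) hi ih

theorem Ok.inj_prod (hX : SCx) (h : Ok B d L L') {α : Type} (f : α → Ω) (hf : ∀ a, f a ∈ B)
    {j : ℤ} (hi : ∀ a, Inj d L L' L L' (mu M (f a)) j) (m : Multiset α) :
    Inj d L L' L L' (mu M (m.map f).prod) j := by
  induction m using Multiset.induction_on with
  | empty =>
    intro x _ _ a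
    simpa using a
  | cons a m ih =>
    rw [Multiset.map_cons, Multiset.prod_cons, mul_comm, map_mul]
    exact (hX M).inj_mul d _ _ L L' L L' L L' j (h.lin.comm _) (h.kp _ (hf a)) (h.kp' _ (hf a))
      (hi a) ih

theorem aeval_eq [Algebra ℂ Ω] (y : Ω) {g : Polynomial ℂ} (hg : g.Monic) :
    Polynomial.aeval y g = (g.roots.map fun a => y - algebraMap ℂ Ω a).prod := by
  have h := (IsAlgClosed.splits g).eq_prod_roots_of_monic hg
  conv_lhs => rw [h]
  rw [map_multiset_prod, Multiset.map_map]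
  congr 1
  refine Multiset.map_congr rfl fun a _ => ?_
  simp

theorem Ok.drop [Algebra ℂ Ω] (hC : SCar) (hX : SCx) (hO : SCone) (hF : SFilt)
    (h : Ok B d L L') (y : κ → Ω) (hy : ∀ i c, y i - algebraMap ℂ Ω c ∈ B)
    (hn : ∀ i, ∃ g : Polynomial ℂ, g.Monic ∧
      ∀ j, Null d L L' L L' (mu M (Polynomial.aeval (y i) g)) j) (Q : ℤ) (s : Finset κ) :
    (∀ y0 : κ → ℂ, ∀ j < Q, Van (H59.kos d (fun i => mu M (y i - algebraMap ℂ Ω (y0 i))) s)
      (kl s fun _ => L) (kl s fun _ => L') j) → ∀ j < Q, Van d L L' j := by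
  induction s using Finset.induction_on with
  | empty => exact fun hv j hj => ((hO κ M).emp d _ _ _ j).1 (hv 0 j hj)
  | insert i s hi ih =>
    intro hv
    refine ih fun y0 j hj => ?_
    obtain ⟨g, hg, hN⟩ := hn i
    have hK := h.kos hC hO (fun l => y l - algebraMap ℂ Ω (y0 l)) s fun l _ => hy l _
    have h1 : ∀ c : ℂ, Inj (H59.kos d (fun l => mu M (y l - algebraMap ℂ Ω (y0 l))) s)
        (kl s fun _ => L) (kl s fun _ => L') (kl s fun _ => L) (kl s fun _ => L')
        (mu (Ch κ M) (y i - algebraMap ℂ Ω c)) j := by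
      intro c
      have h0 := (hO κ M).inj d _ s i _ _ j hi
        (h.kok (fun l => y l - algebraMap ℂ Ω (Function.update y0 i c l)) _ fun l _ => hy l _)
        (hv (Function.update y0 i c) j hj)
      have e : H59.kos d (fun l => mu M (y l - algebraMap ℂ Ω (Function.update y0 i c l))) s =
          H59.kos d (fun l => mu M (y l - algebraMap ℂ Ω (y0 l))) s :=
        kos_congr d fun l hl => by
          have hne : l ≠ i := fun e => hi (e ▸ hl)
          rw [Function.update_of_ne hne]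
      rw [e, Function.update_self, ev_mu] at h0
      exact h0
    have hb : Polynomial.aeval (y i) g ∈ B := by
      rw [aeval_eq (y i) hg]
      refine B.multiset_prod_mem _ fun b hb => ?_
      obtain ⟨a, -, rfl⟩ := Multiset.mem_map.1 hb
      exact hy i a
    have h2 := hK.inj_prod hX (fun c => y i - algebraMap ℂ Ω c) (hy i) h1 g.roots
    rw [← aeval_eq (y i) hg] at h2
    have h2' := hK.inj_pow hX hb h2 (2 ^ s.card)
    have h3 := (hF κ M).null d (mu M (Polynomial.aeval (y i) g)) _ s _ _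
      (h.kok (fun l => y l - algebraMap ℂ Ω (y0 l)) s fun l _ => hy l _) (h.lin.comm _)
      (fun _ _ => mu_comm _ _) (fun _ => h.kp _ hb) (fun _ => h.kp' _ hb) (fun _ _ => hN) j
    rw [ev_mu, ← map_pow] at h3
    exact (hX _).van _ _ _ _ _ _ j h3 h2'

end V1X

open V1X in
theorem rowV1 : OfV1 := by
  intro hC hX hO hF Ω G κ _ _ _ _ _ _ D L L' y Q hk hn hv
  have h : Ok (Algebra.adjoin ℂ (Set.range y)).toSubring D L L' := ⟨hk.pair, hk.lin, hk.kp, hk.kp'⟩
  refine h.drop hC hX hO hF y (fun i c => ?_) hn Q univ hv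
  exact (Algebra.adjoin ℂ (Set.range y)).sub_mem (Algebra.subset_adjoin ⟨i, rfl⟩)
    ((Algebra.adjoin ℂ (Set.range y)).algebraMap_mem c)

end Pool.Agent.MP_ee8c61_ag.H59
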