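import Pool.Agent.MP_ee8c61_ag.H59.SpecA

/-!
Row V2: descent from the Koszul complexes at all points to the complex itself.
-/

namespace Pool.Agent.MP_ee8c61_ag.H59

open Finset

namespace V2X

theorem rank_ch (κ G : Type) [Fintype κ] [AddCommGroup G] [Module ℂ G]
    (h : Module.rank ℂ G ≤ Cardinal.aleph0) : Module.rank ℂ (Ch κ G) ≤ Cardinal.aleph0 := by
  rw [rank_fun_eq_lift_mul, Cardinal.lift_id]
  exact Cardinal.mul_le_of_le le_rfl (Cardinal.natCast_lt_aleph0.le) h

variable {Ω G κ : Type} [CommRing Ω] [Algebra ℂ Ω] [AddCommGroup G] [Module Ω G]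
  [LinearOrder κ] {D : Op G} {L L' : Lat G} {y : κ → Ω}

omit [LinearOrder κ] in
theorem mem_y (y : κ → Ω) (i : κ) : y i ∈ Algebra.adjoin ℂ (Set.range y) :=
  Algebra.subset_adjoin ⟨i, rfl⟩

omit [LinearOrder κ] in
theorem mem_sub (y : κ → Ω) (i : κ) (c : ℂ) :
    y i - algebraMap ℂ Ω c ∈ Algebra.adjoin ℂ (Set.range y) :=
  sub_mem (mem_y y i) (Subalgebra.algebraMap_mem _ c)

theorem kok (h : VOK D L L' y) (y0 : κ → ℂ) (s : Finset κ) :
    KOK D (fun i => mu G (y i - algebraMap ℂ Ω (y0 i))) s (fun _ => L) (fun _ => L') where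
  pair _ := h.pair
  cd _ _ := h.lin.comm _
  ct _ _ _ _ := mu_comm _ _
  kp i _ _ _ := h.kp _ (mem_sub y i _)
  kp' i _ _ _ := h.kp' _ (mem_sub y i _)

variable [Module ℂ G] [IsScalarTower ℂ Ω G]

omit [LinearOrder κ] in
theorem ev_alg (c : ℂ) (x : Ch κ G) : (ev (mu G (algebraMap ℂ Ω c)) : Op (Ch κ G)) x = c • x := by
  funext σ
  simp only [ev_apply, mu_apply, Pi.smul_apply, algebraMap_smul]

omit [LinearOrder κ] in
theorem ev_sub (g : Ω) (c : ℂ) : (ev (mu G (g - algebraMap ℂ Ω c)) : Op (Ch κ G)) =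
    ev (mu G g) - mu (Ch κ G) c := by
  refine op_ext fun x => ?_
  funext σ
  simp only [ev_apply, mu_apply, op_sub, Pi.sub_apply, Pi.smul_apply, sub_smul, algebraMap_smul]

omit [LinearOrder κ] in
theorem lin_of (T : Op (Ch κ G)) (h : ∀ c : ℂ, Commute (ev (mu G (algebraMap ℂ Ω c))) T) :
    Lin ℂ T := by
  intro c x
  have h1 := DFunLike.congr_fun (h c).eq x
  rw [op_mul, op_mul, ev_alg, ev_alg] at h1
  exact h1.symm

omit [LinearOrder κ] in
theorem cl_of (M : Lat (Ch κ G)) (h : ∀ c : ℂ, Keeps (ev (mu G (algebraMap ℂ Ω c))) M M) :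
    Cl ℂ M := by
  intro j c x hx
  have h1 := h c j x hx
  rwa [ev_alg] at h1

theorem step (hCar : SCar) (hCone : SCone) (hAm : SAm) [Fintype κ] (h : VOK D L L' y)
    (hr : Module.rank ℂ G ≤ Cardinal.aleph0) (s : Finset κ) (i : κ) (hi : i ∉ s) (Q : ℤ)
    (H : ∀ y0 : κ → ℂ, ∀ j < Q, Van (kos D (fun l => mu G (y l - algebraMap ℂ Ω (y0 l)))
      (insert i s)) (kl (insert i s) fun _ => L) (kl (insert i s) fun _ => L') j)
    (y0 : κ → ℂ) (j : ℤ) (hj : j < Q - 1) :
    Van (kos D (fun l => mu G (y l - algebraMap ℂ Ω (y0 l))) s) (kl s fun _ => L)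
      (kl s fun _ => L') j := by
  have hC := hCone κ G
  have hc : ∀ g : Ω, Commute (ev (mu G g) : Op (Ch κ G))
      (kos D (fun l => mu G (y l - algebraMap ℂ Ω (y0 l))) s) := fun g =>
    (hCar κ G).kos_ev D (mu G g) _ s (h.lin.comm g) fun _ _ => mu_comm _ _
  have hk : ∀ g ∈ Algebra.adjoin ℂ (Set.range y),
      Keeps (ev (mu G g) : Op (Ch κ G)) (kl s fun _ => L) (kl s fun _ => L) := fun g hg =>
    hC.keeps _ s _ _ fun _ _ => h.kp g hg
  have hk' : ∀ g ∈ Algebra.adjoin ℂ (Set.range y),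
      Keeps (ev (mu G g) : Op (Ch κ G)) (kl s fun _ => L') (kl s fun _ => L') := fun g hg =>
    hC.keeps _ s _ _ fun _ _ => h.kp' g hg
  refine hAm (Ch κ G) _ (ev (mu G (y i))) _ _ j (rank_ch κ G hr) (hC.pair _ _ _ _ _ (kok h y0 s))
    (lin_of _ fun c => hc _) (lin_of _ fun c => (mu_comm _ _).map (evH κ G))
    (cl_of _ fun c => hk _ (Subalgebra.algebraMap_mem _ c))
    (cl_of _ fun c => hk' _ (Subalgebra.algebraMap_mem _ c)) (hc _) (hk _ (mem_y y i))
    (hk' _ (mem_y y i)) fun c => ?_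
  have he : kos D (fun l => mu G (y l - algebraMap ℂ Ω (Function.update y0 i c l))) s =
      kos D (fun l => mu G (y l - algebraMap ℂ Ω (y0 l))) s :=
    kos_congr D fun l hl => by rw [Function.update_of_ne (ne_of_mem_of_not_mem hl hi)]
  have h1 := hC.inj D _ s i _ _ j hi (kok h (Function.update y0 i c) _)
    (H (Function.update y0 i c) j (by omega))
  have h2 := hC.surj D _ s i _ _ j hi (kok h (Function.update y0 i c) _)
    (H (Function.update y0 i c) (j + 1) (by omega))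
  rw [he, Function.update_self, ev_sub] at h1 h2
  exact ⟨h1, h2⟩

end V2X

theorem rowV2 : OfV2 := by
  intro hCar hCone hAm Ω G κ _ _ _ _ _ _ _ _ D L L' y Q h hr hK j hj
  have key : ∀ t : Finset κ, ∀ y0 : κ → ℂ, ∀ j < Q - t.card,
      Van (kos D (fun l => mu G (y l - algebraMap ℂ Ω (y0 l))) tᶜ) (kl tᶜ fun _ => L)
        (kl tᶜ fun _ => L') j := by
    intro t
    induction t using Finset.induction_on with
    | empty =>
      intro y0 j hj
      rw [compl_empty]
      exact hK y0 j (by simpa using hj)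
    | insert i t hi ih =>
      intro y0 j hj
      have he : insert i (insert i t)ᶜ = tᶜ := by
        ext l
        by_cases hl : l = i
        · simp [hl, hi]
        · simp [hl]
      refine V2X.step hCar hCone hAm h hr _ i (by simp) (Q - t.card) (by rw [he]; exact ih) y0 j ?_
      rw [card_insert_of_notMem hi] at hj
      push_cast at hj
      omega
  have h1 := key univ (fun _ => 0) j (by rwa [card_univ])
  rw [compl_univ] at h1
  exact ((hCone κ G).emp _ _ _ _ _).1 h1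

end Pool.Agent.MP_ee8c61_ag.H59
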