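import Pool.Agent.MP_ee8c61_ag.H59.SpecC

/-!
Vanishing for the complex of the one-form.
-/

namespace Pool.Agent.MP_ee8c61_ag.H59

open Finset Sys

namespace VYX

open MvPolynomial

variable {Ω ι J : Type} {n m : ℕ} [CommRing Ω] [Algebra ℂ Ω] {S : Sys ℂ Ω ι J n}

theorem X_mem (c : ι) (o : Option (Fin m)) : (X o : PX m Ω) ∈ (S.px m).A c := fun e => by
  classical
  rw [coeff_X]
  split_ifs
  · exact one_mem _
  · exact zero_mem _

theorem yy_mem {x : Fin m → Ω} (hx : ∀ c l, x l ∈ S.A c) (c : ι) (i : Fin (m + (m + 1))) :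
    yy x i ∈ (S.px m).A c := by
  refine Fin.addCases (fun l => ?_) (fun o => ?_) i
  · rw [yy, Fin.addCases_left]
    exact C_mem_spol (hx c l)
  · rw [yy, Fin.addCases_right]
    exact X_mem c _

theorem adj_mem {x : Fin m → Ω} (hx : ∀ c l, x l ∈ S.A c) {g : PX m Ω}
    (hg : g ∈ Algebra.adjoin ℂ (Set.range (yy x))) (c : ι) : g ∈ (S.px m).A c :=
  Algebra.adjoin_le (S := (S.px m).A c) (by rintro _ ⟨i, rfl⟩; exact yy_mem hx c i) hg

theorem aeval_mem {x : Fin m → Ω} (hx : ∀ c l, x l ∈ S.A c) (c : ι)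
    (P : MvPolynomial (Fin (m + (m + 1))) ℂ) : aeval (yy x) P ∈ (S.px m).A c := by
  induction P using MvPolynomial.induction_on with
  | C r => rw [aeval_C]; exact Subalgebra.algebraMap_mem _ r
  | add p q hp hq => rw [map_add]; exact add_mem hp hq
  | mul_X p i hp => rw [map_mul, aeval_X]; exact mul_mem hp (yy_mem hx c i)

end VYX

open VYX in
theorem rowVY : OfVY := by
  intro hC hV hFo hLm hTh hSupp hKill hXi hRank Ω ι J n m _ _ _ _ _ _ S x f a hx hf hg C C' q e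
    hle he hN j hj
  have fo := hFo (PX m Ω) n
  have lm := hLm ℂ (PX m Ω) ι J n (S.px m)
  have th := hTh Ω ι J n m S x f a hx hf
  refine hV (PX m Ω) (Ch ι (Fm n (PX m Ω))) (Fin (m + (m + 1))) _ _ _ (yy x) (q + m + 2) m
    ⟨lm.pair _ C C' (fo.we_sq _) hle th.maps0, fun c γ => ?_,
      fun g h => lm.mu_T C g (adj_mem hx h), fun g h => lm.mu_T C' g (adj_mem hx h)⟩
    (hRank Ω ι J n m S hg) (fun u => ?_) (hXi Ω ι J n m S x f a hx hf C C' q hle hN) j (by omega)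
  · exact (DFunLike.congr_fun ((hC ι (Fm n (PX m Ω))).kos_ev (we (S.th x f)) (mu _ c)
      (fun _ => 1) univ ((fo.lin_we _).comm c) fun _ _ => Commute.one_right _).eq γ).symm
  · obtain ⟨Φ, h0, hΦ⟩ := hSupp Ω ι J n m S x f a hx hf hg.fg hg.et u
    exact ⟨Φ, h0, hKill ℂ (PX m Ω) ι J n (S.px m) (S.th x f) C C' (fun j => (a j : ℤ)) e _ th.mem
      hle (fun j => Int.natCast_nonneg _) he (fun c => aeval_mem hx c _) hΦ⟩

end Pool.Agent.MP_ee8c61_ag.H59
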