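import Pool.Agent.MP_ee8c61_ag.H59.SpecB

/-!
Integrality from the valuative criterion.
-/

set_option autoImplicit false

namespace Pool.Agent.MP_ee8c61_ag.H59

namespace ValX

theorem crit {B Ω K : Type} [CommRing B] [CommRing Ω] [Algebra B Ω] [Field K] (φ : Ω →+* K)
    (hφ : Function.Injective φ) (g : Ω)
    (h : ∀ V : ValuationSubring K, (∀ b, φ (algebraMap B Ω b) ∈ V) → φ g ∈ V) :
    IsIntegral B g := by
  let ψ := φ.comp (algebraMap B Ω)
  have h1 : φ g ∈ (integralClosure (Subring.closure (ψ.range : Set K)) K).toSubring := by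
    rw [← iInf_valuationSubring_superset, Subring.mem_iInf]
    exact fun V => h V.1 fun b => V.2 ⟨b, rfl⟩
  rw [Subring.closure_eq] at h1
  obtain ⟨p, hp, h0⟩ := h1
  obtain ⟨q, rfl, -, hq⟩ := Polynomial.lifts_and_degree_eq_and_monic
    (Polynomial.map_surjective _ ψ.rangeRestrict_surjective p) hp
  refine ⟨q, hq, hφ ?_⟩
  rw [Polynomial.eval₂_map] at h0
  rw [Polynomial.hom_eval₂, map_zero]
  exact h0

end ValX

theorem rowVal : SVal := by
  intro Ω ι J n m _ _ _ S x ρ _ h2 h3 a g hg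
  refine ValX.crit (algebraMap Ω (FractionRing Ω)) (IsFractionRing.injective _ _) g fun V hV => ?_
  obtain ⟨b, hb⟩ := h3 V (fun c => hV ⟨_, Subalgebra.algebraMap_mem _ c⟩)
    fun l => hV ⟨x l, Algebra.subset_adjoin (Or.inl ⟨l, rfl⟩)⟩
  obtain ⟨e, he⟩ := h2 a b g hg
  have h := mul_mem (pow_mem (hV ⟨_, Algebra.subset_adjoin (Or.inr ⟨b, rfl⟩)⟩) e) (hb _ he)
  have e1 : ((ρ b / ρ a : Ωˣ) : Ω) ^ e * ((((ρ a / ρ b) ^ e : Ωˣ) : Ω) * g) = g := by
    rw [← Units.val_pow_eq_pow_val, ← mul_assoc, ← Units.val_mul, ← mul_pow, div_mul_div_cancel,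
      div_self', one_pow, Units.val_one, one_mul]
  rw [← e1, map_mul, map_pow]
  exact h

end Pool.Agent.MP_ee8c61_ag.H59
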