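import Pool.Agent.MP_ee8c61_ag.H59.SpecA

/-! Complexes filtered by a weight. -/

namespace Pool.Agent.MP_ee8c61_ag.H59

namespace WtX

variable {G : Type} [AddCommGroup G] {π : ℤ → Op G} {D0 D1 : Op G} {L L' : Lat G}

theorem pp (h : Grading π) (w w' : ℤ) (x : G) : π w (π w' x) = if w = w' then π w x else 0 := by
  rw [← op_mul, h.orth]
  split_ifs <;> rfl

theorem all (h : Grading π) {N : AddSubgroup G} {x : G} (hx : ∀ w, π w x ∈ N) : x ∈ N := by
  obtain ⟨s, -, e⟩ := h.fin x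
  rw [e]
  exact sum_mem fun w _ => hx w

theorem c0 (h : WOK π D0 D1 L L') (w : ℤ) (x : G) : π w (D0 x) = D0 (π w x) :=
  (DFunLike.congr_fun (h.c0 w) x).symm

theorem comp (h : WOK π D0 D1 L L') (w : ℤ) (x : G) :
    π w ((D0 + D1) x) = D0 (π w x) + D1 (π (w + 1) x) := by
  rw [op_add, map_add, c0 h]
  exact congrArg _ (DFunLike.congr_fun (h.c1 w) x).symm

theorem comp' (h : WOK π D0 D1 L L') {w t : ℤ} (ht : t ≤ w) (x : G) :
    π w ((D0 + D1) (π t x)) = if w = t then D0 (π t x) else 0 := by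
  rw [comp h, pp h.gr, pp h.gr, if_neg (show w + 1 ≠ t by omega), map_zero, add_zero]
  split_ifs with e
  · rw [e]
  · exact map_zero _

theorem st0 (h : WOK π D0 D1 L L') {M : Lat G} (hk : ∀ w, Keeps (π w) M M)
    (hs : ∀ j, ∀ x ∈ M j, (D0 + D1) x ∈ M (j + 1)) (j : ℤ) (x : G) (hx : x ∈ M j) :
    D0 x ∈ M (j + 1) := all h.gr fun w => by
  have := hk w _ _ (hs _ _ (hk w _ _ hx))
  rwa [comp' h le_rfl, if_pos rfl, ← c0 h] at this

theorem pair (h : WOK π D0 D1 L L') : Pair D0 L L' := by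
  refine ⟨op_ext fun x => AddSubgroup.mem_bot.1 (all h.gr fun w => AddSubgroup.mem_bot.2 ?_),
    h.pair.le, st0 h h.kp h.pair.st, st0 h h.kp' h.pair.st'⟩
  have := comp h w ((D0 + D1) (π w x))
  rw [h.pair.dd', comp' h le_rfl, comp' h (show w ≤ w + 1 by omega), if_pos rfl,
    if_neg (by omega), map_zero, map_zero, add_zero] at this
  rw [op_mul, c0 h, c0 h, ← this]

theorem red (h : WOK π D0 D1 L L') {j : ℤ} (hv : Van D0 L L' j) (t : ℤ) (x : G) (hx : x ∈ L j)
    (h1 : ∀ w, t ≤ w → π w ((D0 + D1) x) ∈ L' (j + 1)) :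
    ∃ y ∈ L (j - 1), ∀ w, t ≤ w → π w (x - (D0 + D1) y) ∈ L' j := by
  obtain ⟨N, hN⟩ : ∃ N : ℕ, ∀ w, t + N ≤ w → π w x ∈ L' j := by
    obtain ⟨s, hs, -⟩ := h.gr.fin x
    obtain ⟨B, hB⟩ := s.bddAbove
    refine ⟨(B + 1 - t).toNat, fun w hw => ?_⟩
    rw [hs w fun e => by have := hB e; omega]
    exact zero_mem _
  induction N generalizing x with
  | zero => exact ⟨0, zero_mem _, fun w hw => by simpa using hN w (by simpa using hw)⟩
  | succ N ih =>
    have h2 := hN (t + N + 1) (by omega)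
    have h3 : D1 (π (t + N + 1) x) ∈ L' (j + 1) := by
      simpa using sub_mem (h.pair.st' _ _ h2) ((pair h).st' _ _ h2)
    have h4 := sub_mem (h1 (t + N) (by omega)) h3
    rw [comp h, add_sub_cancel_right] at h4
    obtain ⟨y, hy, e⟩ := hv _ (h.kp _ _ _ hx) h4
    have hy' := h.kp (t + N) _ _ hy
    obtain ⟨z, hz, e'⟩ := ih (x - (D0 + D1) (π (t + N) y)) (sub_mem hx (h.pair.stp _ hy'))
      (fun w hw => by rw [map_sub, h.pair.dd', sub_zero]; exact h1 w hw) fun w hw => by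
        rw [map_sub, comp' h hw]
        split_ifs with e1
        · subst e1
          have := h.kp' (t + N) _ _ e
          rwa [map_sub, pp h.gr, if_pos rfl, c0 h] at this
        · rw [sub_zero]
          exact hN w (by omega)
    exact ⟨π (t + N) y + z, add_mem hy' hz, fun w hw => by
      rw [map_add, ← sub_sub]; exact e' w hw⟩

end WtX

open WtX in
theorem rowWt : SWt := fun G _ => by
  refine ⟨fun π D0 D1 L L' h => pair h, fun π D0 D1 L L' j w0 h h0 hv x hx hd => ?_,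
    fun π D0 D1 L L' j w0 y η h hy hη e hv h0 => ?_⟩
  · obtain ⟨y, hy, e⟩ := red h hv w0 x hx fun w _ => h.kp' w _ _ hd
    exact ⟨y, hy, all h.gr fun w => (le_or_gt w0 w).elim (e w)
      (h0 _ (sub_mem hx (h.pair.stp _ hy)) w)⟩
  · obtain ⟨z, hz, e'⟩ := red h hv (w0 + 1) η hη fun w hw => by
      have := neg_mem (h.kp' w _ _ e)
      rw [map_sub, ← hy, pp h.gr, if_neg (by omega), zero_sub, neg_neg] at this
      rwa [sub_add_cancel]
    have := h.pair.stp' j (all h.gr fun w => (le_or_gt w w0).elim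
      (h0 _ (sub_mem hη (h.pair.stp _ hz)) w) fun hw => e' w hw)
    rw [map_sub, h.pair.dd', sub_zero] at this
    simpa only [sub_add_cancel] using add_mem e this

end Pool.Agent.MP_ee8c61_ag.H59
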