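import Pool.Agent.MP_ee8c61_ag.H59.SpecC

/-!
Vanishing for the Koszul complex of all coordinates.
-/

set_option autoImplicit false

namespace Pool.Agent.MP_ee8c61_ag.H59

open Finset Sys MvPolynomial

namespace XiX

theorem ev_comm {κ M : Type} [AddCommGroup M] {a b : Op M} (h : Commute a b) :
    Commute (ev a : Op (Ch κ M)) (ev b) := h.map (evH κ M)

theorem pd_sum {Ω : Type} {n : ℕ} [CommRing Ω] (F : Fo Ω n) :
    ∑ w ∈ Icc (-(n : ℤ)) 0, (pd n (-w) : Op (Fm n Ω)) = 1 := by
  refine op_ext fun x => funext fun σ => ?_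
  have h : σ.card ≤ n := by simpa using card_le_univ σ
  rw [op_sum, Finset.sum_apply, sum_eq_single (-(σ.card : ℤ))]
  · simp [pd]
  · intro w _ hw
    have : (σ.card : ℤ) ≠ -w := by omega
    simp [pd, this]
  · intro hw
    exact absurd (mem_Icc.2 ⟨by omega, by omega⟩) hw

theorem out {κ ι Ω : Type} {n : ℕ} [CommRing Ω] (F : Fo Ω n) {w : ℤ} (h : w < -n ∨ 0 < w)
    (x : Ch κ (Ch ι (Fm n Ω))) : ev (ev (pd n (-w))) x = 0 := by
  rw [F.pd_out (-w) (by omega)]
  rfl

theorem grading {κ ι Ω : Type} {n : ℕ} [CommRing Ω] (F : Fo Ω n) :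
    Grading fun w : ℤ => (ev (ev (pd n (-w))) : Op (Ch κ (Ch ι (Fm n Ω)))) := by
  let E := (evH κ (Ch ι (Fm n Ω))).comp (evH ι (Fm n Ω))
  refine ⟨fun w w' => ?_, fun x => ⟨Icc (-(n : ℤ)) 0, fun w hw => out F ?_ x, ?_⟩⟩
  · change E _ * E _ = if w = w' then E _ else 0
    rw [← map_mul, F.pd_gr.orth]
    by_cases h : w = w'
    · rw [if_pos h, if_pos (congrArg _ h)]
    · rw [if_neg h, if_neg (fun e => h (neg_injective e)), map_zero]
  · rw [mem_Icc] at hw
    omega
  · have := congrArg E (pd_sum F)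
    rw [map_sum, map_one] at this
    exact ((op_sum _ _ x).symm.trans (DFunLike.congr_fun this x)).symm

theorem cover (m k : ℕ) : (univ.map (Fin.castAddOrderEmb k).toEmbedding ∪
    univ.map (Fin.natAddOrderEmb m).toEmbedding : Finset (Fin (m + k))) = univ := by
  refine eq_univ_of_forall fun i => ?_
  refine Fin.addCases (fun l => mem_union_left _ ?_) (fun l => mem_union_right _ ?_) i
  · exact mem_map_of_mem _ (mem_univ l)
  · exact mem_map_of_mem _ (mem_univ l)

theorem disj (m k : ℕ) : Disjoint (univ.map (Fin.castAddOrderEmb k).toEmbedding)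
    (univ.map (Fin.natAddOrderEmb m).toEmbedding : Finset (Fin (m + k))) := by
  refine disjoint_left.2 fun i h h' => ?_
  obtain ⟨a, -, rfl⟩ := mem_map.1 h
  obtain ⟨b, -, e⟩ := mem_map.1 h'
  have : m + b.1 = a.1 := congrArg Fin.val e
  omega

theorem X_mem {k Ω κ : Type} [CommRing k] [CommRing Ω] [Algebra k Ω] (A : Subalgebra k Ω) (o : κ) :
    (X o : MvPolynomial κ Ω) ∈ spol κ A := fun e => by
  classical
  rw [coeff_X']
  split_ifs
  · exact one_mem _
  · exact zero_mem _

end XiX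

open XiX in
theorem rowXi : OfXi := by
  intro hC hW hK hR hL hD hF hM hP hT Ω ι J n m _ _ _ _ _ _ S x f a hx hf C C' q hle hv y0 j hj
  have F := hF (PX m Ω) n
  have M := hM ℂ (PX m Ω) ι J n (S.px m)
  have P := hP ℂ Ω ι J n S (Option (Fin m))
  have T := hT Ω ι J n m S x f a hx hf
  have C1 := hC ι (Fm n (PX m Ω))
  have C2 := hC (Fin (m + (m + 1))) (Ch ι (Fm n (PX m Ω)))
  set u : Fin (m + (m + 1)) → PX m Ω := fun i => yy x i - algebraMap ℂ _ (y0 i) with hu
  have u1 : ∀ l, u (Fin.castAdd _ l) =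
      MvPolynomial.C (x l - algebraMap ℂ Ω (y0 (Fin.castAdd _ l))) := fun l => by
    simp only [hu, yy, Fin.addCases_left, map_sub, MvPolynomial.algebraMap_apply]
  have u2 : ∀ o, u (Fin.natAdd _ o) =
      X (finSuccEquiv m o) - algebraMap ℂ _ (y0 (Fin.natAdd _ o)) := fun o => by
    simp only [hu, yy, Fin.addCases_right]
  have um : ∀ i, ∀ c, u i ∈ (S.px m).A c := fun i c => by
    refine Fin.addCases (fun l => ?_) (fun o => ?_) i
    · rw [u1]
      exact C_mem_spol (sub_mem (hx c l) (Subalgebra.algebraMap_mem _ _))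
    · rw [u2]
      exact sub_mem (X_mem _ _) (Subalgebra.algebraMap_mem _ _)
  have K0 := M.kok0 _ u univ C C' hle fun i _ => um i
  choose Δ d1 d2 d3 d4 using fun o : Fin (m + 1) =>
    hD Ω (Option (Fin m)) (finSuccEquiv m o) (y0 (Fin.natAdd _ o))
  have V0 : Van (kos (cech 0) (fun l => mu _ (u l)) univ) (kl univ fun _ => (S.px m).T C)
      (kl univ fun _ => (S.px m).T C') j := by
    rw [← cover m (m + 1)] at K0 ⊢
    refine hL _ _ _ _ (Fin.addCases (fun _ => 0) fun o => ev (ev (Δ o))) _ _ _ _ (q + 1)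
      (disj _ _) K0 (fun i hi => ?_) (fun j hj => ?_) j ?_
    · obtain ⟨o, -, rfl⟩ := mem_map.1 hi
      rw [show (Fin.natAddOrderEmb m).toEmbedding o = Fin.natAdd m o from rfl]
      simp only [Fin.addCases_right, u2]
      refine ⟨op_ext fun γ => funext fun σ => funext fun τ => d1 o _,
        C1.kos_ev _ _ _ _ (Commute.zero_right _) fun _ _ => Commute.one_right _,
        P.keeps _ (d3 o) (d4 o) C, P.keeps _ (d3 o) (d4 o) C', fun l _ => ?_⟩
      refine Fin.addCases (fun l _ => ?_) (fun o' h => ?_) l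
      · rw [u1]
        exact op_ext fun γ => funext fun σ => funext fun τ => d3 o _ _
      · rw [u2]
        refine op_ext fun γ => funext fun σ => funext fun τ => ?_
        change Δ o ((_ - _) * γ σ τ) = (_ - _) * Δ o (γ σ τ)
        rw [sub_mul, sub_mul, map_sub, MvPolynomial.algebraMap_apply, d3,
          d2 o _ fun e => h (congrArg (Fin.natAdd m) ((finSuccEquiv m).injective e))]
    · refine (hR _ _ _ (Fin.castAddOrderEmb (m + 1)) _ _ _ univ _ _ _ _ j (fun l _ => ?_)
        (fun _ _ => rfl) fun _ _ => rfl).1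
        (P.van _ _ _ C C' j (hv (fun l => y0 (Fin.castAdd _ l)) j (by omega)))
      exact congrArg (mu _) (u1 l)
    · rw [card_map, card_univ, Fintype.card_fin]
      push_cast
      omega
  have e : kos (cech (we (S.th x f))) (fun l => mu (Ch ι (Fm n (PX m Ω))) (u l)) univ =
      kos (cech 0) (fun l => mu _ (u l)) univ + od (od (we (S.th x f))) := by
    rw [← C2.kos_add, cech, cech, ← C1.kos_add, zero_add]
  have kp : ∀ (w : ℤ) C, Keeps (ev (ev (pd n w)))
      (kl (univ : Finset (Fin (m + (m + 1)))) fun _ => (S.px m).T C)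
      (kl univ fun _ => (S.px m).T C) := fun w C =>
    (hK _ _).keeps _ _ _ _ fun _ _ => by
      have := (hK ι _).keeps (pd n w) univ _ _ fun σ _ => M.pd C σ w
      rwa [kl_univ] at this
  change Van (kos _ (fun l => mu _ (u l)) univ) _ _ j
  rw [e]
  refine (hW _).van (fun w => ev (ev (pd n (-w)))) _ _ _ _ j (-n)
    ⟨grading F, ?_, fun w => ?_, fun w => ?_, fun w => kp _ C, fun w => kp _ C'⟩
    (fun γ _ w hw => ?_) V0
  · rw [← e]
    exact (hK _ _).pair _ _ _ _ _ ⟨fun _ => M.pair _ C C' (F.we_sq _) hle T.maps0,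
      fun i _ => C1.kos_ev _ (mu _ (u i)) _ _ ((F.lin_we _).comm _) fun _ _ => Commute.one_right _,
      K0.ct, K0.kp, K0.kp'⟩
  · exact (C2.kos_ev _ _ _ _
      (C1.kos_ev _ _ _ _ (Commute.zero_right _) fun _ _ => Commute.one_right _)
      fun i _ => ev_comm ((F.lin_pd _).comm (u i)).symm).symm
  · rw [C2.od_ev, C1.od_ev, C2.ev_od, C1.ev_od, F.pd_we, show -(w + 1) + 1 = -w by ring]
  · rw [out F (Or.inl hw)]
    exact zero_mem _

end Pool.Agent.MP_ee8c61_ag.H59
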