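import Pool.Agent.MP_ee8c61_ag.H59.Asm
import Pool.Agent.MP_ee8c61_ag.G34.RSp
import Pool.Agent.MP_ee8c61_ag.G34.Sy
import Pool.Agent.MP_ee8c61_ag.H59.RCar
import Pool.Agent.MP_ee8c61_ag.H59.RAp
import Pool.Agent.MP_ee8c61_ag.H59.RCx
import Pool.Agent.MP_ee8c61_ag.H59.RWt
import Pool.Agent.MP_ee8c61_ag.H59.RFg
import Pool.Agent.MP_ee8c61_ag.H59.RFgk
import Pool.Agent.MP_ee8c61_ag.H59.RCone
import Pool.Agent.MP_ee8c61_ag.H59.RFilt
import Pool.Agent.MP_ee8c61_ag.H59.RRi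
import Pool.Agent.MP_ee8c61_ag.H59.RSwap
import Pool.Agent.MP_ee8c61_ag.H59.RKx
import Pool.Agent.MP_ee8c61_ag.H59.RLeft
import Pool.Agent.MP_ee8c61_ag.H59.RReq
import Pool.Agent.MP_ee8c61_ag.H59.RAm
import Pool.Agent.MP_ee8c61_ag.H59.RStab
import Pool.Agent.MP_ee8c61_ag.H59.RNak
import Pool.Agent.MP_ee8c61_ag.H59.RExt
import Pool.Agent.MP_ee8c61_ag.H59.RV1
import Pool.Agent.MP_ee8c61_ag.H59.RV2
import Pool.Agent.MP_ee8c61_ag.H59.RV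
import Pool.Agent.MP_ee8c61_ag.H59.RMult
import Pool.Agent.MP_ee8c61_ag.H59.RTrunc
import Pool.Agent.MP_ee8c61_ag.H59.RT1f
import Pool.Agent.MP_ee8c61_ag.H59.RT1k
import Pool.Agent.MP_ee8c61_ag.H59.RT1
import Pool.Agent.MP_ee8c61_ag.H59.RMp
import Pool.Agent.MP_ee8c61_ag.H59.RTd
import Pool.Agent.MP_ee8c61_ag.H59.RDiv
import Pool.Agent.MP_ee8c61_ag.H59.RFo
import Pool.Agent.MP_ee8c61_ag.H59.RFd
import Pool.Agent.MP_ee8c61_ag.H59.RLa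
import Pool.Agent.MP_ee8c61_ag.H59.RDet
import Pool.Agent.MP_ee8c61_ag.H59.RFr
import Pool.Agent.MP_ee8c61_ag.H59.RLo
import Pool.Agent.MP_ee8c61_ag.H59.RLm
import Pool.Agent.MP_ee8c61_ag.H59.RHo
import Pool.Agent.MP_ee8c61_ag.H59.RPt
import Pool.Agent.MP_ee8c61_ag.H59.RInter
import Pool.Agent.MP_ee8c61_ag.H59.RNvK
import Pool.Agent.MP_ee8c61_ag.H59.RVal
import Pool.Agent.MP_ee8c61_ag.H59.RAdm
import Pool.Agent.MP_ee8c61_ag.H59.RT1g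
import Pool.Agent.MP_ee8c61_ag.H59.RT1s
import Pool.Agent.MP_ee8c61_ag.H59.RGk
import Pool.Agent.MP_ee8c61_ag.H59.RDepth
import Pool.Agent.MP_ee8c61_ag.H59.RELoc
import Pool.Agent.MP_ee8c61_ag.H59.REFin
import Pool.Agent.MP_ee8c61_ag.H59.REsz
import Pool.Agent.MP_ee8c61_ag.H59.RCart0
import Pool.Agent.MP_ee8c61_ag.H59.RCart
import Pool.Agent.MP_ee8c61_ag.H59.RMo
import Pool.Agent.MP_ee8c61_ag.H59.RPh1
import Pool.Agent.MP_ee8c61_ag.H59.RPh2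
import Pool.Agent.MP_ee8c61_ag.H59.RHara
import Pool.Agent.MP_ee8c61_ag.H59.RDi1
import Pool.Agent.MP_ee8c61_ag.H59.RDi
import Pool.Agent.MP_ee8c61_ag.H59.RNVl
import Pool.Agent.MP_ee8c61_ag.H59.RHm
import Pool.Agent.MP_ee8c61_ag.H59.RRedL
import Pool.Agent.MP_ee8c61_ag.H59.RExtL
import Pool.Agent.MP_ee8c61_ag.H59.RTrO
import Pool.Agent.MP_ee8c61_ag.H59.RTrC
import Pool.Agent.MP_ee8c61_ag.H59.RNV
import Pool.Agent.MP_ee8c61_ag.H59.RTh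
import Pool.Agent.MP_ee8c61_ag.H59.RGr
import Pool.Agent.MP_ee8c61_ag.H59.RDu
import Pool.Agent.MP_ee8c61_ag.H59.RSupp1
import Pool.Agent.MP_ee8c61_ag.H59.RSupp
import Pool.Agent.MP_ee8c61_ag.H59.RKill
import Pool.Agent.MP_ee8c61_ag.H59.RXi
import Pool.Agent.MP_ee8c61_ag.H59.RRank
import Pool.Agent.MP_ee8c61_ag.H59.RVY
import Pool.Agent.MP_ee8c61_ag.H59.REta
import Pool.Agent.MP_ee8c61_ag.H59.RNon
import Pool.Agent.MP_ee8c61_ag.H59.RMain0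
import Pool.Agent.MP_ee8c61_ag.H59.RMain

/-!
The main theorem for systems of charts.
-/

namespace Pool.Agent.MP_ee8c61_ag.H59

theorem rows : Rows where
  Car := rowCar
  Ap := rowAp
  Cx := rowCx
  Wt := rowWt
  Fg := rowFg
  Fgk := rowFgk
  Cone := rowCone
  Filt := rowFilt
  Ri := rowRi
  Swap := rowSwap
  Kx := rowKx
  Left := rowLeft
  Req := rowReq
  Am := rowAm
  Stab := rowStab
  Nak := rowNak
  Ext := rowExt
  V1 := rowV1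
  V2 := rowV2
  V := rowV
  Mult := rowMult
  Trunc := rowTrunc
  T1f := rowT1f
  T1k := rowT1k
  T1 := rowT1
  Mp := rowMp
  Td := rowTd
  Div := rowDiv
  Fo := rowFo
  Fd := rowFd
  La := rowLa
  Det := rowDet
  Fr := rowFr
  Lo := rowLo
  Lm := rowLm
  Ho := rowHo
  Pt := rowPt
  Reg := fun _ _ _ _ _ _ _ _ _ _ h => G34.reg h
  Inter := rowInter
  NvK := rowNvK
  Val := rowVal
  Adm := rowAdm
  T1g := rowT1g
  T1s := rowT1s
  Gk := rowGk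
  Depth := rowDepth
  ELoc := rowELoc
  EFin := rowEFin
  Esz := rowEsz
  Cart0 := rowCart0
  Cart := rowCart
  Mo := rowMo
  Ph1 := rowPh1
  Ph2 := rowPh2
  Hara := rowHara
  Di1 := rowDi1
  Di := rowDi
  Span := fun _ _ _ _ ℓ _ _ _ S h => G34.span_all ℓ S h
  NVl := rowNVl
  Hm := rowHm
  RedL := rowRedL
  ExtL := rowExtL
  TrO := rowTrO
  TrC := rowTrC
  NV := rowNV
  Th := rowTh
  Gr := rowGr
  Du := rowDu
  Supp1 := rowSupp1
  Supp := rowSupp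
  Kill := rowKill
  Xi := rowXi
  Rank := rowRank
  VY := rowVY
  Eta := rowEta
  Non := rowNon
  Main0 := rowMain0
  Main := rowMain

theorem smain : SMain := main_of rows rowSpread

end Pool.Agent.MP_ee8c61_ag.H59
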