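import Pool.Agent.MP_ee8c61_ag.H59.SpecC

/-!
Assembly of the tasks.
-/

namespace Pool.Agent.MP_ee8c61_ag.H59

structure Rows : Prop where
  Car : SCar
  Ap : SAp
  Cx : SCx
  Wt : SWt
  Fg : SFg
  Fgk : SFgk
  Cone : OfCone
  Filt : OfFilt
  Ri : OfRi
  Swap : OfSwap
  Kx : OfKx
  Left : OfLeft
  Req : OfReq
  Am : SAm
  Stab : SStab
  Nak : SNak
  Ext : SExt
  V1 : OfV1
  V2 : OfV2
  V : OfV
  Mult : OfMult
  Trunc : STrunc
  T1f : OfT1f
  T1k : ST1k
  T1 : OfT1
  Mp : SMp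
  Td : STd
  Div : SDiv
  Fo : OfFo
  Fd : OfFd
  La : OfLa
  Det : OfDet
  Fr : OfFr
  Lo : OfLo
  Lm : OfLm
  Ho : OfHo
  Pt : OfPt
  Reg : SReg
  Inter : OfInter
  NvK : OfNvK
  Val : SVal
  Adm : OfAdm
  T1g : OfT1g
  T1s : OfT1s
  Gk : OfGk
  Depth : OfDepth
  ELoc : OfELoc
  EFin : OfEFin
  Esz : OfEsz
  Cart0 : OfCart0
  Cart : OfCart
  Mo : OfMo
  Ph1 : OfPh1
  Ph2 : OfPh2
  Hara : OfHara
  Di1 : OfDi1
  Di : OfDi
  Span : SSpan
  NVl : OfNVl
  Hm : OfHm
  RedL : OfRedL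
  ExtL : OfExtL
  TrO : OfTrO
  TrC : OfTrC
  NV : OfNV
  Th : OfTh
  Gr : OfGr
  Du : SDu
  Supp1 : OfSupp1
  Supp : OfSupp
  Kill : OfKill
  Xi : OfXi
  Rank : SRank
  VY : OfVY
  Eta : OfEta
  Non : OfNon
  Main0 : OfMain0
  Main : OfMain

theorem main_of (r : Rows) (hS : SSpread) : SMain := by
  have car := r.Car
  have cx := r.Cx
  have cone := r.Cone car cx
  have filt := r.Filt car cx r.Fg cone
  have ri := r.Ri car
  have swap := r.Swap car cx cone filt
  have kx := r.Kx car cx cone filt swap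
  have left := r.Left car cone
  have req := r.Req car cone
  have v := r.V car cx cone filt swap (r.V1 car cx cone filt) (r.V2 car cone r.Am)
  have mult := r.Mult car r.Ap cx cone filt
  have t1 := r.T1 car cone r.Fg (r.T1f car cx r.Fg) r.T1k
  have fo := r.Fo car
  have fd := r.Fd car fo
  have la := r.La car r.Ap fo
  have det := r.Det car r.Ap fo la
  have fr := r.Fr car fo fd la
  have lo := r.Lo fr
  have lm := r.Lm car cone fo la fr lo
  have ho := r.Ho car fo fd la fr lo lm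
  have pt := r.Pt car cx fo la fr lo lm
  have nvk := r.NvK cx cone lm (r.Inter fo fr lo lm)
  have adm := r.Adm fr lo r.Val
  have t1s := r.T1s car r.Fg t1 fo lm (r.T1g fo la fr lo lm)
  have gk := r.Gk car r.Fgk cone filt fr lo lm t1s
  have eloc := r.ELoc car cx cone swap fo la fr lo lm (r.Depth kx req lo)
  have esz := r.Esz car cone ri r.Stab fo fr lo lm gk eloc (r.EFin r.Mp)
  have cart := r.Cart fo la fr lo lm (r.Cart0 car fo)
  have mo := r.Mo car fo fd fr lo lm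
  have ph1 := r.Ph1 car fo fd fr mo
  have ph2 := r.Ph2 car fo la fr lo lm mo ph1
  have hara := r.Hara car cx cone filt fd lm ho mo
  have di := r.Di car cone r.Trunc fo lm cart ph1 ph2 hara
    (r.Di1 car cx r.Wt cone kx fo lm hara)
  have hm := r.Hm fo la lo lm
  have nv := r.NV hS (r.NVl r.Reg r.Span esz di)
    (r.TrO car cone r.Nak lm gk hm (r.RedL fo fr lo lm hm))
    (r.TrC car r.Ext lm hm (r.ExtL fo la fr lo lm hm))
  have th := r.Th car fo fd fr lo lm ho pt
  have gr := r.Gr car fo lm pt th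
  have supp := r.Supp r.Mp fr pt th (r.Supp1 r.Td r.Du fr pt th)
  have vy := r.VY car v fo lm th supp (r.Kill car cx cone filt fo fr lo lm)
    (r.Xi car r.Wt cone ri left r.Div fo lm pt th) r.Rank
  exact r.Main cx cone lm r.Reg nvk adm nv vy (r.Main0 r.Ap r.Wt mult lm ho th gr
    (r.Eta car fo fd la det fr lo lm pt) (r.Non car r.Ap fo la det fr lo lm pt))

end Pool.Agent.MP_ee8c61_ag.H59
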