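import Mathlib

/-!
Complexes given by an operator and lattices, cochains on finite sets, and differential forms.
-/

namespace Pool.Agent.MP_ee8c61_ag.H59

open Finset

abbrev Op (G : Type) [AddCommGroup G] : Type := AddMonoid.End G

abbrev Lat (G : Type) [AddCommGroup G] : Type := ℤ → AddSubgroup G

section Cx

variable {G : Type} [AddCommGroup G]

/-- `L / L'` is a complex with differential `D`. -/
structure Pair (D : Op G) (L L' : Lat G) : Prop where
  dd : D * D = 0
  le : ∀ j, L' j ≤ L j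
  st : ∀ j, ∀ x ∈ L j, D x ∈ L (j + 1)
  st' : ∀ j, ∀ x ∈ L' j, D x ∈ L' (j + 1)

/-- `g` sends `L j` to `M (j + e)`. -/
def Maps (g : Op G) (L M : Lat G) (e : ℤ) : Prop := ∀ j, ∀ x ∈ L j, g x ∈ M (j + e)

/-- `g` sends `L j` to `M j`. -/
def Keeps (g : Op G) (L M : Lat G) : Prop := ∀ j, ∀ x ∈ L j, g x ∈ M j

/-- The cohomology of `L / L'` vanishes in degree `j`. -/
def Van (D : Op G) (L L' : Lat G) (j : ℤ) : Prop :=
  ∀ x ∈ L j, D x ∈ L' (j + 1) → ∃ y ∈ L (j - 1), x - D y ∈ L' j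

/-- `g` induces zero from the cohomology of `L / L'` to that of `M / M'`. -/
def Null (D : Op G) (L L' M M' : Lat G) (g : Op G) (j : ℤ) : Prop :=
  ∀ x ∈ L j, D x ∈ L' (j + 1) → ∃ y ∈ M (j - 1), g x - D y ∈ M' j

def Inj (D : Op G) (L L' M M' : Lat G) (g : Op G) (j : ℤ) : Prop :=
  ∀ x ∈ L j, D x ∈ L' (j + 1) → (∃ y ∈ M (j - 1), g x - D y ∈ M' j) →
    ∃ y ∈ L (j - 1), x - D y ∈ L' j

def Surj (D : Op G) (L L' M M' : Lat G) (g : Op G) (j : ℤ) : Prop :=
  ∀ x ∈ M j, D x ∈ M' (j + 1) → ∃ x' ∈ L j, D x' ∈ L' (j + 1) ∧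
    ∃ y ∈ M (j - 1), x - g x' - D y ∈ M' j

/-- The cohomology of `L / L'` in degree `j` is finitely generated over `R`. -/
def FG (R : Type) [CommRing R] [Module R G] (D : Op G) (L L' : Lat G) (j : ℤ) : Prop :=
  ∃ s : Finset G, (∀ x ∈ s, x ∈ L j ∧ D x ∈ L' (j + 1)) ∧ ∀ x ∈ L j, D x ∈ L' (j + 1) →
    ∃ y ∈ L (j - 1), ∃ w ∈ Submodule.span R (s : Set G), x - w - D y ∈ L' j

def Lin (R : Type) [CommRing R] [Module R G] (g : Op G) : Prop :=
  ∀ (c : R) (x : G), g (c • x) = c • g x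

def Cl (R : Type) [CommRing R] [Module R G] (L : Lat G) : Prop :=
  ∀ (j : ℤ) (c : R), ∀ x ∈ L j, c • x ∈ L j

/-- A subgroup placed in degree zero. -/
def deg0 (N : AddSubgroup G) : Lat G := fun j => if j = 0 then N else ⊥

/-- Multiplication by a scalar. -/
def mu {Ω : Type} [CommRing Ω] (V : Type) [AddCommGroup V] [Module Ω V] : Ω →+* Op V :=
  Module.toAddMonoidEnd Ω V

/-- A grading of `G` by projections. -/
structure Grading (π : ℤ → Op G) : Prop where
  orth : ∀ w w', π w * π w' = if w = w' then π w else 0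
  fin : ∀ x, ∃ s : Finset ℤ, (∀ w ∉ s, π w x = 0) ∧ x = ∑ w ∈ s, π w x

/-- The product of the operators `E i`, `i ∈ σ`, in increasing order. -/
def ap {ι : Type} [LinearOrder ι] (E : ι → Op G) (σ : Finset ι) : Op G :=
  ((σ.sort (· ≤ ·)).map E).prod

end Cx

abbrev Ch (ι M : Type) : Type := Finset ι → M

section Ch

variable {ι M M' : Type} [LinearOrder ι] [AddCommGroup M] [AddCommGroup M']

def sgn (i : ι) (σ : Finset ι) : ℤ := (-1) ^ (σ.filter (· < i)).card

/-- Exterior multiplication by the `i`-th basis vector. -/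
def ep (i : ι) : Op (Ch ι M) :=
  AddMonoidHom.mk' (fun γ σ => if i ∈ σ then sgn i σ • γ (σ.erase i) else 0) fun γ γ' => by
    funext σ
    by_cases h : i ∈ σ <;> simp [h]

/-- Contraction with the `i`-th dual basis vector. -/
def io (i : ι) : Op (Ch ι M) :=
  AddMonoidHom.mk' (fun γ σ => if i ∈ σ then 0 else sgn i σ • γ (insert i σ)) fun γ γ' => by
    funext σ
    by_cases h : i ∈ σ <;> simp [h]

omit [LinearOrder ι] in
def evs (T : Finset ι → Op M) : Op (Ch ι M) :=
  AddMonoidHom.mk' (fun γ σ => T σ (γ σ)) fun γ γ' => by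
    funext σ
    simp

omit [LinearOrder ι] in
def ods (T : Finset ι → Op M) : Op (Ch ι M) := evs fun σ => (-1 : ℤ) ^ σ.card • T σ

omit [LinearOrder ι] in
def ev (T : Op M) : Op (Ch ι M) := evs fun _ => T

omit [LinearOrder ι] in
def od (T : Op M) : Op (Ch ι M) := ods fun _ => T

/-- The Koszul differential of the operators `t i`, `i ∈ S`, on the complex `(M, d)`. -/
def kos (d : Op M) (t : ι → Op M) (S : Finset ι) : Op (Ch ι M) :=
  od d + ∑ i ∈ S, ep i * ev (t i)

omit [LinearOrder ι] in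
def lat (Λ : Finset ι → Lat M) : Lat (Ch ι M) := fun j =>
  AddSubgroup.pi Set.univ fun σ => Λ σ (j - σ.card)

/-- Cochains supported on the subsets of `S`. -/
def kl (S : Finset ι) (F : Finset ι → Lat M) : Lat (Ch ι M) :=
  lat fun σ => if σ ⊆ S then F σ else ⊥

omit [LinearOrder ι] in
def up (φ : M →+ M') : Ch ι M →+ Ch ι M' := φ.compLeft (Finset ι)

/-- The data of a Koszul complex whose term at `σ` is the complex `F σ / F' σ`. -/
structure KOK (d : Op M) (t : ι → Op M) (S : Finset ι) (F F' : Finset ι → Lat M) : Prop where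
  pair : ∀ σ, Pair d (F σ) (F' σ)
  cd : ∀ i ∈ S, Commute (t i) d
  ct : ∀ i ∈ S, ∀ i' ∈ S, Commute (t i) (t i')
  kp : ∀ i ∈ S, ∀ σ, i ∉ σ → Keeps (t i) (F σ) (F (insert i σ))
  kp' : ∀ i ∈ S, ∀ σ, i ∉ σ → Keeps (t i) (F' σ) (F' (insert i σ))

/-- The Cech differential on top of `d`. -/
def cech [Fintype ι] (d : Op M) : Op (Ch ι M) := kos d (fun _ => 1) univ

end Ch

abbrev Fm (n : ℕ) (Ω : Type) : Type := Ch (Fin n) Ω

section Fm

variable {Ω : Type} [CommRing Ω] {n : ℕ}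

/-- Wedge product with a one-form. -/
def we (α : Fin n → Ω) : Op (Fm n Ω) := ∑ k, mu (Fm n Ω) (α k) * ep k

/-- Contraction with a vector field. -/
def co (v : Fin n → Ω) : Op (Fm n Ω) := ∑ k, mu (Fm n Ω) (v k) * io k

/-- The exterior derivative built from `n` operators. -/
def dR (R : Fin n → Op Ω) : Op (Fm n Ω) := kos 0 R univ

def vac (n : ℕ) (g : Ω) : Fm n Ω := Pi.single ∅ g

def top (n : ℕ) (g : Ω) : Fm n Ω := Pi.single univ g

/-- The exterior power of the linear map that sends the `k`-th basis vector to `M k`. -/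
def lam (M : Fin n → Fin n → Ω) : Op (Fm n Ω) :=
  AddMonoidHom.mk' (fun w => ∑ σ, w σ • ap (fun k => we (M k)) σ (vac n 1)) fun w w' => by
    simp [add_smul, sum_add_distrib]

/-- Forms of degree `p` with coefficients in `N`. -/
def fl (n : ℕ) (N : AddSubgroup Ω) : Lat (Fm n Ω) := lat fun _ => deg0 N

/-- The projection to forms of degree `p`. -/
def pd (n : ℕ) (p : ℤ) : Op (Fm n Ω) := evs fun σ => if (σ.card : ℤ) = p then 1 else 0

/-- A derivation as an operator. -/
def dop {k : Type} [CommRing k] [Algebra k Ω] (D : Derivation k Ω Ω) : Op Ω :=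
  (D : Ω →ₗ[k] Ω).toAddMonoidHom

end Fm

end Pool.Agent.MP_ee8c61_ag.H59
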