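import Pool.Agent.MP_ee8c61_ag.H59.Defs

/-!
Unfolding lemmas and further definitions.
-/

namespace Pool.Agent.MP_ee8c61_ag.H59

open Finset

section Cx

variable {G : Type} [AddCommGroup G]

theorem op_ext {a b : Op G} (h : ∀ x, a x = b x) : a = b := AddMonoidHom.ext h

@[simp] theorem op_mul (a b : Op G) (x : G) : (a * b) x = a (b x) := rfl
@[simp] theorem op_add (a b : Op G) (x : G) : (a + b) x = a x + b x := rfl
@[simp] theorem op_sub (a b : Op G) (x : G) : (a - b) x = a x - b x := rfl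
@[simp] theorem op_neg (a : Op G) (x : G) : (-a) x = -a x := rfl
@[simp] theorem op_one (x : G) : (1 : Op G) x = x := rfl
@[simp] theorem op_zero (x : G) : (0 : Op G) x = 0 := rfl
@[simp] theorem op_zsmul (c : ℤ) (a : Op G) (x : G) : (c • a) x = c • a x := rfl

theorem op_sum {κ : Type} (s : Finset κ) (a : κ → Op G) (x : G) :
    (∑ i ∈ s, a i) x = ∑ i ∈ s, a i x := AddMonoidHom.finsetSum_apply a s x

@[simp] theorem mu_apply {Ω : Type} [CommRing Ω] [Module Ω G] (c : Ω) (x : G) :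
    mu G c x = c • x := rfl

theorem mu_comm {Ω : Type} [CommRing Ω] [Module Ω G] (c c' : Ω) : Commute (mu G c) (mu G c') :=
  (Commute.all c c').map _

theorem Lin.comm {Ω : Type} [CommRing Ω] [Module Ω G] {g : Op G} (h : Lin Ω g) (c : Ω) :
    Commute (mu G c) g := op_ext fun x => (h c x).symm

theorem Pair.dd' {D : Op G} {L L' : Lat G} (h : Pair D L L') (x : G) : D (D x) = 0 :=
  DFunLike.congr_fun h.dd x

theorem Pair.stp {D : Op G} {L L' : Lat G} (h : Pair D L L') (j : ℤ) {x : G} (hx : x ∈ L (j - 1)) :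
    D x ∈ L j := by simpa using h.st _ _ hx

theorem Pair.stp' {D : Op G} {L L' : Lat G} (h : Pair D L L') (j : ℤ) {x : G}
    (hx : x ∈ L' (j - 1)) : D x ∈ L' j := by simpa using h.st' _ _ hx

@[simp] theorem mem_lat_bot (j : ℤ) (x : G) : x ∈ (⊥ : Lat G) j ↔ x = 0 := AddSubgroup.mem_bot

theorem mem_deg0 (N : AddSubgroup G) (j : ℤ) (x : G) :
    x ∈ deg0 N j ↔ x ∈ N ∧ (j ≠ 0 → x = 0) := by
  unfold deg0
  split_ifs with h
  · simp [h]
  · simp only [AddSubgroup.mem_bot, ne_eq, h, not_false_eq_true, forall_const]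
    exact ⟨fun h => ⟨h ▸ zero_mem _, h⟩, fun h => h.2⟩

end Cx

section Ch

variable {ι M M' : Type} [LinearOrder ι] [AddCommGroup M] [AddCommGroup M']

theorem ep_apply (i : ι) (γ : Ch ι M) (σ : Finset ι) :
    ep i γ σ = if i ∈ σ then sgn i σ • γ (σ.erase i) else 0 := rfl

theorem io_apply (i : ι) (γ : Ch ι M) (σ : Finset ι) :
    io i γ σ = if i ∈ σ then 0 else sgn i σ • γ (insert i σ) := rfl

omit [LinearOrder ι] in
@[simp] theorem evs_apply (T : Finset ι → Op M) (γ : Ch ι M) (σ : Finset ι) :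
    evs T γ σ = T σ (γ σ) := rfl

omit [LinearOrder ι] in
@[simp] theorem ods_apply (T : Finset ι → Op M) (γ : Ch ι M) (σ : Finset ι) :
    ods T γ σ = (-1 : ℤ) ^ σ.card • T σ (γ σ) := rfl

omit [LinearOrder ι] in
@[simp] theorem ev_apply (T : Op M) (γ : Ch ι M) (σ : Finset ι) : ev T γ σ = T (γ σ) := rfl

omit [LinearOrder ι] in
@[simp] theorem od_apply (T : Op M) (γ : Ch ι M) (σ : Finset ι) :
    od T γ σ = (-1 : ℤ) ^ σ.card • T (γ σ) := rfl

omit [LinearOrder ι] in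
@[simp] theorem up_apply (φ : M →+ M') (γ : Ch ι M) (σ : Finset ι) : up φ γ σ = φ (γ σ) := rfl

omit [LinearOrder ι] in
theorem mem_lat (Λ : Finset ι → Lat M) (j : ℤ) (γ : Ch ι M) :
    γ ∈ lat Λ j ↔ ∀ σ, γ σ ∈ Λ σ (j - σ.card) := by
  simp [lat, AddSubgroup.mem_pi]

theorem mem_kl (S : Finset ι) (F : Finset ι → Lat M) (j : ℤ) (γ : Ch ι M) :
    γ ∈ kl S F j ↔ ∀ σ, (σ ⊆ S → γ σ ∈ F σ (j - σ.card)) ∧ (¬ σ ⊆ S → γ σ = 0) := by
  rw [kl, mem_lat]
  refine forall_congr' fun σ => ?_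
  by_cases h : σ ⊆ S <;> simp [h]

theorem kl_univ [Fintype ι] (F : Finset ι → Lat M) : kl univ F = lat F := by
  simp [kl]

omit [LinearOrder ι] in
theorem lat_bot : lat (fun _ : Finset ι => (⊥ : Lat M)) = ⊥ := by
  funext j
  ext γ
  simp [mem_lat, funext_iff]

theorem kl_bot (S : Finset ι) : kl S (fun _ => (⊥ : Lat M)) = ⊥ := by
  simp [kl, lat_bot]

omit [LinearOrder ι] in
theorem ev_mu {Ω : Type} [CommRing Ω] [Module Ω M] (c : Ω) :
    (ev (mu M c) : Op (Ch ι M)) = mu (Ch ι M) c := rfl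

omit [LinearOrder ι] in
/-- `ev` as a ring homomorphism. -/
def evH (ι M : Type) [AddCommGroup M] : Op M →+* Op (Ch ι M) where
  toFun := ev
  map_one' := rfl
  map_mul' _ _ := rfl
  map_zero' := rfl
  map_add' _ _ := rfl

theorem kos_congr (d : Op M) {t t' : ι → Op M} {S : Finset ι} (h : ∀ i ∈ S, t i = t' i) :
    kos d t S = kos d t' S := by
  unfold kos
  rw [sum_congr rfl fun i hi => by rw [h i hi]]

theorem sgn_mul_self (i : ι) (σ : Finset ι) : sgn i σ * sgn i σ = 1 := by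
  rw [sgn, ← mul_pow]
  simp

theorem sgn_erase (i : ι) (σ : Finset ι) : sgn i (σ.erase i) = sgn i σ := by
  rw [sgn, sgn, filter_erase, erase_eq_of_notMem (by simp)]

theorem sgn_insert (i : ι) (σ : Finset ι) : sgn i (insert i σ) = sgn i σ := by
  rw [sgn, sgn, filter_insert, if_neg (lt_irrefl i)]

end Ch

@[simp] theorem dop_apply {k Ω : Type} [CommRing k] [CommRing Ω] [Algebra k Ω]
    (D : Derivation k Ω Ω) (g : Ω) : dop D g = D g := rfl

section T1

variable {ι V κ : Type} (R : Type) [CommRing R] [AddCommGroup V] [Module R V] [Fintype ι]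

/-- The degree `d` part of the localization at `σ` of the graded module generated by `g`. -/
def gsp (Y : Multiplicative (ι → ℤ) →* Module.End R V) (g : κ → V) (e : κ → ℤ) (d : ℤ)
    (σ : Finset ι) : AddSubgroup V :=
  (Submodule.span R {v | ∃ (i : κ) (β : ι → ℤ), (∀ a ∉ σ, 0 ≤ β a) ∧ ∑ a, β a + e i = d ∧
    v = Y (Multiplicative.ofAdd β) (g i)}).toAddSubgroup

omit [Fintype ι] in
/-- The action of Laurent monomials on the free module. -/
noncomputable def fY (κ ι : Type) :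
    Multiplicative (ι → ℤ) →* Module.End R (κ × (ι → ℤ) →₀ R) where
  toFun β := Finsupp.lmapDomain R R fun p => (p.1, p.2 + β.toAdd)
  map_one' := by
    ext p
    simp
  map_mul' β β' := by
    rw [Module.End.mul_eq_comp, ← Finsupp.lmapDomain_comp]
    congr 1
    funext p
    simp [add_comm, add_left_comm]

omit [Fintype ι] in
noncomputable def fB (κ ι : Type) (i : κ) : κ × (ι → ℤ) →₀ R := Finsupp.single (i, 0) 1

end T1

namespace Sys

variable {k Ω ι J : Type} {n m : ℕ} [CommRing k] [CommRing Ω] [Algebra k Ω] (S : Sys k Ω ι J n)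

/-- The element `g` of `Ω` lies in the ideal `q` of the chart `a`. -/
def InQ {a : ι} (q : Ideal (S.A a)) (g : Ω) : Prop := ∃ h : g ∈ S.A a, (⟨g, h⟩ : S.A a) ∈ q

/-- `t l` is homogeneous of degree `dg l`. -/
def Hg (ρ : ι → Ωˣ) {κ : Type} (t : κ → Ω) (dg : κ → ℕ) (s : Finset κ) : Prop :=
  ∀ l ∈ s, ∀ a, t l * (((ρ a)⁻¹ ^ dg l : Ωˣ) : Ω) ∈ S.A a

/-- The functions `x l - x0 l` occur among the `t i`. -/
def HasX (x : Fin m → Ω) (x0 : Fin m → k) {κ : Type} (t : κ → Ω) (dg : κ → ℕ) (s : Finset κ) :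
    Prop :=
  ∀ l, ∃ i ∈ s, t i = x l - algebraMap k Ω (x0 l) ∧ dg i = 0

/-- The state of the induction over linear sections. -/
def St (ρ : ι → Ωˣ) {κ : Type} (t : κ → Ω) (dg : κ → ℕ) (s : Finset κ) (W : Finset ι) (b : ι) :
    Prop :=
  ∀ (a : ι) (q : Ideal (S.A a)), q.IsPrime →
    (∀ l ∈ s, S.InQ q (t l * (((ρ a)⁻¹ ^ dg l : Ωˣ) : Ω))) → ∀ c ∉ W,
    S.InQ q ((ρ c / ρ a : Ωˣ) : Ω) ∨ (¬ S.InQ q ((ρ b / ρ a : Ωˣ) : Ω) ∧ ∃ g : Polynomial k,
      g.Monic ∧ S.InQ q ((((ρ b / ρ a) ^ g.natDegree : Ωˣ) : Ω) *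
        Polynomial.aeval ((ρ c / ρ b : Ωˣ) : Ω) g))

/-- The indicator vector of `W`. -/
noncomputable def ind (W : Finset J) : J → ℤ := by
  classical exact fun j => if j ∈ W then 1 else 0

/-- The exponents of the ideal of the stratum `I` in the lattice `c`. -/
noncomputable def KJ (c : J → ℤ) (I : Finset J) : Finset (J → ℤ) := by
  classical exact I.image fun i => c + ind {i}

theorem ind_apply [DecidableEq J] (W : Finset J) (j : J) : ind W j = if j ∈ W then 1 else 0 := by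
  unfold ind
  congr

theorem mem_KJ (c c' : J → ℤ) (I : Finset J) : c' ∈ KJ c I ↔ ∃ i ∈ I, c + ind {i} = c' := by
  classical
  unfold KJ
  convert Finset.mem_image

theorem pick_mem [LinearOrder ι] [Inhabited ι] {σ : Finset ι} (h : σ.Nonempty) : pick σ ∈ σ := by
  rw [pick, ← coe_min' h, WithTop.untopD_coe]
  exact min'_mem σ h

theorem pick_single [LinearOrder ι] [Inhabited ι] (a : ι) : pick {a} = a :=
  mem_singleton.1 (pick_mem (singleton_nonempty a))

/-- Every monomial of `C'` is a multiple of a monomial of `C`. -/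
def Le (C' C : Finset (J → ℤ)) : Prop := ∀ c' ∈ C', ∃ c ∈ C, c ≤ c'

variable [Fintype J]

/-- The graded Koszul family. -/
def gk (w c : J → ℤ) {κ : Type} (dg : κ → ℕ) (τ : Finset κ) : Lat (Ch ι (Fm n Ω)) :=
  S.T {c - (∑ i ∈ τ, (dg i : ℤ)) • w}

/-- Cochains whose values on the faces of `σ` are regular on `σ`. -/
noncomputable def Tl (C : Finset (J → ℤ)) (σ : Finset ι) : Lat (Ch ι (Fm n Ω)) := by
  classical exact lat fun τ => if τ = ∅ then ⊥ else if τ ⊆ σ then S.lm C σ else ⊤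

theorem mem_Tl (C : Finset (J → ℤ)) (σ : Finset ι) (j : ℤ) (γ : Ch ι (Fm n Ω)) :
    γ ∈ S.Tl C σ j ↔ γ ∅ = 0 ∧ ∀ τ ⊆ σ, τ.Nonempty → γ τ ∈ S.lm C σ (j - τ.card) := by
  unfold Tl
  rw [mem_lat]
  refine ⟨fun h => ⟨by simpa using h ∅, fun τ h1 h2 => by simpa [h1, h2.ne_empty] using h τ⟩,
    fun h τ => ?_⟩
  split_ifs with h1 h2
  · simpa [h1] using h.1
  · exact h.2 τ h2 (nonempty_iff_ne_empty.2 h1)
  · trivial

theorem mem_T (C : Finset (J → ℤ)) (j : ℤ) (γ : Ch ι (Fm n Ω)) :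
    γ ∈ S.T C j ↔ ∀ σ, γ σ ∈ S.lm C σ (j - σ.card) := mem_lat _ _ _

/-- A power of `g` lies in the ideal of the chart `a` generated by the coefficients of `θ` and
by `u`. -/
def InRad (a : ι) (θ : Fin n → Ω) (u g : Ω) : Prop :=
  ∃ (N : ℕ) (c : Fin n → Ω) (c0 : Ω), (∀ i, c i ∈ S.A a) ∧ c0 ∈ S.A a ∧
    g ^ N = ∑ i, c i * (S.v a i ⬝ᵥ θ) + c0 * u

section Frob

variable (ℓ : ℕ) [Fact ℓ.Prime] [CharP Ω ℓ] (δ : ι → Fin n → Ω)

def xi (a : ι) (i : Fin n) : Ω := (S.z a i * (((S.un a i)⁻¹ : Ωˣ) : Ω)) ^ (ℓ - 1)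

/-- The inverse Cartier operator in coordinates. -/
def frc (a : ι) : Op (Fm n Ω) :=
  AddMonoidHom.mk' (fun w σ => w σ ^ ℓ * ∏ i ∈ σ, S.xi ℓ a i) fun w w' => by
    funext σ
    simp [add_pow_char, add_mul]

def fr (a : ι) : Op (Fm n Ω) := S.frm a * S.frc ℓ a * S.crd a

omit [Fintype J] in
def fr0 : Op (Fm n Ω) :=
  AddMonoidHom.mk' (fun w => vac n (w ∅ ^ ℓ)) fun w w' => by
    simp [vac, add_pow_char, Pi.single_add]

variable [Fintype ι] [LinearOrder ι] [Inhabited ι]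

omit [Fintype J] [Fact ℓ.Prime] [CharP Ω ℓ] [Fintype ι] in
def mm (α : Fin n → Ω) : Op (Ch ι (Fm n Ω)) := evs fun σ => mu _ (hz ℓ δ (pick σ) α)

omit [Fintype J] [Fact ℓ.Prime] [CharP Ω ℓ] in
/-- Multiplication by the cocycle attached to the one-form `α`. -/
def mo (α : Fin n → Ω) : Op (Ch ι (Fm n Ω)) :=
  od (we (S.zr ℓ α)) + (cech S.dd * mm ℓ δ α - mm ℓ δ α * cech S.dd)

omit [Fintype J] in
/-- The map of Deligne and Illusie. -/
def Ph : ℕ → Op (Ch ι (Fm n Ω))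
  | 0 => ev (fr0 ℓ)
  | p + 1 => ∑ l, S.mo ℓ δ (Pi.single l 1) * Ph p * od (io l)

end Frob

end Sys

section Main

variable {Ω ι : Type} {n m : ℕ} [CommRing Ω]

open MvPolynomial

/-- The `2 m + 1` coordinates. -/
noncomputable def yy (x : Fin m → Ω) : Fin (m + (m + 1)) → PX m Ω :=
  Fin.addCases (fun l => C (x l)) fun o => X (finSuccEquiv m o)

/-- The homogeneous component of degree `d` as an operator. -/
noncomputable def hc (m : ℕ) (Ω : Type) [CommRing Ω] (d : ℤ) : Op (PX m Ω) :=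
  if 0 ≤ d then (homogeneousComponent d.toNat).toAddMonoidHom else 0

/-- The projection to weight `w`. -/
noncomputable def wt (ι : Type) (n m : ℕ) (Ω : Type) [CommRing Ω] (w : ℤ) :
    Op (Ch ι (Fm n (PX m Ω))) :=
  ev (evs fun σ => hc m Ω (w + σ.card))

/-- The top form of the reference frame on every chart. -/
def om (ι : Type) (n : ℕ) (Ω : Type) [CommRing Ω] : Ch ι (Fm n Ω) :=
  fun σ => if σ.card = 1 then top n 1 else 0

/-- The coefficient of a monomial. -/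
noncomputable def cf (κ Ω : Type) [CommRing Ω] (e : κ →₀ ℕ) : MvPolynomial κ Ω →+ Ω :=
  coeffAddMonoidHom e

end Main

end Pool.Agent.MP_ee8c61_ag.H59
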