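import Pool.Agent.MP_ee8c61_ag.H59.SpecB

/-!
Exterior powers of linear maps.
-/

namespace Pool.Agent.MP_ee8c61_ag.H59

open Finset

namespace LaX

variable {Ω : Type} [CommRing Ω] {n : ℕ}

theorem lam_apply (M : Fin n → Fin n → Ω) (w : Fm n Ω) :
    lam M w = ∑ σ, w σ • ap (fun k => we (M k)) σ (vac n 1) := rfl

theorem lin (M : Fin n → Fin n → Ω) : Lin Ω (lam M) := fun c w => by
  simp only [lam_apply, Pi.smul_apply, smul_eq_mul, mul_smul, smul_sum]

theorem lam_single (M : Fin n → Fin n → Ω) (σ : Finset (Fin n)) (g : Ω) :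
    lam M (Pi.single σ g) = g • ap (fun k => we (M k)) σ (vac n 1) := by
  rw [lam_apply, sum_eq_single σ (fun τ _ h => by simp [h]) (by simp), Pi.single_eq_same]

theorem lam_vac (hA : SAp) (M : Fin n → Fin n → Ω) (g : Ω) : lam M (vac n g) = vac n g := by
  rw [vac, lam_single, (hA _ _).emp, op_one, vac, ← Pi.single_smul, smul_eq_mul, mul_one]

theorem lam_ep (hC : SCar) (hA : SAp) (hF : Fo Ω n) (M : Fin n → Fin n → Ω) (l : Fin n) :
    lam M * ep l = we (M l) * lam M := by
  refine AddMonoidHom.functions_ext _ _ _ fun σ g => ?_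
  have h1 := DFunLike.congr_fun ((hA _ _).ins (ep : Fin n → Op (Fm n Ω)) (hC _ _).ee
    (hC _ _).ee0 l σ) (Pi.single ∅ g)
  have h2 := DFunLike.congr_fun ((hA _ _).ins (fun k => we (M k)) (fun i j => hF.we_we _ _)
    (fun i => hF.we_sq _) l σ) (vac n 1)
  rw [op_mul, (hC _ _).single] at h1
  rw [op_mul] at h2
  change lam M (ep l _) = we (M l) (lam M _)
  rw [h1, lam_single, hF.lin_we, h2]
  split_ifs
  · simp
  · rw [op_zsmul, op_zsmul, (hC _ _).single, map_zsmul, lam_single, smul_comm]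

theorem ind (hF : Fo Ω n) {G : Type} [AddCommGroup G] (f g : Fm n Ω →+ G)
    (h0 : ∀ x, f (vac n x) = g (vac n x)) (h1 : ∀ l w, f w = g w → f (ep l w) = g (ep l w))
    (w : Fm n Ω) : f w = g w :=
  hF.ind (f.eqLocus g) h0 h1 w

theorem pd_vac (p : ℤ) (g : Ω) : pd n p (vac n g) = if p = 0 then vac n g else 0 := by
  funext σ
  by_cases h : σ = ∅
  · subst h
    by_cases hp : p = 0
    · simp [pd, hp]
    · simp [pd, hp, Ne.symm hp]
  · split_ifs <;> simp [pd, vac, h]

theorem up_vac {Ω' : Type} [CommRing Ω'] (φ : Ω →+ Ω') (g : Ω) :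
    up φ (vac n g) = vac n (φ g) := by
  funext σ
  by_cases h : σ = ∅ <;> simp [vac, h]

theorem up_ep {Ω' : Type} [CommRing Ω'] (φ : Ω →+ Ω') (l : Fin n) (w : Fm n Ω) :
    up φ (ep l w) = ep l (up φ w) := by
  funext σ
  rw [up_apply, ep_apply, ep_apply]
  split_ifs
  · rw [map_zsmul, up_apply]
  · exact map_zero _

end LaX

open LaX

theorem rowLa : OfLa := by
  intro hC hA hF0 Ω n _
  have hF := hF0 Ω n
  have e1 : ∀ (M : Fin n → Fin n → Ω) l w, lam M (ep l w) = we (M l) (lam M w) := fun M l w =>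
    DFunLike.congr_fun (lam_ep hC hA hF M l) w
  have hwe : ∀ (M : Fin n → Fin n → Ω) α, lam M * we α = we (∑ l, α l • M l) * lam M := by
    intro M α
    rw [hF.we_sum, sum_mul]
    conv_lhs => rw [we, mul_sum]
    refine sum_congr rfl fun l _ => ?_
    rw [hF.we_smul, mul_assoc, ← lam_ep hC hA hF, ← mul_assoc, ← mul_assoc, ((lin M).comm _).eq]
  have hpd : ∀ (M : Fin n → Fin n → Ω) p, Commute (lam M) (pd n p) := by
    intro M p
    have key := hF.ind (⨅ p : ℤ, AddMonoidHom.eqLocus (lam M * pd n p) (pd n p * lam M))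
      (fun g => AddSubgroup.mem_iInf.2 fun p => by
        change lam M (pd n p _) = pd n p (lam M _)
        rw [lam_vac hA, pd_vac]
        split_ifs
        · exact lam_vac hA M g
        · exact map_zero _)
      (fun l w hw => AddSubgroup.mem_iInf.2 fun p => by
        have a : lam M (pd n (p - 1) w) = pd n (p - 1) (lam M w) :=
          AddSubgroup.mem_iInf.1 hw (p - 1)
        have b := fun α x => DFunLike.congr_fun (hF.pd_we α (p - 1)) x
        simp only [op_mul, sub_add_cancel] at b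
        change lam M (pd n p _) = pd n p (lam M _)
        rw [e1, ← b, ← a, ← e1, ← hF.we_single, b])
    exact op_ext fun w => AddSubgroup.mem_iInf.1 (key w) p
  refine ⟨lin, lam_vac hA, lam_ep hC hA hF, hwe, fun M v => op_ext ?_, fun M M' => op_ext ?_,
    op_ext ?_, hpd, fun M N h p w hw => ?_, fun M w => ?_, fun Ω' _ φ M M' h => ?_⟩
  · refine ind hF _ _ (fun x => ?_) fun l w hw => ?_
    · change co v (lam M _) = lam M (co _ _)
      rw [lam_vac hA, hF.co_vac, hF.co_vac, map_zero]
    · have a := DFunLike.congr_fun (hF.we_co (M l) v) (lam M w)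
      have b := DFunLike.congr_fun (hF.we_co (Pi.single l 1) fun l => v ⬝ᵥ M l) w
      rw [hF.we_single, dotProduct_single_one] at b
      simp only [op_mul, op_add, mu_apply] at a b
      change co v (lam M _) = lam M (co _ _) at hw ⊢
      rw [e1, eq_sub_of_add_eq' a, eq_sub_of_add_eq' b, map_sub, lin M, e1, hw]
  · refine ind hF _ _ (fun x => ?_) fun l w hw => ?_
    · change lam M (lam M' _) = lam _ _
      rw [lam_vac hA, lam_vac hA, lam_vac hA]
    · change lam M (lam M' _) = lam _ _ at hw ⊢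
      rw [e1, e1, ← hw]
      exact DFunLike.congr_fun (hwe M (M' l)) _
  · refine ind hF _ _ (fun x => lam_vac hA _ x) fun l w hw => ?_
    change lam _ _ = w at hw
    change lam _ _ = ep l w
    rw [e1, hw, hF.we_single]
  · refine hF.fl_le N (fun p => (fl n N p).comap (lam M)) (fun g hg => ?_) (fun l j x hx => ?_) p hw
    · change lam M _ ∈ fl n N 0
      rw [lam_vac hA, hF.mem_fl, pd_vac, if_pos rfl]
      refine ⟨fun σ => ?_, rfl⟩
      by_cases hσ : σ = ∅ <;> simp [vac, hσ, hg]
    · change lam M _ ∈ fl n N (j + 1)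
      rw [e1]
      exact hF.fl_we N N _ (h l) j _ hx
  · have a : lam M (pd n 0 w) = pd n 0 (lam M w) := DFunLike.congr_fun (hpd M 0).eq w
    rw [hF.pd_zero, hF.pd_zero, lam_vac hA] at a
    simpa [vac] using (congrFun a ∅).symm
  · refine ind hF ((up φ).comp (lam M)) (AddMonoidHom.comp (lam M') (up φ)) (fun x => ?_)
      fun l w hw => ?_
    · change up φ (lam M _) = lam M' (up φ _)
      rw [lam_vac hA, up_vac, lam_vac hA]
    · change up φ (lam M _) = lam M' (up φ _) at hw ⊢
      rw [e1, hF.up_we Ω' φ _ _ (h l), hw, up_ep]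
      exact (DFunLike.congr_fun (lam_ep hC hA (hF0 Ω' n) M' l) _).symm

end Pool.Agent.MP_ee8c61_ag.H59
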