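import Pool.Agent.MP_ee8c61_ag.H59.SpecC

/-! The main argument from the vanishing statements. -/

namespace Pool.Agent.MP_ee8c61_ag.H59

open Finset Sys

namespace Main0X

theorem split (b : Polynomial ℂ) (la : ℂ) (k : ℕ)
    (h : ¬ (Polynomial.X + Polynomial.C la) ^ k ∣ b) :
    ∃ (r : ℕ) (u : Polynomial ℂ), r < k ∧ u.eval 0 ≠ 0 ∧
      ∀ (R : Type) [CommRing R] [Algebra ℂ R] (s : R), Polynomial.aeval s b =
        (s + algebraMap ℂ R la) ^ r * Polynomial.aeval (s + algebraMap ℂ R la) u := by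
  have hb : b ≠ 0 := fun e => h (e ▸ dvd_zero _)
  obtain ⟨u, hu, hu'⟩ := Polynomial.exists_eq_pow_rootMultiplicity_mul_and_not_dvd b hb (-la)
  rw [Polynomial.dvd_iff_isRoot] at hu'
  rw [map_neg, sub_neg_eq_add] at hu
  refine ⟨b.rootMultiplicity (-la), u.comp (Polynomial.X - Polynomial.C la), ?_, ?_,
    fun R _ _ s => ?_⟩
  · by_contra hk
    exact h (hu ▸ (pow_dvd_pow _ (not_lt.1 hk)).mul_right _)
  · simpa [Polynomial.eval_comp] using hu'
  · rw [Polynomial.aeval_comp]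
    conv_lhs => rw [hu]
    simp

section

variable {G J Ω : Type} [AddCommGroup G] [LinearOrder J] [CommRing Ω] [Module Ω G]

theorem top_term (hA : Ap J G) (H : J → Op G) (h1 : ∀ i j, H i * H j + H j * H i = 0)
    (h2 : ∀ i, H i * H i = 0) (I : Finset J) (i0 : J) (h0 : i0 ∈ I) (x : G) :
    H i0 (∑ i ∈ I, sgn i I • ap H (I.erase i) x) = ap H I x := by
  rw [map_sum, sum_eq_single i0 _ fun h => absurd h0 h]
  · rw [map_zsmul, ← op_mul, hA.ins H h1 h2, if_neg (notMem_erase _ _), insert_erase h0,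
      op_zsmul, smul_smul, sgn_erase, sgn_mul_self, one_smul]
  · intro i _ hi
    rw [map_zsmul, ← op_mul, hA.ins H h1 h2, if_pos (mem_erase.2 ⟨hi.symm, h0⟩), op_zero,
      smul_zero]

theorem weight (hA : Ap J G) (π : ℤ → Op G) (H : J → Op G)
    (h : ∀ i w, H i * π w = π (w + 1) * H i) (σ : Finset J) (w : ℤ) (x : G) (hx : π w x = x) :
    π (w + σ.card) (ap H σ x) = ap H σ x := by
  have := hA.maps H (fun w => (π w - 1 : Op G).ker) 1 σ (fun i _ w y hy => ?_) w x ?_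
  · rw [mul_one] at this
    exact sub_eq_zero.1 this
  · have e : π w y = y := sub_eq_zero.1 hy
    refine sub_eq_zero.2 ?_
    change (π (w + 1) * H i) y = H i y
    rw [← h, op_mul, e]
  · exact sub_eq_zero.2 hx

theorem mul_mul (h h' : Op G) (hl : Lin Ω h) (c c' : Ω) :
    mu G c * h * (mu G c' * h') = mu G (c * c') * (h * h') := by
  refine op_ext fun x => ?_
  simp only [op_mul, mu_apply]
  rw [hl, smul_smul]

end

theorem ind_nonneg {J : Type} (W : Finset J) : 0 ≤ ind W := fun j => by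
  classical
  rw [ind_apply]
  split_ifs <;> simp

theorem le_KJ {J : Type} (c : J → ℤ) (s : Finset J) : Le (KJ c s) {c} := fun c' h => by
  obtain ⟨i, -, rfl⟩ := (mem_KJ _ _ _).1 h
  exact ⟨c, mem_singleton_self _, le_add_of_nonneg_right (ind_nonneg _)⟩

theorem X_mem {k Ω κ : Type} [CommRing k] [CommRing Ω] [Algebra k Ω] (A : Subalgebra k Ω)
    (o : κ) : MvPolynomial.X o ∈ spol κ A := fun e => by
  classical
  rw [MvPolynomial.coeff_X]
  split_ifs
  · exact one_mem _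
  · exact zero_mem _

end Main0X

open Main0X

theorem rowMain0 : OfMain0 := by
  intro hAp hWt hMult hLm hHo hTh hGr hEta hNon Ω ι J n m _ _ _ _ _ _ S x f a hx hf kk b c0 I la
    c1 hM hR h1 h2 h3 h4 h5 hV1 hV2
  classical
  let : LinearOrder J := LinearOrder.lift' (Fintype.equivFin J) (Equiv.injective _)
  by_contra hb
  obtain ⟨r, u, hr, hu, hbu⟩ := split b la _ hb
  have hI : I.Nonempty := card_pos.1 (by omega)
  have L := hLm ℂ _ ι J n (S.px m)
  have Ho := hHo ℂ _ ι J n (S.px m)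
  have Th := hTh Ω ι J n m S x f a hx hf
  have Gr := hGr Ω ι J n m S x f a hx hf
  have W := hWt (Ch ι (Fm n (PX m Ω)))
  have A := hAp J (Ch ι (Fm n (PX m Ω)))
  obtain ⟨e1, e2, v, η, e3, e4⟩ := hEta Ω ι J n m S x f a hx hf kk b c0 hM h1 h2
  set D : Op (Ch ι (Fm n (PX m Ω))) := cech ((S.px m).dd + we (S.th x f)) with hD
  set t : PX m Ω := MvPolynomial.X none + algebraMap ℂ (PX m Ω) la with ht
  set H : J → Op (Ch ι (Fm n (PX m Ω))) :=
    fun i => mu _ (algebraMap ℂ (PX m Ω) ((a i : ℂ)⁻¹)) * (S.px m).hh i with hH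
  have ha : ∀ i ∈ I, (a i : ℂ) ≠ 0 := fun i hi e => by
    have := h4 i hi
    rw [e, mul_zero] at this
    exact Nat.cast_add_one_ne_zero _ this
  have a0 : (0 : J → ℤ) ≤ fun j => (a j : ℤ) := fun j => Int.natCast_nonneg _
  have pair : ∀ C C', Le C' C → Pair D ((S.px m).T C) ((S.px m).T C') :=
    fun C C' h => L.pair _ C C' Th.sq h Th.maps
  have van : ∀ C C' j, Le C' C → Van (cech (we (S.th x f))) ((S.px m).T C) ((S.px m).T C') j →
      Van D ((S.px m).T C) ((S.px m).T C') j := fun C C' j h hv => by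
    rw [hD, ← Gr.sum]
    refine W.van _ _ _ _ _ j (1 - j) (Gr.wok C C' h) (fun y hy w hw => ?_) hv
    rw [Gr.low C j y hy w hw]
    exact zero_mem _
  have adj : ∀ g ∈ Algebra.adjoin ℂ {t}, Commute (mu _ g) D ∧
      ∀ C, Keeps (mu _ g) ((S.px m).T C) ((S.px m).T C) := fun g hg => by
    refine ⟨Th.comm g (Algebra.adjoin_le (Set.singleton_subset_iff.2 ?_) hg),
      fun C => L.mu_T C g fun c => (Algebra.adjoin_le (S := (S.px m).A c)
        (Set.singleton_subset_iff.2 ?_) hg)⟩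
    · exact add_mem (Algebra.subset_adjoin ⟨none, rfl⟩) (Subalgebra.algebraMap_mem _ _)
    · exact add_mem (X_mem _ _) (Subalgebra.algebraMap_mem _ _)
  have tm : t ∈ Algebra.adjoin ℂ {t} := Algebra.subset_adjoin rfl
  have um : Polynomial.aeval t u ∈ Algebra.adjoin ℂ {t} := Polynomial.aeval_mem_adjoin_singleton _ _
  have cm : ∀ c : ℂ, algebraMap ℂ (PX m Ω) c ∈ Algebra.adjoin ℂ {t} :=
    fun c => Subalgebra.algebraMap_mem _ _
  have Hm : ∀ i C, Maps (H i) ((S.px m).T C) ((S.px m).T C) (-1) := fun i C j y hy =>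
    (adj _ (cm _)).2 C _ _ (Ho.maps C i j y hy)
  have Ha : ∀ i j, H i * H j + H j * H i = 0 := fun i j => by
    simp only [hH]
    rw [mul_mul _ _ (Ho.lin i), mul_mul _ _ (Ho.lin j), mul_comm (algebraMap ℂ _ ((a j : ℂ)⁻¹)),
      ← mul_add, Ho.anti, mul_zero]
  have Hs : ∀ i, H i * H i = 0 := fun i => by
    simp only [hH]
    rw [mul_mul _ _ (Ho.lin i), Ho.sq, mul_zero]
  rw [hbu, ← ht] at e4
  have l1 : Le {c0 + fun j => (a j : ℤ)} {c0} := fun c hc =>
    ⟨c0, mem_singleton_self _, mem_singleton.1 hc ▸ le_add_of_nonneg_right a0⟩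
  have l2 : Le {c0} {c0 - v • fun j => (a j : ℤ)} := fun c hc =>
    ⟨_, mem_singleton_self _, mem_singleton.1 hc ▸ sub_le_self _ (nsmul_nonneg a0 v)⟩
  obtain ⟨y, -, hy⟩ := van _ _ n l2 (hV1 v) η e3 (by
    have := sub_mem ((adj _ (mul_mem (pow_mem tm r) um)).2 {c0} _ _ e1) (L.T_le _ _ l1 _ e4)
    rwa [mu_apply, sub_sub_cancel] at this)
  have hk := adj _ (pow_mem tm (I.card - 1 - r))
  have key := hMult (PX m Ω) _ J D t H ((S.px m).T {c0})
    (fun s => (S.px m).T (KJ c0 s)) I (n + 1) (om ι n (PX m Ω))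
    (t ^ (I.card - 1 - r) • (η - D y)) u hI (fun s => pair _ _ (le_KJ _ _))
    (fun s s' h => L.T_le _ _ fun c hc => ⟨c, by
      obtain ⟨i, hi, e⟩ := (mem_KJ _ _ _).1 hc
      exact (mem_KJ _ _ _).2 ⟨i, h hi, e⟩, le_rfl⟩)
    (fun g hg => ⟨(adj g hg).1, fun i => (mu_comm _ _).mul_right ((Ho.lin i).comm g),
      (adj g hg).2 _, fun s => (adj g hg).2 _⟩) Ha Hs (fun i => Hm i _) (fun i s => Hm i _)
    (fun i hi j z hz => ?_) e1 e2 ?_ hu (fun i hi => ?_)
    (fun s hs hs' _ => van _ _ _ (le_KJ _ _) (hV2 s hs hs'))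
  · obtain ⟨η', f1, f2⟩ := key
    obtain ⟨i0, hi0⟩ := hI
    have hc : 1 ≤ I.card := by omega
    have f3 : η' ∈ (S.px m).T {c0} (n + 1 - I.card + 1 - 1) := by
      rw [add_sub_cancel_right]
      exact f1
    have f4 := hV2 I Subset.rfl ⟨i0, hi0⟩
    rw [hD, ← Gr.sum] at f2
    rw [← add_sub_cancel_right ((n : ℤ) + 1 - I.card) 1] at f4
    have g1 := W.low _ _ _ _ _ _ (-n + (I.card - 1 : ℕ)) _ η'
      (Gr.wok {c0} (KJ c0 I) (le_KJ _ _)) ?_ f3 f2 f4 (fun z hz w hw => ?_)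
    · have g2 := Hm i0 _ _ _ g1
      rw [top_term A H Ha Hs I i0 hi0] at g2
      exact hNon Ω ι J n m S x f a hx hf kk b c0 I c1 (fun i => (a i : ℂ)⁻¹) _ hM hR h1 h3
        (fun i hi => inv_ne_zero (ha i hi)) h5 g2
    · rw [map_sum]
      refine sum_congr rfl fun i hi => ?_
      rw [map_zsmul, ← card_erase_of_mem hi, weight A _ H (fun j w => ?_) _ _ _ Gr.om]
      simp only [hH]
      rw [mul_assoc, Gr.hh, ← mul_assoc, ← mul_assoc, MvPolynomial.algebraMap_apply,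
        (Gr.mu _ _).eq]
    · rw [Gr.low _ _ z hz w (by omega)]
      exact zero_mem _
  · have g1 := (adj _ (cm (a i : ℂ)⁻¹)).2 _ _ _ (Th.hom c0 i j z hz)
    have g2 : algebraMap ℂ (PX m Ω) (a i : ℂ)⁻¹ *
        ((c0 i : PX m Ω) + (a i : PX m Ω) * MvPolynomial.X none) = t := by
      have e : (c0 i : ℂ) = la * a i := by rw [h3 i hi, ← h4 i hi]; push_cast; rfl
      rw [← map_intCast (algebraMap ℂ (PX m Ω)), ← map_natCast (algebraMap ℂ (PX m Ω)), mul_add,
        ← mul_assoc, ← map_mul, ← map_mul, e, inv_mul_cancel₀ (ha i hi), map_one, one_mul,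
        mul_left_comm, inv_mul_cancel₀ (ha i hi), mul_one, add_comm]
    rw [map_sub, map_add, mu_apply _ (_ • z), smul_smul, g2, ← op_mul, (adj _ (cm _)).1.eq] at g1
    refine L.T_le _ _ (fun c hc => ⟨c, (mem_KJ _ _ _).2 ⟨i, mem_singleton_self _,
      (mem_singleton.1 hc).symm⟩, le_rfl⟩) _ g1
  · rw [add_sub_cancel_right]
    exact hk.2 _ _ _ hy
  · have g1 := hk.2 _ _ _ e4
    rw [map_sub, mu_apply, smul_smul, ← mul_assoc, ← pow_add,
      show I.card - 1 - r + r = I.card - 1 by omega] at g1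
    have g2 : D (t ^ (I.card - 1 - r) • (η - D y)) = mu _ (t ^ (I.card - 1 - r)) (D η) := by
      rw [← mu_apply, ← op_mul, ← hk.1.eq, op_mul, map_sub D, (pair _ _ l1).dd', sub_zero]
    rw [g2]
    refine L.T_le _ _ (fun c hc => ⟨_, (mem_KJ _ _ _).2 ⟨i, mem_singleton_self _, rfl⟩, ?_⟩) _ g1
    rw [mem_singleton.1 hc]
    refine add_le_add_right (fun j => ?_) _
    rw [ind_apply]
    split_ifs with hj
    · rw [mem_singleton.1 hj]
      exact Int.natCast_pos.2 (Nat.pos_of_ne_zero fun e => ha i hi (Nat.cast_eq_zero.2 e))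
    · exact Int.natCast_nonneg _

end Pool.Agent.MP_ee8c61_ag.H59
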