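import Pool.Agent.MP_ee8c61_ag.H59.SpecC

/-!
The map of Deligne and Illusie keeps the lattices, and its leading term.
-/

namespace Pool.Agent.MP_ee8c61_ag.H59

open Finset Sys

namespace Ph2X

variable {k Ω ι J : Type} {n : ℕ} [CommRing k] [CommRing Ω] [Algebra k Ω] [Fintype J]
  {S : Sys k Ω ι J n} {ℓ : ℕ} [Fact ℓ.Prime] [CharP Ω ℓ]

theorem fr0_apply (w : Fm n Ω) : fr0 ℓ w = vac n (w ∅ ^ ℓ) := rfl

theorem frc_apply (a : ι) (w : Fm n Ω) (σ : Finset (Fin n)) :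
    S.frc ℓ a w σ = w σ ^ ℓ * ∏ i ∈ σ, S.xi ℓ a i := rfl

theorem vac_emp (g : Ω) : vac n g ∅ = g := Pi.single_eq_same _ _

theorem frc_vac (a : ι) (g : Ω) : S.frc ℓ a (vac n g) = vac n (g ^ ℓ) := by
  funext σ
  rw [frc_apply]
  by_cases h : σ = ∅
  · subst h
    rw [vac_emp, vac_emp, prod_empty, mul_one]
  · rw [vac, vac, Pi.single_eq_of_ne h, Pi.single_eq_of_ne h,
      zero_pow (Fact.out : ℓ.Prime).ne_zero, zero_mul]

theorem frc_ep (a : ι) (i : Fin n) (w : Fm n Ω) :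
    S.frc ℓ a (ep i w) = S.xi ℓ a i • ep i (S.frc ℓ a w) := by
  funext σ
  rw [frc_apply, Pi.smul_apply, ep_apply, ep_apply]
  split_ifs with h
  · have := map_zsmul (frobenius Ω ℓ) (sgn i σ) (w (σ.erase i))
    rw [frobenius_def, frobenius_def] at this
    rw [this, frc_apply, ← mul_prod_erase σ _ h]
    simp only [zsmul_eq_mul, smul_eq_mul]
    ring
  · rw [zero_pow (Fact.out : ℓ.Prime).ne_zero, zero_mul, smul_zero]

theorem vac_mem (hFo : Fo Ω n) (hLa : La Ω n) (hFr : Fr S) (hLo : Lo S) (hLm : Lm S)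
    {σ : Finset ι} {a : ι} (ha : a ∈ σ) {c : J → ℤ} {q : ℤ} {w : Fm n Ω} (hw : w ∈ S.lm {c} σ q)
    (h0 : pd n 0 w = w) : fr0 ℓ w ∈ S.lm {ℓ • c} σ q := by
  by_cases hq : q = 0
  · subst hq
    have h1 := ((hFo.mem_fl _ _ _).1 ((hLm.mem _ σ a ha _ _).1 hw)).1 ∅
    rw [Sys.crd, hLa.emp, hLo.mem_one] at h1
    rw [hLm.mem _ σ a ha, fr0_apply, Sys.crd, hLa.vac, hFo.mem_fl]
    refine ⟨fun s => ?_, by rw [hFo.pd_zero, vac_emp]⟩
    by_cases hs : s = ∅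
    · subst hs
      rw [vac_emp, hLo.mem_one, ← natCast_zsmul, hFr.mon_zsmul, zpow_natCast, ← inv_pow,
        Units.val_pow_eq_pow_val, ← mul_pow]
      exact pow_mem h1 _
    · rw [vac, Pi.single_eq_of_ne hs]
      exact zero_mem _
  · have h1 := hLm.pure _ _ _ _ hw
    have h2 := DFunLike.congr_fun (hFo.pd_gr.orth q 0) w
    rw [if_neg hq, op_mul, h0, h1, op_zero] at h2
    rw [h2, map_zero]
    exact zero_mem _

variable [Fintype ι] [LinearOrder ι] [Inhabited ι] {δ : ι → Fin n → Ω}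

omit [Fintype ι] [LinearOrder ι] [Inhabited ι] [Fact ℓ.Prime] [CharP Ω ℓ] in
theorem pure_co (hFo : Fo Ω n) (β : Fin n → Ω) (p : ℕ) {x : Ch ι (Fm n Ω)}
    (hx : ev (pd n ((p + 1 : ℕ) : ℤ)) x = x) : ev (pd n p) (od (co β) x) = od (co β) x := by
  funext τ
  have h1 := congrFun hx τ
  have h2 := DFunLike.congr_fun (hFo.pd_co β p) (x τ)
  rw [ev_apply, Nat.cast_succ] at h1
  rw [op_mul, op_mul, h1] at h2
  rw [ev_apply, od_apply, map_zsmul, ← h2]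

theorem mem_Tl' (hFo : Fo Ω n) (hLa : La Ω n) (hFr : Fr S) (hLo : Lo S) (hLm : Lm S)
    (hMo : Mo S ℓ δ) (hP : Ph1 S ℓ δ) (hF : S.FD ℓ δ) {σ : Finset ι} {a : ι} (ha : a ∈ σ)
    (c : J → ℤ) (p : ℕ) : ∀ j, ∀ x ∈ S.Tl {c} σ j, ev (pd n p) x = x →
      S.Ph ℓ δ p x ∈ S.Tl {ℓ • c} σ j := by
  induction p with
  | zero =>
    intro j x hx h0
    rw [mem_Tl] at hx ⊢
    refine ⟨?_, fun τ h1 h2 => ?_⟩
    · change fr0 ℓ (x ∅) = 0
      rw [hx.1, map_zero]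
    · exact vac_mem hFo hLa hFr hLo hLm ha (hx.2 τ h1 h2) (congrFun h0 τ)
  | succ p ih =>
    intro j x hx h0
    rw [hP.frame p a, op_sum]
    refine sum_mem fun i _ => ?_
    have hy : od (co (S.v a i)) x ∈ S.Tl {c} σ (j - 1) := by
      rw [mem_Tl] at hx ⊢
      refine ⟨by rw [od_apply, hx.1, map_zero, smul_zero], fun τ h1 h2 => ?_⟩
      rw [od_apply, show j - 1 - (τ.card : ℤ) = j - τ.card + -1 by ring]
      exact zsmul_mem (hLm.co _ σ _ (hLm.logV_v σ a ha i) _ _ (hx.2 τ h1 h2)) _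
    have := hMo.maps hF _ σ _ (hLm.logF_e σ a ha i) _ _ (ih _ _ hy (pure_co hFo _ p h0))
    rwa [sub_add_cancel] at this

theorem mem (hFo : Fo Ω n) (hLa : La Ω n) (hFr : Fr S) (hLo : Lo S) (hLm : Lm S)
    (hMo : Mo S ℓ δ) (hP : Ph1 S ℓ δ) (hF : S.FD ℓ δ) (p : ℕ) (c : J → ℤ) (j : ℤ)
    (x : Ch ι (Fm n Ω)) (hx : x ∈ S.T {c} j) (h0 : ev (pd n p) x = x) :
    S.Ph ℓ δ p x ∈ S.T {ℓ • c} j := by
  rw [mem_T] at hx ⊢
  have hT : ∀ σ, x ∈ S.Tl {c} σ j := fun σ => by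
    rw [mem_Tl]
    refine ⟨?_, fun τ h1 _ => hLm.mono _ τ σ h1 _ (hx τ)⟩
    have := hx ∅
    rwa [hLm.emp, mem_lat_bot] at this
  intro σ
  rcases σ.eq_empty_or_nonempty with rfl | ⟨a, ha⟩
  · have := mem_Tl' hFo hLa hFr hLo hLm hMo hP hF (mem_singleton_self (default : ι)) c p j x
      (hT _) h0
    rw [mem_Tl] at this
    rw [this.1]
    exact zero_mem _
  · have := mem_Tl' hFo hLa hFr hLo hLm hMo hP hF ha c p j x (hT _) h0
    rw [mem_Tl] at this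
    exact this.2 σ subset_rfl ⟨a, ha⟩

omit [Fintype ι] [LinearOrder ι] [Inhabited ι] in
theorem fr_step (hFo : Fo Ω n) (hLa : La Ω n) (hFr : Fr S) (a : ι) (i : Fin n) (w : Fm n Ω) :
    we (S.xi ℓ a i • S.e a i) (S.fr ℓ a (co (S.v a i) w))
      = S.frm a (S.frc ℓ a (ep i (io i (S.crd a w)))) := by
  have h1 := DFunLike.congr_fun (hFr.crd_v a i) w
  have h2 := fun u => DFunLike.congr_fun (hLa.ep (S.e a) i) u
  simp only [op_mul] at h1 h2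
  rw [hFo.we_smul, Sys.fr, op_mul, op_mul, op_mul, mu_apply, h1, frc_ep, Sys.frm, hLa.lin, h2]

theorem lead (hFo : Fo Ω n) (hLa : La Ω n) (hFr : Fr S) (hMo : Mo S ℓ δ) (hP : Ph1 S ℓ δ)
    (hF : S.FD ℓ δ) (p : ℕ) : ∀ x, ev (pd n p) x = x → ∀ σ,
      pd n p (S.Ph ℓ δ p x σ) = p.factorial • S.fr ℓ (pick σ) (x σ) := by
  induction p with
  | zero =>
    intro x h0 σ
    have h1 : vac n (x σ ∅) = x σ := (hFo.pd_zero _).symm.trans (congrFun h0 σ)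
    change pd n 0 (fr0 ℓ (x σ)) = _
    rw [fr0_apply, hFo.pd_zero, vac_emp, Nat.factorial_zero, one_smul, Sys.fr, op_mul, op_mul]
    conv_rhs => rw [← h1, Sys.crd, hLa.vac, frc_vac, Sys.frm, hLa.vac]
  | succ p ih =>
    intro x h0 σ
    have hd : ∀ y τ, pd n ((p + 1 : ℕ) : ℤ) (S.Ph ℓ δ p y τ) = 0 := fun y τ =>
      congrFun (DFunLike.congr_fun (hP.deg p _ (by exact_mod_cast p.lt_succ_self)) y) τ
    have key : ∀ i, pd n ((p + 1 : ℕ) : ℤ) (S.mo ℓ δ (S.e (pick σ) i)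
        (S.Ph ℓ δ p (od (co (S.v (pick σ) i)) x)) σ) = p.factorial • S.frm (pick σ)
          (S.frc ℓ (pick σ) (ep i (io i (S.crd (pick σ) (x σ))))) := fun i => by
      have h2 := fun α u => DFunLike.congr_fun (hFo.pd_we α p) u
      simp only [op_mul] at h2
      rw [hMo.apply, map_add, map_sum, sum_eq_zero fun b _ => by
        rw [map_zsmul, hFo.lin_pd, hd, smul_zero, smul_zero], add_zero, map_zsmul, Nat.cast_succ,
        ← h2, ih _ (pure_co hFo _ p h0), hMo.zt_e hF, od_apply, map_zsmul, map_nsmul, map_zsmul,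
        fr_step hFo hLa hFr, smul_comm, smul_smul ((-1 : ℤ) ^ σ.card), ← mul_pow]
      simp
    have hp : pd n ((p + 1 : ℕ) : ℤ) (S.crd (pick σ) (x σ)) = S.crd (pick σ) (x σ) := by
      have h1 : pd n ((p + 1 : ℕ) : ℤ) (x σ) = x σ := congrFun h0 σ
      have h2 := DFunLike.congr_fun (hLa.pd (fun l i => S.v (pick σ) i l) ((p + 1 : ℕ) : ℤ)).eq
        (x σ)
      rw [op_mul, op_mul, h1] at h2
      exact h2.symm
    rw [hP.frame p (pick σ), op_sum, Finset.sum_apply, map_sum]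
    simp only [op_mul]
    rw [sum_congr rfl fun i _ => key i, ← smul_sum, ← map_sum, ← map_sum, hFo.pd_num _ _ hp,
      map_nsmul, map_nsmul, smul_smul, Nat.factorial_succ, mul_comm]
    rfl

end Ph2X

theorem rowPh2 : OfPh2 := by
  intro _ hFo hLa hFr hLo hLm hMo hP k Ω ι J n _ _ _ _ _ _ _ S ℓ _ _ δ hF
  exact ⟨Ph2X.mem (hFo Ω n) (hLa Ω n) (hFr k Ω ι J n S) (hLo k Ω ι J n S) (hLm k Ω ι J n S)
      (hMo k Ω ι J n S ℓ δ) (hP k Ω ι J n S ℓ δ) hF,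
    Ph2X.lead (hFo Ω n) (hLa Ω n) (hFr k Ω ι J n S) (hMo k Ω ι J n S ℓ δ) (hP k Ω ι J n S ℓ δ) hF⟩

end Pool.Agent.MP_ee8c61_ag.H59
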