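import Pool.Agent.MP_ee8c61_ag.H59.SpecA

namespace Pool.Agent.MP_ee8c61_ag.H59

open Finset

namespace RiX

variable {κ κ' M : Type} [LinearOrder κ] [LinearOrder κ'] [AddCommGroup M] (f : κ ↪o κ')

/-- Restriction of cochains. -/
def ps (γ : Ch κ' M) : Ch κ M := fun σ => γ (σ.map f.toEmbedding)

/-- Supported on the subsets of `S`. -/
def Sup (S : Finset κ') (γ : Ch κ' M) : Prop := ∀ σ, ¬ σ ⊆ S → γ σ = 0

theorem sgn_map (i : κ) (σ : Finset κ) : sgn (f i) (σ.map f.toEmbedding) = sgn i σ := by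
  rw [sgn, sgn, filter_map, card_map]
  congr 2
  exact filter_congr fun x _ => f.lt_iff_lt

theorem ps_kos (hC : SCar) (d : Op M) {t : κ → Op M} {t' : κ' → Op M} {S : Finset κ}
    (h : ∀ i ∈ S, t' (f i) = t i) (γ : Ch κ' M) :
    ps f (kos d t' (S.map f.toEmbedding) γ) = kos d t S (ps f γ) := by
  funext σ
  rw [ps, (hC κ' M).kos_apply, (hC κ M).kos_apply, card_map, ← map_inter, sum_map]
  congr 1
  refine sum_congr rfl fun i hi => ?_
  rw [ps, map_erase, ← h i (mem_inter.1 hi).1, ← sgn_map f]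
  rfl

theorem sup_kos (hC : SCar) (d : Op M) (t : κ' → Op M) {S : Finset κ'} {γ : Ch κ' M}
    (h : Sup S γ) : Sup S (kos d t S γ) := fun σ a => by
  rw [(hC κ' M).kos_apply, h σ a, map_zero, smul_zero, zero_add]
  refine sum_eq_zero fun i hi => ?_
  rw [h _ fun b => a ?_, map_zero, smul_zero]
  intro x hx
  by_cases e : x = i
  · exact e ▸ (mem_inter.1 hi).1
  · exact b (mem_erase.2 ⟨e, hx⟩)

theorem mem_iff {S : Finset κ} {F : Finset κ → Lat M} {G : Finset κ' → Lat M}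
    (h : ∀ σ ⊆ S, G (σ.map f.toEmbedding) = F σ) (j : ℤ) (γ : Ch κ' M) :
    γ ∈ kl (S.map f.toEmbedding) G j ↔ Sup (S.map f.toEmbedding) γ ∧ ps f γ ∈ kl S F j := by
  rw [mem_kl, mem_kl]
  refine ⟨fun a => ⟨fun σ => (a σ).2, fun σ => ⟨fun b => ?_, fun b => (a _).2 fun c =>
    b (map_subset_map.1 c)⟩⟩, fun a σ => ⟨fun b => ?_, a.1 σ⟩⟩
  · have := (a _).1 (map_subset_map.2 b)
    rwa [h σ b, card_map] at this
  · obtain ⟨τ, c, rfl⟩ := subset_map_iff.1 b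
    rw [h τ c, card_map]
    exact (a.2 τ).1 c

theorem lift {S : Finset κ} {F : Finset κ → Lat M} {j : ℤ} {γ : Ch κ M} (h : γ ∈ kl S F j) :
    ∃ γ', Sup (S.map f.toEmbedding) γ' ∧ ps f γ' = γ := by
  refine ⟨fun σ => if σ ⊆ S.map f.toEmbedding then
    γ (σ.preimage f.toEmbedding f.toEmbedding.injective.injOn) else 0, fun σ a => if_neg a,
    funext fun σ => ?_⟩
  rw [ps]
  split_ifs with a
  · rw [preimage_map]
  · exact (((mem_kl _ _ _ _).1 h σ).2 fun b => a (map_subset_map.2 b)).symm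

end RiX

open RiX in
theorem rowRi : OfRi := by
  intro hC κ κ' M _ _ _ f d t t' S F F' G G' j ht hG hG'
  have e : ∀ x y, ps f (x - kos d t' (S.map f.toEmbedding) y) = ps f x - kos d t S (ps f y) :=
    fun x y => by rw [← ps_kos f hC d ht]; rfl
  constructor
  · intro h x a b
    rw [mem_iff f hG] at a
    rw [mem_iff f hG', ps_kos f hC d ht] at b
    obtain ⟨y, c, g⟩ := h _ a.2 b.2
    obtain ⟨y', s, rfl⟩ := lift f c
    refine ⟨y', (mem_iff f hG _ _).2 ⟨s, c⟩, (mem_iff f hG' _ _).2 ⟨fun σ u => ?_, e _ _ ▸ g⟩⟩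
    rw [Pi.sub_apply, a.1 σ u, sup_kos hC d t' s σ u, sub_zero]
  · intro h x a b
    obtain ⟨x', s, rfl⟩ := lift f a
    obtain ⟨y, c, g⟩ := h x' ((mem_iff f hG _ _).2 ⟨s, a⟩)
      ((mem_iff f hG' _ _).2 ⟨sup_kos hC d t' s, ps_kos f hC d ht _ ▸ b⟩)
    exact ⟨ps f y, ((mem_iff f hG _ _).1 c).2, e _ _ ▸ ((mem_iff f hG' _ _).1 g).2⟩

end Pool.Agent.MP_ee8c61_ag.H59
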