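import Pool.Agent.MP_ee8c61_ag.H59.SpecB

/-!
Generators of the graded module of sections.
-/

namespace Pool.Agent.MP_ee8c61_ag.H59

open Finset

namespace T1gX

section Abs

variable {k Ω ι V : Type} [CommRing k] [CommRing Ω] [Algebra k Ω] [AddCommGroup V] [Module Ω V]

/-- The scalars that keep a submodule. -/
def stab (R : Subalgebra k Ω) (N : Submodule R V) : Subalgebra k Ω where
  carrier := {h | ∀ v ∈ N, h • v ∈ N}
  mul_mem' := fun h h' v hv => by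
    rw [mul_smul]
    exact h _ (h' v hv)
  add_mem' := fun h h' v hv => by
    rw [add_smul]
    exact add_mem (h v hv) (h' v hv)
  algebraMap_mem' := fun c _ hv => N.smul_mem ⟨_, R.algebraMap_mem c⟩ hv

/-- The elements that a power of `u` moves into `A`. -/
def locS (A : Subalgebra k Ω) {u : Ω} (hu : u ∈ A) : Subalgebra k Ω where
  carrier := {g | ∃ K : ℕ, u ^ K * g ∈ A}
  mul_mem' := fun {g g'} ⟨K, h⟩ ⟨K', h'⟩ => ⟨K + K', by
    rw [show u ^ (K + K') * (g * g') = u ^ K * g * (u ^ K' * g') by ring]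
    exact mul_mem h h'⟩
  add_mem' := fun {g g'} ⟨K, h⟩ ⟨K', h'⟩ => ⟨K + K', by
    rw [show u ^ (K + K') * (g + g') = u ^ K' * (u ^ K * g) + u ^ K * (u ^ K' * g') by ring]
    exact add_mem (mul_mem (pow_mem hu _) h) (mul_mem (pow_mem hu _) h')⟩
  algebraMap_mem' := fun c => ⟨0, by
    rw [pow_zero, one_mul]
    exact A.algebraMap_mem c⟩

theorem zpow_mem_of (A : Subalgebra k Ω) (u : Ωˣ) (z : ℤ) (h : (u : Ω) ∈ A)
    (h' : 0 ≤ z ∨ ((u⁻¹ : Ωˣ) : Ω) ∈ A) : ((u ^ z : Ωˣ) : Ω) ∈ A := by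
  obtain ⟨m, rfl | rfl⟩ := z.eq_nat_or_neg
  · rw [zpow_natCast, Units.val_pow_eq_pow_val]
    exact pow_mem h m
  · rcases h' with h' | h'
    · rw [show m = 0 by omega]
      simp
    · rw [zpow_neg, zpow_natCast, ← inv_pow, Units.val_pow_eq_pow_val]
      exact pow_mem h' m

/-- A finitely generated algebra of integral elements is a finite module. -/
theorem fin_mod (R A : Subalgebra k Ω) (hle : R ≤ A) (hA : A.FG) (hi : ∀ g ∈ A, IsIntegral R g) :
    ∃ U : Finset Ω, (∀ u ∈ U, u ∈ A) ∧ ∀ g ∈ A, g ∈ Submodule.span R (U : Set Ω) := by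
  obtain ⟨t, ht⟩ := hA
  have h1 : (t : Set Ω) ⊆ A := ht ▸ Algebra.subset_adjoin
  obtain ⟨U, hU⟩ := fg_adjoin_of_finite (R := R) t.finite_toSet fun g hg => hi g (h1 hg)
  let A' : Subalgebra R Ω := { A.toSubsemiring with algebraMap_mem' := fun r => hle r.2 }
  have h2 : Algebra.adjoin R (t : Set Ω) ≤ A' := Algebra.adjoin_le h1
  refine ⟨U, fun u hu => h2 ?_, fun g hg => ?_⟩
  · have : u ∈ Submodule.span R (U : Set Ω) := Submodule.subset_span hu
    rw [hU] at this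
    exact this
  · rw [hU]
    have h3 : A ≤ (Algebra.adjoin R (t : Set Ω)).restrictScalars k :=
      ht ▸ Algebra.adjoin_le Algebra.subset_adjoin
    exact h3 hg

variable [Fintype ι]

theorem prod_add' (ρ : ι → Ωˣ) (β β' : ι → ℤ) :
    ∏ a, ρ a ^ (β + β') a = (∏ a, ρ a ^ β a) * ∏ a, ρ a ^ β' a := by
  simp only [Pi.add_apply, zpow_add, prod_mul_distrib]

theorem prod_single [DecidableEq ι] (ρ : ι → Ωˣ) (b : ι) (z : ℤ) :
    ∏ a, ρ a ^ (Pi.single b z : ι → ℤ) a = ρ b ^ z := by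
  rw [prod_eq_single b (fun a _ h => by simp [h]) (by simp), Pi.single_eq_same]

theorem prod_shift (ρ : ι → Ωˣ) (β : ι → ℤ) (u : Ωˣ) :
    ∏ a, ρ a ^ β a = (∏ a, (ρ a / u) ^ β a) * u ^ ∑ a, β a := by
  classical
  induction (univ : Finset ι) using Finset.induction_on with
  | empty => simp
  | insert a s ha ih =>
    rw [prod_insert ha, prod_insert ha, sum_insert ha, ih, zpow_add, mul_mul_mul_comm, ← mul_zpow,
      div_mul_cancel]

theorem core (X : Set Ω) (ρ : ι → Ωˣ) (M : Finset ι → AddSubgroup V)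
    (AA : Finset ι → Subalgebra k Ω) (hmu : ∀ σ, ∀ h ∈ AA σ, ∀ v ∈ M σ, h • v ∈ M σ)
    (hmono : ∀ σ σ', σ ⊆ σ' → M σ ≤ M σ') (hX : ∀ σ : Finset ι, σ.Nonempty → X ⊆ AA σ)
    (hρ : ∀ σ, ∀ a ∈ σ, ∀ b, ((ρ b / ρ a : Ωˣ) : Ω) ∈ AA σ)
    (hloc : ∀ σ, ∀ a ∈ σ, ∀ y ∈ M σ, ∃ K : ℕ,
      ((∏ b ∈ σ, ρ b / ρ a : Ωˣ) : Ω) ^ K • y ∈ M {a})
    (hfg : ∀ a, ∃ G : Finset V, (∀ ψ ∈ G, ψ ∈ M {a}) ∧ ∀ N : AddSubgroup V,
      (∀ h ∈ Algebra.adjoin k (X ∪ Set.range fun b => ((ρ b / ρ a : Ωˣ) : Ω)), ∀ v ∈ N,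
        h • v ∈ N) → (∀ ψ ∈ G, ψ ∈ N) → M {a} ≤ N) :
    ∃ (r : ℕ) (g : Fin r → V) (e : Fin r → ℤ), ∀ σ : Finset ι, σ.Nonempty → ∀ y, y ∈ M σ ↔
      y ∈ Submodule.span (Algebra.adjoin k X) {v | ∃ (i : Fin r) (β : ι → ℤ),
        (∀ a ∉ σ, 0 ≤ β a) ∧ ∑ a, β a + e i = 0 ∧ v = ((∏ a, ρ a ^ β a : Ωˣ) : Ω) • g i} := by
  classical
  have hE : ∀ a, ∀ ψ ∈ M {a}, ∃ E : ℕ, ∀ b, ((ρ a / ρ b : Ωˣ) : Ω) ^ E • ψ ∈ M {b} := by
    intro a ψ hψ
    have : ∀ b, ∃ K : ℕ, ((ρ a / ρ b : Ωˣ) : Ω) ^ K • ψ ∈ M {b} := by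
      intro b
      obtain ⟨K, hK⟩ := hloc {a, b} b (by simp) ψ (hmono _ _ (by simp) hψ)
      refine ⟨K, ?_⟩
      have e : ∏ c ∈ {a, b}, ρ c / ρ b = ρ a / ρ b := by
        by_cases h : a = b
        · subst h
          simp
        · rw [prod_pair h, div_self', mul_one]
      rwa [e] at hK
    choose K hK using this
    refine ⟨∑ b, K b, fun b => ?_⟩
    obtain ⟨d, hd⟩ := Nat.exists_eq_add_of_le' (single_le_sum (f := K) (fun _ _ => Nat.zero_le _)
      (mem_univ b))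
    rw [hd, pow_add, mul_smul]
    exact hmu _ _ (pow_mem (hρ _ b (mem_singleton_self b) a) d) _ (hK b)
  choose G hG hG' using hfg
  choose! E hE using hE
  let κ := (a : ι) × G a
  let q := (Fintype.equivFin κ).symm
  refine ⟨_, fun i => ((ρ (q i).1 : Ωˣ) : Ω) ^ E (q i).1 (q i).2 • ((q i).2 : V),
    fun i => E (q i).1 (q i).2, fun σ ⟨a, ha⟩ y => ⟨fun hy => ?_, fun hy => ?_⟩⟩
  · set N := Submodule.span (Algebra.adjoin k X) {v : V | ∃ (i : Fin (Fintype.card κ)) (β : ι → ℤ),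
      (∀ a ∉ σ, 0 ≤ β a) ∧ ∑ a, β a + (E (q i).1 (q i).2 : ℤ) = 0 ∧
      v = ((∏ a, ρ a ^ β a : Ωˣ) : Ω) • ((ρ (q i).1 : Ωˣ) : Ω) ^ E (q i).1 (q i).2 •
        ((q i).2 : V)} with hN
    have hs : ∀ c ∈ σ, ∀ b, ((ρ b / ρ c : Ωˣ) : Ω) ∈ stab _ N := by
      intro c hc b v hv
      induction hv using Submodule.span_induction with
      | mem v hv =>
        obtain ⟨i, β, h1, h2, rfl⟩ := hv
        refine Submodule.subset_span ⟨i, Pi.single b 1 + Pi.single c (-1) + β, fun d hd => ?_,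
          ?_, ?_⟩
        · have h3 : d ≠ c := fun e => hd (e ▸ hc)
          have h4 := h1 d hd
          have h5 : (0 : ℤ) ≤ (Pi.single b 1 : ι → ℤ) d := by
            rw [Pi.single_apply]
            split_ifs <;> simp
          simp only [Pi.add_apply, Pi.single_eq_of_ne h3]
          omega
        · simp only [Pi.add_apply, sum_add_distrib, sum_pi_single', mem_univ, if_true]
          omega
        · rw [prod_add', prod_add', prod_single, prod_single, zpow_one, zpow_neg_one,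
            ← div_eq_mul_inv, Units.val_mul, mul_smul]
      | zero => simp
      | add v v' _ _ h h' =>
        rw [smul_add]
        exact add_mem h h'
      | smul r v _ h =>
        rw [Subalgebra.smul_def, smul_comm]
        exact N.smul_mem r h
    have h1 : M {a} ≤ N.toAddSubgroup := by
      refine hG' a _ (fun h hh => ?_) fun ψ hψ => ?_
      · refine (Algebra.adjoin_le (S := stab _ N) (Set.union_subset (fun z hz v hv => ?_) ?_)) hh
        · exact N.smul_mem ⟨z, Algebra.subset_adjoin hz⟩ hv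
        · rintro _ ⟨b, rfl⟩
          exact hs a ha b
      · obtain ⟨i, hi⟩ := q.surjective ⟨a, ψ, hψ⟩
        refine Submodule.subset_span ⟨i, Pi.single a (-(E a ψ : ℤ)), fun d hd => ?_, ?_, ?_⟩
        · have h3 : d ≠ a := fun e => hd (e ▸ ha)
          rw [Pi.single_eq_of_ne h3]
        · rw [hi]
          simp
        · rw [hi, prod_single, smul_smul, ← Units.val_pow_eq_pow_val,
            ← Units.val_mul, zpow_neg, zpow_natCast, inv_mul_cancel, Units.val_one, one_smul]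
    obtain ⟨K, hK⟩ := hloc σ a ha y hy
    have h2 : ((∏ b ∈ σ, ρ a / ρ b : Ωˣ) : Ω) ^ K ∈ stab _ N := by
      rw [Units.coe_prod]
      exact pow_mem (prod_mem fun b hb => hs b hb a) K
    have h3 := h2 _ (h1 hK)
    rwa [smul_smul, ← mul_pow, ← Units.val_mul, ← prod_mul_distrib,
      prod_eq_one fun b _ => by simp, Units.val_one, one_pow, one_smul] at h3
  · induction hy using Submodule.span_induction with
    | mem v hv =>
      obtain ⟨i, β, h1, h2, rfl⟩ := hv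
      have h3 := hmono _ σ (singleton_subset_iff.2 ha) (hE _ _ (hG _ _ (q i).2.2) a)
      have h4 : ((∏ b, (ρ b / ρ a) ^ β b : Ωˣ) : Ω) ∈ AA σ := by
        rw [Units.coe_prod]
        refine prod_mem fun b _ => zpow_mem_of _ _ _ (hρ σ a ha b) ?_
        by_cases hb : b ∈ σ
        · rw [inv_div]
          exact Or.inr (hρ σ b hb a)
        · exact Or.inl (h1 b hb)
      have h5 := hmu σ _ h4 _ h3
      rw [prod_shift ρ β (ρ a), eq_neg_of_add_eq_zero_left h2, Units.val_mul, mul_smul,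
        smul_smul ((ρ a ^ (-(E (q i).1 (q i).2 : ℤ)) : Ωˣ) : Ω), ← Units.val_pow_eq_pow_val,
        ← Units.val_mul, zpow_neg, zpow_natCast, inv_mul_eq_div, ← div_pow,
        Units.val_pow_eq_pow_val]
      exact h5
    | zero => exact zero_mem _
    | add v v' _ _ h h' => exact add_mem h h'
    | smul r v _ h => exact hmu σ _ (Algebra.adjoin_le (hX σ ⟨a, ha⟩) r.2) _ h

end Abs

variable {k Ω ι J : Type} {n m : ℕ} [CommRing k] [CommRing Ω] [Algebra k Ω] [Fintype J]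
  {S : Sys k Ω ι J n} {x : Fin m → Ω} {w : J → ℤ} {ρ : ι → Ωˣ}

theorem loc_ring (P : S.Pol x w ρ) (σ : Finset ι) (a : ι) (g : Ω) (hg : g ∈ S.AA σ) :
    ∃ K : ℕ, ((∏ b ∈ σ, ρ b / ρ a : Ωˣ) : Ω) ^ K * g ∈ S.A a := by
  classical
  have hu : ∀ τ : Finset ι, ((∏ b ∈ τ, ρ b / ρ a : Ωˣ) : Ω) ∈ S.A a := fun τ => by
    rw [Units.coe_prod]
    exact prod_mem fun b _ => P.mem b a
  refine (iSup₂_le fun b hb g hg => ?_ : S.AA σ ≤ locS (S.A a) (hu σ)) hg
  obtain ⟨e, he⟩ := P.loc b a g hg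
  refine ⟨e, ?_⟩
  rw [← prod_erase_mul σ _ hb, Units.val_mul, mul_pow, mul_assoc, ← Units.val_pow_eq_pow_val
    (ρ b / ρ a)]
  exact mul_mem (pow_mem (hu _) e) he

theorem loc_mod (Fo : Fo Ω n) (La : La Ω n) (Lo : Lo S) (Lm : Lm S) (P : S.Pol x w ρ)
    (c : J → ℤ) (p : ℤ) (σ : Finset ι) (a : ι) (ha : a ∈ σ) (y : Fm n Ω)
    (hy : y ∈ S.lm {c} σ p) :
    ∃ K : ℕ, ((∏ b ∈ σ, ρ b / ρ a : Ωˣ) : Ω) ^ K • y ∈ S.lm {c} {a} p := by
  rw [Lm.mem _ _ a ha, Fo.mem_fl] at hy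
  choose K hK using fun s => loc_ring P σ a _ ((Lo.mem_one _ _ _ _).1 (hy.1 s))
  refine ⟨∑ s, K s, ?_⟩
  rw [Lm.mem _ _ a (mem_singleton_self a), Sys.crd, La.lin, Fo.mem_fl, Fo.lin_pd]
  refine ⟨fun s => ?_, congrArg _ hy.2⟩
  obtain ⟨d, hd⟩ := Nat.exists_eq_add_of_le' (single_le_sum (f := K) (fun _ _ => Nat.zero_le _)
    (mem_univ s))
  rw [Lo.mem_one, Lo.single, hd, Pi.smul_apply, smul_eq_mul, pow_add, mul_assoc, mul_assoc]
  refine mul_mem (pow_mem ?_ d) (hK s)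
  rw [Units.coe_prod]
  exact prod_mem fun b _ => P.mem b a

theorem fg_mod (Fo : Fo Ω n) (La : La Ω n) (Fr : Fr S) (Lo : Lo S) (Lm : Lm S) (c : J → ℤ)
    (p : ℤ) (a : ι) : ∃ φ : Finset (Fin n) → Fm n Ω, (∀ s, φ s ∈ S.lm {c} {a} p) ∧
      ∀ y ∈ S.lm {c} {a} p, ∃ h : Finset (Fin n) → Ω, (∀ s, h s ∈ S.A a) ∧ y = ∑ s, h s • φ s := by
  refine ⟨fun s => S.frm a (pd n p (Pi.single s (S.mon a c : Ω))), fun s => ?_, fun y hy => ?_⟩
  · rw [Lm.mem _ _ a (mem_singleton_self a), ← op_mul, Fr.crd_frm, op_one, Fo.mem_fl, ← op_mul,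
      Fo.pd_gr.orth, if_pos rfl]
    refine ⟨fun t => ?_, rfl⟩
    rw [pd, evs_apply]
    split_ifs
    · rw [op_one, Pi.single_apply]
      split_ifs
      · rw [Lo.mem_one, Units.mul_inv]
        exact one_mem _
      · exact zero_mem _
    · exact zero_mem _
  · rw [Lm.mem _ _ a (mem_singleton_self a), Fo.mem_fl] at hy
    refine ⟨fun s => S.crd a y s * (((S.mon a c)⁻¹ : Ωˣ) : Ω),
      fun s => Lo.single a ▸ (Lo.mem_one _ _ _ _).1 (hy.1 s), ?_⟩
    have e : S.crd a y = ∑ s, (S.crd a y s * (((S.mon a c)⁻¹ : Ωˣ) : Ω)) •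
        (Pi.single s (S.mon a c : Ω) : Fm n Ω) := by
      funext t
      simp [Finset.sum_apply, Pi.single_apply]
    calc y = S.frm a (pd n p (S.crd a y)) := by rw [hy.2, ← op_mul, Fr.frm_crd, op_one]
      _ = _ := by
        conv_lhs => rw [e]
        rw [map_sum, map_sum]
        exact sum_congr rfl fun s _ => by rw [Fo.lin_pd, Sys.frm, La.lin]

end T1gX

open T1gX in
theorem rowT1g : OfT1g := by
  intro hFo hLa hFr hLo hLm k Ω ι J n _ _ _ _ S _ m x w ρ hfg P c p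
  classical
  have Lo := hLo k Ω ι J n S
  have Lm := hLm k Ω ι J n S
  refine core (Set.range x) ρ (fun σ => S.lm {c} σ p) S.AA
    (fun σ h hh v hv => Lm.mu _ σ h hh p v hv) (fun σ σ' h => Lm.mono _ σ σ' h p)
    (fun σ ⟨a, ha⟩ _ ⟨l, hl⟩ => hl ▸ Lo.le σ a ha (P.x_mem a l))
    (fun σ a ha b => Lo.le σ a ha (P.mem b a))
    (loc_mod (hFo Ω n) (hLa Ω n) Lo Lm P c p) fun a => ?_
  obtain ⟨φ, h1, h2⟩ := fg_mod (hFo Ω n) (hLa Ω n) (hFr k Ω ι J n S) Lo Lm c p a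
  obtain ⟨U, h3, h4⟩ := fin_mod _ (S.A a) (Algebra.adjoin_le (Set.union_subset
    (by rintro _ ⟨l, rfl⟩; exact P.x_mem a l) (by rintro _ ⟨b, rfl⟩; exact P.mem b a)))
    (hfg a) (P.int a)
  refine ⟨(U ×ˢ univ).image fun z => z.1 • φ z.2, fun ψ hψ => ?_, fun N hN hG y hy => ?_⟩
  · obtain ⟨z, hz, rfl⟩ := mem_image.1 hψ
    exact Lm.mu _ _ _ ((Lo.single a).symm ▸ h3 _ (mem_product.1 hz).1) p _ (h1 _)
  · obtain ⟨h, h5, rfl⟩ := h2 y hy
    refine sum_mem fun s _ => ?_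
    have h6 := h4 _ (h5 s)
    generalize h s = u at h6
    induction h6 using Submodule.span_induction with
    | mem u hu => exact hG _ (mem_image.2 ⟨(u, s), mem_product.2 ⟨hu, mem_univ _⟩, rfl⟩)
    | zero => simp
    | add u u' _ _ b b' =>
      rw [add_smul]
      exact add_mem b b'
    | smul r u _ b =>
      rw [Subalgebra.smul_def, smul_eq_mul, mul_smul]
      exact hN _ r.2 _ b

end Pool.Agent.MP_ee8c61_ag.H59
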