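import Pool.Agent.MP_ee8c61_ag.H59.SpecC

/-! The twisting one-form. -/

namespace Pool.Agent.MP_ee8c61_ag.H59

open Finset Sys MvPolynomial

namespace ThX

section
variable {k Ω κ : Type} [CommRing k] [CommRing Ω] [Algebra k Ω]

theorem X_mem (A : Subalgebra k Ω) (o : κ) : (X o : MvPolynomial κ Ω) ∈ spol κ A := fun e => by
  classical
  rw [coeff_X]
  split_ifs
  · exact one_mem _
  · exact zero_mem _

theorem dpol_X (D : Derivation k Ω Ω) (o : κ) : dpol κ D (X o) = 0 := by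
  classical
  ext e
  rw [coeff_dpol, coeff_X]
  split_ifs <;> simp

theorem dpol_XC (D : Derivation k Ω Ω) (o : κ) (g : Ω) :
    dpol κ D (X o * C g) = X o * C (D g) := by
  rw [Derivation.leibniz, dpol_X, dpol_C, smul_zero, add_zero, smul_eq_mul]

theorem dpol_adj (D : Derivation k Ω Ω) {g : MvPolynomial κ Ω}
    (h : g ∈ Algebra.adjoin k (Set.range (X : κ → MvPolynomial κ Ω))) : dpol κ D g = 0 := by
  induction h using Algebra.adjoin_induction with
  | mem x hx => obtain ⟨o, rfl⟩ := hx; exact dpol_X D o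
  | algebraMap r => exact Derivation.map_algebraMap _ r
  | add x y _ _ hx hy => rw [map_add, hx, hy, add_zero]
  | mul x y _ _ hx hy => rw [Derivation.leibniz, hx, hy, smul_zero, smul_zero, add_zero]

theorem d_log (D D' : Derivation k Ω Ω) (f : Ωˣ) (h : D (D' f) = D' (D f)) :
    D (((f⁻¹ : Ωˣ) : Ω) * D' f) = D' (((f⁻¹ : Ωˣ) : Ω) * D f) := by
  rw [Derivation.leibniz, Derivation.leibniz, h, D.leibniz_of_mul_eq_one f.inv_mul,
    D'.leibniz_of_mul_eq_one f.inv_mul]
  simp only [smul_eq_mul]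
  ring

end

variable {Ω ι J : Type} {n m : ℕ} [CommRing Ω] [Algebra ℂ Ω] [Fintype J]
  {S : Sys ℂ Ω ι J n} {x : Fin m → Ω} {f : Ωˣ} {a : J → ℕ}

theorem val (F : Fr S) (P : Pt S (Option (Fin m))) (c : ι) (i : Fin n) :
    (S.px m).v c i ⬝ᵥ S.th x f =
      ∑ l, X (some l) * C (S.dv c i (x l)) + X none * C (((f⁻¹ : Ωˣ) : Ω) * S.dv c i f) := by
  simp only [← F.dv_gr, dotProduct, P.v, Sys.th, Sys.gr, mul_add, sum_add_distrib, mul_sum, map_sum,
    map_mul]
  rw [sum_comm]
  congr 1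
  · exact sum_congr rfl fun _ _ => sum_congr rfl fun _ _ => by ring
  · exact sum_congr rfl fun _ _ => by ring

theorem dlog (F : Fr S) {c : ι} (hU : S.IsU c (f * S.mon c fun j => -(a j : ℤ))) (i : Fin n) :
    ∃ h ∈ S.A c, ((f⁻¹ : Ωˣ) : Ω) * S.dv c i f =
      ((∑ j, if S.lab c j = some i then a j else 0 : ℕ) : Ω) + S.un c i * h := by
  have e : f = (f * S.mon c fun j => -(a j : ℤ)) * S.mon c fun j => (a j : ℤ) := by
    rw [mul_assoc, ← F.mon_add]
    simp [Sys.mon]
  generalize (f * S.mon c fun j => -(a j : ℤ)) = U at hU e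
  have h1 := F.dv_mon c i fun j => (a j : ℤ)
  generalize (S.mon c fun j => (a j : ℤ)) = M at h1 e
  subst e
  refine ⟨((U⁻¹ : Ωˣ) : Ω) * S.D c i U, mul_mem hU.2 (S.D_mem c i _ hU.1), ?_⟩
  have h2 : S.dv c i U = S.un c i * S.D c i U := rfl
  rw [Units.val_mul, Derivation.leibniz, h1, h2, mul_inv, Units.val_mul]
  push_cast
  simp only [smul_eq_mul]
  generalize (∑ j, if S.lab c j = some i then (a j : Ω) else 0) = N
  linear_combination (N * ((M⁻¹ : Ωˣ) : Ω) * M) * U.inv_mul +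
    (N + S.un c i * (((U⁻¹ : Ωˣ) : Ω) * S.D c i U)) * M.inv_mul

theorem mem (F : Fr S) (P : Pt S (Option (Fin m))) (hx : ∀ c l, x l ∈ S.A c) {c : ι}
    (hU : S.IsU c (f * S.mon c fun j => -(a j : ℤ))) (i : Fin n) :
    (S.px m).v c i ⬝ᵥ S.th x f ∈ (S.px m).A c := by
  obtain ⟨h, h1, h2⟩ := dlog F hU i
  rw [val F P, h2]
  exact add_mem (sum_mem fun l _ => mul_mem (X_mem _ _)
    (C_mem_spol (mul_mem (F.un_mem c i) (S.D_mem c i _ (hx c l)))))
    (mul_mem (X_mem _ _) (C_mem_spol (add_mem (natCast_mem _ _) (mul_mem (F.un_mem c i) h1))))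

theorem res (F : Fr S) (P : Pt S (Option (Fin m))) (hx : ∀ c l, x l ∈ S.A c) {c : ι}
    (hU : S.IsU c (f * S.mon c fun j => -(a j : ℤ))) (j : J) :
    ((S.px m).vv c j ⬝ᵥ S.th x f - (a j : PX m Ω) * X none) *
      ((((S.px m).η c j)⁻¹ : (PX m Ω)ˣ) : PX m Ω) ∈ (S.px m).A c := by
  have e0 : ((((S.px m).η c j)⁻¹ : (PX m Ω)ˣ) : PX m Ω) = C (((S.η c j)⁻¹ : Ωˣ) : Ω) := rfl
  have e1 : (S.px m).vv c j = (S.lab c j).elim 0 ((S.px m).v c) := rfl
  rw [e0, e1]
  rcases hl : S.lab c j with _ | i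
  · rw [S.η_none c j hl, Option.elim_none, zero_dotProduct, zero_sub, inv_one, Units.val_one,
      map_one, mul_one]
    exact neg_mem (mul_mem (natCast_mem _ _) (X_mem _ _))
  · obtain ⟨h, h1, h2⟩ := dlog F hU i
    rw [sum_eq_single j (fun j' _ hj => if_neg fun e => hj (S.lab_inj c _ _ i e hl)) (by simp),
      if_pos hl] at h2
    have h3 : ∀ g, S.dv c i g = S.η c j * S.D c i g := fun g => by
      rw [← F.un_some c j i hl]; rfl
    have h4 : (C (S.η c j : Ω) : PX m Ω) * C (((S.η c j)⁻¹ : Ωˣ) : Ω) = 1 := by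
      rw [← map_mul, Units.mul_inv, map_one]
    have e : (∑ l, X (some l) * C (S.dv c i (x l)) + X none * C ((a j : Ω) + S.un c i * h) -
        (a j : PX m Ω) * X none) * C (((S.η c j)⁻¹ : Ωˣ) : Ω) =
        ∑ l, X (some l) * C (S.D c i (x l)) + X none * C h := by
      have h5 : (∑ l, X (some l) * C (S.dv c i (x l)) : PX m Ω) =
          C (S.η c j : Ω) * ∑ l, X (some l) * C (S.D c i (x l)) := by
        rw [mul_sum]
        exact sum_congr rfl fun l _ => by rw [h3, map_mul]; ring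
      rw [h5, F.un_some c j i hl, map_add, map_mul, map_natCast]
      linear_combination (∑ l, X (some l) * C (S.D c i (x l)) + X none * C h : PX m Ω) * h4
    rw [Option.elim_some, val F P, h2, e]
    exact add_mem (sum_mem fun l _ => mul_mem (X_mem _ _) (C_mem_spol (S.D_mem c i _ (hx c l))))
      (mul_mem (X_mem _ _) (C_mem_spol h1))

omit [Fintype J] in
theorem closed (i j : Fin n) : (S.px m).R i (S.th x f j) = (S.px m).R j (S.th x f i) := by
  change dpol _ (S.R i) _ = dpol _ (S.R j) _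
  simp only [Sys.th, map_add, map_sum, dpol_XC, S.R_comm i j]
  rw [d_log _ _ f (S.R_comm i j f)]

end ThX

open ThX

theorem rowTh : OfTh := by
  intro hC hFo hFd hFr _ hLm hHo hPt Ω ι J n m _ _ _ _ _ _ S x f a hx hU
  have F := hFr ℂ Ω ι J n S
  have P := hPt ℂ Ω ι J n S (Option (Fin m))
  have O := hFo (PX m Ω) n
  have D := hFd ℂ (PX m Ω) n (S.px m).R (S.px m).R_comm
  have L := hLm ℂ (PX m Ω) ι J n (S.px m)
  have H : Ho (S.px m) := hHo ℂ (PX m Ω) ι J n (S.px m)
  have K := hC ι (Fm n (PX m Ω))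
  have anti : (S.px m).dd * we (S.th x f) + we (S.th x f) * (S.px m).dd = 0 := D.d_we _ closed
  have m0 : ∀ C σ, Maps (we (S.th x f)) ((S.px m).lm C σ) ((S.px m).lm C σ) 1 := fun C σ =>
    L.we C σ _ (L.logF_all _ (fun c i => mem F P hx (hU c) i) σ)
  refine ⟨val F P, fun c i => dlog F (hU c) i, fun c i => mem F P hx (hU c) i,
    fun c j => res F P hx (hU c) j, anti, ?_,
    fun C σ j w hw => add_mem (L.dd C σ j w hw) (m0 C σ j w hw), m0, fun g hg => ?_,
    fun c j q γ hγ => ?_⟩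
  · have h1 : (S.px m).dd * (S.px m).dd = 0 := D.sq
    rw [add_mul, mul_add, mul_add, h1, O.we_sq, zero_add, add_zero, anti]
  · have h0 : (fun l => (S.px m).R l g) = 0 := funext fun l => dpol_adj (S.R l) hg
    have h1 : (S.px m).dd * mu _ g = mu _ g * (S.px m).dd := by
      have := D.d_mu g
      rw [h0, show we (0 : Fin n → PX m Ω) = 0 by simp [we], add_zero] at this
      exact this
    exact K.kos_ev _ (mu _ g) _ _ (Commute.add_right h1.symm ((O.lin_we _).comm g))
      fun _ _ => Commute.one_right _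
  · have h1 := add_mem (H.d0 c j q γ hγ) (H.th _ _ j (fun c => res F P hx (hU c) j) c q γ hγ)
    have e : (cech ((S.px m).dd + we (S.th x f)) : Op (Ch ι (Fm n (PX m Ω)))) =
        cech (S.px m).dd + od (we (S.th x f)) := K.kos_add _ _ _ _
    rw [e, op_add, op_add, map_add, add_smul, Int.cast_smul_eq_zsmul]
    convert h1 using 1
    abel

end Pool.Agent.MP_ee8c61_ag.H59
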