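import Pool.Agent.MP_ee8c61_ag.H59.SpecA

/-! Row V: the depth argument through the normalization lemma. -/

namespace Pool.Agent.MP_ee8c61_ag.H59

open Finset MvPolynomial

namespace VX

variable {Ω G κ : Type} [CommRing Ω] [Algebra ℂ Ω] [AddCommGroup G] [Module Ω G]
  {D : Op G} {L L' : Lat G} {y : κ → Ω}

theorem mem (y : κ → Ω) (g : MvPolynomial κ ℂ) : aeval y g ∈ Algebra.adjoin ℂ (Set.range y) := by
  rw [Algebra.adjoin_range_eq_range_aeval]
  exact ⟨g, rfl⟩

/-- The polynomials that act by zero on the cohomology. -/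
def ann (hX : SCx) (h : VOK D L L' y) : Ideal (MvPolynomial κ ℂ) where
  carrier := {g | ∀ j, Null D L L' L L' (mu G (aeval y g)) j}
  zero_mem' j x _ _ := ⟨0, zero_mem _, by simp⟩
  add_mem' ha hb j := by
    rw [map_add, map_add]
    exact (hX G).null_add _ _ _ _ _ _ _ _ (ha j) (hb j)
  smul_mem' c g hg j := by
    rw [smul_eq_mul, map_mul, map_mul]
    exact (hX G).null_left _ _ _ _ _ _ _ _ _ _ (h.lin.comm _) (h.kp _ (mem y c))
      (h.kp' _ (mem y c)) (hg j)

theorem sub (h : VOK D L L' y) {ι : Type} {z : ι → Ω}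
    (hz : ∀ i, z i ∈ Algebra.adjoin ℂ (Set.range y)) : VOK D L L' z :=
  have e : Algebra.adjoin ℂ (Set.range z) ≤ Algebra.adjoin ℂ (Set.range y) :=
    Algebra.adjoin_le (Set.range_subset_iff.2 hz)
  ⟨h.pair, h.lin, fun g hg => h.kp g (e hg), fun g hg => h.kp' g (e hg)⟩

variable {ι : Type} [LinearOrder ι]

theorem kok (h : VOK D L L' y) {z : ι → Ω} (hz : ∀ i, z i ∈ Algebra.adjoin ℂ (Set.range y))
    (S : Finset ι) : KOK D (fun i => mu G (z i)) S (fun _ => L) fun _ => L' :=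
  ⟨fun _ => h.pair, fun _ _ => h.lin.comm _, fun _ _ _ _ => mu_comm _ _,
    fun i _ _ _ => h.kp _ (hz i), fun i _ _ _ => h.kp' _ (hz i)⟩

theorem vok (hC : SCar) (hK : SCone) (h : VOK D L L' y) {z : ι → Ω}
    (hz : ∀ i, z i ∈ Algebra.adjoin ℂ (Set.range y)) (S : Finset ι) :
    VOK (kos D (fun i => mu G (z i)) S) (kl S fun _ => L) (kl S fun _ => L') y :=
  ⟨(hK ι G).pair _ _ _ _ _ (kok h hz S),
    fun c x => (DFunLike.congr_fun ((hC ι G).kos_ev D (mu G c) _ S (h.lin.comm c)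
      fun _ _ => mu_comm _ _).eq x).symm,
    fun g hg => (hK ι G).keeps (mu G g) S _ _ fun _ _ => h.kp g hg,
    fun g hg => (hK ι G).keeps (mu G g) S _ _ fun _ _ => h.kp' g hg⟩

theorem rad (hC : SCar) (hX : SCx) (hK : SCone) (hF : SFilt) (h : VOK D L L' y) {z : ι → Ω}
    (hz : ∀ i, z i ∈ Algebra.adjoin ℂ (Set.range y)) (S : Finset ι) :
    (ann hX h).radical ≤ (ann hX (vok hC hK h hz S)).radical :=
  Ideal.radical_le_radical_iff.2 fun g hg => ⟨2 ^ S.card, fun j => by
    rw [map_pow, map_pow]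
    exact (hF ι G).null D (mu G (aeval y g)) _ S _ _ (kok h hz S) (h.lin.comm _)
      (fun _ _ => mu_comm _ _) (fun _ => h.kp _ (mem y g)) (fun _ => h.kp' _ (mem y g))
      (fun _ _ => hg) j⟩

theorem own (hK : SCone) (z : ι → Ω) (S : Finset ι) {l : ι} (hl : l ∈ S) (j : ℤ) :
    Null (kos D (fun i => mu G (z i)) S) (kl S fun _ => L) (kl S fun _ => L') (kl S fun _ => L)
      (kl S fun _ => L') (mu (Ch ι G) (z l)) j := by
  have k : ∀ (M : Lat G) (i : ι), Keeps (if i = l then 1 else 0 : Op G) M M := fun M i j x hx => by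
    split_ifs
    exacts [hx, zero_mem _]
  have c : ∀ (T : Op G) (i : ι), Commute (if i = l then 1 else 0 : Op G) T := fun T i => by
    split_ifs
    exacts [Commute.one_left _, Commute.zero_left _]
  have := (hK ι G).hom D (fun i => mu G (z i)) (fun i => if i = l then 1 else 0) S (fun _ => L)
    (fun _ => L') (fun _ => L) (fun _ => L') j (fun i _ => c _ i) (fun i _ _ _ => c _ i)
    (fun i _ _ _ => k _ i) fun i _ _ _ => k _ i
  simpa only [ite_mul, one_mul, zero_mul, sum_ite_eq', if_pos hl, ev_mu] using this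

theorem spec {P : Type} [CommRing P] [Algebra ℂ P] (J : Ideal P) {s : ℕ} (v : Fin s → P)
    (v0 : Fin s → ℂ) (hv : ∀ l, v l - algebraMap ℂ P (v0 l) ∈ J) (x : P)
    (p : Polynomial (MvPolynomial (Fin s) ℂ))
    (hp : p.eval₂ (aeval v : _ →ₐ[ℂ] P).toRingHom x ∈ J) :
    Polynomial.aeval x (p.map (eval v0)) ∈ J := by
  have e : (Ideal.Quotient.mk J).comp (aeval v : _ →ₐ[ℂ] P).toRingHom =
      (Ideal.Quotient.mk J).comp ((algebraMap ℂ P).comp (eval v0)) :=
    ringHom_ext (fun r => by simp) fun l => by simpa using Ideal.Quotient.eq.2 (hv l)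
  rw [← Ideal.Quotient.eq_zero_iff_mem, Polynomial.hom_eval₂] at hp
  rw [← Ideal.Quotient.eq_zero_iff_mem, Polynomial.aeval_def, Polynomial.eval₂_map,
    Polynomial.hom_eval₂, ← e, hp]

end VX

open VX in
theorem rowV : OfV := by
  intro hC hX hK hF hS h1 h2 Ω G κ _ _ _ _ _ _ _ _ D L L' y Q w h hr hu hV j hj
  by_cases ht : (ann hX h).radical = ⊤
  · have : (1 : MvPolynomial κ ℂ) ∈ ann hX h := by
      rw [Ideal.radical_eq_top.1 ht]; trivial
    intro x hx hd
    simpa using this j x hx hd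
  have := Ideal.Quotient.nontrivial_iff.2 ht
  obtain ⟨s, g, inj, int⟩ :=
    exists_integral_inj_algHom_of_fg ℂ (MvPolynomial κ ℂ ⧸ (ann hX h).radical)
  choose v hv using fun l => Ideal.Quotient.mk_surjective (g (X l))
  have eg : g = (Ideal.Quotient.mkₐ ℂ _).comp (aeval v) := algHom_ext fun l => by simp [hv]
  have hs : s ≤ w := by
    by_contra hn
    have hn' : w + 1 ≤ s := by omega
    obtain ⟨Φ, p0, N, hN⟩ := hu (v ∘ Fin.castLE hn')
    refine p0 (rename_injective _ (Fin.castLE_injective hn') (inj ?_))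
    rw [map_zero, map_zero, eg, AlgHom.comp_apply, aeval_rename]
    exact Ideal.Quotient.eq_zero_iff_mem.2 ⟨N, fun j => by rw [map_pow]; exact hN j⟩
  refine h2 Ω G (Fin s) D L L' (fun l => aeval y (v l)) Q (sub h fun l => mem y _) hr
    (fun v0 => ?_) j (by rw [Fintype.card_fin]; omega)
  have hz : ∀ l, aeval y (v l) - algebraMap ℂ Ω (v0 l) ∈ Algebra.adjoin ℂ (Set.range y) :=
    fun l => sub_mem (mem y _) (Subalgebra.algebraMap_mem _ _)
  have h' := vok hC hK h hz univ
  refine h1 Ω _ κ _ _ _ y Q h' (fun i => ?_) fun y0 j hj => ?_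
  · obtain ⟨p, p1, p2⟩ := int (Ideal.Quotient.mk _ (X i))
    have p3 : p.eval₂ (aeval v : _ →ₐ[ℂ] MvPolynomial κ ℂ).toRingHom (X i) ∈
        (ann hX h).radical := by
      rw [← Ideal.Quotient.eq_zero_iff_mem, Polynomial.hom_eval₂, ← p2, eg]
      rfl
    obtain ⟨N, hN⟩ := spec (ann hX h').radical v v0 (fun l => Ideal.le_radical fun j => by
      rw [map_sub, AlgHom.commutes]
      exact own hK _ univ (mem_univ l) j) (X i) p (rad hC hX hK hF h hz univ p3)
    refine ⟨p.map (eval v0) ^ N, (p1.map _).pow N, fun j => ?_⟩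
    have := hN j
    rwa [← map_pow, ← Polynomial.aeval_algHom_apply, aeval_X] at this
  · have hy : ∀ i, y i - algebraMap ℂ Ω (y0 i) ∈ Algebra.adjoin ℂ (Set.range y) := fun i =>
      sub_mem (Algebra.subset_adjoin ⟨i, rfl⟩) (Subalgebra.algebraMap_mem _ _)
    exact hS κ (Fin s) G D (fun i => mu G (y i - algebraMap ℂ Ω (y0 i)))
      (fun l => mu G (aeval y (v l) - algebraMap ℂ Ω (v0 l))) univ univ (fun _ _ => L)
      (fun _ _ => L') j
      (fun _ => kok h hz univ) (fun _ => kok h hy univ) (fun _ _ _ _ => mu_comm _ _)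
      fun σ _ => hV y0 _ (by omega)

end Pool.Agent.MP_ee8c61_ag.H59
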