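import Pool.Agent.MP_ee8c61_ag.H59.Kit

/-!
Interface statements, part A: abstract homological algebra. Every `OfX` is one task.
-/

namespace Pool.Agent.MP_ee8c61_ag.H59

open Finset

/-! ### Operators on cochains -/

structure Car (ι M : Type) [LinearOrder ι] [AddCommGroup M] : Prop where
  ee : ∀ i j : ι, (ep i : Op (Ch ι M)) * ep j + ep j * ep i = 0
  ee0 : ∀ i : ι, (ep i : Op (Ch ι M)) * ep i = 0
  ii : ∀ i j : ι, (io i : Op (Ch ι M)) * io j + io j * io i = 0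
  ii0 : ∀ i : ι, (io i : Op (Ch ι M)) * io i = 0
  ei : ∀ i j : ι, (ep i : Op (Ch ι M)) * io j + io j * ep i = if i = j then 1 else 0
  ev_ep : ∀ (T : Op M) (i : ι), Commute (ev T) (ep i)
  ev_io : ∀ (T : Op M) (i : ι), Commute (ev T) (io i)
  od_ep : ∀ (T : Op M) (i : ι), od T * ep i + ep i * od T = 0
  od_io : ∀ (T : Op M) (i : ι), od T * io i + io i * od T = 0
  od_od : ∀ T T' : Op M, (od T * od T' : Op (Ch ι M)) = ev (T * T')
  od_ev : ∀ T T' : Op M, (od T * ev T' : Op (Ch ι M)) = od (T * T')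
  ev_od : ∀ T T' : Op M, (ev T * od T' : Op (Ch ι M)) = od (T * T')
  od_add : ∀ T T' : Op M, (od (T + T') : Op (Ch ι M)) = od T + od T'
  num : ∀ (s : Finset ι) (γ : Ch ι M) (σ : Finset ι),
    (∑ i ∈ s, ep i * io i : Op (Ch ι M)) γ σ = (σ ∩ s).card • γ σ
  kos_sq : ∀ (d : Op M) (t : ι → Op M) (S : Finset ι), d * d = 0 → (∀ i ∈ S, Commute (t i) d) →
    (∀ i ∈ S, ∀ i' ∈ S, Commute (t i) (t i')) → kos d t S * kos d t S = 0
  kos_io : ∀ (d : Op M) (t : ι → Op M) (S : Finset ι) (i : ι),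
    kos d t S * io i + io i * kos d t S = if i ∈ S then ev (t i) else 0
  kos_ep : ∀ (d : Op M) (t : ι → Op M) (S : Finset ι) (i : ι),
    kos d t S * ep i + ep i * kos d t S = 0
  kos_ev : ∀ (d g : Op M) (t : ι → Op M) (S : Finset ι), Commute g d →
    (∀ i ∈ S, Commute g (t i)) → Commute (ev g) (kos d t S)
  kos_od : ∀ (d g : Op M) (t : ι → Op M) (S : Finset ι), (∀ i ∈ S, Commute g (t i)) →
    kos d t S * od g + od g * kos d t S = ev (d * g + g * d)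
  kos_add : ∀ (d d' : Op M) (t : ι → Op M) (S : Finset ι), kos (d + d') t S = kos d t S + od d'
  kos_apply : ∀ (d : Op M) (t : ι → Op M) (S : Finset ι) (γ : Ch ι M) (σ : Finset ι),
    kos d t S γ σ = (-1 : ℤ) ^ σ.card • d (γ σ) + ∑ i ∈ S ∩ σ, sgn i σ • t i (γ (σ.erase i))
  single : ∀ (σ : Finset ι) (x : M), ap ep σ (Pi.single ∅ x : Ch ι M) = Pi.single σ x
  up_kos : ∀ (M' : Type) [AddCommGroup M'] (φ : M →+ M') (d : Op M) (d' : Op M') (t : ι → Op M)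
    (t' : ι → Op M') (S : Finset ι), (∀ x, φ (d x) = d' (φ x)) →
    (∀ i ∈ S, ∀ x, φ (t i x) = t' i (φ x)) → ∀ γ, up φ (kos d t S γ) = kos d' t' S (up φ γ)

def SCar : Prop := ∀ (ι M : Type) [LinearOrder ι] [AddCommGroup M], Car ι M

structure Ap (ι G : Type) [LinearOrder ι] [AddCommGroup G] : Prop where
  emp : ∀ E : ι → Op G, ap E ∅ = 1
  ins : ∀ E : ι → Op G, (∀ i j, E i * E j + E j * E i = 0) → (∀ i, E i * E i = 0) → ∀ i σ,
    E i * ap E σ = if i ∈ σ then 0 else sgn i σ • ap E (insert i σ)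
  map : ∀ (G' : Type) [AddCommGroup G'] (φ : G →+ G') (E : ι → Op G) (E' : ι → Op G') σ,
    (∀ i ∈ σ, ∀ x, φ (E i x) = E' i (φ x)) → ∀ x, φ (ap E σ x) = ap E' σ (φ x)
  maps : ∀ (E : ι → Op G) (L : Lat G) (e : ℤ) σ, (∀ i ∈ σ, Maps (E i) L L e) →
    Maps (ap E σ) L L (σ.card * e)
  der : ∀ (E : ι → Op G) (D t : Op G) (L K : Lat G) (σ : Finset ι) (q : ℤ) (x : G),
    (∀ i ∈ σ, Commute t (E i)) → (∀ i ∈ σ, Maps (E i) L L (-1)) →
    (∀ i ∈ σ, Maps (E i) K K (-1)) →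
    (∀ i ∈ σ, ∀ j, ∀ y ∈ L j, D (E i y) + E i (D y) - t y ∈ K j) → x ∈ L q → D x = 0 →
    D (ap E σ x) - ∑ i ∈ σ, sgn i σ • t (ap E (σ.erase i) x) ∈ K (q - σ.card + 1)
  unw : ∀ (H E : ι → Op G) (K : AddSubgroup G) (σ : Finset ι) (x : G),
    (∀ i ∈ σ, ∀ j ∈ σ, E i * H j + H j * E i = if i = j then 1 else 0) → (∀ i ∈ σ, E i x = 0) →
    (∀ i ∈ σ, ∀ y ∈ K, E i y ∈ K) → ap H σ x ∈ K → x ∈ K

def SAp : Prop := ∀ (ι G : Type) [LinearOrder ι] [AddCommGroup G], Ap ι G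

/-! ### Complexes -/

structure Cx (G : Type) [AddCommGroup G] : Prop where
  mid : ∀ (D : Op G) L L' L'' j, Pair D L L' → Pair D L' L'' → Van D L' L'' j → Van D L L' j →
    Van D L L'' j
  right : ∀ (D : Op G) L L' L'' j, Pair D L L' → Pair D L' L'' → Van D L L'' j →
    Van D L' L'' (j + 1) → Van D L L' j
  left : ∀ (D : Op G) L L' L'' j, Pair D L L' → Pair D L' L'' → Van D L L'' j →
    Van D L L' (j - 1) → Van D L' L'' j
  sup : ∀ (D : Op G) (L M : Lat G) j, Maps D L L 1 → Maps D M M 1 → Van D L (L ⊓ M) j →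
    Van D (L ⊔ M) M j
  chain : ∀ (D : Op G) (F : ℕ → Lat G) (r : ℕ) j, D * D = 0 →
    (∀ i < r, Pair D (F i) (F (i + 1)) ∧ Van D (F i) (F (i + 1)) j) → Van D (F 0) (F r) j
  hom : ∀ (D g h : Op G) L L' M M' j, (∀ x ∈ L j, h x ∈ M (j - 1)) →
    (∀ x ∈ L' (j + 1), h x ∈ M' j) → (∀ x ∈ L j, g x - (D (h x) + h (D x)) ∈ M' j) →
    Null D L L' M M' g j
  ext : ∀ (D g g' : Op G) L L' L'' j, Pair D L L' → Pair D L' L'' → Commute g D → Commute g' D →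
    Keeps g L'' L'' → Keeps g' L L → Null D L L' L L' g j → Null D L' L'' L' L'' g' j →
    Null D L L'' L L'' (g' * g) j
  van : ∀ (D g : Op G) L L' M M' j, Null D L L' M M' g j → Inj D L L' M M' g j → Van D L L' j
  inj_mul : ∀ (D g g' : Op G) L L' M M' N N' j, Commute g D → Keeps g L M → Keeps g L' M' →
    Inj D L L' M M' g j → Inj D M M' N N' g' j → Inj D L L' N N' (g' * g) j
  null_left : ∀ (D g g' : Op G) L L' M M' N N' j, Commute g' D → Keeps g' M N → Keeps g' M' N' →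
    Null D L L' M M' g j → Null D L L' N N' (g' * g) j
  null_right : ∀ (D g g' : Op G) L L' M M' N N' j, Commute g D → Keeps g L M → Keeps g L' M' →
    Null D M M' N N' g' j → Null D L L' N N' (g' * g) j
  null_add : ∀ (D g g' : Op G) L L' M M' j, Null D L L' M M' g j → Null D L L' M M' g' j →
    Null D L L' M M' (g + g') j
  tr : ∀ (G' : Type) [AddCommGroup G'] (φ : G →+ G') (D : Op G) (D' : Op G') L L' M M'
    (e : ℤ) (ε : ℤˣ), Pair D L L' → Pair D' M M' → (∀ j, ∀ x ∈ L j, φ x ∈ M (j + e)) →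
    (∀ j, ∀ y ∈ M (j + e), ∃ x ∈ L j, y - φ x ∈ M' (j + e)) →
    (∀ j, ∀ x ∈ L j, φ x ∈ M' (j + e) ↔ x ∈ L' j) →
    (∀ j, ∀ x ∈ L j, φ (D x) = (ε : ℤ) • D' (φ x)) → ∀ j, Van D L L' j ↔ Van D' M M' (j + e)
  ds : ∀ (E G' : Type) [AddCommGroup G'] (cf : E → G' →+ G) (mo : E → G →+ G') (D : E → Op G)
    (D' : Op G') (L L' : E → Lat G) (M M' : Lat G') (sh : E → ℤ) (j : ℤ),
    (∀ x, ∃ s : Finset E, x = ∑ e ∈ s, mo e (cf e x)) → (∀ e x, cf e (D' x) = D e (cf e x)) →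
    (∀ e y, D' (mo e y) = mo e (D e y)) → (∀ e i, ∀ x ∈ M i, cf e x ∈ L e (i - sh e)) →
    (∀ e i, ∀ x ∈ M' i, cf e x ∈ L' e (i - sh e)) →
    (∀ e i, ∀ y ∈ L e (i - sh e), mo e y ∈ M i) → (∀ e i, ∀ y ∈ L' e (i - sh e), mo e y ∈ M' i) →
    (∀ e, Van (D e) (L e) (L' e) (j - sh e)) → Van D' M M' j

def SCx : Prop := ∀ (G : Type) [AddCommGroup G], Cx G

/-- `D = D0 + D1` where `D0` keeps the weight and `D1` lowers it by one. -/
structure WOK {G : Type} [AddCommGroup G] (π : ℤ → Op G) (D0 D1 : Op G) (L L' : Lat G) :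
    Prop where
  gr : Grading π
  pair : Pair (D0 + D1) L L'
  c0 : ∀ w, D0 * π w = π w * D0
  c1 : ∀ w, D1 * π (w + 1) = π w * D1
  kp : ∀ w, Keeps (π w) L L
  kp' : ∀ w, Keeps (π w) L' L'

structure Wt (G : Type) [AddCommGroup G] : Prop where
  pair : ∀ (π : ℤ → Op G) D0 D1 L L', WOK π D0 D1 L L' → Pair D0 L L'
  van : ∀ (π : ℤ → Op G) D0 D1 L L' j (w0 : ℤ), WOK π D0 D1 L L' →
    (∀ x ∈ L j, ∀ w < w0, π w x ∈ L' j) → Van D0 L L' j → Van (D0 + D1) L L' j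
  low : ∀ (π : ℤ → Op G) D0 D1 L L' j (w0 : ℤ) y η, WOK π D0 D1 L L' → π w0 y = y →
    η ∈ L (j - 1) → y - (D0 + D1) η ∈ L' j → Van D0 L L' (j - 1) →
    (∀ x ∈ L (j - 1), ∀ w ≤ w0, π w x ∈ L' (j - 1)) → y ∈ L' j

def SWt : Prop := ∀ (G : Type) [AddCommGroup G], Wt G

structure Fg (R G : Type) [CommRing R] [AddCommGroup G] [Module R G] : Prop where
  mid : ∀ (D : Op G) L L' L'' j, Pair D L L' → Pair D L' L'' → Lin R D → Cl R L → Cl R L' →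
    Cl R L'' → FG R D L' L'' j → FG R D L L' j → FG R D L L'' j
  right : ∀ (D : Op G) L L' L'' j, Pair D L L' → Pair D L' L'' → Lin R D → Cl R L → Cl R L' →
    Cl R L'' → FG R D L L'' j → FG R D L' L'' (j + 1) → FG R D L L' j
  left : ∀ (D : Op G) L L' L'' j, Pair D L L' → Pair D L' L'' → Lin R D → Cl R L → Cl R L' →
    Cl R L'' → FG R D L L'' j → FG R D L L' (j - 1) → FG R D L' L'' j
  fin : ∀ (D : Op G) L L' j (s : Finset G), Lin R D → Cl R L → Cl R L' →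
    (∀ x ∈ L j, ∃ w ∈ Submodule.span R (s : Set G), x - w ∈ L' j) → (∀ x ∈ s, x ∈ L j) →
    Pair D L L' → FG R D L L' j
  tr : ∀ (G' : Type) [AddCommGroup G'] [Module R G'] (φ : G →+ G') (D : Op G) (D' : Op G')
    L L' M M' (e : ℤ) (ε : ℤˣ), Pair D L L' → Pair D' M M' → Cl R L → Cl R M' →
    (∀ (c : R) x, φ (c • x) = c • φ x) → (∀ j, ∀ x ∈ L j, φ x ∈ M (j + e)) →
    (∀ j, ∀ y ∈ M (j + e), ∃ x ∈ L j, y - φ x ∈ M' (j + e)) →
    (∀ j, ∀ x ∈ L j, φ x ∈ M' (j + e) ↔ x ∈ L' j) →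
    (∀ j, ∀ x ∈ L j, φ (D x) = (ε : ℤ) • D' (φ x)) →
    ∀ j, FG R D L L' j ↔ FG R D' M M' (j + e)
  ds : ∀ (E G' : Type) [Fintype E] [AddCommGroup G'] [Module R G'] (cf : E → G' →+ G)
    (mo : E → G →+ G') (D : E → Op G) (D' : Op G') (L L' : E → Lat G) (M M' : Lat G')
    (sh : E → ℤ) (j : ℤ), (∀ e (c : R) y, mo e (c • y) = c • mo e y) →
    (∀ x, x = ∑ e, mo e (cf e x)) → (∀ e x, cf e (D' x) = D e (cf e x)) →
    (∀ e y, D' (mo e y) = mo e (D e y)) → (∀ e i, ∀ x ∈ M i, cf e x ∈ L e (i - sh e)) →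
    (∀ e i, ∀ x ∈ M' i, cf e x ∈ L' e (i - sh e)) →
    (∀ e i, ∀ y ∈ L e (i - sh e), mo e y ∈ M i) → (∀ e i, ∀ y ∈ L' e (i - sh e), mo e y ∈ M' i) →
    (∀ e, FG R (D e) (L e) (L' e) (j - sh e)) → FG R D' M M' j

def SFg : Prop :=
  ∀ (R G : Type) [CommRing R] [IsNoetherianRing R] [AddCommGroup G] [Module R G], Fg R G

/-- Finite generation over the base when the generators act as constants. -/
def SFgk : Prop :=
  ∀ (k Ω G : Type) (m : ℕ) [CommRing k] [CommRing Ω] [Algebra k Ω] [AddCommGroup G] [Module Ω G]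
    [Module k G] [IsScalarTower k Ω G] (x : Fin m → Ω) (x0 : Fin m → k) (D : Op G) (L L' : Lat G)
    (j : ℤ), Pair D L L' → Lin Ω D → Cl (Algebra.adjoin k (Set.range x)) L →
    Cl (Algebra.adjoin k (Set.range x)) L' → FG (Algebra.adjoin k (Set.range x)) D L L' j →
    (∀ l, Null D L L' L L' (mu G (x l - algebraMap k Ω (x0 l))) j) → FG k D L L' j

/-! ### Cones -/

structure Cone (ι M : Type) [LinearOrder ι] [AddCommGroup M] : Prop where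
  pair : ∀ (d : Op M) (t : ι → Op M) S F F', KOK d t S F F' → Pair (kos d t S) (kl S F) (kl S F')
  sub : ∀ (d : Op M) (t : ι → Op M) S i F F', i ∉ S → KOK d t (insert i S) F F' →
    KOK d t S F F' ∧ KOK d t S (fun σ => F (insert i σ)) (fun σ => F' (insert i σ))
  keeps : ∀ (g : Op M) (S : Finset ι) F F', (∀ σ ⊆ S, Keeps g (F σ) (F' σ)) →
    Keeps (ev g) (kl S F) (kl S F')
  maps : ∀ (g : Op M) (S : Finset ι) F F' e, (∀ σ ⊆ S, Maps g (F σ) (F' σ) e) →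
    Maps (od g) (kl S F) (kl S F') e
  inj : ∀ (d : Op M) (t : ι → Op M) S i F F' j, i ∉ S → KOK d t (insert i S) F F' →
    Van (kos d t (insert i S)) (kl (insert i S) F) (kl (insert i S) F') j →
    Inj (kos d t S) (kl S F) (kl S F') (kl S fun σ => F (insert i σ))
      (kl S fun σ => F' (insert i σ)) (ev (t i)) j
  surj : ∀ (d : Op M) (t : ι → Op M) S i F F' j, i ∉ S → KOK d t (insert i S) F F' →
    Van (kos d t (insert i S)) (kl (insert i S) F) (kl (insert i S) F') (j + 1) →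
    Surj (kos d t S) (kl S F) (kl S F') (kl S fun σ => F (insert i σ))
      (kl S fun σ => F' (insert i σ)) (ev (t i)) j
  van : ∀ (d : Op M) (t : ι → Op M) S i F F' j, i ∉ S → KOK d t (insert i S) F F' →
    Inj (kos d t S) (kl S F) (kl S F') (kl S fun σ => F (insert i σ))
      (kl S fun σ => F' (insert i σ)) (ev (t i)) j →
    Surj (kos d t S) (kl S F) (kl S F') (kl S fun σ => F (insert i σ))
      (kl S fun σ => F' (insert i σ)) (ev (t i)) (j - 1) →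
    Van (kos d t (insert i S)) (kl (insert i S) F) (kl (insert i S) F') j
  hom : ∀ (d : Op M) (t c : ι → Op M) S F F' G G' j, (∀ i ∈ S, Commute (c i) d) →
    (∀ i ∈ S, ∀ l ∈ S, Commute (c i) (t l)) →
    (∀ i ∈ S, ∀ σ, i ∉ σ → Keeps (c i) (F (insert i σ)) (G σ)) →
    (∀ i ∈ S, ∀ σ, i ∉ σ → Keeps (c i) (F' (insert i σ)) (G' σ)) →
    Null (kos d t S) (kl S F) (kl S F') (kl S G) (kl S G') (ev (∑ i ∈ S, c i * t i)) j
  emp : ∀ (d : Op M) (t : ι → Op M) F F' j,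
    Van (kos d t ∅) (kl ∅ F) (kl ∅ F') j ↔ Van d (F ∅) (F' ∅) j
  emp_null : ∀ (d g : Op M) (t : ι → Op M) F F' j,
    Null (kos d t ∅) (kl ∅ F) (kl ∅ F') (kl ∅ F) (kl ∅ F') (ev g) j ↔
      Null d (F ∅) (F' ∅) (F ∅) (F' ∅) g j

def SCone : Prop := ∀ (ι M : Type) [LinearOrder ι] [AddCommGroup M], Cone ι M

def OfCone : Prop := SCar → SCx → SCone

structure Filt (ι M : Type) [LinearOrder ι] [AddCommGroup M] : Prop where
  van : ∀ (d : Op M) (t : ι → Op M) S F F' j, KOK d t S F F' →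
    (∀ σ ⊆ S, Van d (F σ) (F' σ) (j - σ.card)) → Van (kos d t S) (kl S F) (kl S F') j
  null : ∀ (d g : Op M) (t : ι → Op M) S F F', KOK d t S F F' → Commute g d →
    (∀ i ∈ S, Commute g (t i)) → (∀ σ, Keeps g (F σ) (F σ)) → (∀ σ, Keeps g (F' σ) (F' σ)) →
    (∀ σ ⊆ S, ∀ j, Null d (F σ) (F' σ) (F σ) (F' σ) g j) →
    ∀ j, Null (kos d t S) (kl S F) (kl S F') (kl S F) (kl S F') (ev g ^ 2 ^ S.card) j
  fg : ∀ (R : Type) [CommRing R] [IsNoetherianRing R] [Module R M] (d : Op M) (t : ι → Op M)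
    S F F' j, KOK d t S F F' → Lin R d → (∀ i ∈ S, Lin R (t i)) → (∀ σ, Cl R (F σ)) →
    (∀ σ, Cl R (F' σ)) → (∀ σ ⊆ S, FG R d (F σ) (F' σ) (j - σ.card)) →
    FG R (kos d t S) (kl S F) (kl S F') j

def SFilt : Prop := ∀ (ι M : Type) [LinearOrder ι] [AddCommGroup M], Filt ι M

def OfFilt : Prop := SCar → SCx → SFg → SCone → SFilt

/-- Change of the index set. -/
def SRi : Prop :=
  ∀ (κ κ' M : Type) [LinearOrder κ] [LinearOrder κ'] [AddCommGroup M] (f : κ ↪o κ') (d : Op M)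
    (t : κ → Op M) (t' : κ' → Op M) (S : Finset κ) (F F' : Finset κ → Lat M)
    (G G' : Finset κ' → Lat M) (j : ℤ), (∀ i ∈ S, t' (f i) = t i) →
    (∀ σ ⊆ S, G (σ.map f.toEmbedding) = F σ) → (∀ σ ⊆ S, G' (σ.map f.toEmbedding) = F' σ) →
    (Van (kos d t S) (kl S F) (kl S F') j ↔ Van (kos d t' (S.map f.toEmbedding))
      (kl (S.map f.toEmbedding) G) (kl (S.map f.toEmbedding) G') j)

def OfRi : Prop := SCar → SRi

/-- Filtration of a double complex by the inner index. -/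
def SSwap : Prop :=
  ∀ (κ κ' M : Type) [LinearOrder κ] [LinearOrder κ'] [AddCommGroup M] (d : Op M) (t : κ → Op M)
    (u : κ' → Op M) (S : Finset κ) (S' : Finset κ') (Λ Λ' : Finset κ → Finset κ' → Lat M) (j : ℤ),
    (∀ τ, KOK d u S' (Λ τ) (Λ' τ)) → (∀ σ, KOK d t S (fun τ => Λ τ σ) fun τ => Λ' τ σ) →
    (∀ i ∈ S, ∀ l ∈ S', Commute (t i) (u l)) →
    (∀ σ ⊆ S', Van (kos d t S) (kl S fun τ => Λ τ σ) (kl S fun τ => Λ' τ σ) (j - σ.card)) →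
    Van (kos (kos d u S') (fun i => ev (t i)) S) (kl S fun τ => kl S' (Λ τ))
      (kl S fun τ => kl S' (Λ' τ)) j

def OfSwap : Prop := SCar → SCx → SCone → SFilt → SSwap

/-- Vanishing for a Koszul complex depends only on the radical. -/
def SKx : Prop :=
  ∀ (Ω M κ κ' : Type) [CommRing Ω] [AddCommGroup M] [Module Ω M] [LinearOrder κ] [LinearOrder κ']
    (B : Subring Ω) (d : Op M) (L L' : Lat M) (t : κ → Ω) (u : κ' → Ω) (S : Finset κ)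
    (S' : Finset κ') (Q : ℤ), Pair d L L' → Lin Ω d → (∀ b ∈ B, Keeps (mu M b) L L) →
    (∀ b ∈ B, Keeps (mu M b) L' L') → (∀ l ∈ S, t l ∈ B) → (∀ i ∈ S', u i ∈ B) →
    (∀ i ∈ S', ∃ (N : ℕ) (c : κ → Ω), (∀ l, c l ∈ B) ∧ u i ^ N = ∑ l ∈ S, c l * t l) →
    (∀ j < Q, Van (kos d (fun i => mu M (u i)) S') (kl S' fun _ => L) (kl S' fun _ => L') j) →
    ∀ j < Q, Van (kos d (fun l => mu M (t l)) S) (kl S fun _ => L) (kl S fun _ => L') j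

def OfKx : Prop := SCar → SCx → SCone → SFilt → SSwap → SKx

/-- Adding an operator with a left inverse gains one degree. -/
def SLeft : Prop :=
  ∀ (κ M : Type) [LinearOrder κ] [AddCommGroup M] (d : Op M) (t Δ : κ → Op M) (L L' : Lat M)
    (S S' : Finset κ) (Q : ℤ), Disjoint S S' → KOK d t (S ∪ S') (fun _ => L) (fun _ => L') →
    (∀ i ∈ S', Δ i * t i = 1 ∧ Commute (Δ i) d ∧ Keeps (Δ i) L L ∧ Keeps (Δ i) L' L' ∧
      ∀ l ∈ S ∪ S', l ≠ i → Commute (Δ i) (t l)) →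
    (∀ j < Q, Van (kos d t S) (kl S fun _ => L) (kl S fun _ => L') j) →
    ∀ j < Q + S'.card, Van (kos d t (S ∪ S')) (kl (S ∪ S') fun _ => L) (kl (S ∪ S') fun _ => L') j

def OfLeft : Prop := SCar → SCone → SLeft

/-- Koszul complexes of regular sequences. -/
def SReq : Prop :=
  ∀ (Ω κ : Type) [CommRing Ω] [LinearOrder κ] (N : AddSubgroup Ω) (γ : κ → Ω) (S : Finset κ),
    (∀ i ∈ S, ∀ g ∈ N, γ i * g ∈ N) →
    (∀ s ⊆ S, ∀ i ∈ S, i ∉ s → ∀ h ∈ N,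
      (∃ c : κ → Ω, (∀ l, c l ∈ N) ∧ γ i * h = ∑ l ∈ s, γ l * c l) →
      ∃ c : κ → Ω, (∀ l, c l ∈ N) ∧ h = ∑ l ∈ s, γ l * c l) →
    ∀ j < (S.card : ℤ), Van (kos 0 (fun i => mu Ω (γ i)) S) (kl S fun _ => deg0 N) ⊥ j

def OfReq : Prop := SCar → SCone → SReq

/-! ### Counting arguments -/

def SAm : Prop :=
  ∀ (G : Type) [AddCommGroup G] [Module ℂ G] (D v : Op G) (L L' : Lat G) (j : ℤ),
    Module.rank ℂ G ≤ Cardinal.aleph0 → Pair D L L' → Lin ℂ D → Lin ℂ v → Cl ℂ L → Cl ℂ L' →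
    Commute v D → Keeps v L L → Keeps v L' L' →
    (∀ c : ℂ, Inj D L L' L L' (v - mu G c) j ∧ Surj D L L' L L' (v - mu G c) j) → Van D L L' j

def SStab : Prop :=
  ∀ (k Ω G : Type) [Field k] [CommRing Ω] [Algebra k Ω] [AddCommGroup G] [Module Ω G] [Module k G]
    [IsScalarTower k Ω G] (D : Op G) (L : ℤ → Lat G) (y0 y1 : Ωˣ) (j : ℤ),
    (∀ d, Pair D (L d) ⊥) → Lin Ω D → (∀ d, Cl k (L d)) → (∀ d, FG k D (L d) ⊥ j) →
    (∀ d, Keeps (mu G (y0 : Ω)) (L d) (L (d + 1))) →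
    (∀ d, Keeps (mu G (y1 : Ω)) (L d) (L (d + 1))) →
    (∃ d0, ∀ d ≤ d0, Inj D (L d) ⊥ (L (d + 1)) ⊥ (mu G (y0 : Ω)) j) →
    (∀ g : Polynomial k, g.Monic → ∃ d0, ∀ d ≤ d0, Inj D (L d) ⊥ (L (d + g.natDegree)) ⊥
      (mu G ((y0 : Ω) ^ g.natDegree * Polynomial.aeval ((y1 / y0 : Ωˣ) : Ω) g)) j) →
    ∃ d0, ∀ d ≤ d0, Van D (L d) ⊥ j

def SNak : Prop :=
  ∀ (ℓ : ℕ) [Fact ℓ.Prime] (G G' : Type) [AddCommGroup G] [AddCommGroup G'] [Module ℤ_[ℓ] G]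
    (φ : G →+ G') (D : Op G) (D' : Op G') (L : Lat G) (M : Lat G') (j : ℤ),
    Pair D L ⊥ → Lin ℤ_[ℓ] D → Cl ℤ_[ℓ] L → (∀ x, φ (D x) = D' (φ x)) →
    (∀ x ∈ L j, φ x ∈ M j) → (∀ y ∈ M (j - 1), ∃ x ∈ L (j - 1), φ x = y) →
    (∀ x ∈ L j, φ x = 0 → ∃ x' ∈ L j, x = ℓ • x') → (∀ x : G, ℓ • x = 0 → x = 0) →
    FG ℤ_[ℓ] D L ⊥ j → Van D' M ⊥ j → Van D L ⊥ j

def SExt : Prop :=
  ∀ (ℓ : ℕ) [Fact ℓ.Prime] (G G' : Type) [AddCommGroup G] [AddCommGroup G'] [Module ℤ_[ℓ] G]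
    [Module ℂ G'] (ψ : ℤ_[ℓ] →+* ℂ) (φ : G →+ G') (D : Op G) (D' : Op G') (L : Lat G)
    (M : Lat G') (j : ℤ), Function.Injective ψ → (∀ c x, φ (c • x) = ψ c • φ x) →
    Cl ℤ_[ℓ] L → Lin ℂ D' → Cl ℂ M → (∀ x, φ (D x) = D' (φ x)) →
    (∀ x ∈ L (j - 1), φ x ∈ M (j - 1)) →
    (∀ y ∈ M j, y ∈ Submodule.span ℂ (φ '' (L j : Set G))) →
    (∀ (q : ℕ) (c : Fin q → ℂ) (g : Fin q → G),
      (∀ o : Fin q → ℤ_[ℓ], ∑ i, ψ (o i) * c i = 0 → o = 0) → ∑ i, c i • φ (g i) = 0 → g = 0) →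
    Van D L ⊥ j → Van D' M ⊥ j

/-- The setting of the depth argument. -/
structure VOK {Ω G κ : Type} [CommRing Ω] [Algebra ℂ Ω] [AddCommGroup G] [Module Ω G]
    (D : Op G) (L L' : Lat G) (y : κ → Ω) : Prop where
  pair : Pair D L L'
  lin : Lin Ω D
  kp : ∀ g ∈ Algebra.adjoin ℂ (Set.range y), Keeps (mu G g) L L
  kp' : ∀ g ∈ Algebra.adjoin ℂ (Set.range y), Keeps (mu G g) L' L'

/-- The Koszul complex at the point `y0` has no cohomology below `Q`. -/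
def KV {Ω G κ : Type} [CommRing Ω] [Algebra ℂ Ω] [AddCommGroup G] [Module Ω G] [LinearOrder κ]
    [Fintype κ] (D : Op G) (L L' : Lat G) (y : κ → Ω) (Q : ℤ) : Prop :=
  ∀ y0 : κ → ℂ, ∀ j < Q, Van (kos D (fun i => mu G (y i - algebraMap ℂ Ω (y0 i))) univ)
    (kl univ fun _ => L) (kl univ fun _ => L') j

def SV1 : Prop :=
  ∀ (Ω G κ : Type) [CommRing Ω] [Algebra ℂ Ω] [AddCommGroup G] [Module Ω G] [LinearOrder κ]
    [Fintype κ] (D : Op G) (L L' : Lat G) (y : κ → Ω) (Q : ℤ), VOK D L L' y →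
    (∀ i, ∃ g : Polynomial ℂ, g.Monic ∧
      ∀ j, Null D L L' L L' (mu G (Polynomial.aeval (y i) g)) j) →
    KV D L L' y Q → ∀ j < Q, Van D L L' j

def OfV1 : Prop := SCar → SCx → SCone → SFilt → SV1

def SV2 : Prop :=
  ∀ (Ω G κ : Type) [CommRing Ω] [Algebra ℂ Ω] [AddCommGroup G] [Module Ω G] [Module ℂ G]
    [IsScalarTower ℂ Ω G] [LinearOrder κ] [Fintype κ] (D : Op G) (L L' : Lat G) (y : κ → Ω)
    (Q : ℤ), VOK D L L' y → Module.rank ℂ G ≤ Cardinal.aleph0 → KV D L L' y Q →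
    ∀ j < Q - Fintype.card κ, Van D L L' j

def OfV2 : Prop := SCar → SCone → SAm → SV2

def SV : Prop :=
  ∀ (Ω G κ : Type) [CommRing Ω] [Algebra ℂ Ω] [AddCommGroup G] [Module Ω G] [Module ℂ G]
    [IsScalarTower ℂ Ω G] [LinearOrder κ] [Fintype κ] (D : Op G) (L L' : Lat G) (y : κ → Ω)
    (Q : ℤ) (w : ℕ), VOK D L L' y → Module.rank ℂ G ≤ Cardinal.aleph0 →
    (∀ u : Fin (w + 1) → MvPolynomial κ ℂ, ∃ Φ : MvPolynomial (Fin (w + 1)) ℂ, Φ ≠ 0 ∧ ∃ N : ℕ,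
      ∀ j, Null D L L' L L' (mu G (MvPolynomial.aeval y (MvPolynomial.aeval u Φ) ^ N)) j) →
    KV D L L' y Q → ∀ j < Q - w, Van D L L' j

def OfV : Prop := SCar → SCx → SCone → SFilt → SSwap → SV1 → SV2 → SV

/-- The simplex argument. -/
def SMult : Prop :=
  ∀ (Ω G J : Type) [CommRing Ω] [Algebra ℂ Ω] [AddCommGroup G] [Module Ω G] [LinearOrder J]
    (D : Op G) (t : Ω) (H : J → Op G) (L : Lat G) (K : Finset J → Lat G) (I : Finset J) (q : ℤ)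
    (ω η : G) (u : Polynomial ℂ), I.Nonempty → (∀ s, Pair D L (K s)) → Monotone K →
    (∀ g ∈ Algebra.adjoin ℂ {t}, Commute (mu G g) D ∧ (∀ i, Commute (mu G g) (H i)) ∧
      Keeps (mu G g) L L ∧ ∀ s, Keeps (mu G g) (K s) (K s)) →
    (∀ i j, H i * H j + H j * H i = 0) → (∀ i, H i * H i = 0) → (∀ i, Maps (H i) L L (-1)) →
    (∀ i s, Maps (H i) (K s) (K s) (-1)) →
    (∀ i ∈ I, ∀ j, ∀ x ∈ L j, D (H i x) + H i (D x) - t • x ∈ K {i} j) →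
    ω ∈ L q → D ω = 0 → η ∈ L (q - 1) → u.eval 0 ≠ 0 →
    (∀ i ∈ I, (t ^ (I.card - 1) * Polynomial.aeval t u) • ω - D η ∈ K {i} q) →
    (∀ s ⊆ I, s.Nonempty → s ≠ I → Van D L (K s) (q - s.card)) →
    ∃ η' ∈ L (q - I.card), ∑ i ∈ I, sgn i I • ap H (I.erase i) ω - D η' ∈ K I (q - I.card + 1)

def OfMult : Prop := SCar → SAp → SCx → SCone → SFilt → SMult

/-- The truncation argument. -/
def STrunc : Prop :=
  ∀ (G G' : Type) [AddCommGroup G] [AddCommGroup G'] (D0 d : Op G) (D' : Op G') (L : Lat G)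
    (L' : Lat G') (π : ℤ → Op G) (π' : ℤ → Op G') (Φ : ℕ → G' →+ G) (n : ℕ) (q : ℤ),
    Grading π → Grading π' → Pair (D0 + d) L ⊥ → Pair D' L' ⊥ →
    (∀ p, D0 * π p = π p * D0) → (∀ p, d * π p = π (p + 1) * d) → (∀ p, D' * π' p = π' p * D') →
    (∀ p, Keeps (π p) L L) → (∀ p, Keeps (π' p) L' L') →
    (∀ p : ℤ, n < p → π p = 0) → (∀ p : ℤ, p < 0 ∨ n < p → π' p = 0) →
    (∀ p ≤ n, ∀ j, ∀ x ∈ L' j, π' (p : ℕ) x = x → Φ p x ∈ L j) →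
    (∀ p ≤ n, ∀ x, (D0 + d) (Φ p x) = Φ p (D' x)) →
    (∀ p ≤ n, ∀ x, ∀ r : ℤ, (p : ℕ) < r → π r (Φ p x) = 0) →
    (∀ p ≤ n, ∀ j, ∀ y ∈ L j, π (p : ℕ) y = y → d y = 0 → ∃ x ∈ L' j, π' (p : ℕ) x = x ∧
      ∃ w ∈ L (j - 1), π ((p : ℕ) - 1) w = w ∧ y = π (p : ℕ) (Φ p x) + d w) →
    (∀ p ≤ n, ∀ j, ∀ x ∈ L' j, π' (p : ℕ) x = x → ∀ w ∈ L (j - 1), π ((p : ℕ) - 1) w = w →
      π (p : ℕ) (Φ p x) = d w → x = 0) →
    (∀ j ≤ q, Van (D0 + d) L ⊥ j) → ∀ j ≤ q, Van D' L' ⊥ j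

/-! ### Finiteness of the cohomology of graded modules -/

def ST1f : Prop :=
  ∀ (R ι κ : Type) [CommRing R] [IsNoetherianRing R] [Fintype ι] [LinearOrder ι] [Fintype κ]
    (e : κ → ℤ) (d j : ℤ),
    FG R (cech 0) (lat fun σ : Finset ι => deg0 (gsp R (fY R κ ι) (fB R κ ι) e d σ)) ⊥ j

def OfT1f : Prop := SCar → SCx → SFg → ST1f

def ST1k : Prop :=
  ∀ (R ι κ V : Type) [CommRing R] [IsNoetherianRing R] [Fintype ι] [Fintype κ] [AddCommGroup V]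
    [Module R V] (Y : Multiplicative (ι → ℤ) →* Module.End R V) (φ : (κ × (ι → ℤ) →₀ R) →ₗ[R] V)
    (e : κ → ℤ), (∀ β x, φ (fY R κ ι β x) = Y β (φ x)) →
    ∃ (r : ℕ) (z : Fin r → (κ × (ι → ℤ) →₀ R)) (e' : Fin r → ℤ), ∀ d σ,
      gsp R (fY R κ ι) z e' d σ =
        gsp R (fY R κ ι) (fB R κ ι) e d σ ⊓ (LinearMap.ker φ).toAddSubgroup

def ST1 : Prop :=
  ∀ (R ι κ V : Type) [CommRing R] [IsNoetherianRing R] [Fintype ι] [LinearOrder ι] [Fintype κ]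
    [AddCommGroup V] [Module R V] (Y : Multiplicative (ι → ℤ) →* Module.End R V) (g : κ → V)
    (e : κ → ℤ) (d j : ℤ),
    FG R (cech 0) (lat fun σ : Finset ι => if σ = ∅ then ⊥ else deg0 (gsp R Y g e d σ)) ⊥ j

def OfT1 : Prop := SCar → SCone → SFg → ST1f → ST1k → ST1

/-! ### Commutative algebra -/

def SMp : Prop :=
  ∀ (A : Type) [CommRing A] [IsNoetherianRing A] (I : Ideal A) (U : Submonoid A),
    (∀ q : Ideal A, q.IsPrime → I ≤ q → ∃ u ∈ U, u ∈ q) → ∃ u ∈ U, u ∈ I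

/-- Isotropic subvarieties of the cotangent bundle have at most half the dimension. -/
def STd : Prop :=
  ∀ (A K : Type) (m : ℕ) [CommRing A] [Algebra ℂ A] [Algebra.FiniteType ℂ A] [Field K]
    [Algebra ℂ K] (φ : A →ₐ[ℂ] K) (x : Fin m → A) (ξ : Fin m → K),
    (∀ D : A →ₗ[ℂ] K, (∀ g h, D (g * h) = φ g * D h + φ h * D g) → (∀ g, φ g = 0 → D g = 0) →
      ∑ l, ξ l * D (x l) = 0) →
    ∀ u : Fin (m + 1) → K, (∀ i, u i ∈ Algebra.adjoin ℂ (Set.range (fun l => φ (x l)) ∪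
      Set.range ξ)) → ¬ AlgebraicIndependent ℂ u

/-- Division by `X o - c`. -/
def SDiv : Prop :=
  ∀ (Ω κ : Type) [CommRing Ω] [Algebra ℂ Ω] (o : κ) (c : ℂ), ∃ Δ : Op (MvPolynomial κ Ω),
    (∀ P, Δ ((MvPolynomial.X o - algebraMap ℂ _ c) * P) = P) ∧
    (∀ o' ≠ o, ∀ P, Δ (MvPolynomial.X o' * P) = MvPolynomial.X o' * Δ P) ∧
    (∀ g P, Δ (MvPolynomial.C g * P) = MvPolynomial.C g * Δ P) ∧
    ∀ N : AddSubgroup Ω, (∀ (c : ℂ), ∀ g ∈ N, c • g ∈ N) → ∀ P,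
      (∀ e, MvPolynomial.coeff e P ∈ N) → ∀ e, MvPolynomial.coeff e (Δ P) ∈ N

end Pool.Agent.MP_ee8c61_ag.H59
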