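import Pool.Agent.MP_ee8c61_ag.H59.SpecA

/-!
Interface statements, part B: forms, systems of charts, vanishing theorems, the main argument.
-/

namespace Pool.Agent.MP_ee8c61_ag.H59

open Finset Sys

/-! ### Forms -/

structure Fo (Ω : Type) (n : ℕ) [CommRing Ω] : Prop where
  we_we : ∀ α β : Fin n → Ω, we α * we β + we β * we α = 0
  we_sq : ∀ α : Fin n → Ω, we α * we α = 0
  co_co : ∀ α β : Fin n → Ω, co α * co β + co β * co α = 0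
  co_sq : ∀ α : Fin n → Ω, co α * co α = 0
  we_co : ∀ α v : Fin n → Ω, we α * co v + co v * we α = mu _ (v ⬝ᵥ α)
  lin_ep : ∀ l, Lin Ω (ep l : Op (Fm n Ω))
  lin_io : ∀ l, Lin Ω (io l : Op (Fm n Ω))
  lin_we : ∀ α : Fin n → Ω, Lin Ω (we α)
  lin_co : ∀ α : Fin n → Ω, Lin Ω (co α)
  lin_pd : ∀ p, Lin Ω (pd n p : Op (Fm n Ω))
  we_add : ∀ α β : Fin n → Ω, we (α + β) = we α + we β
  we_smul : ∀ (g : Ω) (α : Fin n → Ω), we (g • α) = mu _ g * we α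
  we_sum : ∀ (κ : Type) (s : Finset κ) (α : κ → Fin n → Ω), we (∑ i ∈ s, α i) = ∑ i ∈ s, we (α i)
  we_single : ∀ l, we (Pi.single l (1 : Ω) : Fin n → Ω) = ep l
  co_add : ∀ α β : Fin n → Ω, co (α + β) = co α + co β
  co_smul : ∀ (g : Ω) (α : Fin n → Ω), co (g • α) = mu _ g * co α
  co_sum : ∀ (κ : Type) (s : Finset κ) (α : κ → Fin n → Ω), co (∑ i ∈ s, α i) = ∑ i ∈ s, co (α i)
  co_single : ∀ l, co (Pi.single l (1 : Ω) : Fin n → Ω) = io l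
  co_vac : ∀ (v : Fin n → Ω) g, co v (vac n g) = 0
  we_top : ∀ (α : Fin n → Ω) g, we α (top n g) = 0
  pd_gr : Grading (pd n : ℤ → Op (Fm n Ω))
  pd_out : ∀ p : ℤ, p < 0 ∨ n < p → (pd n p : Op (Fm n Ω)) = 0
  pd_we : ∀ (α : Fin n → Ω) p, we α * pd n p = pd n (p + 1) * we α
  pd_co : ∀ (α : Fin n → Ω) p, co α * pd n (p + 1) = pd n p * co α
  pd_dR : ∀ (R : Fin n → Op Ω) p, dR R * pd n p = pd n (p + 1) * dR R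
  pd_num : ∀ (p : ℕ) (w : Fm n Ω), pd n p w = w → ∑ l, ep l (io l w) = p • w
  pd_zero : ∀ w : Fm n Ω, pd n 0 w = vac n (w ∅)
  pd_top : ∀ w : Fm n Ω, pd n n w = top n (w univ)
  mem_fl : ∀ (N : AddSubgroup Ω) p w, w ∈ fl n N p ↔ (∀ σ, w σ ∈ N) ∧ pd n p w = w
  fl_le : ∀ (N : AddSubgroup Ω) (K : Lat (Fm n Ω)), (∀ g ∈ N, vac n g ∈ K 0) →
    (∀ l, Maps (ep l) K K 1) → ∀ p, fl n N p ≤ K p
  ind : ∀ K : AddSubgroup (Fm n Ω), (∀ g, vac n g ∈ K) → (∀ l, ∀ w ∈ K, ep l w ∈ K) → ∀ w, w ∈ K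
  fl_mu : ∀ (N N' : AddSubgroup Ω) g, (∀ h ∈ N, g * h ∈ N') → Keeps (mu _ g) (fl n N) (fl n N')
  fl_we : ∀ (N N' : AddSubgroup Ω) (α : Fin n → Ω), (∀ l, ∀ h ∈ N, α l * h ∈ N') →
    Maps (we α) (fl n N) (fl n N') 1
  fl_co : ∀ (N N' : AddSubgroup Ω) (α : Fin n → Ω), (∀ l, ∀ h ∈ N, α l * h ∈ N') →
    Maps (co α) (fl n N) (fl n N') (-1)
  fl_dR : ∀ (N N' : AddSubgroup Ω) (R : Fin n → Op Ω), (∀ l, ∀ h ∈ N, R l h ∈ N') →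
    Maps (dR R) (fl n N) (fl n N') 1
  fl_sup : ∀ N N' : AddSubgroup Ω, fl n (N ⊔ N') = fl n N ⊔ fl n N'
  fl_inf : ∀ N N' : AddSubgroup Ω, fl n (N ⊓ N') = fl n N ⊓ fl n N'
  dR_io : ∀ (R : Fin n → Op Ω) l, dR R * io l + io l * dR R = ev (R l)
  up_we : ∀ (Ω' : Type) [CommRing Ω'] (φ : Ω →+ Ω') (α : Fin n → Ω) (α' : Fin n → Ω'),
    (∀ l g, φ (α l * g) = α' l * φ g) → ∀ w, up φ (we α w) = we α' (up φ w)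
  up_co : ∀ (Ω' : Type) [CommRing Ω'] (φ : Ω →+ Ω') (α : Fin n → Ω) (α' : Fin n → Ω'),
    (∀ l g, φ (α l * g) = α' l * φ g) → ∀ w, up φ (co α w) = co α' (up φ w)

def SFo : Prop := ∀ (Ω : Type) (n : ℕ) [CommRing Ω], Fo Ω n

def OfFo : Prop := SCar → SFo

structure Fd {k Ω : Type} {n : ℕ} [CommRing k] [CommRing Ω] [Algebra k Ω]
    (R : Fin n → Derivation k Ω Ω) : Prop where
  sq : (dR fun l => dop (R l)) * (dR fun l => dop (R l)) = 0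
  d_mu : ∀ g, (dR fun l => dop (R l)) * mu _ g = mu _ g * (dR fun l => dop (R l)) + we fun l => R l g
  d_vac : ∀ g, (dR fun l => dop (R l)) (vac n g) = we (fun l => R l g) (vac n 1)
  d_ep : ∀ i, (dR fun l => dop (R l)) * ep i + ep i * (dR fun l => dop (R l)) = 0
  d_we : ∀ α : Fin n → Ω, (∀ i j, R i (α j) = R j (α i)) →
    (dR fun l => dop (R l)) * we α + we α * (dR fun l => dop (R l)) = 0
  d_co_top : ∀ β : Fin n → Ω, (dR fun l => dop (R l)) (co β (top n 1)) = top n (∑ l, R l (β l))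
  d_top : ∀ g, (dR fun l => dop (R l)) (top n g) = 0

def SFd : Prop :=
  ∀ (k Ω : Type) (n : ℕ) [CommRing k] [CommRing Ω] [Algebra k Ω] (R : Fin n → Derivation k Ω Ω),
    (∀ i j g, R i (R j g) = R j (R i g)) → Fd R

def OfFd : Prop := SCar → SFo → SFd

structure La (Ω : Type) (n : ℕ) [CommRing Ω] : Prop where
  lin : ∀ M : Fin n → Fin n → Ω, Lin Ω (lam M)
  vac : ∀ (M : Fin n → Fin n → Ω) g, lam M (vac n g) = vac n g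
  ep : ∀ (M : Fin n → Fin n → Ω) l, lam M * ep l = we (M l) * lam M
  we : ∀ (M : Fin n → Fin n → Ω) α, lam M * we α = we (∑ l, α l • M l) * lam M
  co : ∀ (M : Fin n → Fin n → Ω) v, co v * lam M = lam M * co fun l => v ⬝ᵥ M l
  mul : ∀ M M' : Fin n → Fin n → Ω, lam M * lam M' = lam fun l => ∑ i, M' l i • M i
  one : lam (fun l : Fin n => (Pi.single l 1 : Fin n → Ω)) = 1
  pd : ∀ (M : Fin n → Fin n → Ω) p, Commute (lam M) (pd n p)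
  fl : ∀ (M : Fin n → Fin n → Ω) (N : AddSubgroup Ω), (∀ l i, ∀ h ∈ N, M l i * h ∈ N) →
    Keeps (lam M) (fl n N) (fl n N)
  emp : ∀ (M : Fin n → Fin n → Ω) w, lam M w ∅ = w ∅
  up : ∀ (Ω' : Type) [CommRing Ω'] (φ : Ω →+ Ω') (M : Fin n → Fin n → Ω)
    (M' : Fin n → Fin n → Ω'), (∀ l i g, φ (M l i * g) = M' l i * φ g) →
    ∀ w, up φ (lam M w) = lam M' (up φ w)

def SLa : Prop := ∀ (Ω : Type) (n : ℕ) [CommRing Ω], La Ω n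

def OfLa : Prop := SCar → SAp → SFo → SLa

def SDet : Prop :=
  ∀ (Ω : Type) (n : ℕ) [CommRing Ω] (M : Fin n → Fin n → Ω) (g : Ω),
    lam M (top n g) = top n ((Matrix.of M).det * g)

def OfDet : Prop := SCar → SAp → SFo → SLa → SDet

/-! ### Systems of charts -/

section Sys

variable {k Ω ι J : Type} {n m : ℕ} [CommRing k] [CommRing Ω] [Algebra k Ω] [Fintype J]
  (S : Sys k Ω ι J n)

structure Fr : Prop where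
  ve : ∀ a i j, S.v a i ⬝ᵥ S.e a j = if i = j then 1 else 0
  exp_e : ∀ a (α : Fin n → Ω), α = ∑ i, (S.v a i ⬝ᵥ α) • S.e a i
  exp_v : ∀ a (β : Fin n → Ω), β = ∑ i, (β ⬝ᵥ S.e a i) • S.v a i
  crd_frm : ∀ a, S.crd a * S.frm a = 1
  frm_crd : ∀ a, S.frm a * S.crd a = 1
  crd_we : ∀ a α, S.crd a * we α = we (fun i => S.v a i ⬝ᵥ α) * S.crd a
  crd_co : ∀ a β, S.crd a * co β = co (fun i => β ⬝ᵥ S.e a i) * S.crd a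
  crd_e : ∀ a i, S.crd a * we (S.e a i) = ep i * S.crd a
  crd_v : ∀ a i, S.crd a * co (S.v a i) = io i * S.crd a
  crd_d : ∀ a, S.crd a * S.dd = (dR fun i => dop (S.dv a i)) * S.crd a
  dv_gr : ∀ a i g, S.v a i ⬝ᵥ S.gr g = S.dv a i g
  R_D : ∀ a l g, S.R l g = ∑ i, S.R l (S.z a i) * S.D a i g
  D_comm : ∀ a i j g, S.D a i (S.D a j g) = S.D a j (S.D a i g)
  dv_comm : ∀ a i j g, S.dv a i (S.dv a j g) = S.dv a j (S.dv a i g)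
  e_closed : ∀ a i l l', S.R l (S.e a i l') = S.R l' (S.e a i l)
  un_some : ∀ a j i, S.lab a j = some i → S.un a i = S.η a j
  un_none : ∀ a i, (∀ j, S.lab a j ≠ some i) → S.un a i = 1
  un_mem : ∀ a i, (S.un a i : Ω) ∈ S.A a
  eta_mem : ∀ a j, (S.η a j : Ω) ∈ S.A a
  prod_un : ∀ a, ∏ i, S.un a i = ∏ j, S.η a j
  dv_mon : ∀ a i (c : J → ℤ), S.dv a i (S.mon a c) =
    ((∑ j, if S.lab a j = some i then c j else 0 : ℤ) : Ω) * S.mon a c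
  mon_add : ∀ a c c', S.mon a (c + c') = S.mon a c * S.mon a c'
  mon_zsmul : ∀ a (u : ℤ) c, S.mon a (u • c) = S.mon a c ^ u
  mon_ind : ∀ a j, S.mon a (ind {j}) = S.η a j
  mon_mem : ∀ a c, 0 ≤ c → (S.mon a c : Ω) ∈ S.A a

structure Lo : Prop where
  le : ∀ σ, ∀ a ∈ σ, S.A a ≤ S.AA σ
  mono : Monotone S.AA
  single : ∀ a, S.AA {a} = S.A a
  sup : ∀ σ, ∀ a ∈ σ, ∀ b ∈ σ, S.A a ⊔ S.A b ≤ S.AA σ
  loc : ∀ σ, ∀ a ∈ σ, ∀ g ∈ S.AA σ, ∃ u : Ωˣ, (u : Ω) ∈ S.A a ∧ ((u⁻¹ : Ωˣ) : Ω) ∈ S.AA σ ∧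
    u * g ∈ S.A a
  D_mem : ∀ σ, ∀ a ∈ σ, ∀ i, ∀ g ∈ S.AA σ, S.D a i g ∈ S.AA σ
  dv_mem : ∀ σ, ∀ a ∈ σ, ∀ i, ∀ g ∈ S.AA σ, S.dv a i g ∈ S.AA σ
  mon_div : ∀ σ, ∀ a ∈ σ, ∀ b ∈ σ, ∀ c, ((S.mon a c / S.mon b c : Ωˣ) : Ω) ∈ S.AA σ
  mem_NN : ∀ a σ C g, g ∈ S.NN a σ C ↔
    ∃ h : (J → ℤ) → Ω, (∀ c, h c ∈ S.AA σ) ∧ g = ∑ c ∈ C, S.mon a c * h c
  mem_one : ∀ a σ c g, g ∈ S.NN a σ {c} ↔ g * (((S.mon a c)⁻¹ : Ωˣ) : Ω) ∈ S.AA σ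
  mem_KJ : ∀ a σ c I g, g ∈ S.NN a σ (KJ c I) ↔
    ∃ h : J → Ω, (∀ i, h i ∈ S.AA σ) ∧ g = S.mon a c * ∑ i ∈ I, (S.η a i : Ω) * h i
  indep : ∀ σ, ∀ a ∈ σ, ∀ b ∈ σ, ∀ C, S.NN a σ C = S.NN b σ C
  mul : ∀ a σ C, ∀ h ∈ S.AA σ, ∀ g ∈ S.NN a σ C, h * g ∈ S.NN a σ C
  dv : ∀ σ, ∀ a ∈ σ, ∀ C i, ∀ g ∈ S.NN a σ C, S.dv a i g ∈ S.NN a σ C
  NN_le : ∀ σ, ∀ a ∈ σ, ∀ C C', Le C' C → S.NN a σ C' ≤ S.NN a σ C
  NN_mono : ∀ a σ σ' C, σ ⊆ σ' → S.NN a σ C ≤ S.NN a σ' C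
  NN_union : ∀ [DecidableEq (J → ℤ)] a σ C C', S.NN a σ (C ∪ C') = S.NN a σ C ⊔ S.NN a σ C'
  NN_empty : ∀ a σ, S.NN a σ ∅ = ⊥
  pol : ∀ (m : ℕ) (x : Fin m → Ω) w ρ, S.Pol x w ρ → ∀ a (u : ℤ) (g : Ω),
    (g * (((ρ a)⁻¹ ^ u : Ωˣ) : Ω) ∈ S.A a ↔ g * ((S.mon a (u • w) : Ωˣ) : Ω) ∈ S.A a)

structure Lm : Prop where
  logF : ∀ σ, ∀ a ∈ σ, ∀ α, S.LogF σ α ↔ ∀ i, S.v a i ⬝ᵥ α ∈ S.AA σ
  logV : ∀ σ, ∀ a ∈ σ, ∀ β, S.LogV σ β ↔ ∀ i, β ⬝ᵥ S.e a i ∈ S.AA σ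
  logF_e : ∀ σ, ∀ a ∈ σ, ∀ i, S.LogF σ (S.e a i)
  logV_v : ∀ σ, ∀ a ∈ σ, ∀ i, S.LogV σ (S.v a i)
  logF_all : ∀ α, (∀ a i, S.v a i ⬝ᵥ α ∈ S.A a) → ∀ σ, S.LogF σ α
  mem : ∀ C σ, ∀ a ∈ σ, ∀ p w, w ∈ S.lm C σ p ↔ S.crd a w ∈ fl n (S.NN a σ C) p
  emp : ∀ C, S.lm C ∅ = ⊥
  none : ∀ σ, S.lm ∅ σ = ⊥
  T_none : S.T ∅ = ⊥
  pure : ∀ C σ p, ∀ w ∈ S.lm C σ p, pd n p w = w
  pd : ∀ C σ p, Keeps (pd n p) (S.lm C σ) (S.lm C σ)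
  mu : ∀ C σ, ∀ g ∈ S.AA σ, Keeps (mu _ g) (S.lm C σ) (S.lm C σ)
  mu_all : ∀ C g, (∀ a, g ∈ S.A a) → ∀ σ, Keeps (H59.mu _ g) (S.lm C σ) (S.lm C σ)
  mu_T : ∀ C g, (∀ a, g ∈ S.A a) → Keeps (H59.mu _ g) (S.T C) (S.T C)
  shift : ∀ σ, ∀ a ∈ σ, ∀ c e (g : Ω), g * (((S.mon a e)⁻¹ : Ωˣ) : Ω) ∈ S.AA σ →
    Keeps (H59.mu _ g) (S.lm {c} σ) (S.lm {c + e} σ)
  shift_T : ∀ c e (g : Ω), (∀ a, g * (((S.mon a e)⁻¹ : Ωˣ) : Ω) ∈ S.A a) →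
    Keeps (H59.mu _ g) (S.T {c}) (S.T {c + e})
  we : ∀ C σ α, S.LogF σ α → Maps (we α) (S.lm C σ) (S.lm C σ) 1
  co : ∀ C σ β, S.LogV σ β → Maps (co β) (S.lm C σ) (S.lm C σ) (-1)
  dd : ∀ C σ, Maps S.dd (S.lm C σ) (S.lm C σ) 1
  mono : ∀ C σ σ', σ ⊆ σ' → S.lm C σ ≤ S.lm C σ'
  le : ∀ C C' σ, Le C' C → S.lm C' σ ≤ S.lm C σ
  T_le : ∀ C C', Le C' C → S.T C' ≤ S.T C
  union : ∀ [DecidableEq (J → ℤ)] C C' σ, S.lm (C ∪ C') σ = S.lm C σ ⊔ S.lm C' σ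
  kok : ∀ [Fintype ι] [LinearOrder ι] (d : Op (Fm n Ω)) C C', d * d = 0 → Le C' C →
    (∀ C σ, Maps d (S.lm C σ) (S.lm C σ) 1) → KOK d (fun _ => 1) univ (S.lm C) (S.lm C')
  pair : ∀ [Fintype ι] [LinearOrder ι] (d : Op (Fm n Ω)) C C', d * d = 0 → Le C' C →
    (∀ C σ, Maps d (S.lm C σ) (S.lm C σ) 1) → Pair (cech d) (S.T C) (S.T C')
  kok0 : ∀ [Fintype ι] [LinearOrder ι] (κ : Type) [LinearOrder κ] (t : κ → Ω) s C C', Le C' C →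
    (∀ l ∈ s, ∀ a, t l ∈ S.A a) →
    KOK (cech 0) (fun l => H59.mu _ (t l)) s (fun _ => S.T C) fun _ => S.T C'
  lin0 : ∀ [Fintype ι] [LinearOrder ι], Lin Ω (cech 0 : Op (Ch ι (Fm n Ω)))

structure Ho [Fintype ι] [LinearOrder ι] [Inhabited ι] : Prop where
  maps : ∀ C j, Maps (S.hh j) (S.T C) (S.T C) (-1)
  anti : ∀ i j, S.hh i * S.hh j + S.hh j * S.hh i = 0
  sq : ∀ i, S.hh i * S.hh i = 0
  lin : ∀ i, Lin Ω (S.hh i)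
  d0 : ∀ c j q, ∀ γ ∈ S.T {c} q,
    cech S.dd (S.hh j γ) + S.hh j (cech S.dd γ) - c j • γ ∈ S.T {c + ind {j}} q
  th : ∀ (θ : Fin n → Ω) (g : Ω) j,
    (∀ a, (S.vv a j ⬝ᵥ θ - g) * (((S.η a j)⁻¹ : Ωˣ) : Ω) ∈ S.A a) → ∀ c q, ∀ γ ∈ S.T {c} q,
    od (we θ) (S.hh j γ) + S.hh j (od (we θ) γ) - g • γ ∈ S.T {c + ind {j}} q

structure Pt (κ : Type) : Prop where
  v : ∀ a i l, (S.pol κ).v a i l = MvPolynomial.C (S.v a i l)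
  e : ∀ a i l, (S.pol κ).e a i l = MvPolynomial.C (S.e a i l)
  vv : ∀ a j l, (S.pol κ).vv a j l = MvPolynomial.C (S.vv a j l)
  mon : ∀ a c, ((S.pol κ).mon a c : MvPolynomial κ Ω) = MvPolynomial.C (S.mon a c : Ω)
  mon_inv : ∀ a c, ((((S.pol κ).mon a c)⁻¹ : (MvPolynomial κ Ω)ˣ) : MvPolynomial κ Ω) =
    MvPolynomial.C (((S.mon a c)⁻¹ : Ωˣ) : Ω)
  AA : ∀ σ : Finset ι, σ.Nonempty → ∀ P, P ∈ (S.pol κ).AA σ ↔ ∀ e, MvPolynomial.coeff e P ∈ S.AA σ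
  NN : ∀ σ, ∀ a ∈ σ, ∀ C P, P ∈ (S.pol κ).NN a σ C ↔ ∀ e, MvPolynomial.coeff e P ∈ S.NN a σ C
  mem : ∀ C j γ, γ ∈ (S.pol κ).T C j ↔ ∀ e, up (up (cf κ Ω e)) γ ∈ S.T C j
  keeps : ∀ Δ : Op (MvPolynomial κ Ω),
    (∀ g P, Δ (MvPolynomial.C g * P) = MvPolynomial.C g * Δ P) →
    (∀ N : AddSubgroup Ω, (∀ (c : k), ∀ g ∈ N, c • g ∈ N) → ∀ P,
      (∀ e, MvPolynomial.coeff e P ∈ N) → ∀ e, MvPolynomial.coeff e (Δ P) ∈ N) →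
    ∀ C, Keeps (ev (ev Δ)) ((S.pol κ).T C) ((S.pol κ).T C)
  van : ∀ [Fintype ι] [LinearOrder ι] (κ' : Type) [Fintype κ'] [LinearOrder κ'] (t : κ' → Ω) s
    C C' j, Van (kc 0 t s) (kl s fun _ => S.T C) (kl s fun _ => S.T C') j →
    Van (kc 0 (fun l => MvPolynomial.C (t l)) s) (kl s fun _ => (S.pol κ).T C)
      (kl s fun _ => (S.pol κ).T C') j

end Sys

section All

variable (P : ∀ {k Ω ι J : Type} {n : ℕ} [CommRing k] [CommRing Ω] [Algebra k Ω] [Fintype J],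
  Sys k Ω ι J n → Prop)

/-- A property of all systems. -/
def All : Prop :=
  ∀ (k Ω ι J : Type) (n : ℕ) [CommRing k] [CommRing Ω] [Algebra k Ω] [Fintype J]
    (S : Sys k Ω ι J n), P S

end All

def SFr : Prop := All fun S => Fr S
def SLo : Prop := All fun S => Lo S
def SLm : Prop := All fun S => Lm S
def SHo : Prop := All fun {_ _ ι _} _ _ _ _ _ S => ∀ [Fintype ι] [LinearOrder ι] [Inhabited ι], Ho S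
def SPt : Prop := All fun S => ∀ κ : Type, Pt S κ
def SReg : Prop := All fun S => S.Good → S.Reg

def OfFr : Prop := SCar → SFo → SFd → SLa → SFr
def OfLo : Prop := SFr → SLo
def OfLm : Prop := SCar → SCone → SFo → SLa → SFr → SLo → SLm
def OfHo : Prop := SCar → SFo → SFd → SLa → SFr → SLo → SLm → SHo
def OfPt : Prop := SCar → SCx → SFo → SLa → SFr → SLo → SLm → SPt

def SInter : Prop :=
  All fun S => S.Reg → ∀ c I i, i ∉ I → ∀ σ,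
    S.lm {c + ind {i}} σ ⊓ S.lm (KJ c I) σ = S.lm (KJ (c + ind {i}) I) σ

def OfInter : Prop := SFo → SFr → SLo → SLm → SInter

def SNvK : Prop :=
  All fun {k Ω ι _} n _ _ _ _ S => ∀ [Fintype ι] [LinearOrder ι] (m : ℕ) (x : Fin m → Ω)
    (x0 : Fin m → k), S.Reg → (∀ a l, x l ∈ S.A a) → ∀ I c,
    (∀ W ⊆ I, S.NV x x0 (c + ind W)) → S.NVp x x0 {c} (KJ c I) (n - I.card)

def OfNvK : Prop := SCx → SCone → SLm → SInter → SNvK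

/-! ### Polarizations -/

def SVal : Prop :=
  ∀ (Ω ι J : Type) (n m : ℕ) [CommRing Ω] [IsDomain Ω] [Algebra ℂ Ω] (S : Sys ℂ Ω ι J n)
    (x : Fin m → Ω) (ρ : ι → Ωˣ), (∀ a b, ((ρ a / ρ b : Ωˣ) : Ω) ∈ S.A b) →
    (∀ a b, ∀ g ∈ S.A a, ∃ e : ℕ, (((ρ a / ρ b) ^ e : Ωˣ) : Ω) * g ∈ S.A b) →
    (∀ V : ValuationSubring (FractionRing Ω),
      (∀ c : ℂ, algebraMap Ω (FractionRing Ω) (algebraMap ℂ Ω c) ∈ V) →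
      (∀ l, algebraMap Ω (FractionRing Ω) (x l) ∈ V) →
      ∃ b, ∀ g ∈ S.A b, algebraMap Ω (FractionRing Ω) g ∈ V) →
    ∀ a, ∀ g ∈ S.A a, IsIntegral (Algebra.adjoin ℂ
      (Set.range x ∪ Set.range fun b => ((ρ b / ρ a : Ωˣ) : Ω))) g

def SAdm : Prop :=
  ∀ (Ω ι J : Type) (n m : ℕ) [CommRing Ω] [IsDomain Ω] [Algebra ℂ Ω] [Fintype ι] [Nonempty ι]
    [Fintype J] (S : Sys ℂ Ω ι J n) (x : Fin m → Ω) (w : J → ℤ) (ρ : ι → Ωˣ) (μ : ℕ) (f : Ωˣ)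
    (a : J → ℤ), S.Pol x w ρ → 0 < μ → (∀ c, S.IsU c (f * S.mon c fun j => -a j)) →
    (∀ u : ℤ, S.Adm x (cl w μ + u • a)) ∧
      ∀ W : Finset J, (∀ i ∈ W, (μ : ℤ) ∣ w i) → S.Adm x (cl w μ + ind W)

def OfAdm : Prop := SFr → SLo → SVal → SAdm

/-! ### Finiteness and vanishing for very negative twists -/

def ST1s : Prop :=
  All fun {k Ω ι _} n _ _ _ _ S => ∀ [IsNoetherianRing k] [Fintype ι] [LinearOrder ι] (m : ℕ)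
    (x : Fin m → Ω) w ρ, (∀ a, (S.A a).FG) → S.Pol x w ρ → ∀ c j,
    FG (Algebra.adjoin k (Set.range x)) (cech 0 : Op (Ch ι (Fm n Ω))) (S.T {c}) ⊥ j

/-- Generators of the graded module of sections. -/
def ST1g : Prop :=
  All fun {k Ω ι _} n _ _ _ _ S => ∀ [Fintype ι] (m : ℕ) (x : Fin m → Ω) w (ρ : ι → Ωˣ),
    (∀ a, (S.A a).FG) → S.Pol x w ρ → ∀ c p, ∃ (r : ℕ) (g : Fin r → Fm n Ω) (e : Fin r → ℤ),
    ∀ σ : Finset ι, σ.Nonempty → ∀ y, y ∈ S.lm {c} σ p ↔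
      y ∈ Submodule.span (Algebra.adjoin k (Set.range x)) {v | ∃ (i : Fin r) (β : ι → ℤ),
        (∀ a ∉ σ, 0 ≤ β a) ∧ ∑ a, β a + e i = 0 ∧ v = ((∏ a, ρ a ^ β a : Ωˣ) : Ω) • g i}

def OfT1g : Prop := SFo → SLa → SFr → SLo → SLm → ST1g
def OfT1s : Prop := SCar → SFg → ST1 → SFo → SLm → ST1g → ST1s

structure Gk {k Ω ι J : Type} {n : ℕ} [CommRing k] [CommRing Ω] [Algebra k Ω] [Fintype J]
    (S : Sys k Ω ι J n) [Fintype ι] [LinearOrder ι] : Prop where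
  kok : ∀ (m : ℕ) (x : Fin m → Ω) w ρ (κ : Type) [LinearOrder κ] (t : κ → Ω) dg s c,
    S.Pol x w ρ → S.Hg ρ t dg s →
    KOK (cech 0) (fun l => mu _ (t l)) s (S.gk w c dg) fun _ => ⊥
  fg : ∀ [IsNoetherianRing k] (m : ℕ) (x : Fin m → Ω) (x0 : Fin m → k) w ρ (κ : Type)
    [LinearOrder κ] (t : κ → Ω) dg s c j, (∀ a, (S.A a).FG) → S.Pol x w ρ → S.Hg ρ t dg s → HasX x x0 t dg s →
    FG k (kc 0 t s) (kl s (S.gk w c dg)) ⊥ j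

def SGk : Prop := All fun {_ _ ι _} _ _ _ _ _ S => ∀ [Fintype ι] [LinearOrder ι], Gk S

def OfGk : Prop := SCar → SFgk → SCone → SFilt → SFr → SLo → SLm → ST1s → SGk

def SDepth : Prop :=
  All fun {k Ω _ _} n _ _ _ _ S => S.Reg → ∀ σ, ∀ a ∈ σ, ∀ (κ : Type) [LinearOrder κ]
    (t : κ → Ω) (s : Finset κ), (∀ l ∈ s, t l ∈ S.AA σ) →
    (∀ i, ∃ (g : Polynomial k) (c : κ → Ω), g.Monic ∧ (∀ l, c l ∈ S.AA σ) ∧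
      Polynomial.aeval (S.z a i) g = ∑ l ∈ s, c l * t l) → ∀ c, ∀ j < (n : ℤ),
    Van (kos 0 (fun l => mu Ω (t l)) s) (kl s fun _ => deg0 (S.NN a σ {c})) ⊥ j

def OfDepth : Prop := SKx → SReq → SLo → SDepth

def SELoc : Prop :=
  All fun {k Ω ι _} n _ _ _ _ S => ∀ [Fintype ι] [LinearOrder ι] (m : ℕ) (x : Fin m → Ω) w ρ
    (κ : Type) [LinearOrder κ] (t : κ → Ω) dg s, S.Reg → S.Pol x w ρ → S.Hg ρ t dg s →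
    (∀ a i, ∃ (g : Polynomial k) (c : κ → Ω), g.Monic ∧ (∀ l, c l ∈ S.A a) ∧
      Polynomial.aeval (S.z a i) g = ∑ l ∈ s, c l * (t l * (((ρ a)⁻¹ ^ dg l : Ωˣ) : Ω))) →
    ∀ c, ∀ j ≤ (n : ℤ), Van (kc 0 t s) (kl s (S.gk w c dg)) ⊥ j

def OfELoc : Prop := SCar → SCx → SCone → SSwap → SFo → SLa → SFr → SLo → SLm → SDepth → SELoc

def SEFin : Prop :=
  ∀ (k Ω ι J κ : Type) (n m : ℕ) [Field k] [CommRing Ω] [Algebra k Ω] [Fintype J] [Fintype ι]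
    (S : Sys k Ω ι J n) (x : Fin m → Ω) (x0 : Fin m → k) w ρ (t : κ → Ω) dg s b, (∀ a, (S.A a).FG) →
    S.Pol x w ρ → S.Hg ρ t dg s → HasX x x0 t dg s → S.St ρ t dg s {b} b →
    ∀ a i, ∃ (g : Polynomial k) (c : κ → Ω), g.Monic ∧ (∀ l, c l ∈ S.A a) ∧
      Polynomial.aeval (S.z a i) g = ∑ l ∈ s, c l * (t l * (((ρ a)⁻¹ ^ dg l : Ωˣ) : Ω))

def OfEFin : Prop := SMp → SEFin

def SEsz : Prop :=
  ∀ (k Ω ι J : Type) (n m : ℕ) [Field k] [CommRing Ω] [Algebra k Ω] [Fintype J] [Fintype ι]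
    [LinearOrder ι] [Inhabited ι] (S : Sys k Ω ι J n) (x : Fin m → Ω) x0 w ρ,
    (∀ a, (S.A a).FG) → S.Reg → S.Pol x w ρ → ∀ c, ∃ d0 : ℕ, ∀ d ≥ d0, S.NV x x0 (c + d • w)

def OfEsz : Prop :=
  SCar → SCone → SRi → SStab → SFo → SFr → SLo → SLm → SGk → SELoc → SEFin → SEsz

end Pool.Agent.MP_ee8c61_ag.H59
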