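import Pool.Agent.MP_ee8c61_ag.H59.SpecB

/-!
Interface statements, part C: positive characteristic, transfer, the main argument.
-/

namespace Pool.Agent.MP_ee8c61_ag.H59

open Finset Sys

/-! ### Characteristic `ℓ` -/

section Char

variable {k Ω ι J : Type} {n : ℕ} [CommRing k] [CommRing Ω] [Algebra k Ω] [Fintype J]
  (S : Sys k Ω ι J n) (ℓ : ℕ) [Fact ℓ.Prime] [CharP Ω ℓ]

/-- The local structure of the charts in characteristic `ℓ`. -/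
structure Loc : Prop where
  span : S.Span ℓ
  red : IsReduced Ω
  nzd : ∀ a i g, S.z a i * g = 0 → g = 0

structure Cart : Prop where
  surj : ∀ c σ, ∀ a ∈ σ, ∀ p, ∀ w ∈ S.lm {ℓ • c} σ p, S.dd w = 0 →
    ∃ x ∈ S.lm {c} σ p, ∃ y ∈ S.lm {ℓ • c} σ (p - 1), w = S.fr ℓ a x + S.dd y
  inj : ∀ c σ, ∀ a ∈ σ, ∀ p x, ∀ y ∈ S.lm {ℓ • c} σ p, S.fr ℓ a x = S.dd y → x = 0

variable [Fintype ι] [LinearOrder ι] [Inhabited ι] (δ : ι → Fin n → Ω)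

structure Mo : Prop where
  anti : ∀ α, cech S.dd * S.mo ℓ δ α + S.mo ℓ δ α * cech S.dd = 0
  add : ∀ α β, S.mo ℓ δ (α + β) = S.mo ℓ δ α + S.mo ℓ δ β
  smul : ∀ (g : Ω) α, S.mo ℓ δ (g • α) = mu _ (g ^ ℓ) * S.mo ℓ δ α
  comm : ∀ (g : Ω) α, Commute (mu _ (g ^ ℓ)) (S.mo ℓ δ α)
  comm_dd : ∀ g : Ω, Commute (mu _ (g ^ ℓ)) S.dd
  apply : ∀ α γ σ, S.mo ℓ δ α γ σ = (-1 : ℤ) ^ σ.card • we (S.zt ℓ δ (pick σ) α) (γ σ) +
    ∑ b ∈ σ, sgn b σ • (hz ℓ δ (pick (σ.erase b)) α - hz ℓ δ (pick σ) α) • γ (σ.erase b)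
  zt_sum : ∀ a b α, S.zt ℓ δ a α = ∑ i, (S.v b i ⬝ᵥ α) ^ ℓ • S.zt ℓ δ a (S.e b i)
  zt_e : S.FD ℓ δ → ∀ a i, S.zt ℓ δ a (S.e a i) = S.xi ℓ a i • S.e a i
  xi_mem : ∀ a i, S.xi ℓ a i ∈ S.A a
  maps : S.FD ℓ δ → ∀ C σ α, S.LogF σ α → Maps (S.mo ℓ δ α) (S.Tl C σ) (S.Tl C σ) 1

structure Ph1 : Prop where
  chain : ∀ p, cech S.dd * S.Ph ℓ δ p = S.Ph ℓ δ p * cech 0
  semi : ∀ p (g : Ω), S.Ph ℓ δ p * mu _ g = mu _ (g ^ ℓ) * S.Ph ℓ δ p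
  frame : ∀ p a, S.Ph ℓ δ (p + 1) = ∑ i, S.mo ℓ δ (S.e a i) * S.Ph ℓ δ p * od (co (S.v a i))
  deg : ∀ (p : ℕ) (r : ℤ), p < r → ev (pd n r) * S.Ph ℓ δ p = 0

structure Ph2 : Prop where
  mem : ∀ (p : ℕ) c j, ∀ x ∈ S.T {c} j, ev (pd n p) x = x → S.Ph ℓ δ p x ∈ S.T {ℓ • c} j
  lead : ∀ (p : ℕ) x, ev (pd n p) x = x → ∀ σ,
    pd n p (S.Ph ℓ δ p x σ) = p.factorial • S.fr ℓ (pick σ) (x σ)

end Char

section All

variable (P : ∀ {k Ω ι J : Type} {n : ℕ} [CommRing k] [CommRing Ω] [Algebra k Ω] [Fintype J]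
  [Fintype ι] [LinearOrder ι] [Inhabited ι] (_ : Sys k Ω ι J n) (ℓ : ℕ) [Fact ℓ.Prime] [CharP Ω ℓ],
  Prop)

/-- A property of all systems in positive characteristic. -/
def AllP : Prop :=
  ∀ (k Ω ι J : Type) (n : ℕ) [CommRing k] [CommRing Ω] [Algebra k Ω] [Fintype J] [Fintype ι]
    [LinearOrder ι] [Inhabited ι] (S : Sys k Ω ι J n) (ℓ : ℕ) [Fact ℓ.Prime] [CharP Ω ℓ], P S ℓ

end All

def SCart : Prop := AllP fun S ℓ => Loc S ℓ → Cart S ℓ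
def SMo : Prop := AllP fun S ℓ => ∀ δ, Mo S ℓ δ
def SPh1 : Prop := AllP fun S ℓ => ∀ δ, Ph1 S ℓ δ
def SPh2 : Prop := AllP fun S ℓ => ∀ δ, S.FD ℓ δ → Ph2 S ℓ δ

/-- The Cartier isomorphism in coordinates. -/
def SCart0 : Prop :=
  ∀ (Ω : Type) (n ℓ : ℕ) [CommRing Ω] [Fact ℓ.Prime] [CharP Ω ℓ] (d E : Fin n → Op Ω)
    (u : Fin n → Ω) (N : AddSubgroup Ω) (B : Set Ω) (ex : Ω → Fin n → ℤ) (lg : Fin n → Prop)
    [DecidablePred lg], (∀ i j, Commute (d i) (d j)) → (∀ i g, E i g = u i * d i g) →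
    (∀ i j g, d i (u j * g) = u j * d i g + if i = j ∧ ¬ lg j then g else 0) →
    (∀ i, lg i → u i = 1) → (∀ i g, u i * g = 0 → g = 0) → N = AddSubgroup.closure B →
    (∀ g ∈ B, ∀ i, E i g = ex g i • g) → (∀ i, ∀ g ∈ N, u i * g ∈ N ∧ d i g ∈ N) →
    ∃ π : Op (Fm n Ω), (∀ p, ∀ w ∈ fl n N p, dR d w = 0 → ∃ y ∈ fl n N (p - 1), w = π w + dR d y) ∧
      (∀ p, ∀ y ∈ fl n N p, π (dR d y) = 0) ∧
      (∀ (σ : Finset (Fin n)) (g : Ω), (∀ i, E i g = if i ∈ σ ∧ ¬ lg i then -g else 0) →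
        π (Pi.single σ g) = Pi.single σ g) ∧
      ∀ (σ : Finset (Fin n)), ∀ g ∈ B, π (Pi.single σ g) = 0 ∨ g = 0 ∨
        (π (Pi.single σ g) = Pi.single σ g ∧
          ∀ i, (ℓ : ℤ) ∣ ex g i + if i ∈ σ ∧ ¬ lg i then 1 else 0)

def OfCart0 : Prop := SCar → SFo → SCart0
def OfCart : Prop := SFo → SLa → SFr → SLo → SLm → SCart0 → SCart
def OfMo : Prop := SCar → SFo → SFd → SFr → SLo → SLm → SMo
def OfPh1 : Prop := SCar → SFo → SFd → SFr → SMo → SPh1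
def OfPh2 : Prop := SCar → SFo → SLa → SFr → SLo → SLm → SMo → SPh1 → SPh2

def SHara : Prop :=
  AllP fun {_ Ω _ J} _ _ _ _ _ _ _ _ S ℓ _ _ => ∀ (κ : Type) [LinearOrder κ] (t : κ → Ω)
    (s : Finset κ), (∀ l ∈ s, ∀ a, t l ∈ S.A a) → ∀ c c' : J → ℤ,
    (∀ j, ℓ * (c j - 1) < c' j ∧ c' j ≤ ℓ * c j) → ∀ j,
    KOK (cech S.dd) (fun l => mu _ (t l ^ ℓ)) s (fun _ => S.T {c'}) (fun _ => S.T {ℓ • c}) ∧
    KOK (cech S.dd) (fun l => mu _ (t l ^ ℓ)) s (fun _ => S.T {ℓ • c}) (fun _ => ⊥) ∧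
    Van (kc S.dd (fun l => t l ^ ℓ) s) (kl s fun _ => S.T {c'}) (kl s fun _ => S.T {ℓ • c}) j

def OfHara : Prop := SCar → SCx → SCone → SFilt → SFd → SLm → SHo → SMo → SHara

/-- From the Hodge pieces to the de Rham complex. -/
def SDi1 : Prop :=
  AllP fun {k Ω _ J} n _ _ _ _ _ _ _ S ℓ _ _ => ∀ (m : ℕ) (x : Fin m → Ω) (x0 : Fin m → k),
    (∀ a l, x l ∈ S.A a) → ∀ c c' : J → ℤ, (∀ j, ℓ * (c j - 1) < c' j ∧ c' j ≤ ℓ * c j) →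
    S.NV x x0 c' → ∀ j ≤ (n : ℤ), Van (kc S.dd (fun l => (x l - algebraMap k Ω (x0 l)) ^ ℓ) univ)
      (kl univ fun _ => S.T {ℓ • c}) ⊥ j

def OfDi1 : Prop := SCar → SCx → SWt → SCone → SKx → SFo → SLm → SHara → SDi1

def SDi : Prop :=
  AllP fun {k Ω _ J} n _ _ _ _ _ _ _ S ℓ _ _ => ∀ (m : ℕ) (x : Fin m → Ω) (x0 : Fin m → k) δ,
    n < ℓ → S.FD ℓ δ → Loc S ℓ → (∀ a l, x l ∈ S.A a) → ∀ c c' : J → ℤ,
    (∀ j, ℓ * (c j - 1) < c' j ∧ c' j ≤ ℓ * c j) → S.NV x x0 c' → S.NV x x0 c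

def OfDi : Prop :=
  SCar → SCone → STrunc → SFo → SLm → SCart → SPh1 → SPh2 → SHara → SDi1 → SDi

def SSpan : Prop :=
  ∀ (F ι J : Type) (n ℓ : ℕ) [CommRing F] [Fact ℓ.Prime] [Algebra (ZMod ℓ) F]
    (S : Sys (ZMod ℓ) F ι J n), S.Good →
    S.Span ℓ ∧ IsReduced F ∧ ∀ a i g, S.z a i * g = 0 → g = 0

def SNVl : Prop :=
  ∀ (F ι J : Type) (n m ℓ : ℕ) [CommRing F] [Fact ℓ.Prime] [Algebra (ZMod ℓ) F] [Fintype J]
    [Fintype ι] [LinearOrder ι] [Inhabited ι] (S : Sys (ZMod ℓ) F ι J n) (x : Fin m → F) x0 w ρ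
    (μ : ℕ) δ, n < ℓ → 0 < μ → S.Good → S.Pol x w ρ → S.FD ℓ δ → S.NV x x0 (cl w μ)

def OfNVl : Prop := SReg → SSpan → SEsz → SDi → SNVl

/-! ### Transfer to characteristic zero -/

structure Hm {k Ω k' Ω' ι J : Type} {n : ℕ} [CommRing k] [CommRing Ω] [Algebra k Ω] [CommRing k']
    [CommRing Ω'] [Algebra k' Ω'] [Fintype J] (S : Sys k Ω ι J n) (S' : Sys k' Ω' ι J n)
    (φ : Ω →+* Ω') : Prop where
  mon : ∀ a c, φ (S.mon a c) = S'.mon a c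
  mon_inv : ∀ a c, φ (((S.mon a c)⁻¹ : Ωˣ) : Ω) = (((S'.mon a c)⁻¹ : Ω'ˣ) : Ω')
  crd : ∀ a w, up (φ : Ω →+ Ω') (S.crd a w) = S'.crd a (up (φ : Ω →+ Ω') w)
  frm : ∀ a w, up (φ : Ω →+ Ω') (S.frm a w) = S'.frm a (up (φ : Ω →+ Ω') w)
  AA : ∀ σ : Finset ι, σ.Nonempty → ∀ g ∈ S.AA σ, φ g ∈ S'.AA σ
  lm : ∀ c σ p, ∀ w ∈ S.lm {c} σ p, up (φ : Ω →+ Ω') w ∈ S'.lm {c} σ p

def SHm : Prop :=
  ∀ (k Ω k' Ω' ι J : Type) (n : ℕ) [CommRing k] [CommRing Ω] [Algebra k Ω] [CommRing k']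
    [CommRing Ω'] [Algebra k' Ω'] [Fintype J] (S : Sys k Ω ι J n) (S' : Sys k' Ω' ι J n)
    (φ : Ω →+* Ω'), S.Hom S' φ → Hm S S' φ

def OfHm : Prop := SFo → SLa → SLo → SLm → SHm

def SRedL : Prop :=
  ∀ (O F ι J : Type) (n ℓ : ℕ) [Fact ℓ.Prime] [CommRing O] [Algebra ℤ_[ℓ] O] [CommRing F]
    [Algebra (ZMod ℓ) F] [Fintype J] (SO : Sys ℤ_[ℓ] O ι J n) (SF : Sys (ZMod ℓ) F ι J n)
    (rd : O →+* F), RedOK ℓ SO SF rd → ∀ c σ p,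
    (∀ w' ∈ SF.lm {c} σ p, ∃ w ∈ SO.lm {c} σ p, up (rd : O →+ F) w = w') ∧
    ∀ w ∈ SO.lm {c} σ p, up (rd : O →+ F) w = 0 → ∃ w' ∈ SO.lm {c} σ p, w = ℓ • w'

def OfRedL : Prop := SFo → SFr → SLo → SLm → SHm → SRedL

def SExtL : Prop :=
  ∀ (O Ω ι J : Type) (n ℓ : ℕ) [Fact ℓ.Prime] [CommRing O] [Algebra ℤ_[ℓ] O] [CommRing Ω]
    [Algebra ℂ Ω] [Fintype J] (SO : Sys ℤ_[ℓ] O ι J n) (S : Sys ℂ Ω ι J n) (ψ : ℤ_[ℓ] →+* ℂ)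
    (ex : O →+* Ω), ExtOK ℓ SO S ψ ex → ∀ c σ p, ∀ w' ∈ S.lm {c} σ p,
    w' ∈ Submodule.span ℂ (up (ex : O →+ Ω) '' (SO.lm {c} σ p : Set (Fm n O)))

def OfExtL : Prop := SFo → SLa → SFr → SLo → SLm → SHm → SExtL

def STrO : Prop :=
  ∀ (O F ι J : Type) (n m ℓ : ℕ) [Fact ℓ.Prime] [CommRing O] [Algebra ℤ_[ℓ] O] [CommRing F]
    [Algebra (ZMod ℓ) F] [Fintype J] [Fintype ι] [LinearOrder ι] (SO : Sys ℤ_[ℓ] O ι J n)
    (SF : Sys (ZMod ℓ) F ι J n) (rd : O →+* F) (x : Fin m → O) x0 w ρ c, RedOK ℓ SO SF rd →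
    (∀ a, (SO.A a).FG) → SO.Pol x w ρ →
    SF.NV (fun l => rd (x l)) (fun l => PadicInt.toZMod (x0 l)) c → SO.NV x x0 c

def OfTrO : Prop := SCar → SCone → SNak → SLm → SGk → SHm → SRedL → STrO

def STrC : Prop :=
  ∀ (O Ω ι J : Type) (n m ℓ : ℕ) [Fact ℓ.Prime] [CommRing O] [Algebra ℤ_[ℓ] O] [CommRing Ω]
    [Algebra ℂ Ω] [Fintype J] [Fintype ι] [LinearOrder ι] (SO : Sys ℤ_[ℓ] O ι J n)
    (S : Sys ℂ Ω ι J n) (ψ : ℤ_[ℓ] →+* ℂ) (ex : O →+* Ω) (x : Fin m → O) x0 c,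
    ExtOK ℓ SO S ψ ex → SO.NV x x0 c → S.NV (fun l => ex (x l)) (fun l => ψ (x0 l)) c

def OfTrC : Prop := SCar → SExt → SLm → SHm → SExtL → STrC

def SNV : Prop :=
  ∀ (Ω ι J : Type) (n m : ℕ) [CommRing Ω] [IsDomain Ω] [Algebra ℂ Ω] [Fintype J] [Fintype ι]
    [LinearOrder ι] [Inhabited ι] (S : Sys ℂ Ω ι J n) (x : Fin m → Ω) x0 c, S.Good → S.Adm x c →
    S.NV x x0 c

def OfNV : Prop := SSpread → SNVl → STrO → STrC → SNV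

/-! ### The graded complexes -/

section AllC

variable (P : ∀ {Ω ι J : Type} {n m : ℕ} [CommRing Ω] [Algebra ℂ Ω] [Fintype J] [Fintype ι]
  [LinearOrder ι] [Inhabited ι] (_ : Sys ℂ Ω ι J n) (_ : Fin m → Ω) (_ : Ωˣ) (_ : J → ℕ), Prop)

/-- A property of all complex systems with functions `x` and a function `f` of order `a`. -/
def AllC : Prop :=
  ∀ (Ω ι J : Type) (n m : ℕ) [CommRing Ω] [Algebra ℂ Ω] [Fintype J] [Fintype ι] [LinearOrder ι]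
    [Inhabited ι] (S : Sys ℂ Ω ι J n) (x : Fin m → Ω) (f : Ωˣ) (a : J → ℕ),
    (∀ c l, x l ∈ S.A c) → (∀ c, S.IsU c (f * S.mon c fun j => -(a j : ℤ))) → P S x f a

end AllC

section Th

variable {Ω ι J : Type} {n m : ℕ} [CommRing Ω] [Algebra ℂ Ω] [Fintype J] [Fintype ι]
  [LinearOrder ι] [Inhabited ι] (S : Sys ℂ Ω ι J n) (x : Fin m → Ω) (f : Ωˣ) (a : J → ℕ)

open MvPolynomial

/-- The system with the variables `ξ` and `s`. -/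
noncomputable abbrev Sys.px (S : Sys ℂ Ω ι J n) (m : ℕ) : Sys ℂ (PX m Ω) ι J n :=
  S.pol (Option (Fin m))

structure Th : Prop where
  val : ∀ c i, (S.px m).v c i ⬝ᵥ S.th x f =
    ∑ l, X (some l) * C (S.dv c i (x l)) + X none * C (((f⁻¹ : Ωˣ) : Ω) * S.dv c i f)
  dlog : ∀ c i, ∃ h ∈ S.A c, ((f⁻¹ : Ωˣ) : Ω) * S.dv c i f =
    ((∑ j, if S.lab c j = some i then a j else 0 : ℕ) : Ω) + S.un c i * h
  mem : ∀ c i, (S.px m).v c i ⬝ᵥ S.th x f ∈ (S.px m).A c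
  res : ∀ c j, ((S.px m).vv c j ⬝ᵥ S.th x f - (a j : PX m Ω) * X none) *
    ((((S.px m).η c j)⁻¹ : (PX m Ω)ˣ) : PX m Ω) ∈ (S.px m).A c
  anti : (S.px m).dd * we (S.th x f) + we (S.th x f) * (S.px m).dd = 0
  sq : ((S.px m).dd + we (S.th x f)) * ((S.px m).dd + we (S.th x f)) = 0
  maps : ∀ C σ, Maps ((S.px m).dd + we (S.th x f)) ((S.px m).lm C σ) ((S.px m).lm C σ) 1
  maps0 : ∀ C σ, Maps (we (S.th x f)) ((S.px m).lm C σ) ((S.px m).lm C σ) 1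
  comm : ∀ g ∈ Algebra.adjoin ℂ (Set.range (X : Option (Fin m) → PX m Ω)),
    Commute (mu _ g) (cech ((S.px m).dd + we (S.th x f)) : Op (Ch ι (Fm n (PX m Ω))))
  hom : ∀ c j q, ∀ γ ∈ (S.px m).T {c} q,
    cech ((S.px m).dd + we (S.th x f)) ((S.px m).hh j γ) +
      (S.px m).hh j (cech ((S.px m).dd + we (S.th x f)) γ) -
      ((c j : PX m Ω) + (a j : PX m Ω) * X none) • γ ∈ (S.px m).T {c + ind {j}} q

structure Gr : Prop where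
  wok : ∀ C C', Le C' C → WOK (wt ι n m Ω) (cech (we (S.th x f))) (od (S.px m).dd)
    ((S.px m).T C) ((S.px m).T C')
  sum : (cech (we (S.th x f)) + od (S.px m).dd : Op (Ch ι (Fm n (PX m Ω)))) =
    cech ((S.px m).dd + we (S.th x f))
  low : ∀ C j, ∀ γ ∈ (S.px m).T C j, ∀ w < 1 - j, wt ι n m Ω w γ = 0
  hh : ∀ j w, (S.px m).hh j * wt ι n m Ω w = wt ι n m Ω (w + 1) * (S.px m).hh j
  mu : ∀ (g : Ω) w, Commute (mu _ (C g : PX m Ω)) (wt ι n m Ω w)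
  om : wt ι n m Ω (-n) (om ι n (PX m Ω)) = om ι n (PX m Ω)

end Th

def STh : Prop := AllC fun S x f a => Th S x f a
def SGr : Prop := AllC fun S x f _ => Gr S x f

def OfTh : Prop := SCar → SFo → SFd → SFr → SLo → SLm → SHo → SPt → STh
def OfGr : Prop := SCar → SFo → SLm → SPt → STh → SGr

def SSupp : Prop :=
  AllC fun {_ _ _ _ m} _ _ _ _ _ _ S x f a => (∀ c, (S.A c).FG) →
    (∀ c, (S.zh c).toRingHom.Etale) →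
    ∀ u : Fin (m + 1) → MvPolynomial (Fin (m + (m + 1))) ℂ,
    ∃ Φ : MvPolynomial (Fin (m + 1)) ℂ, Φ ≠ 0 ∧ ∀ c, (S.px m).InRad c (S.th x f)
      ((S.px m).mon c fun j => a j) (MvPolynomial.aeval (yy x) (MvPolynomial.aeval u Φ))

/-- Derivations are determined by their values on the coordinates. -/
def SDu : Prop :=
  All fun {k _ _ _} _ _ _ _ _ S => ∀ c, (S.zh c).toRingHom.Etale →
    ∀ (K : Type) [CommRing K] [Algebra k K] (φ : S.A c →ₐ[k] K) (D : S.A c →ₗ[k] K),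
    (∀ g h, D (g * h) = φ g * D h + φ h * D g) → ∀ g : S.A c,
    D g = ∑ i, D ⟨S.z c i, S.z_mem c i⟩ * φ ⟨S.D c i g, S.D_mem c i g g.2⟩

def SSupp1 : Prop :=
  AllC fun {_ _ _ _ m} _ _ _ _ _ _ S x f a => ∀ c, (S.A c).FG → (S.zh c).toRingHom.Etale →
    ∀ q : Ideal ((S.px m).A c), q.IsPrime →
    (∀ i, (S.px m).InQ q ((S.px m).v c i ⬝ᵥ S.th x f)) →
    (S.px m).InQ q ((S.px m).mon c fun j => a j) →
    ∀ u : Fin (m + 1) → MvPolynomial (Fin (m + (m + 1))) ℂ,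
    ∃ Φ : MvPolynomial (Fin (m + 1)) ℂ, Φ ≠ 0 ∧
      (S.px m).InQ q (MvPolynomial.aeval (yy x) (MvPolynomial.aeval u Φ))

def OfSupp1 : Prop := STd → SDu → SFr → SPt → STh → SSupp1
def OfSupp : Prop := SMp → SFr → SPt → STh → SSupp1 → SSupp

def SKill : Prop :=
  All fun {_ Ω ι J} n _ _ _ _ S => ∀ [Fintype ι] [LinearOrder ι] (θ : Fin n → Ω) (C C' : Finset (J → ℤ))
    (av : J → ℤ) (e : ℕ) (g : Ω), (∀ a i, S.v a i ⬝ᵥ θ ∈ S.A a) → Le C' C → 0 ≤ av →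
    (∀ c ∈ C, ∃ c' ∈ C', c' ≤ c + e • av) → (∀ a, g ∈ S.A a) →
    (∀ a, S.InRad a θ (S.mon a av) g) →
    ∃ N : ℕ, ∀ j, Null (cech (we θ)) (S.T C) (S.T C') (S.T C) (S.T C') (mu _ (g ^ N)) j

def OfKill : Prop := SCar → SCx → SCone → SFilt → SFo → SFr → SLo → SLm → SKill

def SXi : Prop :=
  AllC fun {_ _ _ _ m} _ _ _ _ _ _ S x f _ => ∀ C C' q, Le C' C → (∀ x0, S.NVp x x0 C C' q) →
    KV (cech (we (S.th x f))) ((S.px m).T C) ((S.px m).T C') (yy x) (q + m + 2)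

def OfXi : Prop :=
  SCar → SWt → SCone → SRi → SLeft → SDiv → SFo → SLm → SPt → STh → SXi

def SRank : Prop :=
  ∀ (Ω ι J : Type) (n m : ℕ) [CommRing Ω] [Algebra ℂ Ω] [Fintype J] [Fintype ι]
    (S : Sys ℂ Ω ι J n), S.Good → Module.rank ℂ (Ch ι (Fm n (PX m Ω))) ≤ Cardinal.aleph0

def SVY : Prop :=
  AllC fun {_ _ _ _ m} _ _ _ _ _ _ S x f a => S.Good → ∀ C C' q (e : ℕ), Le C' C →
    (∀ c ∈ C, ∃ c' ∈ C', c' ≤ c + e • fun j => (a j : ℤ)) → (∀ x0, S.NVp x x0 C C' q) →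
    ∀ j ≤ q + 1, Van (cech (we (S.th x f))) ((S.px m).T C) ((S.px m).T C') j

def OfVY : Prop := SCar → SV → SFo → SLm → STh → SSupp → SKill → SXi → SRank → SVY

/-! ### The main argument -/

def SEta : Prop :=
  AllC fun {Ω ι J n m} _ _ _ _ _ _ S x f a => ∀ (kk : J → ℕ) (b : Polynomial ℂ) (c0 : J → ℤ),
    S.MainIn x f a kk b → (∀ j, c0 j ≤ kk j + 1) → (∀ j, a j = 0 → c0 j ≤ 0) →
    om ι n (PX m Ω) ∈ (S.px m).T {c0} (n + 1) ∧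
    cech ((S.px m).dd + we (S.th x f)) (om ι n (PX m Ω)) = 0 ∧
    ∃ u : ℕ, ∃ η ∈ (S.px m).T {c0 - u • fun j => (a j : ℤ)} n,
      Polynomial.aeval (MvPolynomial.X none : PX m Ω) b • om ι n (PX m Ω) -
        cech ((S.px m).dd + we (S.th x f)) η ∈ (S.px m).T {c0 + fun j => (a j : ℤ)} (n + 1)

def OfEta : Prop := SCar → SFo → SFd → SLa → SDet → SFr → SLo → SLm → SPt → SEta

def SNon : Prop :=
  AllC fun {Ω ι J n m} _ _ _ _ _ _ S x f a => ∀ [LinearOrder J] (kk : J → ℕ) (b : Polynomial ℂ)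
    (c0 : J → ℤ) (I : Finset J) (c1 : ι) (u : J → ℂ) (q : ℤ), S.MainIn x f a kk b → S.Reg →
    (∀ j, c0 j ≤ kk j + 1) → (∀ i ∈ I, c0 i = kk i + 1) → (∀ i ∈ I, u i ≠ 0) →
    (¬ ∃ h : J → Ω, (∀ i, h i ∈ S.A c1) ∧ 1 = ∑ i ∈ I, (S.η c1 i : Ω) * h i) →
    ap (fun i => mu _ (algebraMap ℂ (PX m Ω) (u i)) * (S.px m).hh i) I (om ι n (PX m Ω)) ∉
      (S.px m).T (KJ c0 I) q

def OfNon : Prop := SCar → SAp → SFo → SLa → SDet → SFr → SLo → SLm → SPt → SNon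

/-- The main argument from the vanishing statements. -/
def SMain0 : Prop :=
  AllC fun {Ω ι J n m} _ _ _ _ _ _ S x f a => ∀ (kk : J → ℕ) (b : Polynomial ℂ) (c0 : J → ℤ)
    (I : Finset J) (la : ℂ) (c1 : ι), S.MainIn x f a kk b → S.Reg → (∀ j, c0 j ≤ kk j + 1) →
    (∀ j, a j = 0 → c0 j ≤ 0) → (∀ i ∈ I, c0 i = kk i + 1) →
    (∀ i ∈ I, (kk i + 1 : ℂ) = la * a i) →
    (¬ ∃ h : J → Ω, (∀ i, h i ∈ S.A c1) ∧ 1 = ∑ i ∈ I, (S.η c1 i : Ω) * h i) →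
    (∀ u : ℕ, Van (cech (we (S.th x f))) ((S.px m).T {c0 - u • fun j => (a j : ℤ)})
      ((S.px m).T {c0}) n) →
    (∀ s ⊆ I, s.Nonempty → Van (cech (we (S.th x f))) ((S.px m).T {c0}) ((S.px m).T (KJ c0 s))
      (n + 1 - s.card)) →
    (Polynomial.X + Polynomial.C la) ^ I.card ∣ b

def OfMain0 : Prop :=
  SAp → SWt → SMult → SLm → SHo → STh → SGr → SEta → SNon → SMain0

def OfMain : Prop := SCx → SCone → SLm → SReg → SNvK → SAdm → SNV → SVY → SMain0 → SMain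

end Pool.Agent.MP_ee8c61_ag.H59
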